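import Mathlib
import Pool.Agent.Work.MP_787500_nt.GP.T01_A0
import Pool.Agent.Work.MP_787500_nt.GP.T02_Ext

/-!
Duality for finite modules over a group with local subgroups, for systems of normal subgroups of finite
index: working definitions (fixed, do not change).

The definitions are those of `GP/Defs.lean` and `GP/FDefs.lean`, for systems `FSys` of normal subgroups
of finite index (instead of 2-power index), and filtrations with an arbitrary submodule instead of
`ZMod 2`.
-/

set_option autoImplicit false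
set_option linter.unusedSectionVars false

namespace Pool.Agent.Work.MP_787500_nt.KR

open Pool.Agent.Work.MP_787500_nt.GP (A0 pr0 half hf IsAct d0 d1 d2 tw cup11 cup21 cup12 cup01 cup02)
open Pool.Agent.Work.MP_787500_nt.PA (TwoSys)

/-! ## Systems -/

/-- a directed system of normal subgroups of finite index -/
structure FSys (G : Type*) [Group G] where
  mem : Subgroup G → Prop
  ex : ∃ W, mem W
  inf : ∀ {W W' : Subgroup G}, mem W → mem W' → mem (W ⊓ W')
  normal : ∀ {W : Subgroup G}, mem W → W.Normal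
  index : ∀ {W : Subgroup G}, mem W → W.index ≠ 0

/-- a system of normal subgroups of 2-power index as a system of subgroups of finite index -/
def ofTwo {G : Type*} [Group G] (S : TwoSys G) : FSys G where
  mem := S.mem
  ex := S.ex
  inf := S.inf
  normal := S.normal
  index := fun h => by
    obtain ⟨k, hk⟩ := S.index h
    rw [hk]
    positivity

section abstract

variable {G : Type*} [Group G] (S : FSys G)

/-- `f` is constant on the cosets of some member of the system -/
def Sm1 {A : Type*} (f : G → A) : Prop := ∃ W, S.mem W ∧ ∀ g, ∀ w ∈ W, f (g * w) = f g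

/-- `f` is constant on the cosets of some member of the system, in both variables -/
def Sm2 {A : Type*} (f : G → G → A) : Prop :=
  ∃ W, S.mem W ∧ ∀ g h, ∀ w ∈ W, ∀ w' ∈ W, f (g * w) (h * w') = f g h

/-- a smooth 2-cocycle modulo 2 -/
def Coc (f : G → G → ZMod 2) : Prop :=
  Sm2 S f ∧ ∀ g h k, f g h + f (g * h) k = f h k + f g (h * k)

/-- the coboundary of a smooth function -/
def Cob (f : G → G → ZMod 2) : Prop :=
  ∃ z : G → ZMod 2, Sm1 S z ∧ ∀ g h, f g h = z g + z h + z (g * h)

/-- uniform continuity for the system -/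
def C1 (z : G → ℤ_[2]) : Prop :=
  ∀ n : ℕ, ∃ W, S.mem W ∧ ∀ g, ∀ w ∈ W, (2 : ℤ_[2]) ^ n ∣ z (g * w) - z g

/-- a continuous character, which is automatically 1 modulo 2 -/
structure IsChar (χ : G → ℤ_[2]) : Prop where
  one : χ 1 = 1
  mul : ∀ g h, χ (g * h) = χ g * χ h
  cont : C1 S χ
  odd : ∀ g, (2 : ℤ_[2]) ∣ χ g - 1

end abstract

section cochains

variable {G : Type*} [Group G] {M : Type*} [AddCommGroup M]

/-- some member of the system acts trivially -/
def Smooth (S : FSys G) (ρ : G → M → M) : Prop := ∃ W, S.mem W ∧ ∀ w ∈ W, ∀ m, ρ w m = m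

/-- smooth 1-cocycles -/
def Z1 (S : FSys G) (ρ : G → M → M) (x : G → M) : Prop :=
  Sm1 S x ∧ ∀ a b, x (a * b) = x a + ρ a (x b)

/-- smooth 2-cocycles -/
def Z2 (S : FSys G) (ρ : G → M → M) (f : G → G → M) : Prop := Sm2 S f ∧ ∀ a b c, d2 ρ f a b c = 0

/-- coboundaries of smooth 1-cochains -/
def B2 (S : FSys G) (ρ : G → M → M) (f : G → G → M) : Prop := ∃ x, Sm1 S x ∧ f = d1 ρ x

end cochains

/-! ## Local and global hypotheses -/

/-- Local hypotheses, coefficients `ℚ_2 / ℤ_2`: `inv` is additive on cocycles twisted by `χ` and kills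
coboundaries. -/
structure LocH {D : Type*} [Group D] (SD : FSys D) (χ : D → ℤ_[2]) (inv : (D → D → A0) → A0) :
    Prop where
  char : IsChar SD χ
  add : ∀ f f', Z2 SD (tw χ) f → Z2 SD (tw χ) f' → inv (fun a b => f a b + f' a b) = inv f + inv f'
  cob : ∀ z, Sm1 SD z → inv (d1 (tw χ) z) = 0

section pair

variable {G : Type*} [Group G] (S : FSys G) (χ : G → ℤ_[2])
  {M M' : Type*} [AddCommGroup M] [AddCommGroup M']

/-- a perfect pair of smooth modules -/
structure Pair (ρ : G → M → M) (ρ' : G → M' → M') (B : M →+ M' →+ A0) : Prop where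
  act : IsAct ρ
  act' : IsAct ρ'
  sm : Smooth S ρ
  sm' : Smooth S ρ'
  eqv : ∀ g m m', B (ρ g m) (ρ' g m') = χ g • B m m'
  nd : ∀ m, (∀ m', B m m' = 0) → m = 0
  nd' : ∀ m', (∀ m, B m m' = 0) → m' = 0

/-- Local duality for a pair: finitely many 1-cocycles, nondegenerate cup product pairing in degrees
1 and 1, and in degrees 0 and 2. -/
structure LDual (inv : (G → G → A0) → A0) (ρ : G → M → M) (ρ' : G → M' → M') (B : M →+ M' →+ A0) :
    Prop where
  fin : Finite {x : G → M // Z1 S ρ x}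
  fin' : Finite {x : G → M' // Z1 S ρ' x}
  one : ∀ x, Z1 S ρ x → (∀ y, Z1 S ρ' y → inv (cup11 ρ' B x y) = 0) → ∃ m, x = d0 ρ m
  one' : ∀ y, Z1 S ρ' y → (∀ x, Z1 S ρ x → inv (cup11 ρ' B x y) = 0) → ∃ m, y = d0 ρ' m
  two : ∀ F, Z2 S ρ' F → (∀ z, (∀ d, ρ d z = z) → inv (cup02 B z F) = 0) → B2 S ρ' F

end pair

section glob

variable {G : Type*} [Group G] (S : FSys G) {I : Type*} [Fintype I] {D : I → Type*}
  [∀ i, Group (D i)] (SD : ∀ i, FSys (D i)) (j : ∀ i, D i →* G) (χ : G → ℤ_[2])
  (inv : ∀ i, (D i → D i → A0) → A0)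

/-- Global hypotheses, coefficients `ℚ_2 / ℤ_2`. -/
structure GlobH : Prop where
  char : IsChar S χ
  jsm : ∀ i W, S.mem W → ∃ W', (SD i).mem W' ∧ ∀ w ∈ W', j i w ∈ W
  loc : ∀ i, LocH (SD i) (fun d => χ (j i d)) (inv i)
  recip : ∀ f, Z2 S (tw χ) f → ∑ i, inv i (fun a b => f (j i a) (j i b)) = 0

variable {M M' : Type*} [AddCommGroup M] [AddCommGroup M']

/-- a family of local 1-cocycles with values in `M` that is orthogonal to all global 1-cocycles with
values in `M'` is global up to coboundaries -/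
def Mid (ρ : G → M → M) (ρ' : G → M' → M') (B : M →+ M' →+ A0) : Prop :=
  ∀ c : ∀ i, D i → M, (∀ i, Z1 (SD i) (fun d => ρ (j i d)) (c i)) →
    (∀ x, Z1 S ρ' x →
      ∑ i, inv i (cup11 (fun d => ρ' (j i d)) B (c i) (fun d => x (j i d))) = 0) →
    ∃ (X : G → M) (Y : I → M), Z1 S ρ X ∧
      ∀ i d, c i d = X (j i d) - d0 (fun d => ρ (j i d)) (Y i) d

/-- a 2-cocycle that is locally a coboundary is a coboundary -/
def Sha2 (ρ : G → M → M) : Prop :=
  ∀ F, Z2 S ρ F → (∀ i, B2 (SD i) (fun d => ρ (j i d)) (fun a b => F (j i a) (j i b))) → B2 S ρ F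

/-- The facts on a pair `(A, A')` from which duality for `(A, A')` follows. -/
structure BaseU (υ : G → M → M) (υ' : G → M' → M') (β : M →+ M' →+ A0) : Prop where
  pair : Pair S χ υ υ' β
  fin : Finite {x : G → M // Z1 S υ x}
  fin' : Finite {x : G → M' // Z1 S υ' x}
  sha : Sha2 S SD j υ
  sha' : Sha2 S SD j υ'
  mid : Mid S SD j inv υ υ' β
  two : ∀ i F, Z2 (SD i) (fun d => υ' (j i d)) F →
    (∀ z, (∀ d, υ (j i d) z = z) → inv i (cup02 β z F) = 0) → B2 (SD i) (fun d => υ' (j i d)) F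

/-- `tr` is a trace functional: on a pair `(d b, c)` with `c i - b|D i` a cocycle for all `i` it is the
sum of the invariants of `c i - b|D i`. -/
def IsTr (tr : ((G → G → G → A0) × (∀ i, D i → D i → A0)) →+ A0) : Prop :=
  ∀ (b : G → G → A0) (c : ∀ i, D i → D i → A0), Sm2 S b →
    (∀ i, Z2 (SD i) (tw fun d => χ (j i d)) (fun u v => c i u v - b (j i u) (j i v))) →
    tr (d2 (tw χ) b, c) = ∑ i, inv i (fun u v => c i u v - b (j i u) (j i v))

/-- Duality, first form: a pair `(F, g)` with `d F = 0`, `d (g i) = F|D i` that is orthogonal to all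
1-cocycles with values in `M'` is a coboundary `(d X, X|D i - d (Y i))`. -/
def PP (tr : ((G → G → G → A0) × (∀ i, D i → D i → A0)) →+ A0) (ρ : G → M → M) (ρ' : G → M' → M')
    (B : M →+ M' →+ A0) : Prop :=
  ∀ (F : G → G → M) (g : ∀ i, D i → M), Z2 S ρ F → (∀ i, Sm1 (SD i) (g i)) →
    (∀ i a b, d1 (fun d => ρ (j i d)) (g i) a b = F (j i a) (j i b)) →
    (∀ x, Z1 S ρ' x → tr (cup21 ρ' B F x,
      fun i => cup11 (fun d => ρ' (j i d)) B (g i) (fun d => x (j i d))) = 0) →
    ∃ (X : G → M) (Y : I → M), Sm1 S X ∧ F = d1 ρ X ∧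
      ∀ i d, g i d = X (j i d) - d0 (fun d => ρ (j i d)) (Y i) d

/-- Duality, second form: a 2-cocycle `F` with values in `M'` that is orthogonal to all pairs `(x, z)`,
`x` a 1-cocycle with values in `M`, `x|D i = d (z i)`, is a coboundary. -/
def QQ (tr : ((G → G → G → A0) × (∀ i, D i → D i → A0)) →+ A0) (ρ : G → M → M) (ρ' : G → M' → M')
    (B : M →+ M' →+ A0) : Prop :=
  ∀ F : G → G → M', Z2 S ρ' F →
    (∀ (x : G → M) (z : I → M), Z1 S ρ x → (∀ i d, x (j i d) = d0 (fun d => ρ (j i d)) (z i) d) →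
      tr (cup12 ρ' B x F, fun i => cup02 B (z i) (fun a b => F (j i a) (j i b))) = 0) →
    B2 S ρ' F

end glob

/-- A filtration of a pair `(M, M')`: `0 → A → M → Q → 0` (maps `e`, `p`) and dually
`0 → Q' → M' → A' → 0` (maps `e'`, `p'`). -/
structure Filt {G A A' M M' Q Q' : Type*} [Group G] [AddCommGroup A] [AddCommGroup A']
    [AddCommGroup M] [AddCommGroup M'] [AddCommGroup Q] [AddCommGroup Q'] (υ : G → A → A)
    (υ' : G → A' → A') (β : A →+ A' →+ A0) (ρ : G → M → M) (ρ' : G → M' → M') (B : M →+ M' →+ A0)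
    (σ : G → Q → Q) (σ' : G → Q' → Q') (C : Q →+ Q' →+ A0) (e : A →+ M) (p : M →+ Q)
    (e' : Q' →+ M') (p' : M' →+ A') : Prop where
  einj : Function.Injective e
  pe : ∀ a, p (e a) = 0
  ker : ∀ m, p m = 0 → ∃ a, m = e a
  psurj : Function.Surjective p
  einj' : Function.Injective e'
  pe' : ∀ a, p' (e' a) = 0
  ker' : ∀ m, p' m = 0 → ∃ a, m = e' a
  psurj' : Function.Surjective p'
  eqv_e : ∀ g a, ρ g (e a) = e (υ g a)
  eqv_p : ∀ g m, p (ρ g m) = σ g (p m)
  eqv_e' : ∀ g a, ρ' g (e' a) = e' (σ' g a)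
  eqv_p' : ∀ g m, p' (ρ' g m) = υ' g (p' m)
  pair1 : ∀ a m, B (e a) m = β a (p' m)
  pair2 : ∀ m a, B m (e' a) = C (p m) a

/-! ## Subgroups of finite index and induced modules -/

/-- `G` acts on the finite set `V`; `u` is a cocycle with values in `C` for the section `s`. For a
subgroup `C` of `G`: `V = G / C`, `i` the inclusion, `s v` a representative of `v`. -/
structure Tra (G C V : Type*) [Group G] [Group C] [MulAction G V] where
  i : C →* G
  s : V → G
  u : G → V → C
  su : ∀ g v, s v * i (u g v) = g * s (g⁻¹ • v)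
  umul : ∀ g h v, u (g * h) v = u g v * u h (g⁻¹ • v)

section tra

variable {G C V : Type*} [Group G] [Group C] [MulAction G V]

/-- the induced module: functions on `V` with values in a `C`-module -/
def ind (T : Tra G C V) {N : Type*} (τ : C → N → N) : G → (V → N) → (V → N) :=
  fun g f v => τ (T.u g v) (f (g⁻¹ • v))

/-- compatibility of a system on `G` and a system on `C` -/
structure Tra.Sm (T : Tra G C V) (S : FSys G) (SC : FSys C) : Prop where
  res : ∀ W, S.mem W → ∃ W', SC.mem W' ∧ ∀ w ∈ W', T.i w ∈ W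
  cores : ∀ W, SC.mem W → ∃ W', S.mem W' ∧ ∀ w ∈ W', ∀ v : V, w • v = v ∧ T.u w v ∈ W

/-- the pairing of induced modules -/
noncomputable def indB [Fintype V] (T : Tra G C V) (χ : G → ℤ_[2]) {N N' : Type*} [AddCommGroup N]
    [AddCommGroup N'] (B : N →+ N' →+ A0) : (V → N) →+ (V → N') →+ A0 :=
  AddMonoidHom.mk' (fun f => AddMonoidHom.mk' (fun f' => ∑ v, χ (T.s v) • B (f v) (f' v))
      (fun f' f'' => by
        simp only [Pi.add_apply, map_add, smul_add, Finset.sum_add_distrib]))
    (fun f g => by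
      ext f'
      simp only [AddMonoidHom.mk'_apply, AddMonoidHom.add_apply, Pi.add_apply, map_add, smul_add,
        Finset.sum_add_distrib])

theorem indB_apply [Fintype V] (T : Tra G C V) (χ : G → ℤ_[2]) {N N' : Type*} [AddCommGroup N]
    [AddCommGroup N'] (B : N →+ N' →+ A0) (f : V → N) (f' : V → N') :
    indB T χ B f f' = ∑ v, χ (T.s v) • B (f v) (f' v) := rfl

/-- the constants: a `G`-module in the module induced from its restriction -/
def cst (T : Tra G C V) {M : Type*} (ρ : G → M → M) (m : M) : V → M := fun v => ρ (T.s v)⁻¹ m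

/-- the sum -/
def tsum [Fintype V] (T : Tra G C V) {M : Type*} [AddCommGroup M] (ρ : G → M → M) (f : V → M) : M :=
  ∑ v, ρ (T.s v) (f v)

/-- corestriction in degree 1 -/
def cor1 [Fintype V] (T : Tra G C V) {M : Type*} [AddCommGroup M] (ρ : G → M → M) (x : C → M) :
    G → M := fun g => ∑ v, ρ (T.s v) (x (T.u g v))

/-- corestriction in degree 2 -/
def cor2 [Fintype V] (T : Tra G C V) {M : Type*} [AddCommGroup M] (ρ : G → M → M)
    (f : C → C → M) : G → G → M :=
  fun g h => ∑ v, ρ (T.s v) (f (T.u g v) (T.u h (g⁻¹ • v)))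

end tra

end Pool.Agent.Work.MP_787500_nt.KR
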