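import Mathlib
import Pool.Agent.Work.MP_787500_nt.KR.Defs
import Pool.Agent.Work.MP_787500_nt.HP.Defs

/-!
Systems of normal subgroups of finite index: definitions (fixed, do not change).

`F` is the system of all allowed subgroups. `big F N₀` consists of the normal subgroups above `F` that meet
`N₀` in a subgroup of 2-power index of `N₀`, `two F` of those of 2-power index; `res F C` is the system
that `F` induces on the subgroup `C`.
-/

set_option autoImplicit false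
set_option linter.unusedSectionVars false

namespace Pool.Agent.Work.MP_787500_nt.KR

open NumberField
open Pool.Agent.Work.MP_787500_nt.PA (TwoSys)
open Pool.Agent.Work.MP_787500_nt.GP (inT GoodT sysT subSys)
open Pool.Agent.Work.MP_787500_nt.HP (inr OpnQ fsys qsys)

universe u

theorem relIndex_inf {G : Type*} [Group G] {W W' N : Subgroup G} [W.Normal] [W'.Normal]
    (h : ∃ k : ℕ, W.relIndex N = 2 ^ k) (h' : ∃ k : ℕ, W'.relIndex N = 2 ^ k) :
    ∃ k : ℕ, (W ⊓ W').relIndex N = 2 ^ k :=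
  HP.index_inf (W := W.subgroupOf N) (W' := W'.subgroupOf N) h h'

/-- the normal subgroups above `F` that meet `N₀` in a subgroup of 2-power index of `N₀` -/
def big {G : Type*} [Group G] (F : FSys G) (N₀ : Subgroup G) : FSys G where
  mem W := W.Normal ∧ (∃ W₁, F.mem W₁ ∧ W₁ ≤ W) ∧ ∃ k : ℕ, W.relIndex N₀ = 2 ^ k
  ex := by
    obtain ⟨W, hW⟩ := F.ex
    exact ⟨⊤, inferInstance, ⟨W, hW, le_top⟩, 0, by simp⟩
  inf := by
    rintro W W' ⟨h1, ⟨V, hV, hV'⟩, h3⟩ ⟨h1', ⟨V', hV1, hV2⟩, h3'⟩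
    exact ⟨inferInstance, ⟨V ⊓ V', F.inf hV hV1, inf_le_inf hV' hV2⟩, relIndex_inf h3 h3'⟩
  normal := fun h => h.1
  index := by
    rintro W ⟨-, ⟨V, hV, hV'⟩, -⟩
    exact fun h0 => F.index hV (Nat.eq_zero_of_zero_dvd (h0 ▸ Subgroup.index_dvd_of_le hV'))

/-- the normal subgroups of 2-power index above `F` -/
def two {G : Type*} [Group G] (F : FSys G) : TwoSys G where
  mem W := W.Normal ∧ (∃ W₁, F.mem W₁ ∧ W₁ ≤ W) ∧ ∃ k : ℕ, W.index = 2 ^ k
  ex := by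
    obtain ⟨W, hW⟩ := F.ex
    exact ⟨⊤, inferInstance, ⟨W, hW, le_top⟩, 0, by simp⟩
  inf := by
    rintro W W' ⟨h1, ⟨V, hV, hV'⟩, h3⟩ ⟨h1', ⟨V', hV1, hV2⟩, h3'⟩
    exact ⟨inferInstance, ⟨V ⊓ V', F.inf hV hV1, inf_le_inf hV' hV2⟩, HP.index_inf h3 h3'⟩
  normal := fun h => h.1
  index := fun h => h.2.2

/-- the system that `F` induces on the subgroup `C` -/
def res {G : Type*} [Group G] (F : FSys G) (C : Subgroup G) : FSys C where
  mem V := V.Normal ∧ ∃ W₁, F.mem W₁ ∧ W₁.subgroupOf C ≤ V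
  ex := by
    obtain ⟨W, hW⟩ := F.ex
    exact ⟨⊤, inferInstance, W, hW, le_top⟩
  inf := by
    rintro V V' ⟨h1, W, hW, hV⟩ ⟨h1', W', hW', hV'⟩
    exact ⟨inferInstance, W ⊓ W', F.inf hW hW', fun x hx => ⟨hV hx.1, hV' hx.2⟩⟩
  normal := fun h => h.1
  index := by
    rintro V ⟨-, W, hW, hV⟩ h0
    have h1 : (W.subgroupOf C).index = 0 := Nat.eq_zero_of_zero_dvd (h0 ▸ Subgroup.index_dvd_of_le hV)
    have := F.normal hW
    have h2 : W.relIndex C ∣ W.index := Subgroup.relIndex_dvd_index_of_normal W C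
    exact F.index hW (Nat.eq_zero_of_zero_dvd ((show W.relIndex C = 0 from h1) ▸ h2))

/-- the open normal subgroups of the absolute Galois group of `K` that contain the inertia groups at the
primes that contain neither 2 nor an element of `T` -/
def fullK {K : Type u} [Field K] [NumberField K] (T : Finset ℕ) : FSys (AbsGal K) where
  mem W := W.Normal ∧ IsOpen (W : Set (AbsGal K)) ∧ ∀ σ ∈ inT K T, σ ∈ W
  ex := ⟨⊤, inferInstance, isOpen_univ, fun _ _ => trivial⟩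
  inf := fun h h' => by
    have := h.1
    have := h'.1
    exact ⟨inferInstance, h.2.1.inter h'.2.1, fun σ hσ => ⟨h.2.2 σ hσ, h'.2.2 σ hσ⟩⟩
  normal := fun h => h.1
  index := by
    rintro W ⟨-, h, -⟩
    have : Finite (AbsGal K ⧸ W) := Subgroup.quotient_finite_of_isOpen W h
    exact Subgroup.index_ne_zero_of_finite

/-- the open normal subgroups of finite index of the subgroup `C` of the absolute Galois group of `K` -/
def fullD {K : Type u} [Field K] (C : Subgroup (AbsGal K)) : FSys C where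
  mem V := V.Normal ∧ V.index ≠ 0 ∧ ∃ U : Subgroup (AbsGal K), IsOpen (U : Set (AbsGal K)) ∧
    U.subgroupOf C ≤ V
  ex := ⟨⊤, inferInstance, by simp, ⊤, isOpen_univ, le_top⟩
  inf := by
    rintro V V' ⟨h1, h2, U, hU, h3⟩ ⟨h1', h2', U', hU', h3'⟩
    exact ⟨inferInstance, Subgroup.index_inf_ne_zero h2 h2', U ⊓ U', hU.inter hU',
      fun x hx => ⟨h3 hx.1, h3' hx.2⟩⟩
  normal := fun h => h.1
  index := fun h => h.2.1

/-- the open normal subgroups of finite index of the group of automorphisms of `Ω` that contain the inertia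
groups at the primes that contain neither 2 nor an element of `T` -/
def fullQ (Ω : Type u) [Field Ω] (T : Set ℕ) : FSys (Ω ≃+* Ω) where
  mem W := (OpnQ W ∧ W.Normal ∧ W.index ≠ 0) ∧
    ∀ Q : Ideal (𝓞 Ω), Q.IsPrime → (2 : 𝓞 Ω) ∉ Q → (∀ l ∈ T, (l : 𝓞 Ω) ∉ Q) → inr Q ≤ W
  ex := ⟨⊤, ⟨⟨∅, fun _ _ => trivial⟩, inferInstance, by simp⟩, fun _ _ _ _ => le_top⟩
  inf := by
    rintro W W' ⟨⟨⟨s, hs⟩, h2, h3⟩, h4⟩ ⟨⟨⟨s', hs'⟩, h2', h3'⟩, h4'⟩
    classical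
    refine ⟨⟨⟨s ∪ s', fun g hg => ⟨hs g fun x hx => hg x (Finset.mem_union_left _ hx),
      hs' g fun x hx => hg x (Finset.mem_union_right _ hx)⟩⟩, inferInstance,
      Subgroup.index_inf_ne_zero h3 h3'⟩, fun Q hQ h2 h5 => le_inf (h4 Q hQ h2 h5) (h4' Q hQ h2 h5)⟩
  normal := fun h => h.1.2.1
  index := fun h => h.1.2.2

/-- the open normal subgroups of finite index of the group `C` of automorphisms of `Ω` -/
def fullC {Ω : Type u} [Field Ω] (C : Subgroup (Ω ≃+* Ω)) : FSys C where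
  mem V := (∃ s : Finset Ω, ∀ g : C, (∀ x ∈ s, (g : Ω ≃+* Ω) x = x) → g ∈ V) ∧ V.Normal ∧ V.index ≠ 0
  ex := ⟨⊤, ⟨∅, fun _ _ => trivial⟩, inferInstance, by simp⟩
  inf := by
    rintro W W' ⟨⟨s, hs⟩, h2, h3⟩ ⟨⟨s', hs'⟩, h2', h3'⟩
    classical
    exact ⟨⟨s ∪ s', fun g hg => ⟨hs g fun x hx => hg x (Finset.mem_union_left _ hx),
      hs' g fun x hx => hg x (Finset.mem_union_right _ hx)⟩⟩, inferInstance,
      Subgroup.index_inf_ne_zero h3 h3'⟩
  normal := fun h => h.2.1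
  index := fun h => h.2.2

/-! ## Comparison with the systems of 2-power index -/

theorem twoSys_ext {G : Type*} [Group G] {S S' : TwoSys G} (h : ∀ W, S.mem W ↔ S'.mem W) : S = S' := by
  cases S
  cases S'
  congr
  funext W
  exact propext (h W)

theorem fSys_ext {G : Type*} [Group G] {S S' : FSys G} (h : ∀ W, S.mem W ↔ S'.mem W) : S = S' := by
  cases S
  cases S'
  congr
  funext W
  exact propext (h W)

theorem two_fullK {K : Type u} [Field K] [NumberField K] (T : Finset ℕ) :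
    two (fullK (K := K) T) = sysT K T := by
  refine twoSys_ext fun W => ⟨?_, fun h => ?_⟩
  · rintro ⟨h1, ⟨V, ⟨hV, hV1, hV2⟩, hVW⟩, k, hk⟩
    refine ⟨h1, Subgroup.isOpen_mono hVW hV1, le_top, fun g _ => ⟨k, ?_⟩, fun σ hσ => hVW (hV2 σ hσ)⟩
    rw [← hk]
    exact Subgroup.pow_index_mem W g
  · exact ⟨h.normal, ⟨W, ⟨h.normal, h.isOpen, h.inertia⟩, le_rfl⟩, (sysT K T).index h⟩

theorem two_fullD {K : Type u} [Field K] (C : Subgroup (AbsGal K)) :
    two (fullD C) = subSys C := by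
  refine twoSys_ext fun W => ⟨?_, ?_⟩
  · rintro ⟨h1, ⟨V, ⟨hV, hV1, U, hU, hV2⟩, hVW⟩, k, hk⟩
    exact ⟨⟨U, hU, hV2.trans hVW⟩, h1, k, hk⟩
  · rintro ⟨⟨U, hU, h2⟩, h1, k, hk⟩
    exact ⟨h1, ⟨W, ⟨h1, by rw [hk]; positivity, U, hU, h2⟩, le_rfl⟩, k, hk⟩

theorem two_fullQ {Ω : Type u} [Field Ω] (T : Set ℕ) : two (fullQ Ω T) = qsys Ω T := by
  refine twoSys_ext fun W => ⟨?_, ?_⟩
  · rintro ⟨h1, ⟨V, ⟨⟨⟨s, hs⟩, hV, hV1⟩, hV2⟩, hVW⟩, hk⟩
    exact ⟨⟨⟨s, fun g hg => hVW (hs g hg)⟩, h1, hk⟩, fun Q hQ h2 h5 => (hV2 Q hQ h2 h5).trans hVW⟩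
  · rintro ⟨⟨hs, h1, k, hk⟩, h4⟩
    exact ⟨h1, ⟨W, ⟨⟨hs, h1, by rw [hk]; positivity⟩, h4⟩, le_rfl⟩, k, hk⟩

theorem two_fullC {Ω : Type u} [Field Ω] (C : Subgroup (Ω ≃+* Ω)) : two (fullC C) = fsys C := by
  refine twoSys_ext fun W => ⟨?_, ?_⟩
  · rintro ⟨h1, ⟨V, ⟨⟨s, hs⟩, hV, hV1⟩, hVW⟩, hk⟩
    exact ⟨⟨s, fun g hg => hVW (hs g hg)⟩, h1, hk⟩
  · rintro ⟨hs, h1, k, hk⟩
    exact ⟨h1, ⟨W, ⟨hs, h1, by rw [hk]; positivity⟩, le_rfl⟩, k, hk⟩

/-- if `N₀` has 2-power index, the big system is the system of 2-power index -/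
theorem big_of_index {G : Type*} [Group G] (F : FSys G) {N₀ : Subgroup G} [N₀.Normal]
    (h : ∃ k : ℕ, N₀.index = 2 ^ k) : big F N₀ = ofTwo (two F) := by
  refine fSys_ext fun W => ⟨?_, ?_⟩
  · rintro ⟨h1, h2, k, hk⟩
    refine ⟨h1, h2, ?_⟩
    obtain ⟨m, hm⟩ := h
    have h3 : (W ⊓ N₀).index = 2 ^ (k + m) := by
      rw [← Subgroup.relIndex_mul_index (inf_le_right : W ⊓ N₀ ≤ N₀), Subgroup.inf_relIndex_right, hk,
        hm, pow_add]
    have h4 : W.index ∣ 2 ^ (k + m) := h3 ▸ Subgroup.index_dvd_of_le inf_le_left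
    obtain ⟨n, -, hn⟩ := (Nat.dvd_prime_pow Nat.prime_two).1 h4
    exact ⟨n, hn⟩
  · rintro ⟨h1, h2, k, hk⟩
    refine ⟨h1, h2, ?_⟩
    have h4 : W.relIndex N₀ ∣ 2 ^ k := hk ▸ Subgroup.relIndex_dvd_index_of_normal W N₀
    obtain ⟨n, -, hn⟩ := (Nat.dvd_prime_pow Nat.prime_two).1 h4
    exact ⟨n, hn⟩

theorem two_le_big {G : Type*} [Group G] (F : FSys G) (N₀ : Subgroup G) {W : Subgroup G}
    (h : (two F).mem W) : (big F N₀).mem W := by
  obtain ⟨h1, h2, k, hk⟩ := h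
  refine ⟨h1, h2, ?_⟩
  have h4 : W.relIndex N₀ ∣ 2 ^ k := hk ▸ Subgroup.relIndex_dvd_index_of_normal W N₀
  obtain ⟨n, -, hn⟩ := (Nat.dvd_prime_pow Nat.prime_two).1 h4
  exact ⟨n, hn⟩

end Pool.Agent.Work.MP_787500_nt.KR
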