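import Mathlib
import Pool.Agent.Work.MP_787500_nt.KR.Sys
import Pool.Agent.Work.MP_787500_nt.KR.LocType

/-!
Cosets of a subgroup of finite index; the plane over the field with two elements: definitions (fixed, do not
change).
-/

set_option autoImplicit false
set_option linter.unusedSectionVars false

namespace Pool.Agent.Work.MP_787500_nt.KR

open Pool.Agent.Work.MP_787500_nt.GP (A0 half hf hf_zero hf_add IsAct d0 d1 tw cup11 cup02)
open Pool.Agent.Work.MP_787500_nt.PA (TwoSys homs)

/-! ## Cosets -/

section cosets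

variable {G : Type*} [Group G] (C : Subgroup G)

open scoped Classical in
/-- a representative of a coset; 1 for the coset of 1 -/
noncomputable def repQ (v : G ⧸ C) : G := if v = ((1 : G) : G ⧸ C) then 1 else v.out

theorem repQ_one : repQ C ((1 : G) : G ⧸ C) = 1 := if_pos rfl

theorem mk_repQ (v : G ⧸ C) : ((repQ C v : G) : G ⧸ C) = v := by
  unfold repQ
  split_ifs with h
  · exact h.symm
  · exact QuotientGroup.out_eq' v

theorem repQ_mem (g : G) (v : G ⧸ C) : (repQ C v)⁻¹ * g * repQ C (g⁻¹ • v) ∈ C := by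
  rw [mul_assoc, ← QuotientGroup.eq, mk_repQ]
  have h : ((g * repQ C (g⁻¹ • v) : G) : G ⧸ C) = g • ((repQ C (g⁻¹ • v) : G) : G ⧸ C) := rfl
  rw [h, mk_repQ, smul_inv_smul]

/-- the section and the cocycle for the cosets of `C` -/
noncomputable def traQ : Tra G C (G ⧸ C) where
  i := C.subtype
  s := repQ C
  u g v := ⟨(repQ C v)⁻¹ * g * repQ C (g⁻¹ • v), repQ_mem C g v⟩
  su g v := by
    simp only [Subgroup.coe_subtype]
    group
  umul g h v := by
    apply Subtype.ext
    simp only [Subgroup.coe_mul, mul_inv_rev, mul_smul]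
    group

theorem traQ_s (v : G ⧸ C) : (traQ C).s v = repQ C v := rfl

theorem traQ_i (c : C) : (traQ C).i c = (c : G) := rfl

theorem traQ_u (g : G) (v : G ⧸ C) :
    (((traQ C).u g v : C) : G) = (repQ C v)⁻¹ * g * repQ C (g⁻¹ • v) := rfl

end cosets

/-! ## The plane -/

/-- the plane over the field with two elements -/
abbrev U2 : Type := ZMod 2 × ZMod 2

/-- the first basis vector -/
def u0 : U2 := (1, 0)

/-- the determinant form -/
def dt (m m' : U2) : ZMod 2 := m.1 * m'.2 + m.2 * m'.1

theorem dt_add_left (a b c : U2) : dt (a + b) c = dt a c + dt b c := by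
  simp only [dt, Prod.fst_add, Prod.snd_add]
  ring

theorem dt_add_right (a b c : U2) : dt a (b + c) = dt a b + dt a c := by
  simp only [dt, Prod.fst_add, Prod.snd_add]
  ring

/-- the determinant form with values in `ℚ_2 / ℤ_2` -/
noncomputable def eU : U2 →+ U2 →+ A0 :=
  AddMonoidHom.mk' (fun m => AddMonoidHom.mk' (fun m' => hf (dt m m'))
      (fun a b => by rw [dt_add_right, hf_add]))
    (fun a b => by
      ext c
      simp only [AddMonoidHom.mk'_apply, AddMonoidHom.add_apply]
      rw [dt_add_left, hf_add])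

theorem eU_apply (m m' : U2) : eU m m' = hf (dt m m') := rfl

section plane

variable {G : Type*} [Group G]

/-- the stabilizer of the first basis vector -/
def Stb (υ : G → U2 → U2) (h : IsAct υ) : Subgroup G where
  carrier := {g | υ g u0 = u0}
  mul_mem' := by
    intro a b ha hb
    show υ (a * b) u0 = u0
    rw [h.mul, show υ b u0 = u0 from hb, show υ a u0 = u0 from ha]
  one_mem' := h.one u0
  inv_mem' := by
    intro a ha
    show υ a⁻¹ u0 = u0
    conv_lhs => rw [← show υ a u0 = u0 from ha]
    rw [← h.mul, inv_mul_cancel, h.one]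

theorem mem_Stb {υ : G → U2 → U2} {h : IsAct υ} {g : G} : g ∈ Stb υ h ↔ υ g u0 = u0 := Iff.rfl

/-- the kernel of the action -/
def Ker (υ : G → U2 → U2) (h : IsAct υ) : Subgroup G where
  carrier := {g | ∀ m, υ g m = m}
  mul_mem' := by
    intro a b ha hb m
    rw [h.mul, hb, ha]
  one_mem' := h.one
  inv_mem' := by
    intro a ha m
    conv_lhs => rw [← ha m]
    rw [← h.mul, inv_mul_cancel, h.one]

theorem mem_Ker {υ : G → U2 → U2} {h : IsAct υ} {g : G} : g ∈ Ker υ h ↔ ∀ m, υ g m = m := Iff.rfl

/-- the action is transitive on the nonzero vectors -/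
def Trn (υ : G → U2 → U2) : Prop := ∀ v : U2, v ≠ 0 → ∃ g, υ g u0 = v

/-- `U` contains a member of the system -/
def Opn (F : FSys G) (C : Subgroup G) : Prop := ∃ W, F.mem W ∧ W ≤ C

/-- For every open subgroup `C` the dimension of the space of homomorphisms `C → ZMod 2` is
`d * (G : C) + 2`. -/
def CountsF (F : FSys G) (d : ℕ) : Prop :=
  ∀ C : Subgroup G, Opn F C →
    FiniteDimensional (ZMod 2) (homs (two (res F C)) (⊤ : Subgroup C)) ∧
    Module.finrank (ZMod 2) (homs (two (res F C)) (⊤ : Subgroup C)) = d * C.index + 2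

end plane

end Pool.Agent.Work.MP_787500_nt.KR
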