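import Mathlib
import Pool.Agent.Work.MP_787500_nt.KR.UDefs

/-!
Corestriction for a subgroup of finite index, on the level of cochains: the homotopy between
`cor ∘ res` and multiplication by the index, and compatibility with coboundaries.
-/

set_option autoImplicit false
set_option linter.unusedSectionVars false

namespace Pool.Agent.Work.MP_787500_nt.KR

open Pool.Agent.Work.MP_787500_nt.GP (A0 IsAct d0 d1 d2 tw)

variable {G C V : Type*} [Group G] [Group C] [MulAction G V] (T : Tra G C V)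
  {M : Type*} [AddCommGroup M] {ρ : G → M → M}

theorem IsAct.zero' (h : IsAct ρ) (g : G) : ρ g 0 = 0 := by
  have := h.add g 0 0
  rw [add_zero] at this
  exact left_eq_add.1 this

theorem IsAct.neg' (h : IsAct ρ) (g : G) (m : M) : ρ g (-m) = -ρ g m := by
  rw [eq_neg_iff_add_eq_zero, ← h.add, neg_add_cancel, IsAct.zero' h]

theorem IsAct.sub' (h : IsAct ρ) (g : G) (m m' : M) : ρ g (m - m') = ρ g m - ρ g m' := by
  rw [sub_eq_add_neg, h.add, IsAct.neg' h, ← sub_eq_add_neg]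

theorem IsAct.sum' (h : IsAct ρ) (g : G) {ι : Type*} (s : Finset ι) (f : ι → M) :
    ρ g (∑ v ∈ s, f v) = ∑ v ∈ s, ρ g (f v) := by
  classical
  induction s using Finset.induction_on with
  | empty => simp only [Finset.sum_empty, IsAct.zero' h]
  | insert a s ha ih => rw [Finset.sum_insert ha, Finset.sum_insert ha, h.add, ih]

/-- `s v * i (u g v) = g * s (g⁻¹ v)` on modules -/
theorem rho_su (hρ : IsAct ρ) (g : G) (v : V) (m : M) :
    ρ (T.s v) (ρ (T.i (T.u g v)) m) = ρ g (ρ (T.s (g⁻¹ • v)) m) := by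
  rw [← hρ.mul, T.su, hρ.mul]

/-- reindexing of a sum over `V` -/
theorem sum_shift [Fintype V] (g : G) (f : V → M) : ∑ v, f (g⁻¹ • v) = ∑ v, f v :=
  Fintype.sum_equiv (MulAction.toPerm g⁻¹) _ _ fun _ => rfl

/-- the homotopy in degree 1 -/
theorem hom1 {x : G → M} (hx : ∀ a b, x (a * b) = x a + ρ a (x b)) (g : G) (v : V) :
    ρ (T.s v) (x (T.i (T.u g v))) = x g + (ρ g (x (T.s (g⁻¹ • v))) - x (T.s v)) := by
  have h1 := hx (T.s v) (T.i (T.u g v))
  rw [T.su, hx] at h1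
  rw [← sub_eq_iff_eq_add'] at h1
  rw [← h1]
  abel

/-- the homotopy in degree 2 -/
def zet (f : G → G → M) (v : V) (g : G) : M := f (T.s v) (T.i (T.u g v)) - f g (T.s (g⁻¹ • v))

theorem hom2 (hρ : IsAct ρ) {f : G → G → M} (hf : ∀ a b c, d2 ρ f a b c = 0) (g h : G) (v : V) :
    ρ (T.s v) (f (T.i (T.u g v)) (T.i (T.u h (g⁻¹ • v)))) =
      f g h + (ρ g (zet T f (g⁻¹ • v) h) - zet T f v (g * h) + zet T f v g) := by
  have e1 := hf (T.s v) (T.i (T.u g v)) (T.i (T.u h (g⁻¹ • v)))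
  have e2 := hf g (T.s (g⁻¹ • v)) (T.i (T.u h (g⁻¹ • v)))
  have e3 := hf g h (T.s (h⁻¹ • g⁻¹ • v))
  simp only [d2] at e1 e2 e3
  rw [T.su, ← map_mul, ← T.umul] at e1
  rw [T.su] at e2
  simp only [zet, IsAct.sub' hρ, mul_inv_rev, mul_smul]
  rw [sub_eq_zero] at e1 e2 e3
  have e1' : ρ (T.s v) (f (T.i (T.u g v)) (T.i (T.u h (g⁻¹ • v)))) =
      f (T.s v) (T.i (T.u g v)) - f (T.s v) (T.i (T.u (g * h) v)) +
        f (g * T.s (g⁻¹ • v)) (T.i (T.u h (g⁻¹ • v))) := by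
    rw [← e1]
    abel
  have e2' : f (g * T.s (g⁻¹ • v)) (T.i (T.u h (g⁻¹ • v))) =
      ρ g (f (T.s (g⁻¹ • v)) (T.i (T.u h (g⁻¹ • v)))) +
        f g (h * T.s (h⁻¹ • g⁻¹ • v)) - f g (T.s (g⁻¹ • v)) := by
    rw [← e2]
    abel
  have e3' : f g (h * T.s (h⁻¹ • g⁻¹ • v)) = f g h + f (g * h) (T.s (h⁻¹ • g⁻¹ • v)) -
      ρ g (f h (T.s (h⁻¹ • g⁻¹ • v))) := by
    rw [← e3]
    abel
  rw [e1', e2', e3']
  abel

variable [Fintype V]

theorem cor1_add (hρ : IsAct ρ) (x y : C → M) :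
    cor1 T ρ (fun c => x c + y c) = fun g => cor1 T ρ x g + cor1 T ρ y g := by
  funext g
  simp only [cor1, hρ.add, Finset.sum_add_distrib]

theorem cor2_add (hρ : IsAct ρ) (x y : C → C → M) :
    cor2 T ρ (fun c d => x c d + y c d) = fun g h => cor2 T ρ x g h + cor2 T ρ y g h := by
  funext g h
  simp only [cor2, hρ.add, Finset.sum_add_distrib]

theorem cor2_sub (hρ : IsAct ρ) (x y : C → C → M) :
    cor2 T ρ (fun c d => x c d - y c d) = fun g h => cor2 T ρ x g h - cor2 T ρ y g h := by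
  funext g h
  simp only [cor2, IsAct.sub' hρ, Finset.sum_sub_distrib]

/-- corestriction of a restriction, degree 0 -/
theorem cor0_fix (hρ : IsAct ρ) {m : M} (hm : ∀ c : C, ρ (T.i c) m = m) (g : G) :
    ρ g (∑ v, ρ (T.s v) m) = ∑ v, ρ (T.s v) m := by
  rw [IsAct.sum' hρ, ← sum_shift g (fun v => ρ (T.s v) m)]
  have h : ∀ v : V, ρ (T.s v) m = ρ g (ρ (T.s (g⁻¹ • v)) m) := by
    intro v
    rw [← rho_su T hρ g v m, hm]
  rw [← sum_shift g (fun v => ρ g (ρ (T.s v) m))]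
  rw [← sum_shift g⁻¹ (fun v => ρ (T.s (g⁻¹ • v)) m)]
  have h2 : ∀ v : V, g⁻¹ • (g⁻¹)⁻¹ • v = v := fun v => inv_smul_smul g v |> fun h => by
    rw [inv_inv]
    exact h
  simp only [h2]
  exact Finset.sum_congr rfl fun v _ => (h v).symm

/-- corestriction of a restriction, degree 1 -/
theorem cor1_res (hρ : IsAct ρ) {x : G → M} (hx : ∀ a b, x (a * b) = x a + ρ a (x b)) (g : G) :
    cor1 T ρ (fun c => x (T.i c)) g = Fintype.card V • x g + d0 ρ (∑ v, x (T.s v)) g := by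
  simp only [cor1, hom1 T hx, Finset.sum_add_distrib, Finset.sum_const, Finset.card_univ, d0,
    Finset.sum_sub_distrib, IsAct.sum' hρ]
  rw [sum_shift g (fun v => ρ g (x (T.s v)))]

/-- corestriction of a restriction, degree 2 -/
theorem cor2_res (hρ : IsAct ρ) {f : G → G → M} (hf : ∀ a b c, d2 ρ f a b c = 0) (g h : G) :
    cor2 T ρ (fun a b => f (T.i a) (T.i b)) g h =
      Fintype.card V • f g h + d1 ρ (fun g => ∑ v, zet T f v g) g h := by
  simp only [cor2, hom2 T hρ hf, Finset.sum_add_distrib, Finset.sum_const, Finset.card_univ, d1,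
    Finset.sum_sub_distrib, IsAct.sum' hρ]
  rw [sum_shift g (fun v => ρ g (zet T f v h))]
  abel

/-- corestriction of a coboundary -/
theorem cor2_d1 (hρ : IsAct ρ) (z : C → M) :
    cor2 T ρ (d1 (fun c => ρ (T.i c)) z) = d1 ρ (cor1 T ρ z) := by
  funext g h
  have e : ρ g (∑ v, ρ (T.s v) (z (T.u h v))) =
      ∑ v, ρ (T.s v) (ρ (T.i (T.u g v)) (z (T.u h (g⁻¹ • v)))) := by
    rw [IsAct.sum' hρ, ← sum_shift g (fun v => ρ g (ρ (T.s v) (z (T.u h v))))]
    exact Finset.sum_congr rfl fun v _ => (rho_su T hρ g v _).symm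
  simp only [cor2, d1, cor1, hρ.add, IsAct.sub' hρ, Finset.sum_add_distrib, Finset.sum_sub_distrib]
  rw [e]
  simp only [← T.umul]

/-- corestriction of the coboundary of an element -/
theorem cor1_d0 (hρ : IsAct ρ) (m : M) :
    cor1 T ρ (d0 (fun c => ρ (T.i c)) m) = d0 ρ (∑ v, ρ (T.s v) m) := by
  funext g
  simp only [cor1, d0, IsAct.sub' hρ, Finset.sum_sub_distrib, rho_su T hρ, IsAct.sum' hρ]
  rw [sum_shift g (fun v => ρ g (ρ (T.s v) m))]

theorem cor1_coc (hρ : IsAct ρ) {x : C → M} (hx : ∀ a b, x (a * b) = x a + ρ (T.i a) (x b))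
    (a b : G) : cor1 T ρ x (a * b) = cor1 T ρ x a + ρ a (cor1 T ρ x b) := by
  have h : d1 (fun c => ρ (T.i c)) x = fun _ _ => 0 := by
    funext c d
    simp only [d1, hx c d]
    abel
  have h2 := congrFun (congrFun (cor2_d1 T hρ x) a) b
  rw [h] at h2
  simp only [cor2, IsAct.zero' hρ, Finset.sum_const_zero, d1] at h2
  rw [eq_comm, sub_eq_zero] at h2
  exact h2.symm

theorem cor2_coc (hρ : IsAct ρ) {f : C → C → M}
    (hf : ∀ a b c, d2 (fun c => ρ (T.i c)) f a b c = 0) (a b c : G) :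
    d2 ρ (cor2 T ρ f) a b c = 0 := by
  have e1 : ρ a (∑ v, ρ (T.s v) (f (T.u b v) (T.u c (b⁻¹ • v)))) =
      ∑ v, ρ (T.s v) (ρ (T.i (T.u a v)) (f (T.u b (a⁻¹ • v)) (T.u c (b⁻¹ • a⁻¹ • v)))) := by
    rw [IsAct.sum' hρ, ← sum_shift a (fun v => ρ a (ρ (T.s v) (f (T.u b v) (T.u c (b⁻¹ • v)))))]
    exact Finset.sum_congr rfl fun v _ => (rho_su T hρ a v _).symm
  simp only [d2, cor2, mul_inv_rev, mul_smul, T.umul]
  rw [e1, ← Finset.sum_sub_distrib, ← Finset.sum_add_distrib, ← Finset.sum_sub_distrib]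
  refine Finset.sum_eq_zero fun v _ => ?_
  rw [← IsAct.sub' hρ, ← hρ.add, ← IsAct.sub' hρ]
  have h := hf (T.u a v) (T.u b (a⁻¹ • v)) (T.u c (b⁻¹ • a⁻¹ • v))
  simp only [d2] at h
  rw [h, IsAct.zero' hρ]

end Pool.Agent.Work.MP_787500_nt.KR
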