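import Mathlib
import Pool.Agent.Work.MP_787500_nt.KR.C1_Cor

/-!
Projection formulas for corestriction and cup products, on the level of cochains. The cup product takes values
in a module `P` with action `π`.
-/

set_option autoImplicit false
set_option linter.unusedSectionVars false

namespace Pool.Agent.Work.MP_787500_nt.KR

open Pool.Agent.Work.MP_787500_nt.GP (A0 IsAct d0 d1 d2 tw)

variable {G C V : Type*} [Group G] [Group C] [MulAction G V] (T : Tra G C V) [Fintype V]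
  {M M' P : Type*} [AddCommGroup M] [AddCommGroup M'] [AddCommGroup P] {ρ : G → M → M}
  {ρ' : G → M' → M'} {π : G → P → P} {B : M →+ M' →+ P}

/-- projection formula, degrees 1 and 1, restriction on the left -/
theorem proj_left (hρ : IsAct ρ) (hρ' : IsAct ρ') (hπ : IsAct π)
    (heqv : ∀ g m m', B (ρ g m) (ρ' g m') = π g (B m m')) {x : G → M}
    (hx : ∀ a b, x (a * b) = x a + ρ a (x b)) {y : C → M'}
    (hy : ∀ a b, y (a * b) = y a + ρ' (T.i a) (y b)) (g h : G) :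
    cor2 T π (fun a b => B (x (T.i a)) (ρ' (T.i a) (y b))) g h =
      B (x g) (ρ' g (cor1 T ρ' y h)) +
        d1 π (fun h => ∑ v, B (x (T.s v)) (ρ' (T.s v) (y (T.u h v)))) g h := by
  have e1 : ρ' g (cor1 T ρ' y h) =
      ∑ v, ρ' (T.s v) (ρ' (T.i (T.u g v)) (y (T.u h (g⁻¹ • v)))) := by
    simp only [cor1]
    rw [IsAct.sum' hρ', ← sum_shift g (fun v => ρ' g (ρ' (T.s v) (y (T.u h v))))]
    exact Finset.sum_congr rfl fun v _ => (rho_su T hρ' g v _).symm
  have e2 : π g (∑ v, B (x (T.s v)) (ρ' (T.s v) (y (T.u h v)))) =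
      ∑ v, B (ρ g (x (T.s (g⁻¹ • v)))) (ρ' (T.s v) (ρ' (T.i (T.u g v)) (y (T.u h (g⁻¹ • v))))) := by
    rw [IsAct.sum' hπ, ← sum_shift g (fun v => π g (B (x (T.s v)) (ρ' (T.s v) (y (T.u h v)))))]
    refine Finset.sum_congr rfl fun v _ => ?_
    rw [← heqv, rho_su T hρ']
  have e3 : ∀ v, y (T.u (g * h) v) = y (T.u g v) + ρ' (T.i (T.u g v)) (y (T.u h (g⁻¹ • v))) :=
    fun v => by rw [T.umul, hy]
  simp only [cor2, d1, e1, e2, e3, map_sum, ← heqv, hom1 T hx, hρ'.add, map_add,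
    AddMonoidHom.add_apply, map_sub, AddMonoidHom.sub_apply, Finset.sum_add_distrib,
    Finset.sum_sub_distrib]
  abel

/-- projection formula, degrees 1 and 1, restriction on the right -/
theorem proj_right (hρ : IsAct ρ) (hρ' : IsAct ρ') (hπ : IsAct π)
    (heqv : ∀ g m m', B (ρ g m) (ρ' g m') = π g (B m m')) {x : C → M}
    (hx : ∀ a b, x (a * b) = x a + ρ (T.i a) (x b)) {y : G → M'}
    (hy : ∀ a b, y (a * b) = y a + ρ' a (y b)) (g h : G) :
    cor2 T π (fun a b => B (x a) (ρ' (T.i a) (y (T.i b)))) g h =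
      B (cor1 T ρ x g) (ρ' g (y h)) -
        d1 π (fun g => ∑ v, B (ρ (T.s v) (x (T.u g v))) (ρ' g (y (T.s (g⁻¹ • v))))) g h := by
  have e0 : ∀ v, ρ' (T.s v) (ρ' (T.i (T.u g v)) (y (T.i (T.u h (g⁻¹ • v))))) =
      ρ' g (y h) + (ρ' (g * h) (y (T.s (h⁻¹ • g⁻¹ • v))) - ρ' g (y (T.s (g⁻¹ • v)))) := by
    intro v
    rw [rho_su T hρ', hom1 T hy, hρ'.add, IsAct.sub' hρ', ← hρ'.mul]
  have e2 : π g (∑ v, B (ρ (T.s v) (x (T.u h v))) (ρ' h (y (T.s (h⁻¹ • v))))) =
      ∑ v, B (ρ (T.s v) (ρ (T.i (T.u g v)) (x (T.u h (g⁻¹ • v)))))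
        (ρ' (g * h) (y (T.s (h⁻¹ • g⁻¹ • v)))) := by
    rw [IsAct.sum' hπ,
      ← sum_shift g (fun v => π g (B (ρ (T.s v) (x (T.u h v))) (ρ' h (y (T.s (h⁻¹ • v))))))]
    refine Finset.sum_congr rfl fun v _ => ?_
    rw [← heqv, rho_su T hρ, hρ'.mul]
  have e3 : ∀ v, x (T.u (g * h) v) = x (T.u g v) + ρ (T.i (T.u g v)) (x (T.u h (g⁻¹ • v))) :=
    fun v => by rw [T.umul, hx]
  simp only [cor2, cor1, d1, e0, e2, e3, map_sum, ← heqv, hρ.add, map_add, mul_inv_rev, mul_smul,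
    AddMonoidHom.finset_sum_apply, AddMonoidHom.add_apply, map_sub, AddMonoidHom.sub_apply,
    Finset.sum_add_distrib, Finset.sum_sub_distrib]
  abel

/-- projection formula, degrees 0 and 2, restriction of the 2-cocycle -/
theorem proj_zero (hρ : IsAct ρ) (hρ' : IsAct ρ') (hπ : IsAct π)
    (heqv : ∀ g m m', B (ρ g m) (ρ' g m') = π g (B m m')) {z : M}
    (hz : ∀ c : C, ρ (T.i c) z = z) {F : G → G → M'} (hF : ∀ a b c, d2 ρ' F a b c = 0) (g h : G) :
    cor2 T π (fun a b => B z (F (T.i a) (T.i b))) g h =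
      B (∑ v, ρ (T.s v) z) (F g h) +
        d1 π (fun g => ∑ v, B (ρ (T.s v) z) (zet T F v g)) g h := by
  have e1 : ∀ v, ρ (T.s v) z = ρ g (ρ (T.s (g⁻¹ • v)) z) := by
    intro v
    rw [← rho_su T hρ g v z, hz]
  have e2 : π g (∑ v, B (ρ (T.s v) z) (zet T F v h)) =
      ∑ v, B (ρ (T.s v) z) (ρ' g (zet T F (g⁻¹ • v) h)) := by
    rw [IsAct.sum' hπ, ← sum_shift g (fun v => π g (B (ρ (T.s v) z) (zet T F v h)))]
    refine Finset.sum_congr rfl fun v _ => ?_
    rw [← heqv, ← e1]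
  simp only [cor2, d1, e2, map_sum, ← heqv, hom2 T hρ' hF, map_add, AddMonoidHom.finset_sum_apply,
    map_sub, Finset.sum_add_distrib, Finset.sum_sub_distrib]
  abel

/-- projection formula, degrees 0 and 2, restriction of the invariant element -/
theorem proj_zero' (heqv : ∀ g m m', B (ρ g m) (ρ' g m') = π g (B m m')) {z : M}
    (hz : ∀ g, ρ g z = z) (F : C → C → M') (g h : G) :
    cor2 T π (fun a b => B z (F a b)) g h = B z (cor2 T ρ' F g h) := by
  simp only [cor2, map_sum, ← heqv, hz]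

/-- the projection formula for homomorphisms to `ZMod 2` -/
theorem proj_two {x : G → ZMod 2} (hx : ∀ a b, x (a * b) = x a + x b) {y : C → ZMod 2}
    (hy : ∀ a b, y (a * b) = y a + y b) (g h : G) :
    cor2 T (fun _ m => m) (fun a b => x (T.i a) * y b) g h =
      x g * cor1 T (fun _ m => m) y h +
        d1 (fun _ m => m) (fun h => ∑ v, x (T.s v) * y (T.u h v)) g h :=
  proj_left T (M := ZMod 2) (M' := ZMod 2) (P := ZMod 2) (ρ := fun _ m => m) (ρ' := fun _ m => m)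
    (π := fun _ m => m) (B := AddMonoidHom.mul) ⟨fun _ => rfl, fun _ _ _ => rfl, fun _ _ _ => rfl⟩
    ⟨fun _ => rfl, fun _ _ _ => rfl, fun _ _ _ => rfl⟩
    ⟨fun _ => rfl, fun _ _ _ => rfl, fun _ _ _ => rfl⟩ (fun _ _ _ => rfl) hx hy g h

end Pool.Agent.Work.MP_787500_nt.KR
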