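import Mathlib
import Pool.Agent.Work.MP_787500_nt.KR.C2_Proj

/-!
Smoothness of corestrictions and of the homotopies; compatibility of the systems for the cosets of a
subgroup.
-/

set_option autoImplicit false
set_option linter.unusedSectionVars false

namespace Pool.Agent.Work.MP_787500_nt.KR

open Pool.Agent.Work.MP_787500_nt.GP (A0 IsAct d0 d1 d2 tw)

section smooth

variable {G C V : Type*} [Group G] [Group C] [MulAction G V] (T : Tra G C V)
  {S : FSys G} {SC : FSys C} {M : Type*} [AddCommGroup M] {ρ : G → M → M}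

theorem Tra.Sm.fix {T : Tra G C V} (hT : T.Sm S SC) {W : Subgroup C} (hW : SC.mem W) :
    ∃ W', S.mem W' ∧ ∀ w ∈ W', (∀ v : V, w • v = v ∧ w⁻¹ • v = v) ∧
      ∀ (g : G) (v : V), ∃ c ∈ W, T.u (g * w) v = T.u g v * c := by
  obtain ⟨W', hW', h⟩ := hT.cores W hW
  refine ⟨W', hW', fun w hw => ⟨fun v => ⟨(h w hw v).1, ?_⟩, fun g v => ?_⟩⟩
  · rw [inv_smul_eq_iff, (h w hw v).1]
  · exact ⟨T.u w (g⁻¹ • v), (h w hw _).2, T.umul g w v⟩

/-- pulling back a smooth function on `C` -/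
theorem pull_sm {T : Tra G C V} (hT : T.Sm S SC) {A B : Type*} {x : C → A} (hx : Sm1 SC x)
    (Φ : (V → A) → B) : Sm1 S (fun g => Φ fun v => x (T.u g v)) := by
  obtain ⟨W, hW, h⟩ := hx
  obtain ⟨W', hW', h'⟩ := hT.fix hW
  refine ⟨W', hW', fun g w hw => ?_⟩
  have e1 : (fun v => x (T.u (g * w) v)) = fun v => x (T.u g v) := by
    funext v
    obtain ⟨c, hc, e⟩ := (h' w hw).2 g v
    rw [e, h _ c hc]
  show Φ _ = Φ _
  rw [e1]

theorem cor1_sm [Fintype V] {T : Tra G C V} (hT : T.Sm S SC) {x : C → M} (hx : Sm1 SC x) :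
    Sm1 S (cor1 T ρ x) :=
  pull_sm hT hx fun y => ∑ v, ρ (T.s v) (y v)

theorem cor2_sm [Fintype V] {T : Tra G C V} (hT : T.Sm S SC) {f : C → C → M} (hf : Sm2 SC f) :
    Sm2 S (cor2 T ρ f) := by
  obtain ⟨W, hW, h⟩ := hf
  obtain ⟨W', hW', h'⟩ := hT.fix hW
  refine ⟨W', hW', fun g k w hw w' hw' => ?_⟩
  refine Finset.sum_congr rfl fun v _ => ?_
  obtain ⟨c, hc, e⟩ := (h' w hw).2 g v
  have e2 : (g * w)⁻¹ • v = g⁻¹ • v := by
    rw [mul_inv_rev, mul_smul, ((h' w hw).1 _).2]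
  obtain ⟨c', hc', e'⟩ := (h' w' hw').2 k (g⁻¹ • v)
  rw [e, e2, e', h _ _ c hc c' hc']

theorem zet_sm {T : Tra G C V} (hT : T.Sm S SC) {f : G → G → M} (hf : Sm2 S f) (v : V) :
    Sm1 S (zet T f v) := by
  obtain ⟨W, hW, h⟩ := hf
  obtain ⟨W₁, hW₁, h₁⟩ := hT.res W hW
  obtain ⟨W', hW', h'⟩ := hT.fix hW₁
  refine ⟨W ⊓ W', S.inf hW hW', fun g w hw => ?_⟩
  obtain ⟨c, hc, e⟩ := (h' w hw.2).2 g v
  have e2 : (g * w)⁻¹ • v = g⁻¹ • v := by
    rw [mul_inv_rev, mul_smul, ((h' w hw.2).1 _).2]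
  have h3 := h (T.s v) (T.i (T.u g v)) 1 W.one_mem (T.i c) (h₁ c hc)
  have h4 := h g (T.s (g⁻¹ • v)) w hw.1 1 W.one_mem
  rw [mul_one] at h3 h4
  simp only [zet, e, e2, map_mul, h3, h4]

theorem sum_sm {ι : Type*} [Fintype ι] {x : ι → G → M} (hx : ∀ v, Sm1 S (x v)) :
    Sm1 S (fun g => ∑ v, x v g) := by
  classical
  choose W hW h using hx
  have key : ∀ s : Finset ι, ∃ W', S.mem W' ∧ ∀ v ∈ s, W' ≤ W v := by
    intro s
    induction s using Finset.induction_on with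
    | empty => obtain ⟨W', hW'⟩ := S.ex; exact ⟨W', hW', by simp⟩
    | insert a s _ ih =>
      obtain ⟨W', hW', h'⟩ := ih
      refine ⟨W' ⊓ W a, S.inf hW' (hW a), fun v hv => ?_⟩
      rcases Finset.mem_insert.1 hv with rfl | hv
      · exact inf_le_right
      · exact inf_le_left.trans (h' v hv)
  obtain ⟨W', hW', h'⟩ := key Finset.univ
  exact ⟨W', hW', fun g w hw => Finset.sum_congr rfl fun v _ => h v g w (h' v (Finset.mem_univ v) hw)⟩

/-- the second homotopy of `proj_right` is smooth -/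
theorem right_sm [Fintype V] {T : Tra G C V} (hT : T.Sm S SC) {M' P : Type*} [AddCommGroup M']
    [AddCommGroup P] {ρ' : G → M' → M'} (hρ' : IsAct ρ') (hs : Smooth S ρ') (B : M →+ M' →+ P)
    {x : C → M} (hx : Sm1 SC x) (y : G → M') :
    Sm1 S (fun g => ∑ v, B (ρ (T.s v) (x (T.u g v))) (ρ' g (y (T.s (g⁻¹ • v))))) := by
  obtain ⟨W, hW, h⟩ := hx
  obtain ⟨W', hW', h'⟩ := hT.fix hW
  obtain ⟨W₂, hW₂, h₂⟩ := hs
  refine ⟨W' ⊓ W₂, S.inf hW' hW₂, fun g w hw => Finset.sum_congr rfl fun v _ => ?_⟩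
  obtain ⟨c, hc, e⟩ := (h' w hw.1).2 g v
  have e2 : (g * w)⁻¹ • v = g⁻¹ • v := by
    rw [mul_inv_rev, mul_smul, ((h' w hw.1).1 _).2]
  rw [e, e2, h _ c hc, hρ'.mul, h₂ w hw.2]

end smooth

section cosets

variable {G : Type*} [Group G] {F : FSys G} {N₀ C : Subgroup G}

theorem two_pow_of_pow {N W : Subgroup G} (h0 : W.relIndex N ≠ 0) (hn : (W.subgroupOf N).Normal)
    (h : ∀ n ∈ N, ∃ k : ℕ, n ^ 2 ^ k ∈ W) : ∃ k : ℕ, W.relIndex N = 2 ^ k := by
  have : Fact (Nat.Prime 2) := ⟨Nat.prime_two⟩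
  have hfin : Finite (N ⧸ W.subgroupOf N) := by
    refine Nat.finite_of_card_ne_zero ?_
    exact h0
  have hp : IsPGroup 2 (N ⧸ W.subgroupOf N) := by
    intro x
    obtain ⟨g, rfl⟩ := QuotientGroup.mk_surjective x
    obtain ⟨k, hk⟩ := h g g.2
    refine ⟨k, ?_⟩
    rw [← QuotientGroup.mk_pow, QuotientGroup.eq_one_iff]
    exact hk
  obtain ⟨k, hk⟩ := (IsPGroup.iff_card (p := 2)).1 hp
  exact ⟨k, hk⟩

theorem pow_relIndex_mem {N W : Subgroup G} (hn : (W.subgroupOf N).Normal) {n : G} (h : n ∈ N) :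
    n ^ W.relIndex N ∈ W := by
  have := Subgroup.pow_index_mem (W.subgroupOf N) (⟨n, h⟩ : N)
  exact this

/-- compatibility of the systems, all subgroups of finite index -/
theorem traQ_sm_full (hC : Opn F C) : (traQ C).Sm F (res F C) where
  res W hW := by
    have := F.normal hW
    exact ⟨W.subgroupOf C, ⟨inferInstance, W, hW, le_rfl⟩, fun w hw => hw⟩
  cores V hV := by
    obtain ⟨h1, W₁, hW₁, h2⟩ := hV
    obtain ⟨W₂, hW₂, h3⟩ := hC
    have n1 := F.normal hW₁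
    have n2 := F.normal hW₂
    refine ⟨W₁ ⊓ W₂, F.inf hW₁ hW₂, fun w hw v => ?_⟩
    have hc : (repQ C v)⁻¹ * w * repQ C v ∈ W₁ ⊓ W₂ := by
      have := (inferInstance : (W₁ ⊓ W₂).Normal).conj_mem w hw (repQ C v)⁻¹
      rwa [inv_inv] at this
    have hv : w • v = v := by
      conv_lhs => rw [← mk_repQ C v]
      conv_rhs => rw [← mk_repQ C v]
      rw [eq_comm]
      show ((repQ C v : G) : G ⧸ C) = ((w * repQ C v : G) : G ⧸ C)
      rw [QuotientGroup.eq, ← mul_assoc]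
      exact h3 hc.2
    have hv' : w⁻¹ • v = v := by rw [inv_smul_eq_iff, hv]
    refine ⟨hv, h2 ?_⟩
    rw [Subgroup.mem_subgroupOf, traQ_u, hv']
    exact hc.1

/-- compatibility of the systems: `C` contains `N₀` with 2-power index -/
theorem traQ_sm [N₀.Normal] (hN : Opn F N₀) (hNC : N₀ ≤ C) (hk : ∃ k : ℕ, N₀.relIndex C = 2 ^ k) :
    (traQ C).Sm (big F N₀) (ofTwo (two (res F C))) where
  res W hW := by
    obtain ⟨n1, ⟨W₁, hW₁, h1⟩, k, hk'⟩ := hW
    obtain ⟨W₂, hW₂, h2⟩ := hN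
    obtain ⟨m, hm⟩ := hk
    refine ⟨(W ⊓ N₀).subgroupOf C, ⟨inferInstance, ⟨(W ⊓ N₀).subgroupOf C,
      ⟨inferInstance, W₁ ⊓ W₂, F.inf hW₁ hW₂, fun x hx => ⟨h1 hx.1, h2 hx.2⟩⟩, le_rfl⟩, k + m, ?_⟩,
      fun w hw => hw.1⟩
    show (W ⊓ N₀).relIndex C = _
    rw [← Subgroup.relIndex_mul_relIndex (W ⊓ N₀) N₀ C inf_le_right hNC, hm,
      Subgroup.inf_relIndex_right, hk', pow_add]
  cores V hV := by
    obtain ⟨n1, ⟨V₁, ⟨-, W₁, hW₁, h1⟩, h1'⟩, k, hk'⟩ := hV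
    obtain ⟨W₂, hW₂, h2⟩ := hN
    obtain ⟨m, hm⟩ := hk
    have nW₁ := F.normal hW₁
    have nW₂ := F.normal hW₂
    set X : Subgroup G := V.map C.subtype ⊓ N₀ with hX
    have hXm : ∀ g, g ∈ X ↔ ∃ h : g ∈ N₀, (⟨g, hNC h⟩ : C) ∈ V := by
      intro g
      constructor
      · rintro ⟨⟨c, hc, rfl⟩, hg⟩
        exact ⟨hg, hc⟩
      · rintro ⟨h, hg⟩
        exact ⟨⟨_, hg, rfl⟩, h⟩
    have hle : W₁ ⊓ W₂ ≤ X := by
      intro g hg
      rw [hXm]
      exact ⟨h2 hg.2, h1' (h1 hg.1)⟩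
    have hXn : (X.subgroupOf N₀).Normal := by
      constructor
      intro a ha b
      rw [Subgroup.mem_subgroupOf, hXm] at ha ⊢
      obtain ⟨ha1, ha2⟩ := ha
      refine ⟨(b * a * b⁻¹).2, ?_⟩
      exact n1.conj_mem _ ha2 ⟨b, hNC b.2⟩
    have hXi : ∃ l : ℕ, X.relIndex N₀ = 2 ^ l := by
      have e : X.subgroupOf N₀ = V.comap (Subgroup.inclusion hNC) := by
        ext a
        rw [Subgroup.mem_subgroupOf, hXm]
        constructor
        · rintro ⟨_, h⟩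
          exact h
        · intro h
          exact ⟨a.2, h⟩
      have : X.relIndex N₀ ∣ 2 ^ k := by
        show (X.subgroupOf N₀).index ∣ _
        rw [e, ← hk', Subgroup.index_comap]
        exact Subgroup.relIndex_dvd_index_of_normal V _
      obtain ⟨l, -, hl⟩ := (Nat.dvd_prime_pow Nat.prime_two).1 this
      exact ⟨l, hl⟩
    obtain ⟨l, hl⟩ := hXi
    have hcore : W₁ ⊓ W₂ ≤ X.normalCore := Subgroup.normal_le_normalCore.2 hle
    refine ⟨X.normalCore, ⟨inferInstance, ⟨W₁ ⊓ W₂, F.inf hW₁ hW₂, hcore⟩, ?_⟩, fun w hw v => ?_⟩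
    · refine two_pow_of_pow ?_ inferInstance fun n hn => ⟨l, ?_⟩
      · intro h0
        have h5 : X.normalCore.index = 0 := by
          have h6 : X.normalCore.relIndex N₀ ∣ X.normalCore.index :=
            Subgroup.relIndex_dvd_index_of_normal _ _
          rw [h0] at h6
          exact Nat.eq_zero_of_zero_dvd h6
        have h7 : (W₁ ⊓ W₂).index = 0 :=
          Nat.eq_zero_of_zero_dvd (h5 ▸ Subgroup.index_dvd_of_le hcore)
        exact F.index (F.inf hW₁ hW₂) h7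
      · intro g
        have h8 : g * n * g⁻¹ ∈ N₀ := (inferInstance : N₀.Normal).conj_mem n hn g
        have h9 := pow_relIndex_mem hXn h8
        rw [hl, conj_pow] at h9
        exact h9
    · have hwX : (repQ C v)⁻¹ * w * repQ C v ∈ X := by
        have := hw (repQ C v)⁻¹
        rwa [inv_inv] at this
      have hv : w • v = v := by
        conv_lhs => rw [← mk_repQ C v]
        conv_rhs => rw [← mk_repQ C v]
        rw [eq_comm]
        show ((repQ C v : G) : G ⧸ C) = ((w * repQ C v : G) : G ⧸ C)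
        rw [QuotientGroup.eq, ← mul_assoc]
        exact hNC hwX.2
      have hv' : w⁻¹ • v = v := by rw [inv_smul_eq_iff, hv]
      refine ⟨hv, ?_⟩
      obtain ⟨h9, h10⟩ := (hXm _).1 hwX
      have e : (traQ C).u w v = ⟨(repQ C v)⁻¹ * w * repQ C v, hNC h9⟩ := by
        apply Subtype.ext
        rw [traQ_u, hv']
      rw [e]
      exact h10

end cosets

end Pool.Agent.Work.MP_787500_nt.KR
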