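import Mathlib
import Pool.Agent.Work.MP_787500_nt.KR.C3_Sm

/-!
Shapiro's lemma on the level of cochains, for the modules induced from `C` to `G`. The coset of 1 is
`((1 : G) : G ⧸ C)`.
-/

set_option autoImplicit false
set_option linter.unusedSectionVars false

namespace Pool.Agent.Work.MP_787500_nt.KR

open Pool.Agent.Work.MP_787500_nt.GP (A0 IsAct d0 d1 d2 tw)

variable {G : Type*} [Group G] {C : Subgroup G} {N : Type*} [AddCommGroup N] {τ : C → N → N}

theorem ind_act {C' V : Type*} [Group C'] [MulAction G V] (T : Tra G C' V) {τ' : C' → N → N}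
    (h : IsAct τ') (hu : ∀ v, T.u 1 v = 1) : IsAct (ind T τ') where
  one f := by
    funext v
    simp only [ind, hu, h.one, inv_one, one_smul]
  mul g k f := by
    funext v
    simp only [ind, T.umul, h.mul, mul_inv_rev, mul_smul]
  add g f f' := by
    funext v
    simp only [ind, Pi.add_apply, h.add]

theorem traQ_u_one (v : G ⧸ C) : (traQ C).u 1 v = 1 := by
  apply Subtype.ext
  rw [traQ_u, inv_one, one_smul, mul_one, inv_mul_cancel, Subgroup.coe_one]

theorem traQ_act (h : IsAct τ) : IsAct (ind (traQ C) τ) := ind_act (traQ C) h traQ_u_one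

theorem smul_base (c : C) : (c : G) • ((1 : G) : G ⧸ C) = ((1 : G) : G ⧸ C) := by
  show (((c : G) * 1 : G) : G ⧸ C) = _
  rw [mul_one, eq_comm, QuotientGroup.eq, inv_one, one_mul]
  exact c.2

theorem smul_base' (c : C) : (c : G)⁻¹ • ((1 : G) : G ⧸ C) = ((1 : G) : G ⧸ C) := by
  rw [inv_smul_eq_iff, smul_base]

theorem traQ_u_base (c : C) : (traQ C).u (c : G) ((1 : G) : G ⧸ C) = c := by
  apply Subtype.ext
  rw [traQ_u, smul_base', repQ_one, inv_one, one_mul, mul_one]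

theorem rep_smul (v : G ⧸ C) : (repQ C v)⁻¹ • v = ((1 : G) : G ⧸ C) := by
  rw [inv_smul_eq_iff]
  show v = ((repQ C v * 1 : G) : G ⧸ C)
  rw [mul_one, mk_repQ]

theorem traQ_u_rep (v : G ⧸ C) : (traQ C).u (repQ C v) v = 1 := by
  apply Subtype.ext
  rw [traQ_u, rep_smul, repQ_one, mul_one, inv_mul_cancel, Subgroup.coe_one]

theorem ind_base (f : G ⧸ C → N) (c : C) :
    ind (traQ C) τ (c : G) f ((1 : G) : G ⧸ C) = τ c (f ((1 : G) : G ⧸ C)) := by
  simp only [ind, traQ_u_base, smul_base']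

theorem ind_rep (h : IsAct τ) (f : G ⧸ C → N) (v : G ⧸ C) :
    ind (traQ C) τ (repQ C v) f v = f ((1 : G) : G ⧸ C) := by
  simp only [ind, traQ_u_rep, rep_smul, h.one]

/-! ## Degree 1 -/

/-- the restriction to `C` -/
def sr1 (x : G → G ⧸ C → N) : C → N := fun c => x (c : G) ((1 : G) : G ⧸ C)

/-- the induced cochain -/
noncomputable def si1 (y : C → N) : G → G ⧸ C → N := fun g v => y ((traQ C).u g v)

theorem sr1_coc {x : G → G ⧸ C → N} (hx : ∀ a b, x (a * b) = x a + ind (traQ C) τ a (x b))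
    (a b : C) : sr1 x (a * b) = sr1 x a + τ a (sr1 x b) := by
  simp only [sr1, Subgroup.coe_mul, hx, Pi.add_apply, ind_base]

theorem si1_coc {y : C → N} (hy : ∀ a b, y (a * b) = y a + τ a (y b)) (a b : G) :
    si1 y (a * b) = si1 y a + ind (traQ C) τ a (si1 y b) := by
  funext v
  simp only [si1, Pi.add_apply, ind, (traQ C).umul, hy]

theorem sr1_si1 (y : C → N) (c : C) : sr1 (si1 y) c = y c := by
  simp only [sr1, si1, traQ_u_base]

theorem si1_sr1 (h : IsAct τ) {x : G → G ⧸ C → N}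
    (hx : ∀ a b, x (a * b) = x a + ind (traQ C) τ a (x b)) (g : G) :
    si1 (sr1 x) g = x g + d0 (ind (traQ C) τ) (fun v => x (repQ C v) v) g := by
  funext v
  have e := hom1 (traQ C) hx g v
  have e' := congrFun e v
  simp only [traQ_s, traQ_i, ind_rep h, Pi.add_apply, Pi.sub_apply] at e'
  simp only [si1, sr1, Pi.add_apply, d0, Pi.sub_apply]
  rw [e']
  rfl

theorem si1_d0 (n : N) : si1 (d0 τ n) = d0 (ind (traQ C) τ) (fun _ : G ⧸ C => n) := by
  funext g v
  simp only [si1, d0, Pi.sub_apply, ind]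

/-! ## Degree 2 -/

/-- the restriction to `C` -/
def sr2 (f : G → G → G ⧸ C → N) : C → C → N := fun a b => f (a : G) (b : G) ((1 : G) : G ⧸ C)

/-- the induced cochain -/
noncomputable def si2 (f : C → C → N) : G → G → G ⧸ C → N :=
  fun g h v => f ((traQ C).u g v) ((traQ C).u h (g⁻¹ • v))

theorem sr2_coc {f : G → G → G ⧸ C → N} (hf : ∀ a b c, d2 (ind (traQ C) τ) f a b c = 0)
    (a b c : C) : d2 τ (sr2 f) a b c = 0 := by
  have e := congrFun (hf a b c) ((1 : G) : G ⧸ C)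
  simp only [d2, Pi.sub_apply, Pi.add_apply, ind_base, Pi.zero_apply] at e
  simpa only [d2, sr2, Subgroup.coe_mul] using e

theorem si2_coc {f : C → C → N} (hf : ∀ a b c, d2 τ f a b c = 0) (a b c : G) :
    d2 (ind (traQ C) τ) (si2 f) a b c = 0 := by
  funext v
  have e := hf ((traQ C).u a v) ((traQ C).u b (a⁻¹ • v)) ((traQ C).u c (b⁻¹ • a⁻¹ • v))
  simp only [d2] at e
  simp only [d2, si2, Pi.sub_apply, Pi.add_apply, Pi.zero_apply, ind, (traQ C).umul, mul_inv_rev,
    mul_smul]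
  exact e

theorem si2_d1 (x : C → N) : si2 (d1 τ x) = d1 (ind (traQ C) τ) (si1 x) := by
  funext g h v
  simp only [si2, d1, si1, Pi.sub_apply, Pi.add_apply, ind, (traQ C).umul]

theorem sr2_d1 (x : G → G ⧸ C → N) : sr2 (d1 (ind (traQ C) τ) x) = d1 τ (sr1 x) := by
  funext a b
  simp only [sr2, d1, sr1, Pi.sub_apply, Pi.add_apply, ind_base, Subgroup.coe_mul]

theorem si2_sr2 (h : IsAct τ) {f : G → G → G ⧸ C → N}
    (hf : ∀ a b c, d2 (ind (traQ C) τ) f a b c = 0) (g k : G) :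
    si2 (sr2 f) g k = f g k + d1 (ind (traQ C) τ) (fun g v => zet (traQ C) f v g v) g k := by
  funext v
  have e := congrFun (hom2 (traQ C) (traQ_act h) hf g k v) v
  simp only [traQ_s, traQ_i, ind_rep h, Pi.add_apply, Pi.sub_apply] at e
  simp only [si2, sr2, Pi.add_apply, d1, Pi.sub_apply]
  rw [e]
  simp only [ind]
  abel

/-! ## Smoothness -/

variable {S : FSys G} {SC : FSys C}

theorem si1_sm (hT : (traQ C).Sm S SC) {y : C → N} (hy : Sm1 SC y) : Sm1 S (si1 y) :=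
  pull_sm hT hy fun z v => z v

theorem sr1_sm (hT : (traQ C).Sm S SC) {x : G → G ⧸ C → N} (hx : Sm1 S x) : Sm1 SC (sr1 x) := by
  obtain ⟨W, hW, h⟩ := hx
  obtain ⟨W', hW', h'⟩ := hT.res W hW
  refine ⟨W', hW', fun g w hw => ?_⟩
  simp only [sr1, Subgroup.coe_mul, h (g : G) (w : G) (h' w hw)]

theorem sr2_sm (hT : (traQ C).Sm S SC) {f : G → G → G ⧸ C → N} (hf : Sm2 S f) :
    Sm2 SC (sr2 f) := by
  obtain ⟨W, hW, h⟩ := hf
  obtain ⟨W', hW', h'⟩ := hT.res W hW
  refine ⟨W', hW', fun g k w hw w' hw' => ?_⟩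
  simp only [sr2, Subgroup.coe_mul, h (g : G) (k : G) (w : G) (h' w hw) (w' : G) (h' w' hw')]

theorem si2_sm (hT : (traQ C).Sm S SC) {f : C → C → N} (hf : Sm2 SC f) : Sm2 S (si2 f) := by
  obtain ⟨W, hW, h⟩ := hf
  obtain ⟨W', hW', h'⟩ := hT.fix hW
  refine ⟨W', hW', fun g k w hw w' hw' => ?_⟩
  funext v
  obtain ⟨c, hc, e⟩ := (h' w hw).2 g v
  have e2 : (g * w)⁻¹ • v = g⁻¹ • v := by
    rw [mul_inv_rev, mul_smul, ((h' w hw).1 _).2]
  obtain ⟨c', hc', e'⟩ := (h' w' hw').2 k (g⁻¹ • v)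
  simp only [si2, e, e2, e', h _ _ c hc c' hc']

theorem zetv_sm [Finite (G ⧸ C)] (hT : (traQ C).Sm S SC) {f : G → G → G ⧸ C → N}
    (hf : Sm2 S f) : Sm1 S (fun g (v : G ⧸ C) => zet (traQ C) f v g v) := by
  have := Fintype.ofFinite (G ⧸ C)
  classical
  choose W hW h using fun v : G ⧸ C => zet_sm hT hf v
  have key : ∀ s : Finset (G ⧸ C), ∃ W', S.mem W' ∧ ∀ v ∈ s, W' ≤ W v := by
    intro s
    induction s using Finset.induction_on with
    | empty => obtain ⟨W', hW'⟩ := S.ex; exact ⟨W', hW', by simp⟩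
    | insert a s _ ih =>
      obtain ⟨W', hW', h'⟩ := ih
      refine ⟨W' ⊓ W a, S.inf hW' (hW a), fun v hv => ?_⟩
      rcases Finset.mem_insert.1 hv with rfl | hv
      · exact inf_le_right
      · exact inf_le_left.trans (h' v hv)
  obtain ⟨W', hW', h'⟩ := key Finset.univ
  refine ⟨W', hW', fun g w hw => ?_⟩
  funext v
  simp only
  rw [h v g w (h' v (Finset.mem_univ v) hw)]

end Pool.Agent.Work.MP_787500_nt.KR
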