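import Mathlib
import Pool.Agent.Work.MP_787500_nt.KR.T03

/-!
# Module T04_LEIB (size M): cup products, Leibniz rules

Write `g m` for `ρ g m` and `ρ' g m`; `hB` is the equivariance of `B`.
* `leib11`: both sides are
  `χ a B (x b, b y c) - B (x (ab), ab y c) + B (x a, a y (bc)) - B (x a, a y b)`, where
  `χ a B (x b, b y c) = B (a x b, ab y c)`.
* `leib01`: `d1 (z ∪ y) (a, b) = B (z, y a) + χ a B (z, y b) - B (z, y (ab))`,
  `(d0 z ∪ y) (a, b) = B (a z - z, a y b) = χ a B (z, y b) - B (z, a y b)`,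
  `(z ∪ d1 y) (a, b) = B (z, y a + a y b - y (ab))`.
* `leib02`: same computation one degree higher.
* `cup_anti`: with `t a = B (x a, y a)`:
  `t (ab) = B (x a + a x b, y a + a y b) = t a + χ a t b + (x ∪ y) (a, b) + (y ∪ x) (a, b)`.
* `cup11_Z2`: `leib11` and `d1 x = 0`, `d1 y = 0`; smoothness as in `sm2_pair`, using the smoothness of
  the action `ρ'`.
-/

set_option autoImplicit false
set_option linter.unusedSectionVars false

namespace Pool.Agent.Work.MP_787500_nt.KR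

open Pool.Agent.Work.MP_787500_nt.GP

variable {G : Type*} [Group G] {S : FSys G} {M M' : Type*} [AddCommGroup M] [AddCommGroup M']
  {ρ : G → M → M} {ρ' : G → M' → M'} {B : M →+ M' →+ A0} {χ : G → ℤ_[2]}

theorem leib11 (h' : IsAct ρ') (hB : ∀ g m m', B (ρ g m) (ρ' g m') = χ g • B m m')
    (x : G → M) (y : G → M') (a b c : G) :
    d2 (tw χ) (cup11 ρ' B x y) a b c =
      cup21 ρ' B (d1 ρ x) y a b c - cup12 ρ' B x (d1 ρ' y) a b c := by
  simp only [d2, tw, cup11, cup21, cup12, d1, map_add, map_sub, AddMonoidHom.add_apply,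
    AddMonoidHom.sub_apply, h'.add, h'.sub, h'.mul, ← hB a]
  abel

theorem leib01 (hB : ∀ g m m', B (ρ g m) (ρ' g m') = χ g • B m m')
    (z : M) (y : G → M') (a b : G) :
    d1 (tw χ) (cup01 B z y) a b =
      cup11 ρ' B (d0 ρ z) y a b + cup02 B z (d1 ρ' y) a b := by
  simp only [tw, cup11, cup01, cup02, d1, d0, map_add, map_sub, AddMonoidHom.sub_apply, ← hB a]
  abel

theorem leib02 (hB : ∀ g m m', B (ρ g m) (ρ' g m') = χ g • B m m')
    (z : M) (F : G → G → M') (a b c : G) :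
    d2 (tw χ) (cup02 B z F) a b c =
      cup12 ρ' B (d0 ρ z) F a b c + B z (d2 ρ' F a b c) := by
  simp only [d2, tw, cup12, cup02, d0, map_add, map_sub, AddMonoidHom.sub_apply, ← hB a]
  abel

theorem cup11_sm (hs : Smooth S ρ') (h' : IsAct ρ') {x : G → M} {y : G → M'} (hx : Sm1 S x)
    (hy : Sm1 S y) : Sm2 S (cup11 ρ' B x y) := by
  obtain ⟨W, hW, h1⟩ := hs
  obtain ⟨W1, hW1, h2⟩ := hx
  obtain ⟨W2, hW2, h3⟩ := hy
  refine ⟨W ⊓ (W1 ⊓ W2), S.inf hW (S.inf hW1 hW2), fun g h w hw w' hw' => ?_⟩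
  simp only [cup11]
  rw [h2 g w hw.2.1, h3 h w' hw'.2.2, h'.mul, h1 w hw.1]

theorem cup01_sm {z : M} {y : G → M'} (hy : Sm1 S y) : Sm1 S (cup01 B z y) := by
  obtain ⟨W, hW, h1⟩ := hy
  exact ⟨W, hW, fun g w hw => by simp only [cup01, h1 g w hw]⟩

theorem cup02_sm {z : M} {F : G → G → M'} (hF : Sm2 S F) : Sm2 S (cup02 B z F) := by
  obtain ⟨W, hW, h1⟩ := hF
  exact ⟨W, hW, fun g h w hw w' hw' => by simp only [cup02, h1 g h w hw w' hw']⟩

theorem cup11_Z2 (h : Pair S χ ρ ρ' B) {x : G → M} {y : G → M'} (hx : Z1 S ρ x) (hy : Z1 S ρ' y) :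
    Z2 S (tw χ) (cup11 ρ' B x y) := by
  refine ⟨cup11_sm h.sm' h.act' hx.1 hy.1, fun a b c => ?_⟩
  rw [leib11 h.act' h.eqv]
  have h1 : d1 ρ x a b = 0 := by simp only [d1, hx.2 a b, sub_self]
  have h2 : d1 ρ' y b c = 0 := by simp only [d1, hy.2 b c, sub_self]
  simp only [cup21, cup12, h1, h2, h.act'.zero, map_zero, AddMonoidHom.zero_apply, sub_self]

theorem cup_anti (h : Pair S χ ρ ρ' B) {x : G → M} {y : G → M'} (hx : Z1 S ρ x) (hy : Z1 S ρ' y)
    (a b : G) :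
    cup11 ρ' B x y a b + cup11 ρ B.flip y x a b = -d1 (tw χ) (fun g => B (x g) (y g)) a b := by
  simp only [cup11, d1, tw, hx.2 a b, hy.2 a b, AddMonoidHom.flip_apply, map_add,
    AddMonoidHom.add_apply, ← h.eqv a]
  abel

theorem Pair.flip (h : Pair S χ ρ ρ' B) : Pair S χ ρ' ρ B.flip :=
  ⟨h.act', h.act, h.sm', h.sm, fun g m m' => h.eqv g m' m, h.nd', h.nd⟩

theorem Pair.comp (h : Pair S χ ρ ρ' B) {D : Type*} [Group D] {SD : FSys D} {j : D →* G}
    (hj : ∀ W, S.mem W → ∃ W', SD.mem W' ∧ ∀ w ∈ W', j w ∈ W) :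
    Pair SD (fun d => χ (j d)) (fun d => ρ (j d)) (fun d => ρ' (j d)) B :=
  ⟨h.act.comp j, h.act'.comp j, h.sm.comp hj, h.sm'.comp hj, fun g => h.eqv (j g), h.nd, h.nd'⟩

end Pool.Agent.Work.MP_787500_nt.KR
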