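import Mathlib
import Pool.Agent.Work.MP_787500_nt.KR.S1_Shap
import Pool.Agent.Work.MP_787500_nt.KR.T04
import Pool.Agent.Work.MP_787500_nt.GP.T13_Filt

/-!
Induced pairs of modules and induced filtrations.
-/

set_option autoImplicit false
set_option linter.unusedSectionVars false

namespace Pool.Agent.Work.MP_787500_nt.KR

open Pool.Agent.Work.MP_787500_nt.GP (A0 half hf hf_zero hf_add smul_hf IsAct d0 d1 d2 tw)
open Pool.Agent.Work.MP_787500_nt.PA (TwoSys)

/-- the product of `ZMod 2` with values in `ℚ_2 / ℤ_2` -/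
noncomputable def mB : ZMod 2 →+ ZMod 2 →+ A0 :=
  AddMonoidHom.mk' (fun a => AddMonoidHom.mk' (fun b => hf (a * b))
      (fun b c => by rw [mul_add, hf_add]))
    (fun a b => by
      ext
      simp only [AddMonoidHom.mk'_apply, AddMonoidHom.add_apply, AddMonoidHom.comp_apply]
      rw [add_mul, hf_add])

theorem mB_apply (a b : ZMod 2) : mB a b = hf (a * b) := rfl

/-- the trivial action on `ZMod 2` -/
def tr2 {X : Type*} : X → ZMod 2 → ZMod 2 := fun _ m => m

theorem tr2_act {X : Type*} [Group X] : IsAct (tr2 : X → ZMod 2 → ZMod 2) :=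
  ⟨fun _ => rfl, fun _ _ _ => rfl, fun _ _ _ => rfl⟩

variable {G : Type*} [Group G] {C : Subgroup G} {S : FSys G} {SC : FSys C} {χ : G → ℤ_[2]}

theorem ind_smooth (hT : (traQ C).Sm S SC) {N : Type*} [AddCommGroup N] {τ : C → N → N}
    (h : Smooth SC τ) : Smooth S (ind (traQ C) τ) := by
  obtain ⟨W, hW, h1⟩ := h
  obtain ⟨W', hW', h2⟩ := hT.cores W hW
  refine ⟨W', hW', fun w hw f => ?_⟩
  funext v
  have e : w⁻¹ • v = v := by rw [inv_smul_eq_iff, (h2 w hw v).1]
  simp only [ind, e]
  exact h1 _ (h2 w hw v).2 _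

theorem chi_unit (hχ : IsChar S χ) (g : G) : χ g * χ g⁻¹ = 1 := by
  rw [← hχ.mul, mul_inv_cancel, hχ.one]

theorem ind_pair [Fintype (G ⧸ C)] (hχ : IsChar S χ) (hT : (traQ C).Sm S SC) {N N' : Type*}
    [AddCommGroup N] [AddCommGroup N'] {τ : C → N → N} {τ' : C → N' → N'} {B : N →+ N' →+ A0}
    (h : Pair SC (fun c => χ c) τ τ' B) :
    Pair S χ (ind (traQ C) τ) (ind (traQ C) τ') (indB (traQ C) χ B) where
  act := traQ_act h.act
  act' := traQ_act h.act'
  sm := ind_smooth hT h.sm
  sm' := ind_smooth hT h.sm'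
  eqv g f f' := by
    rw [indB_apply, indB_apply, Finset.smul_sum,
      ← sum_shift g (fun v => χ g • χ ((traQ C).s v) • B (f v) (f' v))]
    refine Finset.sum_congr rfl fun v _ => ?_
    simp only [ind]
    rw [h.eqv, smul_smul, smul_smul, ← hχ.mul, ← hχ.mul]
    congr 2
    exact (traQ C).su g v
  nd f hf0 := by
    classical
    funext v
    refine h.nd _ fun n' => ?_
    have h1 := hf0 (Pi.single v n')
    rw [indB_apply, Finset.sum_eq_single v] at h1
    · rw [Pi.single_eq_same] at h1
      have h2 : χ ((traQ C).s v)⁻¹ • (χ ((traQ C).s v) • B (f v) n') = 0 := by rw [h1, smul_zero]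
      rwa [smul_smul, mul_comm, chi_unit hχ, one_smul] at h2
    · intro w _ hw
      rw [Pi.single_eq_of_ne hw, map_zero, smul_zero]
    · intro h2
      exact absurd (Finset.mem_univ v) h2
  nd' f' hf0 := by
    classical
    funext v
    refine h.nd' _ fun n => ?_
    have h1 := hf0 (Pi.single v n)
    rw [indB_apply, Finset.sum_eq_single v] at h1
    · rw [Pi.single_eq_same] at h1
      have h2 : χ ((traQ C).s v)⁻¹ • (χ ((traQ C).s v) • B n (f' v)) = 0 := by rw [h1, smul_zero]
      rwa [smul_smul, mul_comm, chi_unit hχ, one_smul] at h2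
    · intro w _ hw
      rw [Pi.single_eq_of_ne hw, map_zero, AddMonoidHom.zero_apply, smul_zero]
    · intro h2
      exact absurd (Finset.mem_univ v) h2

theorem tr2_pair (hχ : IsChar S χ) : Pair S χ tr2 tr2 mB where
  act := tr2_act
  act' := tr2_act
  sm := by
    obtain ⟨W, hW⟩ := S.ex
    exact ⟨W, hW, fun _ _ _ => rfl⟩
  sm' := by
    obtain ⟨W, hW⟩ := S.ex
    exact ⟨W, hW, fun _ _ _ => rfl⟩
  eqv g m m' := by
    rw [mB_apply, mB_apply, smul_hf (hχ.odd g)]
    rfl
  nd m hm := by
    have h := hm 1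
    rw [mB_apply, mul_one, ← hf_zero] at h
    exact GP.hf_inj h
  nd' m hm := by
    have h := hm 1
    rw [mB_apply, one_mul, ← hf_zero] at h
    exact GP.hf_inj h

/-- a filtration with `ZMod 2` induces a filtration with the permutation module -/
theorem ind_filt [Fintype (G ⧸ C)] (hχ : IsChar S χ) {N N' Q Q' : Type*} [AddCommGroup N]
    [AddCommGroup N'] [AddCommGroup Q] [AddCommGroup Q'] {τ : C → N → N} {τ' : C → N' → N'}
    {B : N →+ N' →+ A0} {σ : C → Q → Q} {σ' : C → Q' → Q'} {D : Q →+ Q' →+ A0}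
    {e : ZMod 2 →+ N} {p : N →+ Q} {e' : Q' →+ N'} {p' : N' →+ ZMod 2}
    (h : GP.Filt τ τ' B σ σ' D e p e' p') :
    Filt (ind (traQ C) tr2) (ind (traQ C) tr2) (indB (traQ C) χ mB) (ind (traQ C) τ)
      (ind (traQ C) τ') (indB (traQ C) χ B) (ind (traQ C) σ) (ind (traQ C) σ')
      (indB (traQ C) χ D) (e.compLeft (G ⧸ C)) (p.compLeft (G ⧸ C)) (e'.compLeft (G ⧸ C))
      (p'.compLeft (G ⧸ C)) where
  einj f f' hff := by
    funext v
    exact h.einj (congrFun hff v)
  pe a := by
    funext v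
    exact h.pe (a v)
  ker m hm := by
    choose a ha using fun v => h.ker (m v) (congrFun hm v)
    exact ⟨a, funext ha⟩
  psurj m := by
    choose a ha using fun v => h.psurj (m v)
    exact ⟨a, funext ha⟩
  einj' f f' hff := by
    funext v
    exact h.einj' (congrFun hff v)
  pe' a := by
    funext v
    exact h.pe' (a v)
  ker' m hm := by
    choose a ha using fun v => h.ker' (m v) (congrFun hm v)
    exact ⟨a, funext ha⟩
  psurj' m := by
    choose a ha using fun v => h.psurj' (m v)
    exact ⟨a, funext ha⟩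
  eqv_e g a := by
    funext v
    exact h.eqv_e _ _
  eqv_p g a := by
    funext v
    exact h.eqv_p _ _
  eqv_e' g a := by
    funext v
    exact h.eqv_e' _ _
  eqv_p' g a := by
    funext v
    exact h.eqv_p' _ _
  pair1 a m := by
    rw [indB_apply, indB_apply]
    refine Finset.sum_congr rfl fun v _ => ?_
    congr 1
    exact h.pair1 _ _
  pair2 m a := by
    rw [indB_apply, indB_apply]
    refine Finset.sum_congr rfl fun v _ => ?_
    congr 1
    exact h.pair2 _ _

end Pool.Agent.Work.MP_787500_nt.KR
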