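import Mathlib
import Pool.Agent.Work.MP_787500_nt.KR.T04
import Pool.Agent.Work.MP_787500_nt.GP.FDefs

/-!
Parity for finite self-dual modules, systems of normal subgroups of finite index: definitions (fixed, do
not change). The version of `GP/FDefs.lean`, `HP/FamDefs.lean` for `FSys`; the local and global
hypotheses are the duality statements themselves, for all finite modules in one universe `Type v`.
-/

set_option autoImplicit false
set_option linter.unusedSectionVars false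

namespace Pool.Agent.Work.MP_787500_nt.KR

open Pool.Agent.Work.MP_787500_nt.GP (A0 pr0 half hf IsAct d0 d1 d2 tw cup11 cup21 cup12 cup01 cup02
  EvPow IsPow)

universe v

/-- Local duality for all finite modules in `Type v`; `gens`: the group is topologically finitely
generated. -/
structure LocD {D : Type*} [Group D] (SD : FSys D) (χ : D → ℤ_[2]) (inv : (D → D → A0) → A0) : Prop
    extends LocH SD χ inv where
  one : ∀ f, Coc SD f → inv (fun a b => hf (f a b)) = 0 → Cob SD f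
  gens : ∃ X : Finset D, ∀ H : Subgroup D, (∃ W, SD.mem W ∧ W ≤ H) → (∀ g ∈ X, g ∈ H) → H = ⊤
  ld : ∀ {M M' : Type v} [AddCommGroup M] [AddCommGroup M'] [Finite M] [Finite M']
    {ρ : D → M → M} {ρ' : D → M' → M'} {B : M →+ M' →+ A0}, Pair SD χ ρ ρ' B → LDual SD inv ρ ρ' B

section family

variable {G : Type*} [Group G] (S : FSys G) {Φ : Type*} [Fintype Φ] {D : Φ → Type*}
  [∀ w, Group (D w)] (SD : ∀ w, FSys (D w)) (j : ∀ w, D w →* G) (χ : G → ℤ_[2])
  (inv : ∀ w, (D w → D w → A0) → A0) (κ : G →* G) (Θ : Set (G × G))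


/-- Hypotheses for the parity theorems (the version of `HP.ParHF`). -/
structure ParD : Prop where
  glob : GlobH S (fun i : Φ × Bool => SD i.1)
    (fun i => if i.2 then κ.comp (j i.1) else j i.1) χ
    (fun i f => if i.2 then -inv i.1 f else inv i.1 f)
  loc : ∀ w, LocD.{v} (SD w) (fun d => χ (j w d)) (inv w)
  gens : ∃ X : Finset G, ∀ H : Subgroup G, (∃ W, S.mem W ∧ W ≤ H) → (∀ g ∈ X, g ∈ H) → H = ⊤
  fin : ∀ {M M' : Type v} [AddCommGroup M] [AddCommGroup M'] [Finite M] [Finite M']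
    {ρ : G → M → M} {ρ' : G → M' → M'} {B : M →+ M' →+ A0}, Pair S χ ρ ρ' B →
    Finite {x : G → M // Z1 S ρ x}
  mid : ∀ {M M' : Type v} [AddCommGroup M] [AddCommGroup M'] [Finite M] [Finite M']
    {ρ : G → M → M} {ρ' : G → M' → M'} {B : M →+ M' →+ A0}, Pair S χ ρ ρ' B →
    Mid S (fun i : Φ × Bool => SD i.1) (fun i => if i.2 then κ.comp (j i.1) else j i.1)
      (fun i f => if i.2 then -inv i.1 f else inv i.1 f) ρ ρ' B
  jsm : ∀ w W, S.mem W → ∃ W', (SD w).mem W' ∧ ∀ v ∈ W', j w v ∈ W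
  kk : ∀ g, κ (κ g) = g
  ksys : ∀ W, S.mem W → ∃ W', S.mem W' ∧ ∀ v ∈ W', κ v ∈ W
  kchi : ∀ g, χ (κ g) = χ g
  ne : Θ.Nonempty
  tk : ∀ p ∈ Θ, ∀ W, S.mem W → p.1 * κ p.1 ∈ W
  fk : ∀ p ∈ Θ, ∀ W, S.mem W → (p.1 * κ p.2)⁻¹ * (p.2 * p.1) ∈ W
  alt : ∀ (z : G → G → A0) (u : G → A0), Z2 S (tw χ) z → (∀ g, z g 1 = 0) → (∀ g, z 1 g = 0) →
    Sm1 S u → (∀ a b, z (κ a) (κ b) + z a b = -d1 (tw χ) u a b) → (∀ g, u (κ g) = u g) →
    (∀ p ∈ Θ, u p.1 = z p.1 (κ p.1)) → (∀ p ∈ Θ, u p.2 + z p.2 p.1 = z p.1 (κ p.2)) →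
    ∑ w, inv w (fun a b => z (j w a) (j w b)) = 0

variable (O : Type*) [CommRing O] {M : Type*} [AddCommGroup M] [Module O M]

/-- a smooth `O`-module with a perfect symmetric pairing, balanced over `O`, self-dual up to the twist
by `κ` -/
structure SDualF (ρ : G → M → M) (b : M →+ M →+ A0) : Prop where
  act : IsAct ρ
  lin : ∀ g (a : O) m, ρ g (a • m) = a • ρ g m
  sm : Smooth S ρ
  symm : ∀ m m', b m m' = b m' m
  bal : ∀ (a : O) m m', b (a • m) m' = b m (a • m')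
  eqv : ∀ g m m', b (ρ g m) (ρ (κ g) m') = χ g • b m m'
  nd : ∀ m, (∀ m', b m m' = 0) → m = 0
  alt : ∀ p ∈ Θ, ∀ (a : O) m, b (a • m) (ρ p.1 m) = 0

end family

section modules

variable {G : Type*} [Group G] {S : FSys G} {Φ : Type*} [Fintype Φ] {D : Φ → Type*}
  [∀ w, Group (D w)] {SD : ∀ w, FSys (D w)} {j : ∀ w, D w →* G} {χ : G → ℤ_[2]}
  {inv : ∀ w, (D w → D w → A0) → A0} {κ : G →* G} {Θ : Set (G × G)}
  {O : Type*} [CommRing O] {M : Type*} [AddCommGroup M] [Module O M]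
  {ρ : G → M → M} {b : M →+ M →+ A0}

/-- a self-dual module and its twist form a perfect pair -/
theorem SDualF.pair (H : ParD.{v} S SD j χ inv κ Θ) (h : SDualF S χ κ Θ O ρ b) :
    Pair S χ ρ (fun g => ρ (κ g)) b := by
  refine ⟨h.act, h.act.comp κ, h.sm, ?_, h.eqv, h.nd, fun m' hm => h.nd m' fun m => ?_⟩
  · obtain ⟨W, hW, h1⟩ := h.sm
    obtain ⟨W', hW', h2⟩ := H.ksys W hW
    exact ⟨W', hW', fun w hw m => h1 _ (h2 w hw) m⟩
  · rw [h.symm]
    exact hm m

theorem SDualF.locPair (H : ParD.{v} S SD j χ inv κ Θ) (h : SDualF S χ κ Θ O ρ b) (w : Φ) :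
    Pair (SD w) (fun d => χ (j w d)) (fun d => ρ (j w d)) (fun d => ρ (κ (j w d))) b :=
  (h.pair H).comp (H.jsm w)

/-- the 1-cocycles as a module -/
def zM {X : Type*} [Group X] (T : FSys X) {σ : X → M → M} (hact : IsAct σ)
    (hlin : ∀ g (a : O) m, σ g (a • m) = a • σ g m) : Submodule O (X → M) where
  carrier := {x | Z1 T σ x}
  add_mem' := fun h h' => Z1.add hact h h'
  zero_mem' := by
    refine ⟨?_, fun a b => ?_⟩
    · obtain ⟨W, hW⟩ := T.ex
      exact ⟨W, hW, fun _ _ _ => rfl⟩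
    · simp [hact.zero]
  smul_mem' := by
    rintro c x ⟨⟨W, hW, h1⟩, h2⟩
    refine ⟨⟨W, hW, fun g w hw => ?_⟩, fun a b => ?_⟩
    · simp only [Pi.smul_apply, h1 g w hw]
    · simp only [Pi.smul_apply, h2, smul_add, hlin]

/-- the cocycles of `D w` with values in the twist of `M` that are orthogonal to (the cocycles in) `Λ` -/
def perpM (H : ParD.{v} S SD j χ inv κ Θ) (h : SDualF S χ κ Θ O ρ b) (w : Φ)
    (Λ : Submodule O (D w → M)) : Submodule O (D w → M) where
  carrier := {y | Z1 (SD w) (fun d => ρ (κ (j w d))) y ∧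
    ∀ x ∈ Λ, Z1 (SD w) (fun d => ρ (j w d)) x →
      inv w (cup11 (fun d => ρ (κ (j w d))) b x y) = 0}
  add_mem' := by
    rintro y y' ⟨h1, h2⟩ ⟨h1', h2'⟩
    have hp := h.locPair H w
    refine ⟨Z1.add hp.act' h1 h1', fun x hx hx1 => ?_⟩
    have e : cup11 (fun d => ρ (κ (j w d))) b x (y + y') = fun s t =>
        cup11 (fun d => ρ (κ (j w d))) b x y s t + cup11 (fun d => ρ (κ (j w d))) b x y' s t := by
      funext s t
      simp only [cup11, Pi.add_apply]
      rw [hp.act'.add, map_add]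
    rw [e, (H.loc w).add _ _ (cup11_Z2 hp hx1 h1) (cup11_Z2 hp hx1 h1'), h2 x hx hx1,
      h2' x hx hx1, add_zero]
  zero_mem' := by
    have hp := h.locPair H w
    refine ⟨(zM (O := O) (SD w) hp.act' (fun g => h.lin _)).zero_mem, fun x _ _ => ?_⟩
    have e : cup11 (fun d => ρ (κ (j w d))) b x (0 : D w → M) =
        d1 (tw fun d => χ (j w d)) (fun _ => 0) := by
      funext s t
      simp [cup11, d1, tw, hp.act'.zero]
    rw [e]
    refine (H.loc w).cob _ ?_
    obtain ⟨W, hW⟩ := (SD w).ex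
    exact ⟨W, hW, fun _ _ _ => rfl⟩
  smul_mem' := by
    rintro a y ⟨h1, h2⟩
    have hp := h.locPair H w
    refine ⟨(zM (O := O) (SD w) hp.act' (fun g => h.lin _)).smul_mem a h1, fun x hx hx1 => ?_⟩
    have e : cup11 (fun d => ρ (κ (j w d))) b x (a • y) =
        cup11 (fun d => ρ (κ (j w d))) b (a • x) y := by
      funext s t
      simp only [cup11, Pi.smul_apply]
      rw [h.lin, h.bal]
    rw [e]
    exact h2 _ (Λ.smul_mem a hx) ((zM (O := O) (SD w) hp.act (fun g => h.lin _)).smul_mem a hx1)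

/-- the global cocycles whose restrictions by `j w` lie in `Λ w` and whose restrictions by `κ ∘ j w`
lie in `Γ w` -/
def selM (h : SDualF S χ κ Θ O ρ b) (j : ∀ w, D w →* G) (Λ Γ : ∀ w, Submodule O (D w → M)) :
    Submodule O (G → M) where
  carrier := {x | Z1 S ρ x ∧ (∀ w, (fun d => x (j w d)) ∈ Λ w) ∧
    ∀ w, (fun d => x (κ (j w d))) ∈ Γ w}
  add_mem' := fun h1 h1' => ⟨Z1.add h.act h1.1 h1'.1, fun w => (Λ w).add_mem (h1.2.1 w) (h1'.2.1 w),
    fun w => (Γ w).add_mem (h1.2.2 w) (h1'.2.2 w)⟩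
  zero_mem' := ⟨(zM (O := O) S h.act (fun g => h.lin _)).zero_mem, fun w => (Λ w).zero_mem,
    fun w => (Γ w).zero_mem⟩
  smul_mem' := fun a x h1 => ⟨(zM (O := O) S h.act (fun g => h.lin _)).smul_mem a h1.1,
    fun w => (Λ w).smul_mem a (h1.2.1 w), fun w => (Γ w).smul_mem a (h1.2.2 w)⟩

/-- `Λ` lies between the coboundaries and the cocycles of `D w` -/
structure Betw {X : Type*} [Group X] (T : FSys X) (σ : X → M → M) (Λ : Submodule O (X → M)) :
    Prop where
  cob : ∀ m, d0 σ m ∈ Λ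
  coc : ∀ x ∈ Λ, Z1 T σ x

end modules

end Pool.Agent.Work.MP_787500_nt.KR
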