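import Mathlib
import Pool.Agent.Work.MP_787500_nt.KR.I1_Ind
import Pool.Agent.Work.MP_787500_nt.KR.PDefs

/-!
Hypotheses for duality over a group with a subgroup of odd index: definitions (fixed, do not change).
-/

set_option autoImplicit false
set_option linter.unusedSectionVars false

namespace Pool.Agent.Work.MP_787500_nt.KR

open Pool.Agent.Work.MP_787500_nt.GP (A0 half hf IsAct d0 d1 d2 tw cup11 cup02)
open Pool.Agent.Work.MP_787500_nt.PA (TwoSys homs LocalType)

/-- Local hypotheses in terms of classes modulo 2 of open subgroups. -/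
structure LocB {D : Type*} [Group D] (F : FSys D) (N₀ : Subgroup D) (χ : D → ℤ_[2])
    (inv : (D → D → A0) → A0) : Prop extends LocH (big F N₀) χ inv where
  ex : ∃ α, Coc (big F N₀) α ∧ inv (fun a b => hf (α a b)) ≠ 0
  fin : ∀ C : Subgroup D, Opn F C →
    FiniteDimensional (ZMod 2) (homs (two (res F C)) (⊤ : Subgroup C))
  lt : ∀ C : Subgroup D, Opn F C → LocalType (two (res F C))

/-- the subgroup `C` contains `N₀`, with 2-power index, and has odd index in `G` -/
structure Syl {G : Type*} [Group G] (F : FSys G) (N₀ C : Subgroup G) : Prop where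
  normal : N₀.Normal
  opn : Opn F N₀
  le : N₀ ≤ C
  pow : ∃ k : ℕ, N₀.relIndex C = 2 ^ k
  odd : Odd C.index

section glob

variable {G : Type*} [Group G] (F : FSys G) (N₀ C : Subgroup G) {I : Type*} [Fintype I]
  {D : I → Type*} [∀ i, Group (D i)] (SD : ∀ i, FSys (D i)) (j : ∀ i, D i →* G)

/-- a homomorphism from `C` that vanishes on all conjugates of the local groups is zero -/
def InjC : Prop :=
  ∀ ω ∈ homs (two (res F C)) (⊤ : Subgroup C),
    (∀ i (g : G) (d : D i) (h : g * j i d * g⁻¹ ∈ C), ω ⟨g * j i d * g⁻¹, h⟩ = 0) → ω = 0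

/-- a 2-cocycle modulo 2 of `C` that is a coboundary on all conjugates of the local groups is a
coboundary -/
def ShaC : Prop :=
  ∀ f, PA.Coc (two (res F C)) (⊤ : Subgroup C) f →
    (∀ i (g : G), ∃ z : D i → ZMod 2, Sm1 (SD i) z ∧
      ∀ (a b : D i) (ha : g * j i a * g⁻¹ ∈ C) (hb : g * j i b * g⁻¹ ∈ C),
        f ⟨g * j i a * g⁻¹, ha⟩ ⟨g * j i b * g⁻¹, hb⟩ = z a + z b + z (a * b)) →
    PA.Cob (two (res F C)) (⊤ : Subgroup C) f

end glob

end Pool.Agent.Work.MP_787500_nt.KR
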