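import Mathlib
import Pool.Agent.Work.MP_787500_nt.KR.BDefs
import Pool.Agent.Work.MP_787500_nt.GP.F01_Card

/-!
Numbers of classes in degree 1: definitions (fixed, do not change).
-/

set_option autoImplicit false
set_option linter.unusedSectionVars false

namespace Pool.Agent.Work.MP_787500_nt.KR

open Pool.Agent.Work.MP_787500_nt.GP (A0 half hf IsAct d0 d1 d2 tw cup11 cup02)
open Pool.Agent.Work.MP_787500_nt.PA (TwoSys homs LocalType)

section groups

variable {G : Type*} [Group G] (S : FSys G) {M : Type*} [AddCommGroup M] {ρ : G → M → M}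

/-- the smooth 1-cocycles -/
def z1s (h : IsAct ρ) : AddSubgroup (G → M) where
  carrier := {x | Z1 S ρ x}
  add_mem' := fun hx hy => Z1.add h hx hy
  zero_mem' := by
    refine ⟨?_, fun a b => ?_⟩
    · obtain ⟨W, hW⟩ := S.ex
      exact ⟨W, hW, fun _ _ _ => rfl⟩
    · simp [h.zero]
  neg_mem' := fun hx => Z1.neg h hx

theorem mem_z1s {h : IsAct ρ} {x : G → M} : x ∈ z1s S h ↔ Z1 S ρ x := Iff.rfl

/-- the coboundaries -/
def b1s (h : IsAct ρ) : AddSubgroup (G → M) where
  carrier := {x | ∃ m, x = d0 ρ m}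
  add_mem' := by
    rintro x y ⟨m, rfl⟩ ⟨m', rfl⟩
    refine ⟨m + m', ?_⟩
    funext g
    simp only [Pi.add_apply, d0, h.add]
    abel
  zero_mem' := ⟨0, by
    funext g
    simp [d0, h.zero]⟩
  neg_mem' := by
    rintro x ⟨m, rfl⟩
    refine ⟨-m, ?_⟩
    funext g
    simp only [Pi.neg_apply, d0, h.neg]
    abel

theorem mem_b1s {h : IsAct ρ} {x : G → M} : x ∈ b1s h ↔ ∃ m, x = d0 ρ m := Iff.rfl

/-- the number of classes in degree 1 -/
noncomputable def h1 (h : IsAct ρ) : ℕ := (b1s h).relIndex (z1s S h)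

/-- the smooth 1-cocycles that are locally coboundaries -/
def sh1 {I : Type*} {D : I → Type*} [∀ i, Group (D i)] (j : ∀ i, D i →* G) (h : IsAct ρ) :
    AddSubgroup (G → M) where
  carrier := {x | Z1 S ρ x ∧ ∀ i, ∃ m, ∀ d, x (j i d) = d0 (fun d => ρ (j i d)) m d}
  add_mem' := by
    rintro x y ⟨h1, h2⟩ ⟨h1', h2'⟩
    refine ⟨(z1s S h).add_mem h1 h1', fun i => ?_⟩
    obtain ⟨m, hm⟩ := h2 i
    obtain ⟨m', hm'⟩ := h2' i
    refine ⟨m + m', fun d => ?_⟩
    simp only [Pi.add_apply, hm, hm', d0, h.add]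
    abel
  zero_mem' := ⟨(z1s S h).zero_mem, fun i => ⟨0, fun d => by simp [d0, h.zero]⟩⟩
  neg_mem' := by
    rintro x ⟨h1, h2⟩
    refine ⟨(z1s S h).neg_mem h1, fun i => ?_⟩
    obtain ⟨m, hm⟩ := h2 i
    refine ⟨-m, fun d => ?_⟩
    simp only [Pi.neg_apply, hm, d0, h.neg]
    abel

/-- the number of classes in degree 1 modulo the classes that are locally zero -/
noncomputable def g1 {I : Type*} {D : I → Type*} [∀ i, Group (D i)] (j : ∀ i, D i →* G)
    (h : IsAct ρ) : ℕ := (sh1 S j h).relIndex (z1s S h)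

end groups

section perm

variable {G V : Type*} [Group G] [MulAction G V]

/-- the action of `G` on the functions on `V` modulo 2 -/
def prm (g : G) (f : V → ZMod 2) : V → ZMod 2 := fun v => f (g⁻¹ • v)

theorem prm_act : IsAct (prm : G → (V → ZMod 2) → V → ZMod 2) where
  one f := by
    funext v
    simp only [prm, inv_one, one_smul]
  mul g h f := by
    funext v
    simp only [prm, mul_inv_rev, mul_smul]
  add g f f' := rfl

theorem ind_tr2 {C : Subgroup G} :
    (ind (traQ C) tr2 : G → (G ⧸ C → ZMod 2) → G ⧸ C → ZMod 2) = prm := rfl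

/-- the number of orbits of the image of `D` on `V` -/
noncomputable def orb {D : Type*} [Group D] (j : D →* G) (V : Type*) [MulAction G V] : ℕ :=
  Nat.card (MulAction.orbitRel.Quotient j.range V)

end perm

end Pool.Agent.Work.MP_787500_nt.KR
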