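import Mathlib
import Pool.Agent.Work.MP_787500_nt.KR.T04

/-!
# Module T04b_TR: the trace of a coboundary is zero (used in T08, T09, T11)

By `IsTr` the trace of `(d2 b, b|D i - d1 (t i))` is `∑ i, inv i (-d1 (t i)) = 0` (`LocH.cob`).
-/

set_option autoImplicit false
set_option linter.unusedSectionVars false

namespace Pool.Agent.Work.MP_787500_nt.KR

open Pool.Agent.Work.MP_787500_nt.GP

variable {G : Type*} [Group G] {S : FSys G} {I : Type*} [Fintype I] {D : I → Type*}
  [∀ i, Group (D i)] {SD : ∀ i, FSys (D i)} {j : ∀ i, D i →* G} {χ : G → ℤ_[2]}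
  {inv : ∀ i, (D i → D i → A0) → A0}
  {tr : ((G → G → G → A0) × (∀ i, D i → D i → A0)) →+ A0}

theorem tr_cob (H : GlobH S SD j χ inv) (htr : IsTr S SD j χ inv tr) {b : G → G → A0}
    (hb : Sm2 S b) {t : ∀ i, D i → A0} (ht : ∀ i, Sm1 (SD i) (t i)) :
    tr (d2 (tw χ) b, fun i u v => b (j i u) (j i v) - d1 (tw fun d => χ (j i d)) (t i) u v) = 0 := by
  have h1 : ∀ i, (fun u v => b (j i u) (j i v) - d1 (tw fun d => χ (j i d)) (t i) u v -
      b (j i u) (j i v)) = d1 (tw fun d => χ (j i d)) (fun d => -t i d) := by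
    intro i
    funext u v
    simp only [d1, tw, smul_neg]
    abel
  have h2 : ∀ i, Sm1 (SD i) (fun d => -t i d) := by
    intro i
    obtain ⟨W, hW, h⟩ := ht i
    exact ⟨W, hW, fun g w hw => by simp only [h g w hw]⟩
  rw [htr b _ hb (fun i => by
    rw [h1 i]
    exact d1_tw_Z2 (H.loc i).char (h2 i))]
  refine Finset.sum_eq_zero fun i _ => ?_
  rw [h1 i]
  exact (H.loc i).cob _ (h2 i)

end Pool.Agent.Work.MP_787500_nt.KR
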