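import Mathlib
import Pool.Agent.Work.MP_787500_nt.KR.PDefs

/-!
The interface `LocD`: anticommutativity of the local invariant and the duality statements.
-/

set_option autoImplicit false
set_option linter.unusedSectionVars false

namespace Pool.Agent.Work.MP_787500_nt.KR

open Pool.Agent.Work.MP_787500_nt.GP

universe v

variable {D : Type*} [Group D] {SD : FSys D} {χ : D → ℤ_[2]} {inv : (D → D → A0) → A0}

section anti

variable {M M' : Type*} [AddCommGroup M] [AddCommGroup M'] [Finite M] [Finite M']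
  {ρ : D → M → M} {ρ' : D → M' → M'} {B : M →+ M' →+ A0}

theorem inv_anti (L : LocH SD χ inv) (h : Pair SD χ ρ ρ' B) {x : D → M} {y : D → M'}
    (hx : Z1 SD ρ x) (hy : Z1 SD ρ' y) :
    inv (cup11 ρ' B x y) = -inv (cup11 ρ B.flip y x) := by
  have h1 := L.add _ _ (cup11_Z2 h hx hy) (cup11_Z2 h.flip hy hx)
  have e : (fun a b => cup11 ρ' B x y a b + cup11 ρ B.flip y x a b) =
      d1 (tw χ) (fun g => -B (x g) (y g)) := by
    funext a b
    rw [cup_anti h hx hy a b]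
    simp only [d1, tw, smul_neg]
    abel
  rw [e, L.cob] at h1
  · exact eq_neg_of_add_eq_zero_left h1.symm
  · obtain ⟨⟨W, hW, h1⟩, -⟩ := hx
    obtain ⟨⟨W', hW', h1'⟩, -⟩ := hy
    refine ⟨W ⊓ W', SD.inf hW hW', fun g w hw => ?_⟩
    show -(B (x (g * w))) (y (g * w)) = -(B (x g)) (y g)
    rw [h1 g w hw.1, h1' g w hw.2]

end anti

variable {M M' : Type v} [AddCommGroup M] [AddCommGroup M'] [Finite M] [Finite M']
  {ρ : D → M → M} {ρ' : D → M' → M'} {B : M →+ M' →+ A0}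

theorem local_one (L : LocD.{v} SD χ inv) (h : Pair SD χ ρ ρ' B) {x : D → M} (hx : Z1 SD ρ x)
    (h0 : ∀ y, Z1 SD ρ' y → inv (cup11 ρ' B x y) = 0) : ∃ m, x = d0 ρ m :=
  (L.ld h).one x hx h0

theorem local_one' (L : LocD.{v} SD χ inv) (h : Pair SD χ ρ ρ' B) {y : D → M'} (hy : Z1 SD ρ' y)
    (h0 : ∀ x, Z1 SD ρ x → inv (cup11 ρ' B x y) = 0) : ∃ m, y = d0 ρ' m :=
  (L.ld h).one' y hy h0

theorem local_two (L : LocD.{v} SD χ inv) (h : Pair SD χ ρ ρ' B) {F : D → D → M'}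
    (hF : Z2 SD ρ' F) (h0 : ∀ z, (∀ d, ρ d z = z) → inv (cup02 B z F) = 0) : B2 SD ρ' F :=
  (L.ld h).two F hF h0

end Pool.Agent.Work.MP_787500_nt.KR
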