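import Mathlib
import Pool.Agent.Work.MP_787500_nt.KR.ADefs
import Pool.Agent.Work.MP_787500_nt.KR.T17a

/-!
# Module A1 (size M): isotropy, middle exactness and numbers of classes

`H : GlobH S SD j χ inv`, `(M, M')` a finite pair over `S`, local duality `hl i` for the restriction of the pair to
`D i`, finitely many global cocycles. Write `Z i`, `Z' i` for the finite groups of smooth 1-cocycles of `D i` with
values in `M`, `M'`, `L = ∀ i, Z i`, `L' = ∀ i, Z' i`, and `β : L →+ L' →+ A0`, `β c y = ∑ i, inv i (cup11 (c i) (y i))`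
(biadditive: `LocH.add`, `cup11_Z2`, as in `KR/F06.lean`, `f06_B`; `KR/F06` has the same constructions for one place
and for the twisted pair). The radicals of `β` are the families of coboundaries: `⊆` by `LDual.one`, `one'` (apply
the hypothesis to families supported at one index), `⊇` by `f06_left`, `f06_right` (of `KR/F06.lean`, copy them, they
are short: a coboundary cup a cocycle is `d1` of a smooth function).
* `h1_flip`: for one place, `GP.card_eq_of_nondeg` (`GP/F01_Card`) for the induced pairing of the quotients, or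
  `GP.card_perp` twice.
* Let `X ⊆ L` be the subgroup of the families `i, d ↦ x (j i d) - d0 (Y i) d` with `x` a global cocycle, `X' ⊆ L'`
  similarly. `X`, `X'` contain the radicals and `β X X' = 0` (`H.recip` for `cup11 ρ' B x x'`, `cup11_Z2`, and the
  radicals). By `GP.card_perp` (for `Λ = X`, with `perpL β X ⊇ X'`): `card X * card X' ≤ card X * card (perpL β X) =
  card L' * card (radical in L)`. Moreover `card X * card (sh1) = card (z1s) * card (radical in L)`: the
  homomorphism `(x, Y) ↦ (x|D i) - Y` from `z1s × radical` onto `X` has kernel `≃ sh1`. And `card (z1s) = g1 * card (sh1)`,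
  `card (Z i) = h1 i * card (b1s i)` (`AddSubgroup.relIndex`; `b1s ≤ z1s` by `d0_Z1`, `sh1 ≤ z1s`). Together:
  `g1 * g1' ≤ ∏ i, h1 i (M')` = `cnt_le`, with equality iff `X' = perpL β X` iff `X = perpL β.flip X'`
  (`GP.perp_perp`), which is `Mid`.
-/

set_option autoImplicit false
set_option linter.unusedSectionVars false

namespace Pool.Agent.Work.MP_787500_nt.KR

open Pool.Agent.Work.MP_787500_nt.GP (A0 half hf IsAct d0 d1 d2 tw cup11 cup21 cup12 cup01 cup02)

section loc

variable {D : Type*} [Group D] {SD : FSys D} {χ : D → ℤ_[2]} {inv : (D → D → A0) → A0}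
  {M M' : Type*} [AddCommGroup M] [AddCommGroup M'] [Finite M] [Finite M'] {ρ : D → M → M}
  {ρ' : D → M' → M'} {B : M →+ M' →+ A0}

/-- coboundaries pair to zero -/
private theorem a1_left (L : LocH SD χ inv) (hp : Pair SD χ ρ ρ' B) (m : M) {y : D → M'}
    (hy : Z1 SD ρ' y) : inv (cup11 ρ' B (d0 ρ m) y) = 0 := by
  have e : cup11 ρ' B (d0 ρ m) y = d1 (tw χ) (cup01 B m y) := by
    funext s t
    have h1 := leib01 hp.eqv m y s t
    have h2 : cup02 B m (d1 ρ' y) s t = 0 := by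
      show B m (y s + ρ' s (y t) - y (s * t)) = 0
      rw [hy.2 s t, sub_self, map_zero]
    rw [h2, add_zero] at h1
    exact h1.symm
  rw [e]
  exact L.cob _ (cup01_sm hy.1)

private theorem a1_right (L : LocH SD χ inv) (hp : Pair SD χ ρ ρ' B) (m : M') {x : D → M}
    (hx : Z1 SD ρ x) : inv (cup11 ρ' B x (d0 ρ' m)) = 0 := by
  rw [inv_anti L hp hx (d0_Z1 hp.act' hp.sm' m), a1_left L hp.flip m hx, neg_zero]

/-- the local pairing of the groups of cocycles -/
private noncomputable def a1B (L : LocH SD χ inv) (h : Pair SD χ ρ ρ' B) :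
    z1s SD h.act →+ z1s SD h.act' →+ A0 :=
  AddMonoidHom.mk' (fun x => AddMonoidHom.mk'
    (fun y => inv (cup11 ρ' B (x : D → M) (y : D → M')))
    (fun y y' => by
      have e : cup11 ρ' B (x : D → M) ((y + y' : z1s SD h.act') : D → M') = fun s t =>
          cup11 ρ' B (x : D → M) (y : D → M') s t + cup11 ρ' B (x : D → M) (y' : D → M') s t := by
        funext s t
        show B ((x : D → M) s) (ρ' s ((y : D → M') t + (y' : D → M') t)) = _
        rw [h.act'.add, map_add]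
        rfl
      rw [e, L.add _ _ (cup11_Z2 h x.2 y.2) (cup11_Z2 h x.2 y'.2)]))
    (fun x x' => by
      ext y
      have e : cup11 ρ' B ((x + x' : z1s SD h.act) : D → M) (y : D → M') = fun s t =>
          cup11 ρ' B (x : D → M) (y : D → M') s t + cup11 ρ' B (x' : D → M) (y : D → M') s t := by
        funext s t
        show B ((x : D → M) s + (x' : D → M) s) (ρ' s ((y : D → M') t)) = _
        rw [map_add]
        rfl
      show inv (cup11 ρ' B ((x + x' : z1s SD h.act) : D → M) (y : D → M')) = inv _ + inv _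
      rw [e, L.add _ _ (cup11_Z2 h x.2 y.2) (cup11_Z2 h x'.2 y.2)])

private theorem a1B_apply (L : LocH SD χ inv) (h : Pair SD χ ρ ρ' B) (x : z1s SD h.act)
    (y : z1s SD h.act') : a1B L h x y = inv (cup11 ρ' B (x : D → M) (y : D → M')) := rfl

/-- the left radical -/
private theorem a1_radL (L : LocH SD χ inv) (h : Pair SD χ ρ ρ' B) (hl : LDual SD inv ρ ρ' B)
    (x : z1s SD h.act) : (∀ y, a1B L h x y = 0) ↔ ∃ m, (x : D → M) = d0 ρ m := by
  constructor
  · intro hx
    exact hl.one x x.2 fun y hy => hx ⟨y, hy⟩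
  · rintro ⟨m, hm⟩ y
    rw [a1B_apply, hm]
    exact a1_left L h m y.2

/-- the right radical -/
private theorem a1_radR (L : LocH SD χ inv) (h : Pair SD χ ρ ρ' B) (hl : LDual SD inv ρ ρ' B)
    (y : z1s SD h.act') : (∀ x, a1B L h x y = 0) ↔ ∃ m, (y : D → M') = d0 ρ' m := by
  constructor
  · intro hy
    exact hl.one' y y.2 fun x hx => hy ⟨x, hx⟩
  · rintro ⟨m, hm⟩ x
    rw [a1B_apply, hm]
    exact a1_right L h m x.2

private theorem a1_cardL (L : LocH SD χ inv) (h : Pair SD χ ρ ρ' B) (hl : LDual SD inv ρ ρ' B) :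
    Nat.card (GP.perpL (a1B L h).flip ⊤) = Nat.card (b1s h.act) := by
  refine Nat.card_congr ⟨fun x => ⟨x.1.1, (a1_radL L h hl x.1).1 fun y => x.2 y trivial⟩,
    fun x => ⟨⟨x.1, ?_⟩, fun y _ => (a1_radL L h hl ⟨x.1, ?_⟩).2 x.2 y⟩, fun x => rfl, fun x => rfl⟩
  all_goals
    obtain ⟨m, hm⟩ := x.2
    rw [mem_z1s, hm]
    exact d0_Z1 h.act h.sm m

private theorem a1_cardR (L : LocH SD χ inv) (h : Pair SD χ ρ ρ' B) (hl : LDual SD inv ρ ρ' B) :
    Nat.card (GP.perpL (a1B L h) ⊤) = Nat.card (b1s h.act') := by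
  refine Nat.card_congr ⟨fun x => ⟨x.1.1, (a1_radR L h hl x.1).1 fun y => x.2 y trivial⟩,
    fun x => ⟨⟨x.1, ?_⟩, fun y _ => (a1_radR L h hl ⟨x.1, ?_⟩).2 x.2 y⟩, fun x => rfl, fun x => rfl⟩
  all_goals
    obtain ⟨m, hm⟩ := x.2
    rw [mem_z1s, hm]
    exact d0_Z1 h.act' h.sm' m

theorem h1_ne_zero (h : Pair SD χ ρ ρ' B) (hfin : Finite {x : D → M // Z1 SD ρ x}) :
    h1 SD h.act ≠ 0 := by
  have h2 : Finite (z1s SD h.act) := hfin
  exact AddSubgroup.index_ne_zero_of_finite (H := (b1s h.act).addSubgroupOf (z1s SD h.act))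

theorem card_z1s (h : Pair SD χ ρ ρ' B) :
    Nat.card (b1s h.act) * h1 SD h.act = Nat.card (z1s SD h.act) := by
  have hle : b1s h.act ≤ z1s SD h.act := by
    rintro x ⟨m, rfl⟩
    exact d0_Z1 h.act h.sm m
  have e := AddSubgroup.relIndex_mul_relIndex (⊥ : AddSubgroup (D → M)) (b1s h.act)
    (z1s SD h.act) bot_le hle
  rw [AddSubgroup.relIndex_bot_left, AddSubgroup.relIndex_bot_left] at e
  exact e

private theorem a1_finB (h : Pair SD χ ρ ρ' B) : Finite (b1s h.act) := by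
  refine Finite.of_surjective (fun m : M => (⟨d0 ρ m, m, rfl⟩ : b1s h.act)) ?_
  rintro ⟨x, m, hm⟩
  exact ⟨m, Subtype.ext hm.symm⟩

theorem h1_flip (L : LocH SD χ inv) (h : Pair SD χ ρ ρ' B) (hl : LDual SD inv ρ ρ' B) :
    h1 SD h.act = h1 SD h.act' := by
  have f1 : Finite (z1s SD h.act) := hl.fin
  have f2 : Finite (z1s SD h.act') := hl.fin'
  have e := GP.card_perp (a1B L h) ⊤ (fun _ _ => trivial)
  have e0 : Nat.card (⊤ : AddSubgroup (z1s SD h.act)) = Nat.card (z1s SD h.act) :=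
    AddSubgroup.card_top
  rw [e0, a1_cardL L h hl, a1_cardR L h hl, ← card_z1s h] at e
  have e2 := card_z1s h.flip
  have e3 : Nat.card (b1s h.act') * h1 SD h.act' = Nat.card (z1s SD h.act') := e2
  rw [← e3] at e
  have p1 : Finite (b1s h.act) := a1_finB h
  have p2 : Finite (b1s h.act') := a1_finB h.flip
  have q1 : 0 < Nat.card (b1s h.act) := Nat.card_pos
  have q2 : 0 < Nat.card (b1s h.act') := Nat.card_pos
  have e4 : Nat.card (b1s h.act) * Nat.card (b1s h.act') * h1 SD h.act =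
      Nat.card (b1s h.act) * Nat.card (b1s h.act') * h1 SD h.act' := by
    linear_combination e
  exact Nat.eq_of_mul_eq_mul_left (Nat.mul_pos q1 q2) e4

end loc

/-! ## Products of pairings -/

section prod

variable {I : Type*} [Fintype I] {A A' : I → Type*} [∀ i, AddCommGroup (A i)]
  [∀ i, AddCommGroup (A' i)]

private noncomputable def a1P (b : ∀ i, A i →+ A' i →+ A0) : (∀ i, A i) →+ (∀ i, A' i) →+ A0 :=
  AddMonoidHom.mk' (fun x => AddMonoidHom.mk' (fun y => ∑ i, b i (x i) (y i))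
    (fun y y' => by
      rw [← Finset.sum_add_distrib]
      exact Finset.sum_congr rfl fun i _ => map_add _ _ _))
    (fun x x' => by
      ext y
      show ∑ i, b i (x i + x' i) (y i) = ∑ i, b i (x i) (y i) + ∑ i, b i (x' i) (y i)
      rw [← Finset.sum_add_distrib]
      refine Finset.sum_congr rfl fun i _ => ?_
      rw [map_add]
      rfl)

private theorem a1P_apply (b : ∀ i, A i →+ A' i →+ A0) (x : ∀ i, A i) (y : ∀ i, A' i) :
    a1P b x y = ∑ i, b i (x i) (y i) := rfl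

private theorem a1P_radR (b : ∀ i, A i →+ A' i →+ A0) (y : ∀ i, A' i) :
    (∀ x, a1P b x y = 0) ↔ ∀ i x, b i x (y i) = 0 := by
  classical
  constructor
  · intro h i x
    have e := h (Pi.single i x)
    rw [a1P_apply, Finset.sum_eq_single i] at e
    · rwa [Pi.single_eq_same] at e
    · intro k _ hk
      rw [Pi.single_eq_of_ne hk, map_zero]
      rfl
    · intro h2
      exact absurd (Finset.mem_univ i) h2
  · intro h x
    rw [a1P_apply]
    exact Finset.sum_eq_zero fun i _ => h i (x i)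

private theorem a1P_radL (b : ∀ i, A i →+ A' i →+ A0) (x : ∀ i, A i) :
    (∀ y, a1P b x y = 0) ↔ ∀ i y, b i (x i) y = 0 := by
  classical
  constructor
  · intro h i y
    have e := h (Pi.single i y)
    rw [a1P_apply, Finset.sum_eq_single i] at e
    · rwa [Pi.single_eq_same] at e
    · intro k _ hk
      rw [Pi.single_eq_of_ne hk, map_zero]
    · intro h2
      exact absurd (Finset.mem_univ i) h2
  · intro h y
    rw [a1P_apply]
    exact Finset.sum_eq_zero fun i _ => h i (y i)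

private theorem a1P_cardR (b : ∀ i, A i →+ A' i →+ A0) :
    Nat.card (GP.perpL (a1P b) ⊤) = ∏ i, Nat.card (GP.perpL (b i) ⊤) := by
  rw [← Nat.card_pi]
  refine Nat.card_congr ⟨fun y i => ⟨y.1 i, fun x _ => (a1P_radR b y.1).1 (fun x => y.2 x trivial) i x⟩,
    fun y => ⟨fun i => (y i).1, fun x _ => (a1P_radR b _).2 (fun i x => (y i).2 x trivial) x⟩,
    fun y => rfl, fun y => rfl⟩

private theorem a1P_cardL (b : ∀ i, A i →+ A' i →+ A0) :
    Nat.card (GP.perpL (a1P b).flip ⊤) = ∏ i, Nat.card (GP.perpL (b i).flip ⊤) := by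
  rw [← Nat.card_pi]
  refine Nat.card_congr ⟨fun y i => ⟨y.1 i, fun x _ => (a1P_radL b y.1).1 (fun x => y.2 x trivial) i x⟩,
    fun y => ⟨fun i => (y i).1, fun x _ => (a1P_radL b _).2 (fun i x => (y i).2 x trivial) x⟩,
    fun y => rfl, fun y => rfl⟩

end prod

section glob

variable {G : Type*} [Group G] {S : FSys G} {I : Type*} [Fintype I] {D : I → Type*}
  [∀ i, Group (D i)] {SD : ∀ i, FSys (D i)} {j : ∀ i, D i →* G} {χ : G → ℤ_[2]}
  {inv : ∀ i, (D i → D i → A0) → A0} {M M' : Type*} [AddCommGroup M] [AddCommGroup M'] [Finite M]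
  [Finite M'] {ρ : G → M → M} {ρ' : G → M' → M'} {B : M →+ M' →+ A0}

private theorem a1_pair (H : GlobH S SD j χ inv) (h : Pair S χ ρ ρ' B) (i : I) :
    Pair (SD i) (fun d => χ (j i d)) (fun d => ρ (j i d)) (fun d => ρ' (j i d)) B :=
  h.comp (H.jsm i)

/-- the pairing of the families -/
private noncomputable def a1T (H : GlobH S SD j χ inv) (h : Pair S χ ρ ρ' B) :
    (∀ i, z1s (SD i) (h.act.comp (j i))) →+ (∀ i, z1s (SD i) (h.act'.comp (j i))) →+ A0 :=
  a1P fun i => a1B (H.loc i) (a1_pair H h i)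

/-- restriction of global cocycles -/
private def a1R (H : GlobH S SD j χ inv) (h : IsAct ρ) :
    z1s S h →+ (∀ i, z1s (SD i) (h.comp (j i))) where
  toFun x i := ⟨fun d => x.1 (j i d), Z1.comp (H.jsm i) x.2⟩
  map_zero' := rfl
  map_add' _ _ := rfl

/-- index of the coboundaries in the group generated by the restrictions and the coboundaries -/
private theorem a1_cardX (H : GlobH S SD j χ inv) (h : IsAct ρ)
    (K : AddSubgroup (∀ i, z1s (SD i) (h.comp (j i))))
    (hK : ∀ c, c ∈ K ↔ ∀ i, ∃ m, ∀ d, (c i : D i → M) d = d0 (fun d => ρ (j i d)) m d) :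
    Nat.card ((a1R H h).range ⊔ K : AddSubgroup (∀ i, z1s (SD i) (h.comp (j i)))) =
      Nat.card K * g1 S j h := by
  have e := AddSubgroup.relIndex_mul_relIndex (⊥ : AddSubgroup (∀ i, z1s (SD i) (h.comp (j i)))) K
    ((a1R H h).range ⊔ K) bot_le le_sup_right
  rw [AddSubgroup.relIndex_bot_left, AddSubgroup.relIndex_bot_left,
    AddSubgroup.relIndex_sup_right, ← AddSubgroup.index_comap] at e
  rw [← e]
  congr 1
  have e2 : K.comap (a1R H h) = (sh1 S j h).addSubgroupOf (z1s S h) := by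
    ext x
    rw [AddSubgroup.mem_comap, hK, AddSubgroup.mem_addSubgroupOf]
    constructor
    · intro h1
      exact ⟨x.2, h1⟩
    · intro h1
      exact h1.2
  rw [e2]
  rfl

private theorem a1_memR (H : GlobH S SD j χ inv) (h : Pair S χ ρ ρ' B)
    (hl : ∀ i, LDual (SD i) (inv i) (fun d => ρ (j i d)) (fun d => ρ' (j i d)) B)
    (c : ∀ i, z1s (SD i) (h.act'.comp (j i))) :
    c ∈ GP.perpL (a1T H h) ⊤ ↔
      ∀ i, ∃ m, ∀ d, (c i : D i → M') d = d0 (fun d => ρ' (j i d)) m d := by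
  have e := a1P_radR (fun i => a1B (H.loc i) (a1_pair H h i)) c
  constructor
  · intro h1 i
    obtain ⟨m, hm⟩ := (a1_radR (H.loc i) (a1_pair H h i) (hl i) (c i)).1
      (e.1 (fun x => h1 x trivial) i)
    exact ⟨m, fun d => congrFun hm d⟩
  · intro h1 x _
    refine e.2 (fun i => ?_) x
    obtain ⟨m, hm⟩ := h1 i
    exact (a1_radR (H.loc i) (a1_pair H h i) (hl i) (c i)).2 ⟨m, funext hm⟩

private theorem a1_memL (H : GlobH S SD j χ inv) (h : Pair S χ ρ ρ' B)
    (hl : ∀ i, LDual (SD i) (inv i) (fun d => ρ (j i d)) (fun d => ρ' (j i d)) B)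
    (c : ∀ i, z1s (SD i) (h.act.comp (j i))) :
    c ∈ GP.perpL (a1T H h).flip ⊤ ↔
      ∀ i, ∃ m, ∀ d, (c i : D i → M) d = d0 (fun d => ρ (j i d)) m d := by
  have e := a1P_radL (fun i => a1B (H.loc i) (a1_pair H h i)) c
  constructor
  · intro h1 i
    obtain ⟨m, hm⟩ := (a1_radL (H.loc i) (a1_pair H h i) (hl i) (c i)).1
      (e.1 (fun x => h1 x trivial) i)
    exact ⟨m, fun d => congrFun hm d⟩
  · intro h1 x _
    refine e.2 (fun i => ?_) x
    obtain ⟨m, hm⟩ := h1 i
    exact (a1_radL (H.loc i) (a1_pair H h i) (hl i) (c i)).2 ⟨m, funext hm⟩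

private theorem a1_recip (H : GlobH S SD j χ inv) (h : Pair S χ ρ ρ' B) (x : z1s S h.act)
    (y : z1s S h.act') : a1T H h (a1R H h.act x) (a1R H h.act' y) = 0 :=
  H.recip _ (cup11_Z2 h x.2 y.2)

/-- the numerical facts -/
private theorem a1_num (H : GlobH S SD j χ inv) (h : Pair S χ ρ ρ' B)
    (hl : ∀ i, LDual (SD i) (inv i) (fun d => ρ (j i d)) (fun d => ρ' (j i d)) B) :
    (g1 S j h.act * Nat.card (GP.perpL (a1T H h) ((a1R H h.act).range ⊔ GP.perpL (a1T H h).flip ⊤)) =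
      Nat.card (GP.perpL (a1T H h) ⊤) * ∏ i, h1 (SD i) (h.act.comp (j i))) ∧
    (g1 S j h.act' * Nat.card (GP.perpL (a1T H h).flip ((a1R H h.act').range ⊔ GP.perpL (a1T H h) ⊤)) =
      Nat.card (GP.perpL (a1T H h).flip ⊤) * ∏ i, h1 (SD i) (h.act.comp (j i))) := by
  have f1 : ∀ i, Finite (z1s (SD i) (h.act.comp (j i))) := fun i => (hl i).fin
  have f2 : ∀ i, Finite (z1s (SD i) (h.act'.comp (j i))) := fun i => (hl i).fin'
  have c1 : Nat.card (∀ i, z1s (SD i) (h.act.comp (j i))) =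
      Nat.card (GP.perpL (a1T H h).flip ⊤) * ∏ i, h1 (SD i) (h.act.comp (j i)) := by
    rw [Nat.card_pi, a1T, a1P_cardL, ← Finset.prod_mul_distrib]
    refine Finset.prod_congr rfl fun i _ => ?_
    rw [a1_cardL (H.loc i) (a1_pair H h i) (hl i)]
    exact (card_z1s (a1_pair H h i)).symm
  have c2 : Nat.card (∀ i, z1s (SD i) (h.act'.comp (j i))) =
      Nat.card (GP.perpL (a1T H h) ⊤) * ∏ i, h1 (SD i) (h.act.comp (j i)) := by
    rw [Nat.card_pi, a1T, a1P_cardR, ← Finset.prod_mul_distrib]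
    refine Finset.prod_congr rfl fun i _ => ?_
    rw [a1_cardR (H.loc i) (a1_pair H h i) (hl i)]
    rw [show h1 (SD i) (h.act.comp (j i)) = h1 (SD i) (h.act'.comp (j i)) from
      h1_flip (H.loc i) (a1_pair H h i) (hl i)]
    exact (card_z1s (a1_pair H h i).flip).symm
  have p1 : 0 < Nat.card (GP.perpL (a1T H h).flip ⊤) := Nat.card_pos
  have p2 : 0 < Nat.card (GP.perpL (a1T H h) ⊤) := Nat.card_pos
  constructor
  · have e := GP.card_perp (a1T H h) ((a1R H h.act).range ⊔ GP.perpL (a1T H h).flip ⊤)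
      (fun a ha => AddSubgroup.mem_sup_right fun a' _ => ha a')
    rw [a1_cardX H h.act _ (a1_memL H h hl), c2] at e
    refine Nat.eq_of_mul_eq_mul_left p1 ?_
    linear_combination e
  · have e := GP.card_perp (a1T H h).flip ((a1R H h.act').range ⊔ GP.perpL (a1T H h) ⊤)
      (fun a ha => AddSubgroup.mem_sup_right fun a' _ => ha a')
    have e0 : GP.perpL (a1T H h).flip.flip ⊤ = GP.perpL (a1T H h) ⊤ := rfl
    rw [a1_cardX H h.act' _ (a1_memR H h hl), c1, e0] at e
    refine Nat.eq_of_mul_eq_mul_left p2 ?_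
    linear_combination e

private theorem a1_le (H : GlobH S SD j χ inv) (h : Pair S χ ρ ρ' B) :
    (a1R H h.act').range ⊔ GP.perpL (a1T H h) ⊤ ≤
      GP.perpL (a1T H h) ((a1R H h.act).range ⊔ GP.perpL (a1T H h).flip ⊤) := by
  refine sup_le ?_ ?_
  · rintro _ ⟨y, rfl⟩ c hc
    obtain ⟨a, ⟨x, rfl⟩, b, hb, rfl⟩ := AddSubgroup.mem_sup.1 hc
    rw [map_add, AddMonoidHom.add_apply, a1_recip H h x y, zero_add]
    exact hb _ trivial
  · intro y hy c _
    exact hy c trivial

private theorem a1_Xcard (H : GlobH S SD j χ inv) (h : Pair S χ ρ ρ' B)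
    (hl : ∀ i, LDual (SD i) (inv i) (fun d => ρ (j i d)) (fun d => ρ' (j i d)) B) :
    Nat.card (GP.perpL (a1T H h) ⊤) * g1 S j h.act' ≤
      Nat.card (GP.perpL (a1T H h) ((a1R H h.act).range ⊔ GP.perpL (a1T H h).flip ⊤)) := by
  have f2 : ∀ i, Finite (z1s (SD i) (h.act'.comp (j i))) := fun i => (hl i).fin'
  rw [← a1_cardX H h.act' _ (a1_memR H h hl)]
  exact Nat.card_le_card_of_injective _ (AddSubgroup.inclusion_injective (a1_le H h))

theorem cnt_le (H : GlobH S SD j χ inv) (h : Pair S χ ρ ρ' B)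
    (hl : ∀ i, LDual (SD i) (inv i) (fun d => ρ (j i d)) (fun d => ρ' (j i d)) B)
    (hfin : Finite {x : G → M // Z1 S ρ x}) (hfin' : Finite {x : G → M' // Z1 S ρ' x}) :
    g1 S j h.act * g1 S j h.act' ≤ ∏ i, h1 (SD i) (h.act.comp (j i)) := by
  have f2 : ∀ i, Finite (z1s (SD i) (h.act'.comp (j i))) := fun i => (hl i).fin'
  have p2 : 0 < Nat.card (GP.perpL (a1T H h) ⊤) := Nat.card_pos
  refine Nat.le_of_mul_le_mul_left ?_ p2
  rw [← (a1_num H h hl).1]
  calc Nat.card (GP.perpL (a1T H h) ⊤) * (g1 S j h.act * g1 S j h.act')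
      = g1 S j h.act * (Nat.card (GP.perpL (a1T H h) ⊤) * g1 S j h.act') := by ring
    _ ≤ _ := Nat.mul_le_mul_left _ (a1_Xcard H h hl)

private theorem a1_g1_pos (h : IsAct ρ) (hfin : Finite {x : G → M // Z1 S ρ x}) :
    0 < g1 S j h := by
  have h2 : Finite (z1s S h) := hfin
  exact Nat.pos_of_ne_zero
    (AddSubgroup.index_ne_zero_of_finite (H := (sh1 S j h).addSubgroupOf (z1s S h)))

theorem mid_of_cnt (H : GlobH S SD j χ inv) (h : Pair S χ ρ ρ' B)
    (hl : ∀ i, LDual (SD i) (inv i) (fun d => ρ (j i d)) (fun d => ρ' (j i d)) B)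
    (hfin : Finite {x : G → M // Z1 S ρ x}) (hfin' : Finite {x : G → M' // Z1 S ρ' x})
    (hc : ∏ i, h1 (SD i) (h.act.comp (j i)) ≤ g1 S j h.act * g1 S j h.act') :
    Mid S SD j inv ρ ρ' B := by
  have f1 : ∀ i, Finite (z1s (SD i) (h.act.comp (j i))) := fun i => (hl i).fin
  have f2 : ∀ i, Finite (z1s (SD i) (h.act'.comp (j i))) := fun i => (hl i).fin'
  have hX : (a1R H h.act').range ⊔ GP.perpL (a1T H h) ⊤ =
      GP.perpL (a1T H h) ((a1R H h.act).range ⊔ GP.perpL (a1T H h).flip ⊤) := by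
    refine AddSubgroup.eq_of_le_of_card_ge (a1_le H h) ?_
    rw [a1_cardX H h.act' _ (a1_memR H h hl)]
    refine Nat.le_of_mul_le_mul_left ?_ (a1_g1_pos (j := j) h.act hfin)
    rw [(a1_num H h hl).1]
    calc Nat.card (GP.perpL (a1T H h) ⊤) * ∏ i, h1 (SD i) (h.act.comp (j i))
        ≤ Nat.card (GP.perpL (a1T H h) ⊤) * (g1 S j h.act * g1 S j h.act') :=
          Nat.mul_le_mul_left _ hc
      _ = g1 S j h.act * (Nat.card (GP.perpL (a1T H h) ⊤) * g1 S j h.act') := by ring
  have hY := GP.perp_perp (a1T H h) ((a1R H h.act).range ⊔ GP.perpL (a1T H h).flip ⊤)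
      (fun a ha => AddSubgroup.mem_sup_right fun a' _ => ha a')
  rw [← hX] at hY
  intro c hc1 hc2
  let c' : ∀ i, z1s (SD i) (h.act.comp (j i)) := fun i => ⟨c i, hc1 i⟩
  have hmem : c' ∈ GP.perpL (a1T H h).flip ((a1R H h.act').range ⊔ GP.perpL (a1T H h) ⊤) := by
    intro y hy
    obtain ⟨a, ⟨x, rfl⟩, b, hb, rfl⟩ := AddSubgroup.mem_sup.1 hy
    rw [map_add, AddMonoidHom.add_apply, AddMonoidHom.flip_apply, AddMonoidHom.flip_apply,
      hb c' trivial, add_zero]
    exact hc2 x.1 x.2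
  rw [hY] at hmem
  obtain ⟨a, ⟨x, rfl⟩, b, hb, hab⟩ := AddSubgroup.mem_sup.1 hmem
  have hb2 := (a1_memL H h hl b).1 hb
  choose m hm using hb2
  refine ⟨x.1, fun i => -m i, x.2, fun i d => ?_⟩
  have e1 : c i d = x.1 (j i d) + (b i : D i → M) d := by
    have e2 := congrFun hab.symm i
    have e3 := congrArg (fun z : z1s (SD i) (h.act.comp (j i)) => (z : D i → M) d) e2
    exact e3
  rw [e1, hm]
  simp only [d0, h.act.neg]
  abel

theorem cnt_of_mid (H : GlobH S SD j χ inv) (h : Pair S χ ρ ρ' B)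
    (hl : ∀ i, LDual (SD i) (inv i) (fun d => ρ (j i d)) (fun d => ρ' (j i d)) B)
    (hfin : Finite {x : G → M // Z1 S ρ x}) (hfin' : Finite {x : G → M' // Z1 S ρ' x})
    (hm : Mid S SD j inv ρ ρ' B) :
    g1 S j h.act * g1 S j h.act' = ∏ i, h1 (SD i) (h.act.comp (j i)) := by
  refine le_antisymm (cnt_le H h hl hfin hfin') ?_
  have f1 : ∀ i, Finite (z1s (SD i) (h.act.comp (j i))) := fun i => (hl i).fin
  have f2 : ∀ i, Finite (z1s (SD i) (h.act'.comp (j i))) := fun i => (hl i).fin'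
  have hle : GP.perpL (a1T H h).flip ((a1R H h.act').range ⊔ GP.perpL (a1T H h) ⊤) ≤
      (a1R H h.act).range ⊔ GP.perpL (a1T H h).flip ⊤ := by
    intro c hc
    obtain ⟨X, Y, hX, hXY⟩ := hm (fun i => (c i : D i → M)) (fun i => (c i).2) (fun x hx =>
      hc (a1R H h.act' ⟨x, hx⟩) (AddSubgroup.mem_sup_left ⟨⟨x, hx⟩, rfl⟩))
    have e : c = a1R H h.act ⟨X, hX⟩ + (c - a1R H h.act ⟨X, hX⟩) := by abel
    rw [e]
    refine AddSubgroup.add_mem_sup ⟨⟨X, hX⟩, rfl⟩ ?_
    rw [a1_memL H h hl]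
    refine fun i => ⟨-Y i, fun d => ?_⟩
    show (c i : D i → M) d - X (j i d) = _
    have e2 : (c i : D i → M) d = X (j i d) - d0 (fun d => ρ (j i d)) (Y i) d := hXY i d
    rw [e2]
    simp only [d0, h.act.neg]
    abel
  have hcard : Nat.card (GP.perpL (a1T H h).flip ((a1R H h.act').range ⊔ GP.perpL (a1T H h) ⊤)) ≤
      Nat.card (GP.perpL (a1T H h).flip ⊤) * g1 S j h.act := by
    rw [← a1_cardX H h.act _ (a1_memL H h hl)]
    exact Nat.card_le_card_of_injective _ (AddSubgroup.inclusion_injective hle)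
  have p1 : 0 < Nat.card (GP.perpL (a1T H h).flip ⊤) := Nat.card_pos
  refine Nat.le_of_mul_le_mul_left ?_ p1
  rw [← (a1_num H h hl).2]
  calc g1 S j h.act' * Nat.card (GP.perpL (a1T H h).flip ((a1R H h.act').range ⊔ GP.perpL (a1T H h) ⊤))
      ≤ g1 S j h.act' * (Nat.card (GP.perpL (a1T H h).flip ⊤) * g1 S j h.act) :=
        Nat.mul_le_mul_left _ hcard
    _ = _ := by ring

end glob

end Pool.Agent.Work.MP_787500_nt.KR
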