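import Mathlib
import Pool.Agent.Work.MP_787500_nt.KR.BDefs

/-!
# Module LD1 (size M): the local hypotheses pass to a subgroup of odd index

`D`, `F`, `N₀ ≤ C ≤ D` as in `Syl`, `S = big F N₀`, `T = traQ C`, `n = Fintype.card (D ⧸ C) = C.index` odd.
`h : LocB F N₀ χ inv`. The invariant on `C` is `inv' f = inv (cor2 T (tw χ) f)`.

Compatibility of the systems: `hT := traQ_sm` (`C3_Sm`) : `T.Sm S (ofTwo (two (res F C)))`. Note that
`Sm1 (ofTwo S')`, `Sm2 (ofTwo S')` are `PA.Sm1 S'`, `PA.Sm2 S'` (definitionally), and similarly `Z1`, `Z2`.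
* `char`: `χ` is `C1 S`, restrict with `hT.res`.
* `add`: `cor2_add` and `h.add` (`cor2` of a cocycle is a cocycle: `cor2_coc`, `cor2_sm`; the action
  `tw χ` is `isAct_tw h.char`, and on `C` it is `tw (χ|C)`, definitionally `fun c => tw χ (T.i c)`).
* `cob`: `cor2_d1`, `cor1_sm`, `h.cob`.
* `fin`: `h.fin C` (`Opn F C`: `N₀ ≤ C`).
* `one`: let `α` be a smooth 2-cocycle modulo 2 on `C`, not a coboundary. Let `α₀` be as in `h.ex`.
  Write `res α₀` for its restriction to `C`. By `cor2_res` (applied to `fun a b => hf (α₀ a b)`, a cocycle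
  for `tw χ` by `smul_hf`), `cor2 (hf res α₀) = n • hf α₀ + d1 ..` with `n • hf a = hf a` (`n` odd, `hf_two`),
  so `inv (cor2 (hf (res α₀))) = inv (hf α₀) ≠ 0` (smoothness of the homotopy: `zet_sm`, `sum_sm`); in
  particular `res α₀` is not a coboundary (if `res α₀ = d z` then `hf (res α₀) = d1 (hf z)`, and `cob`).
  By `LocalType.one` for `α`, `res α₀`: `α + res α₀ = d z`, so `inv (cor2 (hf α)) = inv (cor2 (hf (res α₀)))
  ≠ 0` (`hf α = hf (res α₀) + d1 (tw χ) (hf z)`). This is `locB_ne`; `one` is the contrapositive.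
* `nondeg`: if `ψ ≠ 0` take `ω` from `LocalType.nondeg` with `cup ψ ω` not a coboundary, and use `one`.
-/

set_option autoImplicit false
set_option linter.unusedSectionVars false

namespace Pool.Agent.Work.MP_787500_nt.KR

open Pool.Agent.Work.MP_787500_nt.GP (A0 half hf hf_zero hf_one hf_add hf_two hf_neg smul_hf eq_hf
  IsAct d0 d1 d2 tw cup11 cup02)
open Pool.Agent.Work.MP_787500_nt.PA (TwoSys homs LocalType)

variable {D : Type*} [Group D] {F : FSys D} {N₀ C : Subgroup D} {χ : D → ℤ_[2]}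
  {inv : (D → D → A0) → A0}

private theorem ld1_T (hC : Syl F N₀ C) :
    (traQ C).Sm (big F N₀) (ofTwo (two (res F C))) := by
  have := hC.normal
  exact traQ_sm hC.opn hC.le hC.pow

private theorem ld1_opn (hC : Syl F N₀ C) : Opn F C := by
  obtain ⟨W, hW, hWN⟩ := hC.opn
  exact ⟨W, hW, hWN.trans hC.le⟩

private theorem ld1_hf_Z2 {G : Type*} [Group G] {S : FSys G} {χ : G → ℤ_[2]}
    (hχ : ∀ g, (2 : ℤ_[2]) ∣ χ g - 1) {α : G → G → ZMod 2} (hs : Sm2 S α)
    (hc : ∀ g h k, α g h + α (g * h) k = α h k + α g (h * k)) :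
    Z2 S (tw χ) (fun a b => hf (α a b)) := by
  refine ⟨?_, fun a b c => ?_⟩
  · obtain ⟨W, hW, h1⟩ := hs
    exact ⟨W, hW, fun g h w hw w' hw' => congrArg hf (h1 g h w hw w' hw')⟩
  · show χ a • hf (α b c) - hf (α (a * b) c) + hf (α a (b * c)) - hf (α a b) = 0
    rw [smul_hf (hχ a), sub_eq_add_neg, sub_eq_add_neg, hf_neg, hf_neg, ← hf_add, ← hf_add,
      ← hf_add]
    have e : α b c + α (a * b) c + α a (b * c) + α a b = 0 := by
      have h1 := hc a b c
      have h2 : α b c + α (a * b) c + α a (b * c) + α a b =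
          (α a b + α (a * b) c) + (α b c + α a (b * c)) := by ring
      rw [h2, h1, CharTwo.add_self_eq_zero]
    rw [e, hf_zero]

private theorem ld1_hf_d1 {G : Type*} [Group G] {χ : G → ℤ_[2]}
    (hχ : ∀ g, (2 : ℤ_[2]) ∣ χ g - 1) (z : G → ZMod 2) (a b : G) :
    d1 (tw χ) (fun g => hf (z g)) a b = hf (z a + z b + z (a * b)) := by
  show hf (z a) + χ a • hf (z b) - hf (z (a * b)) = _
  rw [smul_hf (hχ a), sub_eq_add_neg, hf_neg, hf_add, hf_add]

private theorem ld1_hf_sm1 {G A B : Type*} [Group G] {S : FSys G} {z : G → A} (hz : Sm1 S z)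
    (φ : A → B) : Sm1 S (fun g => φ (z g)) := by
  obtain ⟨W, hW, h1⟩ := hz
  exact ⟨W, hW, fun g w hw => congrArg φ (h1 g w hw)⟩

private theorem ld1_cor_Z2 [Fintype (D ⧸ C)] (h : LocB F N₀ χ inv) (hC : Syl F N₀ C)
    {f : C → C → A0} (hf' : Z2 (ofTwo (two (res F C))) (tw fun c : C => χ c) f) :
    Z2 (big F N₀) (tw χ) (cor2 (traQ C) (tw χ) f) :=
  ⟨cor2_sm (ld1_T hC) hf'.1, cor2_coc (traQ C) (isAct_tw h.char) hf'.2⟩

private theorem ld1_cor_cob [Fintype (D ⧸ C)] (h : LocB F N₀ χ inv) (hC : Syl F N₀ C)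
    {z : C → A0} (hz : Sm1 (ofTwo (two (res F C))) z) :
    inv (cor2 (traQ C) (tw χ) (d1 (tw fun c : C => χ c) z)) = 0 := by
  have e : cor2 (traQ C) (tw χ) (d1 (tw fun c : C => χ c) z) =
      d1 (tw χ) (cor1 (traQ C) (tw χ) z) := cor2_d1 (traQ C) (isAct_tw h.char) z
  rw [e]
  exact h.cob _ (cor1_sm (ld1_T hC) hz)

private theorem ld1_smul_odd {n : ℕ} (hn : Odd n) (a : ZMod 2) : n • hf a = hf a := by
  obtain ⟨k, rfl⟩ := hn
  rw [add_smul, one_smul, mul_comm, mul_smul, two_smul, hf_two, smul_zero, zero_add]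

private theorem ld1_inv_cor [Fintype (D ⧸ C)] (h : LocB F N₀ χ inv) (hC : Syl F N₀ C)
    {α : D → D → ZMod 2} (hα : Coc (big F N₀) α) :
    inv (cor2 (traQ C) (tw χ) (fun a b : C => hf (α a b))) = inv (fun a b => hf (α a b)) := by
  have hZ : Z2 (big F N₀) (tw χ) (fun a b => hf (α a b)) :=
    ld1_hf_Z2 h.char.odd hα.1 hα.2
  have hn : Odd (Fintype.card (D ⧸ C)) := by
    rw [← Nat.card_eq_fintype_card]
    exact hC.odd
  have hzs : Sm1 (big F N₀) (fun g => ∑ v, zet (traQ C) (fun a b => hf (α a b)) v g) :=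
    sum_sm fun v => zet_sm (ld1_T hC) hZ.1 v
  have e : cor2 (traQ C) (tw χ) (fun a b : C => hf (α a b)) = fun g k =>
      hf (α g k) + d1 (tw χ) (fun g => ∑ v, zet (traQ C) (fun a b => hf (α a b)) v g) g k := by
    funext g k
    have h1 := cor2_res (traQ C) (isAct_tw h.char) hZ.2 g k
    rw [ld1_smul_odd hn] at h1
    exact h1
  rw [e, h.add _ _ hZ (d1_tw_Z2 h.char hzs), h.cob _ hzs, add_zero]

private theorem ld1_res_coc (hC : Syl F N₀ C) {α : D → D → ZMod 2} (hα : Coc (big F N₀) α) :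
    PA.Coc (two (res F C)) (⊤ : Subgroup C) (fun a b => α a b) := by
  refine ⟨?_, fun g _ k _ l _ => hα.2 g k l⟩
  exact Sm2.comp (j := (traQ C).i) (ld1_T hC).res hα.1

/-- the restriction to `C` of a class with nonzero invariant is not a coboundary -/
theorem locB_res [Fintype (D ⧸ C)] (h : LocB F N₀ χ inv) (hC : Syl F N₀ C) {α : D → D → ZMod 2}
    (hα : Coc (big F N₀) α) (hn : inv (fun a b => hf (α a b)) ≠ 0) :
    ¬ PA.Cob (two (res F C)) (⊤ : Subgroup C) (fun a b => α a b) := by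
  rintro ⟨z, hz, h1⟩
  apply hn
  rw [← ld1_inv_cor h hC hα]
  have e : (fun a b : C => hf (α a b)) = d1 (tw fun c : C => χ c) (fun c => hf (z c)) := by
    funext a b
    rw [ld1_hf_d1 (fun c : C => h.char.odd c) z a b]
    exact congrArg hf (h1 a trivial b trivial)
  rw [e]
  exact ld1_cor_cob h hC (ld1_hf_sm1 (S := ofTwo (two (res F C))) hz hf)

theorem locB_ne [Fintype (D ⧸ C)] (h : LocB F N₀ χ inv) (hC : Syl F N₀ C) {α : C → C → ZMod 2}
    (hα : PA.Coc (two (res F C)) (⊤ : Subgroup C) α)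
    (hn : ¬ PA.Cob (two (res F C)) (⊤ : Subgroup C) α) :
    inv (cor2 (traQ C) (tw χ) (fun a b => hf (α a b))) ≠ 0 := by
  obtain ⟨α₀, hα₀, h0⟩ := h.ex
  obtain ⟨z, hz, h1⟩ := (h.lt C (ld1_opn hC)).one α (fun a b => α₀ a b) hα
    (ld1_res_coc hC hα₀) hn (locB_res h hC hα₀ h0)
  have e : (fun a b : C => hf (α a b)) = fun a b : C => hf (α₀ a b) +
      d1 (tw fun c : C => χ c) (fun c => hf (z c)) a b := by
    funext a b
    rw [ld1_hf_d1 (fun c : C => h.char.odd c) z a b, ← hf_add, ← h1 a trivial b trivial]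
    congr 1
    have h2 : α₀ a b + (α a b + α₀ a b) = α a b + (α₀ a b + α₀ a b) := by ring
    rw [h2, CharTwo.add_self_eq_zero, add_zero]
  have hzs : Sm1 (ofTwo (two (res F C))) (fun c => hf (z c)) :=
    ld1_hf_sm1 (S := ofTwo (two (res F C))) hz hf
  have hres : Z2 (ofTwo (two (res F C))) (tw fun c : C => χ c) (fun a b : C => hf (α₀ a b)) :=
    ld1_hf_Z2 (fun c : C => h.char.odd c) (ld1_res_coc hC hα₀).1 fun g k l => hα₀.2 g k l
  have hd : d1 (tw fun c : C => χ c) (fun c => hf (z c)) = fun a b =>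
      hf (α a b + α₀ a b) := by
    funext a b
    rw [ld1_hf_d1 (fun c : C => h.char.odd c) z a b, ← h1 a trivial b trivial]
  have hdZ : Z2 (ofTwo (two (res F C))) (tw fun c : C => χ c)
      (d1 (tw fun c : C => χ c) (fun c => hf (z c))) := by
    refine ⟨?_, ?_⟩
    · rw [hd]
      obtain ⟨W, hW, h2⟩ := hα.1
      obtain ⟨W', hW', h3⟩ := (ld1_res_coc hC hα₀).1
      refine ⟨W ⊓ W', (two (res F C)).inf hW hW', fun g k w hw w' hw' => ?_⟩
      have h4 := h2 g k w hw.1 w' hw'.1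
      have h5 := h3 g k w hw.2 w' hw'.2
      exact congrArg hf (congrArg₂ (· + ·) h4 h5)
    · intro a b c
      have hact : IsAct (tw fun c : C => χ c) := (isAct_tw h.char).comp C.subtype
      exact d2_d1 hact _ a b c
  rw [e, cor2_add (traQ C) (isAct_tw h.char), h.add _ _ (ld1_cor_Z2 h hC hres)
    (ld1_cor_Z2 h hC hdZ), ld1_cor_cob h hC hzs, add_zero, ld1_inv_cor h hC hα₀]
  exact h0

theorem locH_sub [Fintype (D ⧸ C)] (h : LocB F N₀ χ inv) (hC : Syl F N₀ C) :
    GP.LocH (two (res F C)) (fun c => χ c) (fun f => inv (cor2 (traQ C) (tw χ) f)) where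
  char := by
    refine ⟨h.char.one, fun a b => h.char.mul a b, fun n => ?_, fun a => h.char.odd a⟩
    obtain ⟨W, hW, h1⟩ := h.char.cont n
    obtain ⟨W', hW', h2⟩ := (ld1_T hC).res W hW
    exact ⟨W', hW', fun g w hw => h1 g w (h2 w hw)⟩
  add f f' h1 h2 := by
    show inv (cor2 (traQ C) (tw χ) (fun a b => f a b + f' a b)) = _
    rw [cor2_add (traQ C) (isAct_tw h.char)]
    exact h.add _ _ (ld1_cor_Z2 h hC h1) (ld1_cor_Z2 h hC h2)
  cob z hz := ld1_cor_cob h hC hz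
  fin := h.fin C (ld1_opn hC)
  nondeg ψ hψ h0 := by
    by_contra hne
    obtain ⟨ω, hω, hcob⟩ := (h.lt C (ld1_opn hC)).nondeg ψ hψ hne
    have hcoc : PA.Coc (two (res F C)) (⊤ : Subgroup C) (PA.cup ψ ω) := by
      refine ⟨?_, ?_⟩
      · obtain ⟨⟨W, hW, h1⟩, -⟩ := hψ
        obtain ⟨⟨W', hW', h2⟩, -⟩ := hω
        refine ⟨W ⊓ W', (two (res F C)).inf hW hW', fun g k w hw w' hw' => ?_⟩
        show ψ (g * w) * ω (k * w') = ψ g * ω k
        rw [h1 g w hw.1, h2 k w' hw'.2]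
      · intro g _ k _ l _
        show ψ g * ω k + ψ (g * k) * ω l = ψ k * ω l + ψ g * ω (k * l)
        rw [hψ.2.2 g trivial k trivial, hω.2.2 k trivial l trivial]
        ring
    exact locB_ne h hC hcoc hcob (h0 ω hω)
  one f hc h0 := by
    by_contra hn
    exact locB_ne h hC hc hn h0

end Pool.Agent.Work.MP_787500_nt.KR
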