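import Mathlib
import Pool.Agent.Work.MP_787500_nt.KR.LD1
import Pool.Agent.Work.MP_787500_nt.GP.T17_Loc
import Pool.Agent.Work.MP_787500_nt.GP.F05_FinZ

/-!
# Module LD2 (size M): local duality by descent from a subgroup of odd index

`D`, `F`, `N₀ ≤ C ≤ D` as in `Syl`, `S = big F N₀`, `T = traQ C`, `n = card (D ⧸ C)` odd, `h : LocB F N₀ χ inv`,
`(M, M')` a finite pair over `S`. Restricted to `C` it is a pair over `two (res F C)` in the sense of `GP`
(smoothness: `hT.res`), and `locH_sub` (LD1) gives `GP.LocH` for `C` with the invariant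
`inv' f = inv (cor2 T (tw χ) f)`; so `GP.local_one`, `GP.local_one'`, `GP.local_two` apply to `C`.
* `odd_cancel`: `M` is killed by some `2 ^ k` (`a0_killed` for the finitely many values of `B` and `nd`), so
  there is `a : ℕ` with `a * n ≡ 1` modulo `2 ^ k` and `(a * n) • m = m`.
* `one`: let `x ∈ Z1 S ρ` be orthogonal to `Z1 S ρ'`. For `y' ∈ Z1` on `C`: by `proj_left` (`C2_Proj`, `P = A0`,
  `π = tw χ`), `cor2 (res x ∪ y') = x ∪ cor1 y' + d1 (smooth)` (`pull_sm`: the homotopy is smooth), so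
  `inv' (res x ∪ y') = inv (x ∪ cor1 y') = 0` (`LocH.add` for the cocycles, `LocH.cob`;
  `cor1 y' ∈ Z1 S ρ'` by `cor1_coc`, `cor1_sm`). `GP.local_one`: `res x = d0 m`. By `cor1_res` and `cor1_d0`:
  `n • x = d0 (..)`, hence `x = d0 (a • ..)`.
* `one'`: the same with `proj_right` (smoothness: `right_sm`).
* `two`: `F ∈ Z2 S ρ'` orthogonal to `M^D`. For `z` fixed by `C`: `proj_zero` and `cor0_fix`:
  `inv' (z ∪ res F) = inv ((∑ ρ (s v) z) ∪ F) = 0`. `GP.local_two`: `res F = d1 X`. By `cor2_res`, `cor2_d1`: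
  `n • F = d1 (smooth)`, hence `F = d1 (smooth)`.
* `fin`: `x ∈ Z1 S ρ` is determined by `res x` and the values `x (repQ C v)`: every `g` is `repQ C v * c`
  (`mk_repQ`). Finiteness on `C`: `GP.finite_z1` (`GP/F05_FinZ`) and `h.fin`.
`locD_one`: `f` a smooth 2-cocycle modulo 2 on `D` with `inv (hf f) = 0`: then `inv (cor2 (hf (res f))) =
inv (n • hf f + d1 ..) = 0`, so `res f = d z` on `C` (`locH_sub`.one), and `f = n • f = cor2 (res f) + d ..`
is a coboundary (coefficients `ZMod 2`, trivial action `tr2`; `cor2_res`, `cor2_d1`).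
-/

set_option autoImplicit false
set_option linter.unusedSectionVars false

namespace Pool.Agent.Work.MP_787500_nt.KR

open Pool.Agent.Work.MP_787500_nt.GP (A0 half hf hf_zero hf_one hf_add hf_two hf_neg smul_hf eq_hf
  IsAct d0 d1 d2 tw cup11 cup02)
open Pool.Agent.Work.MP_787500_nt.PA (TwoSys homs LocalType)

/-- multiplication by an odd number can be inverted on a module of a pair -/
theorem odd_cancel {G : Type*} [Group G] {S : FSys G} {χ : G → ℤ_[2]} {M M' : Type*}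
    [AddCommGroup M] [AddCommGroup M'] [Finite M] [Finite M'] {ρ : G → M → M} {ρ' : G → M' → M'}
    {B : M →+ M' →+ A0} (h : Pair S χ ρ ρ' B) {n : ℕ} (hn : Odd n) :
    ∃ a : ℕ, (∀ m : M, (a * n) • m = m) ∧ ∀ m : M', (a * n) • m = m := by
  obtain ⟨k, hk, -⟩ := GP.a0_killed (fun p : M × M' => B p.1 p.2)
  have h1 : ∀ m : M, (2 ^ (k + 1)) • m = 0 := by
    intro m
    refine h.nd _ fun m' => ?_
    rw [pow_succ, mul_comm, mul_smul, map_nsmul, map_nsmul, AddMonoidHom.nsmul_apply,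
      AddMonoidHom.nsmul_apply, hk (m, m'), smul_zero]
  have h2 : ∀ m : M', (2 ^ (k + 1)) • m = 0 := by
    intro m'
    refine h.nd' _ fun m => ?_
    rw [pow_succ, mul_comm, mul_smul, map_nsmul, map_nsmul, hk (m, m'), smul_zero]
  have hco : Nat.Coprime n (2 ^ (k + 1)) := (Nat.coprime_two_right.2 hn).pow_right (k + 1)
  obtain ⟨a, ha⟩ := Nat.exists_mul_mod_eq_one_of_coprime hco (Nat.one_lt_two_pow (by omega))
  have e : a * n = 1 + 2 ^ (k + 1) * (n * a / 2 ^ (k + 1)) := by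
    have h3 := Nat.mod_add_div (n * a) (2 ^ (k + 1))
    rw [ha.2] at h3
    rw [h3, mul_comm]
  refine ⟨a, fun m => ?_, fun m => ?_⟩
  · rw [e, add_smul, one_smul, mul_comm, mul_smul, h1, smul_zero, add_zero]
  · rw [e, add_smul, one_smul, mul_comm, mul_smul, h2, smul_zero, add_zero]

variable {D : Type*} [Group D] {F : FSys D} {N₀ C : Subgroup D} {χ : D → ℤ_[2]}
  {inv : (D → D → A0) → A0} {M M' : Type*} [AddCommGroup M] [AddCommGroup M'] [Finite M]
  [Finite M'] {ρ : D → M → M} {ρ' : D → M' → M'} {B : M →+ M' →+ A0}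

private theorem ld2_T (hC : Syl F N₀ C) :
    (traQ C).Sm (big F N₀) (ofTwo (two (res F C))) := by
  have := hC.normal
  exact traQ_sm hC.opn hC.le hC.pow

private theorem ld2_opn (hC : Syl F N₀ C) : Opn F C := by
  obtain ⟨W, hW, hWN⟩ := hC.opn
  exact ⟨W, hW, hWN.trans hC.le⟩

private theorem ld2_nsmul {G : Type*} [Group G] {M : Type*} [AddCommGroup M] {ρ : G → M → M}
    (hρ : IsAct ρ) (g : G) (a : ℕ) (m : M) : ρ g (a • m) = a • ρ g m := by
  induction a with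
  | zero => rw [zero_smul, zero_smul, IsAct.zero' hρ]
  | succ a ih => rw [succ_nsmul, succ_nsmul, hρ.add, ih]

private theorem ld2_odd (hC : Syl F N₀ C) [Fintype (D ⧸ C)] : Odd (Fintype.card (D ⧸ C)) := by
  rw [← Nat.card_eq_fintype_card]
  exact hC.odd

/-- smooth 1-cocycles with values in a finite module: finitely many -/
theorem fin_Z1 [Finite (D ⧸ C)] (hC : Syl F N₀ C)
    (hfin : FiniteDimensional (ZMod 2) (homs (two (res F C)) (⊤ : Subgroup C)))
    (h : Pair (big F N₀) χ ρ ρ' B) : Finite {x : D → M // Z1 (big F N₀) ρ x} := by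
  have hact : IsAct (fun c : C => ρ c) := h.act.comp C.subtype
  have hf1 := GP.finite_z1 (T := two (res F C)) hact hfin
  let Φ : {x : D → M // Z1 (big F N₀) ρ x} →
      {x : C → M // GP.Z1 (two (res F C)) (fun c : C => ρ c) x} × (D ⧸ C → M) :=
    fun x => (⟨fun c => x.1 c, Z1.comp (j := (traQ C).i) (ld2_T hC).res x.2⟩,
      fun v => x.1 (repQ C v))
  refine Finite.of_injective Φ ?_
  intro x y hxy
  have h1 : ∀ c : C, x.1 c = y.1 c := fun c =>
    congrFun (congrArg Subtype.val (congrArg Prod.fst hxy)) c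
  have h2 : ∀ v, x.1 (repQ C v) = y.1 (repQ C v) := fun v =>
    congrFun (congrArg Prod.snd hxy) v
  apply Subtype.ext
  funext g
  have h3 : (repQ C ((g : D) : D ⧸ C))⁻¹ * g ∈ C := by
    rw [← QuotientGroup.eq, mk_repQ]
  have e : g = repQ C ((g : D) : D ⧸ C) * ((⟨_, h3⟩ : C) : D) :=
    (mul_inv_cancel_left _ _).symm
  rw [e, x.2.2, y.2.2, h2, h1]

private theorem ld2_one {G : Type*} [Group G] {M : Type*} [AddCommGroup M] {ρ : G → M → M}
    (hρ : IsAct ρ) {n a : ℕ} (ha : ∀ m : M, (a * n) • m = m) {x : G → M} {w : M}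
    (hx : ∀ g, n • x g = d0 ρ w g) : x = d0 ρ (a • w) := by
  funext g
  have h1 : x g = a • (n • x g) := by rw [← mul_smul, ha]
  rw [h1, hx]
  simp only [d0]
  rw [ld2_nsmul hρ, smul_sub]

private theorem ld2_half [Fintype (D ⧸ C)] (hC : Syl F N₀ C)
    (hp : Pair (big F N₀) χ ρ ρ' B) {x : D → M} (hx : Z1 (big F N₀) ρ x) {m : M}
    (hm : (fun c : C => x c) = d0 (fun c : C => ρ c) m) : ∃ m, x = d0 ρ m := by
  obtain ⟨a, ha, -⟩ := odd_cancel hp (ld2_odd hC)
  refine ⟨_, ld2_one hp.act ha (w := (∑ v, ρ (repQ C v) m) - ∑ v, x (repQ C v)) fun g => ?_⟩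
  have h1 := cor1_res (traQ C) hp.act hx.2 g
  have h2 := congrFun (cor1_d0 (traQ C) hp.act m) g
  have h3 : (fun c : C => x ((traQ C).i c)) = d0 (fun c => ρ ((traQ C).i c)) m := hm
  rw [h3, h2] at h1
  have h4 : Fintype.card (D ⧸ C) • x g =
      d0 ρ (∑ v, ρ ((traQ C).s v) m) g - d0 ρ (∑ v, x ((traQ C).s v)) g :=
    eq_sub_of_add_eq h1.symm
  rw [h4]
  simp only [d0, traQ_s, IsAct.sub' hp.act]
  abel

private theorem ld2_pairC (hC : Syl F N₀ C) (hp : Pair (big F N₀) χ ρ ρ' B) :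
    GP.Pair (two (res F C)) (fun c : C => χ c) (fun c => ρ c) (fun c => ρ' c) B := by
  have h1 := Pair.comp (j := (traQ C).i) hp (ld2_T hC).res
  exact ⟨h1.act, h1.act', h1.sm, h1.sm', h1.eqv, h1.nd, h1.nd'⟩

private theorem ld2_orth [Fintype (D ⧸ C)] (h : LocB F N₀ χ inv) (hC : Syl F N₀ C)
    (hp : Pair (big F N₀) χ ρ ρ' B) {x : D → M} (hx : Z1 (big F N₀) ρ x)
    (h0 : ∀ y, Z1 (big F N₀) ρ' y → inv (cup11 ρ' B x y) = 0) {y : C → M'}
    (hy : GP.Z1 (two (res F C)) (fun c : C => ρ' c) y) :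
    inv (cor2 (traQ C) (tw χ) (cup11 (fun c : C => ρ' c) B (fun c : C => x c) y)) = 0 := by
  have hT := ld2_T hC
  have hy' : Z1 (big F N₀) ρ' (cor1 (traQ C) ρ' y) :=
    ⟨cor1_sm hT hy.1, cor1_coc (traQ C) hp.act' hy.2⟩
  have hw : Sm1 (big F N₀) (fun k => ∑ v, B (x ((traQ C).s v))
      (ρ' ((traQ C).s v) (y ((traQ C).u k v)))) :=
    pull_sm hT hy.1 fun z => ∑ v, B (x ((traQ C).s v)) (ρ' ((traQ C).s v) (z v))
  have e : cor2 (traQ C) (tw χ) (cup11 (fun c : C => ρ' c) B (fun c : C => x c) y) =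
      fun g k => cup11 ρ' B x (cor1 (traQ C) ρ' y) g k + d1 (tw χ) (fun k => ∑ v,
        B (x ((traQ C).s v)) (ρ' ((traQ C).s v) (y ((traQ C).u k v)))) g k := by
    funext g k
    exact proj_left (traQ C) hp.act hp.act' (isAct_tw h.char) hp.eqv hx.2 hy.2 g k
  rw [e, h.add _ _ (cup11_Z2 hp hx hy') (d1_tw_Z2 h.char hw), h.cob _ hw, add_zero]
  exact h0 _ hy'

private theorem ld2_orth' [Fintype (D ⧸ C)] (h : LocB F N₀ χ inv) (hC : Syl F N₀ C)
    (hp : Pair (big F N₀) χ ρ ρ' B) {y : D → M'} (hy : Z1 (big F N₀) ρ' y)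
    (h0 : ∀ x, Z1 (big F N₀) ρ x → inv (cup11 ρ' B x y) = 0) {x : C → M}
    (hx : GP.Z1 (two (res F C)) (fun c : C => ρ c) x) :
    inv (cor2 (traQ C) (tw χ) (cup11 (fun c : C => ρ' c) B x (fun c : C => y c))) = 0 := by
  have hT := ld2_T hC
  have hx' : Z1 (big F N₀) ρ (cor1 (traQ C) ρ x) :=
    ⟨cor1_sm hT hx.1, cor1_coc (traQ C) hp.act hx.2⟩
  have hw : Sm1 (big F N₀) (fun g => ∑ v, B (ρ ((traQ C).s v) (x ((traQ C).u g v)))
      (ρ' g (y ((traQ C).s (g⁻¹ • v))))) :=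
    right_sm hT hp.act' hp.sm' B hx.1 y
  have hw' : Sm1 (big F N₀) (fun g => -∑ v, B (ρ ((traQ C).s v) (x ((traQ C).u g v)))
      (ρ' g (y ((traQ C).s (g⁻¹ • v))))) := by
    obtain ⟨W, hW, h1⟩ := hw
    exact ⟨W, hW, fun g w hw => congrArg Neg.neg (h1 g w hw)⟩
  have e : cor2 (traQ C) (tw χ) (cup11 (fun c : C => ρ' c) B x (fun c : C => y c)) =
      fun g k => cup11 ρ' B (cor1 (traQ C) ρ x) y g k + d1 (tw χ) (fun g => -∑ v,
        B (ρ ((traQ C).s v) (x ((traQ C).u g v))) (ρ' g (y ((traQ C).s (g⁻¹ • v))))) g k := by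
    funext g k
    have h1 := proj_right (traQ C) hp.act hp.act' (isAct_tw h.char) hp.eqv hx.2 hy.2 g k
    refine h1.trans ?_
    simp only [cup11, d1, tw, smul_neg]
    abel
  rw [e, h.add _ _ (cup11_Z2 hp hx' hy) (d1_tw_Z2 h.char hw'), h.cob _ hw', add_zero]
  exact h0 _ hx'

private theorem ld2_two [Fintype (D ⧸ C)] (h : LocB F N₀ χ inv) (hC : Syl F N₀ C)
    (hp : Pair (big F N₀) χ ρ ρ' B) {Φ : D → D → M'} (hF : Z2 (big F N₀) ρ' Φ)
    (h0 : ∀ z, (∀ d, ρ d z = z) → inv (cup02 B z Φ) = 0) : B2 (big F N₀) ρ' Φ := by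
  have hT := ld2_T hC
  have hFC : GP.Z2 (two (res F C)) (fun c : C => ρ' c) (fun a b : C => Φ a b) :=
    Z2.comp (j := (traQ C).i) hT.res hF
  obtain ⟨X, hX, hXF⟩ := GP.local_two (locH_sub h hC) (ld2_pairC hC hp) hFC fun z hz => by
    have hw : Sm1 (big F N₀) (fun g => ∑ v, B (ρ ((traQ C).s v) z) (zet (traQ C) Φ v g)) := by
      refine sum_sm fun v => ?_
      obtain ⟨W, hW, h1⟩ := zet_sm hT hF.1 v
      exact ⟨W, hW, fun g w hw => congrArg (B (ρ ((traQ C).s v) z)) (h1 g w hw)⟩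
    have hz' : ∀ g, ρ g (∑ v, ρ ((traQ C).s v) z) = ∑ v, ρ ((traQ C).s v) z :=
      cor0_fix (traQ C) hp.act hz
    have hc : Z2 (big F N₀) (tw χ) (cup02 B (∑ v, ρ ((traQ C).s v) z) Φ) := by
      refine ⟨cup02_sm hF.1, fun a b c => ?_⟩
      rw [leib02 hp.eqv, hF.2 a b c, map_zero, add_zero]
      have : d0 ρ (∑ v, ρ ((traQ C).s v) z) = fun _ => 0 := by
        funext d
        simp only [d0, hz' d, sub_self]
      rw [this]
      simp [GP.cup12]
    have e : cor2 (traQ C) (tw χ) (cup02 B z (fun a b : C => Φ a b)) =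
        fun g k => cup02 B (∑ v, ρ ((traQ C).s v) z) Φ g k +
          d1 (tw χ) (fun g => ∑ v, B (ρ ((traQ C).s v) z) (zet (traQ C) Φ v g)) g k := by
      funext g k
      exact proj_zero (traQ C) hp.act hp.act' (isAct_tw h.char) hp.eqv hz hF.2 g k
    show inv (cor2 (traQ C) (tw χ) (cup02 B z (fun a b : C => Φ a b))) = 0
    rw [e, h.add _ _ hc (d1_tw_Z2 h.char hw), h.cob _ hw, add_zero]
    exact h0 _ hz'
  obtain ⟨a, -, ha⟩ := odd_cancel hp (ld2_odd hC)
  have hw : Sm1 (big F N₀) (fun g => ∑ v, zet (traQ C) Φ v g) :=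
    sum_sm fun v => zet_sm hT hF.1 v
  have hX' : Sm1 (big F N₀) (cor1 (traQ C) ρ' X) := cor1_sm hT hX
  refine ⟨fun g => a • (cor1 (traQ C) ρ' X g - ∑ v, zet (traQ C) Φ v g), ?_, ?_⟩
  · obtain ⟨W, hW, h1⟩ := hw
    obtain ⟨W', hW', h2⟩ := hX'
    refine ⟨W ⊓ W', (big F N₀).inf hW hW', fun g w hw => ?_⟩
    have h3 := h1 g w hw.1
    have h4 := h2 g w hw.2
    beta_reduce at h3 h4 ⊢
    rw [h3, h4]
  · funext g k
    have h1 := cor2_res (traQ C) hp.act' hF.2 g k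
    have h2 := congrFun (congrFun (cor2_d1 (traQ C) hp.act' X) g) k
    have h3 : (fun a b : C => Φ ((traQ C).i a) ((traQ C).i b)) =
        d1 (fun c => ρ' ((traQ C).i c)) X := hXF
    rw [h3, h2] at h1
    have h4 : Fintype.card (D ⧸ C) • Φ g k = d1 ρ' (cor1 (traQ C) ρ' X) g k -
        d1 ρ' (fun g => ∑ v, zet (traQ C) Φ v g) g k := eq_sub_of_add_eq h1.symm
    have h5 : Φ g k = a • (Fintype.card (D ⧸ C) • Φ g k) := by rw [← mul_smul, ha]
    rw [h5, h4]
    simp only [d1, ld2_nsmul hp.act', IsAct.sub' hp.act', smul_sub, smul_add]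
    abel

theorem ldual_sub [Fintype (D ⧸ C)] (h : LocB F N₀ χ inv) (hC : Syl F N₀ C)
    (hp : Pair (big F N₀) χ ρ ρ' B) : LDual (big F N₀) inv ρ ρ' B where
  fin := fin_Z1 hC (h.fin C (ld2_opn hC)) hp
  fin' := fin_Z1 hC (h.fin C (ld2_opn hC)) hp.flip
  one x hx h0 := by
    have hx' : GP.Z1 (two (res F C)) (fun c : C => ρ c) (fun c : C => x c) :=
      Z1.comp (j := (traQ C).i) (ld2_T hC).res hx
    obtain ⟨m, hm⟩ := GP.local_one (locH_sub h hC) (ld2_pairC hC hp) hx'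
      fun y hy => ld2_orth h hC hp hx h0 hy
    exact ld2_half hC hp hx hm
  one' y hy h0 := by
    have hy' : GP.Z1 (two (res F C)) (fun c : C => ρ' c) (fun c : C => y c) :=
      Z1.comp (j := (traQ C).i) (ld2_T hC).res hy
    obtain ⟨m, hm⟩ := GP.local_one' (locH_sub h hC) (ld2_pairC hC hp) hy'
      fun x hx => ld2_orth' h hC hp hy h0 hx
    obtain ⟨a, -, ha⟩ := odd_cancel hp (ld2_odd hC)
    refine ⟨_, ld2_one hp.act' ha (w := (∑ v, ρ' (repQ C v) m) - ∑ v, y (repQ C v)) fun g => ?_⟩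
    have h1 := cor1_res (traQ C) hp.act' hy.2 g
    have h2 := congrFun (cor1_d0 (traQ C) hp.act' m) g
    have h3 : (fun c : C => y ((traQ C).i c)) = d0 (fun c => ρ' ((traQ C).i c)) m := hm
    rw [h3, h2] at h1
    have h4 : Fintype.card (D ⧸ C) • y g =
        d0 ρ' (∑ v, ρ' ((traQ C).s v) m) g - d0 ρ' (∑ v, y ((traQ C).s v)) g :=
      eq_sub_of_add_eq h1.symm
    rw [h4]
    simp only [d0, traQ_s, IsAct.sub' hp.act']
    abel
  two Φ hF h0 := ld2_two h hC hp hF h0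

private theorem ld2_tr {G : Type*} [Group G] : IsAct (fun (_ : G) (m : ZMod 2) => m) :=
  ⟨fun _ => rfl, fun _ _ _ => rfl, fun _ _ _ => rfl⟩

private theorem ld2_smul_odd {n : ℕ} (hn : Odd n) {A : Type*} [AddCommGroup A] {t : A}
    (ht : t + t = 0) : n • t = t := by
  obtain ⟨k, rfl⟩ := hn
  rw [add_smul, one_smul, mul_comm, mul_smul, two_smul, ht, smul_zero, zero_add]

private theorem ld2_inv_cor [Fintype (D ⧸ C)] (h : LocB F N₀ χ inv) (hC : Syl F N₀ C)
    {α : D → D → ZMod 2} (hα : Coc (big F N₀) α) :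
    inv (cor2 (traQ C) (tw χ) (fun a b : C => hf (α a b))) = inv (fun a b => hf (α a b)) := by
  have hZ : Z2 (big F N₀) (tw χ) (fun a b => hf (α a b)) := by
    refine ⟨?_, fun a b c => ?_⟩
    · obtain ⟨W, hW, h1⟩ := hα.1
      exact ⟨W, hW, fun g h w hw w' hw' => congrArg hf (h1 g h w hw w' hw')⟩
    · show χ a • hf (α b c) - hf (α (a * b) c) + hf (α a (b * c)) - hf (α a b) = 0
      rw [smul_hf (h.char.odd a), sub_eq_add_neg, sub_eq_add_neg, hf_neg, hf_neg, ← hf_add,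
        ← hf_add, ← hf_add]
      have e : α b c + α (a * b) c + α a (b * c) + α a b = 0 := by
        have h1 := hα.2 a b c
        have h2 : α b c + α (a * b) c + α a (b * c) + α a b =
            (α a b + α (a * b) c) + (α b c + α a (b * c)) := by ring
        rw [h2, h1, CharTwo.add_self_eq_zero]
      rw [e, hf_zero]
  have hzs : Sm1 (big F N₀) (fun g => ∑ v, zet (traQ C) (fun a b => hf (α a b)) v g) :=
    sum_sm fun v => zet_sm (ld2_T hC) hZ.1 v
  have e : cor2 (traQ C) (tw χ) (fun a b : C => hf (α a b)) = fun g k =>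
      hf (α g k) + d1 (tw χ) (fun g => ∑ v, zet (traQ C) (fun a b => hf (α a b)) v g) g k := by
    funext g k
    have h1 := cor2_res (traQ C) (isAct_tw h.char) hZ.2 g k
    rw [ld2_smul_odd (ld2_odd hC) (hf_two _)] at h1
    exact h1
  rw [e, h.add _ _ hZ (d1_tw_Z2 h.char hzs), h.cob _ hzs, add_zero]

theorem locD_one [Fintype (D ⧸ C)] (h : LocB F N₀ χ inv) (hC : Syl F N₀ C) {f : D → D → ZMod 2}
    (hf' : Coc (big F N₀) f) (h0 : inv (fun a b => hf (f a b)) = 0) : Cob (big F N₀) f := by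
  have hT := ld2_T hC
  have hcoc : PA.Coc (two (res F C)) (⊤ : Subgroup C) (fun a b => f a b) :=
    ⟨Sm2.comp (j := (traQ C).i) hT.res hf'.1, fun g _ k _ l _ => hf'.2 g k l⟩
  obtain ⟨z, hz, h1⟩ := (locH_sub h hC).one (fun a b => f a b) hcoc
    ((ld2_inv_cor h hC hf').trans h0)
  have hZ : ∀ a b c, d2 (fun (_ : D) (m : ZMod 2) => m) f a b c = 0 := by
    intro a b c
    simp only [d2]
    have h3 := hf'.2 a b c
    linear_combination -h3
  have h2 : (fun a b : C => f ((traQ C).i a) ((traQ C).i b)) =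
      d1 (fun (_ : C) (m : ZMod 2) => m) z := by
    funext a b
    have h3 := h1 a trivial b trivial
    simp only [d1, CharTwo.sub_eq_add]
    exact h3
  have e : ∀ g k, f g k = d1 (fun (_ : D) (m : ZMod 2) => m)
      (cor1 (traQ C) (fun (_ : D) (m : ZMod 2) => m) z) g k -
      d1 (fun (_ : D) (m : ZMod 2) => m) (fun g => ∑ v, zet (traQ C) f v g) g k := by
    intro g k
    have h3 := cor2_res (traQ C) ld2_tr hZ g k
    have h4 := congrFun (congrFun (cor2_d1 (traQ C) (ld2_tr (G := D)) z) g) k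
    rw [h2] at h3
    rw [ld2_smul_odd (ld2_odd hC) (CharTwo.add_self_eq_zero (f g k))] at h3
    rw [eq_sub_iff_add_eq, ← h3]
    exact h4
  have hw : Sm1 (big F N₀) (fun g => ∑ v, zet (traQ C) f v g) :=
    sum_sm fun v => zet_sm hT hf'.1 v
  have hX' : Sm1 (big F N₀) (cor1 (traQ C) (fun (_ : D) (m : ZMod 2) => m) z) := cor1_sm hT hz
  refine ⟨fun g => cor1 (traQ C) (fun (_ : D) (m : ZMod 2) => m) z g +
    ∑ v, zet (traQ C) f v g, ?_, fun g k => ?_⟩
  · obtain ⟨W, hW, h3⟩ := hw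
    obtain ⟨W', hW', h4⟩ := hX'
    refine ⟨W ⊓ W', (big F N₀).inf hW hW', fun g w hw => ?_⟩
    have h5 := h3 g w hw.1
    have h6 := h4 g w hw.2
    beta_reduce at h5 h6 ⊢
    rw [h5, h6]
  · rw [e g k]
    simp only [d1, CharTwo.sub_eq_add]
    abel

end Pool.Agent.Work.MP_787500_nt.KR
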