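import Mathlib
import Pool.Agent.Work.MP_787500_nt.KR.PDefs
import Pool.Agent.Work.MP_787500_nt.GP.F01_Card
import Pool.Agent.Work.MP_787500_nt.KR.T17a

/-!
The version of `GP/F06_Perp.lean` for a family of pairs `(θ, φ)` (the proofs are the same).
-/

set_option autoImplicit false
set_option linter.unusedSectionVars false

namespace Pool.Agent.Work.MP_787500_nt.KR

open Pool.Agent.Work.MP_787500_nt.GP


universe v

variable {G : Type*} [Group G] {S : FSys G} {Φ : Type*} [Fintype Φ] {D : Φ → Type*}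
  [∀ w, Group (D w)] {SD : ∀ w, FSys (D w)} {j : ∀ w, D w →* G} {χ : G → ℤ_[2]}
  {inv : ∀ w, (D w → D w → A0) → A0} {κ : G →* G} {Θ : Set (G × G)}
  {O : Type*} [CommRing O] {M : Type v} [AddCommGroup M] [Module O M] [Finite M]
  {ρ : G → M → M} {b : M →+ M →+ A0}

/-- the cocycles for `ρ ∘ j w` -/
def f06_A (S : FSys G) (h : SDualF S χ κ Θ O ρ b) (SD : ∀ w, FSys (D w)) (j : ∀ w, D w →* G)
    (w : Φ) : Submodule O (D w → M) :=
  zM (O := O) (SD w) (h.act.comp (j w)) (fun _ => h.lin _)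

/-- the cocycles for `ρ ∘ κ ∘ j w` -/
def f06_A' (S : FSys G) (h : SDualF S χ κ Θ O ρ b) (SD : ∀ w, FSys (D w)) (j : ∀ w, D w →* G)
    (w : Φ) : Submodule O (D w → M) :=
  zM (O := O) (SD w) ((h.act.comp κ).comp (j w)) (fun _ => h.lin _)

/-- the local pairing -/
noncomputable def f06_B (H : ParD.{v} S SD j χ inv κ Θ) (h : SDualF S χ κ Θ O ρ b) (w : Φ) :
    f06_A S h SD j w →+ f06_A' S h SD j w →+ A0 :=
  AddMonoidHom.mk' (fun x => AddMonoidHom.mk'
    (fun y => inv w (cup11 (fun d => ρ (κ (j w d))) b (x : D w → M) (y : D w → M)))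
    (fun y y' => by
      have hp := h.locPair H w
      have e : cup11 (fun d => ρ (κ (j w d))) b (x : D w → M)
          ((y + y' : f06_A' S h SD j w) : D w → M) = fun s t =>
          cup11 (fun d => ρ (κ (j w d))) b (x : D w → M) (y : D w → M) s t +
            cup11 (fun d => ρ (κ (j w d))) b (x : D w → M) (y' : D w → M) s t := by
        funext s t
        show b ((x : D w → M) s) (ρ (κ (j w s)) ((y : D w → M) t + (y' : D w → M) t)) = _
        rw [hp.act'.add, map_add]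
        rfl
      rw [e, (H.loc w).add _ _ (cup11_Z2 hp x.2 y.2) (cup11_Z2 hp x.2 y'.2)]))
    (fun x x' => by
      have hp := h.locPair H w
      ext y
      have e : cup11 (fun d => ρ (κ (j w d))) b ((x + x' : f06_A S h SD j w) : D w → M)
          (y : D w → M) = fun s t =>
          cup11 (fun d => ρ (κ (j w d))) b (x : D w → M) (y : D w → M) s t +
            cup11 (fun d => ρ (κ (j w d))) b (x' : D w → M) (y : D w → M) s t := by
        funext s t
        show b ((x : D w → M) s + (x' : D w → M) s) (ρ (κ (j w s)) ((y : D w → M) t)) = _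
        rw [map_add]
        rfl
      show inv w (cup11 (fun d => ρ (κ (j w d))) b ((x + x' : f06_A S h SD j w) : D w → M)
        (y : D w → M)) = inv w _ + inv w _
      rw [e, (H.loc w).add _ _ (cup11_Z2 hp x.2 y.2) (cup11_Z2 hp x'.2 y.2)])

theorem f06_B_apply (H : ParD.{v} S SD j χ inv κ Θ) (h : SDualF S χ κ Θ O ρ b) (w : Φ)
    (x : f06_A S h SD j w) (y : f06_A' S h SD j w) : f06_B H h w x y =
      inv w (cup11 (fun d => ρ (κ (j w d))) b (x : D w → M) (y : D w → M)) := rfl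

/-- coboundaries pair to zero -/
theorem f06_left {X : Type*} [Group X] {T : FSys X} {χ' : X → ℤ_[2]} {iv : (X → X → A0) → A0}
    (L : LocH T χ' iv) {M' : Type*} [AddCommGroup M'] {σ : X → M → M} {σ' : X → M' → M'}
    {B : M →+ M' →+ A0} (hp : Pair T χ' σ σ' B) (m : M) {y : X → M'} (hy : Z1 T σ' y) :
    iv (cup11 σ' B (d0 σ m) y) = 0 := by
  have e : cup11 σ' B (d0 σ m) y = d1 (tw χ') (cup01 B m y) := by
    funext s t
    have h1 := leib01 hp.eqv m y s t
    have h2 : cup02 B m (d1 σ' y) s t = 0 := by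
      show B m (y s + σ' s (y t) - y (s * t)) = 0
      rw [hy.2 s t, sub_self, map_zero]
    rw [h2, add_zero] at h1
    exact h1.symm
  rw [e]
  exact L.cob _ (cup01_sm hy.1)

theorem f06_right {X : Type*} [Group X] {T : FSys X} {χ' : X → ℤ_[2]} {iv : (X → X → A0) → A0}
    (L : LocH T χ' iv) {M' : Type*} [AddCommGroup M'] [Finite M'] {σ : X → M → M}
    {σ' : X → M' → M'} {B : M →+ M' →+ A0} (hp : Pair T χ' σ σ' B) (m : M') {x : X → M}
    (hx : Z1 T σ x) : iv (cup11 σ' B x (d0 σ' m)) = 0 := by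
  rw [inv_anti L hp hx (d0_Z1 hp.act' hp.sm' m), f06_left L hp.flip m hx, neg_zero]

theorem perp_cob (H : ParD.{v} S SD j χ inv κ Θ) (h : SDualF S χ κ Θ O ρ b) (w : Φ)
    (Λ : Submodule O (D w → M)) (m : M) : d0 (fun d => ρ (κ (j w d))) m ∈ perpM H h w Λ := by
  have hp := h.locPair H w
  exact ⟨d0_Z1 hp.act' hp.sm' m, fun x _ hx1 => f06_right (H.loc w).toLocH hp m hx1⟩

theorem perp_coc (H : ParD.{v} S SD j χ inv κ Θ) (h : SDualF S χ κ Θ O ρ b) (w : Φ)
    (Λ : Submodule O (D w → M)) {y : D w → M} (hy : y ∈ perpM H h w Λ) :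
    Z1 (SD w) (fun d => ρ (κ (j w d))) y := hy.1

theorem perp_anti (H : ParD.{v} S SD j χ inv κ Θ) (h : SDualF S χ κ Θ O ρ b) (w : Φ)
    {Λ Λ' : Submodule O (D w → M)} (hle : Λ ≤ Λ') : perpM H h w Λ' ≤ perpM H h w Λ :=
  fun _ hy => ⟨hy.1, fun x hx => hy.2 x (hle hx)⟩

theorem f06_finA (H : ParD.{v} S SD j χ inv κ Θ) (h : SDualF S χ κ Θ O ρ b) (w : Φ) :
    Finite (f06_A S h SD j w) := ((H.loc w).ld (h.locPair H w)).fin

theorem f06_finA' (H : ParD.{v} S SD j χ inv κ Θ) (h : SDualF S χ κ Θ O ρ b) (w : Φ) :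
    Finite (f06_A' S h SD j w) := ((H.loc w).ld (h.locPair H w)).fin'

private theorem f06_ker (H : ParD.{v} S SD j χ inv κ Θ) (h : SDualF S χ κ Θ O ρ b) (w : Φ)
    {Λ : Submodule O (D w → M)} (hΛ : Betw (SD w) (fun d => ρ (j w d)) Λ)
    (x : f06_A S h SD j w) (hx : ∀ y, f06_B H h w x y = 0) :
    x ∈ (Λ.comap (f06_A S h SD j w).subtype).toAddSubgroup := by
  obtain ⟨m, hm⟩ := local_one (H.loc w) (h.locPair H w) x.2 fun y hy => hx ⟨y, hy⟩
  show (x : D w → M) ∈ Λ
  rw [hm]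
  exact hΛ.cob m

private theorem f06_perp (H : ParD.{v} S SD j χ inv κ Θ) (h : SDualF S χ κ Θ O ρ b) (w : Φ)
    (Λ : Submodule O (D w → M)) (y : f06_A' S h SD j w) :
    y ∈ perpL (f06_B H h w) (Λ.comap (f06_A S h SD j w).subtype).toAddSubgroup ↔
      (y : D w → M) ∈ perpM H h w Λ := by
  constructor
  · intro hy
    exact ⟨y.2, fun x hx hx1 => hy ⟨x, hx1⟩ hx⟩
  · intro hy x hx
    exact hy.2 x hx x.2

theorem perp_double (H : ParD.{v} S SD j χ inv κ Θ) (h : SDualF S χ κ Θ O ρ b) (w : Φ)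
    {Λ : Submodule O (D w → M)} (hΛ : Betw (SD w) (fun d => ρ (j w d)) Λ) {x : D w → M}
    (hx : Z1 (SD w) (fun d => ρ (j w d)) x)
    (h0 : ∀ y ∈ perpM H h w Λ, inv w (cup11 (fun d => ρ (κ (j w d))) b x y) = 0) : x ∈ Λ := by
  have := f06_finA H h w
  have := f06_finA' H h w
  have h1 := perp_perp (f06_B H h w) (Λ.comap (f06_A S h SD j w).subtype).toAddSubgroup
    (f06_ker H h w hΛ)
  have h2 : (⟨x, hx⟩ : f06_A S h SD j w) ∈ perpL (f06_B H h w).flip
      (perpL (f06_B H h w) (Λ.comap (f06_A S h SD j w).subtype).toAddSubgroup) := by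
    intro y hy
    exact h0 y ((f06_perp H h w Λ y).1 hy)
  rw [h1] at h2
  exact h2

theorem perp_card (H : ParD.{v} S SD j χ inv κ Θ) (h : SDualF S χ κ Θ O ρ b) (w : Φ)
    {Λ Λ' : Submodule O (D w → M)} (hΛ : Betw (SD w) (fun d => ρ (j w d)) Λ)
    (hΛ' : Betw (SD w) (fun d => ρ (j w d)) Λ') :
    Nat.card Λ * Nat.card (perpM H h w Λ) = Nat.card Λ' * Nat.card (perpM H h w Λ') := by
  have := f06_finA H h w
  have := f06_finA' H h w
  have key : ∀ {Λ : Submodule O (D w → M)}, Betw (SD w) (fun d => ρ (j w d)) Λ →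
      Nat.card Λ * Nat.card (perpM H h w Λ) =
        Nat.card (f06_A' S h SD j w) * Nat.card (perpL (f06_B H h w).flip ⊤) := by
    intro Λ hΛ
    rw [← card_perp (f06_B H h w) (Λ.comap (f06_A S h SD j w).subtype).toAddSubgroup
      (f06_ker H h w hΛ)]
    congr 1
    · exact Nat.card_congr ⟨fun x => ⟨⟨x.1, hΛ.coc x.1 x.2⟩, x.2⟩, fun x => ⟨x.1.1, x.2⟩,
        fun x => rfl, fun x => rfl⟩
    · exact Nat.card_congr ⟨fun y => ⟨⟨y.1, y.2.1⟩, (f06_perp H h w Λ ⟨y.1, y.2.1⟩).2 y.2⟩,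
        fun y => ⟨y.1.1, (f06_perp H h w Λ y.1).1 y.2⟩, fun y => rfl, fun y => rfl⟩
  rw [key hΛ, key hΛ']

theorem perp_finite (H : ParD.{v} S SD j χ inv κ Θ) (h : SDualF S χ κ Θ O ρ b) (w : Φ)
    (Λ : Submodule O (D w → M)) : Finite (perpM H h w Λ) := by
  have := f06_finA' H h w
  refine Finite.of_injective (fun y : perpM H h w Λ => (⟨y.1, y.2.1⟩ : f06_A' S h SD j w)) ?_
  intro y y' hyy
  exact Subtype.ext (congrArg (fun z : f06_A' S h SD j w => (z : D w → M)) hyy)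

theorem betw_finite (H : ParD.{v} S SD j χ inv κ Θ) (h : SDualF S χ κ Θ O ρ b) (w : Φ)
    {Λ : Submodule O (D w → M)} (hΛ : Betw (SD w) (fun d => ρ (j w d)) Λ) : Finite Λ := by
  have := f06_finA H h w
  refine Finite.of_injective (fun y : Λ => (⟨y.1, hΛ.coc y.1 y.2⟩ : f06_A S h SD j w)) ?_
  intro y y' hyy
  exact Subtype.ext (congrArg (fun z : f06_A S h SD j w => (z : D w → M)) hyy)

theorem sel_finite (H : ParD.{v} S SD j χ inv κ Θ) (h : SDualF S χ κ Θ O ρ b)
    (Λ Γ : ∀ w, Submodule O (D w → M)) : Finite (selM h j Λ Γ) := by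
  have hf : Finite (zM (O := O) S h.act (fun g => h.lin _)) := H.fin (h.pair H)
  refine Finite.of_injective (fun y : selM h j Λ Γ =>
    (⟨y.1, y.2.1⟩ : zM (O := O) S h.act (fun g => h.lin _))) ?_
  intro y y' hyy
  exact Subtype.ext (congrArg (fun z : zM (O := O) S h.act (fun g => h.lin _) => (z : G → M)) hyy)

end Pool.Agent.Work.MP_787500_nt.KR
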