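import Mathlib
import Pool.Agent.Work.MP_787500_nt.KR.PDefs
import Pool.Agent.Work.MP_787500_nt.KR.T17a

/-!
The version of `GP/F07_Glob.lean` for a family of pairs `(θ, φ)` (the proofs are the same).
-/

set_option autoImplicit false
set_option linter.unusedSectionVars false

namespace Pool.Agent.Work.MP_787500_nt.KR

open Pool.Agent.Work.MP_787500_nt.GP


universe v

variable {G : Type*} [Group G] {S : FSys G} {Φ : Type*} [Fintype Φ] {D : Φ → Type*}
  [∀ w, Group (D w)] {SD : ∀ w, FSys (D w)} {j : ∀ w, D w →* G} {χ : G → ℤ_[2]}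
  {inv : ∀ w, (D w → D w → A0) → A0} {κ : G →* G} {Θ : Set (G × G)}
  {O : Type*} [CommRing O] {M : Type v} [AddCommGroup M] [Module O M] [Finite M]
  {ρ : G → M → M} {b : M →+ M →+ A0}

private theorem f07_flip (h : SDualF S χ κ Θ O ρ b) : b.flip = b := by
  ext x y
  exact h.symm y x

private theorem f07_anti (H : ParD.{v} S SD j χ inv κ Θ) (h : SDualF S χ κ Θ O ρ b) (w : Φ)
    {X Y : D w → M} (hX : Z1 (SD w) (fun d => ρ (κ (j w d))) X)
    (hY : Z1 (SD w) (fun d => ρ (j w d)) Y) :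
    inv w (cup11 (fun d => ρ (j w d)) b X Y) =
      -inv w (cup11 (fun d => ρ (κ (j w d))) b Y X) := by
  have h1 := inv_anti (H.loc w).toLocH (h.locPair H w).flip hX hY
  rw [f07_flip h, f07_flip h] at h1
  exact h1

private theorem f07_kap (H : ParD.{v} S SD j χ inv κ Θ) {x : G → M} (hx : Z1 S ρ x) :
    Z1 S (fun g => ρ (κ g)) (fun g => x (κ g)) :=
  Z1.comp H.ksys hx

private theorem f07_sum (f : Φ × Bool → A0) :
    ∑ i, f i = ∑ w, (f (w, false) + f (w, true)) := by
  rw [Fintype.sum_prod_type]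
  refine Finset.sum_congr rfl fun w _ => ?_
  rw [Fintype.sum_bool, add_comm]

theorem recip_sel (H : ParD.{v} S SD j χ inv κ Θ) (h : SDualF S χ κ Θ O ρ b) {x y : G → M}
    (hx : Z1 S ρ x) (hy : Z1 S ρ y) :
    ∑ w, (inv w (cup11 (fun d => ρ (κ (j w d))) b (fun d => x (j w d)) (fun d => y (κ (j w d)))) +
      inv w (cup11 (fun d => ρ (κ (j w d))) b (fun d => y (j w d)) (fun d => x (κ (j w d))))) =
      0 := by
  have hf := cup11_Z2 (h.pair H) hx (f07_kap H hy)
  have h1 := H.glob.recip _ hf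
  rw [f07_sum] at h1
  rw [← h1]
  refine Finset.sum_congr rfl fun w _ => ?_
  congr 1
  have e : (fun s t => cup11 (fun g => ρ (κ g)) b x (fun g => y (κ g)) (κ (j w s)) (κ (j w t))) =
      cup11 (fun d => ρ (j w d)) b (fun d => x (κ (j w d))) (fun d => y (j w d)) := by
    funext s t
    show b (x (κ (j w s))) (ρ (κ (κ (j w s))) (y (κ (κ (j w t))))) = _
    rw [H.kk, H.kk]
    rfl
  show _ = -inv w (fun s t => cup11 (fun g => ρ (κ g)) b x (fun g => y (κ g)) (κ (j w s))
    (κ (j w t)))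
  rw [e, f07_anti H h w (Z1.comp (H.jsm w) (f07_kap H hx)) (Z1.comp (H.jsm w) hy), neg_neg]

theorem middle_sel (H : ParD.{v} S SD j χ inv κ Θ) (h : SDualF S χ κ Θ O ρ b)
    (c c' : ∀ w, D w → M) (hc : ∀ w, Z1 (SD w) (fun d => ρ (j w d)) (c w))
    (hc' : ∀ w, Z1 (SD w) (fun d => ρ (κ (j w d))) (c' w))
    (h0 : ∀ x, Z1 S ρ x →
      ∑ w, (inv w (cup11 (fun d => ρ (κ (j w d))) b (c w) (fun d => x (κ (j w d)))) +
        inv w (cup11 (fun d => ρ (κ (j w d))) b (fun d => x (j w d)) (c' w))) = 0) :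
    ∃ (X : G → M) (m m' : Φ → M), Z1 S ρ X ∧
      (∀ w d, c w d = X (j w d) - d0 (fun d => ρ (j w d)) (m w) d) ∧
      ∀ w d, c' w d = X (κ (j w d)) - d0 (fun d => ρ (κ (j w d))) (m' w) d := by
  let C : ∀ i : Φ × Bool, D i.1 → M := fun i => if i.2 then c' i.1 else c i.1
  obtain ⟨X, Y, hX, hXY⟩ := H.mid (h.pair H) C (by
    rintro ⟨w, _ | _⟩
    · exact hc w
    · exact hc' w) (by
    intro x' hx'
    have hx : Z1 S ρ (fun g => x' (κ g)) := by
      have h1 := Z1.comp H.ksys hx'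
      have e : (fun d => (fun g => ρ (κ g)) (κ d)) = ρ := by
        funext d
        show ρ (κ (κ d)) = ρ d
        rw [H.kk]
      rw [e] at h1
      exact h1
    have h2 := h0 _ hx
    rw [f07_sum, ← h2]
    refine Finset.sum_congr rfl fun w _ => ?_
    congr 1
    · show inv w (cup11 (fun d => ρ (κ (j w d))) b (c w) (fun d => x' (j w d))) = _
      simp only [H.kk]
    · show -inv w (cup11 (fun d => ρ (κ (κ (j w d)))) b (c' w) (fun d => x' (κ (j w d)))) = _
      simp only [H.kk]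
      rw [f07_anti H h w (hc' w) (Z1.comp (H.jsm w) hx), neg_neg])
  exact ⟨X, fun w => Y (w, false), fun w => Y (w, true), hX, fun w => hXY (w, false),
    fun w => hXY (w, true)⟩

end Pool.Agent.Work.MP_787500_nt.KR
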