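import Mathlib
import Pool.Agent.Work.MP_787500_nt.KR.PDefs
import Pool.Agent.Work.MP_787500_nt.KR.ADefs

/-!
Isotropic submodules of self-dual modules: definitions (fixed, do not change).

`U ⊆ M₁ = U^⊥ ⊆ M`, `Mb = M₁ / U`, and `M / M₁` is identified with `U`. In the application `M = l^(-N) T / T`,
`M₁ = l^(-(N-1)) T / T`, `U = l^(-1) T / T`, `Mb = l^(-(N-2)) T / T`, `π` is multiplication by `l`, `q`
multiplication by `l^(N-1)`.
-/

set_option autoImplicit false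
set_option linter.unusedSectionVars false

namespace Pool.Agent.Work.MP_787500_nt.KR

open Pool.Agent.Work.MP_787500_nt.GP (A0 half hf IsAct d0 d1 d2 tw cup11 cup02)

/-- the modules and maps `e : U → M₁`, `i : M₁ → M`, `π : M₁ → Mb`, `q : M → U` -/
structure SubU {G : Type*} [Group G] {O : Type*} [CommRing O] {M M₁ Mb U : Type*}
    [AddCommGroup M] [Module O M] [AddCommGroup M₁] [Module O M₁] [AddCommGroup Mb] [Module O Mb]
    [AddCommGroup U] [Module O U] (ρ : G → M → M) (b : M →+ M →+ A0) (ρ₁ : G → M₁ → M₁)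
    (ρb : G → Mb → Mb) (bb : Mb →+ Mb →+ A0) (υ : G → U → U) (β : U →+ U →+ A0)
    (e : U →ₗ[O] M₁) (i : M₁ →ₗ[O] M) (π : M₁ →ₗ[O] Mb) (q : M →ₗ[O] U) : Prop where
  einj : Function.Injective e
  iinj : Function.Injective i
  psurj : Function.Surjective π
  qsurj : Function.Surjective q
  pker : ∀ m₁, π m₁ = 0 ↔ ∃ u, e u = m₁
  qker : ∀ m, q m = 0 ↔ ∃ m₁, i m₁ = m
  eqe : ∀ g u, e (υ g u) = ρ₁ g (e u)
  eqi : ∀ g m₁, i (ρ₁ g m₁) = ρ g (i m₁)
  eqp : ∀ g m₁, π (ρ₁ g m₁) = ρb g (π m₁)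
  eqq : ∀ g m, q (ρ g m) = υ g (q m)
  pair : ∀ m m', bb (π m) (π m') = b (i m) (i m')
  pairU : ∀ u m, b (i (e u)) m = β u (q m)

section conditions

variable {G : Type*} [Group G] {S : FSys G} {Φ : Type*} {D : Φ → Type*} [∀ w, Group (D w)]
  {χ : G → ℤ_[2]} {κ : G →* G} {Θ : Set (G × G)} {O : Type*} [CommRing O] {M M₁ Mb U : Type*}
  [AddCommGroup M] [Module O M] [AddCommGroup M₁] [Module O M₁] [AddCommGroup Mb] [Module O Mb]
  [AddCommGroup U] [Module O U] {ρ : G → M → M} {b : M →+ M →+ A0} {ρ₁ : G → M₁ → M₁}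
  {ρb : G → Mb → Mb} {bb : Mb →+ Mb →+ A0} {υ : G → U → U} {β : U →+ U →+ A0}
  {e : U →ₗ[O] M₁} {i : M₁ →ₗ[O] M} {π : M₁ →ₗ[O] Mb} {q : M →ₗ[O] U}

theorem SubU.act₁ (hs : SubU ρ b ρ₁ ρb bb υ β e i π q) (h : IsAct ρ) : IsAct ρ₁ where
  one m := hs.iinj (by rw [hs.eqi, h.one])
  mul g k m := hs.iinj (by rw [hs.eqi, h.mul, hs.eqi, hs.eqi])
  add g m m' := hs.iinj (by rw [hs.eqi, map_add, h.add, map_add, hs.eqi, hs.eqi])

theorem SubU.lin₁ (hs : SubU ρ b ρ₁ ρb bb υ β e i π q)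
    (h : ∀ g (a : O) m, ρ g (a • m) = a • ρ g m) (g : G) (a : O) (m : M₁) :
    ρ₁ g (a • m) = a • ρ₁ g m := by
  apply hs.iinj
  rw [hs.eqi, map_smul, h, map_smul, hs.eqi]

theorem SubU.linU (hs : SubU ρ b ρ₁ ρb bb υ β e i π q)
    (h : ∀ g (a : O) m, ρ g (a • m) = a • ρ g m) (g : G) (a : O) (u : U) :
    υ g (a • u) = a • υ g u := by
  apply hs.einj
  rw [hs.eqe, map_smul, hs.lin₁ h, map_smul, hs.eqe]

/-- the local condition for `M`: cocycles whose image in `M / M₁` is a coboundary -/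
def lam0 (h : SDualF S χ κ Θ O ρ b) (hU : SDualF S χ κ Θ O υ β) (SD : ∀ w, FSys (D w))
    (j : ∀ w, D w →* G) (q : M →ₗ[O] U) (w : Φ) : Submodule O (D w → M) where
  carrier := {x | Z1 (SD w) (fun d => ρ (j w d)) x ∧
    ∃ u, ∀ d, q (x d) = d0 (fun d => υ (j w d)) u d}
  add_mem' := by
    rintro x y ⟨hx, u, hu⟩ ⟨hy, u', hu'⟩
    refine ⟨(zM (O := O) (SD w) (h.act.comp (j w)) (fun g => h.lin _)).add_mem hx hy, u + u',
      fun d => ?_⟩
    simp only [Pi.add_apply, map_add, hu, hu', d0, hU.act.add]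
    abel
  zero_mem' := ⟨(zM (O := O) (SD w) (h.act.comp (j w)) (fun g => h.lin _)).zero_mem, 0,
    fun d => by simp [d0, hU.act.zero]⟩
  smul_mem' := by
    rintro a x ⟨hx, u, hu⟩
    refine ⟨(zM (O := O) (SD w) (h.act.comp (j w)) (fun g => h.lin _)).smul_mem a hx, a • u,
      fun d => ?_⟩
    simp only [Pi.smul_apply, map_smul, hu, d0, hU.lin, smul_sub]

/-- the local condition for `Mb`: cocycles that lift to `M₁` -/
def lam1 (SD : ∀ w, FSys (D w)) (j : ∀ w, D w →* G) (h1 : IsAct ρ₁)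
    (hlin : ∀ g (a : O) m, ρ₁ g (a • m) = a • ρ₁ g m) (π : M₁ →ₗ[O] Mb)
    (w : Φ) : Submodule O (D w → Mb) :=
  (zM (O := O) (SD w) (h1.comp (j w)) (fun g => hlin _)).map (π.compLeft (D w))

end conditions

section sha

variable {G : Type*} [Group G] (S : FSys G) {Φ : Type*} {D : Φ → Type*} [∀ w, Group (D w)]
  (SD : ∀ w, FSys (D w)) (j : ∀ w, D w →* G) (κ : G →* G) {U : Type*} [AddCommGroup U]
  (υ : G → U → U)

/-- a 1-cocycle that is a coboundary on all `D w` and `κ (D w)` is a coboundary -/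
def ShU1 : Prop :=
  ∀ x, Z1 S υ x → (∀ w, ∃ m, ∀ d, x (j w d) = d0 (fun d => υ (j w d)) m d) →
    (∀ w, ∃ m, ∀ d, x (κ (j w d)) = d0 (fun d => υ (κ (j w d))) m d) → ∃ m, x = d0 υ m

/-- a 2-cocycle that is a coboundary on all `D w` and `κ (D w)` is a coboundary -/
def ShU2 : Prop :=
  ∀ F, Z2 S υ F → (∀ w, B2 (SD w) (fun d => υ (j w d)) (fun a b => F (j w a) (j w b))) →
    (∀ w, B2 (SD w) (fun d => υ (κ (j w d))) (fun a b => F (κ (j w a)) (κ (j w b)))) → B2 S υ F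

end sha

end Pool.Agent.Work.MP_787500_nt.KR
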