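import Mathlib
import Pool.Agent.Work.MP_787500_nt.KR.FS1_Perp
import Pool.Agent.Work.MP_787500_nt.KR.FS2_Loc

/-!
# Module FS3 (size M): the Selmer groups of `M` and of the subquotient

Notation of `FSDefs`. `A = selM lam0 (perpM lam0)` for `M`, `A' = selM lam1 (perpM lam1)` for `Mb`. Compare
`GP/F14_GlobStep.lean`.
* `sel_val`: for `x ∈ A`, `q ∘ x` is a cocycle for `υ` that is a coboundary on all `D w` (`lam0`) and on all `κ (D w)`
  (`perp0`: `q (y d) = d0 (q m) d + q (i (e u)) = d0 (q m) d`). By `ShU1`, `q ∘ x = d0 u`.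
* `sel_mem`: let `x₁` be a cocycle for `ρ₁`. `i ∘ x₁ ∈ A` iff `π ∘ x₁ ∈ A'`. On `D w` both conditions hold:
  `q ∘ i ∘ x₁ = 0`, `π ∘ x₁` lifts. On `κ (D w)`: `perp0`, `perp1`: `i (x₁) = d0 m + i (e u)` iff `d0 m = i (x₁ - e u)`
  (`π (x₁ - e u) = π x₁`); conversely `i m₁ = d0 m`, `π m₁ = π x₁` gives `x₁ - m₁ = e u` (`pker`).
* `sel_onto`: every `x' ∈ A'` is `π ∘ x₁` with `x₁` a cocycle for `ρ₁`: choose `y₁ : G → M₁` smooth with `π ∘ y₁ = x'`;
  `d1 ρ₁ y₁ = e ∘ F` (`pker`) with `F` a smooth 2-cocycle for `υ` (`einj`). On `D w`: `x' ∘ j w = π ∘ x₂` with `x₂` a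
  cocycle for `ρ₁ ∘ j w`, so `y₁ ∘ j w - x₂ = e ∘ z` and `F| = d1 z`. On `κ (D w)`: by `perp1`, `i m₁(d) = d0 m d` and
  `π (m₁ d) = x' (κ (j w d))`; `m₁` is a cocycle for `ρ₁ ∘ κ ∘ j w` (`iinj`; it is smooth since `d0 m` is), so the same
  works. By `ShU2`, `F = d1 υ z`, and `x₁ = y₁ - e ∘ z`.
* `sel_step`: the homomorphism `A → b1s υ`, `x ↦ q ∘ x`, is onto (`d0 m ∈ A`: coboundaries are in `lam0` and in
  `perpM lam0`, `perp_cob`; `q ∘ d0 m = d0 (q m)`) with kernel `≃ {x₁ ∈ Z1 ρ₁ | i ∘ x₁ ∈ A}`, which maps onto `A'` by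
  `x₁ ↦ π ∘ x₁` (`sel_mem`, `sel_onto`) with kernel `≃ z1s υ` (`0 ∈ A'`). Everything is finite (`sel_finite`).
-/

set_option autoImplicit false
set_option linter.unusedSectionVars false

namespace Pool.Agent.Work.MP_787500_nt.KR

open Pool.Agent.Work.MP_787500_nt.GP (A0 half hf IsAct d0 d1 d2 tw cup11 cup21 cup12 cup01 cup02)

universe v

variable {G : Type*} [Group G] {S : FSys G} {Φ : Type*} [Fintype Φ] {D : Φ → Type*}
  [∀ w, Group (D w)] {SD : ∀ w, FSys (D w)} {j : ∀ w, D w →* G} {χ : G → ℤ_[2]}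
  {inv : ∀ w, (D w → D w → A0) → A0} {κ : G →* G} {Θ : Set (G × G)}
  {O : Type*} [CommRing O] {M M₁ Mb U : Type v} [AddCommGroup M] [Module O M] [Finite M]
  [AddCommGroup M₁] [Module O M₁] [Finite M₁] [AddCommGroup Mb] [Module O Mb] [Finite Mb]
  [AddCommGroup U] [Module O U] [Finite U] {ρ : G → M → M} {b : M →+ M →+ A0}
  {ρ₁ : G → M₁ → M₁} {ρb : G → Mb → Mb} {bb : Mb →+ Mb →+ A0} {υ : G → U → U}
  {β : U →+ U →+ A0} {e : U →ₗ[O] M₁} {i : M₁ →ₗ[O] M} {π : M₁ →ₗ[O] Mb} {q : M →ₗ[O] U}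

private theorem fs3_kc (H : ParD.{v} S SD j χ inv κ Θ) (w : Φ) :
    ∀ W, S.mem W → ∃ W', (SD w).mem W' ∧ ∀ v ∈ W', (κ.comp (j w)) v ∈ W := by
  intro W hW
  obtain ⟨W', hW', h3⟩ := H.ksys W hW
  obtain ⟨W'', hW'', h4⟩ := H.jsm w W' hW'
  exact ⟨W'', hW'', fun v hv => h3 _ (h4 v hv)⟩

private theorem fs3_map {X : Type*} [Group X] {T : FSys X} {A B : Type*} [AddCommGroup A]
    [AddCommGroup B] {α : X → A → A} {γ : X → B → B} (f : A →+ B)
    (hf : ∀ g a, f (α g a) = γ g (f a)) {x : X → A} (hx : Z1 T α x) :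
    Z1 T γ (fun g => f (x g)) := by
  refine ⟨?_, fun a b => ?_⟩
  · obtain ⟨W, hW, h1⟩ := hx.1
    exact ⟨W, hW, fun g w hw => congrArg f (h1 g w hw)⟩
  · show f (x (a * b)) = f (x a) + γ a (f (x b))
    rw [hx.2, map_add, hf]

private theorem fs3_lift {X : Type*} [Group X] {T : FSys X} {A B : Type*} [AddCommGroup A]
    [AddCommGroup B] {α : X → A → A} {γ : X → B → B} (f : A →+ B) (hinj : Function.Injective f)
    (hf : ∀ g a, f (α g a) = γ g (f a)) {x : X → A} (hx : Z1 T γ (fun g => f (x g))) :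
    Z1 T α x := by
  refine ⟨?_, fun a b => ?_⟩
  · obtain ⟨W, hW, h1⟩ := hx.1
    exact ⟨W, hW, fun g w hw => hinj (h1 g w hw)⟩
  · apply hinj
    rw [map_add, hf]
    exact hx.2 a b

private theorem fs3_qi (hs : SubU ρ b ρ₁ ρb bb υ β e i π q) (m : M₁) : q (i m) = 0 :=
  (hs.qker _).2 ⟨m, rfl⟩

private theorem fs3_pe (hs : SubU ρ b ρ₁ ρb bb υ β e i π q) (u : U) : π (e u) = 0 :=
  (hs.pker _).2 ⟨u, rfl⟩

private theorem fs3_card {A B : Type*} [AddCommGroup A] [AddCommGroup B] (f : A →+ B) :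
    Nat.card A = Nat.card f.range * Nat.card f.ker := by
  have h1 : Nat.card A = Nat.card (A ⧸ f.ker) * Nat.card f.ker :=
    AddSubgroup.card_eq_card_quotient_mul_card_addSubgroup _
  rw [Nat.card_congr (QuotientAddGroup.quotientKerEquivRange f).toEquiv] at h1
  exact h1

/-- the 2-cocycle of a cochain is a coboundary on a subgroup where the cochain can be corrected -/
private theorem fs3_cob {X : Type*} [Group X] {T : FSys X} {c : X →* G}
    (hs : SubU ρ b ρ₁ ρb bb υ β e i π q) (ha : IsAct ρ₁)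
    {y : X → M₁} {F : X → X → U} {x₂ : X → M₁}
    (hy : Sm1 T y) (hF : ∀ a b, e (F a b) = d1 (fun d => ρ₁ (c d)) y a b)
    (hx : Z1 T (fun d => ρ₁ (c d)) x₂) (hp : ∀ d, π (x₂ d) = π (y d)) :
    B2 T (fun d => υ (c d)) F := by
  have h1 : ∀ d, ∃ u, e u = y d - x₂ d := by
    intro d
    rw [← hs.pker, map_sub, hp, sub_self]
  choose z hz using h1
  refine ⟨z, ?_, ?_⟩
  · obtain ⟨W, hW, h2⟩ := hy
    obtain ⟨W', hW', h3⟩ := hx.1
    refine ⟨W ⊓ W', T.inf hW hW', fun g w hw => hs.einj ?_⟩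
    rw [hz, hz, h2 g w hw.1, h3 g w hw.2]
  · funext a b
    apply hs.einj
    rw [hF]
    show _ = e (z a + υ (c a) (z b) - z (a * b))
    rw [map_sub, map_add, hs.eqe, hz, hz, hz, ha.sub, hx.2 a b]
    show y a + ρ₁ (c a) (y b) - y (a * b) = _
    abel

theorem sel_val (H : ParD.{v} S SD j χ inv κ Θ) (h : SDualF S χ κ Θ O ρ b)
    (hb : SDualF S χ κ Θ O ρb bb) (hU : SDualF S χ κ Θ O υ β)
    (hs : SubU ρ b ρ₁ ρb bb υ β e i π q) (h1 : ShU1 S j κ υ) {x : G → M}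
    (hx : x ∈ selM h j (lam0 h hU SD j q) fun w => perpM H h w (lam0 h hU SD j q w)) :
    ∃ u, ∀ g, q (x g) = d0 υ u g := by
  obtain ⟨u, hu⟩ := h1 (fun g => q (x g)) (fs3_map q.toAddMonoidHom hs.eqq hx.1)
    (fun w => (hx.2.1 w).2) (by
      intro w
      obtain ⟨-, m, hm⟩ := (perp0 H h hb hU hs w _).1 (hx.2.2 w)
      refine ⟨q m, fun d => ?_⟩
      obtain ⟨u, hu⟩ := hm d
      rw [hu, map_add, fs3_qi hs, add_zero]
      show q (ρ (κ (j w d)) m - m) = _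
      rw [map_sub, hs.eqq]
      rfl)
  exact ⟨u, fun g => congrFun hu g⟩

theorem sel_mem (H : ParD.{v} S SD j χ inv κ Θ) (h : SDualF S χ κ Θ O ρ b)
    (hb : SDualF S χ κ Θ O ρb bb) (hU : SDualF S χ κ Θ O υ β)
    (hs : SubU ρ b ρ₁ ρb bb υ β e i π q) {x : G → M₁} (hx : Z1 S ρ₁ x) :
    (fun g => i (x g)) ∈ selM h j (lam0 h hU SD j q)
        (fun w => perpM H h w (lam0 h hU SD j q w)) ↔
      (fun g => π (x g)) ∈ selM hb j (lam1 SD j (hs.act₁ h.act) (hs.lin₁ h.lin) π)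
        fun w => perpM H hb w (lam1 SD j (hs.act₁ h.act) (hs.lin₁ h.lin) π w) := by
  have ha := hs.act₁ h.act
  have hxj : ∀ w, Z1 (SD w) (fun d => ρ₁ (j w d)) (fun d => x (j w d)) := fun w =>
    Z1.comp (H.jsm w) hx
  have hxk : ∀ w, Z1 (SD w) (fun d => ρ₁ (κ (j w d))) (fun d => x (κ (j w d))) :=
    fun w => Z1.comp (j := κ.comp (j w)) (fs3_kc H w) hx
  constructor
  · intro h1
    refine ⟨fs3_map π.toAddMonoidHom hs.eqp hx, fun w => ⟨fun d => x (j w d), hxj w, rfl⟩,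
      fun w => (perp1 H h hb hU hs w _).2 ⟨?_, ?_⟩⟩
    · exact fs3_map π.toAddMonoidHom (fun d => hs.eqp (κ (j w d))) (hxk w)
    · obtain ⟨-, m, hm⟩ := (perp0 H h hb hU hs w _).1 (h1.2.2 w)
      refine ⟨m, fun d => ?_⟩
      obtain ⟨u, hu⟩ := hm d
      have hu' : i (x (κ (j w d))) = d0 (fun d => ρ (κ (j w d))) m d + i (e u) := hu
      refine ⟨x (κ (j w d)) - e u, ?_, ?_⟩
      · rw [map_sub, hu', add_sub_cancel_right]
      · rw [map_sub, fs3_pe hs, sub_zero]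
  · intro h1
    refine ⟨fs3_map i.toAddMonoidHom hs.eqi hx, fun w => ⟨?_, 0, fun d => ?_⟩,
      fun w => (perp0 H h hb hU hs w _).2 ⟨?_, ?_⟩⟩
    · exact fs3_map i.toAddMonoidHom (fun d => hs.eqi (j w d)) (hxj w)
    · rw [fs3_qi hs]
      show (0 : U) = υ (j w d) 0 - 0
      rw [hU.act.zero, sub_zero]
    · exact fs3_map i.toAddMonoidHom (fun d => hs.eqi (κ (j w d))) (hxk w)
    · obtain ⟨-, m, hm⟩ := (perp1 H h hb hU hs w _).1 (h1.2.2 w)
      refine ⟨m, fun d => ?_⟩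
      obtain ⟨m₁, hm1, hm2⟩ := hm d
      have h2 : π (x (κ (j w d)) - m₁) = 0 := by rw [map_sub, hm2, sub_self]
      obtain ⟨u, hu⟩ := (hs.pker _).1 h2
      refine ⟨u, ?_⟩
      rw [← hm1, hu, map_sub]
      abel

theorem sel_onto (H : ParD.{v} S SD j χ inv κ Θ) (h : SDualF S χ κ Θ O ρ b)
    (hb : SDualF S χ κ Θ O ρb bb) (hU : SDualF S χ κ Θ O υ β)
    (hs : SubU ρ b ρ₁ ρb bb υ β e i π q) (h2 : ShU2 S SD j κ υ) {x : G → Mb}
    (hx : x ∈ selM hb j (lam1 SD j (hs.act₁ h.act) (hs.lin₁ h.lin) π)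
        fun w => perpM H hb w (lam1 SD j (hs.act₁ h.act) (hs.lin₁ h.lin) π w)) :
    ∃ x₁, Z1 S ρ₁ x₁ ∧ ∀ g, π (x₁ g) = x g := by
  have ha := hs.act₁ h.act
  let y₁ : G → M₁ := fun d => Function.surjInv hs.psurj (x d)
  have hy₁ : ∀ d, π (y₁ d) = x d := fun d => Function.surjInv_eq hs.psurj (x d)
  have hy₁s : Sm1 S y₁ := by
    obtain ⟨W, hW, h3⟩ := hx.1.1
    exact ⟨W, hW, fun g v hv => congrArg (Function.surjInv hs.psurj) (h3 g v hv)⟩
  have h4 : ∀ s t, ∃ u, e u = d1 ρ₁ y₁ s t := by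
    intro s t
    rw [← hs.pker]
    show π (y₁ s + ρ₁ s (y₁ t) - y₁ (s * t)) = 0
    rw [map_sub, map_add, hs.eqp, hy₁, hy₁, hy₁, hx.1.2 s t, sub_self]
  choose F hF using h4
  have hsm : Smooth S ρ₁ := hs.sm₁ h.sm
  have hFZ : Z2 S υ F := by
    have h5 := d1_Z2 ha hsm hy₁s
    refine ⟨?_, fun s t r => ?_⟩
    · obtain ⟨W, hW, h6⟩ := h5.1
      refine ⟨W, hW, fun g k w hw w' hw' => hs.einj ?_⟩
      rw [hF, hF, h6 g k w hw w' hw']
    · apply hs.einj
      have h7 := h5.2 s t r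
      unfold d2 at h7 ⊢
      rw [map_sub, map_add, map_sub, hs.eqe, hF, hF, hF, hF, map_zero]
      exact h7
  obtain ⟨z, hz1, hz2⟩ := h2 F hFZ (by
    intro w
    obtain ⟨x₂, hx₂, hx₃⟩ := hx.2.1 w
    refine fs3_cob (c := j w) (y := fun d => y₁ (j w d)) (x₂ := x₂) hs ha
      (Sm1.comp (H.jsm w) hy₁s) (fun s t => ?_) hx₂ (fun d => ?_)
    · rw [hF]
      simp only [d1, map_mul]
    · rw [hy₁]
      exact congrFun hx₃ d) (by
    intro w
    obtain ⟨-, m, hm⟩ := (perp1 H h hb hU hs w _).1 (hx.2.2 w)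
    choose m₁ hm1 hm2 using hm
    have h8 : Z1 (SD w) (fun d => ρ₁ (κ (j w d))) m₁ := by
      refine fs3_lift i.toAddMonoidHom hs.iinj (fun d => hs.eqi (κ (j w d))) ?_
      have h9 : (fun d => i.toAddMonoidHom (m₁ d)) = d0 (fun d => ρ (κ (j w d))) m :=
        funext hm1
      rw [h9]
      have hp := h.locPair H w
      exact d0_Z1 hp.act' hp.sm' m
    refine fs3_cob (c := κ.comp (j w)) (y := fun d => y₁ (κ (j w d))) (x₂ := m₁) hs ha
      (Sm1.comp (j := κ.comp (j w)) (fs3_kc H w) hy₁s) (fun s t => ?_) h8 (fun d => ?_)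
    · rw [hF]
      simp only [d1, map_mul, MonoidHom.comp_apply]
    · rw [hy₁, hm2])
  refine ⟨fun g => y₁ g - e (z g), ⟨?_, fun s t => ?_⟩, fun g => ?_⟩
  · obtain ⟨W, hW, h5⟩ := hy₁s
    obtain ⟨W', hW', h6⟩ := hz1
    refine ⟨W ⊓ W', S.inf hW hW', fun g w hw => ?_⟩
    show y₁ (g * w) - e (z (g * w)) = y₁ g - e (z g)
    rw [h5 g w hw.1, h6 g w hw.2]
  · show y₁ (s * t) - e (z (s * t)) = y₁ s - e (z s) + ρ₁ s (y₁ t - e (z t))
    have h5 := hF s t
    rw [hz2] at h5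
    have h6 : e (z s + υ s (z t) - z (s * t)) = y₁ s + ρ₁ s (y₁ t) - y₁ (s * t) := h5
    rw [map_sub, map_add, hs.eqe] at h6
    rw [ha.sub]
    have h7 : y₁ (s * t) = y₁ s + ρ₁ s (y₁ t) - (e (z s) + ρ₁ s (e (z t)) - e (z (s * t))) := by
      rw [h6]
      abel
    rw [h7]
    abel
  · show π (y₁ g - e (z g)) = x g
    rw [map_sub, fs3_pe hs, sub_zero, hy₁]

theorem sel_step (H : ParD.{v} S SD j χ inv κ Θ) (h : SDualF S χ κ Θ O ρ b)
    (hb : SDualF S χ κ Θ O ρb bb) (hU : SDualF S χ κ Θ O υ β)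
    (hs : SubU ρ b ρ₁ ρb bb υ β e i π q) (h1 : ShU1 S j κ υ) (h2 : ShU2 S SD j κ υ) :
    Nat.card (selM h j (lam0 h hU SD j q) fun w => perpM H h w (lam0 h hU SD j q w)) =
      Nat.card (selM hb j (lam1 SD j (hs.act₁ h.act) (hs.lin₁ h.lin) π)
        fun w => perpM H hb w (lam1 SD j (hs.act₁ h.act) (hs.lin₁ h.lin) π w)) *
      (Nat.card (z1s S hU.act) * Nat.card (b1s hU.act)) := by
  let A := selM h j (lam0 h hU SD j q) fun w => perpM H h w (lam0 h hU SD j q w)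
  let A' := selM hb j (lam1 SD j (hs.act₁ h.act) (hs.lin₁ h.lin) π)
        fun w => perpM H hb w (lam1 SD j (hs.act₁ h.act) (hs.lin₁ h.lin) π w)
  let Z := zM (O := O) S (hs.act₁ h.act) (hs.lin₁ h.lin)
  let K : Submodule O (G → M₁) := Z ⊓ A'.comap (π.compLeft G)
  let Q : A →+ (G → U) := ((q.compLeft G).domRestrict A).toAddMonoidHom
  have e1 : Nat.card A = Nat.card Q.range * Nat.card Q.ker := fs3_card Q
  have e2 : Nat.card Q.range = Nat.card (b1s hU.act) := by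
    have h3 : Q.range = b1s hU.act := by
      ext y
      constructor
      · rintro ⟨x, rfl⟩
        obtain ⟨u, hu⟩ := sel_val H h hb hU hs h1 x.2
        exact ⟨u, funext hu⟩
      · rintro ⟨u, rfl⟩
        obtain ⟨m, rfl⟩ := hs.qsurj u
        refine ⟨⟨d0 ρ m, d0_Z1 h.act h.sm m, fun w => ⟨?_, q m, fun d => ?_⟩, fun w => ?_⟩, ?_⟩
        · have hp := h.locPair H w
          exact d0_Z1 hp.act hp.sm m
        · show q (ρ (j w d) m - m) = υ (j w d) (q m) - q m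
          rw [map_sub, hs.eqq]
        · exact perp_cob H h w _ m
        · funext g
          show q (ρ g m - m) = υ g (q m) - q m
          rw [map_sub, hs.eqq]
    rw [h3]
  have e3 : Nat.card Q.ker = Nat.card K := by
    refine (Nat.card_congr (Equiv.ofBijective (fun x : K => (⟨⟨fun s => i (x.1 s),
      (sel_mem H h hb hU hs x.2.1).2 x.2.2⟩, funext fun s => fs3_qi hs _⟩ : Q.ker))
      ⟨?_, ?_⟩)).symm
    · intro x y hxy
      apply Subtype.ext
      funext s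
      apply hs.iinj
      exact congrFun (congrArg (fun z : Q.ker => (z.1 : G → M)) hxy) s
    · rintro ⟨⟨x, hx⟩, hx0⟩
      have h3 : ∀ g, ∃ m₁, i m₁ = x g := fun g => (hs.qker _).1 (congrFun hx0 g)
      choose x₁ hx1 using h3
      have h4 : (fun g => i (x₁ g)) = x := funext hx1
      have h5 : Z1 S ρ₁ x₁ := by
        refine fs3_lift i.toAddMonoidHom hs.iinj hs.eqi ?_
        have h6 : (fun g => i.toAddMonoidHom (x₁ g)) = x := h4
        rw [h6]
        exact hx.1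
      refine ⟨⟨x₁, h5, (sel_mem H h hb hU hs h5).1 ?_⟩, ?_⟩
      · rw [h4]
        exact hx
      · apply Subtype.ext
        apply Subtype.ext
        exact h4
  let P : K →+ (G → Mb) := ((π.compLeft G).domRestrict K).toAddMonoidHom
  have e4 : Nat.card K = Nat.card P.range * Nat.card P.ker := fs3_card P
  have e5 : Nat.card P.range = Nat.card A' := by
    have h3 : P.range = A'.toAddSubgroup := by
      ext y
      constructor
      · rintro ⟨x, rfl⟩
        exact x.2.2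
      · intro hy
        obtain ⟨x₁, h4, h5⟩ := sel_onto H h hb hU hs h2 hy
        have h6 : (π.compLeft G) x₁ = y := funext h5
        exact ⟨⟨x₁, h4, by show (π.compLeft G) x₁ ∈ A'; rw [h6]; exact hy⟩, h6⟩
    rw [h3]
    rfl
  have e6 : Nat.card P.ker = Nat.card (z1s S hU.act) := by
    refine (Nat.card_congr (Equiv.ofBijective (fun x : z1s S hU.act => (⟨⟨fun s => e (x.1 s),
      fs3_map e.toAddMonoidHom hs.eqe x.2, ?_⟩, funext fun s => fs3_pe hs _⟩ : P.ker))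
      ⟨?_, ?_⟩)).symm
    · show (π.compLeft G) (fun s => e (x.1 s)) ∈ A'
      have h3 : (π.compLeft G) (fun s => e (x.1 s)) = 0 := funext fun s => fs3_pe hs _
      rw [h3]
      exact A'.zero_mem
    · intro x y hxy
      apply Subtype.ext
      funext s
      apply hs.einj
      exact congrFun (congrArg (fun z : P.ker => (z.1 : G → M₁)) hxy) s
    · rintro ⟨⟨x, hx⟩, hx0⟩
      have h3 : ∀ g, ∃ u, e u = x g := fun g => (hs.pker _).1 (congrFun hx0 g)
      choose x₁ hx1 using h3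
      have h4 : (fun g => e (x₁ g)) = x := funext hx1
      have h5 : Z1 S υ x₁ := by
        refine fs3_lift e.toAddMonoidHom hs.einj hs.eqe ?_
        have h6 : (fun g => e.toAddMonoidHom (x₁ g)) = x := h4
        rw [h6]
        exact hx.1
      refine ⟨⟨x₁, h5⟩, ?_⟩
      apply Subtype.ext
      apply Subtype.ext
      exact h4
  show Nat.card A = Nat.card A' * _
  rw [e1, e2, e3, e4, e5, e6]
  ring

end Pool.Agent.Work.MP_787500_nt.KR
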