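import Mathlib
import Pool.Agent.Work.MP_787500_nt.KR.T17a
import Pool.Agent.Work.MP_787500_nt.KP.QTwo
import Pool.Agent.Work.MP_787500_nt.KP.Sep
import Pool.Agent.Work.MP_787500_nt.GP.LDefs

/-!
From finite modules to vector spaces over a 2-adic field, systems of subgroups of finite index:
definitions (fixed, do not change). The lattices and finite modules are those of `GP/LDefs.lean`.
-/

set_option autoImplicit false
set_option linter.unusedSectionVars false

namespace Pool.Agent.Work.MP_787500_nt.KR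

open Matrix
open Pool.Agent.Work.MP_787500_nt.GP
open Pool.Agent.Work.MP_787500_nt.PA (toE)

variable {E : Type*} [NormedField E] [NormedAlgebra ℚ_[2] E] {n : ℕ}

section local_defs

variable {D : Type*} [Group D]

/-- local data: two representations on `E ^ n` that preserve `T`, close to the identity on small
members of the system, and dual to each other for the form `b`, up to the character `χ` -/
structure LocRep (SD : FSys D) (χ : D → ℤ_[2]) (T : Submodule (OE E) (Fin n → E))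
    (b : Matrix (Fin n) (Fin n) E) (ρ ρ' : D → Matrix (Fin n) (Fin n) E) : Prop where
  one : ρ 1 = 1
  mul : ∀ s t, ρ (s * t) = ρ s * ρ t
  one' : ρ' 1 = 1
  mul' : ∀ s t, ρ' (s * t) = ρ' s * ρ' t
  st : ∀ d, ∀ x ∈ T, ρ d *ᵥ x ∈ T
  st' : ∀ d, ∀ x ∈ T, ρ' d *ᵥ x ∈ T
  sm : ∀ ε : ℝ, 0 < ε → ∃ W, SD.mem W ∧ ∀ w ∈ W, ∀ x : Fin n → E, ‖ρ w *ᵥ x - x‖ ≤ ε * ‖x‖
  sm' : ∀ ε : ℝ, 0 < ε → ∃ W, SD.mem W ∧ ∀ w ∈ W, ∀ x : Fin n → E, ‖ρ' w *ᵥ x - x‖ ≤ ε * ‖x‖
  dual : ∀ d x y, bil b (ρ d *ᵥ x) (ρ' d *ᵥ y) = toE E (χ d) * bil b x y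

/-- continuous cocycles with values in `E ^ n` -/
def ZV (SD : FSys D) (ρ : D → Matrix (Fin n) (Fin n) E) (X : D → Fin n → E) : Prop :=
  KP.N1 SD X ∧ ∀ s t, X (s * t) = X s + ρ s *ᵥ X t

/-- continuous cocycles for `ρ'` orthogonal to `L` -/
def PerpV (SD : FSys D) (χ : D → ℤ_[2]) (b : Matrix (Fin n) (Fin n) E)
    (ρ' : D → Matrix (Fin n) (Fin n) E) (L : Submodule E (D → Fin n → E))
    (Y : D → Fin n → E) : Prop :=
  ZV SD ρ' Y ∧ ∀ X ∈ L, KP.BE SD χ (cupE ρ' b X Y)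

end local_defs

end Pool.Agent.Work.MP_787500_nt.KR
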