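import Mathlib
import Pool.Agent.Work.MP_787500_nt.KR.LDefs
import Pool.Agent.Work.MP_787500_nt.GP.L08_MN

/-!
The finite modules `MN T l N` for systems of subgroups of finite index (copy of `GP/L08_MN.lean`).
-/

set_option autoImplicit false
set_option linter.unusedSectionVars false

namespace Pool.Agent.Work.MP_787500_nt.KR

open Matrix
open Pool.Agent.Work.MP_787500_nt.PA (toE)
open Pool.Agent.Work.MP_787500_nt.GP

variable {E : Type*} [NormedField E] [NormedAlgebra ℚ_[2] E] [FiniteDimensional ℚ_[2] E] {n : ℕ}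
  {b : Matrix (Fin n) (Fin n) E} {l : OE E} {t : E →ₗ[ℚ_[2]] ℚ_[2]}
  {T : Submodule (OE E) (Fin n → E)}

private theorem l08_bdd (h : Lat b l t T) (N : ℕ) :
    ∃ C : ℝ, 0 ≤ C ∧ ∀ m : MN T l N, ‖lft (m : Wq T)‖ ≤ C := by
  obtain ⟨R, hR⟩ := h.bdd
  have hl : 0 < ‖(l : E)‖ ^ N := pow_pos (norm_pos_iff.2 h.lne) N
  refine ⟨max 0 (R / ‖(l : E)‖ ^ N), le_max_left _ _, fun m => le_max_of_le_right ?_⟩
  have h1 := hR _ m.lft_mem
  rw [norm_smul, norm_pow] at h1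
  rw [le_div_iff₀ hl]
  linarith

private theorem l08_act {D : Type*} [Group D] {ρ : D → Matrix (Fin n) (Fin n) E} {l : OE E}
    (h1 : ρ 1 = 1) (hm : ∀ s t, ρ (s * t) = ρ s * ρ t) (hst : ∀ d, ∀ x ∈ T, ρ d *ᵥ x ∈ T) (N : ℕ) :
    IsAct (actN l N ρ hst) := by
  refine ⟨fun m => Subtype.ext ?_, fun g k m => Subtype.ext ?_, fun g m m' => Subtype.ext ?_⟩
  · rw [coe_actN, actQ, h1, one_mulVec, mq_lft]
  · rw [coe_actN, coe_actN, coe_actN, actQ, hm, ← mulVec_mulVec, actQ.eq_def T (ρ k),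
      actQ_mq (hst g)]
  · rw [Submodule.coe_add, coe_actN, coe_actN, coe_actN, Submodule.coe_add]
    conv_lhs => rw [← mq_lft (m : Wq T), ← mq_lft (m' : Wq T)]
    rw [← mq_add, actQ_mq (hst g), mulVec_add, mq_add]
    rfl

private theorem l08_sm (h : Lat b l t T) {D : Type*} [Group D] {SD : FSys D}
    {ρ : D → Matrix (Fin n) (Fin n) E} (hst : ∀ d, ∀ x ∈ T, ρ d *ᵥ x ∈ T)
    (hsm : ∀ ε : ℝ, 0 < ε → ∃ W, SD.mem W ∧ ∀ w ∈ W, ∀ x : Fin n → E, ‖ρ w *ᵥ x - x‖ ≤ ε * ‖x‖)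
    (N : ℕ) : Smooth SD (actN l N ρ hst) := by
  obtain ⟨C, hC0, hC⟩ := l08_bdd h N
  obtain ⟨r, hr, hopn⟩ := h.opn
  obtain ⟨W, hW, h1⟩ := hsm (r / (C + 1)) (by positivity)
  refine ⟨W, hW, fun w hw m => Subtype.ext ?_⟩
  rw [coe_actN, actQ]
  conv_rhs => rw [← mq_lft (m : Wq T)]
  rw [mq_eq]
  apply hopn
  calc ‖ρ w *ᵥ lft (m : Wq T) - lft (m : Wq T)‖ ≤ r / (C + 1) * ‖lft (m : Wq T)‖ := h1 w hw _
    _ ≤ r / (C + 1) * C := mul_le_mul_of_nonneg_left (hC m) (by positivity)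
    _ < r := by
      rw [div_mul_eq_mul_div, div_lt_iff₀ (by linarith)]
      nlinarith

private theorem l08_eqv (h : Lat b l t T) {D : Type*} [Group D] {SD : FSys D} {χ : D → ℤ_[2]}
    {ρ ρ' : D → Matrix (Fin n) (Fin n) E} (hr : LocRep SD χ T b ρ ρ') (N : ℕ) (g : D)
    (m m' : MN T l N) : bN h N (actN l N ρ hr.st g m) (actN l N ρ' hr.st' g m') =
      χ g • bN h N m m' := by
  rw [bN_val h N _ _ (x' := ρ g *ᵥ lft (m : Wq T)) (y' := ρ' g *ᵥ lft (m' : Wq T)) rfl rfl,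
    bN_val h N m m' (mq_lft _) (mq_lft _), hr.dual, ← map_smul]
  congr 1
  have e : (l : E) ^ N * (toE E (χ g) * bil b (lft (m : Wq T)) (lft (m' : Wq T))) =
      (χ g : ℚ_[2]) • ((l : E) ^ N * bil b (lft (m : Wq T)) (lft (m' : Wq T))) := by
    rw [toE, Algebra.smul_def]
    ring
  rw [e, map_smul]
  rfl

theorem pair_MN (h : Lat b l t T) {D : Type*} [Group D] {SD : FSys D} {χ : D → ℤ_[2]}
    {ρ ρ' : D → Matrix (Fin n) (Fin n) E} (hr : LocRep SD χ T b ρ ρ') (N : ℕ) :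
    Pair SD χ (actN l N ρ hr.st) (actN l N ρ' hr.st') (bN h N) where
  act := l08_act hr.one hr.mul hr.st N
  act' := l08_act hr.one' hr.mul' hr.st' N
  sm := l08_sm h hr.st hr.sm N
  sm' := l08_sm h hr.st' hr.sm' N
  eqv := l08_eqv h hr N
  nd := bN_nd h N
  nd' := fun m' hm => bN_nd h N m' fun m => by rw [bN_symm]; exact hm m

theorem sdualF_MN {G : Type*} [Group G] {S : FSys G} {χ : G → ℤ_[2]} {κ : G →* G}
    {Θ : Set (G × G)} (h : Lat b l t T) {ρ : G → Matrix (Fin n) (Fin n) E}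
    (hr : LocRep S χ T b ρ (fun g => ρ (κ g)))
    (hal : ∀ p ∈ Θ, ∀ x : Fin n → E, bil b x (ρ p.1 *ᵥ x) = 0) (N : ℕ) :
    SDualF S χ κ Θ (OE E) (actN l N ρ hr.st) (bN h N) where
  act := l08_act hr.one hr.mul hr.st N
  lin := fun g a m => Subtype.ext (by
    rw [Submodule.coe_smul, coe_actN, coe_actN, Submodule.coe_smul]
    conv_lhs => rw [← mq_lft (m : Wq T)]
    rw [← mq_smul, actQ_mq (hr.st g), mulVec_smul, mq_smul]
    rfl)
  sm := l08_sm h hr.st hr.sm N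
  symm := bN_symm h N
  bal := bN_bal h N
  eqv := fun g m m' => l08_eqv h hr N g m m'
  nd := bN_nd h N
  alt := fun p hp a m => by
    rw [bN_val h N (a • m) _ (x' := (a : E) • lft (m : Wq T)) (y' := ρ p.1 *ᵥ lft (m : Wq T))
      (by rw [mq_smul, mq_lft]; rfl) rfl, bil_smul_left, hal p hp, mul_zero, mul_zero, map_zero,
      map_zero]

end Pool.Agent.Work.MP_787500_nt.KR
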