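import Mathlib
import Pool.Agent.Work.MP_787500_nt.KR.L01
import Pool.Agent.Work.MP_787500_nt.KR.LDefs

/-!
# Module L02_BEINV (size M-L): cocycles with values in `ℚ_2` and in `E`

* `ze_Z2`: `φ` is `ℚ_2`-linear, so `φ (toE E (χ a) * x) = χ a • φ x` (as `toE E u = algebraMap u`) and
  continuous (finite dimension), so `φ ∘ f` satisfies `N2`; choose `W` with
  `‖φ (f (a w) (b w')) - φ (f a b)‖ ≤ 1` (`pr0` is then constant): `Sm2`.
* `be_inv_zero`: `f = dE χ z`, `z` satisfies `N1`, so `pr0 ∘ φ ∘ z` is smooth, and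
  `pr0 ∘ φ ∘ f = d1 (tw χ) (pr0 ∘ φ ∘ z)`: `LocH.cob`.
* `be_of_inv`: `f` is bounded (`N2` and finite index: finitely many values up to norm 1), so `2 ^ c f` is
  `ℤ_[2]`-valued, `2 ^ c f = (F : ℚ_[2])` with `KP.Z2 SD χ F`, and it suffices to show `KP.B2 SD χ F`
  (`KP.B2.be`, `KP.BE_mul`). By `KP.b2_of_forall` (finite generation: `PA.exists_gens L.fin`) it suffices to
  show `KP.CobMod SD χ k F` for all `k`. `inv (pr0 (F / 2 ^ k)) = 0`: it is the hypothesis for `k - c` if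
  `k ≥ c`, and otherwise `pr0 (F / 2 ^ k)` is `2 ^ (c - k)` times `pr0 f` (`LocH.add`). By `a0_inj`
  `pr0 (F / 2 ^ k) = d1 (tw χ) z`, `z` smooth; `2 ^ k • z ∈ Z1 SD (tw χ)`, since `F` is integral; by
  `z1_div` (`k` times) `2 ^ k • z = 2 ^ k • z'` with `z' ∈ Z1`; `u = z - z'` is smooth, killed by `2 ^ k`,
  and `d1 u = pr0 (F / 2 ^ k)`. Write `u = pr0 (v / 2 ^ k)`, `v : D → ℤ_[2]` smooth: then
  `2 ^ k ∣ F a b - dd χ v a b`.
* `be_E`: choose a basis `(e_i)` of `E` over `ℚ_[2]`, with coordinate functionals `φ_i`. `φ_i ∘ f` satisfies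
  `ZE` over `ℚ_[2]`, and `inv (pr0 (φ_i f / 2 ^ k)) = 0` (hypothesis for the functional `2 ^ (-k) φ_i`), so
  by `be_of_inv` `φ_i ∘ f = dE χ z_i`; `f = dE χ (∑ i, z_i e_i)`.
-/

set_option autoImplicit false
set_option linter.unusedSectionVars false

namespace Pool.Agent.Work.MP_787500_nt.KR

open Pool.Agent.Work.MP_787500_nt.GP

open Matrix
open Pool.Agent.Work.MP_787500_nt.PA (toE)

universe v

variable {D : Type*} [Group D] {SD : FSys D} {χ : D → ℤ_[2]} {inv : (D → D → A0) → A0}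
variable {E : Type*} [NormedField E] [NormedAlgebra ℚ_[2] E] [FiniteDimensional ℚ_[2] E]

open Pool.Agent.Work.MP_787500_nt.KP.InvEAux

private theorem l02_smul (u : ℤ_[2]) (x : ℚ_[2]) : u • pr0 x = pr0 ((u : ℚ_[2]) * x) := by
  rw [← map_smul, Algebra.smul_def]
  rfl

private theorem l02_pr0 {x y : ℚ_[2]} (h : ‖x - y‖ < 1) : pr0 x = pr0 y := by
  rw [← sub_eq_zero, ← map_sub]
  exact pr0_zero_of_norm h.le

private theorem l02_Q (hχ : IsChar SD χ) {f : D → D → ℚ_[2]} (hf : KP.ZE SD χ f) :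
    Z2 SD (tw χ) (fun a b => pr0 (f a b)) := by
  refine ⟨?_, fun a b c => ?_⟩
  · obtain ⟨W, hW, h⟩ := hf.1 1 one_pos
    exact ⟨W, hW, fun g k w hw w' hw' => l02_pr0 (h g k w hw w' hw')⟩
  · show χ a • pr0 (f b c) - pr0 (f (a * b) c) + pr0 (f a (b * c)) - pr0 (f a b) = 0
    rw [l02_smul, ← map_sub, ← map_add, ← map_sub]
    have h1 := hf.2 a b c
    rw [KP.QTwoAux.toEQ] at h1
    have e : (χ a : ℚ_[2]) * f b c - f (a * b) c + f a (b * c) - f a b = 0 := by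
      linear_combination -h1
    rw [e, map_zero]

theorem ze_Z2 (hχ : IsChar SD χ) {f : D → D → E} (hf : KP.ZE SD χ f)
    (φ : E →ₗ[ℚ_[2]] ℚ_[2]) : Z2 SD (tw χ) (fun a b => pr0 (φ (f a b))) :=
  l02_Q hχ (ZE_comp (LinearMap.toContinuousLinearMap φ) hf)

theorem be_inv_zero (L : LocD.{v} SD χ inv) {f : D → D → E} (hf : KP.BE SD χ f)
    (φ : E →ₗ[ℚ_[2]] ℚ_[2]) : inv (fun a b => pr0 (φ (f a b))) = 0 := by
  obtain ⟨z, hz, h1⟩ := BE_comp (LinearMap.toContinuousLinearMap φ) hf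
  have hs : Sm1 SD (fun d => pr0 (z d)) := by
    obtain ⟨W, hW, h⟩ := hz 1 one_pos
    exact ⟨W, hW, fun g w hw => l02_pr0 (h g w hw)⟩
  rw [← L.cob _ hs]
  congr 1
  funext a b
  have h2 : φ (f a b) = z a + toE ℚ_[2] (χ a) * z b - z (a * b) := congrFun (congrFun h1 a) b
  show pr0 (φ (f a b)) = pr0 (z a) + χ a • pr0 (z b) - pr0 (z (a * b))
  rw [h2, KP.QTwoAux.toEQ, l02_smul, map_sub, map_add]

private theorem l02_zero : Z2 SD (tw χ) (fun _ _ => (0 : A0)) := by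
  obtain ⟨W, hW⟩ := SD.ex
  refine ⟨⟨W, hW, fun _ _ _ _ _ _ => rfl⟩, fun a b c => ?_⟩
  show χ a • (0 : A0) - 0 + 0 - 0 = 0
  rw [smul_zero]
  abel

private theorem l02_nsmul (L : LocD.{v} SD χ inv) {F : D → D → A0} (hF : Z2 SD (tw χ) F) (n : ℕ) :
    Z2 SD (tw χ) (fun a b => n • F a b) ∧ inv (fun a b => n • F a b) = n • inv F := by
  induction n with
  | zero =>
    have h0 : inv (fun _ _ => (0 : A0)) = 0 := by
      have h1 := L.add _ _ (l02_zero (SD := SD) (χ := χ)) l02_zero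
      simp only [add_zero] at h1
      exact left_eq_add.1 h1
    simp only [zero_smul]
    exact ⟨l02_zero, h0⟩
  | succ n ih =>
    simp only [add_smul, one_smul]
    refine ⟨Z2.add (isAct_tw L.char) ih.1 hF, ?_⟩
    rw [L.add _ _ ih.1 hF, ih.2]

private theorem l02_div (L : LocD.{v} SD χ inv) (k : ℕ) : ∀ z : D → A0, Z1 SD (tw χ) z →
    ∃ z', Z1 SD (tw χ) z' ∧ ∀ d, (2 ^ k) • z' d = z d := by
  induction k with
  | zero => exact fun z hz => ⟨z, hz, fun d => by rw [pow_zero, one_smul]⟩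
  | succ k ih =>
    intro z hz
    obtain ⟨y, hy, h1⟩ := z1_div L hz
    obtain ⟨x, hx, h2⟩ := ih y hy
    refine ⟨x, hx, fun d => ?_⟩
    rw [← h1 d, ← h2 d, ← two_nsmul, ← mul_smul, pow_succ']

private theorem l02_two (k : ℕ) : (2 : ℚ_[2]) ^ k ≠ 0 := pow_ne_zero _ two_ne_zero

private theorem l02_rep (k : ℕ) {t : A0} (h : (2 ^ k) • t = 0) :
    ∃ v : ℤ_[2], t = pr0 ((v : ℚ_[2]) / 2 ^ k) := by
  obtain ⟨x, rfl⟩ := pr0_surj t
  rw [← map_nsmul, pr0_eq_zero, nsmul_eq_mul] at h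
  obtain ⟨v, hv⟩ := h
  refine ⟨v, ?_⟩
  rw [hv]
  push_cast
  rw [mul_div_cancel_left₀ _ (l02_two k)]

private theorem l02_cob (L : LocD.{v} SD χ inv) (k : ℕ) {F : D → D → ℤ_[2]} (hF : KP.Z2 SD χ F)
    (h : inv (fun a b => pr0 ((F a b : ℚ_[2]) / 2 ^ k)) = 0) : KP.CobMod SD χ k F := by
  have hZE : KP.ZE SD χ (fun a b => (F a b : ℚ_[2]) / 2 ^ k) := by
    have := ZE_mul ((2 : ℚ_[2]) ^ k)⁻¹ (KP.QTwoAux.Z2.ze hF)
    simpa only [div_eq_inv_mul] using this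
  obtain ⟨z, hz, h1⟩ := a0_inj L (l02_Q L.char hZE) h
  have h1' : ∀ a b, pr0 ((F a b : ℚ_[2]) / 2 ^ k) = z a + χ a • z b - z (a * b) :=
    fun a b => congrFun (congrFun h1 a) b
  have hw : Z1 SD (tw χ) (fun d => (2 ^ k) • z d) := by
    obtain ⟨W, hW, h2⟩ := hz
    refine ⟨⟨W, hW, fun g w hw => ?_⟩, fun a b => ?_⟩
    · show (2 ^ k) • z (g * w) = (2 ^ k) • z g
      rw [h2 g w hw]
    · show (2 ^ k) • z (a * b) = (2 ^ k) • z a + χ a • (2 ^ k) • z b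
      have h3 : (2 ^ k) • pr0 ((F a b : ℚ_[2]) / 2 ^ k) = 0 := by
        rw [← map_nsmul, pr0_eq_zero, nsmul_eq_mul]
        refine ⟨F a b, ?_⟩
        push_cast
        rw [mul_div_cancel₀ _ (l02_two k)]
      rw [h1', smul_sub, smul_add, sub_eq_zero, smul_comm (2 ^ k) (χ a)] at h3
      exact h3.symm
  obtain ⟨z', hz', h2⟩ := l02_div L k _ hw
  have hu : Sm1 SD (fun d => z d - z' d) := by
    obtain ⟨W, hW, h3⟩ := hz
    obtain ⟨W', hW', h4⟩ := hz'.1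
    refine ⟨W ⊓ W', SD.inf hW hW', fun g w hw => ?_⟩
    show z (g * w) - z' (g * w) = z g - z' g
    rw [h3 g w hw.1, h4 g w hw.2]
  have hex : ∀ t : A0, ∃ v : ℤ_[2], (2 ^ k) • t = 0 → t = pr0 ((v : ℚ_[2]) / 2 ^ k) := by
    intro t
    by_cases ht : (2 ^ k) • t = 0
    · obtain ⟨v, hv⟩ := l02_rep k ht
      exact ⟨v, fun _ => hv⟩
    · exact ⟨0, fun h => absurd h ht⟩
  choose s hs using hex
  have hv : ∀ d, z d - z' d = pr0 ((s (z d - z' d) : ℚ_[2]) / 2 ^ k) := by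
    intro d
    refine hs _ ?_
    rw [smul_sub, h2 d, sub_self]
  refine ⟨fun d => s (z d - z' d), ?_, fun a b => ?_⟩
  · obtain ⟨W, hW, h3⟩ := hu
    refine ⟨W, hW, fun g w hw => ?_⟩
    have h4 : z (g * w) - z' (g * w) = z g - z' g := h3 g w hw
    show s (z (g * w) - z' (g * w)) = s (z g - z' g)
    rw [h4]
  · have h5 : z' (a * b) = z' a + χ a • z' b := hz'.2 a b
    have h6 : pr0 ((F a b : ℚ_[2]) / 2 ^ k) =
        (z a - z' a) + χ a • (z b - z' b) - (z (a * b) - z' (a * b)) := by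
      rw [h1', smul_sub, h5]
      abel
    rw [hv a, hv b, hv (a * b), l02_smul, ← map_add, ← map_sub, ← sub_eq_zero, ← map_sub,
      pr0_eq_zero] at h6
    obtain ⟨c, hc⟩ := h6
    refine ⟨c, ?_⟩
    apply PadicInt.ext
    have e2 : ((2 : ℤ_[2]) : ℚ_[2]) = 2 := rfl
    simp only [PA.dd]
    rw [PadicInt.coe_mul, PadicInt.coe_pow, e2, hc]
    push_cast
    have := l02_two k
    field_simp

theorem be_of_inv (L : LocD.{v} SD χ inv) {f : D → D → ℚ_[2]} (hf : KP.ZE SD χ f)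
    (h : ∀ k : ℕ, inv (fun a b => pr0 (f a b / 2 ^ k)) = 0) : KP.BE SD χ f := by
  obtain ⟨c, F, hF, hc⟩ := KP.QTwoAux.clear hf
  obtain ⟨X, hX⟩ := L.gens
  have hB : KP.B2 SD χ F := by
    refine KP.b2_of_forall L.char hX hF fun k => l02_cob L k hF ?_
    have hZE : KP.ZE SD χ (fun a b => f a b / 2 ^ k) := by
      have := ZE_mul ((2 : ℚ_[2]) ^ k)⁻¹ hf
      simpa only [div_eq_inv_mul] using this
    have h1 := (l02_nsmul L (l02_Q L.char hZE) (2 ^ c)).2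
    rw [h k, smul_zero] at h1
    rw [← h1]
    congr 1
    funext a b
    rw [← map_nsmul, ← hc a b, nsmul_eq_mul]
    congr 1
    push_cast
    ring
  have h2 := KP.QTwoAux.BE_mul ((2 : ℚ_[2]) ^ c)⁻¹ (KP.QTwoAux.B2.be hB)
  convert h2 using 3 with a b
  rw [← hc a b, ← mul_assoc, inv_mul_cancel₀ (l02_two c), one_mul]

theorem be_E (L : LocD.{v} SD χ inv) {f : D → D → E} (hf : KP.ZE SD χ f)
    (h : ∀ φ : E →ₗ[ℚ_[2]] ℚ_[2], inv (fun a b => pr0 (φ (f a b))) = 0) : KP.BE SD χ f := by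
  classical
  let e := Module.finBasis ℚ_[2] E
  let φ : Fin (Module.finrank ℚ_[2] E) → (E →L[ℚ_[2]] ℚ_[2]) :=
    fun i => LinearMap.toContinuousLinearMap (e.coord i)
  have hφ : ∀ i x, φ i x = e.repr x i := fun i x => rfl
  have hrep : ∀ x : E, ∑ i, φ i x • e i = x := by
    intro x
    simp only [hφ]
    exact e.sum_repr x
  have hB : ∀ i, KP.BE SD χ (fun g h => φ i (f g h)) := by
    intro i
    refine be_of_inv L (ZE_comp (φ i) hf) fun k => ?_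
    have h1 := h (((2 : ℚ_[2]) ^ k)⁻¹ • e.coord i)
    rw [← h1]
    congr 1
    funext a b
    congr 1
    show e.coord i (f a b) / 2 ^ k = ((2 : ℚ_[2]) ^ k)⁻¹ • e.coord i (f a b)
    rw [smul_eq_mul, div_eq_inv_mul]
  choose z hz hfz using hB
  let M : Fin (Module.finrank ℚ_[2] E) → (ℚ_[2] →L[ℚ_[2]] E) :=
    fun i => ContinuousLinearMap.smulRight (ContinuousLinearMap.id ℚ_[2] ℚ_[2]) (e i)
  have hL : ∀ i c, M i c = c • e i := fun i c => rfl
  refine ⟨fun g => ∑ i, M i (z i g), N1_sum _ _ fun i => N1_comp (M i) (hz i), ?_⟩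
  funext g k
  have h2 : ∀ i, φ i (f g k) = PA.dE χ (z i) g k := fun i => congrFun (congrFun (hfz i) g) k
  rw [← hrep (f g k)]
  simp only [PA.dE, toE_mul, Finset.smul_sum, ← Finset.sum_add_distrib, ← Finset.sum_sub_distrib]
  refine Finset.sum_congr rfl fun i _ => ?_
  rw [h2 i, PA.dE, hL, hL, hL, toE_mul, sub_smul, add_smul, smul_smul, smul_eq_mul]

end Pool.Agent.Work.MP_787500_nt.KR
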