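import Mathlib
import Pool.Agent.Work.MP_787500_nt.KR.L09
import Pool.Agent.Work.MP_787500_nt.GP.F01_Card
import Pool.Agent.Work.MP_787500_nt.KR.PDefs
import Pool.Agent.Work.MP_787500_nt.KR.T17a

/-!
# Module L10_DIV (size L): divisibility of the annihilators

`RN N y`: `y` is a cocycle for `ρ'` with values in `MN T l N`, orthogonal to `lamN T l N L`.
Given `RN N y`.
Step 1. Choose `y₀ : D → MN T l (N + 1)` smooth with `l • y₀ = y` (`MN_lift`, compose `y` with a section).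
`F = d1 (actN ρ') y₀` has values in the elements killed by `l` (`l • F = d1 y = 0`); let `F₁ : D → D → MN T l 1`
be `F`. `F₁ ∈ Z2`. By `local_two` for the pair `(MN T l 1, ρ, ρ')` it is a coboundary if
`inv (cup02 (bN 1) z F₁) = 0` for all `z` fixed by `ρ`. Let `z' ∈ MN T l (N + 1)` with `l ^ N z' = z`
(`MN_lift_pow`). By `bN_one`, `cup02 (bN 1) z F₁ = cup02 (bN (N + 1)) z' F`, which by `leib01` is
`d1 (cup01 z' y₀) - cup11 (d0 z') y₀`. `d0 z'` is killed by `l ^ N` (`l ^ N d0 z' = d0 z = 0`); let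
`x : D → MN T l N` be `d0 z'`; by `bN_succ`, `cup11 (bN (N + 1)) (d0 z') y₀ = cup11 (bN N) x y`. And `x` is in
`lamN T l N L`: it is `mq` of the coboundary `ρ v - v`, `v = lft z'`, which is in `L` (`hL0`). So its invariant
is 0 (`RN`), and `LocH.cob`, `LocH.add` give the claim. So `F₁ = d1 u`, `y₁ = y₀ - u` is a cocycle at level
`N + 1` with `l y₁ = y`.
Step 2. Let `A`, `A'` be the (finite, `finite_z1`) groups of cocycles with values in `MN T l 1` for `ρ`, `ρ'`,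
`β (x, u) = inv (cup11 (bN 1) x u)`. On the subgroup `Λ₁ = lamN T l 1 L` of `A` define
`f x₁ = inv (cup11 (bN (N + 1)) x y₁)` where `x ∈ lamN T l (N + 1) L` is such that `l ^ N x = x₁` (if
`x₁ = mq ∘ X` take `x = mq ∘ (l ^ (-N) X)`); independent of the choice: if `l ^ N x = 0` then `x` is in
`lamN T l N L` (`x = mq ∘ X` with `X ∈ L`) and `cup11 (bN (N + 1)) x y₁ = cup11 (bN N) x y` (`bN_succ`) has
invariant 0. It is additive. Extend `f` to `A` by `ext_hom`. It vanishes on the left kernel of `β`, which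
consists of coboundaries `d0 m` (`local_one`), `m ∈ MN T l 1`: `m = l ^ N m'`, `x = d0 m'` is in
`lamN T l (N + 1) L` and `inv (cup11 (d0 m') y₁) = 0` (`leib01`, `y₁` a cocycle, `LocH.cob`). By `exists_rep`
there is `u ∈ A'` with `β (x₁, u) = f x₁` for all `x₁ ∈ Λ₁`. Let `y' = y₁ - u` (`u` with values in
`MN T l 1 ≤ MN T l (N + 1)`): `l y' = y`; for `x ∈ lamN T l (N + 1) L`, `cup11 (bN (N + 1)) x u =
cup11 (bN 1) (l ^ N x) u` (`bN_one`), so `inv (cup11 x y') = f (l ^ N x) - β (l ^ N x, u) = 0`.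
-/

set_option autoImplicit false
set_option linter.unusedSectionVars false

namespace Pool.Agent.Work.MP_787500_nt.KR

open Pool.Agent.Work.MP_787500_nt.GP

open Matrix
open Pool.Agent.Work.MP_787500_nt.PA (toE)

universe v

variable {E : Type v} [NormedField E] [NormedAlgebra ℚ_[2] E] [FiniteDimensional ℚ_[2] E] {n : ℕ}
  {b : Matrix (Fin n) (Fin n) E} {l : OE E} {t : E →ₗ[ℚ_[2]] ℚ_[2]}
  {T : Submodule (OE E) (Fin n → E)}

variable {D : Type*} [Group D] {SD : FSys D} {χ : D → ℤ_[2]} {inv : (D → D → A0) → A0}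
  {ρ ρ' : D → Matrix (Fin n) (Fin n) E}

/-- the 1-cocycles as an additive group -/
private def l10_z {X : Type*} [Group X] {M : Type*} [AddCommGroup M] (S : FSys X)
    {σ : X → M → M} (hact : IsAct σ) : AddSubgroup (X → M) where
  carrier := {x | Z1 S σ x}
  add_mem' := fun h h' => Z1.add hact h h'
  zero_mem' := by
    refine ⟨?_, fun a b => ?_⟩
    · obtain ⟨W, hW⟩ := S.ex
      exact ⟨W, hW, fun _ _ _ => rfl⟩
    · simp [hact.zero]
  neg_mem' := fun h => Z1.neg hact h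

private theorem l10_add_left {M M' : Type*} [AddCommGroup M] [AddCommGroup M']
    {σ : D → M → M} {σ' : D → M' → M'} {B : M →+ M' →+ A0} (H : LocD.{v} SD χ inv)
    (hp : Pair SD χ σ σ' B) {x x' : D → M} {y : D → M'} (hx : Z1 SD σ x) (hx' : Z1 SD σ x')
    (hy : Z1 SD σ' y) :
    inv (cup11 σ' B (x + x') y) = inv (cup11 σ' B x y) + inv (cup11 σ' B x' y) := by
  rw [← H.add _ _ (cup11_Z2 hp hx hy) (cup11_Z2 hp hx' hy)]
  congr 1
  funext a b
  simp only [cup11, Pi.add_apply, map_add, AddMonoidHom.add_apply]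

private theorem l10_add_right {M M' : Type*} [AddCommGroup M] [AddCommGroup M']
    {σ : D → M → M} {σ' : D → M' → M'} {B : M →+ M' →+ A0} (H : LocD.{v} SD χ inv)
    (hp : Pair SD χ σ σ' B) {x : D → M} {y y' : D → M'} (hx : Z1 SD σ x) (hy : Z1 SD σ' y)
    (hy' : Z1 SD σ' y') :
    inv (cup11 σ' B x (y + y')) = inv (cup11 σ' B x y) + inv (cup11 σ' B x y') := by
  rw [← H.add _ _ (cup11_Z2 hp hx hy) (cup11_Z2 hp hx hy')]
  congr 1
  funext a b
  simp only [cup11, Pi.add_apply, map_add, hp.act'.add]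

/-- the cup product pairing on cocycles -/
private noncomputable def l10_beta {M M' : Type*} [AddCommGroup M] [AddCommGroup M']
    {σ : D → M → M} {σ' : D → M' → M'} {B : M →+ M' →+ A0} (H : LocD.{v} SD χ inv)
    (hp : Pair SD χ σ σ' B) : l10_z SD hp.act →+ l10_z SD hp.act' →+ A0 :=
  AddMonoidHom.mk' (fun x => AddMonoidHom.mk' (fun y => inv (cup11 σ' B x.1 y.1))
    (fun y y' => l10_add_right H hp x.2 y.2 y'.2))
    (fun x x' => by
      ext y
      exact l10_add_left H hp x.2 x'.2 y.2)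

private theorem l10_factor {P Q : Type*} [AddCommGroup P] [AddCommGroup Q] (π : P →+ Q)
    (Φ : P →+ A0) (hk : ∀ x, π x = 0 → Φ x = 0) : ∃ g : Q →+ A0, ∀ x, g (π x) = Φ x := by
  choose s hs using fun q : π.range => q.2
  have hval : ∀ (q : π.range) (x : P), π x = q → Φ (s q) = Φ x := by
    intro q x hx
    rw [← sub_eq_zero, ← map_sub]
    refine hk _ ?_
    rw [map_sub, hs, hx, sub_self]
  obtain ⟨g, hg⟩ := ext_hom π.range (AddMonoidHom.mk' (fun q => Φ (s q)) (fun q q' => by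
    rw [← map_add]
    refine hval _ _ ?_
    rw [map_add, hs, hs]
    rfl))
  refine ⟨g, fun x => ?_⟩
  rw [hg ⟨π x, ⟨x, rfl⟩⟩]
  exact hval _ _ rfl

private theorem l10_actQ_add {A : Matrix (Fin n) (Fin n) E} (hA : ∀ x ∈ T, A *ᵥ x ∈ T)
    (p q : Wq T) : actQ T A (p + q) = actQ T A p + actQ T A q := by
  rw [← mq_lft p, ← mq_lft q, ← mq_add, actQ_mq hA, actQ_mq hA, actQ_mq hA, mulVec_add, mq_add]

private theorem l10_actQ_smul {A : Matrix (Fin n) (Fin n) E} (hA : ∀ x ∈ T, A *ᵥ x ∈ T)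
    (a : OE E) (q : Wq T) : actQ T A (a • q) = a • actQ T A q := by
  rw [← mq_lft q, ← mq_smul, actQ_mq hA, actQ_mq hA, mulVec_smul, mq_smul]

private theorem l10_actQ_sub {A : Matrix (Fin n) (Fin n) E} (hA : ∀ x ∈ T, A *ᵥ x ∈ T)
    (p q : Wq T) : actQ T A (p - q) = actQ T A p - actQ T A q := by
  rw [← mq_lft p, ← mq_lft q, ← mq_sub, actQ_mq hA, actQ_mq hA, actQ_mq hA, mulVec_sub, mq_sub]

private theorem l10_one (m : MN T l 1) : l • (m : Wq T) = 0 := by
  have h1 := m.mem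
  have e : l ^ 1 • (m : Wq T) = l • (m : Wq T) :=
    congrArg (fun a : OE E => a • (m : Wq T)) (pow_one l)
  exact e.symm.trans h1

/-- the inclusion of level 1 -/
private def l10_inc (T : Submodule (OE E) (Fin n → E)) (l : OE E) (N : ℕ) (m : MN T l 1) :
    MN T l (N + 1) :=
  ⟨m, by
    rw [Submodule.mem_torsionBy_iff, pow_succ, mul_smul, l10_one m, smul_zero]⟩

private theorem l10_inc_coe (N : ℕ) (m : MN T l 1) : (l10_inc T l N m : Wq T) = m := rfl

/-- an element of the quotient killed by `l ^ N` -/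
private def l10_mk (T : Submodule (OE E) (Fin n → E)) (l : OE E) (N : ℕ) (q : Wq T)
    (h : l ^ N • q = 0) : MN T l N :=
  ⟨q, by rwa [Submodule.mem_torsionBy_iff]⟩

private theorem l10_mk_coe (N : ℕ) (q : Wq T) (h : l ^ N • q = 0) :
    (l10_mk T l N q h : Wq T) = q := rfl

/-- cocycles at level `N` orthogonal to `lamN T l N L` -/
def RN (inv : (D → D → A0) → A0) (h : Lat b l t T) (hr : LocRep SD χ T b ρ ρ')
    (L : Submodule E (D → Fin n → E)) (N : ℕ) (y : D → MN T l N) : Prop :=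
  Z1 SD (actN l N ρ' hr.st') y ∧
    ∀ x ∈ lamN T l N L, inv (cup11 (actN l N ρ' hr.st') (bN h N) x y) = 0

private theorem l10_lam_z1 (h : Lat b l t T) (hr : LocRep SD χ T b ρ ρ')
    {L : Submodule E (D → Fin n → E)} (hL : ∀ X ∈ L, ZV SD ρ X) {N : ℕ} {x : D → MN T l N}
    (hx : x ∈ lamN T l N L) : Z1 SD (actN l N ρ hr.st) x := by
  obtain ⟨X, hX, h1⟩ := hx
  exact zv_level h hr N (hL X hX) h1

/-- if `l ^ N x = 0` then the invariant of `x ∪ y₁` is zero -/
private theorem l10_key (h : Lat b l t T) (hr : LocRep SD χ T b ρ ρ')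
    {L : Submodule E (D → Fin n → E)} {N : ℕ} {y : D → MN T l N} (hy : RN inv h hr L N y)
    {y₁ : D → MN T l (N + 1)} (hly : ∀ d, l • (y₁ d : Wq T) = y d)
    {x : D → MN T l (N + 1)} (hx : ∃ X ∈ L, ∀ d, (x d : Wq T) = mq T (X d))
    (h0 : ∀ d, l ^ N • (x d : Wq T) = 0) :
    ∃ x' : D → MN T l N, x' ∈ lamN T l N L ∧ (∀ d, (x' d : Wq T) = x d) ∧
      cup11 (actN l (N + 1) ρ' hr.st') (bN h (N + 1)) x y₁ =
        cup11 (actN l N ρ' hr.st') (bN h N) x' y := by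
  obtain ⟨X, hX, h1⟩ := hx
  refine ⟨fun d => l10_mk T l N (x d) (h0 d), ⟨X, hX, h1⟩, fun d => rfl, ?_⟩
  funext s u
  refine bN_succ h N _ _ _ _ rfl ?_
  rw [coe_actN, coe_actN, ← l10_actQ_smul (hr.st' s), hly]

private theorem l10_cob_mem (hr : LocRep SD χ T b ρ ρ')
    {L : Submodule E (D → Fin n → E)} (hL0 : ∀ v, (fun d => ρ d *ᵥ v - v) ∈ L) {N : ℕ}
    (m : MN T l N) : d0 (actN l N ρ hr.st) m ∈ lamN T l N L := by
  refine ⟨_, hL0 (lft (m : Wq T)), fun d => ?_⟩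
  show ((actN l N ρ hr.st d m - m : MN T l N) : Wq T) = _
  rw [mq_sub, mq_lft]
  rfl

theorem rn_lift (H : LocD.{v} SD χ inv) (h : Lat b l t T) (hr : LocRep SD χ T b ρ ρ')
    {L : Submodule E (D → Fin n → E)} (hL : ∀ X ∈ L, ZV SD ρ X)
    (hL0 : ∀ v, (fun d => ρ d *ᵥ v - v) ∈ L) {N : ℕ} {y : D → MN T l N} (hy : RN inv h hr L N y) :
    ∃ y₁ : D → MN T l (N + 1), Z1 SD (actN l (N + 1) ρ' hr.st') y₁ ∧
      ∀ d, l • (y₁ d : Wq T) = y d := by
  have := MN_finite h 1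
  have hp := pair_MN h hr N
  have hp1 := pair_MN h hr (N + 1)
  have hq := pair_MN h hr 1
  choose sec hsec using MN_lift h N
  obtain ⟨W0, hW0, hsm0⟩ := hy.1.1
  set y₀ : D → MN T l (N + 1) := fun d => sec (y d) with hy₀
  have hy₀s : Sm1 SD y₀ := ⟨W0, hW0, fun g w hw => by
    show sec (y (g * w)) = sec (y g)
    rw [hsm0 g w hw]⟩
  have hl₀ : ∀ d, l • (y₀ d : Wq T) = y d := fun d => hsec (y d)
  set F := d1 (actN l (N + 1) ρ' hr.st') y₀ with hF
  have hFZ : Z2 SD (actN l (N + 1) ρ' hr.st') F := d1_Z2 hp1.act' hp1.sm' hy₀s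
  have hFc : ∀ s u, (F s u : Wq T) = y₀ s + actQ T (ρ' s) (y₀ u) - y₀ (s * u) := fun s u => rfl
  have hFl : ∀ s u, l ^ 1 • (F s u : Wq T) = 0 := by
    intro s u
    rw [hFc, pow_one, smul_sub, smul_add, ← l10_actQ_smul (hr.st' s), hl₀, hl₀, hl₀, hy.1.2,
      Submodule.coe_add, coe_actN, sub_self]
  set F₁ : D → D → MN T l 1 := fun s u => l10_mk T l 1 (F s u) (hFl s u) with hF₁
  have hF₁c : ∀ s u, (F₁ s u : Wq T) = F s u := fun s u => rfl
  have hF₁Z : Z2 SD (actN l 1 ρ' hr.st') F₁ := by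
    constructor
    · obtain ⟨W, hW, h1⟩ := hFZ.1
      refine ⟨W, hW, fun g k w hw w' hw' => Subtype.ext ?_⟩
      rw [hF₁c, hF₁c, h1 g k w hw w' hw']
    · intro a c e
      have h1 := congrArg (fun m : MN T l (N + 1) => (m : Wq T)) (hFZ.2 a c e)
      refine Subtype.ext ?_
      exact h1
  have hcob : B2 SD (actN l 1 ρ' hr.st') F₁ := by
    refine local_two H hq hF₁Z fun z hz => ?_
    obtain ⟨z', hz'⟩ := MN_lift_pow h N 1 z
    have e1 : cup02 (bN h 1) z F₁ = cup02 (bN h (N + 1)) z' F := by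
      funext s u
      exact (bN_one h N z' (F s u) z (F₁ s u) hz'.symm (hF₁c s u)).symm
    have hx0 : ∀ d, l ^ N • ((d0 (actN l (N + 1) ρ hr.st) z' d : MN T l (N + 1)) : Wq T) = 0 := by
      intro d
      have h1 : ((d0 (actN l (N + 1) ρ hr.st) z' d : MN T l (N + 1)) : Wq T) =
        actQ T (ρ d) z' - z' := rfl
      have h2 : (actN l 1 ρ hr.st d z : Wq T) = z := by rw [hz d]
      rw [coe_actN, ← hz', l10_actQ_smul (hr.st d)] at h2
      rw [h1, smul_sub, h2, sub_self]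
    obtain ⟨x', hx', -, e2⟩ := l10_key h hr hy hl₀ (l10_cob_mem hr hL0 z') hx0
    have hz2 := cup11_Z2 hp (l10_lam_z1 h hr hL hx') hy.1
    have e3 : (fun a c => cup11 (actN l N ρ' hr.st') (bN h N) x' y a c +
        cup02 (bN h 1) z F₁ a c) = d1 (tw χ) (cup01 (bN h (N + 1)) z' y₀) := by
      funext a c
      rw [leib01 hp1.eqv, e1, ← e2]
    have hz3 : Z2 SD (tw χ) (cup02 (bN h 1) z F₁) := by
      refine ⟨cup02_sm hF₁Z.1, fun a c e => ?_⟩
      rw [leib02 hq.eqv, hF₁Z.2 a c e, map_zero, add_zero]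
      have : d0 (actN l 1 ρ hr.st) z = fun _ => 0 := by
        funext d
        simp only [d0, hz d, sub_self]
      rw [this]
      simp [cup12]
    have h5 := H.add _ _ hz2 hz3
    rw [e3, H.cob _ (cup01_sm hy₀s), hy.2 x' hx', zero_add] at h5
    exact h5.symm
  obtain ⟨u, hu, hFu⟩ := hcob
  refine ⟨fun d => y₀ d - l10_inc T l N (u d), ⟨?_, fun s v => ?_⟩, fun d => ?_⟩
  · obtain ⟨W, hW, h1⟩ := hy₀s
    obtain ⟨W', hW', h1'⟩ := hu
    refine ⟨W ⊓ W', SD.inf hW hW', fun g w hw => ?_⟩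
    beta_reduce
    rw [h1 g w hw.1, h1' g w hw.2]
  · have h1 : (F₁ s v : Wq T) = u s + actQ T (ρ' s) (u v) - u (s * v) := by
      rw [hFu]
      rfl
    rw [hF₁c, hFc] at h1
    refine Subtype.ext ?_
    show (y₀ (s * v) : Wq T) - u (s * v) = (y₀ s : Wq T) - u s +
      actQ T (ρ' s) ((y₀ v : Wq T) - u v)
    rw [l10_actQ_sub (hr.st' s)]
    have h2 : (y₀ s : Wq T) - u s + (actQ T (ρ' s) (y₀ v) - actQ T (ρ' s) (u v)) -
        ((y₀ (s * v) : Wq T) - u (s * v)) =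
        ((y₀ s : Wq T) + actQ T (ρ' s) (y₀ v) - y₀ (s * v)) -
        (u s + actQ T (ρ' s) (u v) - u (s * v)) := by abel
    rw [h1, sub_self] at h2
    exact (sub_eq_zero.1 h2).symm
  · show l • ((y₀ d : Wq T) - u d) = y d
    rw [smul_sub, hl₀, l10_one (u d), sub_zero]

theorem rn_div (H : LocD.{v} SD χ inv) (h : Lat b l t T) (hr : LocRep SD χ T b ρ ρ')
    {L : Submodule E (D → Fin n → E)} (hL : ∀ X ∈ L, ZV SD ρ X)
    (hL0 : ∀ v, (fun d => ρ d *ᵥ v - v) ∈ L) {N : ℕ} {y : D → MN T l N} (hy : RN inv h hr L N y) :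
    ∃ y' : D → MN T l (N + 1), RN inv h hr L (N + 1) y' ∧ ∀ d, l • (y' d : Wq T) = y d := by
  have := MN_finite h 1
  have hp := pair_MN h hr N
  have hp1 := pair_MN h hr (N + 1)
  have hq := pair_MN h hr 1
  obtain ⟨y₁, hy₁, hly⟩ := rn_lift H h hr hL hL0 hy
  have hf1 : Finite (l10_z SD hq.act) := (H.ld hq).fin
  have hf2 : Finite (l10_z SD hq.act') := (H.ld hq).fin'
  -- the functional on the local condition at level `N + 1`
  let Φ : lamN T l (N + 1) L →+ A0 := AddMonoidHom.mk'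
    (fun x => inv (cup11 (actN l (N + 1) ρ' hr.st') (bN h (N + 1)) x.1 y₁))
    (fun x x' => l10_add_left H hp1 (l10_lam_z1 h hr hL x.2) (l10_lam_z1 h hr hL x'.2) hy₁)
  have hkill : ∀ (x : D → MN T l (N + 1)) d, l ^ 1 • (l ^ N • (x d : Wq T)) = 0 := by
    intro x d
    rw [← mul_smul, ← pow_add, add_comm 1 N]
    exact (x d).mem
  have hmem : ∀ x ∈ lamN T l (N + 1) L,
      (fun d => l10_mk T l 1 (l ^ N • (x d : Wq T)) (hkill x d)) ∈ lamN T l 1 L := by
    rintro x ⟨X, hX, h1⟩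
    refine ⟨((l : E) ^ N) • X, L.smul_mem _ hX, fun d => ?_⟩
    rw [l10_mk_coe, h1, ← mq_smul]
    rfl
  let π : lamN T l (N + 1) L →+ l10_z SD hq.act := AddMonoidHom.mk'
    (fun x => ⟨fun d => l10_mk T l 1 (l ^ N • (x.1 d : Wq T)) (hkill x.1 d),
      l10_lam_z1 h hr hL (hmem x.1 x.2)⟩)
    (fun x x' => by
      refine Subtype.ext (funext fun d => Subtype.ext ?_)
      show l ^ N • ((x.1 d : Wq T) + (x'.1 d : Wq T)) = l ^ N • (x.1 d : Wq T) +
        l ^ N • (x'.1 d : Wq T)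
      rw [smul_add])
  have hπ : ∀ (x : lamN T l (N + 1) L) d, ((π x).1 d : Wq T) = l ^ N • (x.1 d : Wq T) :=
    fun x d => rfl
  have hker : ∀ x, π x = 0 → Φ x = 0 := by
    intro x hx
    have h0 : ∀ d, l ^ N • (x.1 d : Wq T) = 0 := by
      intro d
      rw [← hπ, hx]
      rfl
    obtain ⟨x', hx', -, e⟩ := l10_key h hr hy hly x.2 h0
    show inv (cup11 (actN l (N + 1) ρ' hr.st') (bN h (N + 1)) x.1 y₁) = 0
    rw [e]
    exact hy.2 x' hx'
  obtain ⟨f, hf⟩ := l10_factor π Φ hker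
  have hleft : ∀ a, (∀ a', l10_beta H hq a a' = 0) → f a = 0 := by
    intro a ha
    obtain ⟨m, hm⟩ := local_one H hq a.2 fun u hu => ha ⟨u, hu⟩
    obtain ⟨m', hm'⟩ := MN_lift_pow h N 1 m
    have hx := l10_cob_mem hr hL0 m'
    have e : π ⟨_, hx⟩ = a := by
      refine Subtype.ext ?_
      rw [hm]
      funext d
      refine Subtype.ext ?_
      rw [hπ]
      show l ^ N • (actQ T (ρ d) m' - m') = actQ T (ρ d) m - m
      rw [smul_sub, ← l10_actQ_smul (hr.st d), hm']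
    rw [← e, hf]
    show inv (cup11 (actN l (N + 1) ρ' hr.st') (bN h (N + 1)) (d0 (actN l (N + 1) ρ hr.st) m') y₁)
      = 0
    rw [← H.cob (cup01 (bN h (N + 1)) m' y₁) (cup01_sm hy₁.1)]
    congr 1
    funext s v
    rw [leib01 hp1.eqv]
    have h1 : d1 (actN l (N + 1) ρ' hr.st') y₁ s v = 0 := by simp only [d1, hy₁.2 s v, sub_self]
    simp only [cup02, h1, map_zero, add_zero]
  obtain ⟨u, hu⟩ := exists_rep (l10_beta H hq) f hleft
  have hiu : Z1 SD (actN l (N + 1) ρ' hr.st') (fun d => l10_inc T l N (u.1 d)) := by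
    obtain ⟨⟨W, hW, h1⟩, h2⟩ := u.2
    refine ⟨⟨W, hW, fun g w hw => ?_⟩, fun s v => Subtype.ext ?_⟩
    · beta_reduce
      rw [h1 g w hw]
    · have h3 := congrArg (fun m : MN T l 1 => (m : Wq T)) (h2 s v)
      exact h3
  have hy' : Z1 SD (actN l (N + 1) ρ' hr.st') (fun d => y₁ d - l10_inc T l N (u.1 d)) := by
    have h1 := Z1.add hp1.act' hy₁ (Z1.neg hp1.act' hiu)
    simpa only [← sub_eq_add_neg] using h1
  refine ⟨fun d => y₁ d - l10_inc T l N (u.1 d), ⟨hy', fun x hx => ?_⟩, fun d => ?_⟩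
  · have hx1 := l10_lam_z1 h hr hL hx
    have h1 := l10_add_right H hp1 hx1 hy' hiu
    have e1 : (fun d => y₁ d - l10_inc T l N (u.1 d)) + (fun d => l10_inc T l N (u.1 d)) = y₁ := by
      funext d
      simp
    have e2 : cup11 (actN l (N + 1) ρ' hr.st') (bN h (N + 1)) x (fun d => l10_inc T l N (u.1 d)) =
        cup11 (actN l 1 ρ' hr.st') (bN h 1) (π ⟨x, hx⟩).1 u.1 := by
      funext s v
      exact bN_one h N _ _ _ _ (hπ ⟨x, hx⟩ s) rfl
    have h2 := hu (π ⟨x, hx⟩)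
    rw [hf] at h2
    have h3 : inv (cup11 (actN l 1 ρ' hr.st') (bN h 1) (π ⟨x, hx⟩).1 u.1) =
      inv (cup11 (actN l (N + 1) ρ' hr.st') (bN h (N + 1)) x y₁) := h2
    rw [e1, e2, h3] at h1
    exact (right_eq_add.1 h1)
  · show l • ((y₁ d : Wq T) - u.1 d) = y d
    rw [smul_sub, hly, l10_one (u.1 d), sub_zero]

end Pool.Agent.Work.MP_787500_nt.KR
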