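import Mathlib
import Pool.Agent.Work.MP_787500_nt.KR.LDefs
import Pool.Agent.Work.MP_787500_nt.GP.L03_Ring

/-!
# Module L11_SEQ (size M): coherent sequences

`Y d = lim l ^ k lft (y k d)`: `l ^ (k + 1) lft (y (k + 1) d) - l ^ k lft (y k d) = l ^ k τ` with
`τ = l lft (y (k + 1) d) - lft (y k d) ∈ T` (`mq τ = l • y (k + 1) d - y k d = 0`), `T` bounded, `‖l‖ < 1`:
Cauchy, and `E ^ n` is complete (`FiniteDimensional.complete ℚ_[2] E`). `Y d - l ^ k lft (y k d) ∈ l ^ k T`
(`T` is closed: it is an open subgroup; the partial sums are in `l ^ k T`), so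
`mq (l ^ (-k) Y d) = y k d`. For every `k`, modulo `l ^ k T`:
`Y (s u) = l ^ k y k (s u)`, `= l ^ k (y k s + ρ s y k u)`, so
`Y (s u) - Y s - ρ s Y u ∈ l ^ k T` for all `k` (`ρ s` preserves `T`), hence 0 (`T` bounded). `N1`: for
`ε > 0` choose `k` with `l ^ k T` inside the ball of radius `ε`, and `W` for `y k` (smooth).
* `seq_unique`: if `mq (l ^ (-k) Y d) = 0` for all `k` then `Y d ∈ l ^ k T` for all `k`, so `Y d = 0`.
-/

set_option autoImplicit false
set_option linter.unusedSectionVars false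

namespace Pool.Agent.Work.MP_787500_nt.KR

open Pool.Agent.Work.MP_787500_nt.GP

open Matrix
open Pool.Agent.Work.MP_787500_nt.PA (toE)

variable {E : Type*} [NormedField E] [NormedAlgebra ℚ_[2] E] [FiniteDimensional ℚ_[2] E] {n : ℕ}
  {b : Matrix (Fin n) (Fin n) E} {l : OE E} {t : E →ₗ[ℚ_[2]] ℚ_[2]}
  {T : Submodule (OE E) (Fin n → E)}

variable {D : Type*} [Group D] {SD : FSys D} {ρ : D → Matrix (Fin n) (Fin n) E}

theorem seq_unique (h : Lat b l t T) {v : Fin n → E}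
    (hv : ∀ k : ℕ, mq T (((l : E) ^ k)⁻¹ • v) = 0) : v = 0 := by
  obtain ⟨R, hR⟩ := h.bdd
  have hl0 : 0 < ‖(l : E)‖ := norm_pos_iff.2 h.lne
  have h1 : ∀ k : ℕ, ‖v‖ ≤ ‖(l : E)‖ ^ k * R := by
    intro k
    have h2 := hR _ (mq_eq_zero.1 (hv k))
    rw [norm_smul, norm_inv, norm_pow, inv_mul_le_iff₀ (by positivity)] at h2
    exact h2
  have h3 : Filter.Tendsto (fun k : ℕ => ‖(l : E)‖ ^ k * R) Filter.atTop (nhds 0) := by
    have := (tendsto_pow_atTop_nhds_zero_of_lt_one hl0.le h.llt).mul_const R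
    rwa [zero_mul] at this
  have h4 : ‖v‖ ≤ 0 := ge_of_tendsto' h3 h1
  exact norm_le_zero_iff.1 h4

theorem seq_lim (h : Lat b l t T) (hst : ∀ d, ∀ x ∈ T, ρ d *ᵥ x ∈ T)
    (y : ℕ → D → Wq T) (hy : ∀ k, Z1 SD (fun d => actQ T (ρ d)) (y k))
    (hl : ∀ k d, l • y (k + 1) d = y k d) :
    ∃ Y : D → Fin n → E, ZV SD ρ Y ∧ ∀ k d, mq T (((l : E) ^ k)⁻¹ • Y d) = y k d := by
  have hproper : ProperSpace E := FiniteDimensional.proper ℚ_[2] E
  obtain ⟨R, hR⟩ := h.bdd
  have hl0 : 0 < ‖(l : E)‖ := norm_pos_iff.2 h.lne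
  have hR0 : 0 ≤ R := (norm_nonneg _).trans (hR 0 T.zero_mem)
  have hlk : ∀ k : ℕ, (l : E) ^ k ≠ 0 := fun k => pow_ne_zero _ h.lne
  -- the increments
  have hτ : ∀ k d, (l : E) • lft (y (k + 1) d) - lft (y k d) ∈ T := by
    intro k d
    rw [← mq_eq, mq_smul, mq_lft, mq_lft, hl]
  have hinc : ∀ k d, (l : E) ^ (k + 1) • lft (y (k + 1) d) - (l : E) ^ k • lft (y k d) =
      (l : E) ^ k • ((l : E) • lft (y (k + 1) d) - lft (y k d)) := by
    intro k d
    rw [smul_sub, smul_smul, pow_succ]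
  have hc : ∀ d, ∃ Yd, Filter.Tendsto (fun k => (l : E) ^ k • lft (y k d)) Filter.atTop
      (nhds Yd) := by
    intro d
    refine cauchySeq_tendsto_of_complete (cauchySeq_of_le_geometric ‖(l : E)‖ R h.llt fun k => ?_)
    rw [dist_comm, dist_eq_norm, hinc, norm_smul, norm_pow, mul_comm]
    exact mul_le_mul_of_nonneg_right (hR _ (hτ k d)) (by positivity)
  choose Y hY using hc
  have hdiff : ∀ k j d, ((l : E) ^ k)⁻¹ • ((l : E) ^ (k + j) • lft (y (k + j) d)) - lft (y k d) ∈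
      T := by
    intro k j d
    induction j with
    | zero =>
      rw [add_zero, smul_smul, inv_mul_cancel₀ (hlk k), one_smul, sub_self]
      exact T.zero_mem
    | succ j ih =>
      have e : ((l : E) ^ k)⁻¹ • ((l : E) ^ (k + (j + 1)) • lft (y (k + (j + 1)) d)) -
          lft (y k d) = (((l : E) ^ k)⁻¹ • ((l : E) ^ (k + j) • lft (y (k + j) d)) -
          lft (y k d)) + (l : E) ^ j • ((l : E) • lft (y (k + j + 1) d) - lft (y (k + j) d)) := by
        have e1 : (l : E) ^ (k + (j + 1)) • lft (y (k + (j + 1)) d) =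
            (l : E) ^ (k + j) • lft (y (k + j) d) +
            (l : E) ^ (k + j) • ((l : E) • lft (y (k + j + 1) d) - lft (y (k + j) d)) := by
          rw [← hinc, ← add_assoc k j 1]
          abel
        rw [e1, smul_add, smul_smul _ ((l : E) ^ (k + j)) ((l : E) • lft (y (k + j + 1) d) -
          lft (y (k + j) d)), pow_add, inv_mul_cancel_left₀ (hlk k)]
        abel
      rw [e]
      refine T.add_mem ih ?_
      have := T.smul_mem (l ^ j) (hτ (k + j) d)
      exact this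
  have hmq : ∀ k d, mq T (((l : E) ^ k)⁻¹ • Y d) = y k d := by
    intro k d
    obtain ⟨r, hr, hT⟩ := h.opn
    have h1 : Filter.Tendsto (fun j => ((l : E) ^ k)⁻¹ • (Y d - (l : E) ^ (k + j) •
        lft (y (k + j) d))) Filter.atTop (nhds 0) := by
      have h2 : Filter.Tendsto (fun j => (l : E) ^ (k + j) • lft (y (k + j) d)) Filter.atTop
          (nhds (Y d)) := by
        have := (Filter.tendsto_add_atTop_iff_nat k).2 (hY d)
        simpa only [add_comm] using this
      have h3 := (h2.const_sub (Y d)).const_smul (((l : E) ^ k)⁻¹)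
      rwa [sub_self, smul_zero] at h3
    obtain ⟨j, hj⟩ := ((h1.norm.eventually_lt_const (by rwa [norm_zero])).and
      (Filter.eventually_ge_atTop 0)).exists
    rw [← mq_lft (y k d), mq_eq]
    have e : ((l : E) ^ k)⁻¹ • Y d - lft (y k d) =
        ((l : E) ^ k)⁻¹ • (Y d - (l : E) ^ (k + j) • lft (y (k + j) d)) +
        (((l : E) ^ k)⁻¹ • ((l : E) ^ (k + j) • lft (y (k + j) d)) - lft (y k d)) := by
      rw [smul_sub]
      abel
    rw [e]
    exact T.add_mem (hT _ hj.1) (hdiff k j d)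
  refine ⟨Y, ⟨?_, fun s u => ?_⟩, hmq⟩
  · intro ε hε
    have h3 : Filter.Tendsto (fun k : ℕ => ‖(l : E)‖ ^ k * R) Filter.atTop (nhds 0) := by
      have := (tendsto_pow_atTop_nhds_zero_of_lt_one hl0.le h.llt).mul_const R
      rwa [zero_mul] at this
    obtain ⟨k, hk⟩ := (h3.eventually_lt_const hε).exists
    obtain ⟨W, hW, h1⟩ := (hy k).1
    refine ⟨W, hW, fun g w hw => ?_⟩
    have h2 : ((l : E) ^ k)⁻¹ • Y (g * w) - ((l : E) ^ k)⁻¹ • Y g ∈ T := by
      rw [← mq_eq, hmq, hmq, h1 g w hw]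
    rw [← smul_sub] at h2
    have h4 := hR _ h2
    rw [norm_smul, norm_inv, norm_pow, inv_mul_le_iff₀ (by positivity)] at h4
    exact h4.trans_lt hk
  · rw [← sub_eq_zero]
    refine seq_unique h fun k => ?_
    rw [smul_sub, mq_sub, smul_add, mq_add, hmq, hmq, ← mulVec_smul, ← actQ_mq (hst s), hmq,
      (hy k).2, sub_self]

end Pool.Agent.Work.MP_787500_nt.KR
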