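import Mathlib
import Pool.Agent.Work.MP_787500_nt.KR.LDefs
import Pool.Agent.Work.MP_787500_nt.KR.F10

/-!
Selmer groups with values in `E ^ n` and in `E ^ n` modulo a lattice: definitions (fixed, do not change).
-/

set_option autoImplicit false
set_option linter.unusedSectionVars false

namespace Pool.Agent.Work.MP_787500_nt.KR

open Pool.Agent.Work.MP_787500_nt.GP

open Matrix
open Pool.Agent.Work.MP_787500_nt.PA (toE)

variable {E : Type*} [NormedField E] [NormedAlgebra ℚ_[2] E] {n : ℕ}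

section one

variable {D : Type*} [Group D]

/-- the continuous cocycles with values in `E ^ n`, as a vector space -/
def zV (SD : FSys D) (σ : D → Matrix (Fin n) (Fin n) E) : Submodule E (D → Fin n → E) where
  carrier := {X | ZV SD σ X}
  add_mem' := by
    rintro X Y ⟨h1, h2⟩ ⟨h1', h2'⟩
    refine ⟨fun ε hε => ?_, fun g h => ?_⟩
    · obtain ⟨W, hW, hX⟩ := h1 (ε / 2) (half_pos hε)
      obtain ⟨W', hW', hY⟩ := h1' (ε / 2) (half_pos hε)
      refine ⟨W ⊓ W', SD.inf hW hW', fun g w hw => ?_⟩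
      have h3 : (X + Y) (g * w) - (X + Y) g = (X (g * w) - X g) + (Y (g * w) - Y g) := by
        simp only [Pi.add_apply]
        abel
      rw [h3]
      exact (norm_add_le _ _).trans_lt (by linarith [hX g w hw.1, hY g w hw.2])
    · simp only [Pi.add_apply, h2, h2', mulVec_add]
      abel
  zero_mem' := by
    refine ⟨fun ε hε => ?_, fun g h => by simp⟩
    obtain ⟨W, hW⟩ := SD.ex
    exact ⟨W, hW, fun g w _ => by simpa using hε⟩
  smul_mem' := by
    rintro a X ⟨h1, h2⟩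
    refine ⟨fun ε hε => ?_, fun g h => ?_⟩
    · obtain ⟨W, hW, hX⟩ := h1 (ε / (‖a‖ + 1)) (by positivity)
      refine ⟨W, hW, fun g w hw => ?_⟩
      have h3 : (a • X) (g * w) - (a • X) g = a • (X (g * w) - X g) := by
        simp only [Pi.smul_apply, smul_sub]
      rw [h3, norm_smul]
      have h4 := hX g w hw
      have h5 : 0 ≤ ‖a‖ := norm_nonneg a
      rw [lt_div_iff₀ (by positivity)] at h4
      have h6 : 0 ≤ ‖X (g * w) - X g‖ := norm_nonneg _
      nlinarith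
    · simp only [Pi.smul_apply, h2, mulVec_smul, smul_add]

theorem be_zero (SD : FSys D) (χ : D → ℤ_[2]) : KP.BE (E := E) SD χ (fun _ _ => 0) := by
  refine ⟨fun _ => 0, fun ε hε => ?_, ?_⟩
  · obtain ⟨W, hW⟩ := SD.ex
    exact ⟨W, hW, fun g w _ => by simpa using hε⟩
  · funext s t
    simp [PA.dE]

theorem be_add {SD : FSys D} {χ : D → ℤ_[2]} {f f' : D → D → E} (h : KP.BE SD χ f)
    (h' : KP.BE SD χ f') : KP.BE SD χ (fun s t => f s t + f' s t) := by
  obtain ⟨z, h1, rfl⟩ := h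
  obtain ⟨z', h1', rfl⟩ := h'
  refine ⟨fun s => z s + z' s, fun ε hε => ?_, ?_⟩
  · obtain ⟨W, hW, hX⟩ := h1 (ε / 2) (half_pos hε)
    obtain ⟨W', hW', hY⟩ := h1' (ε / 2) (half_pos hε)
    refine ⟨W ⊓ W', SD.inf hW hW', fun g w hw => ?_⟩
    have h3 : (z (g * w) + z' (g * w)) - (z g + z' g) =
        (z (g * w) - z g) + (z' (g * w) - z' g) := by abel
    rw [h3]
    exact (norm_add_le _ _).trans_lt (by linarith [hX g w hw.1, hY g w hw.2])
  · funext s t
    simp only [PA.dE]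
    ring

theorem be_smul {SD : FSys D} {χ : D → ℤ_[2]} {f : D → D → E} (a : E) (h : KP.BE SD χ f) :
    KP.BE SD χ (fun s t => a * f s t) := by
  obtain ⟨z, h1, rfl⟩ := h
  refine ⟨fun s => a * z s, fun ε hε => ?_, ?_⟩
  · obtain ⟨W, hW, hX⟩ := h1 (ε / (‖a‖ + 1)) (by positivity)
    refine ⟨W, hW, fun g w hw => ?_⟩
    have h3 : a * z (g * w) - a * z g = a * (z (g * w) - z g) := by ring
    rw [h3, norm_mul]
    have h4 := hX g w hw
    have h5 : 0 ≤ ‖a‖ := norm_nonneg a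
    rw [lt_div_iff₀ (by positivity)] at h4
    have h6 : 0 ≤ ‖z (g * w) - z g‖ := norm_nonneg _
    nlinarith
  · funext s t
    simp only [PA.dE]
    ring

/-- the cocycles for `ρ'` orthogonal to `L`, as a vector space -/
def perpSub (SD : FSys D) (χ : D → ℤ_[2]) (b : Matrix (Fin n) (Fin n) E)
    (ρ' : D → Matrix (Fin n) (Fin n) E) (L : Submodule E (D → Fin n → E)) :
    Submodule E (D → Fin n → E) where
  carrier := {Y | PerpV SD χ b ρ' L Y}
  add_mem' := by
    rintro Y Y' ⟨h1, h2⟩ ⟨h1', h2'⟩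
    refine ⟨(zV SD ρ').add_mem h1 h1', fun X hX => ?_⟩
    have e : cupE ρ' b X (Y + Y') = fun s t => cupE ρ' b X Y s t + cupE ρ' b X Y' s t := by
      funext s t
      simp only [cupE, Pi.add_apply, mulVec_add, bil_add_right]
    rw [e]
    exact be_add (h2 X hX) (h2' X hX)
  zero_mem' := by
    refine ⟨(zV SD ρ').zero_mem, fun X hX => ?_⟩
    have e : cupE ρ' b X (0 : D → Fin n → E) = fun _ _ => 0 := by
      funext s t
      simp [cupE, bil]
    rw [e]
    exact be_zero SD χ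
  smul_mem' := by
    rintro a Y ⟨h1, h2⟩
    refine ⟨(zV SD ρ').smul_mem a h1, fun X hX => ?_⟩
    have e : cupE ρ' b X (a • Y) = fun s t => a * cupE ρ' b X Y s t := by
      funext s t
      simp only [cupE, Pi.smul_apply, mulVec_smul, bil_smul_right]
    rw [e]
    exact be_smul a (h2 X hX)

end one

section sel

variable {G : Type*} [Group G] (S : FSys G) {Φ : Type*} {D : Φ → Type*}
  [∀ w, Group (D w)] (SD : ∀ w, FSys (D w)) (j : ∀ w, D w →* G) (χ : G → ℤ_[2])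
  (κ : G →* G) (b : Matrix (Fin n) (Fin n) E) (ρ : G → Matrix (Fin n) (Fin n) E)
  (L : ∀ w, Submodule E (D w → Fin n → E))

/-- the orthogonal local conditions -/
def perpW (w : Φ) : Submodule E (D w → Fin n → E) :=
  perpSub (SD w) (fun d => χ (j w d)) b (fun d => ρ (κ (j w d))) (L w)

/-- the Selmer group: cocycles whose restrictions by `j w` lie in `L w` and whose restrictions by
`κ ∘ j w` are orthogonal to `L w` -/
def selV : Submodule E (G → Fin n → E) where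
  carrier := {X | ZV S ρ X ∧ (∀ w, (fun d => X (j w d)) ∈ L w) ∧
    ∀ w, (fun d => X (κ (j w d))) ∈ perpW SD j χ κ b ρ L w}
  add_mem' := fun h h' => ⟨(zV S ρ).add_mem h.1 h'.1, fun w => (L w).add_mem (h.2.1 w) (h'.2.1 w),
    fun w => (perpW SD j χ κ b ρ L w).add_mem (h.2.2 w) (h'.2.2 w)⟩
  zero_mem' := ⟨(zV S ρ).zero_mem, fun w => (L w).zero_mem,
    fun w => (perpW SD j χ κ b ρ L w).zero_mem⟩
  smul_mem' := fun a X h => ⟨(zV S ρ).smul_mem a h.1, fun w => (L w).smul_mem a (h.2.1 w),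
    fun w => (perpW SD j χ κ b ρ L w).smul_mem a (h.2.2 w)⟩

variable {T : Submodule (OE E) (Fin n → E)} (hst : ∀ g, ∀ x ∈ T, ρ g *ᵥ x ∈ T)

theorem actQ_add {A : Matrix (Fin n) (Fin n) E} (hA : ∀ x ∈ T, A *ᵥ x ∈ T) (p q : Wq T) :
    actQ T A (p + q) = actQ T A p + actQ T A q := by
  obtain ⟨x, rfl⟩ := Submodule.Quotient.mk_surjective T p
  obtain ⟨y, rfl⟩ := Submodule.Quotient.mk_surjective T q
  have h1 : (Submodule.Quotient.mk x : Wq T) + Submodule.Quotient.mk y = mq T (x + y) := rfl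
  have h2 : (Submodule.Quotient.mk x : Wq T) = mq T x := rfl
  have h3 : (Submodule.Quotient.mk y : Wq T) = mq T y := rfl
  rw [h1, h2, h3, actQ_mq hA, actQ_mq hA, actQ_mq hA, mulVec_add, mq_add]

theorem actQ_smul {A : Matrix (Fin n) (Fin n) E} (hA : ∀ x ∈ T, A *ᵥ x ∈ T) (a : OE E)
    (p : Wq T) : actQ T A (a • p) = a • actQ T A p := by
  obtain ⟨x, rfl⟩ := Submodule.Quotient.mk_surjective T p
  have h2 : (Submodule.Quotient.mk x : Wq T) = mq T x := rfl
  rw [h2, ← mq_smul, actQ_mq hA, actQ_mq hA, mulVec_smul, mq_smul]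

/-- the Selmer group with values in `E ^ n` modulo `T` -/
def selInf (hst : ∀ g, ∀ x ∈ T, ρ g *ᵥ x ∈ T) : Submodule (OE E) (G → Wq T) where
  carrier := {x | Z1 S (fun g => actQ T (ρ g)) x ∧
    (∀ w, ∃ X ∈ L w, ∀ d, x (j w d) = mq T (X d)) ∧
    ∀ w, ∃ Y ∈ perpW SD j χ κ b ρ L w, ∀ d, x (κ (j w d)) = mq T (Y d)}
  add_mem' := by
    rintro x x' ⟨⟨⟨W, hW, h1⟩, h2⟩, h3, h4⟩ ⟨⟨⟨W', hW', h1'⟩, h2'⟩, h3', h4'⟩
    refine ⟨⟨⟨W ⊓ W', S.inf hW hW', fun g w hw => ?_⟩, fun g h => ?_⟩, fun w => ?_, fun w => ?_⟩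
    · simp only [Pi.add_apply, h1 g w hw.1, h1' g w hw.2]
    · simp only [Pi.add_apply, h2, h2', actQ_add (hst g)]
      abel
    · obtain ⟨X, hX, e⟩ := h3 w
      obtain ⟨X', hX', e'⟩ := h3' w
      exact ⟨X + X', (L w).add_mem hX hX', fun d => by rw [Pi.add_apply, e, e']; rfl⟩
    · obtain ⟨X, hX, e⟩ := h4 w
      obtain ⟨X', hX', e'⟩ := h4' w
      exact ⟨X + X', Submodule.add_mem _ hX hX', fun d => by rw [Pi.add_apply, e, e']; rfl⟩
  zero_mem' := by
    refine ⟨⟨?_, fun g h => ?_⟩, fun w => ⟨0, Submodule.zero_mem _, fun d => rfl⟩,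
      fun w => ⟨0, Submodule.zero_mem _, fun d => rfl⟩⟩
    · obtain ⟨W, hW⟩ := S.ex
      exact ⟨W, hW, fun _ _ _ => rfl⟩
    · have h0 : actQ T (ρ g) (mq T 0) = mq T (ρ g *ᵥ 0) := actQ_mq (hst g) 0
      rw [mulVec_zero] at h0
      have h1 : mq T (0 : Fin n → E) = 0 := mq_eq_zero.2 T.zero_mem
      rw [h1] at h0
      simp only [Pi.zero_apply, h0, add_zero]
  smul_mem' := by
    rintro a x ⟨⟨⟨W, hW, h1⟩, h2⟩, h3, h4⟩
    refine ⟨⟨⟨W, hW, fun g w hw => ?_⟩, fun g h => ?_⟩, fun w => ?_, fun w => ?_⟩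
    · simp only [Pi.smul_apply, h1 g w hw]
    · simp only [Pi.smul_apply, h2, actQ_smul (hst g), smul_add]
    · obtain ⟨X, hX, e⟩ := h3 w
      exact ⟨(a : E) • X, (L w).smul_mem _ hX, fun d => by rw [Pi.smul_apply, e]; rfl⟩
    · obtain ⟨X, hX, e⟩ := h4 w
      exact ⟨(a : E) • X, Submodule.smul_mem _ _ hX, fun d => by rw [Pi.smul_apply, e]; rfl⟩

end sel

end Pool.Agent.Work.MP_787500_nt.KR
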