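import Mathlib
import Pool.Agent.Work.MP_787500_nt.KR.LDefs2
import Pool.Agent.Work.MP_787500_nt.KR.L12
import Pool.Agent.Work.MP_787500_nt.KR.L08

/-!
The version of `GP/L16_SelN.lean` for a family of pairs `(θ, φ)` (the proofs are the same).
-/

set_option autoImplicit false
set_option linter.unusedSectionVars false

namespace Pool.Agent.Work.MP_787500_nt.KR

open Pool.Agent.Work.MP_787500_nt.GP

open Matrix
open Pool.Agent.Work.MP_787500_nt.PA (toE)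

universe v

variable {E : Type v} [NormedField E] [NormedAlgebra ℚ_[2] E] [FiniteDimensional ℚ_[2] E] {n : ℕ}
  {b : Matrix (Fin n) (Fin n) E} {l : OE E} {t : E →ₗ[ℚ_[2]] ℚ_[2]}
  {T : Submodule (OE E) (Fin n → E)}


variable {G : Type*} [Group G] {S : FSys G} {Φ : Type*} [Fintype Φ] {D : Φ → Type*}
  [∀ w, Group (D w)] {SD : ∀ w, FSys (D w)} {j : ∀ w, D w →* G} {χ : G → ℤ_[2]}
  {inv : ∀ w, (D w → D w → A0) → A0} {κ : G →* G} {Θ : Set (G × G)}
  {ρ : G → Matrix (Fin n) (Fin n) E} {L : ∀ w, Submodule E (D w → Fin n → E)}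


theorem locRep_of (H : ParD.{v} S SD j χ inv κ Θ) (hr : LocRep S χ T b ρ (fun g => ρ (κ g))) (w : Φ) :
    LocRep (SD w) (fun d => χ (j w d)) T b (fun d => ρ (j w d)) (fun d => ρ (κ (j w d))) where
  one := by
    rw [map_one]
    exact hr.one
  mul s u := by
    rw [map_mul]
    exact hr.mul _ _
  one' := by
    have h1 := hr.one'
    rw [map_one]
    exact h1
  mul' s u := by
    have h1 := hr.mul' (j w s) (j w u)
    rw [map_mul]
    exact h1
  st d := hr.st _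
  st' d := hr.st' _
  sm ε hε := by
    obtain ⟨W, hW, h1⟩ := hr.sm ε hε
    obtain ⟨W', hW', h2⟩ := H.jsm w W hW
    exact ⟨W', hW', fun v hv x => h1 _ (h2 v hv) x⟩
  sm' ε hε := by
    obtain ⟨W, hW, h1⟩ := hr.sm' ε hε
    obtain ⟨W', hW', h2⟩ := H.jsm w W hW
    exact ⟨W', hW', fun v hv x => h1 _ (h2 v hv) x⟩
  dual d x y := hr.dual _ x y

theorem betw_lamN (H : ParD.{v} S SD j χ inv κ Θ) (h : Lat b l t T)
    (hr : LocRep S χ T b ρ (fun g => ρ (κ g)))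
    (hL : ∀ w, ∀ X ∈ L w, ZV (SD w) (fun d => ρ (j w d)) X)
    (hL0 : ∀ w v, (fun d => ρ (j w d) *ᵥ v - v) ∈ L w) (N : ℕ) (w : Φ) :
    Betw (SD w) (fun d => actN l N ρ hr.st (j w d)) (lamN T l N (L w)) where
  cob m := by
    refine ⟨_, hL0 w (lft (m : Wq T)), fun d => ?_⟩
    show ((actN l N ρ hr.st (j w d) m - m : MN T l N) : Wq T) = _
    rw [Submodule.coe_sub, coe_actN, actQ, mq_sub, mq_lft]
  coc x := by
    rintro ⟨X, hX, h1⟩
    exact zv_level h (locRep_of H hr w) N (hL w X hX) h1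

private theorem l16_perp (H : ParD.{v} S SD j χ inv κ Θ) (h : Lat b l t T)
    (hr : LocRep S χ T b ρ (fun g => ρ (κ g)))
    (hal : ∀ p ∈ Θ, ∀ x : Fin n → E, bil b x (ρ p.1 *ᵥ x) = 0)
    (hL : ∀ w, ∀ X ∈ L w, ZV (SD w) (fun d => ρ (j w d)) X)
    (hL0 : ∀ w v, (fun d => ρ (j w d) *ᵥ v - v) ∈ L w) (N : ℕ) (w : Φ) (y : D w → MN T l N) :
    y ∈ perpM H (sdualF_MN h hr hal N) w (lamN T l N (L w)) ↔
      ∃ Y ∈ perpW SD j χ κ b ρ L w, ∀ d, (y d : Wq T) = mq T (Y d) := by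
  have h1 := perp_iff (H.loc w) h (locRep_of H hr w) (hL w) (hL0 w) y
  constructor
  · rintro ⟨h2, h3⟩
    exact h1.1 ⟨h2, fun x hx => h3 x hx ((betw_lamN H h hr hL hL0 N w).coc x hx)⟩
  · rintro ⟨Y, hY, h2⟩
    obtain ⟨h3, h4⟩ := h1.2 ⟨Y, hY, h2⟩
    exact ⟨h3, fun x hx _ => h4 x hx⟩

private theorem l16_mem (H : ParD.{v} S SD j χ inv κ Θ) (h : Lat b l t T)
    (hr : LocRep S χ T b ρ (fun g => ρ (κ g)))
    (hal : ∀ p ∈ Θ, ∀ x : Fin n → E, bil b x (ρ p.1 *ᵥ x) = 0)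
    (hL : ∀ w, ∀ X ∈ L w, ZV (SD w) (fun d => ρ (j w d)) X)
    (hL0 : ∀ w v, (fun d => ρ (j w d) *ᵥ v - v) ∈ L w) (N : ℕ) (x : G → MN T l N) :
    x ∈ selM (sdualF_MN h hr hal N) j (fun w => lamN T l N (L w))
      (fun w => perpM H (sdualF_MN h hr hal N) w (lamN T l N (L w))) ↔
    (fun g => (x g : Wq T)) ∈ selInf S SD j χ κ b ρ L hr.st := by
  have hZ : Z1 S (actN l N ρ hr.st) x ↔ Z1 S (fun g => actQ T (ρ g)) (fun g => (x g : Wq T)) := by
    constructor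
    · rintro ⟨⟨W, hW, h1⟩, h2⟩
      refine ⟨⟨W, hW, fun g w hw => ?_⟩, fun a c => ?_⟩
      · show (x (g * w) : Wq T) = x g
        rw [h1 g w hw]
      · have h3 := congrArg (fun m : MN T l N => (m : Wq T)) (h2 a c)
        exact h3
    · rintro ⟨⟨W, hW, h1⟩, h2⟩
      refine ⟨⟨W, hW, fun g w hw => ?_⟩, fun a c => ?_⟩
      · exact Subtype.ext (h1 g w hw)
      · exact Subtype.ext (h2 a c)
  constructor
  · rintro ⟨h1, h2, h3⟩
    exact ⟨hZ.1 h1, fun w => h2 w, fun w => (l16_perp H h hr hal hL hL0 N w _).1 (h3 w)⟩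
  · rintro ⟨h1, h2, h3⟩
    exact ⟨hZ.2 h1, fun w => h2 w, fun w => (l16_perp H h hr hal hL hL0 N w _).2 (h3 w)⟩

theorem sel_level (H : ParD.{v} S SD j χ inv κ Θ) (h : Lat b l t T)
    (hr : LocRep S χ T b ρ (fun g => ρ (κ g)))
    (hal : ∀ p ∈ Θ, ∀ x : Fin n → E, bil b x (ρ p.1 *ᵥ x) = 0)
    (hL : ∀ w, ∀ X ∈ L w, ZV (SD w) (fun d => ρ (j w d)) X)
    (hL0 : ∀ w v, (fun d => ρ (j w d) *ᵥ v - v) ∈ L w) (N : ℕ) :
    Nat.card (selM (sdualF_MN h hr hal N) j (fun w => lamN T l N (L w))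
      (fun w => perpM H (sdualF_MN h hr hal N) w (lamN T l N (L w)))) =
    Nat.card (Submodule.torsionBy (OE E) (selInf S SD j χ κ b ρ L hr.st) (l ^ N)) := by
  let f : selM (sdualF_MN h hr hal N) j (fun w => lamN T l N (L w))
      (fun w => perpM H (sdualF_MN h hr hal N) w (lamN T l N (L w))) →
      Submodule.torsionBy (OE E) (selInf S SD j χ κ b ρ L hr.st) (l ^ N) := fun x =>
    ⟨⟨fun g => ((x : G → MN T l N) g : Wq T), (l16_mem H h hr hal hL hL0 N x).1 x.2⟩, by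
      rw [Submodule.mem_torsionBy_iff]
      apply Subtype.ext
      funext g
      exact ((x : G → MN T l N) g).mem⟩
  refine Nat.card_eq_of_bijective f ⟨fun x y hxy => ?_, fun c => ?_⟩
  · apply Subtype.ext
    funext g
    apply Subtype.ext
    exact congrFun (congrArg Subtype.val (congrArg Subtype.val hxy)) g
  · obtain ⟨⟨x, hx⟩, hc⟩ := c
    have hc' : ∀ g, x g ∈ Submodule.torsionBy (OE E) (Wq T) (l ^ N) := by
      intro g
      rw [Submodule.mem_torsionBy_iff] at hc ⊢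
      exact congrFun (congrArg Subtype.val hc) g
    exact ⟨⟨fun g => ⟨x g, hc' g⟩, (l16_mem H h hr hal hL hL0 N _).2 hx⟩, rfl⟩

end Pool.Agent.Work.MP_787500_nt.KR
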