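import Mathlib
import Pool.Agent.Work.MP_787500_nt.KR.FS4_Par
import Pool.Agent.Work.MP_787500_nt.KR.L16
import Pool.Agent.Work.MP_787500_nt.GP.L03_Ring

/-!
The modules `MN T l N = l^(-N) T / T`: the structure `SubU` for the levels `N + 2`, `N + 1`, `N`, `1`, and parity for
all levels from parity for one local condition at the level 1.

* `mnI`: the inclusion of `MN T l k` into `MN T l m`, `k ≤ m`; `mnP k`: multiplication by `l ^ k`.
* `subU_MN`: the structure `SubU`.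
* `MN_par`: parity for all `N` and all local conditions; `MN_par_lam` for the local conditions `lamN T l N (L w)`
  (the hypothesis `hfp` of `parV`, `KR/L18.lean`).
-/

set_option autoImplicit false
set_option linter.unusedSectionVars false

namespace Pool.Agent.Work.MP_787500_nt.KR

open Matrix
open Pool.Agent.Work.MP_787500_nt.PA (toE)
open Pool.Agent.Work.MP_787500_nt.GP

universe v

section maps

variable {E : Type*} [NormedField E] [NormedAlgebra ℚ_[2] E] {n : ℕ}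

/-- the inclusion -/
def mnI (T : Submodule (OE E) (Fin n → E)) (l : OE E) {k m : ℕ} (h : k ≤ m) :
    MN T l k →ₗ[OE E] MN T l m :=
  Submodule.inclusion (Submodule.torsionBy_le_torsionBy_of_dvd (l ^ k) (l ^ m) (pow_dvd_pow l h))

theorem coe_mnI {T : Submodule (OE E) (Fin n → E)} {l : OE E} {k m : ℕ} (h : k ≤ m)
    (x : MN T l k) : (mnI T l h x : Wq T) = x := rfl

/-- multiplication by `l ^ k` -/
def mnP (T : Submodule (OE E) (Fin n → E)) (l : OE E) (k : ℕ) {m m' : ℕ} (h : m ≤ m' + k) :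
    MN T l m →ₗ[OE E] MN T l m' where
  toFun x := ⟨l ^ k • (x : Wq T), by
    rw [Submodule.mem_torsionBy_iff, smul_smul, ← pow_add]
    obtain ⟨c, hc⟩ := pow_dvd_pow l h
    rw [hc, mul_comm, mul_smul, x.mem, smul_zero]⟩
  map_add' x y := Subtype.ext (smul_add _ _ _)
  map_smul' a x := Subtype.ext (smul_comm _ _ _)

theorem coe_mnP {T : Submodule (OE E) (Fin n → E)} {l : OE E} (k : ℕ) {m m' : ℕ}
    (h : m ≤ m' + k) (x : MN T l m) : (mnP T l k h x : Wq T) = l ^ k • (x : Wq T) := rfl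

theorem mnI_inj {T : Submodule (OE E) (Fin n → E)} {l : OE E} {k m : ℕ} (h : k ≤ m) :
    Function.Injective (mnI T l h) := Submodule.inclusion_injective _

/-- an element of `MN T l m` killed by `l ^ k` is in the image of `MN T l k` -/
theorem mnI_of {T : Submodule (OE E) (Fin n → E)} {l : OE E} {k m : ℕ} (h : k ≤ m)
    {x : MN T l m} (hx : l ^ k • (x : Wq T) = 0) : ∃ y, mnI T l h y = x :=
  ⟨⟨x, (Submodule.mem_torsionBy_iff _ _).2 hx⟩, Subtype.ext rfl⟩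

/-- `E ^ n / T` is divisible -/
theorem mnP_surj {T : Submodule (OE E) (Fin n → E)} {l : OE E} (hl : (l : E) ≠ 0) (k : ℕ)
    {m m' : ℕ} (h : m = m' + k) : Function.Surjective (mnP T l k h.le) := by
  intro y
  have hk : (l : E) ^ k ≠ 0 := pow_ne_zero k hl
  have h1 : ((l ^ k : OE E) : E) • ((l : E) ^ k)⁻¹ • lft (y : Wq T) = lft (y : Wq T) := by
    rw [SubmonoidClass.coe_pow, smul_smul, mul_inv_cancel₀ hk, one_smul]
  have h2 : l ^ k • mq T (((l : E) ^ k)⁻¹ • lft (y : Wq T)) = (y : Wq T) := by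
    rw [← mq_smul, h1, mq_lft]
  refine ⟨⟨mq T (((l : E) ^ k)⁻¹ • lft (y : Wq T)), ?_⟩, Subtype.ext h2⟩
  rw [Submodule.mem_torsionBy_iff, h, pow_add, mul_smul, h2]
  exact y.mem

theorem actN_mnI {X : Type*} {T : Submodule (OE E) (Fin n → E)} {l : OE E}
    {ρ : X → Matrix (Fin n) (Fin n) E} (hst : ∀ d, ∀ x ∈ T, ρ d *ᵥ x ∈ T) {k m : ℕ} (h : k ≤ m)
    (g : X) (x : MN T l k) : mnI T l h (actN l k ρ hst g x) = actN l m ρ hst g (mnI T l h x) :=
  Subtype.ext rfl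

theorem actN_mnP {X : Type*} {T : Submodule (OE E) (Fin n → E)} {l : OE E}
    {ρ : X → Matrix (Fin n) (Fin n) E} (hst : ∀ d, ∀ x ∈ T, ρ d *ᵥ x ∈ T) (k : ℕ) {m m' : ℕ}
    (h : m ≤ m' + k) (g : X) (x : MN T l m) :
    mnP T l k h (actN l m ρ hst g x) = actN l m' ρ hst g (mnP T l k h x) := by
  apply Subtype.ext
  rw [coe_mnP, coe_actN, coe_actN, coe_mnP]
  conv_rhs => rw [← mq_lft (x : Wq T)]
  rw [← mq_smul, actQ_mq (hst g), mulVec_smul, mq_smul]
  rfl

theorem bN_mnI {b : Matrix (Fin n) (Fin n) E} {l : OE E} {t : E →ₗ[ℚ_[2]] ℚ_[2]}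
    {T : Submodule (OE E) (Fin n → E)} (h : Lat b l t T) (N : ℕ) (x y : MN T l (N + 1)) :
    bN h N (mnP T l 1 le_rfl x) (mnP T l 1 le_rfl y) =
      bN h (N + 2) (mnI T l (Nat.le_succ (N + 1)) x) (mnI T l (Nat.le_succ (N + 1)) y) := by
  rw [bN_val h N _ _ (x' := (l : E) • lft (x : Wq T)) (y' := (l : E) • lft (y : Wq T)),
    bN_val h (N + 2) _ _ (x' := lft (x : Wq T)) (y' := lft (y : Wq T)), bil_smul_left,
    bil_smul_right]
  · congr 2
    ring
  · rw [mq_lft, coe_mnI]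
  · rw [mq_lft, coe_mnI]
  · rw [mq_smul, mq_lft, coe_mnP, pow_one]
  · rw [mq_smul, mq_lft, coe_mnP, pow_one]

theorem bN_mnP {b : Matrix (Fin n) (Fin n) E} {l : OE E} {t : E →ₗ[ℚ_[2]] ℚ_[2]}
    {T : Submodule (OE E) (Fin n → E)} (h : Lat b l t T) (N : ℕ) (hN : 1 ≤ N + 2) (u : MN T l 1)
    (x : MN T l (N + 2)) (hk : N + 2 ≤ 1 + (N + 1)) :
    bN h (N + 2) (mnI T l hN u) x = bN h 1 u (mnP T l (N + 1) hk x) := by
  rw [bN_val h (N + 2) _ _ (x' := lft (u : Wq T)) (y' := lft (x : Wq T)),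
    bN_val h 1 _ _ (x' := lft (u : Wq T)) (y' := (l : E) ^ (N + 1) • lft (x : Wq T)),
    bil_smul_right]
  · congr 2
    ring
  · rw [mq_lft]
  · have h1 : (l : E) ^ (N + 1) = ((l ^ (N + 1) : OE E) : E) := by
      rw [SubmonoidClass.coe_pow]
    rw [h1, mq_smul, mq_lft, coe_mnP]
  · rw [mq_lft, coe_mnI]
  · rw [mq_lft]

/-- the level 0 -/
instance subsingleton_MN_zero {T : Submodule (OE E) (Fin n → E)} {l : OE E} :
    Subsingleton (MN T l 0) := by
  refine ⟨fun x y => ?_⟩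
  have h0 : ∀ w : Wq T, l ^ 0 • w = 0 → w = 0 := fun w hw => by
    rwa [pow_zero, one_smul] at hw
  have h : ∀ z : MN T l 0, z = 0 := fun z => Subtype.ext (h0 _ z.mem)
  rw [h x, h y]

/-- the structure `SubU` -/
theorem subU_MN {b : Matrix (Fin n) (Fin n) E} {l : OE E} {t : E →ₗ[ℚ_[2]] ℚ_[2]}
    {T : Submodule (OE E) (Fin n → E)} (h : Lat b l t T) {G : Type*} [Group G]
    {ρ : G → Matrix (Fin n) (Fin n) E} (hst : ∀ d, ∀ x ∈ T, ρ d *ᵥ x ∈ T) (N : ℕ) :
    SubU (actN l (N + 2) ρ hst) (bN h (N + 2)) (actN l (N + 1) ρ hst) (actN l N ρ hst) (bN h N)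
      (actN l 1 ρ hst) (bN h 1) (mnI T l (Nat.le_add_left 1 N))
      (mnI T l (Nat.le_succ (N + 1))) (mnP T l 1 le_rfl)
      (mnP T l (N + 1) (show N + 2 ≤ 1 + (N + 1) by omega)) where
  einj := mnI_inj _
  iinj := mnI_inj _
  psurj := mnP_surj h.lne 1 rfl
  qsurj := mnP_surj h.lne (N + 1) (by omega)
  pker m₁ := by
    constructor
    · intro h1
      refine mnI_of _ ?_
      exact congrArg (fun x : MN T l N => (x : Wq T)) h1
    · rintro ⟨u, rfl⟩
      apply Subtype.ext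
      rw [coe_mnP, coe_mnI]
      exact u.mem
  qker m := by
    constructor
    · intro h1
      refine mnI_of _ ?_
      exact congrArg (fun x : MN T l 1 => (x : Wq T)) h1
    · rintro ⟨m₁, rfl⟩
      apply Subtype.ext
      rw [coe_mnP, coe_mnI]
      exact m₁.mem
  eqe g u := actN_mnI hst _ g u
  eqi g m₁ := actN_mnI hst _ g m₁
  eqp g m₁ := actN_mnP hst 1 _ g m₁
  eqq g m := actN_mnP hst (N + 1) _ g m
  pair m m' := bN_mnI h N m m'
  pairU u m := bN_mnP h N (by omega) u m _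

end maps

section parity

variable {E : Type v} [NormedField E] [NormedAlgebra ℚ_[2] E] [FiniteDimensional ℚ_[2] E] {n : ℕ}
  {b : Matrix (Fin n) (Fin n) E} {l : OE E} {t : E →ₗ[ℚ_[2]] ℚ_[2]}
  {T : Submodule (OE E) (Fin n → E)}

variable {G : Type*} [Group G] {S : FSys G} {Φ : Type*} [Fintype Φ] {D : Φ → Type*}
  [∀ w, Group (D w)] {SD : ∀ w, FSys (D w)} {j : ∀ w, D w →* G} {χ : G → ℤ_[2]}
  {inv : ∀ w, (D w → D w → A0) → A0} {κ : G →* G} {Θ : Set (G × G)}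
  {ρ : G → Matrix (Fin n) (Fin n) E}

/-- parity for all levels and all local conditions from one local condition at the level 1 -/
theorem MN_par [IsLocalRing (OE E)] (H : ParD.{v} S SD j χ inv κ Θ) (h : Lat b l t T)
    (hr : LocRep S χ T b ρ (fun g => ρ (κ g)))
    (hal : ∀ p ∈ Θ, ∀ x : Fin n → E, bil b x (ρ p.1 *ᵥ x) = 0)
    (h1' : ShU1 S j κ (actN l 1 ρ hr.st)) (h2' : ShU2 S SD j κ (actN l 1 ρ hr.st))
    {Λ₀ : ∀ w, Submodule (OE E) (D w → MN T l 1)}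
    (h₀ : ∀ w, Betw (SD w) (fun d => actN l 1 ρ hr.st (j w d)) (Λ₀ w))
    (hP : EvPow (Nat.card (IsLocalRing.ResidueField (OE E)))
      (Nat.card (selM (sdualF_MN h hr hal 1) j Λ₀
        fun w => perpM H (sdualF_MN h hr hal 1) w (Λ₀ w)) * ∏ w, Nat.card (Λ₀ w))) (N : ℕ)
    (Λ : ∀ w, Submodule (OE E) (D w → MN T l N))
    (hΛ : ∀ w, Betw (SD w) (fun d => actN l N ρ hr.st (j w d)) (Λ w)) :
    EvPow (Nat.card (IsLocalRing.ResidueField (OE E)))
      (Nat.card (selM (sdualF_MN h hr hal N) j Λ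
        fun w => perpM H (sdualF_MN h hr hal N) w (Λ w)) * ∏ w, Nat.card (Λ w)) := by
  have hres : Finite (IsLocalRing.ResidueField (OE E)) := res_finite
  have hf : ∀ N, Finite (MN T l N) := fun N => MN_finite h N
  induction N using Nat.twoStepInduction with
  | zero =>
    have e1 : Nat.card (selM (sdualF_MN h hr hal 0) j Λ
        fun w => perpM H (sdualF_MN h hr hal 0) w (Λ w)) = 1 := Nat.card_unique
    have e2 : ∏ w, Nat.card (Λ w) = 1 := Finset.prod_eq_one fun w _ => Nat.card_unique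
    rw [e1, e2]
    exact ⟨0, by simp⟩
  | one => exact par_all H (sdualF_MN h hr hal 1) h₀ hP Λ hΛ
  | more N ih _ =>
    exact u_step H (sdualF_MN h hr hal (N + 2)) (sdualF_MN h hr hal N) (sdualF_MN h hr hal 1)
      (subU_MN h hr.st N) h1' h2' ih Λ hΛ

/-- the form needed in `parV` -/
theorem MN_par_lam [IsLocalRing (OE E)] (H : ParD.{v} S SD j χ inv κ Θ) (h : Lat b l t T)
    (hr : LocRep S χ T b ρ (fun g => ρ (κ g)))
    (hal : ∀ p ∈ Θ, ∀ x : Fin n → E, bil b x (ρ p.1 *ᵥ x) = 0)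
    (h1' : ShU1 S j κ (actN l 1 ρ hr.st)) (h2' : ShU2 S SD j κ (actN l 1 ρ hr.st))
    {Λ₀ : ∀ w, Submodule (OE E) (D w → MN T l 1)}
    (h₀ : ∀ w, Betw (SD w) (fun d => actN l 1 ρ hr.st (j w d)) (Λ₀ w))
    (hP : EvPow (Nat.card (IsLocalRing.ResidueField (OE E)))
      (Nat.card (selM (sdualF_MN h hr hal 1) j Λ₀
        fun w => perpM H (sdualF_MN h hr hal 1) w (Λ₀ w)) * ∏ w, Nat.card (Λ₀ w)))
    {L : ∀ w, Submodule E (D w → Fin n → E)}
    (hL : ∀ w, ∀ X ∈ L w, ZV (SD w) (fun d => ρ (j w d)) X)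
    (hL0 : ∀ w v, (fun d => ρ (j w d) *ᵥ v - v) ∈ L w) (N : ℕ) :
    EvPow (Nat.card (IsLocalRing.ResidueField (OE E)))
      (Nat.card (selM (sdualF_MN h hr hal N) j (fun w => lamN T l N (L w))
        (fun w => perpM H (sdualF_MN h hr hal N) w (lamN T l N (L w)))) *
      ∏ w, Nat.card (lamN T l N (L w))) :=
  MN_par H h hr hal h1' h2' h₀ hP N _ fun w => betw_lamN H h hr hL hL0 N w

/-- the hypothesis `hfp` of `final_gen` (`KR/L20.lean`) -/
theorem MN_hfp [IsLocalRing (OE E)] {ρ : G →* Matrix (Fin n) (Fin n) E} (H : ParD.{v} S SD j χ inv κ Θ)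
    (hlat : Lat b l t T) (hst : ∀ g, ∀ x ∈ T, ρ g *ᵥ x ∈ T)
    (hr : LocRep S χ T b (fun g => ρ g) (fun g => ρ (κ g)))
    (hal : ∀ p ∈ Θ, ∀ x : Fin n → E, bil b x (ρ p.1 *ᵥ x) = 0)
    (h1' : ShU1 S j κ (actN l 1 (fun g => ρ g) hst))
    (h2' : ShU2 S SD j κ (actN l 1 (fun g => ρ g) hst))
    {Λ₀ : ∀ w, Submodule (OE E) (D w → MN T l 1)}
    (h₀ : ∀ w, Betw (SD w) (fun d => actN l 1 (fun g => ρ g) hst (j w d)) (Λ₀ w))
    (h₁ : SDualF S χ κ Θ (OE E) (actN l 1 (fun g => ρ g) hst) (bN hlat 1))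
    (hP : EvPow (Nat.card (IsLocalRing.ResidueField (OE E)))
      (Nat.card (selM h₁ j Λ₀ fun w => perpM H h₁ w (Λ₀ w)) * ∏ w, Nat.card (Λ₀ w))) (N : ℕ)
    (h : SDualF S χ κ Θ (OE E) (actN l N (fun g => ρ g) hst) (bN hlat N))
    (Λ : ∀ w, Submodule (OE E) (D w → MN T l N))
    (hΛ : ∀ w, Betw (SD w) (fun d => actN l N (fun g => ρ g) hst (j w d)) (Λ w)) :
    EvPow (Nat.card (IsLocalRing.ResidueField (OE E)))
      (Nat.card (selM h j Λ fun w => perpM H h w (Λ w)) * ∏ w, Nat.card (Λ w)) :=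
  MN_par (ρ := fun g => ρ g) H hlat hr hal h1' h2' h₀ hP N Λ hΛ

end parity

end Pool.Agent.Work.MP_787500_nt.KR
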