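import Mathlib
import Pool.Agent.Work.MP_787500_nt.GP.F02_Lag
import Pool.Agent.Work.MP_787500_nt.GP.F04_Alt

/-!
# Three self-annihilating isotropic submodules (phase E3, item (1), algebra)

`β` is a symmetric pairing with values in `A0` on the finite `O`-module `Z`, balanced over `O`, possibly
degenerate; `O` is a local ring with finite residue field of order `q`. `Y`, `W` are submodules equal to their
annihilators, `X` is a submodule whose annihilator is `X` plus the radical, and `β (a • y) w = 0` whenever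
`y ∈ Y`, `w ∈ W`, `y + w ∈ X` (this holds if a family of quadratic functions `Q a` with polar forms
`β (a • x) y` vanishes on the three submodules). Then `|Y| |X ∩ Y| |Y ∩ W| |W ∩ X|` is an even power of `q`.

Proof. `P = {(y, w) ∈ Y × W | y + w ∈ X}` has the alternating form `β y w'`. If `X` contains the radical, then
`|P| = |X| |X ∩ Y ∩ W|`, and the radical of the form consists of the pairs with `y ∈ Y ∩ W + X ∩ Y`
(`(W ∩ (X + Y))⊥ = W + X ∩ Y`), of order `|Y ∩ W + X ∩ Y| |X ∩ W|`.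
-/

set_option autoImplicit false
set_option linter.unusedSectionVars false

namespace Pool.Agent.Work.MP_787500_nt.KR

open Pool.Agent.Work.MP_787500_nt.GP

section perp

variable {O : Type*} [CommRing O] {Z : Type*} [AddCommGroup Z] [Module O Z]

/-- the annihilator of a submodule for a balanced pairing -/
def perpS (β : Z →+ Z →+ A0) (hbal : ∀ (a : O) x y, β (a • x) y = β x (a • y))
    (X : Submodule O Z) : Submodule O Z where
  carrier := {z | ∀ x ∈ X, β x z = 0}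
  add_mem' := fun {s t} hs ht x hx => by rw [map_add, hs x hx, ht x hx, add_zero]
  zero_mem' := fun x _ => map_zero _
  smul_mem' := fun a t ht x hx => by
    rw [← hbal]
    exact ht _ (X.smul_mem a hx)

private theorem e1_sup (A B : Submodule O Z) :
    (A ⊔ B).toAddSubgroup = A.toAddSubgroup ⊔ B.toAddSubgroup := by
  ext x
  rw [AddSubgroup.mem_sup]
  show x ∈ A ⊔ B ↔ _
  rw [Submodule.mem_sup]
  rfl

private theorem e1_inf (A B : Submodule O Z) :
    (A ⊓ B).toAddSubgroup = A.toAddSubgroup ⊓ B.toAddSubgroup := rfl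

private theorem e1_card (A B : Submodule O Z) :
    Nat.card ↥(A ⊔ B) * Nat.card ↥(A ⊓ B) = Nat.card A * Nat.card B := by
  have h1 : B.toAddSubgroup.relIndex (A.toAddSubgroup ⊔ B.toAddSubgroup) =
    B.toAddSubgroup.relIndex A.toAddSubgroup := AddSubgroup.relIndex_sup_right _ _
  have h2 : B.toAddSubgroup.relIndex (A.toAddSubgroup ⊔ B.toAddSubgroup) * Nat.card B =
      Nat.card ↥(A ⊔ B) := by
    have h3 := AddSubgroup.relIndex_mul_relIndex (⊥ : AddSubgroup Z) B.toAddSubgroup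
      (A.toAddSubgroup ⊔ B.toAddSubgroup) bot_le le_sup_right
    rw [AddSubgroup.relIndex_bot_left, AddSubgroup.relIndex_bot_left, mul_comm, ← e1_sup] at h3
    rw [← e1_sup]
    exact h3
  have h4 : B.toAddSubgroup.relIndex A.toAddSubgroup * Nat.card ↥(A ⊓ B) = Nat.card A := by
    have h3 := AddSubgroup.relIndex_mul_relIndex (⊥ : AddSubgroup Z)
      (A.toAddSubgroup ⊓ B.toAddSubgroup) A.toAddSubgroup bot_le inf_le_left
    rw [AddSubgroup.relIndex_bot_left, AddSubgroup.relIndex_bot_left, mul_comm,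
      AddSubgroup.inf_relIndex_left] at h3
    exact h3
  rw [← h2, ← h4, h1]
  ring

variable (β : Z →+ Z →+ A0) (hbal : ∀ (a : O) x y, β (a • x) y = β x (a • y))
  (hsymm : ∀ x y, β x y = β y x)

include hsymm in
theorem perpS_card [Finite Z] {V : Submodule O Z} (h : perpS β hbal ⊤ ≤ V) :
    Nat.card V * Nat.card (perpS β hbal V) = Nat.card Z * Nat.card (perpS β hbal ⊤) := by
  have hflip : β.flip = β := by
    ext x y
    exact hsymm y x
  have h1 := card_perp β V.toAddSubgroup fun a ha => h fun a' _ => by rw [hsymm]; exact ha a'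
  rw [hflip] at h1
  exact h1

theorem perpS_sup (A B : Submodule O Z) :
    perpS β hbal (A ⊔ B) = perpS β hbal A ⊓ perpS β hbal B := by
  apply le_antisymm
  · intro x hx
    exact ⟨fun a ha => hx a (Submodule.mem_sup_left ha),
      fun a ha => hx a (Submodule.mem_sup_right ha)⟩
  · rintro x ⟨h1, h2⟩ a ha
    obtain ⟨y, hy, z, hz, rfl⟩ := Submodule.mem_sup.1 ha
    rw [map_add]
    show β y x + β z x = 0
    rw [h1 y hy, h2 z hz, add_zero]

theorem perpS_top_le (V : Submodule O Z) : perpS β hbal ⊤ ≤ perpS β hbal V :=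
  fun _ hx a _ => hx a trivial

include hsymm in
theorem perpS_rad : perpS β hbal (perpS β hbal ⊤) = ⊤ := by
  rw [eq_top_iff]
  intro x _ a ha
  rw [hsymm]
  exact ha x trivial

include hsymm in
/-- the annihilator of the intersection of `X` (almost equal to its annihilator) and `V` -/
theorem perpS_inf [Finite Z] (X V : Submodule O Z)
    (hX : perpS β hbal X = X ⊔ perpS β hbal ⊤) (hV : perpS β hbal ⊤ ≤ V) :
    perpS β hbal (X ⊓ V) = X ⊔ perpS β hbal V := by
  have h1 := lag_perp β hsymm X.toAddSubgroup V.toAddSubgroup (by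
    have h2 := congrArg Submodule.toAddSubgroup hX
    rw [e1_sup] at h2
    exact h2) hV
  have h3 : (perpS β hbal (X ⊓ V)).toAddSubgroup = (X ⊔ perpS β hbal V).toAddSubgroup := by
    rw [e1_sup]
    exact h1
  ext x
  have h4 : x ∈ (perpS β hbal (X ⊓ V)).toAddSubgroup ↔
    x ∈ (X ⊔ perpS β hbal V).toAddSubgroup := by rw [h3]
  exact h4

end perp

section lag

variable {O : Type*} [CommRing O] [IsLocalRing O] [Finite (IsLocalRing.ResidueField O)]
  {Z : Type*} [AddCommGroup Z] [Module O Z] [Finite Z]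

private theorem e1_map {A B : Type*} [AddCommGroup A] [Module O A] [AddCommGroup B] [Module O B]
    (g : A →ₗ[O] B) : Nat.card A = Nat.card (LinearMap.ker g) * Nat.card (LinearMap.range g) := by
  rw [Submodule.card_eq_card_quotient_mul_card (LinearMap.ker g),
    Nat.card_congr g.quotKerEquivRange.toEquiv]

private theorem e1_comap {A B : Type*} [AddCommGroup A] [Module O A] [AddCommGroup B] [Module O B]
    (g : A →ₗ[O] B) (V : Submodule O B) :
    Nat.card (V.comap g) = Nat.card (LinearMap.ker g) * Nat.card ↥(LinearMap.range g ⊓ V) := by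
  have h1 := e1_map (g.comp (V.comap g).subtype)
  have h2 : LinearMap.range (g.comp (V.comap g).subtype) = LinearMap.range g ⊓ V := by
    ext y
    constructor
    · rintro ⟨x, rfl⟩
      exact ⟨⟨x.1, rfl⟩, x.2⟩
    · rintro ⟨⟨x, rfl⟩, hy⟩
      exact ⟨⟨x, hy⟩, rfl⟩
  have h3 : Nat.card (LinearMap.ker (g.comp (V.comap g).subtype)) =
      Nat.card (LinearMap.ker g) := by
    refine Nat.card_congr ⟨fun x => ⟨x.1.1, x.2⟩, fun x => ⟨⟨x.1, ?_⟩, x.2⟩,
      fun x => rfl, fun x => rfl⟩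
    show g x.1 ∈ V
    rw [show g x.1 = 0 from x.2]
    exact V.zero_mem
  rw [h2, h3] at h1
  exact h1

private theorem e1_core (β : Z →+ Z →+ A0) (hbal : ∀ (a : O) x y, β (a • x) y = β x (a • y))
    (hsymm : ∀ x y, β x y = β y x) (X Y W : Submodule O Z)
    (hX : perpS β hbal X = X) (hY : perpS β hbal Y = Y) (hW : perpS β hbal W = W)
    (halt : ∀ (a : O), ∀ y ∈ Y, ∀ w ∈ W, y + w ∈ X → β (a • y) w = 0) :
    EvPow (Nat.card (IsLocalRing.ResidueField O))
      (Nat.card Y * Nat.card ↥(X ⊓ Y) * Nat.card ↥(Y ⊓ W) * Nat.card ↥(W ⊓ X)) := by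
  have hRX : perpS β hbal ⊤ ≤ X := by
    rw [← hX]; exact perpS_top_le β hbal _
  have hRY : perpS β hbal ⊤ ≤ Y := by
    rw [← hY]; exact perpS_top_le β hbal _
  have hRW : perpS β hbal ⊤ ≤ W := by
    rw [← hW]; exact perpS_top_le β hbal _
  have bX : ∀ x ∈ X, ∀ x' ∈ X, β x x' = 0 := fun x hx x' hx' => by
    rw [← hX] at hx'
    exact hx' x hx
  have bY : ∀ x ∈ Y, ∀ x' ∈ Y, β x x' = 0 := fun x hx x' hx' => by
    rw [← hY] at hx'
    exact hx' x hx
  have bW : ∀ x ∈ W, ∀ x' ∈ W, β x x' = 0 := fun x hx x' hx' => by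
    rw [← hW] at hx'
    exact hx' x hx
  let f : (Y × W) →ₗ[O] Z := Y.subtype.coprod W.subtype
  have hf : ∀ p : Y × W, f p = (p.1 : Z) + p.2 := fun p => rfl
  let P : Submodule O (Y × W) := X.comap f
  have hfP : Finite P := inferInstance
  let p1 : P →ₗ[O] Z := Y.subtype.comp ((LinearMap.fst O Y W).comp P.subtype)
  let p2 : P →ₗ[O] Z := W.subtype.comp ((LinearMap.snd O Y W).comp P.subtype)
  let B : P →+ P →+ A0 := ((β.comp p1.toAddMonoidHom).flip.comp p2.toAddMonoidHom).flip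
  have hB : ∀ p p' : P, B p p' = β (p.1.1 : Z) (p'.1.2 : Z) := fun p p' => rfl
  let K : Submodule O Z := (Y ⊓ W) ⊔ (X ⊓ Y)
  have hK : perpS β hbal (W ⊓ (X ⊔ Y)) = W ⊔ (X ⊓ Y) := by
    rw [perpS_inf β hbal hsymm W (X ⊔ Y) (by rw [hW, sup_eq_left.2 hRW]) (hRX.trans le_sup_left),
      perpS_sup, hX, hY]
  obtain ⟨m, hm⟩ := alt_card (O := O) B (fun a p p' => hbal a _ _)
    (fun a p => halt a _ p.1.1.2 _ p.1.2.2 p.2) (K.comap p1) (by
      intro p
      constructor
      · intro hp p'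
        obtain ⟨t, ht, s, hs, hts⟩ := Submodule.mem_sup.1 hp
        have e1 : ((p.1.1 : Y) : Z) = t + s := hts.symm
        rw [hB, e1, map_add, AddMonoidHom.add_apply, bW t ht.2 _ p'.1.2.2, zero_add]
        have h2 : β s ((p'.1.1 : Z) + (p'.1.2 : Z)) = 0 := bX s hs.1 _ p'.2
        rw [map_add, bY s hs.2 _ p'.1.1.2, zero_add] at h2
        exact h2
      · intro hp
        have h1 : ((p.1.1 : Y) : Z) ∈ perpS β hbal (W ⊓ (X ⊔ Y)) := by
          rintro w ⟨hw, hxy⟩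
          obtain ⟨x, hx, y, hy, hxy'⟩ := Submodule.mem_sup.1 hxy
          have h3 : ((⟨-y, Y.neg_mem hy⟩, ⟨w, hw⟩) : Y × W) ∈ P := by
            show (-y) + w ∈ X
            rw [← hxy']
            have : -y + (x + y) = x := by abel
            rw [this]
            exact hx
          have h4 := hp ⟨_, h3⟩
          rw [hB] at h4
          rw [hsymm]
          exact h4
        rw [hK] at h1
        obtain ⟨w, hw, s, hs, hws⟩ := Submodule.mem_sup.1 h1
        refine Submodule.mem_sup.2 ⟨w, ⟨?_, hw⟩, s, hs, hws⟩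
        have : w = (p.1.1 : Z) - s := by rw [← hws]; abel
        rw [this]
        exact Y.sub_mem p.1.1.2 hs.2)
  -- the order of `P`
  have c1 := e1_comap f X
  have hker : Nat.card (LinearMap.ker f) = Nat.card ↥(Y ⊓ W) := by
    refine Nat.card_congr ⟨fun p => ⟨p.1.1, p.1.1.2, ?_⟩, fun t => ⟨(⟨t.1, t.2.1⟩, ⟨-t.1, W.neg_mem t.2.2⟩), ?_⟩,
      fun p => ?_, fun t => rfl⟩
    · have h1 : (p.1.1 : Z) + p.1.2 = 0 := p.2
      rw [eq_neg_of_add_eq_zero_left h1]
      exact W.neg_mem p.1.2.2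
    · show t.1 + -t.1 = 0
      exact add_neg_cancel _
    · have h1 : (p.1.1 : Z) + p.1.2 = 0 := p.2
      apply Subtype.ext
      apply Prod.ext
      · rfl
      · apply Subtype.ext
        show -(p.1.1 : Z) = p.1.2
        exact (eq_neg_of_add_eq_zero_right h1).symm
  have hran : LinearMap.range f = Y ⊔ W := by
    rw [LinearMap.range_coprod, Submodule.range_subtype, Submodule.range_subtype]
  rw [hker, hran] at c1
  have c2 := e1_card (Y ⊔ W) X
  have c3 := e1_card Y W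
  -- the order of the radical
  let g4 : ↥(K.comap p1) →ₗ[O] Z := p1.comp (K.comap p1).subtype
  have c4 := e1_map (O := O) (A := ↥(K.comap p1)) (B := Z) g4
  have hk4 : Nat.card (LinearMap.ker g4) = Nat.card ↥(W ⊓ X) := by
    refine Nat.card_congr ⟨fun p => ⟨p.1.1.1.2.1, p.1.1.1.2.2, ?_⟩,
      fun t => ⟨⟨⟨(0, ⟨t.1, t.2.1⟩), ?_⟩, ?_⟩, ?_⟩, fun p => ?_, fun t => rfl⟩
    · have h1 : (p.1.1.1.1 : Z) = 0 := p.2
      have h2 : (p.1.1.1.1 : Z) + p.1.1.1.2 ∈ X := p.1.1.2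
      rw [h1, zero_add] at h2
      exact h2
    · show (0 : Z) + t.1 ∈ X
      rw [zero_add]
      exact t.2.2
    · show (0 : Z) ∈ K
      exact K.zero_mem
    · show ((0 : Y) : Z) = 0
      rfl
    · have h1 : (p.1.1.1.1 : Z) = 0 := p.2
      apply Subtype.ext
      apply Subtype.ext
      apply Subtype.ext
      apply Prod.ext
      · apply Subtype.ext
        exact h1.symm
      · rfl
  have hr4 : LinearMap.range g4 = K := by
    apply le_antisymm
    · rintro _ ⟨p, rfl⟩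
      exact p.2
    · intro k hk
      obtain ⟨t, ht, s, hs, rfl⟩ := Submodule.mem_sup.1 hk
      have h3 : ((⟨t + s, Y.add_mem ht.1 hs.2⟩, ⟨-t, W.neg_mem ht.2⟩) : Y × W) ∈ P := by
        show (t + s) + -t ∈ X
        have : (t + s) + -t = s := by abel
        rw [this]
        exact hs.1
      exact ⟨⟨⟨_, h3⟩, hk⟩, rfl⟩
  rw [hk4, hr4] at c4
  have c5 : Nat.card K * Nat.card ↥(Y ⊓ W ⊓ (X ⊓ Y)) = Nat.card ↥(Y ⊓ W) * Nat.card ↥(X ⊓ Y) :=
    e1_card (Y ⊓ W) (X ⊓ Y)
  have hI : Y ⊓ W ⊓ (X ⊓ Y) = perpS β hbal (Y ⊔ W ⊔ X) := by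
    rw [perpS_sup, perpS_sup, hX, hY, hW]
    ext z
    constructor
    · rintro ⟨h1, h2⟩
      exact ⟨h1, h2.1⟩
    · rintro ⟨h1, h2⟩
      exact ⟨h1, h2, h1.1⟩
  have d1 := perpS_card β hbal hsymm (V := Y ⊔ W ⊔ X) (hRX.trans le_sup_right)
  have d2 := perpS_card β hbal hsymm hRX
  have d3 := perpS_card β hbal hsymm hRY
  have d4 := perpS_card β hbal hsymm hRW
  rw [← hI] at d1
  rw [hX] at d2
  rw [hY] at d3
  rw [hW] at d4
  have qY := card_pow (O := O) Y
  have qX := card_pow (O := O) X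
  have qXY := card_pow (O := O) ↥(X ⊓ Y)
  have qYW := card_pow (O := O) ↥(Y ⊓ W)
  have qWX := card_pow (O := O) ↥(W ⊓ X)
  have qI := card_pow (O := O) ↥(Y ⊓ W ⊓ (X ⊓ Y))
  have pZ : 0 < Nat.card Z := Nat.card_pos
  have pR : 0 < Nat.card (perpS β hbal (⊤ : Submodule O Z)) := Nat.card_pos
  have pX : 0 < Nat.card X := Nat.card_pos
  have pY : 0 < Nat.card Y := Nat.card_pos
  have pW : 0 < Nat.card W := Nat.card_pos
  have pS : 0 < Nat.card ↥(Y ⊔ W ⊔ X) := Nat.card_pos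
  have pI : 0 < Nat.card ↥(Y ⊓ W ⊓ (X ⊓ Y)) := Nat.card_pos
  have hXY : Nat.card X = Nat.card Y := by
    have := d2.trans d3.symm
    exact Nat.mul_self_inj.1 this
  have hWY : Nat.card W = Nat.card Y := by
    have := d4.trans d3.symm
    exact Nat.mul_self_inj.1 this
  change Nat.card P = _ at c1
  generalize Nat.card P = cP at *
  generalize Nat.card (K.comap p1) = cN at *
  generalize Nat.card K = cK at *
  generalize Nat.card ↥(Y ⊓ W ⊓ (X ⊓ Y)) = t at *
  generalize Nat.card ↥(Y ⊔ W ⊔ X) = s at *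
  generalize Nat.card ↥((Y ⊔ W) ⊓ X) = u at *
  generalize Nat.card ↥(Y ⊔ W) = v at *
  generalize Nat.card ↥(Y ⊓ W) = yw at *
  generalize Nat.card ↥(X ⊓ Y) = xy at *
  generalize Nat.card ↥(W ⊓ X) = wx at *
  rw [hXY] at d2 c2
  rw [hWY] at c3
  generalize Nat.card Y = y at *
  -- c1 : cP = yw * u, c2 : s * u = v * y, c3 : v * yw = y * y, d1 : s * t = .., d3 : y * y = ..
  have e1 : s * t = y * y := d1.trans d3.symm
  have e2 : cP = y * t := by
    have : s * cP = s * (y * t) := by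
      calc s * cP = yw * (s * u) := by rw [c1]; ring
        _ = (v * yw) * y := by rw [c2]; ring
        _ = (y * y) * y := by rw [c3]
        _ = (s * t) * y := by rw [e1]
        _ = s * (y * t) := by ring
    exact Nat.eq_of_mul_eq_mul_left pS this
  refine evPow_cancel (b := Nat.card (IsLocalRing.ResidueField O) ^ (2 * m)) q_two_le
    (isPow_mul (isPow_mul (isPow_mul qY qXY) qYW) qWX) ⟨m, rfl⟩ ?_
  have e3 : y * xy * yw * wx * Nat.card (IsLocalRing.ResidueField O) ^ (2 * m) = (y * t) ^ 2 := by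
    calc y * xy * yw * wx * Nat.card (IsLocalRing.ResidueField O) ^ (2 * m)
        = y * (yw * xy) * wx * Nat.card (IsLocalRing.ResidueField O) ^ (2 * m) := by ring
      _ = y * (cK * t) * wx * Nat.card (IsLocalRing.ResidueField O) ^ (2 * m) := by rw [c5]
      _ = y * t * (Nat.card (IsLocalRing.ResidueField O) ^ (2 * m) * (wx * cK)) := by ring
      _ = y * t * cP := by rw [← c4, ← hm]
      _ = (y * t) ^ 2 := by rw [e2]; ring
  rw [e3]
  exact evPow_sq (isPow_mul qY qI)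

/-- Three self-annihilating isotropic submodules; `X` only up to the radical. -/
theorem lag3 (β : Z →+ Z →+ A0) (hbal : ∀ (a : O) x y, β (a • x) y = β x (a • y))
    (hsymm : ∀ x y, β x y = β y x) (X Y W : Submodule O Z)
    (hX : perpS β hbal X = X ⊔ perpS β hbal ⊤) (hY : perpS β hbal Y = Y)
    (hW : perpS β hbal W = W)
    (halt : ∀ (a : O), ∀ y ∈ Y, ∀ w ∈ W, y + w ∈ X → β (a • y) w = 0) :
    EvPow (Nat.card (IsLocalRing.ResidueField O))
      (Nat.card Y * Nat.card ↥(X ⊓ Y) * Nat.card ↥(Y ⊓ W) * Nat.card ↥(X ⊓ W)) := by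
  have hRY : perpS β hbal ⊤ ≤ Y := by
    rw [← hY]; exact perpS_top_le β hbal _
  have hRW : perpS β hbal ⊤ ≤ W := by
    rw [← hW]; exact perpS_top_le β hbal _
  have h1 := e1_core β hbal hsymm (X ⊔ perpS β hbal ⊤) Y W
    (by rw [perpS_sup, perpS_rad β hbal hsymm, inf_top_eq, hX]) hY hW (by
      intro a y hy w hw hyw
      obtain ⟨x, hx, r, hr, hxr⟩ := Submodule.mem_sup.1 hyw
      have h2 := halt a (y - r) (Y.sub_mem hy (hRY hr)) w hw (by
        have : y - r + w = x := by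
          rw [← sub_eq_zero]
          have h3 : y - r + w - x = (y + w) - (x + r) := by abel
          rw [h3, hxr, sub_self]
        rw [this]
        exact hx)
      have h4 : β (a • r) w = 0 := by
        rw [hbal, hsymm]
        exact hr _ trivial
      rw [smul_sub, map_sub, AddMonoidHom.sub_apply, h4, sub_zero] at h2
      exact h2)
  have hm : ∀ V : Submodule O Z, perpS β hbal ⊤ ≤ V →
      Nat.card ↥((X ⊔ perpS β hbal ⊤) ⊓ V) * Nat.card ↥(X ⊓ perpS β hbal ⊤) =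
        Nat.card ↥(X ⊓ V) * Nat.card (perpS β hbal (⊤ : Submodule O Z)) := by
    intro V hV
    have h2 : (X ⊔ perpS β hbal ⊤) ⊓ V = (X ⊓ V) ⊔ perpS β hbal ⊤ := by
      rw [sup_comm X, sup_comm (X ⊓ V)]
      exact (sup_inf_assoc_of_le X hV)
    have h3 := e1_card (X ⊓ V) (perpS β hbal ⊤)
    rw [inf_assoc, inf_eq_right.2 hV] at h3
    rw [h2]
    exact h3
  have hmY := hm Y hRY
  have hmW := hm W hRW
  rw [inf_comm W] at h1
  have qY := card_pow (O := O) Y
  have qXY := card_pow (O := O) ↥(X ⊓ Y)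
  have qYW := card_pow (O := O) ↥(Y ⊓ W)
  have qWX := card_pow (O := O) ↥(X ⊓ W)
  have qR := card_pow (O := O) (perpS β hbal (⊤ : Submodule O Z))
  have qXR := card_pow (O := O) ↥(X ⊓ perpS β hbal (⊤ : Submodule O Z))
  generalize Nat.card ↥((X ⊔ perpS β hbal ⊤) ⊓ Y) = xy' at *
  generalize Nat.card ↥((X ⊔ perpS β hbal ⊤) ⊓ W) = xw' at *
  generalize Nat.card ↥(X ⊓ perpS β hbal ⊤) = xr at *
  generalize Nat.card ↥(perpS β hbal ⊤) = r at *
  generalize Nat.card ↥(Y ⊓ W) = yw at *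
  generalize Nat.card ↥(X ⊓ Y) = xy at *
  generalize Nat.card ↥(X ⊓ W) = xw at *
  generalize Nat.card Y = y at *
  refine evPow_cancel (b := r ^ 2) q_two_le
    (isPow_mul (isPow_mul (isPow_mul qY qXY) qYW) qWX) (evPow_sq qR) ?_
  have e3 : y * xy * yw * xw * r ^ 2 = (y * xy' * yw * xw') * xr ^ 2 := by
    calc y * xy * yw * xw * r ^ 2 = y * (xy * r) * yw * (xw * r) := by ring
      _ = y * (xy' * xr) * yw * (xw' * xr) := by rw [hmY, hmW]
      _ = _ := by ring
  rw [e3]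
  exact evPow_mul h1 (evPow_sq qXR)

end lag

section change

variable {O : Type*} [CommRing O] [IsLocalRing O] [Finite (IsLocalRing.ResidueField O)]
  {F : Type*} [AddCommGroup F] [Module O F] [Finite F]
  {Z₁ : Type*} [AddCommGroup Z₁] [Module O Z₁] [Finite Z₁]
  {Z₂ : Type*} [AddCommGroup Z₂] [Module O Z₂] [Finite Z₂]

/-- the orthogonal sum of two pairings -/
noncomputable def sumB (β₁ : Z₁ →+ Z₁ →+ A0) (β₂ : Z₂ →+ Z₂ →+ A0) :
    (Z₁ × Z₂) →+ (Z₁ × Z₂) →+ A0 :=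
  ((β₁.comp (AddMonoidHom.fst Z₁ Z₂)).flip.comp (AddMonoidHom.fst Z₁ Z₂)).flip +
    ((β₂.comp (AddMonoidHom.snd Z₁ Z₂)).flip.comp (AddMonoidHom.snd Z₁ Z₂)).flip

theorem sumB_apply (β₁ : Z₁ →+ Z₁ →+ A0) (β₂ : Z₂ →+ Z₂ →+ A0) (x y : Z₁ × Z₂) :
    sumB β₁ β₂ x y = β₁ x.1 y.1 + β₂ x.2 y.2 := rfl

/-- **Change of self-annihilating conditions.** `F` is a module with maps `r₁`, `r₂` to `Z₁`, `Z₂`, whose image
in `Z₁ × Z₂` has as annihilator the image plus the radical; `V` is a self-annihilating condition in `Z₁`, and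
`Y`, `W` are two self-annihilating conditions in `Z₂`. -/
theorem change_abs (β₁ : Z₁ →+ Z₁ →+ A0) (β₂ : Z₂ →+ Z₂ →+ A0)
    (hbal₁ : ∀ (a : O) x y, β₁ (a • x) y = β₁ x (a • y))
    (hbal₂ : ∀ (a : O) x y, β₂ (a • x) y = β₂ x (a • y))
    (hs₁ : ∀ x y, β₁ x y = β₁ y x) (hs₂ : ∀ x y, β₂ x y = β₂ y x)
    (r₁ : F →ₗ[O] Z₁) (r₂ : F →ₗ[O] Z₂)
    (h0 : ∀ x x' : F, β₁ (r₁ x) (r₁ x') + β₂ (r₂ x) (r₂ x') = 0)
    (hmid : ∀ z₁ z₂, (∀ x : F, β₁ (r₁ x) z₁ + β₂ (r₂ x) z₂ = 0) →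
      ∃ x : F, (∀ t, β₁ t (z₁ - r₁ x) = 0) ∧ ∀ t, β₂ t (z₂ - r₂ x) = 0)
    (V : Submodule O Z₁) (hV : perpS β₁ hbal₁ V = V) (Y W : Submodule O Z₂)
    (hY : perpS β₂ hbal₂ Y = Y) (hW : perpS β₂ hbal₂ W = W)
    (halt : ∀ (a : O) (x : F), r₁ x ∈ V → ∀ y ∈ Y, ∀ w ∈ W, r₂ x = y + w → β₂ (a • y) w = 0) :
    EvPow (Nat.card (IsLocalRing.ResidueField O))
      (Nat.card ↥(V.comap r₁ ⊓ Y.comap r₂) * Nat.card ↥(V.comap r₁ ⊓ W.comap r₂) *
        (Nat.card Y * Nat.card ↥(Y ⊓ W))) := by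
  let β := sumB β₁ β₂
  have hbal : ∀ (a : O) (x y : Z₁ × Z₂), β (a • x) y = β x (a • y) := by
    intro a x y
    show β₁ (a • x.1) y.1 + β₂ (a • x.2) y.2 = β₁ x.1 (a • y.1) + β₂ x.2 (a • y.2)
    rw [hbal₁, hbal₂]
  have hsymm : ∀ x y : Z₁ × Z₂, β x y = β y x := by
    intro x y
    show β₁ x.1 y.1 + β₂ x.2 y.2 = β₁ y.1 x.1 + β₂ y.2 x.2
    rw [hs₁, hs₂]
  have hR : ∀ z : Z₁ × Z₂, z ∈ perpS β hbal ⊤ ↔ z.1 ∈ perpS β₁ hbal₁ ⊤ ∧
      z.2 ∈ perpS β₂ hbal₂ ⊤ := by
    intro z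
    constructor
    · intro hz
      refine ⟨fun t _ => ?_, fun t _ => ?_⟩
      · have h1 := hz (t, 0) trivial
        rw [sumB_apply, map_zero, AddMonoidHom.zero_apply, add_zero] at h1
        exact h1
      · have h1 := hz (0, t) trivial
        rw [sumB_apply, map_zero, AddMonoidHom.zero_apply, zero_add] at h1
        exact h1
    · rintro ⟨h1, h2⟩ t _
      rw [sumB_apply, h1 _ trivial, h2 _ trivial, add_zero]
  have hL : perpS β hbal (LinearMap.range (r₁.prod r₂)) =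
      LinearMap.range (r₁.prod r₂) ⊔ perpS β hbal ⊤ := by
    apply le_antisymm
    · intro z hz
      obtain ⟨x, h1, h2⟩ := hmid z.1 z.2 (fun x => hz _ ⟨x, rfl⟩)
      refine Submodule.mem_sup.2 ⟨_, ⟨x, rfl⟩, z - (r₁ x, r₂ x), ?_, ?_⟩
      · rw [hR]
        exact ⟨fun t _ => h1 t, fun t _ => h2 t⟩
      · show (r₁ x, r₂ x) + (z - (r₁ x, r₂ x)) = z
        abel
    · rw [sup_le_iff]
      refine ⟨?_, perpS_top_le β hbal _⟩
      rintro _ ⟨x, rfl⟩ _ ⟨x', rfl⟩
      exact h0 x' x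
  -- the image in `Z₂` of the elements with condition `V`
  let X : Submodule O Z₂ := (V.comap r₁).map r₂
  have hVT : perpS β hbal (V.prod ⊤) = V.prod (perpS β₂ hbal₂ ⊤) := by
    ext z
    constructor
    · intro hz
      refine ⟨?_, fun t _ => ?_⟩
      · show z.1 ∈ V
        rw [← hV]
        intro v hv
        have h1 := hz (v, 0) ⟨hv, trivial⟩
        rw [sumB_apply, map_zero, AddMonoidHom.zero_apply, add_zero] at h1
        exact h1
      · have h1 := hz (0, t) ⟨V.zero_mem, trivial⟩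
        rw [sumB_apply, map_zero, AddMonoidHom.zero_apply, zero_add] at h1
        exact h1
    · rintro ⟨h1, h2⟩ t ht
      have h3 : z.1 ∈ perpS β₁ hbal₁ V := by rw [hV]; exact h1
      rw [sumB_apply, h3 _ ht.1, h2 _ trivial, add_zero]
  have hX : perpS β₂ hbal₂ X = X ⊔ perpS β₂ hbal₂ ⊤ := by
    apply le_antisymm
    · intro z hz
      have h1 : ((0, z) : Z₁ × Z₂) ∈
          perpS β hbal (LinearMap.range (r₁.prod r₂) ⊓ V.prod ⊤) := by
        rintro _ ⟨⟨x, rfl⟩, hx⟩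
        rw [sumB_apply]
        have h2 := hz (r₂ x) ⟨x, hx.1, rfl⟩
        show β₁ (r₁ x) 0 + β₂ (r₂ x) z = 0
        rw [h2, map_zero, add_zero]
      rw [perpS_inf β hbal hsymm _ _ hL (by
        intro z hz
        refine ⟨?_, trivial⟩
        show z.1 ∈ V
        rw [← hV]
        exact perpS_top_le _ _ _ ((hR z).1 hz).1), hVT] at h1
      obtain ⟨_, ⟨x, rfl⟩, v, hv, hxv⟩ := Submodule.mem_sup.1 h1
      have e1 : r₁ x + v.1 = 0 := congrArg Prod.fst hxv
      have e2 : r₂ x + v.2 = z := congrArg Prod.snd hxv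
      refine Submodule.mem_sup.2 ⟨r₂ x, ⟨x, ?_, rfl⟩, v.2, hv.2, e2⟩
      show r₁ x ∈ V
      rw [eq_neg_of_add_eq_zero_left e1]
      exact V.neg_mem hv.1
    · rw [sup_le_iff]
      refine ⟨?_, perpS_top_le _ _ _⟩
      rintro _ ⟨x, hx, rfl⟩ _ ⟨x', hx', rfl⟩
      have h1 := h0 x' x
      have h2 : r₁ x ∈ perpS β₁ hbal₁ V := by rw [hV]; exact hx
      rw [h2 _ hx', zero_add] at h1
      exact h1
  have h1 := lag3 β₂ hbal₂ hs₂ X Y W hX hY hW (by
    intro a y hy w hw hyw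
    obtain ⟨x, hx, hxw⟩ := hyw
    exact halt a x hx y hy w hw hxw)
  -- cards
  have hc : ∀ U : Submodule O Z₂, Nat.card ↥(V.comap r₁ ⊓ U.comap r₂) =
      Nat.card ↥(V.comap r₁ ⊓ LinearMap.ker r₂) * Nat.card ↥(X ⊓ U) := by
    intro U
    let g : ↥(V.comap r₁) →ₗ[O] Z₂ := r₂.comp (V.comap r₁).subtype
    have h2 := e1_comap g U
    have h3 : Nat.card ↥(U.comap g) = Nat.card ↥(V.comap r₁ ⊓ U.comap r₂) :=
      Nat.card_congr ⟨fun x => ⟨x.1.1, x.1.2, x.2⟩, fun x => ⟨⟨x.1, x.2.1⟩, x.2.2⟩,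
        fun x => rfl, fun x => rfl⟩
    have h4 : Nat.card (LinearMap.ker g) = Nat.card ↥(V.comap r₁ ⊓ LinearMap.ker r₂) :=
      Nat.card_congr ⟨fun x => ⟨x.1.1, x.1.2, x.2⟩, fun x => ⟨⟨x.1, x.2.1⟩, x.2.2⟩,
        fun x => rfl, fun x => rfl⟩
    have h5 : LinearMap.range g = X := by
      rw [LinearMap.range_comp, Submodule.range_subtype]
    rw [h3, h4, h5] at h2
    exact h2
  rw [hc Y, hc W]
  have qK := card_pow (O := O) ↥(V.comap r₁ ⊓ LinearMap.ker r₂)
  have e : Nat.card ↥(V.comap r₁ ⊓ LinearMap.ker r₂) * Nat.card ↥(X ⊓ Y) *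
      (Nat.card ↥(V.comap r₁ ⊓ LinearMap.ker r₂) * Nat.card ↥(X ⊓ W)) *
        (Nat.card Y * Nat.card ↥(Y ⊓ W)) =
      (Nat.card Y * Nat.card ↥(X ⊓ Y) * Nat.card ↥(Y ⊓ W) * Nat.card ↥(X ⊓ W)) *
        Nat.card ↥(V.comap r₁ ⊓ LinearMap.ker r₂) ^ 2 := by ring
  rw [e]
  exact evPow_mul h1 (evPow_sq qK)

end change

end Pool.Agent.Work.MP_787500_nt.KR
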