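import Mathlib
import Pool.Agent.Work.MP_787500_nt.KR.E1_Lag

/-!
# Change of self-annihilating isotropic conditions, all places at once (phase G2, item (1), algebra)

`F` (the global cocycles) is a finite `O`-module with maps `r i` to the finite modules `Z i` (the local cocycles),
`β i` symmetric balanced forms on `Z i` (possibly degenerate), `Q i a` functions on `Z i` with polar form
`β i (a • x) y`. If the image of `F` in the product of the `Z i` has as annihilator the image plus the radical, and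
the sum of the `Q i a` vanishes on the image, then for two families `Y`, `W` of submodules `Y i`, `W i` that are
their own annihilators and on which all `Q i a` vanish,
`|Sel Y| |Sel W| (∏ |Y i| ∏ |Y i ∩ W i|)` is an even power of the order of the residue field.
-/

set_option autoImplicit false
set_option linter.unusedSectionVars false

namespace Pool.Agent.Work.MP_787500_nt.KR

open Pool.Agent.Work.MP_787500_nt.GP

section pi

variable {O : Type*} [CommRing O] {I : Type*} [Fintype I] {Z : I → Type*}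
  [∀ i, AddCommGroup (Z i)] [∀ i, Module O (Z i)]

/-- the orthogonal sum of a family of pairings -/
noncomputable def piB (β : ∀ i, Z i →+ Z i →+ A0) : (∀ i, Z i) →+ (∀ i, Z i) →+ A0 :=
  AddMonoidHom.mk' (fun x => AddMonoidHom.mk' (fun y => ∑ i, β i (x i) (y i)) (fun y y' => by
      rw [← Finset.sum_add_distrib]
      exact Finset.sum_congr rfl fun i _ => map_add _ _ _))
    (fun x x' => by
      ext y
      show ∑ i, β i (x i + x' i) (y i) = ∑ i, β i (x i) (y i) + ∑ i, β i (x' i) (y i)
      rw [← Finset.sum_add_distrib]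
      exact Finset.sum_congr rfl fun i _ => by rw [map_add, AddMonoidHom.add_apply])

theorem piB_apply (β : ∀ i, Z i →+ Z i →+ A0) (x y : ∀ i, Z i) :
    piB β x y = ∑ i, β i (x i) (y i) := rfl

/-- the product of a family of submodules -/
def piS (Y : ∀ i, Submodule O (Z i)) : Submodule O (∀ i, Z i) where
  carrier := {z | ∀ i, z i ∈ Y i}
  add_mem' := fun h h' i => (Y i).add_mem (h i) (h' i)
  zero_mem' := fun i => (Y i).zero_mem
  smul_mem' := fun a _ h i => (Y i).smul_mem a (h i)

theorem mem_piS (Y : ∀ i, Submodule O (Z i)) (z : ∀ i, Z i) : z ∈ piS Y ↔ ∀ i, z i ∈ Y i := Iff.rfl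

theorem card_piS (Y : ∀ i, Submodule O (Z i)) : Nat.card (piS Y) = ∏ i, Nat.card (Y i) := by
  rw [← Nat.card_pi]
  exact Nat.card_congr ⟨fun z i => ⟨z.1 i, z.2 i⟩, fun z => ⟨fun i => z i, fun i => (z i).2⟩,
    fun z => rfl, fun z => rfl⟩

theorem piS_inf (Y W : ∀ i, Submodule O (Z i)) : piS Y ⊓ piS W = piS fun i => Y i ⊓ W i := by
  ext z
  exact ⟨fun h i => ⟨h.1 i, h.2 i⟩, fun h => ⟨fun i => (h i).1, fun i => (h i).2⟩⟩

variable (β : ∀ i, Z i →+ Z i →+ A0) (hbal : ∀ i (a : O) x y, β i (a • x) y = β i x (a • y))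

theorem piB_single [DecidableEq I] (i : I) (t : Z i) (z : ∀ i, Z i) :
    piB β (Pi.single i t) z = β i t (z i) := by
  rw [piB_apply, Finset.sum_eq_single i]
  · rw [Pi.single_eq_same]
  · intro k _ hk
    rw [Pi.single_eq_of_ne hk, map_zero, AddMonoidHom.zero_apply]
  · intro h
    exact absurd (Finset.mem_univ i) h

include hbal in
theorem piB_bal (a : O) (x y : ∀ i, Z i) : piB β (a • x) y = piB β x (a • y) := by
  rw [piB_apply, piB_apply]
  exact Finset.sum_congr rfl fun i _ => hbal i a _ _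

theorem piB_symm (hsymm : ∀ i x y, β i x y = β i y x) (x y : ∀ i, Z i) :
    piB β x y = piB β y x := by
  rw [piB_apply, piB_apply]
  exact Finset.sum_congr rfl fun i _ => hsymm i _ _

theorem perpS_piS (Y : ∀ i, Submodule O (Z i)) :
    perpS (O := O) (Z := ∀ i, Z i) (piB β) (piB_bal β hbal) (piS Y) = piS fun i => perpS (β i) (hbal i) (Y i) := by
  classical
  ext z
  constructor
  · intro hz i y hy
    have h1 := hz (Pi.single i y) (fun k => by
      by_cases hk : k = i
      · subst hk
        rw [Pi.single_eq_same]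
        exact hy
      · rw [Pi.single_eq_of_ne hk]
        exact (Y k).zero_mem)
    rwa [piB_single] at h1
  · intro hz y hy
    rw [piB_apply]
    exact Finset.sum_eq_zero fun i _ => hz i _ (hy i)

theorem mem_perpS_top (z : ∀ i, Z i) :
    z ∈ perpS (O := O) (Z := ∀ i, Z i) (piB β) (piB_bal β hbal) ⊤ ↔ ∀ i t, β i t (z i) = 0 := by
  classical
  constructor
  · intro hz i t
    have h1 := hz (Pi.single i t) trivial
    rwa [piB_single] at h1
  · intro hz y _
    rw [piB_apply]
    exact Finset.sum_eq_zero fun i _ => hz i _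

end pi

section change

variable {O : Type*} [CommRing O] [IsLocalRing O] [Finite (IsLocalRing.ResidueField O)]
  {F : Type*} [AddCommGroup F] [Module O F] [Finite F]

private theorem ec_map {A B : Type*} [AddCommGroup A] [Module O A] [AddCommGroup B] [Module O B]
    (g : A →ₗ[O] B) (V : Submodule O B) :
    Nat.card (V.comap g) = Nat.card (LinearMap.ker g) * Nat.card ↥(LinearMap.range g ⊓ V) := by
  let g' : ↥(V.comap g) →ₗ[O] B := g.comp (V.comap g).subtype
  have h1 : Nat.card (V.comap g) = Nat.card (LinearMap.ker g') * Nat.card (LinearMap.range g') := by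
    rw [Submodule.card_eq_card_quotient_mul_card (LinearMap.ker g'),
      Nat.card_congr g'.quotKerEquivRange.toEquiv]
  have h2 : LinearMap.range g' = LinearMap.range g ⊓ V := by
    ext y
    constructor
    · rintro ⟨x, rfl⟩
      exact ⟨⟨x.1, rfl⟩, x.2⟩
    · rintro ⟨⟨x, rfl⟩, hy⟩
      exact ⟨⟨x, hy⟩, rfl⟩
  have h3 : Nat.card (LinearMap.ker g') = Nat.card (LinearMap.ker g) := by
    refine Nat.card_congr ⟨fun x => ⟨x.1.1, x.2⟩, fun x => ⟨⟨x.1, ?_⟩, x.2⟩,
      fun x => rfl, fun x => rfl⟩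
    show g x.1 ∈ V
    rw [show g x.1 = 0 from x.2]
    exact V.zero_mem
  rw [h2, h3] at h1
  exact h1

/-- change of conditions, one module of local conditions -/
theorem change_one {Z : Type*} [AddCommGroup Z] [Module O Z] [Finite Z] (β : Z →+ Z →+ A0)
    (hbal : ∀ (a : O) x y, β (a • x) y = β x (a • y)) (hsymm : ∀ x y, β x y = β y x)
    (r : F →ₗ[O] Z) (h0 : ∀ x x' : F, β (r x) (r x') = 0)
    (hmid : ∀ z, (∀ x : F, β (r x) z = 0) → ∃ x : F, ∀ t, β t (z - r x) = 0)
    (Y W : Submodule O Z) (hY : perpS β hbal Y = Y) (hW : perpS β hbal W = W)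
    (halt : ∀ (a : O) (x : F), ∀ y ∈ Y, ∀ w ∈ W, r x = y + w → β (a • y) w = 0) :
    EvPow (Nat.card (IsLocalRing.ResidueField O))
      (Nat.card ↥(Y.comap r) * Nat.card ↥(W.comap r) * (Nat.card Y * Nat.card ↥(Y ⊓ W))) := by
  have hX : perpS β hbal (LinearMap.range r) = LinearMap.range r ⊔ perpS β hbal ⊤ := by
    apply le_antisymm
    · intro z hz
      obtain ⟨x, h1⟩ := hmid z (fun x => hz _ (LinearMap.mem_range_self r x))
      have h2 : z - r x ∈ perpS β hbal ⊤ := fun t _ => h1 t
      have h3 := Submodule.add_mem_sup (LinearMap.mem_range_self r x) h2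
      rw [add_sub_cancel] at h3
      exact h3
    · rw [sup_le_iff]
      refine ⟨?_, perpS_top_le β hbal _⟩
      intro z hz t ht
      obtain ⟨x, rfl⟩ := LinearMap.mem_range.1 hz
      obtain ⟨x', rfl⟩ := LinearMap.mem_range.1 ht
      exact h0 x' x
  have h1 := lag3 β hbal hsymm (LinearMap.range r) Y W hX hY hW (by
    intro a y hy w hw hyw
    obtain ⟨x, hx⟩ := hyw
    exact halt a x y hy w hw hx)
  rw [ec_map r Y, ec_map r W]
  have qK := card_pow (O := O) ↥(LinearMap.ker r)
  have e : Nat.card ↥(LinearMap.ker r) * Nat.card ↥(LinearMap.range r ⊓ Y) *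
      (Nat.card ↥(LinearMap.ker r) * Nat.card ↥(LinearMap.range r ⊓ W)) *
        (Nat.card Y * Nat.card ↥(Y ⊓ W)) =
      (Nat.card Y * Nat.card ↥(LinearMap.range r ⊓ Y) * Nat.card ↥(Y ⊓ W) *
        Nat.card ↥(LinearMap.range r ⊓ W)) * Nat.card ↥(LinearMap.ker r) ^ 2 := by ring
  rw [e]
  exact evPow_mul h1 (evPow_sq qK)

/-- **Change of conditions at all places.** -/
theorem change_pi {I : Type*} [Fintype I] {Z : I → Type*} [∀ i, AddCommGroup (Z i)]
    [∀ i, Module O (Z i)] [∀ i, Finite (Z i)] (β : ∀ i, Z i →+ Z i →+ A0)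
    (hbal : ∀ i (a : O) x y, β i (a • x) y = β i x (a • y)) (hsymm : ∀ i x y, β i x y = β i y x)
    (Q : ∀ i, O → Z i → A0) (hQ : ∀ i a x y, Q i a (x + y) = Q i a x + Q i a y + β i (a • x) y)
    (r : ∀ i, F →ₗ[O] Z i) (h0 : ∀ x x' : F, ∑ i, β i (r i x) (r i x') = 0)
    (hmid : ∀ z : ∀ i, Z i, (∀ x : F, ∑ i, β i (r i x) (z i) = 0) →
      ∃ x : F, ∀ i t, β i t (z i - r i x) = 0)
    (hQr : ∀ (a : O) (x : F), ∑ i, Q i a (r i x) = 0) (Y W : ∀ i, Submodule O (Z i))
    (hY : ∀ i, perpS (β i) (hbal i) (Y i) = Y i) (hW : ∀ i, perpS (β i) (hbal i) (W i) = W i)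
    (hQY : ∀ i a, ∀ y ∈ Y i, Q i a y = 0) (hQW : ∀ i a, ∀ w ∈ W i, Q i a w = 0)
    (A A' : Submodule O F) (hA : ∀ x, x ∈ A ↔ ∀ i, r i x ∈ Y i)
    (hA' : ∀ x, x ∈ A' ↔ ∀ i, r i x ∈ W i) :
    EvPow (Nat.card (IsLocalRing.ResidueField O))
      (Nat.card A * Nat.card A' * ((∏ i, Nat.card (Y i)) * ∏ i, Nat.card ↥(Y i ⊓ W i))) := by
  have h1 := change_one (O := O) (Z := ∀ i, Z i) (piB β) (piB_bal β hbal) (piB_symm β hsymm)
    (LinearMap.pi r) (fun x x' => h0 x x') (fun z hz => by
      obtain ⟨x, hx⟩ := hmid z fun x => hz x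
      refine ⟨x, fun t => ?_⟩
      rw [piB_apply]
      exact Finset.sum_eq_zero fun i _ => hx i _) (piS Y) (piS W)
    (by rw [perpS_piS]; congr 1; funext i; exact hY i)
    (by rw [perpS_piS]; congr 1; funext i; exact hW i) (by
      intro a x y hy w hw hxyw
      rw [piB_apply]
      have h2 := hQr a x
      have h3 : ∀ i, Q i a (r i x) = β i ((a • y) i) (w i) := by
        intro i
        have h4 : r i x = y i + w i := congrFun hxyw i
        rw [h4, hQ, hQY i a _ (hy i), hQW i a _ (hw i), zero_add, zero_add]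
        rfl
      rw [← h2]
      exact Finset.sum_congr rfl fun i _ => (h3 i).symm)
  have eA : A = (piS Y).comap (LinearMap.pi r) := by
    ext x
    exact hA x
  have eA' : A' = (piS W).comap (LinearMap.pi r) := by
    ext x
    exact hA' x
  rw [card_piS, piS_inf, card_piS] at h1
  rw [eA, eA']
  exact h1

end change

end Pool.Agent.Work.MP_787500_nt.KR
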