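import Mathlib
import Pool.Agent.Work.MP_787500_nt.GP.ADefs
import Pool.Agent.Work.MP_787500_nt.GP.FinDefs
import Pool.Agent.Work.MP_787500_nt.KR.L05
import Pool.Agent.Work.MP_787500_nt.KR.LDefs
import Pool.Agent.Work.MP_787500_nt.Gn.NoHom
import Pool.Agent.Work.MP_787500_nt.Gn.Stab
import Pool.Agent.Work.MP_787500_nt.Gn.SmallX
import Pool.Agent.Work.MP_787500_nt.Gn.RhoB

/-!
Continuous cocycles of a compact group and the system of the open normal subgroups that meet the open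
normal subgroup `N` in a subgroup of 2-power index (version of `HP/CocSub.lean`, where `N = ⊤`).
-/

set_option autoImplicit false
set_option linter.unusedSectionVars false

namespace Pool.Agent.Work.MP_787500_nt.KR

open Matrix
open Pool.Agent.Work.MP_787500_nt.PA (toE)
open Pool.Agent.Work.MP_787500_nt.GP
open Pool.Agent.Work.MP_787500_nt.Gn (GoodG)

/-- the system of the open normal subgroups that contain `I` and meet `N` in a subgroup of 2-power index -/
def IsBig {H : Type*} [Group H] [TopologicalSpace H] (N : Subgroup H) (I : Set H) (S : FSys H) : Prop :=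
  ∀ W, S.mem W ↔ W.Normal ∧ IsOpen (W : Set H) ∧ (∀ σ ∈ I, σ ∈ W) ∧ ∃ k : ℕ, W.relIndex N = 2 ^ k

section ambient

variable {H : Type*} [Group H] [TopologicalSpace H] [IsTopologicalGroup H] [CompactSpace H]

theorem base_of {N : Subgroup H} (hN : N.Normal) (hNo : IsOpen (N : Set H)) : Gn.Base N (∅ : Set H) :=
  ⟨hN, hNo, fun _ h => h.elim, fun _ _ h => h.elim⟩

theorem relIndex_of_good {N W : Subgroup H} {I : Set H} (h : GoodG 2 N I W) :
    ∃ k : ℕ, W.relIndex N = 2 ^ k := by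
  have h1 := h.normal
  have h2 : Finite (N ⧸ W.subgroupOf N) := by
    have : Finite (H ⧸ W) := Subgroup.quotient_finite_of_isOpen W h.isOpen
    have h3 : W.FiniteIndex := Subgroup.finiteIndex_of_finite_quotient
    have h4 : (W.subgroupOf N).FiniteIndex := inferInstance
    exact Subgroup.finite_quotient_of_finiteIndex
  have h5 : IsPGroup 2 (N ⧸ W.subgroupOf N) := by
    intro q
    obtain ⟨g, rfl⟩ := QuotientGroup.mk'_surjective _ q
    obtain ⟨k, hk⟩ := h.pow g g.2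
    refine ⟨k, ?_⟩
    rw [← map_pow]
    refine (QuotientGroup.eq_one_iff _).2 ?_
    rw [Subgroup.mem_subgroupOf]
    exact hk
  have : Fact (Nat.Prime 2) := ⟨Nat.prime_two⟩
  obtain ⟨k, hk⟩ := (IsPGroup.iff_card).1 h5
  exact ⟨k, hk⟩

theorem IsBig.mem_of {N : Subgroup H} {I : Set H} {S : FSys H} (hS : IsBig N I S) {W : Subgroup H}
    (h : GoodG 2 N I W) : S.mem W :=
  (hS W).2 ⟨h.normal, h.isOpen, h.inertia, relIndex_of_good h⟩

theorem IsBig.good {N : Subgroup H} {I : Set H} {S : FSys H} (hS : IsBig N I S) (hB : Gn.Base N I)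
    {W : Subgroup H} (h : S.mem W) : GoodG 2 N I (W ⊓ N) := by
  obtain ⟨h1, h2, h3, k, hk⟩ := (hS W).1 h
  have h4 := hB.normal
  refine ⟨inferInstance, h2.inter hB.isOpen, inf_le_right, fun g hg => ⟨k, ?_, N.pow_mem hg _⟩,
    fun σ hσ => ⟨h3 σ hσ, hB.le σ hσ⟩⟩
  have h5 := Subgroup.pow_index_mem (W.subgroupOf N) ⟨g, hg⟩
  rw [show (W.subgroupOf N).index = 2 ^ k from hk, Subgroup.mem_subgroupOf] at h5
  exact h5

theorem IsBig.n1 {N : Subgroup H} {I : Set H} {S : FSys H} (hS : IsBig N I S) (hB : Gn.Base N I)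
    {A : Type*} [NormedAddCommGroup A] {z : H → A} : KP.N1 S z ↔ Gn.N1 (GoodG 2 N I) z := by
  constructor
  · intro h ε hε
    obtain ⟨W, hW, h1⟩ := h ε hε
    exact ⟨_, hS.good hB hW, fun g w hw => h1 g w hw.1⟩
  · intro h ε hε
    obtain ⟨W, hW, h1⟩ := h ε hε
    exact ⟨W, hS.mem_of hW, h1⟩

/-- a compact group with its own maximal pro-2 quotient -/
theorem setup_of {N : Subgroup H} (hN : N.Normal) (hNo : IsOpen (N : Set H))
    (hbasis : ∀ O ∈ nhds (1 : H), ∃ U : Subgroup H, IsOpen (U : Set H) ∧ (U : Set H) ⊆ O) :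
    Gn.Setup 2 N (∅ : Set H) ⊤ := by
  refine ⟨base_of hN hNo, hbasis, isClosed_univ, fun W _ g => ⟨g, trivial, ?_⟩, ?_⟩
  · rw [inv_mul_cancel]
    exact W.one_mem
  · rintro W hW lam hlam ⟨U', hU', h0⟩
    have hWn := hW.normal
    have hadd : ∀ g ∈ W, ∀ h ∈ W, lam (g * h) = lam g + lam h := fun g hg h hh =>
      hlam g ⟨trivial, hg⟩ h ⟨trivial, hh⟩
    have h1 : lam 1 = 0 := by
      have := hadd 1 W.one_mem 1 W.one_mem
      rw [mul_one] at this
      exact left_eq_add.1 this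
    have hinv : ∀ g ∈ W, lam g⁻¹ = -lam g := by
      intro g hg
      have := hadd g hg g⁻¹ (W.inv_mem hg)
      rw [mul_inv_cancel, h1] at this
      exact (neg_eq_of_add_eq_zero_right this.symm).symm
    have hcj : ∀ g ∈ W, ∀ h : H, h⁻¹ * g * h ∈ W := by
      intro g hg h
      have := hWn.conj_mem g hg h⁻¹
      rwa [inv_inv] at this
    let W' : Subgroup H :=
      { carrier := {g | g ∈ W ∧ ∀ h : H, lam (h⁻¹ * g * h) = 0}
        mul_mem' := by
          rintro g g' ⟨hg, hg'⟩ ⟨hk, hk'⟩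
          refine ⟨W.mul_mem hg hk, fun h => ?_⟩
          have e : h⁻¹ * (g * g') * h = (h⁻¹ * g * h) * (h⁻¹ * g' * h) := by group
          rw [e, hadd _ (hcj g hg h) _ (hcj g' hk h), hg', hk', add_zero]
        one_mem' := ⟨W.one_mem, fun h => by
          rw [mul_one, inv_mul_cancel, h1]⟩
        inv_mem' := by
          rintro g ⟨hg, hg'⟩
          refine ⟨W.inv_mem hg, fun h => ?_⟩
          have e : h⁻¹ * g⁻¹ * h = (h⁻¹ * g * h)⁻¹ := by group
          rw [e, hinv _ (hcj g hg h), hg', neg_zero] }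
    have hmem : ∀ g, g ∈ W' ↔ g ∈ W ∧ ∀ h : H, lam (h⁻¹ * g * h) = 0 := fun g => Iff.rfl
    have hfi : U'.FiniteIndex := by
      have : Finite (H ⧸ U') := Subgroup.quotient_finite_of_isOpen U' hU'
      exact Subgroup.finiteIndex_of_finite_quotient
    have hcore : IsOpen (U'.normalCore : Set H) := by
      have h3 : IsClosed (U'.normalCore : Set H) := by
        have h4 : (U'.normalCore : Set H) = ⋂ g : H, {x | g * x * g⁻¹ ∈ U'} := by
          ext x
          simp only [SetLike.mem_coe, Set.mem_iInter, Set.mem_ofPred_eq]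
          exact Iff.rfl
        rw [h4]
        refine isClosed_iInter fun g => ?_
        exact (Subgroup.isClosed_of_isOpen U' hU').preimage (by fun_prop)
      have h4 : U'.normalCore.FiniteIndex := inferInstance
      exact Subgroup.isOpen_of_isClosed_of_finiteIndex _ h3
    refine ⟨lam, ⟨W', ⟨⟨fun g hg h => ?_⟩, ?_, fun g hg => hW.le hg.1, fun g hgN => ?_, fun σ hσ => hσ.elim⟩,
      fun g hg => ?_⟩, fun g _ => rfl⟩
    · rw [hmem] at hg ⊢
      refine ⟨hWn.conj_mem g hg.1 h, fun k => ?_⟩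
      have e : k⁻¹ * (h * g * h⁻¹) * k = (h⁻¹ * k)⁻¹ * g * (h⁻¹ * k) := by group
      rw [e]
      exact hg.2 _
    · refine Subgroup.isOpen_mono (H₁ := W ⊓ U'.normalCore) ?_ (hW.isOpen.inter hcore)
      rintro g ⟨hg, hg'⟩
      refine (hmem g).2 ⟨hg, fun h => h0 _ ⟨⟨trivial, hcj g hg h⟩, ?_⟩⟩
      have := hg' h⁻¹
      rwa [inv_inv] at this
    · obtain ⟨k, hk⟩ := hW.pow g hgN
      refine ⟨k + 1, ?_⟩
      rw [pow_succ, pow_mul, hmem]
      refine ⟨W.pow_mem hk 2, fun h => ?_⟩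
      have e : h⁻¹ * (g ^ 2 ^ k) ^ 2 * h = (h⁻¹ * g ^ 2 ^ k * h) * (h⁻¹ * g ^ 2 ^ k * h) := by
        rw [pow_two]
        group
      rw [e, hadd _ (hcj _ hk h) _ (hcj _ hk h)]
      exact CharTwo.add_self_eq_zero _
    · have := hg.2 1
      simpa using this

theorem amb_zero {N : Subgroup H} (hS : Gn.Setup 2 N (∅ : Set H) ⊤)
    {E : Type*} [NormedField E] [NormedAlgebra ℚ_[2] E] [FiniteDimensional ℚ_[2] E] {z : H → E}
    (hz : Continuous z)
    (hmul : ∀ s ∈ Gn.core 2 N (∅ : Set H), ∀ t ∈ Gn.core 2 N (∅ : Set H),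
      z (s * t) = z s + z t) {k : H} (hk : k ∈ Gn.core 2 N (∅ : Set H)) : z k = 0 :=
  Gn.no_homE hS z (fun g hg h hh => hmul g hg.2 h hh.2) hz.continuousOn ⟨trivial, hk⟩

theorem amb_n1 {N : Subgroup H} (hS : Gn.Setup 2 N (∅ : Set H) ⊤) {A : Type*} [NormedAddCommGroup A]
    {z : H → A} (hz : Continuous z)
    (hk : ∀ d, ∀ k ∈ Gn.core 2 N (∅ : Set H), z (d * k) = z d) :
    Gn.N1 (GoodG 2 N (∅ : Set H)) z := by
  obtain ⟨Z, h1, h2, -⟩ := Gn.descend hS (fun d : (⊤ : Subgroup H) => z d)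
    (hz.comp continuous_subtype_val) (fun d k h => hk d k h)
  have h3 : Z = z := funext fun g => h2 ⟨g, trivial⟩
  rwa [h3] at h1

end ambient

section sub

variable {G : Type*} [Group G] [TopologicalSpace G] [IsTopologicalGroup G] [CompactSpace G]
  {D : Subgroup G}

theorem basis_sub
    (hbasis : ∀ O ∈ nhds (1 : G), ∃ U : Subgroup G, IsOpen (U : Set G) ∧ (U : Set G) ⊆ O) :
    ∀ O ∈ nhds (1 : D), ∃ U : Subgroup D, IsOpen (U : Set D) ∧ (U : Set D) ⊆ O := by
  intro O hO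
  rw [nhds_subtype_eq_comap] at hO
  obtain ⟨O', hO', h1⟩ := Filter.mem_comap.1 hO
  obtain ⟨U, hU, h2⟩ := hbasis O' hO'
  exact ⟨U.subgroupOf D, hU.preimage continuous_subtype_val, fun x hx => h1 (h2 hx)⟩

end sub

section rep

variable {E : Type*} [NormedField E] [NormedAlgebra ℚ_[2] E] [FiniteDimensional ℚ_[2] E] {n : ℕ}

/-- a continuous representation, with pro-2 image on `N` -/
structure ProRep {D : Type*} [Group D] [TopologicalSpace D] (N : Subgroup D)
    (A : D → Matrix (Fin n) (Fin n) E) : Prop where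
  one : A 1 = 1
  mul : ∀ s t, A (s * t) = A s * A t
  cont : Continuous A
  pro : ∀ s ∈ N, Filter.Tendsto (fun k : ℕ => A (s ^ 2 ^ k)) Filter.atTop (nhds 1)

variable {G : Type*} [Group G] [TopologicalSpace G] [IsTopologicalGroup G] [CompactSpace G]
variable {N : Subgroup G} {S : FSys G} {A B : G → Matrix (Fin n) (Fin n) E}

theorem big_small {I : Set G} (hB : Gn.Base N I) (hS : IsBig N I S) (hA : ProRep N A)
    (hI : ∀ σ ∈ I, A σ = 1) : SmallRep S A := by
  refine ⟨hA.one, hA.mul, fun ε hε => ?_⟩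
  obtain ⟨W, hW, h⟩ := Gn.small_rho (p := 2) (H := N) (I := I) hB
    (⟨⟨A, hA.one⟩, hA.mul⟩ : G →* Matrix (Fin n) (Fin n) E) hA.cont hA.pro
    hI (ε := ε / (n + 1)) (by positivity)
  refine ⟨W, hS.mem_of hW, fun w hw x => ?_⟩
  have h1 : A w *ᵥ x - x = (A w - 1) *ᵥ x := by rw [sub_mulVec, one_mulVec]
  rw [h1]
  refine (Gn.mulVec_norm_le (A w - 1) (c := ε / (n + 1)) (by positivity)
    (fun i j => (h w hw i j).le) x).trans ?_
  refine mul_le_mul_of_nonneg_right ?_ (norm_nonneg x)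
  rw [mul_div_assoc', div_le_iff₀ (by positivity)]
  nlinarith

theorem big_coc {I : Set G} (hB : Gn.Base N I) (hS : IsBig N I S) (hA : ProRep N A)
    (hI : ∀ σ ∈ I, A σ = 1) {x : G → Fin n → E} :
    (Parity.IsCocycle A x ∧ ∀ σ ∈ I, x σ = 0) ↔ ZV S A x := by
  let r : G →* Matrix (Fin n) (Fin n) E := ⟨⟨A, hA.one⟩, hA.mul⟩
  have hr : Gn.ConjDual 2 N I (fun _ => (0 : E)) id r 0 :=
    ⟨hA.cont, hA.pro, hI, transpose_zero, fun σ => by simp⟩
  constructor
  · rintro ⟨⟨h1, h2⟩, h5⟩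
    obtain ⟨h3, h4⟩ := Gn.small_x (p := 2) (H := N) (I := I) hB hr h1 h2 h5
    exact ⟨(hS.n1 hB).2 h3, h2⟩
  · rintro ⟨h1, h2⟩
    have h3 : x ∈ Gn.Zgd hB 2 r := ⟨(hS.n1 hB).1 h1, h2⟩
    exact ⟨⟨Gn.zg_continuous h3, h2⟩, fun σ hσ => Gn.zg_inertia h3 hσ⟩

theorem big_perp (hbasis : ∀ O ∈ nhds (1 : G), ∃ U : Subgroup G, IsOpen (U : Set G) ∧ (U : Set G) ⊆ O)
    (hN : N.Normal) (hNo : IsOpen (N : Set G)) (hS : IsBig N ∅ S) {χ : G → ℤ_[2]} (hχ : IsChar S χ)
    (hA : ProRep N A) (hB : ProRep N B)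
    {b : Matrix (Fin n) (Fin n) E} {L : Submodule E (G → Fin n → E)}
    (hL : ∀ x ∈ L, Parity.IsCocycle A x) {y : G → Fin n → E} :
    Parity.IsPerp (fun σ => toE E (χ σ)) B b (L : Set (G → Fin n → E)) y ↔
      PerpV S χ b B L y := by
  have hBs := base_of hN hNo
  have hSet : Gn.Setup 2 N (∅ : Set G) ⊤ := setup_of hN hNo hbasis
  have hA' : ∀ {x : G → Fin n → E}, Parity.IsCocycle A x ↔ ZV S A x := fun {x} =>
    ⟨fun h => (big_coc hBs hS hA (fun _ h => h.elim)).1 ⟨h, fun _ h => h.elim⟩,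
      fun h => ((big_coc hBs hS hA (fun _ h => h.elim)).2 h).1⟩
  have hB' : ∀ {x : G → Fin n → E}, Parity.IsCocycle B x ↔ ZV S B x := fun {x} =>
    ⟨fun h => (big_coc hBs hS hB (fun _ h => h.elim)).1 ⟨h, fun _ h => h.elim⟩,
      fun h => ((big_coc hBs hS hB (fun _ h => h.elim)).2 h).1⟩
  have hcoreχ : ∀ k ∈ Gn.core 2 N (∅ : Set G), χ k = 1 := by
    intro k hk
    refine PadicInt.ext_of_toZModPow.mp fun m => ?_
    rw [← sub_eq_zero, ← map_sub, ← RingHom.mem_ker, PadicInt.ker_toZModPow,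
      Ideal.mem_span_singleton]
    obtain ⟨W, hW, h1⟩ := hχ.cont m
    have h2 := h1 1 k (Gn.core_le (hS.good hBs hW) hk).1
    rw [one_mul, hχ.one] at h2
    exact_mod_cast h2
  have hv : ∀ {C : G → Matrix (Fin n) (Fin n) E}, C 1 = 1 → ∀ {x : G → Fin n → E},
      ZV S C x → ∀ k ∈ Gn.core 2 N (∅ : Set G), x k = 0 := by
    intro C hC x hx k hk
    have h0 : x 1 = 0 := by
      have h := hx.2 1 1
      rw [mul_one, hC, one_mulVec] at h
      exact left_eq_add.1 h
    rw [← norm_le_zero_iff]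
    refine le_of_forall_pos_le_add fun ε hε => ?_
    obtain ⟨W, hW, h⟩ := hx.1 ε hε
    have h1 := h 1 k (Gn.core_le (hS.good hBs hW) hk).1
    rw [one_mul, h0, sub_zero] at h1
    rw [zero_add]
    exact h1.le
  have h1E : toE E (1 : ℤ_[2]) = 1 := by simp [toE]
  constructor
  · rintro ⟨h2, h3⟩
    have h2' := hB'.1 h2
    refine ⟨h2', fun x hx => ?_⟩
    have hx' := hA'.1 (hL x hx)
    obtain ⟨z, hz, h4⟩ := h3 x hx
    have hz0 : ∀ k ∈ Gn.core 2 N (∅ : Set G), z k = 0 := by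
      intro k hk
      refine amb_zero hSet hz (fun s hs t _ => ?_) hk
      have h5 := h4 s t
      simp only at h5
      rw [hv hA.one hx' s hs, zero_dotProduct, hcoreχ s hs, h1E, one_mul] at h5
      linear_combination h5
    refine ⟨z, (hS.n1 hBs).2 (amb_n1 hSet hz fun d k hk => ?_),
      funext fun s => funext fun t => h4 s t⟩
    have h5 := h4 d k
    simp only at h5
    rw [hv hB.one h2' k hk, mulVec_zero, mulVec_zero, dotProduct_zero, hz0 k hk] at h5
    linear_combination h5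
  · rintro ⟨h2, h3⟩
    refine ⟨hB'.2 h2, fun x hx => ?_⟩
    obtain ⟨z, hz, h4⟩ := h3 x hx
    exact ⟨z, ((hS.n1 hBs).1 hz).continuous, fun s t => congrFun (congrFun h4 s) t⟩

end rep

end Pool.Agent.Work.MP_787500_nt.KR
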