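import Mathlib
import Pool.Agent.Work.MP_787500_nt.KR.CocN
import Pool.Agent.Work.MP_787500_nt.GP.L03_Ring
import Pool.Agent.Work.MP_787500_nt.GP.L08_MN
import Pool.Agent.Work.MP_787500_nt.GP.L13_CardN

/-!
The kernel of the action on `l⁻¹ T / T`: open, normal, stable under `κ`, and the representation is pro-2 on it.
-/

set_option autoImplicit false
set_option linter.unusedSectionVars false

namespace Pool.Agent.Work.MP_787500_nt.KR

open Matrix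
open Pool.Agent.Work.MP_787500_nt.PA (toE)
open Pool.Agent.Work.MP_787500_nt.GP

variable {E : Type*} [NormedField E] [NormedAlgebra ℚ_[2] E] [FiniteDimensional ℚ_[2] E] {n : ℕ}

/-- the number of elements of `MN T l N` -/
theorem card_MN [IsLocalRing (OE E)] {b : Matrix (Fin n) (Fin n) E} {l : OE E}
    {t : E →ₗ[ℚ_[2]] ℚ_[2]} {T : Submodule (OE E) (Fin n → E)} (h : Lat b l t T) (N : ℕ) :
    Nat.card (MN T l N) = Nat.card (IsLocalRing.ResidueField (OE E)) ^ (N * n) := by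
  have h1 := card_lamN (D := PUnit.{1}) h N (⊤ : Submodule E (PUnit.{1} → Fin n → E))
    (fun X _ => ⟨‖X PUnit.unit‖, fun d => le_rfl⟩)
  have h2 : Module.finrank E (⊤ : Submodule E (PUnit.{1} → Fin n → E)) = n := by
    rw [finrank_top, Module.finrank_pi_fintype]
    simp
  rw [h2] at h1
  rw [← h1]
  refine Nat.card_congr
    { toFun := fun m => ⟨fun _ => m, fun _ => lft (m : Wq T), trivial, fun _ => (mq_lft _).symm⟩
      invFun := fun x => x.1 PUnit.unit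
      left_inv := fun m => rfl
      right_inv := fun x => rfl }

theorem toE_norm' (a : ℤ_[2]) : ‖toE E a‖ ≤ 1 := by
  rw [toE, norm_algebraMap']
  exact a.2

section

variable {G : Type*} [Group G] [TopologicalSpace G] [IsTopologicalGroup G] [CompactSpace G]

/-- a subgroup that contains a neighbourhood of 1 is open -/
theorem open_of_nhds {W : Subgroup G} {O : Set G} (hO : O ∈ nhds (1 : G)) (h : O ⊆ W) :
    IsOpen (W : Set G) :=
  Subgroup.isOpen_of_mem_nhds W (Filter.mem_of_superset hO h)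

/-- continuity in terms of the operator bound -/
theorem small_nhds {ρ : G →* Matrix (Fin n) (Fin n) E} (hρ : Continuous ρ) {ε : ℝ} (hε : 0 < ε) :
    {g : G | ∀ x : Fin n → E, ‖ρ g *ᵥ x - x‖ ≤ ε * ‖x‖} ∈ nhds (1 : G) := by
  have h1 : ∀ i j, ∀ᶠ g in nhds (1 : G), ‖(ρ g - 1) i j‖ < ε / (n + 1) := by
    intro i j
    have h2 : Continuous fun g : G => ‖(ρ g - 1) i j‖ := by
      have h3 : Continuous fun g : G => ρ g i j := hρ.matrix_elem i j
      exact (h3.sub continuous_const).norm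
    have h3 := h2.tendsto 1
    rw [map_one, sub_self] at h3
    have h4 : ‖(0 : Matrix (Fin n) (Fin n) E) i j‖ = 0 := by simp
    rw [h4] at h3
    exact h3.eventually_lt_const (by positivity)
  have h5 : ∀ᶠ g in nhds (1 : G), ∀ i j, ‖(ρ g - 1) i j‖ < ε / (n + 1) := by
    rw [Filter.eventually_all]
    intro i
    rw [Filter.eventually_all]
    exact h1 i
  refine Filter.mem_of_superset h5 fun g hg x => ?_
  have h6 : ρ g *ᵥ x - x = (ρ g - 1) *ᵥ x := by rw [sub_mulVec, one_mulVec]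
  rw [h6]
  refine (Gn.mulVec_norm_le (ρ g - 1) (c := ε / (n + 1)) (by positivity)
    (fun i j => (hg i j).le) x).trans ?_
  refine mul_le_mul_of_nonneg_right ?_ (norm_nonneg x)
  rw [mul_div_assoc', div_le_iff₀ (by positivity)]
  nlinarith

/-- the operators `ρ g` are uniformly bounded -/
theorem rho_bdd {ρ : G →* Matrix (Fin n) (Fin n) E} (hρ : Continuous ρ) :
    ∃ C : ℝ, 0 < C ∧ ∀ g x, ‖ρ g *ᵥ x‖ ≤ C * ‖x‖ := by
  have h1 : ∀ i j, ∃ C : ℝ, ∀ g, ‖ρ g i j‖ ≤ C := by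
    intro i j
    obtain ⟨C, hC⟩ := isCompact_univ.exists_bound_of_continuousOn
      (f := fun g : G => ρ g i j) (hρ.matrix_elem i j).continuousOn
    exact ⟨C, fun g => hC g trivial⟩
  choose C hC using h1
  refine ⟨n * (∑ i, ∑ j, |C i j|) + 1, by positivity, fun g x => ?_⟩
  refine (Gn.mulVec_norm_le (ρ g) (c := ∑ i, ∑ j, |C i j|) (by positivity) (fun i j => ?_) x).trans ?_
  · refine (hC i j g).trans ((le_abs_self _).trans ?_)
    refine le_trans ?_ (Finset.single_le_sum (f := fun i => ∑ j, |C i j|)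
      (fun i _ => Finset.sum_nonneg fun j _ => abs_nonneg _) (Finset.mem_univ i))
    exact Finset.single_le_sum (f := fun j => |C i j|) (fun j _ => abs_nonneg _)
      (Finset.mem_univ j)
  · exact mul_le_mul_of_nonneg_right (by linarith) (norm_nonneg _)

/-- the system of all open normal subgroups that contain `I` -/
def IsFull {H : Type*} [Group H] [TopologicalSpace H] (I : Set H) (S : FSys H) : Prop :=
  ∀ W, S.mem W ↔ W.Normal ∧ IsOpen (W : Set H) ∧ ∀ σ ∈ I, σ ∈ W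

variable {I : Set G}

/-- the subgroup of the elements that act trivially on `T / c T` -/
def kerT (T : Submodule (OE E) (Fin n → E)) (c : E) (ρ : G →* Matrix (Fin n) (Fin n) E)
    (hst : ∀ g, ∀ x ∈ T, ρ g *ᵥ x ∈ T) : Subgroup G where
  carrier := {g | ∀ x, c • x ∈ T → ρ g *ᵥ x - x ∈ T}
  mul_mem' := by
    intro g h hg hh x hx
    have e : ρ (g * h) *ᵥ x - x = ρ g *ᵥ (ρ h *ᵥ x - x) + (ρ g *ᵥ x - x) := by
      rw [map_mul, ← mulVec_mulVec, mulVec_sub]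
      abel
    rw [e]
    exact T.add_mem (hst g _ (hh x hx)) (hg x hx)
  one_mem' := by
    intro x _
    rw [map_one, one_mulVec, sub_self]
    exact T.zero_mem
  inv_mem' := by
    intro g hg x hx
    have e : ρ g⁻¹ *ᵥ x - x = -(ρ g⁻¹ *ᵥ (ρ g *ᵥ x - x)) := by
      rw [mulVec_sub, mulVec_mulVec, ← map_mul, inv_mul_cancel, map_one, one_mulVec]
      abel
    rw [e]
    exact T.neg_mem (hst _ _ (hg x hx))

theorem mem_kerT {T : Submodule (OE E) (Fin n → E)} {c : E} {ρ : G →* Matrix (Fin n) (Fin n) E}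
    {hst : ∀ g, ∀ x ∈ T, ρ g *ᵥ x ∈ T} {g : G} :
    g ∈ kerT T c ρ hst ↔ ∀ x, c • x ∈ T → ρ g *ᵥ x - x ∈ T := Iff.rfl

theorem kerT_normal {T : Submodule (OE E) (Fin n → E)} {c : E} {ρ : G →* Matrix (Fin n) (Fin n) E}
    (hst : ∀ g, ∀ x ∈ T, ρ g *ᵥ x ∈ T) : (kerT T c ρ hst).Normal := by
  refine ⟨fun g hg h x hx => ?_⟩
  have e : ρ (h * g * h⁻¹) *ᵥ x - x = ρ h *ᵥ (ρ g *ᵥ (ρ h⁻¹ *ᵥ x) - ρ h⁻¹ *ᵥ x) := by
    have h1 : ρ h * ρ h⁻¹ = 1 := by rw [← map_mul, mul_inv_cancel, map_one]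
    rw [mulVec_sub, mulVec_mulVec, mulVec_mulVec, mulVec_mulVec, h1, one_mulVec, map_mul, map_mul,
      Matrix.mul_assoc]
  rw [e]
  refine hst _ _ (hg _ ?_)
  rw [← mulVec_smul]
  exact hst _ _ hx

theorem kerT_inertia {T : Submodule (OE E) (Fin n → E)} {c : E} {ρ : G →* Matrix (Fin n) (Fin n) E}
    (hst : ∀ g, ∀ x ∈ T, ρ g *ᵥ x ∈ T) (hI : ∀ σ ∈ I, ρ σ = 1) :
    ∀ σ ∈ I, σ ∈ kerT T c ρ hst := by
  intro σ hσ x _
  rw [hI σ hσ, one_mulVec, sub_self]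
  exact T.zero_mem

theorem kerT_open {T : Submodule (OE E) (Fin n → E)} {c : E} (hc : c ≠ 0)
    {ρ : G →* Matrix (Fin n) (Fin n) E}
    (hρ : Continuous ρ) (hst : ∀ g, ∀ x ∈ T, ρ g *ᵥ x ∈ T) (hbdd : ∃ R : ℝ, ∀ x ∈ T, ‖x‖ ≤ R)
    (hopn : ∃ r : ℝ, 0 < r ∧ ∀ x : Fin n → E, ‖x‖ < r → x ∈ T) :
    IsOpen (kerT T c ρ hst : Set G) := by
  obtain ⟨R, hR⟩ := hbdd
  obtain ⟨r, hr, hr'⟩ := hopn
  have hc' : 0 < ‖c‖ := norm_pos_iff.2 hc
  have hR0 : 0 ≤ R := (norm_nonneg _).trans (hR 0 T.zero_mem)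
  refine open_of_nhds (small_nhds hρ (ε := r * ‖c‖ / (R + 1)) (by positivity)) fun g hg x hx => ?_
  refine hr' _ ((hg x).trans_lt ?_)
  have h1 := hR _ hx
  rw [norm_smul] at h1
  rw [div_mul_eq_mul_div, div_lt_iff₀ (by positivity)]
  nlinarith

theorem small_full {S : FSys G} (hS : IsFull I S) {ρ : G →* Matrix (Fin n) (Fin n) E}
    (hρ : Continuous ρ) (hI : ∀ σ ∈ I, ρ σ = 1) : SmallRep S (fun g => ρ g) := by
  have hu := Gn.ultra 2 E
  refine ⟨map_one ρ, map_mul ρ, fun ε hε => ?_⟩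
  obtain ⟨C, hC0, hC⟩ := rho_bdd hρ
  let T : Submodule (OE E) (Fin n → E) :=
    { carrier := {x | ∀ g, ‖ρ g *ᵥ x‖ ≤ 1}
      add_mem' := fun {x y} hx hy g => by
        rw [mulVec_add]
        refine (pi_norm_le_iff_of_nonneg zero_le_one).2 fun i => ?_
        exact (IsUltrametricDist.norm_add_le_max _ _).trans
          (max_le ((norm_le_pi_norm _ i).trans (hx g)) ((norm_le_pi_norm _ i).trans (hy g)))
      zero_mem' := fun g => by
        rw [mulVec_zero, norm_zero]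
        exact zero_le_one
      smul_mem' := fun a x hx g => by
        have h1 : a • x = (a : E) • x := rfl
        rw [h1, mulVec_smul, norm_smul]
        exact mul_le_one₀ a.2 (norm_nonneg _) (hx g) }
  have hst : ∀ g, ∀ x ∈ T, ρ g *ᵥ x ∈ T := by
    intro g x hx h
    rw [mulVec_mulVec, ← map_mul]
    exact hx _
  have hbdd : ∀ x ∈ T, ‖x‖ ≤ 1 := by
    intro x hx
    have h1 := hx 1
    rwa [map_one, one_mulVec] at h1
  have hopn : ∀ x : Fin n → E, ‖x‖ < 1 / C → x ∈ T := by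
    intro x hx g
    refine (hC g x).trans ?_
    rw [lt_div_iff₀ hC0] at hx
    linarith
  obtain ⟨l, hl0, hl1, -⟩ := exists_unif E
  have hl0' : 0 < ‖(l : E)‖ := norm_pos_iff.2 hl0
  -- `x / c ∈ T` for a scalar of norm about `C ‖x‖`
  obtain ⟨k, hk⟩ := exists_pow_lt_of_lt_one
    (show 0 < ε * ‖(l : E)‖ / (C + 1) by positivity) hl1
  have hlk : (l : E) ^ k ≠ 0 := pow_ne_zero _ hl0
  refine ⟨kerT T ((l : E) ^ k) ρ hst, (hS _).2 ⟨kerT_normal hst,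
    kerT_open hlk hρ hst ⟨1, hbdd⟩ ⟨1 / C, by positivity, hopn⟩, kerT_inertia hst hI⟩,
    fun w hw x => ?_⟩
  rcases eq_or_ne x 0 with rfl | hx
  · rw [mulVec_zero, sub_self, norm_zero, mul_zero]
  have hx0 : 0 < ‖x‖ := norm_pos_iff.2 hx
  -- a power `l ^ m` with `‖l ^ m‖ ≤ 1 / (C + 1) / ‖x‖ < ‖l ^ m‖ / ‖l‖`
  obtain ⟨m, hm1, hm2⟩ := exists_mem_Ioc_zpow (x := ((C + 1) * ‖x‖)⁻¹) (y := ‖(l : E)‖⁻¹)
    (by positivity) (one_lt_inv₀ hl0' |>.2 hl1)
  have hmm : ((l : E) ^ (-m)) ≠ 0 := zpow_ne_zero _ hl0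
  have hnorm : ‖(l : E) ^ (-m)‖ = ‖(l : E)‖⁻¹ ^ m := by
    rw [_root_.norm_zpow, _root_.zpow_neg, _root_.inv_zpow]
  have hxT : (l : E) ^ (-m) • x ∈ T := by
    refine hopn _ ?_
    rw [norm_smul, hnorm]
    rw [lt_inv_comm₀ (by positivity) (by positivity)] at hm1
    have h2 : (C + 1) * ‖x‖ < (‖(l : E)‖⁻¹ ^ m)⁻¹ := hm1
    rw [lt_inv_comm₀ (by positivity) (by positivity)] at h2
    have h3 : ‖(l : E)‖⁻¹ ^ m * ‖x‖ < ((C + 1) * ‖x‖)⁻¹ * ‖x‖ := mul_lt_mul_of_pos_right h2 hx0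
    refine h3.trans ?_
    rw [mul_inv, mul_assoc, inv_mul_cancel₀ hx0.ne', mul_one, one_div]
    exact inv_strictAnti₀ hC0 (by linarith)
  have h4 := hw (((l : E) ^ k)⁻¹ • ((l : E) ^ (-m) • x)) (by
    rw [smul_smul, mul_inv_cancel₀ hlk, one_smul]
    exact hxT)
  have h5 := hbdd _ h4
  rw [mulVec_smul, mulVec_smul, ← smul_sub, ← smul_sub, norm_smul, norm_smul, norm_inv, norm_pow,
    hnorm] at h5
  have h6 : 0 < ‖(l : E)‖ ^ k := by positivity
  have h7 : 0 < ‖(l : E)‖⁻¹ ^ m := by positivity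
  rw [inv_mul_le_iff₀ h6, mul_one] at h5
  have h8 : ((C + 1) * ‖x‖)⁻¹ * ‖(l : E)‖ ≤ ‖(l : E)‖⁻¹ ^ m := by
    rw [zpow_add_one₀ (by positivity)] at hm2
    rw [← le_mul_inv_iff₀ hl0']
    exact hm2
  have h9 : ((C + 1) * ‖x‖)⁻¹ * ‖(l : E)‖ * ‖ρ w *ᵥ x - x‖ ≤ ‖(l : E)‖ ^ k :=
    (mul_le_mul_of_nonneg_right h8 (norm_nonneg _)).trans h5
  have h10 : ((C + 1) * ‖x‖)⁻¹ * ‖(l : E)‖ * ‖ρ w *ᵥ x - x‖ ≤ ε * ‖(l : E)‖ / (C + 1) := h9.trans hk.le
  have h11 : ((C + 1) * ‖x‖)⁻¹ * ‖(l : E)‖ * ‖ρ w *ᵥ x - x‖ =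
      ‖(l : E)‖ / (C + 1) * (‖ρ w *ᵥ x - x‖ / ‖x‖) := by
    field_simp
  have h12 : ε * ‖(l : E)‖ / (C + 1) = ‖(l : E)‖ / (C + 1) * ε := by ring
  rw [h11, h12] at h10
  have h13 := le_of_mul_le_mul_left h10 (by positivity)
  rwa [div_le_iff₀ hx0] at h13

/-- the kernel of the action on `MN T l 1` -/
theorem mem_kerT_iff {T : Submodule (OE E) (Fin n → E)} {l : OE E}
    {ρ : G →* Matrix (Fin n) (Fin n) E} {hst : ∀ g, ∀ x ∈ T, ρ g *ᵥ x ∈ T} {g : G} :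
    g ∈ kerT T (l : E) ρ hst ↔ ∀ m : MN T l 1, actN l 1 (fun g => ρ g) hst g m = m := by
  rw [mem_kerT]
  constructor
  · intro h m
    apply Subtype.ext
    rw [coe_actN, ← mq_lft (m : Wq T), actQ_mq (hst g), mq_eq]
    refine h _ ?_
    have h1 := m.lft_mem
    rwa [pow_one] at h1
  · intro h x hx
    have h1 : mq T x ∈ Submodule.torsionBy (OE E) (Wq T) (l ^ 1) := by
      rw [Submodule.mem_torsionBy_iff, pow_one, ← mq_smul, mq_eq_zero]
      exact hx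
    have h2 := congrArg Subtype.val (h ⟨mq T x, h1⟩)
    rw [coe_actN, actQ_mq (hst g), mq_eq] at h2
    exact h2

/-- the representation is pro-2 on the kernel of the action on `T / l T` -/
theorem kerT_pro {T : Submodule (OE E) (Fin n → E)} {l : OE E} (hl0 : (l : E) ≠ 0)
    (hl1 : ‖(l : E)‖ < 1) (hlm : ∀ x : E, ‖x‖ < 1 → ‖x‖ ≤ ‖(l : E)‖)
    {ρ : G →* Matrix (Fin n) (Fin n) E} (hst : ∀ g, ∀ x ∈ T, ρ g *ᵥ x ∈ T)
    (hbdd : ∃ R : ℝ, ∀ x ∈ T, ‖x‖ ≤ R)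
    (hopn : ∃ r : ℝ, 0 < r ∧ ∀ x : Fin n → E, ‖x‖ < r → x ∈ T) {g : G}
    (hg : g ∈ kerT T (l : E) ρ hst) :
    Filter.Tendsto (fun k : ℕ => ρ (g ^ 2 ^ k)) Filter.atTop (nhds 1) := by
  have hls : ∀ v : Fin n → E, l • v = (l : E) • v := fun v => rfl
  -- `2 = l u`
  have h2l : ∃ u : OE E, (2 : E) = (l : E) * (u : E) := by
    refine ⟨⟨2 / (l : E), ?_⟩, by
      show (2 : E) = (l : E) * (2 / (l : E))
      rw [mul_div_cancel₀ _ hl0]⟩
    show ‖2 / (l : E)‖ ≤ 1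
    rw [norm_div, div_le_one (norm_pos_iff.2 hl0)]
    refine hlm _ ?_
    have h6 := Gn.norm_p 2 E
    push_cast at h6
    rw [h6]
    norm_num
  obtain ⟨u, hu⟩ := h2l
  have key : ∀ k : ℕ, ∀ x ∈ T, ∃ y ∈ T, ρ (g ^ 2 ^ k) *ᵥ x - x = (l : E) ^ (k + 1) • y := by
    intro k
    induction k with
    | zero =>
      intro x hx
      refine ⟨ρ g *ᵥ ((l : E)⁻¹ • x) - (l : E)⁻¹ • x, hg _ ?_, ?_⟩
      · rw [smul_smul, mul_inv_cancel₀ hl0, one_smul]
        exact hx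
      · rw [pow_zero, pow_one, zero_add, pow_one, mulVec_smul, ← smul_sub, smul_smul,
          mul_inv_cancel₀ hl0, one_smul]
    | succ k ih =>
      intro x hx
      obtain ⟨y, hy, h1⟩ := ih x hx
      obtain ⟨z, hz, h2⟩ := ih y hy
      refine ⟨l ^ k • z + u • y, T.add_mem (T.smul_mem _ hz) (T.smul_mem _ hy), ?_⟩
      set A := ρ (g ^ 2 ^ k) with hA
      have h3 : ρ (g ^ 2 ^ (k + 1)) = A * A := by
        rw [hA, ← map_mul, ← pow_add, ← two_mul, ← pow_succ']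
      have h4 : ρ (g ^ 2 ^ (k + 1)) *ᵥ x - x =
          (A *ᵥ (A *ᵥ x - x) - (A *ᵥ x - x)) + (2 : E) • (A *ᵥ x - x) := by
        rw [h3, ← mulVec_mulVec, mulVec_sub, two_smul]
        abel
      rw [h4, h1, mulVec_smul, ← smul_sub, h2, hu]
      have h5 : l ^ k • z = (l : E) ^ k • z := rfl
      have h6 : u • y = (u : E) • y := rfl
      rw [h5, h6, smul_add, smul_smul, smul_smul, smul_smul, smul_smul]
      congr 1
      · congr 1
        ring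
      · congr 1
        ring
  obtain ⟨R, hR⟩ := hbdd
  obtain ⟨r, hr, hr'⟩ := hopn
  have hR0 : 0 ≤ R := (norm_nonneg _).trans (hR 0 T.zero_mem)
  -- a scalar `c` with `c e_j ∈ T`
  obtain ⟨m, hm⟩ := exists_pow_lt_of_lt_one (show 0 < r / 2 by positivity) hl1
  have hc : ∀ j : Fin n, (l : E) ^ m • (Pi.single j (1 : E) : Fin n → E) ∈ T := by
    intro j
    refine hr' _ ?_
    rw [norm_smul, norm_pow]
    have h1 : ‖(Pi.single j (1 : E) : Fin n → E)‖ ≤ 1 := by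
      refine (pi_norm_le_iff_of_nonneg zero_le_one).2 fun i => ?_
      rcases eq_or_ne i j with rfl | hij
      · rw [Pi.single_eq_same, norm_one]
      · rw [Pi.single_eq_of_ne hij, norm_zero]
        exact zero_le_one
    have h2 : 0 ≤ ‖(l : E)‖ ^ m := by positivity
    nlinarith
  have hlm0 : (l : E) ^ m ≠ 0 := pow_ne_zero _ hl0
  have hlm' : 0 < ‖(l : E)‖ ^ m := by
    have := norm_pos_iff.2 hl0
    positivity
  have hentry : ∀ (k : ℕ) i j, ‖(ρ (g ^ 2 ^ k) - 1) i j‖ ≤ ‖(l : E)‖ ^ k * (R / ‖(l : E)‖ ^ m) := by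
    intro k i j
    obtain ⟨y, hy, h1⟩ := key k _ (hc j)
    have h2 : (l : E) ^ m * (ρ (g ^ 2 ^ k) - 1) i j = (l : E) ^ (k + 1) * y i := by
      have h3 := congrFun h1 i
      rw [mulVec_smul, ← smul_sub, Pi.smul_apply, Pi.smul_apply, smul_eq_mul, smul_eq_mul] at h3
      rw [← h3]
      congr 1
      rw [Pi.sub_apply, mulVec_single_one, Matrix.sub_apply, Matrix.one_apply, Pi.single_apply]
      rfl
    have h3 : ‖(l : E)‖ ^ m * ‖(ρ (g ^ 2 ^ k) - 1) i j‖ = ‖(l : E)‖ ^ (k + 1) * ‖y i‖ := by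
      rw [← norm_pow, ← norm_mul, h2, norm_mul, norm_pow]
    have h4 : ‖y i‖ ≤ R := (norm_le_pi_norm y i).trans (hR y hy)
    have h5 : ‖(l : E)‖ ^ (k + 1) ≤ ‖(l : E)‖ ^ k := pow_le_pow_of_le_one (norm_nonneg _) hl1.le (by omega)
    rw [mul_div_assoc', le_div_iff₀ hlm', mul_comm, h3]
    exact mul_le_mul h5 h4 (norm_nonneg _) (by positivity)
  refine tendsto_pi_nhds.2 fun i => tendsto_pi_nhds.2 fun j => ?_
  rw [tendsto_iff_norm_sub_tendsto_zero]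
  refine squeeze_zero (fun k => norm_nonneg _) (fun k => hentry k i j) ?_
  have h1 := (tendsto_pow_atTop_nhds_zero_of_lt_one (norm_nonneg (l : E)) hl1).mul_const
    (R / ‖(l : E)‖ ^ m)
  rwa [zero_mul] at h1

omit [TopologicalSpace G] [IsTopologicalGroup G] [CompactSpace G] in
/-- the kernel is stable under `κ` -/
theorem kerT_kappa {T : Submodule (OE E) (Fin n → E)} {l : OE E} (hl0 : (l : E) ≠ 0)
    (hlm : ∀ x : E, ‖x‖ < 1 → ‖x‖ ≤ ‖(l : E)‖) {b : Matrix (Fin n) (Fin n) E} (hbs : bᵀ = b)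
    (hdual : ∀ x, x ∈ T ↔ ∀ y ∈ T, ‖bil b x y‖ ≤ 1) {χ : G → ℤ_[2]}
    (hχ : ∀ g, (2 : ℤ_[2]) ∣ χ g - 1) {κ : G →* G}
    {ρ : G →* Matrix (Fin n) (Fin n) E} (hst : ∀ g, ∀ x ∈ T, ρ g *ᵥ x ∈ T)
    (hd : ∀ g x y, bil b (ρ g *ᵥ x) (ρ (κ g) *ᵥ y) = toE E (χ g) * bil b x y) {g : G}
    (hg : g ∈ kerT T (l : E) ρ hst) : κ g ∈ kerT T (l : E) ρ hst := by
  have hu := Gn.ultra 2 E
  intro x hx
  rw [hdual]
  intro y hy
  have h0 : ρ g *ᵥ (ρ g⁻¹ *ᵥ y) = y := by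
    rw [mulVec_mulVec, ← map_mul, mul_inv_cancel, map_one, one_mulVec]
  have h1 : bil b (ρ (κ g) *ᵥ x - x) y =
      (toE E (χ g) - 1) * bil b x (ρ g⁻¹ *ᵥ y) + bil b (ρ g⁻¹ *ᵥ y - y) x := by
    have h2 := hd g (ρ g⁻¹ *ᵥ y) x
    rw [h0] at h2
    rw [bil_sub_left, bil_symm hbs _ y, h2, bil_sub_left, bil_symm hbs x (ρ g⁻¹ *ᵥ y),
      bil_symm hbs x y]
    ring
  rw [h1]
  refine (IsUltrametricDist.norm_add_le_max _ _).trans (max_le ?_ ?_)
  · obtain ⟨c, hc⟩ := hχ g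
    have h2 : toE E (χ g) - 1 = 2 * toE E c := by
      have h3 : χ g = 1 + 2 * c := by linear_combination hc
      let f : ℤ_[2] →+* E := (algebraMap ℚ_[2] E).comp PadicInt.Coe.ringHom
      have hf : ∀ a, toE E a = f a := fun _ => rfl
      rw [h3, hf, hf, map_add, map_mul, map_one, add_sub_cancel_left, map_ofNat]
    rw [h2, mul_assoc, mul_comm (toE E c), ← mul_assoc, norm_mul]
    refine mul_le_one₀ ?_ (norm_nonneg _) (toE_norm' _)
    have h4 : (2 : E) * bil b x (ρ g⁻¹ *ᵥ y) = (2 / (l : E)) * bil b ((l : E) • x) (ρ g⁻¹ *ᵥ y) := by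
      rw [bil_smul_left, ← mul_assoc, div_mul_cancel₀ _ hl0]
    rw [h4, norm_mul]
    refine mul_le_one₀ ?_ (norm_nonneg _) ((hdual _).1 hx _ (hst _ _ hy))
    rw [norm_div, div_le_one (norm_pos_iff.2 hl0)]
    refine hlm _ ?_
    have h6 := Gn.norm_p 2 E
    push_cast at h6
    rw [h6]
    norm_num
  · have h2 := (kerT T (l : E) ρ hst).inv_mem hg ((l : E)⁻¹ • y) (by
      rw [smul_smul, mul_inv_cancel₀ hl0, one_smul]
      exact hy)
    have h3 : ρ g⁻¹ *ᵥ y - y = (l : E) • (ρ g⁻¹ *ᵥ ((l : E)⁻¹ • y) - (l : E)⁻¹ • y) := by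
      rw [mulVec_smul, ← smul_sub, smul_smul, mul_inv_cancel₀ hl0, one_smul]
    rw [h3, bil_smul_left, ← bil_smul_right]
    exact (hdual _).1 h2 _ hx

end

end Pool.Agent.Work.MP_787500_nt.KR
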