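import Mathlib
import Pool.Agent.Work.MP_787500_nt.KR.Sys
import Pool.Agent.Work.MP_787500_nt.KR.NZero
import Pool.Agent.Work.MP_787500_nt.HP.UrArith

/-!
The systems `fullK T`, `big (fullK T) N` and `big (fullD C) (N ⊓ C)` in topological terms; scaling of the form
in the parity formula.
-/

set_option autoImplicit false
set_option linter.unusedSectionVars false

namespace Pool.Agent.Work.MP_787500_nt.KR

open Matrix NumberField
open Pool.Agent.Work.MP_787500_nt.PA (toE)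
open Pool.Agent.Work.MP_787500_nt.GP

universe u

section K

variable {K : Type u} [Field K] [NumberField K]

theorem isFull_K (T : Finset ℕ) : IsFull (inT K T) (fullK (K := K) T) := fun _ => Iff.rfl

theorem isBig_K (T : Finset ℕ) (N : Subgroup (AbsGal K)) :
    IsBig N (inT K T) (big (fullK (K := K) T) N) := by
  intro W
  constructor
  · rintro ⟨h1, ⟨W₁, ⟨-, h2, h3⟩, hle⟩, h4⟩
    exact ⟨h1, Subgroup.isOpen_mono hle h2, fun σ hσ => hle (h3 σ hσ), h4⟩
  · rintro ⟨h1, h2, h3, h4⟩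
    exact ⟨h1, ⟨W, ⟨h1, h2, h3⟩, le_rfl⟩, h4⟩

theorem isBig_D (N : Subgroup (AbsGal K)) {C : Subgroup (AbsGal K)}
    (hC : IsClosed (C : Set (AbsGal K))) :
    IsBig (N.subgroupOf C) (∅ : Set C) (big (fullD C) (N.subgroupOf C)) := by
  have hc : CompactSpace C := isCompact_iff_compactSpace.1 hC.isCompact
  intro W
  constructor
  · rintro ⟨h1, ⟨W₁, ⟨-, -, U, hU, hUW⟩, hle⟩, h4⟩
    refine ⟨h1, Subgroup.isOpen_mono (hUW.trans hle) ?_, fun _ h => h.elim, h4⟩
    exact hU.preimage continuous_subtype_val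
  · rintro ⟨h1, h2, -, h4⟩
    have hf : Finite (C ⧸ W) := Subgroup.quotient_finite_of_isOpen W h2
    refine ⟨h1, ⟨W, ⟨h1, Subgroup.index_ne_zero_of_finite, ?_⟩, le_rfl⟩, h4⟩
    have h3 : (W : Set C) ∈ nhds (1 : C) := h2.mem_nhds W.one_mem
    rw [nhds_subtype_eq_comap] at h3
    obtain ⟨O', hO', h5⟩ := Filter.mem_comap.1 h3
    obtain ⟨U, hU, h6⟩ := HP.basis_K K O' hO'
    exact ⟨U, hU, fun x hx => h5 (h6 hx)⟩

theorem base_K {T : Finset ℕ} {N : Subgroup (AbsGal K)} (hN : N.Normal)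
    (hNo : IsOpen (N : Set (AbsGal K))) (hI : ∀ σ ∈ inT K T, σ ∈ N) : Gn.Base N (inT K T) :=
  ⟨hN, hNo, hI, (baseT K T).conj⟩

end K

section scale

variable {G : Type*} [Group G] [TopologicalSpace G]
variable {E : Type*} [NormedField E] {n : ℕ}

theorem isPerp_smul {χ : G → E} {B : G → Matrix (Fin n) (Fin n) E} {b : Matrix (Fin n) (Fin n) E}
    {a : E} (ha : a ≠ 0) {L : Set (G → Fin n → E)} {y : G → Fin n → E} :
    Parity.IsPerp χ B (a • b) L y ↔ Parity.IsPerp χ B b L y := by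
  have key : ∀ (c : E) (b' : Matrix (Fin n) (Fin n) E), Parity.IsPerp χ B b' L y →
      Parity.IsPerp χ B (c • b') L y := by
    rintro c b' ⟨h1, h2⟩
    refine ⟨h1, fun x hx => ?_⟩
    obtain ⟨z, hz, h3⟩ := h2 x hx
    refine ⟨fun g => c * z g, continuous_const.mul hz, fun σ τ => ?_⟩
    rw [smul_mulVec, dotProduct_smul, h3, smul_eq_mul]
    ring
  constructor
  · intro h
    have h1 := key a⁻¹ _ h
    rwa [smul_smul, inv_mul_cancel₀ ha, one_smul] at h1
  · exact key a b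

theorem selmerF_smul {I : Set G} {χ : G → E} {κ : G → G} {ρ : G →* Matrix (Fin n) (Fin n) E}
    {b : Matrix (Fin n) (Fin n) E} {a : E} (ha : a ≠ 0) {Φ : Type*} {D : Φ → Subgroup G}
    (L : ∀ w, Submodule E (D w → Fin n → E)) :
    Parity.selmerF I χ κ ρ (a • b) D L = Parity.selmerF I χ κ ρ b D L := by
  ext x
  constructor
  · rintro ⟨h1, h2, h3⟩
    exact ⟨h1, h2, fun w => ⟨(h3 w).1, (isPerp_smul ha).1 (h3 w).2⟩⟩
  · rintro ⟨h1, h2, h3⟩
    exact ⟨h1, h2, fun w => ⟨(h3 w).1, (isPerp_smul ha).2 (h3 w).2⟩⟩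

theorem parity_smul {I : Set G} {χ : G → E} {κ : G → G} {ρ : G →* Matrix (Fin n) (Fin n) E}
    {b : Matrix (Fin n) (Fin n) E} {a : E} (ha : a ≠ 0) {Φ : Type*} [Fintype Φ]
    {D : Φ → Subgroup G} (h : Parity.ParityFormula I χ κ ρ (a • b) D) :
    Parity.ParityFormula I χ κ ρ b D := by
  intro L hL
  have h1 := h L hL
  rwa [selmerF_smul ha] at h1

end scale

end Pool.Agent.Work.MP_787500_nt.KR
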