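import Mathlib
import Pool.Agent.Work.MP_787500_nt.KR.L16
import Pool.Agent.Work.MP_787500_nt.KR.L17

/-!
The version of `GP/L18_ParV.lean` for a family of pairs `(θ, φ)` (the proofs are the same).
-/

set_option autoImplicit false
set_option linter.unusedSectionVars false

namespace Pool.Agent.Work.MP_787500_nt.KR

open Pool.Agent.Work.MP_787500_nt.GP

open Matrix
open Pool.Agent.Work.MP_787500_nt.PA (toE)

universe v

variable {E : Type v} [NormedField E] [NormedAlgebra ℚ_[2] E] [FiniteDimensional ℚ_[2] E] {n : ℕ}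
  {b : Matrix (Fin n) (Fin n) E} {l : OE E} {t : E →ₗ[ℚ_[2]] ℚ_[2]}
  {T : Submodule (OE E) (Fin n → E)}


variable {G : Type*} [Group G] {S : FSys G} {Φ : Type*} [Fintype Φ] {D : Φ → Type*}
  [∀ w, Group (D w)] {SD : ∀ w, FSys (D w)} {j : ∀ w, D w →* G} {χ : G → ℤ_[2]}
  {inv : ∀ w, (D w → D w → A0) → A0} {κ : G →* G} {Θ : Set (G × G)}
  {ρ : G → Matrix (Fin n) (Fin n) E} {L : ∀ w, Submodule E (D w → Fin n → E)}

theorem parV [IsLocalRing (OE E)] (H : ParD.{v} S SD j χ inv κ Θ) (h : Lat b l t T)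
    (hr : LocRep S χ T b ρ (fun g => ρ (κ g)))
    (hal : ∀ p ∈ Θ, ∀ x : Fin n → E, bil b x (ρ p.1 *ᵥ x) = 0)
    (hL : ∀ w, ∀ X ∈ L w, ZV (SD w) (fun d => ρ (j w d)) X)
    (hL0 : ∀ w v, (fun d => ρ (j w d) *ᵥ v - v) ∈ L w)
    (hfp : ∀ N : ℕ, EvPow (Nat.card (IsLocalRing.ResidueField (OE E)))
      (Nat.card (selM (sdualF_MN h hr hal N) j (fun w => lamN T l N (L w))
        (fun w => perpM H (sdualF_MN h hr hal N) w (lamN T l N (L w)))) *
      ∏ w, Nat.card (lamN T l N (L w)))) :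
    Even (Module.finrank E (selV S SD j χ κ b ρ L) + ∑ w, Module.finrank E (L w)) := by
  have hres : Finite (IsLocalRing.ResidueField (OE E)) := res_finite
  have hfdw : ∀ w, FiniteDimensional E (L w) := fun w => by
    have f1 : FiniteDimensional E (zV (SD w) (fun d => ρ (j w d))) :=
      zV_fd (H.loc w).gens (by rw [map_one, hr.one]) (fun s u => by rw [map_mul, hr.mul])
    have f2 : L w ≤ zV (SD w) (fun d => ρ (j w d)) := fun X hX => hL w X hX
    exact Submodule.finiteDimensional_of_le f2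
  set q := Nat.card (IsLocalRing.ResidueField (OE E)) with hq
  have hq2 : 1 < q := Finite.one_lt_card
  set c := ∑ w, Module.finrank E (L w) with hc
  have hpar : ∀ N : ℕ, ∃ m : ℕ,
      Nat.card (Submodule.torsionBy (OE E) (selInf S SD j χ κ b ρ L hr.st) (l ^ N)) * q ^ (N * c) =
        q ^ (2 * m) := by
    intro N
    have hfN : Finite (MN T l N) := MN_finite h N
    obtain ⟨m, hm⟩ := hfp N
    refine ⟨m, ?_⟩
    rw [← hm, sel_level H h hr hal hL hL0 N]
    congr 1
    rw [hc, Finset.mul_sum, ← Finset.prod_pow_eq_pow_sum]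
    refine Finset.prod_congr rfl fun w _ => ?_
    exact (card_lamN h N (L w) (fun X hX => zv_bdd (hL w X hX))).symm
  have hfin : ∀ N : ℕ,
      Finite (Submodule.torsionBy (OE E) (selInf S SD j χ κ b ρ L hr.st) (l ^ N)) := by
    intro N
    obtain ⟨m, hm⟩ := hpar N
    refine Nat.finite_of_card_ne_zero fun h0 => ?_
    rw [h0, zero_mul] at hm
    exact (pow_pos (by omega : 0 < q) (2 * m)).ne hm
  obtain ⟨n₀, hn₀⟩ := growth l hfin
  rw [card_div H h hr hL hfin, ← hq] at hn₀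
  obtain ⟨m, hm⟩ := hpar n₀
  obtain ⟨m', hm'⟩ := hpar (n₀ + 1)
  rw [hn₀] at hm'
  set a := Module.finrank E (selV S SD j χ κ b ρ L) with ha
  have e : q ^ (2 * m') = q ^ (2 * m + (a + c)) := by
    rw [← hm', pow_add, pow_add, ← hm, add_mul, one_mul, pow_add]
    ring
  have e2 := Nat.pow_right_injective hq2 e
  exact ⟨m' - m, by omega⟩

end Pool.Agent.Work.MP_787500_nt.KR
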