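import Mathlib
import Pool.Agent.Work.MP_787500_nt.GP.FinDefs
import Pool.Agent.Work.MP_787500_nt.GP.ADefs
import Pool.Agent.Work.MP_787500_nt.KR.L18
import Pool.Agent.Work.MP_787500_nt.Gn.Final
import Pool.Agent.Work.MP_787500_nt.GP.L04_Func
import Pool.Agent.Work.MP_787500_nt.GP.L20a_Dim
import Pool.Agent.Work.MP_787500_nt.KR.CocN
import Pool.Agent.Work.MP_787500_nt.GP.L07_LatDual

/-!
From the duality hypotheses `ParD` and the parity statement for the finite modules `MN T l N` to the parity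
formula: the version of `HP/FamL20.lean` for systems of normal subgroups of finite index.
-/

set_option autoImplicit false
set_option linter.unusedSectionVars false

namespace Pool.Agent.Work.MP_787500_nt.KR

open Matrix
open Pool.Agent.Work.MP_787500_nt.Gn (GoodG)
open Pool.Agent.Work.MP_787500_nt.GP
open Pool.Agent.Work.MP_787500_nt.PA (toE)

universe v

/-- a continuous representation, pro-2 on `N`, trivial on `I`, self-dual up to the twist by `κ`: the
representation and its twist, with a stable lattice -/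
theorem locRep_glob {G : Type*} [Group G] [TopologicalSpace G] [IsTopologicalGroup G] [CompactSpace G]
    {I : Set G} {N : Subgroup G} (hB : Gn.Base N I) {S : FSys G} (hS : IsBig N I S)
    {χ : G → ℤ_[2]} {κ : G →* G} (hksys : ∀ W, S.mem W → ∃ W', S.mem W' ∧ ∀ v ∈ W', κ v ∈ W)
    {E : Type v} [NormedField E] [NormedAlgebra ℚ_[2] E] [FiniteDimensional ℚ_[2] E] {n : ℕ}
    {ρ : G →* Matrix (Fin n) (Fin n) E} {b : Matrix (Fin n) (Fin n) E}
    (hρ : Gn.ConjDual 2 N I (fun g => toE E (χ g)) κ ρ b) {T : Submodule (OE E) (Fin n → E)}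
    (hst : ∀ g, ∀ x ∈ T, ρ g *ᵥ x ∈ T) :
    LocRep S χ T b (fun g => ρ g) (fun g => ρ (κ g)) := by
  have hsm : ∀ ε : ℝ, 0 < ε → ∃ W, S.mem W ∧ ∀ w ∈ W, ∀ x : Fin n → E,
      ‖ρ w *ᵥ x - x‖ ≤ ε * ‖x‖ := (big_small hB hS ⟨map_one ρ, map_mul ρ, hρ.cont, hρ.proP⟩ hρ.unram).sm
  exact
    { one := map_one ρ
      mul := map_mul ρ
      one' := by rw [map_one, map_one]
      mul' := fun s u => by rw [map_mul, map_mul]
      st := hst
      st' := fun g => hst (κ g)
      sm := hsm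
      sm' := by
        intro ε hε
        obtain ⟨W, hW, h⟩ := hsm ε hε
        obtain ⟨W', hW', h'⟩ := hksys W hW
        exact ⟨W', hW', fun w hw x => h _ (h' w hw) x⟩
      dual := by
        intro g x y
        unfold bil
        rw [← vecMul_transpose, ← dotProduct_mulVec, mulVec_mulVec, mulVec_mulVec,
          hρ.dual, smul_mulVec, dotProduct_smul, smul_eq_mul] }

/-- `b (x, ρ θ x) = 0` for the elements `θ` of the pairs in `Θ` -/
theorem alt_glob {G : Type*} [Group G] [TopologicalSpace G] [IsTopologicalGroup G] [CompactSpace G]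
    {I : Set G} {N : Subgroup G} (hB : Gn.Base N I) {S : FSys G} (hS : IsBig N I S)
    {χ : G → ℤ_[2]} {κ : G →* G} {Θ : Set (G × G)} (htk : ∀ p ∈ Θ, ∀ W, S.mem W → p.1 * κ p.1 ∈ W)
    (hχΘ : ∀ p ∈ Θ, χ p.1 = -1)
    {E : Type v} [NormedField E] [NormedAlgebra ℚ_[2] E] [FiniteDimensional ℚ_[2] E] {n : ℕ}
    {ρ : G →* Matrix (Fin n) (Fin n) E} {b : Matrix (Fin n) (Fin n) E}
    (hρ : Gn.ConjDual 2 N I (fun g => toE E (χ g)) κ ρ b) :
    (∀ p ∈ Θ, ρ p.1 * ρ (κ p.1) = 1) ∧ ∀ p ∈ Θ, ∀ x : Fin n → E, bil b x (ρ p.1 *ᵥ x) = 0 := by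
  have hρc : ∀ k ∈ Gn.core 2 N I, ρ k = 1 := fun k hk => Gn.rho_core hB hρ hk
  have hd : ∀ (g : G) (x y : Fin n → E),
      bil b (ρ g *ᵥ x) (ρ (κ g) *ᵥ y) = toE E (χ g) * bil b x y := by
    intro g x y
    unfold bil
    rw [← vecMul_transpose, ← dotProduct_mulVec, mulVec_mulVec, mulVec_mulVec,
      hρ.dual, smul_mulVec, dotProduct_smul, smul_eq_mul]
  have hΘc : ∀ p ∈ Θ, p.1 * κ p.1 ∈ Gn.core 2 N I := by
    intro p hp
    rw [Gn.core, Subgroup.mem_sInf]
    intro W hW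
    exact htk p hp W (hS.mem_of hW)
  have hΘ' : ∀ p ∈ Θ, ρ p.1 * ρ (κ p.1) = 1 := by
    intro p hp
    rw [← map_mul]
    exact hρc _ (hΘc p hp)
  exact ⟨hΘ', fun p hp x => alt_V hρ.symm (κ := κ) hd (hχΘ p hp) (hΘ' p hp) x⟩

theorem final_gen {G : Type*} [Group G] [TopologicalSpace G] [IsTopologicalGroup G] [CompactSpace G]
    {I : Set G} {N : Subgroup G} (hB : Gn.Base N I)
    (hbasis : ∀ O ∈ nhds (1 : G), ∃ U : Subgroup G, IsOpen (U : Set G) ∧ (U : Set G) ⊆ O)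
    {S : FSys G} (hS : IsBig N I S) {Φ : Type*} [Fintype Φ]
    {D : Φ → Subgroup G} (hD : ∀ w, IsClosed (D w : Set G)) {SD : ∀ w, FSys (D w)}
    (hSD : ∀ w, IsBig (N.subgroupOf (D w)) ∅ (SD w))
    {χ : G → ℤ_[2]} {κ : G →* G} (hκ : Continuous κ) (hκN : ∀ s ∈ N, κ s ∈ N)
    {Θ : Set (G × G)} {inv : ∀ w, (D w → D w → A0) → A0}
    (H : ParD.{v} S SD (fun w => (D w).subtype) χ inv κ Θ)
    (hχΘ : ∀ p ∈ Θ, χ p.1 = -1)
    {E : Type v} [NormedField E] [NormedAlgebra ℚ_[2] E] [FiniteDimensional ℚ_[2] E]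
    [IsLocalRing (OE E)] {n : ℕ}
    {ρ : G →* Matrix (Fin n) (Fin n) E} {b : Matrix (Fin n) (Fin n) E} (hb : b.det ≠ 0)
    (hρ : Gn.ConjDual 2 N I (fun g => toE E (χ g)) κ ρ b)
    {l : OE E} {t : E →ₗ[ℚ_[2]] ℚ_[2]} {T : Submodule (OE E) (Fin n → E)} (hlat : Lat b l t T)
    (hst : ∀ g, ∀ x ∈ T, ρ g *ᵥ x ∈ T)
    (hfp : ∀ (N' : ℕ) (h : SDualF S χ κ Θ (OE E) (actN l N' (fun g => ρ g) hst) (bN hlat N'))
      (Λ : ∀ w, Submodule (OE E) (D w → MN T l N')),
      (∀ w, Betw (SD w) (fun d => actN l N' (fun g => ρ g) hst ((D w).subtype d)) (Λ w)) →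
      EvPow (Nat.card (IsLocalRing.ResidueField (OE E)))
        (Nat.card (selM h (fun w => (D w).subtype) Λ (fun w => perpM H h w (Λ w))) *
          ∏ w, Nat.card (Λ w))) :
    Parity.ParityFormula I (fun g => toE E (χ g)) κ ρ b D := by
  have hNn := hB.normal
  have hpr : ∀ w, ProRep (N.subgroupOf (D w)) (fun d : D w => ρ d) := fun w =>
    ⟨map_one ρ, fun s t => map_mul ρ _ _, hρ.cont.comp continuous_subtype_val,
      fun s hs => hρ.proP s hs⟩
  have hprk : ∀ w, ProRep (N.subgroupOf (D w)) (fun d : D w => ρ (κ d)) := fun w =>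
    ⟨by
      show ρ (κ 1) = 1
      rw [map_one, map_one], fun s t => by
      show ρ (κ (s * t)) = ρ (κ s) * ρ (κ t)
      rw [map_mul, map_mul], hρ.cont.comp (hκ.comp continuous_subtype_val),
      fun s hs => by
        have h := hρ.proP (κ s) (hκN _ hs)
        refine h.congr fun k => ?_
        show ρ (κ s ^ 2 ^ k) = ρ (κ ((s : G) ^ 2 ^ k))
        rw [map_pow κ]⟩
  have hrep : LocRep S χ T b (fun g => ρ g) (fun g => ρ (κ g)) := locRep_glob hB hS H.ksys hρ hst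
  obtain ⟨hΘ', hal⟩ := alt_glob hB hS H.tk hχΘ hρ
  obtain ⟨p, hp⟩ := H.ne
  have hθ' := hΘ' p hp
  intro L hL
  have hND : ∀ w, (N.subgroupOf (D w)).Normal := fun w => inferInstance
  have hNDo : ∀ w, IsOpen ((N.subgroupOf (D w) : Subgroup (D w)) : Set (D w)) := fun w =>
    hB.isOpen.preimage continuous_subtype_val
  have hcD : ∀ w, CompactSpace (D w) := fun w => isCompact_iff_compactSpace.1 (hD w).isCompact
  have hLZ : ∀ w, ∀ X ∈ L w, ZV (SD w) (fun d => ρ ((D w).subtype d)) X := by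
    intro w X hX
    have := hcD w
    exact (big_coc (base_of (hND w) (hNDo w)) (hSD w) (hpr w) (fun _ h => h.elim)).1
      ⟨(hL w).2 hX, fun _ h => h.elim⟩
  have hL0 : ∀ w v, (fun d => ρ ((D w).subtype d) *ᵥ v - v) ∈ L w := fun w v =>
    (hL w).1 ⟨v, fun σ => rfl⟩
  have hev := parV (ρ := fun g => ρ g) H hlat hrep hal hLZ hL0 (fun N' =>
    hfp N' _ _ fun w => betw_lamN H hlat hrep hLZ hL0 N' w)
  have hsel : Parity.selmerF I (fun g => toE E (χ g)) κ ρ b D L =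
      selV S SD (fun w => (D w).subtype) χ κ b (fun g => ρ g) L := by
    have hzz : ∀ X : G → Fin n → E, (Parity.IsCocycle ρ X ∧ ∀ σ ∈ I, X σ = 0) ↔
        ZV S (fun g => ρ g) X := fun X =>
      big_coc hB hS ⟨map_one ρ, map_mul ρ, hρ.cont, hρ.proP⟩ hρ.unram
    have hpp : ∀ w (y : D w → Fin n → E),
        Parity.IsPerp (fun σ : D w => toE E (χ σ)) (fun σ : D w => ρ (κ σ)) b (L w) y ↔
        PerpV (SD w) (fun d => χ ((D w).subtype d)) b (fun d => ρ (κ ((D w).subtype d))) (L w) y := by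
      intro w y
      have := hcD w
      exact big_perp (basis_sub hbasis) (hND w) (hNDo w) (hSD w) (H.loc w).char (hpr w) (hprk w)
        (fun x hx => (hL w).2 hx)
    ext X
    constructor
    · rintro ⟨h1, h2, h3⟩
      exact ⟨(hzz X).1 ⟨h1, h2⟩, fun w => (h3 w).1, fun w => (hpp w _).1 (h3 w).2⟩
    · rintro ⟨h1, h2, h3⟩
      obtain ⟨h4, h5⟩ := (hzz X).2 h1
      exact ⟨h4, h5, fun w => ⟨h2 w, (hpp w _).2 (h3 w)⟩⟩
  have hfd : ∀ w, FiniteDimensional E (L w) := by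
    intro w
    have h1 : FiniteDimensional E (zV (SD w) (fun d : D w => ρ d)) :=
      zV_fd (H.loc w).gens (map_one ρ) (fun s u => map_mul ρ _ _)
    have h2 : L w ≤ zV (SD w) (fun d : D w => ρ d) := fun X hX => hLZ w X hX
    exact Submodule.finiteDimensional_of_le h2
  have hfs : FiniteDimensional E
      (selV S SD (fun w => (D w).subtype) χ κ b (fun g => ρ g) L) := selV_fd H hrep
  have hcs : Parity.coboundaries ρ ≤ Parity.selmerF I (fun g => toE E (χ g)) κ ρ b D L := by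
    rintro X ⟨v, hv⟩
    rw [hsel]
    obtain rfl : X = fun g => ρ g *ᵥ v - v := funext hv
    have h1 : (fun g => ρ g *ᵥ v - v) ∈ Gn.Zgd hB 2 ρ := Gn.cob_mem hB hρ ⟨v, fun _ => rfl⟩
    refine ⟨⟨(hS.n1 hB).2 h1.1, h1.2⟩, fun w => hL0 w v, fun w => ?_⟩
    exact cob_perpV (locRep_of H hrep w) (hLZ w) v
  have hchar : CharZero E := charZero_of_injective_algebraMap (algebraMap ℚ_[2] E).injective
  have hn : Even n := even_n hb (A := ρ p.1) (by
    intro h
    have h1 := congrArg Matrix.det hθ'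
    rw [det_mul, h, zero_mul, det_one] at h1
    exact zero_ne_one h1) (hal p hp)
  refine ⟨hfd, ?_, hcs, ?_⟩
  · rw [hsel]
    exact hfs
  · rw [hsel] at hcs ⊢
    exact even_count hn (fun g => ρ g) (fun w (σ : D w) => ρ σ) hfs hfd hcs (fun w => (hL w).1) hev

end Pool.Agent.Work.MP_787500_nt.KR
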