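import Mathlib
import Pool.Agent.Work.MP_787500_nt.KR.ADefs

/-!
# Module A2 (size M): Shapiro's lemma for the number of classes; injectivity for the permutation module

* `h1_ind`: `y ↦ si1 y` maps `z1s SC` into `z1s S` (`si1_coc`, `si1_sm`), `b1s` into `b1s` (`si1_d0`); `sr1` maps back
  (`sr1_coc`, `sr1_sm`, and `sr1 (d0 (ind ..) f) = d0 τ (f 1̄)`, `ind_base`); `sr1_si1`, `si1_sr1` show that they are
  inverse to each other modulo coboundaries. So the quotients `z1s ⧸ b1s` are in bijection (`relIndex` is the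
  cardinality of the quotient `z1s ⧸ (b1s).addSubgroupOf z1s`).
* `h1_tr2`: for the trivial action on `ZMod 2`: `b1s = ⊥` and `z1s (ofTwo SC) = homs SC ⊤` as sets, so
  `h1 = Nat.card (homs SC ⊤) = 2 ^ finrank` (`Module.natCard_eq_pow_finrank` or the like).
* `sh1_zero`: let `x ∈ Z1 S prm` be locally a coboundary. `ω := sr1 x` is in `homs (two (res F C)) ⊤` (`sr1_coc`,
  `sr1_sm` with `syl_sm`; the system of `C` is `ofTwo (two (res F C))`). For `i`, `g`, `d` with `g * j i d * g⁻¹ ∈ C`: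
  write `y = j i d`, `v₀` for the coset of 1, `v = g⁻¹ • v₀`; `y • v = v` because `g y g⁻¹ • v₀ = v₀` (`smul_base`).
  `x (g y g⁻¹) v₀ = x g v₀ + x y v + x g⁻¹ (y⁻¹ • v) = (x g v₀ + x g⁻¹ v) + x y v = x (g g⁻¹) v₀ + x y v = x y v`, and
  `x y v = f (y⁻¹ • v) - f v = 0`. So `ω = 0` by `InjC`; by `si1_sr1` (with `si1 0 = 0`) `x` is a coboundary.
-/

set_option autoImplicit false
set_option linter.unusedSectionVars false

namespace Pool.Agent.Work.MP_787500_nt.KR

open Pool.Agent.Work.MP_787500_nt.GP (A0 half hf IsAct d0 d1 d2 tw cup11 cup02)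
open Pool.Agent.Work.MP_787500_nt.PA (TwoSys homs LocalType)

theorem h1_ind {G : Type*} [Group G] {C : Subgroup G} {S : FSys G} {SC : FSys C}
    (hT : (traQ C).Sm S SC) {N : Type*} [AddCommGroup N] {τ : C → N → N} (h : IsAct τ) :
    h1 S (traQ_act h) = h1 SC h := by
  let φ : z1s SC h →+ z1s S (traQ_act h) :=
    { toFun := fun y => ⟨si1 y.1, si1_sm hT y.2.1, si1_coc y.2.2⟩
      map_zero' := rfl
      map_add' := fun _ _ => rfl }
  let K : AddSubgroup (z1s S (traQ_act h)) := (b1s (traQ_act h)).addSubgroupOf (z1s S (traQ_act h))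
  have h1' : K.comap φ = (b1s h).addSubgroupOf (z1s SC h) := by
    ext y
    rw [AddSubgroup.mem_comap, AddSubgroup.mem_addSubgroupOf, AddSubgroup.mem_addSubgroupOf]
    constructor
    · rintro ⟨f, hf⟩
      refine ⟨f ((1 : G) : G ⧸ C), ?_⟩
      funext c
      rw [← sr1_si1 (G := G) y.1 c]
      show si1 y.1 (c : G) ((1 : G) : G ⧸ C) = _
      have e : si1 y.1 = d0 (ind (traQ C) τ) f := hf
      rw [e]
      simp only [d0, Pi.sub_apply, ind_base]
    · rintro ⟨n, hn⟩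
      refine ⟨fun _ => n, ?_⟩
      show si1 y.1 = _
      rw [hn]
      exact si1_d0 n
  have h2 : φ.range ⊔ K = ⊤ := by
    rw [eq_top_iff]
    intro x _
    have hx := x.2
    let y : z1s SC h := ⟨sr1 x.1, sr1_sm hT hx.1, sr1_coc hx.2⟩
    have e : x = φ y + (x - φ y) := by abel
    rw [e]
    refine AddSubgroup.add_mem_sup ⟨y, rfl⟩ ?_
    rw [AddSubgroup.mem_addSubgroupOf]
    refine ⟨-(fun v => x.1 (repQ C v) v), ?_⟩
    funext g
    show x.1 g - si1 (sr1 x.1) g = _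
    rw [si1_sr1 h hx.2 g]
    simp only [d0, (traQ_act h).neg]
    abel
  calc h1 S (traQ_act h) = K.index := rfl
    _ = K.relIndex ⊤ := (AddSubgroup.relIndex_top_right K).symm
    _ = K.relIndex (φ.range ⊔ K) := by rw [h2]
    _ = K.relIndex φ.range := AddSubgroup.relIndex_sup_right _ _
    _ = (K.comap φ).index := (AddSubgroup.index_comap K φ).symm
    _ = h1 SC h := by rw [h1']; rfl

theorem h1_tr2 {C : Type*} [Group C] (SC : TwoSys C)
    (hfin : FiniteDimensional (ZMod 2) (homs SC (⊤ : Subgroup C))) :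
    h1 (ofTwo SC) (tr2_act : IsAct (tr2 : C → ZMod 2 → ZMod 2)) =
      2 ^ Module.finrank (ZMod 2) (homs SC (⊤ : Subgroup C)) := by
  have hb : b1s (tr2_act : IsAct (tr2 : C → ZMod 2 → ZMod 2)) = ⊥ := by
    rw [eq_bot_iff]
    rintro x ⟨m, rfl⟩
    rw [AddSubgroup.mem_bot]
    funext g
    exact sub_self m
  have hz : z1s (ofTwo SC) (tr2_act : IsAct (tr2 : C → ZMod 2 → ZMod 2)) =
      (homs SC (⊤ : Subgroup C)).toAddSubgroup := by
    ext x
    constructor
    · rintro ⟨h1, h2⟩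
      exact ⟨h1, fun g hg => absurd trivial hg, fun a _ b _ => h2 a b⟩
    · rintro ⟨h1, -, h3⟩
      exact ⟨h1, fun a b => h3 a trivial b trivial⟩
  rw [h1, hb, AddSubgroup.relIndex_bot_left, hz]
  have h2 := Module.natCard_eq_pow_finrank (K := ZMod 2) (V := homs SC (⊤ : Subgroup C))
  rw [Nat.card_zmod] at h2
  exact h2

theorem sh1_zero {G : Type*} [Group G] {F : FSys G} {N₀ C : Subgroup G} {I : Type*}
    {D : I → Type*} [∀ i, Group (D i)] {j : ∀ i, D i →* G}
    (hT : (traQ C).Sm (big F N₀) (ofTwo (two (res F C)))) (hi : InjC F C j)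
    {x : G → G ⧸ C → ZMod 2} (hx : Z1 (big F N₀) prm x)
    (h0 : ∀ i, ∃ f, ∀ d, x (j i d) = d0 (fun d => prm (j i d)) f d) : ∃ f, x = d0 prm f := by
  have hx2 : ∀ a b, x (a * b) = x a + ind (traQ C) tr2 a (x b) := hx.2
  have h1 : sr1 x ∈ homs (two (res F C)) (⊤ : Subgroup C) := by
    refine ⟨sr1_sm hT hx.1, fun g hg => absurd trivial hg, fun a _ b _ => ?_⟩
    exact sr1_coc hx2 a b
  have h2 : sr1 x = 0 := by
    refine hi _ h1 fun i g d hd => ?_
    obtain ⟨f, hf⟩ := h0 i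
    set v₀ : G ⧸ C := ((1 : G) : G ⧸ C) with hv₀
    have e1 : (g * j i d * g⁻¹) • v₀ = v₀ := smul_base (⟨g * j i d * g⁻¹, hd⟩ : C)
    have e2 : (j i d)⁻¹ • g⁻¹ • v₀ = g⁻¹ • v₀ := by
      rw [mul_smul, mul_smul] at e1
      rw [inv_smul_eq_iff, inv_smul_eq_iff]
      exact e1.symm
    show x (g * j i d * g⁻¹) v₀ = 0
    have e3 : x (g * j i d * g⁻¹) v₀ = x g v₀ + x (j i d) (g⁻¹ • v₀) +
        x g⁻¹ ((j i d)⁻¹ • g⁻¹ • v₀) := by
      rw [hx.2, hx.2]
      simp only [Pi.add_apply, prm, mul_inv_rev, mul_smul]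
    have e4 : x (g * g⁻¹) v₀ = x g v₀ + x g⁻¹ (g⁻¹ • v₀) := by
      rw [hx.2]
      rfl
    have e5 : x 1 = 0 := by
      have := hx.2 1 1
      rw [mul_one, prm_act.one] at this
      exact left_eq_add.1 this
    have e6 : x (j i d) (g⁻¹ • v₀) = 0 := by
      rw [hf d]
      show f ((j i d)⁻¹ • g⁻¹ • v₀) - f (g⁻¹ • v₀) = 0
      rw [e2, sub_self]
    rw [mul_inv_cancel, e5] at e4
    rw [e3, e2, e6, add_zero, ← e4]
    rfl
  refine ⟨-(fun v => x (repQ C v) v), ?_⟩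
  funext g
  have h3 := si1_sr1 tr2_act hx2 g
  rw [h2] at h3
  have h4 : si1 (0 : C → ZMod 2) g = 0 := rfl
  rw [h4, ind_tr2] at h3
  rw [eq_neg_of_add_eq_zero_left h3.symm]
  simp only [d0, prm_act.neg]
  abel

end Pool.Agent.Work.MP_787500_nt.KR
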