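import Mathlib
import Pool.Agent.Work.MP_787500_nt.KR.ADefs

/-!
# Module A3 (size M): Sha in degree 2 of the permutation module

* `conj2`: let `f` be a 2-cocycle for the action `ρ` and `g : G`. Put `u a = f (g a g⁻¹) g - f g a` and
  `a' = g a g⁻¹`, `b' = g b g⁻¹`. Then `f a' b' = ρ g (f a b) + u a + ρ a' (u b) - u (a b)`.
  Proof: the relation `ρ x (f y z) - f (x y) z + f x (y z) - f x y = 0` for `(a', b', g)`, `(a', g, b)`, `(g, a, b)`,
  using `a' g = g a`, `b' g = g b`.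
* `sha_ind`: let `f ∈ Z2 (big F N₀) prm`, `f|D i = d1 (x i)` with `x i` smooth. By `si2_sr2` (`h := tr2_act`,
  `prm = ind (traQ C) tr2`) it suffices that `sr2 f = d1 tr2 z` with `z` smooth for `ofTwo (two (res F C))`
  (`si2_d1`, `si1_sm`, `zetv_sm` with `hT`). Apply `ShaC` to `sr2 f` (`sr2_coc`, `sr2_sm`: `PA.Coc`; signs do not
  matter in `ZMod 2`). For `i`, `g` put `v₀` = coset of 1, `v = g⁻¹ • v₀` and
  `z a = u (j i a) v₀ + x i a v` with `u` of `conj2`. For `a`, `b` with `g * j i a * g⁻¹ ∈ C` etc.: `j i a` fixes `v`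
  and `g * j i a * g⁻¹` fixes `v₀`, so `conj2` at `v₀` gives
  `f a' b' v₀ = f a b v + u a v₀ + u b v₀ - u (a b) v₀` and `f a b v = x a v + x b v - x (a b) v`
  (`a`, `b` stand for `j i a`, `j i b`; `prm y m v = m (y⁻¹ • v)`). `z` is smooth: `u ∘ j i` by `Sm2` of `f` and
  `hj` (compatibility of the systems; note `g * w * g⁻¹ ∈ W` for `w ∈ W`, `W` normal).
-/

set_option autoImplicit false
set_option linter.unusedSectionVars false

namespace Pool.Agent.Work.MP_787500_nt.KR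

open Pool.Agent.Work.MP_787500_nt.GP (A0 half hf IsAct d0 d1 d2 tw cup11 cup02)
open Pool.Agent.Work.MP_787500_nt.PA (TwoSys homs LocalType)

private theorem sm1_sub {G : Type*} [Group G] {S : FSys G} {A : Type*} [Sub A] {x y : G → A}
    (hx : Sm1 S x) (hy : Sm1 S y) : Sm1 S (fun g => x g - y g) := by
  obtain ⟨W, hW, h⟩ := hx
  obtain ⟨W', hW', h'⟩ := hy
  refine ⟨W ⊓ W', S.inf hW hW', fun g w hw => ?_⟩
  simp only [h g w hw.1, h' g w hw.2]

theorem conj2 {G : Type*} [Group G] {M : Type*} [AddCommGroup M] {ρ : G → M → M} (h : IsAct ρ)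
    {f : G → G → M} (hf : ∀ a b c, d2 ρ f a b c = 0) (g a b : G) :
    f (g * a * g⁻¹) (g * b * g⁻¹) = ρ g (f a b) + (f (g * a * g⁻¹) g - f g a) +
      ρ (g * a * g⁻¹) (f (g * b * g⁻¹) g - f g b) - (f (g * (a * b) * g⁻¹) g - f g (a * b)) := by
  have e1 := hf (g * a * g⁻¹) (g * b * g⁻¹) g
  have e2 := hf (g * a * g⁻¹) g b
  have e3 := hf g a b
  simp only [d2] at e1 e2 e3
  have k1 : g * b * g⁻¹ * g = g * b := by group
  have k2 : g * a * g⁻¹ * g = g * a := by group
  have k3 : g * a * g⁻¹ * (g * b * g⁻¹) = g * (a * b) * g⁻¹ := by group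
  rw [k1, k3] at e1
  rw [k2] at e2
  rw [h.sub]
  have e1' : f (g * a * g⁻¹) (g * b * g⁻¹) = ρ (g * a * g⁻¹) (f (g * b * g⁻¹) g) -
      f (g * (a * b) * g⁻¹) g + f (g * a * g⁻¹) (g * b) := (sub_eq_zero.1 e1).symm
  have e2' : f (g * a * g⁻¹) (g * b) = f (g * a * g⁻¹) g + f (g * a) b -
      ρ (g * a * g⁻¹) (f g b) := by
    have : ρ (g * a * g⁻¹) (f g b) - f (g * a) b + f (g * a * g⁻¹) (g * b) =
      f (g * a * g⁻¹) g := sub_eq_zero.1 e2
    rw [← this]; abel
  have e3' : f (g * a) b = ρ g (f a b) + f g (a * b) - f g a := by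
    have : ρ g (f a b) - f (g * a) b + f g (a * b) = f g a := sub_eq_zero.1 e3
    rw [← this]; abel
  rw [e1', e2', e3']
  abel

theorem sha_ind {G : Type*} [Group G] {F : FSys G} {N₀ C : Subgroup G} {I : Type*}
    {D : I → Type*} [∀ i, Group (D i)] {SD : ∀ i, FSys (D i)} {j : ∀ i, D i →* G}
    [Finite (G ⧸ C)] (hT : (traQ C).Sm (big F N₀) (ofTwo (two (res F C))))
    (hj : ∀ i W, (big F N₀).mem W → ∃ W', (SD i).mem W' ∧ ∀ w ∈ W', j i w ∈ W)
    (hs : ShaC F C SD j) :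
    Sha2 (big F N₀) SD j (prm : G → (G ⧸ C → ZMod 2) → G ⧸ C → ZMod 2) := by
  intro f hf0 hloc
  obtain ⟨hfs, hfc⟩ := hf0
  have hfc' : ∀ a b c, d2 (ind (traQ C) tr2) f a b c = 0 := hfc
  have hcoc : PA.Coc (two (res F C)) (⊤ : Subgroup C) (sr2 f) := by
    refine ⟨sr2_sm hT hfs, fun g _ h _ k _ => ?_⟩
    have e := sr2_coc hfc' g h k
    simp only [d2, tr2] at e
    have e' : sr2 f h k - sr2 f (g * h) k + sr2 f g (h * k) = sr2 f g h := sub_eq_zero.1 e
    rw [← e']; abel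
  have hcob : PA.Cob (two (res F C)) (⊤ : Subgroup C) (sr2 f) := by
    refine hs (sr2 f) hcoc ?_
    intro i g
    obtain ⟨x, hx, hxe⟩ := hloc i
    set v0 : G ⧸ C := ((1 : G) : G ⧸ C) with hv0
    refine ⟨fun a => (f (g * j i a * g⁻¹) g v0 - f g (j i a) v0) + x a (g⁻¹ • v0), ?_, ?_⟩
    · obtain ⟨W, hW, h⟩ := hfs
      obtain ⟨W', hW', h'⟩ := hj i W hW
      obtain ⟨W1, hW1, h1⟩ := hx
      have hn : W.Normal := (big F N₀).normal hW
      refine ⟨W' ⊓ W1, (SD i).inf hW' hW1, fun a w hw => ?_⟩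
      have hw2 := h' w hw.1
      have k1 : g * j i (a * w) * g⁻¹ = (g * j i a * g⁻¹) * (g * j i w * g⁻¹) := by
        rw [map_mul]; group
      have k2 : f (g * j i (a * w) * g⁻¹) g = f (g * j i a * g⁻¹) g := by
        have := h (g * j i a * g⁻¹) g (g * j i w * g⁻¹) (hn.conj_mem _ hw2 g) 1 (one_mem _)
        rw [mul_one] at this
        rw [k1, this]
      have k3 : f g (j i (a * w)) = f g (j i a) := by
        have := h g (j i a) 1 (one_mem _) (j i w) hw2
        rw [mul_one] at this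
        rw [map_mul, this]
      simp only [k2, k3, h1 a w hw.2]
    · intro a b ha hb
      have e := congrFun (conj2 (prm_act (G := G) (V := G ⧸ C)) hfc g (j i a) (j i b)) v0
      have hfix : (g * j i a * g⁻¹)⁻¹ • v0 = v0 := smul_base' ⟨g * j i a * g⁻¹, ha⟩
      have hfix2 : (j i a)⁻¹ • g⁻¹ • v0 = g⁻¹ • v0 := by
        have : (j i a)⁻¹ • g⁻¹ • v0 = g⁻¹ • (g * j i a * g⁻¹)⁻¹ • v0 := by
          rw [smul_smul, smul_smul]
          congr 1
          group
        rw [this, hfix]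
      have e2 : f (j i a) (j i b) = fun v => x a v + x b ((j i a)⁻¹ • v) - x (a * b) v := by
        have := congrFun (congrFun hxe a) b
        simp only [d1] at this
        rw [this]
        rfl
      simp only [Pi.add_apply, Pi.sub_apply, prm, hfix] at e
      rw [e2] at e
      simp only [hfix2] at e
      show f (g * j i a * g⁻¹) (g * j i b * g⁻¹) v0 = _
      rw [e]
      simp only [map_mul, CharTwo.sub_eq_add]
      abel
  · obtain ⟨z, hz, hz'⟩ := hcob
    have hz1 : Sm1 (ofTwo (two (res F C))) z := hz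
    have hsr : sr2 f = d1 tr2 z := by
      funext a b
      rw [hz' a trivial b trivial]
      simp only [d1, tr2]
      rw [CharTwo.sub_eq_add]
    refine ⟨fun g => si1 z g - (fun g (v : G ⧸ C) => zet (traQ C) f v g v) g,
      sm1_sub (si1_sm hT hz1) (zetv_sm hT hfs), ?_⟩
    funext g k
    have e := si2_sr2 (tr2_act (X := C)) hfc' g k
    have e2 : si2 (sr2 f) g k = d1 (ind (traQ C) tr2) (si1 z) g k := by
      rw [hsr, si2_d1]
    have e3 : f g k = si2 (sr2 f) g k -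
        d1 (ind (traQ C) tr2) (fun g v => zet (traQ C) f v g v) g k := by
      rw [e]; abel
    rw [e3, e2, ← ind_tr2]
    have hact : IsAct (ind (traQ C) tr2 : G → (G ⧸ C → ZMod 2) → G ⧸ C → ZMod 2) :=
      traQ_act tr2_act
    simp only [d1]
    rw [hact.sub]
    abel

end Pool.Agent.Work.MP_787500_nt.KR
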