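import Mathlib
import Pool.Agent.Work.MP_787500_nt.KR.ADefs

/-!
# Module A4 (size M-L): the number of classes of a permutation module of a local group

`D` acts on the finite set `V` through `j : D →* G`; `A = (V → ZMod 2)` with the action `fun d => prm (j d)`. Put
`r = orb j V`, the number of orbits of `j.range`. `Opn F C → finrank homs (two (res F C)) ⊤ = d * C.index + 2`.
* `card_b1`: `f ↦ d0 f` from `V → ZMod 2` onto `b1s` has the kernel of the functions that are constant on the
  orbits, `2 ^ r` elements: functions on `MulAction.orbitRel.Quotient j.range V`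
  (`d0 (fun d => prm (j d)) f d v = f ((j d)⁻¹ • v) - f v`).
* `card_z1`: choose representatives `o` of the orbits and for each `w : V` an element `g w : D` with
  `j (g w) • o = w`, `o` the representative of the orbit of `w` (`g o = 1`). Map `x ∈ z1s` to the family of the
  homomorphisms `c ↦ x c o` on `Stab o = {c : D | j c • o = o}` (in `homs (two (res F (Stab o))) ⊤`) and to
  the values `x (g w) w`, `w` not a representative. Injective: if all these are 0, let `a : D`, `w : V`,
  `w' = (j a)⁻¹ • w`; then `a * g w' = g w * c` with `c ∈ Stab o`, and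
  `x (a * g w') w = x a w + x (g w') w' = x a w`, `x (g w * c) w = x (g w) w + x c o = 0`. So
  `card z1s ≤ ∏_o 2 ^ (d * (Stab o).index + 2) * 2 ^ (card V - r) = 2 ^ (d * card V + 2 r + card V - r)`:
  the index of `Stab o` in `D` is the size of the orbit (the orbit of `D` through `j` is the orbit of `j.range`),
  and the orbits add up to `V`.
  The homomorphism `ω c = x c o` is in `homs (two (res F (Stab o))) ⊤`: `x` is constant modulo some `W`, `S.mem W`,
  `W₁ ≤ W` with `F.mem W₁` (`hS`); the kernel of `ω` is a normal subgroup of `Stab o` of index 1 or 2 that contains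
  `W₁.subgroupOf (Stab o)`. `Opn F (Stab o)`: `hV`.
* `h1_perm`: `card z1s = card b1s * h1` and the two statements before: `2 ^ (card V - r) * h1 ≤
  2 ^ (d * card V + r + card V)`.
-/

set_option autoImplicit false
set_option linter.unusedSectionVars false

namespace Pool.Agent.Work.MP_787500_nt.KR

open Pool.Agent.Work.MP_787500_nt.GP (A0 half hf IsAct d0 d1 d2 tw cup11 cup02)
open Pool.Agent.Work.MP_787500_nt.PA (TwoSys homs LocalType)

variable {D G V : Type*} [Group D] [Group G] [MulAction G V] [Finite V] {j : D →* G}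

private theorem a4_mem_ker {f : V → ZMod 2} :
    (∀ d : D, ∀ v : V, f ((j d)⁻¹ • v) = f v) ↔
      ∀ v w : V, MulAction.orbitRel j.range V v w → f v = f w := by
  constructor
  · rintro h v w ⟨⟨_, d, rfl⟩, hd⟩
    have h1 := h d v
    have h2 : j d • w = v := hd
    rw [← h2, inv_smul_smul] at h1
    rw [← h2]
    exact h1.symm
  · intro h d v
    refine h _ _ ⟨⟨(j d)⁻¹, d⁻¹, map_inv j d⟩, rfl⟩

theorem card_b1 :
    Nat.card (b1s (prm_act.comp j : IsAct fun d => (prm (j d) : (V → ZMod 2) → V → ZMod 2))) *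
      2 ^ orb j V = 2 ^ Nat.card V := by
  classical
  let φ : (V → ZMod 2) →+ (D → V → ZMod 2) := AddMonoidHom.mk'
    (fun f => d0 (fun d => (prm (j d) : (V → ZMod 2) → V → ZMod 2)) f) (by
      intro f f'
      funext d v
      simp only [d0, prm, Pi.add_apply, Pi.sub_apply]
      ring)
  have hr : b1s (prm_act.comp j : IsAct fun d => (prm (j d) : (V → ZMod 2) → V → ZMod 2)) =
      φ.range := by
    ext x
    rw [mem_b1s, AddMonoidHom.mem_range]
    constructor
    · rintro ⟨m, hm⟩
      exact ⟨m, hm.symm⟩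
    · rintro ⟨m, hm⟩
      exact ⟨m, hm.symm⟩
  have hk : ∀ f : V → ZMod 2, f ∈ φ.ker ↔
      ∀ v w : V, MulAction.orbitRel j.range V v w → f v = f w := by
    intro f
    rw [← a4_mem_ker, AddMonoidHom.mem_ker]
    constructor
    · intro h d v
      have h1 := congrFun (congrFun h d) v
      have h2 : f ((j d)⁻¹ • v) - f v = 0 := h1
      exact sub_eq_zero.1 h2
    · intro h
      funext d v
      show f ((j d)⁻¹ • v) - f v = 0
      rw [h, sub_self]
  let E : φ.ker ≃ (MulAction.orbitRel.Quotient j.range V → ZMod 2) :=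
    { toFun := fun f q => Quotient.liftOn' q f.1 ((hk f.1).1 f.2)
      invFun := fun g => ⟨fun v => g (Quotient.mk'' v), (hk _).2 fun v w h => by
        have : (Quotient.mk'' v : MulAction.orbitRel.Quotient j.range V) = Quotient.mk'' w :=
          Quotient.eq''.2 h
        rw [this]⟩
      left_inv := fun f => by
        apply Subtype.ext
        rfl
      right_inv := fun g => by
        funext q
        induction q using Quotient.inductionOn' with
        | h v => rfl }
  have h1 : Nat.card φ.ker = 2 ^ orb j V := by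
    rw [Nat.card_congr E, Nat.card_fun, Nat.card_zmod, orb]
  have h2 : Nat.card (V → ZMod 2) = 2 ^ Nat.card V := by
    rw [Nat.card_fun, Nat.card_zmod]
  have h3 : Nat.card φ.ker * φ.ker.index = Nat.card (V → ZMod 2) := φ.ker.card_mul_index
  rw [AddSubgroup.index_ker, h1, h2] at h3
  rw [hr, mul_comm]
  exact h3

/-- the stabilizer in `D` of the representative of an orbit -/
private noncomputable def Stq (j : D →* G) (V : Type*) [MulAction G V] (q : MulAction.orbitRel.Quotient j.range V) :
    Subgroup D :=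
  (MulAction.stabilizer j.range (Quotient.out q : V)).comap j.rangeRestrict

private theorem a4_mem_Stq {q : MulAction.orbitRel.Quotient j.range V} {c : D} :
    c ∈ Stq j V q ↔ j c • (Quotient.out q : V) = Quotient.out q := Iff.rfl

private theorem a4_opn {F : FSys D} (hV : ∃ W, F.mem W ∧ ∀ w ∈ W, ∀ v : V, j w • v = v)
    (q : MulAction.orbitRel.Quotient j.range V) : Opn F (Stq j V q) := by
  obtain ⟨W, hW, h1⟩ := hV
  exact ⟨W, hW, fun w hw => a4_mem_Stq.2 (h1 w hw _)⟩

private theorem a4_index [Fintype (MulAction.orbitRel.Quotient j.range V)] :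
    ∑ q, (Stq j V q).index = Nat.card V := by
  have : ∀ q : MulAction.orbitRel.Quotient j.range V,
      Finite (j.range ⧸ MulAction.stabilizer j.range (Quotient.out q : V)) := fun q =>
    Finite.of_equiv _ (MulAction.orbitEquivQuotientStabilizer j.range (Quotient.out q : V))
  rw [Nat.card_congr (MulAction.selfEquivSigmaOrbitsQuotientStabilizer j.range V), Nat.card_sigma]
  refine Finset.sum_congr rfl fun q _ => ?_
  rw [Stq, Subgroup.index_comap_of_surjective _ j.rangeRestrict_surjective]
  rfl

private theorem a4_homs {F S : FSys D} (hS : ∀ W, S.mem W → ∃ W₁, F.mem W₁ ∧ W₁ ≤ W)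
    {x : D → V → ZMod 2} (hx : Z1 S (fun d => prm (j d)) x)
    (q : MulAction.orbitRel.Quotient j.range V) :
    (fun c : Stq j V q => x c (Quotient.out q)) ∈
      homs (two (res F (Stq j V q))) (⊤ : Subgroup (Stq j V q)) := by
  obtain ⟨⟨W, hW, h1⟩, h2⟩ := hx
  obtain ⟨W₁, hW₁, hle⟩ := hS W hW
  have hadd : ∀ c c' : Stq j V q, x (c * c' : D) (Quotient.out q) =
      x c (Quotient.out q) + x c' (Quotient.out q) := by
    intro c c'
    rw [h2]
    show x c (Quotient.out q) + x c' ((j c)⁻¹ • (Quotient.out q : V)) = _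
    congr 2
    rw [inv_smul_eq_iff]
    exact (a4_mem_Stq.1 c.2).symm
  let ω : Stq j V q →* Multiplicative (ZMod 2) := MonoidHom.mk'
    (fun c => Multiplicative.ofAdd (x c (Quotient.out q))) (by
      intro c c'
      rw [← ofAdd_add, ← hadd]
      rfl)
  have hω : ∀ c, c ∈ ω.ker ↔ x c (Quotient.out q) = 0 := by
    intro c
    rw [MonoidHom.mem_ker]
    exact Iff.rfl
  have hone : x 1 (Quotient.out q) = 0 := by
    have := hadd 1 1
    simpa using this
  refine ⟨⟨ω.ker, ⟨inferInstance, ⟨W₁.subgroupOf (Stq j V q), ⟨?_, W₁, hW₁, le_rfl⟩, ?_⟩, ?_⟩, ?_⟩,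
    fun g hg => absurd (Subgroup.mem_top g) hg, fun g _ k _ => hadd g k⟩
  · have := F.normal hW₁
    infer_instance
  · intro c hc
    rw [hω]
    have h3 := h1 1 c (hle (Subgroup.mem_subgroupOf.1 hc))
    rw [one_mul] at h3
    rw [h3, hone]
  · rw [Subgroup.index_ker]
    have h3 : Nat.card ω.range ∣ 2 := by
      have h4 := Subgroup.card_subgroup_dvd_card ω.range
      have h5 : Nat.card (Multiplicative (ZMod 2)) = 2 := Nat.card_zmod 2
      rwa [h5] at h4
    have h4 : Nat.card ω.range ∣ 2 ^ 1 := by rwa [pow_one]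
    obtain ⟨k, _, hk⟩ := (Nat.dvd_prime_pow Nat.prime_two).1 h4
    exact ⟨k, hk⟩
  · intro g w hw
    show x (g * w : D) (Quotient.out q) = x g (Quotient.out q)
    rw [hadd, (hω w).1 hw, add_zero]

private theorem a4_nonrep [Finite (MulAction.orbitRel.Quotient j.range V)] :
    Nat.card {w : V // w ≠ Quotient.out (Quotient.mk'' w : MulAction.orbitRel.Quotient j.range V)} +
      orb j V = Nat.card V := by
  classical
  have h1 : Nat.card {w : V // w = Quotient.out (Quotient.mk'' w :
      MulAction.orbitRel.Quotient j.range V)} = orb j V := by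
    refine Nat.card_congr
      { toFun := fun w => Quotient.mk'' w.1
        invFun := fun q => ⟨Quotient.out q, by rw [Quotient.out_eq']⟩
        left_inv := fun w => Subtype.ext w.2.symm
        right_inv := fun q => Quotient.out_eq' q }
  rw [← h1, add_comm, ← Nat.card_sum]
  exact Nat.card_congr (Equiv.sumCompl _)

theorem card_z1 {F S : FSys D} (hS : ∀ W, S.mem W → ∃ W₁, F.mem W₁ ∧ W₁ ≤ W) {d : ℕ}
    (hF : CountsF F d) (hV : ∃ W, F.mem W ∧ ∀ w ∈ W, ∀ v : V, j w • v = v) :
    Finite {x : D → V → ZMod 2 // Z1 S (fun d => prm (j d)) x} ∧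
      Nat.card {x : D → V → ZMod 2 // Z1 S (fun d => prm (j d)) x} ≤
        2 ^ (d * Nat.card V + orb j V + Nat.card V) := by
  classical
  have : Finite (MulAction.orbitRel.Quotient j.range V) :=
    Finite.of_surjective (Quotient.mk'' : V → _) Quotient.mk''_surjective
  have := Fintype.ofFinite (MulAction.orbitRel.Quotient j.range V)
  have hg : ∀ w : V, ∃ c : D,
      j c • (Quotient.out (Quotient.mk'' w : MulAction.orbitRel.Quotient j.range V)) = w := by
    intro w
    have h1 : MulAction.orbitRel j.range V w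
        (Quotient.out (Quotient.mk'' w : MulAction.orbitRel.Quotient j.range V)) :=
      Quotient.eq''.1 (Quotient.out_eq' _).symm
    obtain ⟨⟨_, c, rfl⟩, hc⟩ := h1
    exact ⟨c, hc⟩
  choose g hg using hg
  let Φ : {x : D → V → ZMod 2 // Z1 S (fun d => prm (j d)) x} →
      (∀ q, homs (two (res F (Stq j V q))) (⊤ : Subgroup (Stq j V q))) ×
      ({w : V // w ≠ Quotient.out (Quotient.mk'' w : MulAction.orbitRel.Quotient j.range V)} →
        ZMod 2) :=
    fun x => (fun q => ⟨_, a4_homs hS x.2 q⟩, fun w => x.1 (g w.1) w.1)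
  have hΦ : Function.Injective Φ := by
    rintro ⟨x, hx⟩ ⟨x', hx'⟩ he
    apply Subtype.ext
    have hy : Z1 S (fun d => (prm (j d) : (V → ZMod 2) → V → ZMod 2)) (x - x') :=
      (z1s S (prm_act.comp j : IsAct fun d => (prm (j d) : (V → ZMod 2) → V → ZMod 2))).sub_mem
        hx hx'
    have h1 : ∀ (q : MulAction.orbitRel.Quotient j.range V) (c : D), c ∈ Stq j V q →
        (x - x') c (Quotient.out q) = 0 := by
      intro q c hc
      have h2 := congrArg Subtype.val (congrFun (congrArg Prod.fst he) q)
      have h3 : x c (Quotient.out q) = x' c (Quotient.out q) := congrFun h2 ⟨c, hc⟩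
      show x c (Quotient.out q) - x' c (Quotient.out q) = 0
      rw [h3, sub_self]
    have h2 : ∀ w : V, (x - x') (g w) w = 0 := by
      intro w
      by_cases hw : w = Quotient.out (Quotient.mk'' w : MulAction.orbitRel.Quotient j.range V)
      · have h3 := h1 (Quotient.mk'' w) (g w) (a4_mem_Stq.2 (by rw [hg w]; exact hw))
        rwa [← hw] at h3
      · have h3 : x (g w) w = x' (g w) w := congrFun (congrArg Prod.snd he) ⟨w, hw⟩
        show x (g w) w - x' (g w) w = 0
        rw [h3, sub_self]
    have hmul : ∀ a b w, (x - x') (a * b) w = (x - x') a w + (x - x') b ((j a)⁻¹ • w) := by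
      intro a b w
      exact congrFun (hy.2 a b) w
    have h3 : x - x' = 0 := by
      funext a w
      set w' := (j a)⁻¹ • w with hw'
      have hq : (Quotient.mk'' w' : MulAction.orbitRel.Quotient j.range V) = Quotient.mk'' w := by
        refine Quotient.eq''.2 ⟨⟨(j a)⁻¹, a⁻¹, map_inv j a⟩, rfl⟩
      have h4 : (x - x') (a * g w') w = (x - x') a w := by
        rw [hmul, ← hw', h2, add_zero]
      have hc : (g w)⁻¹ * (a * g w') ∈ Stq j V (Quotient.mk'' w) := by
        rw [a4_mem_Stq, map_mul, map_mul, map_inv, mul_smul, mul_smul, inv_smul_eq_iff, hg w,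
          ← hq, hg w', hw', smul_inv_smul]
      have h5 : (x - x') (a * g w') w = 0 := by
        have h6 : a * g w' = g w * ((g w)⁻¹ * (a * g w')) := by group
        rw [h6, hmul, h2, zero_add]
        have h7 : (j (g w))⁻¹ • w =
            Quotient.out (Quotient.mk'' w : MulAction.orbitRel.Quotient j.range V) := by
          rw [inv_smul_eq_iff, hg w]
        rw [h7]
        exact h1 _ _ hc
      rw [← h4, h5]
      rfl
    exact sub_eq_zero.1 h3
  have hfin : ∀ q, Finite (homs (two (res F (Stq j V q))) (⊤ : Subgroup (Stq j V q))) := by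
    intro q
    have := (hF _ (a4_opn hV q)).1
    exact Module.finite_of_finite (ZMod 2)
  refine ⟨Finite.of_injective Φ hΦ, ?_⟩
  refine (Nat.card_le_card_of_injective Φ hΦ).trans (le_of_eq ?_)
  rw [Nat.card_prod, Nat.card_pi, Nat.card_fun, Nat.card_zmod]
  have h1 : ∀ q, Nat.card (homs (two (res F (Stq j V q))) (⊤ : Subgroup (Stq j V q))) =
      2 ^ (d * (Stq j V q).index + 2) := by
    intro q
    obtain ⟨h2, h3⟩ := hF _ (a4_opn hV q)
    rw [← h3]
    have h4 := Module.natCard_eq_pow_finrank (K := ZMod 2)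
      (V := homs (two (res F (Stq j V q))) (⊤ : Subgroup (Stq j V q)))
    rw [h4, Nat.card_zmod]
  simp_rw [h1]
  rw [Finset.prod_pow_eq_pow_sum, Finset.sum_add_distrib, ← Finset.mul_sum, a4_index, ← pow_add]
  congr 1
  have h2 := a4_nonrep (j := j) (V := V)
  have h3 : ∑ q : MulAction.orbitRel.Quotient j.range V, 2 = 2 * orb j V := by
    rw [Finset.sum_const, Finset.card_univ, orb, Nat.card_eq_fintype_card, smul_eq_mul, mul_comm]
  rw [h3]
  omega

theorem h1_perm {F S : FSys D} (hS : ∀ W, S.mem W → ∃ W₁, F.mem W₁ ∧ W₁ ≤ W) {d : ℕ}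
    (hF : CountsF F d) (hV : ∃ W, F.mem W ∧ ∀ w ∈ W, ∀ v : V, j w • v = v)
    (hsm : Smooth S (fun d => (prm (j d) : (V → ZMod 2) → V → ZMod 2))) :
    h1 S (prm_act.comp j : IsAct fun d => (prm (j d) : (V → ZMod 2) → V → ZMod 2)) ≤
      2 ^ (d * Nat.card V + 2 * orb j V) := by
  set h := (prm_act.comp j : IsAct fun d => (prm (j d) : (V → ZMod 2) → V → ZMod 2)) with hh
  obtain ⟨hf, hc⟩ := card_z1 hS hF hV
  have hle : b1s h ≤ z1s S h := by
    rintro _ ⟨m, rfl⟩
    obtain ⟨W, hW, h1⟩ := hsm
    refine ⟨⟨W, hW, fun g w hw => ?_⟩, fun a b => ?_⟩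
    · show prm (j (g * w)) m - m = prm (j g) m - m
      have h2 : prm (j w) m = m := h1 w hw m
      rw [h.mul, h2]
    · show prm (j (a * b)) m - m = (prm (j a) m - m) + prm (j a) (prm (j b) m - m)
      rw [h.mul, h.sub]
      abel
  have h1 : Nat.card (b1s h) * KR.h1 S h = Nat.card (z1s S h) := by
    have h2 := ((b1s h).addSubgroupOf (z1s S h)).card_mul_index
    have h3 : Nat.card ((b1s h).addSubgroupOf (z1s S h)) = Nat.card (b1s h) :=
      Nat.card_congr (AddSubgroup.addSubgroupOfEquivOfLe hle).toEquiv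
    rw [h3] at h2
    exact h2
  have h2 : Nat.card (z1s S h) ≤ 2 ^ (d * Nat.card V + orb j V + Nat.card V) := hc
  have h3 : Nat.card (b1s h) * 2 ^ orb j V = 2 ^ Nat.card V := card_b1
  have h4 : 2 ^ Nat.card V * KR.h1 S h ≤
      2 ^ Nat.card V * 2 ^ (d * Nat.card V + 2 * orb j V) := by
    calc 2 ^ Nat.card V * KR.h1 S h = (Nat.card (b1s h) * KR.h1 S h) * 2 ^ orb j V := by
          rw [← h3]; ring
      _ ≤ 2 ^ (d * Nat.card V + orb j V + Nat.card V) * 2 ^ orb j V := by
          rw [h1]
          exact Nat.mul_le_mul_right _ h2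
      _ = 2 ^ Nat.card V * 2 ^ (d * Nat.card V + 2 * orb j V) := by
          rw [← pow_add, ← pow_add]
          congr 1
          ring
  exact Nat.le_of_mul_le_mul_left h4 (by positivity)

end Pool.Agent.Work.MP_787500_nt.KR
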