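import Mathlib
import Pool.Agent.Work.MP_787500_nt.KR.T04

/-!
# Module T05_TRACE (size M): the trace functional

Let `X` be the group of pairs `(C, c)` of functions and `N` the subgroup of the pairs for which there is
`b` with `Sm2 S b`, `C = d2 (tw χ) b` and `c i - b|D i ∈ Z2` for all `i`. Define `f (C, c) = ∑ i, inv i
(c i - b|D i)` (choose `b`). Independent of `b`: if `b'` is another choice, `d2 (b' - b) = 0`, so
`b' - b ∈ Z2 S (tw χ)` (`Sm2` is stable under differences) and by `GlobH.recip` the sum of the invariants of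
`(b' - b)|D i` is 0; `inv i` is additive on cocycles (`LocH.add`, with `Z2.add`, `Z2.comp`), so
`∑ inv i (c i - b|) = ∑ inv i (c i - b'|) + ∑ inv i ((b' - b)|)`. Additive: for `(C, c)`, `(C', c')` with
choices `b`, `b'` the sum `b + b'` is a choice for the sum. Extend `f` from `N` to `X` by `ext_hom`.
(`Z2.add`, `Z2.neg` for the action `tw χ`, `isAct_tw`.)
-/

set_option autoImplicit false
set_option linter.unusedSectionVars false

namespace Pool.Agent.Work.MP_787500_nt.KR

open Pool.Agent.Work.MP_787500_nt.GP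

variable {G : Type*} [Group G] {S : FSys G} {I : Type*} [Fintype I] {D : I → Type*}
  [∀ i, Group (D i)] {SD : ∀ i, FSys (D i)} {j : ∀ i, D i →* G} {χ : G → ℤ_[2]}
  {inv : ∀ i, (D i → D i → A0) → A0}

private theorem t05_sm2_op {G : Type*} [Group G] {S : FSys G} {A B C : Type*} {x : G → G → A}
    {y : G → G → B} (hx : Sm2 S x)
    (hy : Sm2 S y) (F : A → B → C) : Sm2 S (fun g h => F (x g h) (y g h)) := by
  obtain ⟨W, hW, hx⟩ := hx
  obtain ⟨W', hW', hy⟩ := hy
  refine ⟨W ⊓ W', S.inf hW hW', fun g h w hw w' hw' => ?_⟩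
  show F (x (g * w) (h * w')) (y (g * w) (h * w')) = F (x g h) (y g h)
  rw [hx g h w hw.1 w' hw'.1, hy g h w hw.2 w' hw'.2]

private theorem t05_d2_add {G : Type*} [Group G] (χ : G → ℤ_[2]) (b b' : G → G → A0) :
    d2 (tw χ) (fun u v => b u v + b' u v) = d2 (tw χ) b + d2 (tw χ) b' := by
  funext u v w
  show χ u • (b v w + b' v w) - (b (u * v) w + b' (u * v) w) + (b u (v * w) + b' u (v * w)) -
    (b u v + b' u v) = (χ u • b v w - b (u * v) w + b u (v * w) - b u v) +
      (χ u • b' v w - b' (u * v) w + b' u (v * w) - b' u v)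
  rw [smul_add]
  abel

private theorem t05_d2_neg {G : Type*} [Group G] (χ : G → ℤ_[2]) (b : G → G → A0) :
    d2 (tw χ) (fun u v => -b u v) = -d2 (tw χ) b := by
  funext u v w
  show χ u • (-b v w) - (-b (u * v) w) + (-b u (v * w)) - (-b u v) =
    -(χ u • b v w - b (u * v) w + b u (v * w) - b u v)
  rw [smul_neg]
  abel

/-- the graph of the trace on its domain -/
private def t05rel (S : FSys G) (SD : ∀ i, FSys (D i)) (j : ∀ i, D i →* G) (χ : G → ℤ_[2])
    (inv : ∀ i, (D i → D i → A0) → A0) (x : (G → G → G → A0) × (∀ i, D i → D i → A0)) (t : A0) :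
    Prop :=
  ∃ b : G → G → A0, Sm2 S b ∧ x.1 = d2 (tw χ) b ∧
    (∀ i, Z2 (SD i) (tw fun d => χ (j i d)) (fun u v => x.2 i u v - b (j i u) (j i v))) ∧
    t = ∑ i, inv i (fun u v => x.2 i u v - b (j i u) (j i v))

private theorem t05_unique (H : GlobH S SD j χ inv)
    {x : (G → G → G → A0) × (∀ i, D i → D i → A0)} {t t' : A0}
    (h : t05rel S SD j χ inv x t) (h' : t05rel S SD j χ inv x t') : t = t' := by
  obtain ⟨b, hb, hx, hz, rfl⟩ := h
  obtain ⟨b', hb', hx', hz', rfl⟩ := h'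
  have he : Z2 S (tw χ) (fun u v => b' u v + -b u v) := by
    refine ⟨t05_sm2_op hb' hb (fun s t => s + -t), fun u v w => ?_⟩
    have h1 : d2 (tw χ) (fun u v => b' u v + -b u v) = d2 (tw χ) b' + -d2 (tw χ) b := by
      rw [← t05_d2_neg, ← t05_d2_add]
    rw [h1, ← hx, ← hx', add_neg_cancel]
    rfl
  have hrec := H.recip _ he
  have hzi : ∀ i, Z2 (SD i) (tw fun d => χ (j i d))
      (fun u v => b' (j i u) (j i v) + -b (j i u) (j i v)) := fun i => Z2.comp (H.jsm i) he
  have hi : ∀ i, inv i (fun u v => x.2 i u v - b (j i u) (j i v)) =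
      inv i (fun u v => x.2 i u v - b' (j i u) (j i v)) +
        inv i (fun u v => b' (j i u) (j i v) + -b (j i u) (j i v)) := by
    intro i
    rw [← (H.loc i).add _ _ (hz' i) (hzi i)]
    congr 1
    funext u v
    abel
  rw [Finset.sum_congr rfl fun i _ => hi i, Finset.sum_add_distrib, hrec, add_zero]

private theorem t05_add (H : GlobH S SD j χ inv)
    {x x' : (G → G → G → A0) × (∀ i, D i → D i → A0)} {t t' : A0}
    (h : t05rel S SD j χ inv x t) (h' : t05rel S SD j χ inv x' t') :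
    t05rel S SD j χ inv (x + x') (t + t') := by
  obtain ⟨b, hb, hx, hz, rfl⟩ := h
  obtain ⟨b', hb', hx', hz', rfl⟩ := h'
  have e : ∀ i, (fun u v => (x + x').2 i u v - (b (j i u) (j i v) + b' (j i u) (j i v))) =
      fun u v => (x.2 i u v - b (j i u) (j i v)) + (x'.2 i u v - b' (j i u) (j i v)) := by
    intro i
    funext u v
    show x.2 i u v + x'.2 i u v - _ = _
    abel
  refine ⟨fun u v => b u v + b' u v, t05_sm2_op hb hb' (fun s t => s + t), ?_, fun i => ?_, ?_⟩
  · rw [t05_d2_add, ← hx, ← hx']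
    rfl
  · rw [e]
    exact Z2.add (isAct_tw (H.loc i).char) (hz i) (hz' i)
  · rw [← Finset.sum_add_distrib]
    refine Finset.sum_congr rfl fun i _ => ?_
    rw [e, (H.loc i).add _ _ (hz i) (hz' i)]

private theorem t05_neg (H : GlobH S SD j χ inv)
    {x : (G → G → G → A0) × (∀ i, D i → D i → A0)} {t : A0}
    (h : t05rel S SD j χ inv x t) : ∃ t', t05rel S SD j χ inv (-x) t' := by
  obtain ⟨b, hb, hx, hz, rfl⟩ := h
  have e : ∀ i, (fun u v => (-x).2 i u v - (-b (j i u) (j i v))) =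
      fun u v => -(x.2 i u v - b (j i u) (j i v)) := by
    intro i
    funext u v
    show -x.2 i u v - _ = _
    abel
  refine ⟨_, fun u v => -b u v, t05_sm2_op hb hb (fun s _ => -s), ?_, fun i => ?_, rfl⟩
  · rw [t05_d2_neg, ← hx]
    rfl
  · rw [e]
    exact Z2.neg (isAct_tw (H.loc i).char) (hz i)

private theorem t05_zero : ∃ t, t05rel S SD j χ inv 0 t := by
  obtain ⟨W, hW⟩ := S.ex
  refine ⟨_, fun _ _ => 0, ⟨W, hW, fun _ _ _ _ _ _ => rfl⟩, ?_, fun i => ?_, rfl⟩
  · funext u v w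
    show (0 : A0) = χ u • (0 : A0) - 0 + 0 - 0
    rw [smul_zero]
    simp
  · obtain ⟨W, hW⟩ := (SD i).ex
    refine ⟨⟨W, hW, fun _ _ _ _ _ _ => rfl⟩, fun u v w => ?_⟩
    show χ (j i u) • ((0 : A0) - 0) - (0 - 0) + (0 - 0) - (0 - 0) = 0
    simp

theorem exists_tr (H : GlobH S SD j χ inv) : ∃ tr, IsTr S SD j χ inv tr := by
  classical
  obtain ⟨N, hN⟩ : ∃ N : AddSubgroup ((G → G → G → A0) × (∀ i, D i → D i → A0)),
      ∀ x, x ∈ N ↔ ∃ t, t05rel S SD j χ inv x t :=
    ⟨{ carrier := {x | ∃ t, t05rel S SD j χ inv x t}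
       add_mem' := by
        rintro x x' ⟨t, ht⟩ ⟨t', ht'⟩
        exact ⟨_, t05_add H ht ht'⟩
       zero_mem' := t05_zero
       neg_mem' := by
        rintro x ⟨t, ht⟩
        exact t05_neg H ht }, fun x => Iff.rfl⟩
  choose f hf using fun x : N => (hN x).1 x.2
  obtain ⟨g, hg⟩ := ext_hom N (AddMonoidHom.mk' f (fun x x' =>
    t05_unique H (hf (x + x')) (t05_add H (hf x) (hf x'))))
  refine ⟨g, fun b c hb hc => ?_⟩
  have hrel : t05rel S SD j χ inv (d2 (tw χ) b, c)
      (∑ i, inv i (fun u v => c i u v - b (j i u) (j i v))) := ⟨b, hb, rfl, hc, rfl⟩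
  have hmem : (d2 (tw χ) b, c) ∈ N := (hN _).2 ⟨_, hrel⟩
  have h1 := hg ⟨_, hmem⟩
  exact h1.trans (t05_unique H (hf ⟨_, hmem⟩) hrel)

end Pool.Agent.Work.MP_787500_nt.KR
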