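import Mathlib
import Pool.Agent.Work.MP_787500_nt.KR.T04

/-!
# Module T07 (size M): duality for the base pair (compare `GP/T07_Base.lean`)

* `baseP`: by `BaseU.sha`, `F = d1 υ X₀` with `X₀` smooth (`F|D i = d1 (g i)`). `c i d = g i d - X₀ (j i d)`
  is in `Z1 (SD i)`. For `x ∈ Z1 S υ'` let `b = cup11 υ' β X₀ x`: `d2 (tw χ) b = cup21 υ' β F x`
  (`leib11`, `d1 x = 0`), `Sm2 S b` (`cup11_sm`), and
  `cup11 β (g i) x| - b| = cup11 β (c i) x|`, a cocycle (`cup11_Z2` with `Pair.comp`). So `IsTr` gives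
  `∑ i, inv i (cup11 β (c i) x|) = tr (cup21 F x, cup11 (g i) x|) = 0`, and `BaseU.mid` gives
  `c i d = X (j i d) - d0 (Y i) d`. Take `X₀ + X`, `Y`.
* `baseQ`: fix `i₀` and `z₀ : A` fixed by `D i₀`. Take `x = 0` and `z i = if i = i₀ then z₀ else 0` in the
  hypothesis: `x (j i d) = 0 = d0 (z i) d`. By `IsTr` with `b = 0`, `c i = cup02 β (z i) F|` (a cocycle for
  `tw`: `leib02` with `d0 (z i) = 0` and `d2 F = 0`): `0 = tr (0, c) = ∑ i, inv i (c i) =
  inv i₀ (cup02 β z₀ F|)` (`cup02 β 0 F = 0`, `inv i 0 = 0` follows from `LocH.add`). So `BaseU.two` gives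
  `B2 (SD i₀) (F|D i₀)` for all `i₀`; now `BaseU.sha'`.
-/

set_option autoImplicit false
set_option linter.unusedSectionVars false

namespace Pool.Agent.Work.MP_787500_nt.KR

open Pool.Agent.Work.MP_787500_nt.GP

variable {G : Type*} [Group G] {S : FSys G} {I : Type*} [Fintype I] {D : I → Type*}
  [∀ i, Group (D i)] {SD : ∀ i, FSys (D i)} {j : ∀ i, D i →* G} {χ : G → ℤ_[2]}
  {inv : ∀ i, (D i → D i → A0) → A0}
  {tr : ((G → G → G → A0) × (∀ i, D i → D i → A0)) →+ A0}
  {A A' M M' Q Q' : Type*} [AddCommGroup A] [AddCommGroup A'] [AddCommGroup M] [AddCommGroup M']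
  [AddCommGroup Q] [AddCommGroup Q'] {υ : G → A → A} {υ' : G → A' → A'} {β : A →+ A' →+ A0}
  {ρ : G → M → M} {ρ' : G → M' → M'} {B : M →+ M' →+ A0}
  {σ : G → Q → Q} {σ' : G → Q' → Q'} {C : Q →+ Q' →+ A0}

private theorem t07_sm1_op {G : Type*} [Group G] {S : FSys G} {A B C : Type*} {x : G → A}
    {y : G → B} (hx : Sm1 S x) (hy : Sm1 S y)
    (F : A → B → C) : Sm1 S (fun g => F (x g) (y g)) := by
  obtain ⟨W, hW, hx⟩ := hx
  obtain ⟨W', hW', hy⟩ := hy
  refine ⟨W ⊓ W', S.inf hW hW', fun g w hw => ?_⟩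
  show F (x (g * w)) (y (g * w)) = F (x g) (y g)
  rw [hx g w hw.1, hy g w hw.2]

theorem baseP (H : GlobH S SD j χ inv) (htr : IsTr S SD j χ inv tr)
    (hb : BaseU S SD j χ inv υ υ' β) : PP S SD j tr υ υ' β := by
  intro F g hF hg hFg h0
  obtain ⟨X₀, hX₀, hFX⟩ := hb.sha F hF (fun i => ⟨g i, hg i, by
    funext a b
    exact (hFg i a b).symm⟩)
  obtain ⟨c, hcv⟩ : ∃ c : ∀ i, D i → A, ∀ i d, c i d = g i d - X₀ (j i d) :=
    ⟨fun i d => g i d - X₀ (j i d), fun _ _ => rfl⟩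
  have hc : ∀ i, Z1 (SD i) (fun d => υ (j i d)) (c i) := by
    intro i
    have e : c i = fun d => g i d - X₀ (j i d) := by
      funext d
      exact hcv i d
    refine ⟨?_, fun a b => ?_⟩
    · rw [e]
      exact t07_sm1_op (hg i) (Sm1.comp (H.jsm i) hX₀) (fun s t => s - t)
    · have h1 := hFg i a b
      rw [hFX] at h1
      have h2 : g i a + υ (j i a) (g i b) - g i (a * b) =
          X₀ (j i a) + υ (j i a) (X₀ (j i b)) - X₀ (j i a * j i b) := h1
      rw [hcv, hcv, hcv, map_mul]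
      show g i (a * b) - X₀ (j i a * j i b) = g i a - X₀ (j i a) + υ (j i a) (g i b - X₀ (j i b))
      rw [hb.pair.act.sub]
      have h3 : g i (a * b) = g i a + υ (j i a) (g i b) -
          (X₀ (j i a) + υ (j i a) (X₀ (j i b)) - X₀ (j i a * j i b)) := by
        rw [← h2]
        abel
      rw [h3]
      abel
  have horth : ∀ x, Z1 S υ' x →
      ∑ i, inv i (cup11 (fun d => υ' (j i d)) β (c i) (fun d => x (j i d))) = 0 := by
    intro x hx
    have hd2 : d2 (tw χ) (cup11 υ' β X₀ x) = cup21 υ' β F x := by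
      funext a b c'
      rw [leib11 hb.pair.act' hb.pair.eqv, ← hFX]
      have h1 : d1 υ' x b c' = 0 := by simp only [d1, hx.2 b c', sub_self]
      simp only [cup12, h1, hb.pair.act'.zero, map_zero, sub_zero]
    have hfun : ∀ i, (fun u v => cup11 (fun d => υ' (j i d)) β (g i) (fun d => x (j i d)) u v -
        cup11 υ' β X₀ x (j i u) (j i v)) =
        cup11 (fun d => υ' (j i d)) β (c i) (fun d => x (j i d)) := by
      intro i
      funext u v
      simp only [cup11, hcv, map_sub, AddMonoidHom.sub_apply]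
    have h1 := htr (cup11 υ' β X₀ x)
      (fun i => cup11 (fun d => υ' (j i d)) β (g i) (fun d => x (j i d)))
      (cup11_sm hb.pair.sm' hb.pair.act' hX₀ hx.1) (fun i => by
        rw [hfun i]
        exact cup11_Z2 (hb.pair.comp (H.jsm i)) (hc i) (Z1.comp (H.jsm i) hx))
    rw [hd2, h0 x hx] at h1
    rw [h1]
    refine Finset.sum_congr rfl fun i _ => ?_
    rw [hfun i]
  obtain ⟨X, Y, hX, hXY⟩ := hb.mid c hc horth
  refine ⟨fun a => X₀ a + X a, Y, t07_sm1_op hX₀ hX.1 (fun s t => s + t), ?_, fun i d => ?_⟩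
  · rw [hFX]
    funext a b
    show X₀ a + υ a (X₀ b) - X₀ (a * b) =
      X₀ a + X a + υ a (X₀ b + X b) - (X₀ (a * b) + X (a * b))
    rw [hX.2 a b, hb.pair.act.add]
    abel
  · have h1 := hXY i d
    rw [hcv] at h1
    show g i d = X₀ (j i d) + X (j i d) - d0 (fun d => υ (j i d)) (Y i) d
    rw [add_sub_assoc, ← h1]
    abel

theorem baseQ (H : GlobH S SD j χ inv) (htr : IsTr S SD j χ inv tr)
    (hb : BaseU S SD j χ inv υ υ' β) : QQ S j tr υ υ' β := by
  classical
  intro F hF h0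
  refine hb.sha' F hF (fun i₀ => ?_)
  refine hb.two i₀ _ (Z2.comp (H.jsm i₀) hF) (fun z₀ hz₀ => ?_)
  obtain ⟨z, hz⟩ : ∃ z : I → A, z = fun i => if i = i₀ then z₀ else 0 := ⟨_, rfl⟩
  have hz1 : z i₀ = z₀ := by
    rw [hz]
    simp
  have hz2 : ∀ i, i ≠ i₀ → z i = 0 := by
    intro i hi
    rw [hz]
    simp [hi]
  have hzd : ∀ i d, υ (j i d) (z i) = z i := by
    intro i d
    by_cases hi : i = i₀
    · subst hi
      rw [hz1]
      exact hz₀ d
    · rw [hz2 i hi, hb.pair.act.zero]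
  have hinv0 : ∀ i, inv i (fun _ _ => 0) = 0 := by
    intro i
    have hz : Z2 (SD i) (tw fun d => χ (j i d)) (fun _ _ => 0) := by
      obtain ⟨W, hW⟩ := (SD i).ex
      refine ⟨⟨W, hW, fun _ _ _ _ _ _ => rfl⟩, fun u v w => ?_⟩
      show χ (j i u) • (0 : A0) - 0 + 0 - 0 = 0
      simp
    have h1 := (H.loc i).add _ _ hz hz
    have e : (fun (_ _ : D i) => (0 : A0) + 0) = fun _ _ => 0 := by
      funext _ _
      rw [add_zero]
    rw [e] at h1
    exact left_eq_add.1 h1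
  have h0' := h0 (fun _ => 0) z (by
    obtain ⟨W, hW⟩ := S.ex
    refine ⟨⟨W, hW, fun _ _ _ => rfl⟩, fun a b => ?_⟩
    show (0 : A) = 0 + υ a 0
    rw [hb.pair.act.zero, add_zero]) (fun i d => by
    show (0 : A) = υ (j i d) (z i) - z i
    rw [hzd, sub_self])
  obtain ⟨W, hW⟩ := S.ex
  have h1 := htr (fun _ _ => 0) (fun i => cup02 β (z i) (fun a b => F (j i a) (j i b)))
    ⟨W, hW, fun _ _ _ _ _ _ => rfl⟩ (fun i => by
      have e : (fun u v => cup02 β (z i) (fun a b => F (j i a) (j i b)) u v - (0 : A0)) =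
          cup02 β (z i) (fun a b => F (j i a) (j i b)) := by
        funext u v
        rw [sub_zero]
      rw [e]
      have hFi := Z2.comp (H.jsm i) hF
      refine ⟨cup02_sm hFi.1, fun a b c => ?_⟩
      rw [leib02 (ρ := fun d => υ (j i d)) (ρ' := fun d => υ' (j i d))
        (fun g m m' => hb.pair.eqv (j i g) m m'), hFi.2, map_zero, add_zero]
      simp only [cup12, d0, hzd, sub_self, map_zero, AddMonoidHom.zero_apply])
  have hd2 : d2 (tw χ) (fun _ _ => (0 : A0)) = cup12 υ' β (fun _ => 0) F := by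
    funext u v w
    show χ u • (0 : A0) - 0 + 0 - 0 = β 0 (υ' u (F v w))
    simp
  rw [hd2, h0'] at h1
  simp only [sub_zero] at h1
  rw [Finset.sum_eq_single i₀] at h1
  · rw [hz1] at h1
    exact h1.symm
  · intro i _ hi
    have e : (fun u v => cup02 β (z i) (fun a b => F (j i a) (j i b)) u v) = fun _ _ => 0 := by
      funext a b
      simp only [cup02, hz2 i hi, map_zero, AddMonoidHom.zero_apply]
    rw [e, hinv0]
  · intro hi
    exact absurd (Finset.mem_univ _) hi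

end Pool.Agent.Work.MP_787500_nt.KR
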