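import Mathlib
import Pool.Agent.Work.MP_787500_nt.GP.T01_A0
import Pool.Agent.Work.MP_787500_nt.GP.T02_Ext

/-!
# Module T06 (size M): double annihilator for finite abelian groups

`V` is a finite abelian group (2-primary or not), `φ : A → V → A0` biadditive with values in
`ℚ_2 / ℤ_2`, `V` killed by `2 ^ k`. Let `W = Hom (V, A0)` (`V →+ A0`), `L ≤ W` the image of `C`.
Claim: if `f ∈ W` vanishes on `L^⊥ = {v | ∀ c ∈ L, c v = 0}` then `f ∈ L`.
Proof: `card_hom_A0` by induction on the order of `V`: for an element `y` of order 2 the evaluation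
`Hom (V, A0) → {0, half}` at `y` is surjective (`ext_hom`) with kernel `Hom (V / y, A0)`. For `ann`:
`X = V / L^⊥` embeds into `Hom (L, A0)` (evaluation) and `L` embeds into `Hom (X, A0)`, so
`card X ≤ card L ≤ card (Hom (X, A0)) = card X` and the second embedding is onto.
(`GP/T06_Ann.lean` is the case of a vector space over `ZMod 2`.)
-/

set_option autoImplicit false
set_option linter.unusedSectionVars false

namespace Pool.Agent.Work.MP_787500_nt.KR

open Pool.Agent.Work.MP_787500_nt.GP

/-- the homomorphism from the integers modulo 2 -/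
private noncomputable def t06h : ZMod 2 →+ A0 := AddMonoidHom.mk' hf hf_add

private theorem t06h_inj : Function.Injective t06h := hf_inj

private theorem t06_cases (a : ZMod 2) : a = 0 ∨ a = 1 := by
  revert a
  decide

/-- a nontrivial group killed by `2 ^ k` has an element of order 2 -/
private theorem t06_exists {V : Type*} [AddCommGroup V] (k : ℕ) (hk : ∀ v : V, (2 ^ k) • v = 0)
    {v : V} (hv : v ≠ 0) : ∃ y : V, y ≠ 0 ∧ y + y = 0 := by
  classical
  have hex : ∃ j : ℕ, (2 ^ j) • v = 0 := ⟨k, hk v⟩
  have h0 : Nat.find hex ≠ 0 := by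
    intro h
    have := Nat.find_spec hex
    rw [h, pow_zero, one_smul] at this
    exact hv this
  obtain ⟨j, hj⟩ := Nat.exists_eq_succ_of_ne_zero h0
  refine ⟨(2 ^ j) • v, Nat.find_min hex (by omega), ?_⟩
  have := Nat.find_spec hex
  rw [hj, pow_succ', mul_smul, two_smul] at this
  exact this

private theorem t06_card (k : ℕ) (n : ℕ) : ∀ (V : Type*) [AddCommGroup V] [Finite V],
    (∀ v : V, (2 ^ k) • v = 0) → Nat.card V = n → Nat.card (V →+ A0) = n := by
  induction n using Nat.strong_induction_on with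
  | _ n ih =>
    intro V _ _ hk hn
    by_cases hV : Subsingleton V
    · have h1 : Nat.card V = 1 := Nat.card_eq_one_iff_unique.2 ⟨hV, ⟨0⟩⟩
      have h2 : Subsingleton (V →+ A0) := ⟨fun f g => AddMonoidHom.ext fun v => by
        rw [Subsingleton.elim v 0, map_zero, map_zero]⟩
      rw [← hn, h1]
      exact Nat.card_eq_one_iff_unique.2 ⟨h2, ⟨0⟩⟩
    · rw [not_subsingleton_iff_nontrivial] at hV
      obtain ⟨v, hv⟩ := exists_ne (0 : V)
      obtain ⟨y, hy, hyy⟩ := t06_exists k hk hv
      obtain ⟨f, hf1⟩ : ∃ f : ZMod 2 →+ V, f 1 = y :=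
        ⟨ZMod.lift 2 ⟨zmultiplesHom V y, by
          rw [zmultiplesHom_apply]
          show (2 : ℤ) • y = 0
          rw [two_smul, hyy]⟩, by
          have := ZMod.lift_coe 2 (⟨zmultiplesHom V y, by
            rw [zmultiplesHom_apply]
            show (2 : ℤ) • y = 0
            rw [two_smul, hyy]⟩ : {g : ℤ →+ V // g (2 : ℕ) = 0}) 1
          rw [Int.cast_one] at this
          rw [this]
          show (1 : ℤ) • y = y
          rw [one_smul]⟩
      have hfi : Function.Injective f := by
        rw [injective_iff_map_eq_zero]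
        intro a ha
        rcases t06_cases a with rfl | rfl
        · rfl
        · exact absurd (hf1 ▸ ha) hy
      obtain ⟨r, hr⟩ : ∃ r : (V →+ A0) →+ A0, ∀ g, r g = g y :=
        ⟨AddMonoidHom.mk' (fun g => g y) (fun _ _ => rfl), fun _ => rfl⟩
      -- the quotient
      have hZ : Nat.card f.range = 2 := by
        rw [← Nat.card_congr (AddMonoidHom.ofInjective hfi).toEquiv]
        simp
      have hV2 : Nat.card V = Nat.card (V ⧸ f.range) * 2 := by
        have h := AddSubgroup.card_eq_card_quotient_mul_card_addSubgroup f.range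
        rwa [hZ] at h
      have hpos : 0 < Nat.card (V ⧸ f.range) := Nat.card_pos
      have hq : Nat.card ((V ⧸ f.range) →+ A0) = Nat.card (V ⧸ f.range) := by
        refine ih _ (by omega) _ (fun v => ?_) rfl
        obtain ⟨v, rfl⟩ := QuotientAddGroup.mk_surjective v
        rw [← QuotientAddGroup.mk_nsmul, hk, QuotientAddGroup.mk_zero]
      -- the kernel
      have hle : ∀ g : V →+ A0, g ∈ r.ker ↔ f.range ≤ g.ker := by
        intro g
        rw [AddMonoidHom.mem_ker, hr]
        constructor
        · rintro h _ ⟨a, rfl⟩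
          rw [AddMonoidHom.mem_ker]
          rcases t06_cases a with rfl | rfl
          · rw [map_zero, map_zero]
          · rw [hf1, h]
        · intro h
          have := h ⟨1, hf1⟩
          rwa [AddMonoidHom.mem_ker] at this
      have hker : Nat.card r.ker = Nat.card ((V ⧸ f.range) →+ A0) := by
        refine Nat.card_congr
          { toFun := fun g => QuotientAddGroup.lift f.range g.1 ((hle g.1).1 g.2)
            invFun := fun g => ⟨g.comp (QuotientAddGroup.mk' f.range), (hle _).2 (by
              intro x hx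
              rw [AddMonoidHom.mem_ker, AddMonoidHom.comp_apply, QuotientAddGroup.mk'_apply,
                (QuotientAddGroup.eq_zero_iff x).2 hx, map_zero])⟩
            left_inv := fun g => ?_
            right_inv := fun g => ?_ }
        · ext x
          rfl
        · ext x
          rfl
      -- the range
      have hrange : r.range = t06h.range := by
        ext t
        constructor
        · rintro ⟨g, rfl⟩
          rw [hr]
          obtain ⟨a, ha⟩ := eq_hf (t := g y) (by rw [← map_add, hyy, map_zero])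
          exact ⟨a, ha.symm⟩
        · rintro ⟨a, rfl⟩
          rcases t06_cases a with rfl | rfl
          · exact ⟨0, by rw [map_zero, map_zero]⟩
          · obtain ⟨g, hg⟩ := ext_hom f.range
              (t06h.comp (AddMonoidHom.ofInjective hfi).symm.toAddMonoidHom)
            refine ⟨g, ?_⟩
            rw [hr, ← hf1]
            have h1 := hg (AddMonoidHom.ofInjective hfi 1)
            rw [AddMonoidHom.ofInjective_apply] at h1
            rw [h1]
            simp
      have hrc : Nat.card r.range = 2 := by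
        rw [hrange, ← Nat.card_congr (AddMonoidHom.ofInjective t06h_inj).toEquiv]
        simp
      have hqr : Nat.card ((V →+ A0) ⧸ r.ker) = 2 := by
        rw [← hrc]
        exact Nat.card_congr (QuotientAddGroup.quotientKerEquivRange r).toEquiv
      have := AddSubgroup.card_eq_card_quotient_mul_card_addSubgroup r.ker
      rw [this, hqr, hker, hq, ← hn, hV2]
      ring

/-- the group of homomorphisms to `ℚ_2 / ℤ_2` of a finite 2-primary group has the same order -/
theorem card_hom_A0 {V : Type*} [AddCommGroup V] [Finite V] (k : ℕ)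
    (hk : ∀ v : V, (2 ^ k) • v = 0) : Nat.card (V →+ A0) = Nat.card V :=
  t06_card k _ V hk rfl

private theorem t06_ann {V : Type*} [AddCommGroup V] [Finite V] (k : ℕ)
    (hk : ∀ v : V, (2 ^ k) • v = 0) (L : AddSubgroup (V →+ A0)) (f : V →+ A0)
    (h : ∀ v, (∀ c ∈ L, c v = 0) → f v = 0) : f ∈ L := by
  have hW : Nat.card (V →+ A0) ≠ 0 := by
    rw [card_hom_A0 k hk]
    exact Nat.card_pos.ne'
  have : Finite (V →+ A0) := Nat.finite_of_card_ne_zero hW
  obtain ⟨ev, hev⟩ : ∃ ev : V →+ (L →+ A0), ∀ v c, ev v c = c.1 v :=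
    ⟨AddMonoidHom.mk' (fun v => AddMonoidHom.mk' (fun c : L => c.1 v) (fun _ _ => rfl))
      (fun v v' => AddMonoidHom.ext fun c => map_add c.1 v v'), fun _ _ => rfl⟩
  have hK : ∀ v, v ∈ ev.ker ↔ ∀ c ∈ L, c v = 0 := by
    intro v
    rw [AddMonoidHom.mem_ker]
    constructor
    · intro h c hc
      have := DFunLike.congr_fun h ⟨c, hc⟩
      rw [hev] at this
      exact this
    · intro h
      ext c
      rw [hev, h c.1 c.2]
      rfl
  have hL : ∀ c : L, (2 ^ k) • c = 0 := by
    intro c
    apply Subtype.ext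
    ext v
    show ((2 ^ k) • c.1) v = 0
    rw [AddMonoidHom.nsmul_apply, ← map_nsmul, hk, map_zero]
  have hX : ∀ x : V ⧸ ev.ker, (2 ^ k) • x = 0 := by
    intro x
    obtain ⟨v, rfl⟩ := QuotientAddGroup.mk_surjective x
    rw [← QuotientAddGroup.mk_nsmul, hk, QuotientAddGroup.mk_zero]
  have hcL := card_hom_A0 k hL
  have hcX := card_hom_A0 k hX
  have hfL : Finite (L →+ A0) := Nat.finite_of_card_ne_zero (by
    rw [hcL]
    exact Nat.card_pos.ne')
  have hfX : Finite ((V ⧸ ev.ker) →+ A0) := Nat.finite_of_card_ne_zero (by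
    rw [hcX]
    exact Nat.card_pos.ne')
  have h1 : Nat.card (V ⧸ ev.ker) ≤ Nat.card (L →+ A0) :=
    Nat.card_le_card_of_injective _ (QuotientAddGroup.kerLift_injective ev)
  have hle : ∀ c : L, ev.ker ≤ c.1.ker := by
    intro c v hv
    rw [AddMonoidHom.mem_ker]
    exact (hK v).1 hv c.1 c.2
  obtain ⟨e, he⟩ : ∃ e : L → ((V ⧸ ev.ker) →+ A0), ∀ c v, e c (QuotientAddGroup.mk v) = c.1 v :=
    ⟨fun c => QuotientAddGroup.lift ev.ker c.1 (hle c), fun _ _ => rfl⟩
  have hei : Function.Injective e := by
    intro c c' hcc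
    apply Subtype.ext
    ext v
    rw [← he, ← he, hcc]
  have hes : Function.Surjective e := by
    have : Function.Bijective e :=
      (Function.Injective.bijective_of_nat_card_le hei (by rw [hcX, ← hcL]; exact h1))
    exact this.2
  have hfK : ev.ker ≤ f.ker := by
    intro v hv
    rw [AddMonoidHom.mem_ker]
    exact h v ((hK v).1 hv)
  obtain ⟨c, hc⟩ := hes (QuotientAddGroup.lift ev.ker f hfK)
  have : f = c.1 := by
    ext v
    rw [← he, hc]
    rfl
  rw [this]
  exact c.2

theorem ann {A V : Type*} [AddCommGroup A] [AddCommGroup V] [Finite V] (k : ℕ)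
    (hk : ∀ v : V, (2 ^ k) • v = 0) (φ : A → V → A0)
    (hadd : ∀ a a' v, φ (a + a') v = φ a v + φ a' v)
    (hadd' : ∀ a v v', φ a (v + v') = φ a v + φ a v')
    (C : AddSubgroup A) (a : A) (h : ∀ v, (∀ c ∈ C, φ c v = 0) → φ a v = 0) :
    ∃ c ∈ C, ∀ v, φ c v = φ a v := by
  obtain ⟨Φ, hΦ⟩ : ∃ Φ : A →+ (V →+ A0), ∀ a v, Φ a v = φ a v :=
    ⟨AddMonoidHom.mk' (fun a => AddMonoidHom.mk' (φ a) (hadd' a))
      (fun a a' => AddMonoidHom.ext fun v => hadd a a' v), fun _ _ => rfl⟩
  obtain ⟨c, hc, hca⟩ := t06_ann k hk (C.map Φ) (Φ a) (fun v hv => by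
    rw [hΦ]
    refine h v fun c hc => ?_
    rw [← hΦ]
    exact hv _ ⟨c, hc, rfl⟩)
  refine ⟨c, hc, fun v => ?_⟩
  rw [← hΦ, ← hΦ, hca]

end Pool.Agent.Work.MP_787500_nt.KR
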