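import Mathlib
import Pool.Agent.Work.MP_787500_nt.KR.T04b

/-!
# Module T08 (size M): the step for `PP`, first part (compare `GP/T08_LiftP.lean`)

The proof is that of `GP/T08_LiftP.lean` with `A` instead of `ZMod 2`: `(F, g)` as in `PP` for `(M, M')`. The
pair `(p F, p g)` satisfies the hypotheses of `PP` for `(Q, Q')`. So `p F = d1 σ X'`,
`p (g i) = X'|D i - d0 (Y' i)`. Let `s : Q → M` be a section of `p`, `X = s ∘ X'` (smooth), `Y i = s (Y' i)`.
Then `F - d1 ρ X` and `g i - X|D i + d0 (Y i)` have image 0 in `Q`, so they are `e ∘ F₁`, `e ∘ g₁ i`; `F₁`,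
`g₁ i` are smooth (`e` injective), `F₁ ∈ Z2 S υ`, `d1 (g₁ i) = F₁|D i` (apply `e`, equivariant).
Orthogonality: `cup21 υ' β F₁ (p' ∘ x) = cup21 ρ' B (e ∘ F₁) x` (`pair1`, `eqv_p'`), so the pair in
question is `(F ∪ x, g ∪ x) - (d1 X ∪ x, (X|D i - d0 (Y i)) ∪ x)`, and the second one has trace 0
(`leib11`, `leib01`, `tr_cob`).
-/

set_option autoImplicit false
set_option linter.unusedSectionVars false

namespace Pool.Agent.Work.MP_787500_nt.KR

open Pool.Agent.Work.MP_787500_nt.GP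

variable {G : Type*} [Group G] {S : FSys G} {I : Type*} [Fintype I] {D : I → Type*}
  [∀ i, Group (D i)] {SD : ∀ i, FSys (D i)} {j : ∀ i, D i →* G} {χ : G → ℤ_[2]}
  {inv : ∀ i, (D i → D i → A0) → A0}
  {tr : ((G → G → G → A0) × (∀ i, D i → D i → A0)) →+ A0}
  {A A' M M' Q Q' : Type*} [AddCommGroup A] [AddCommGroup A'] [AddCommGroup M] [AddCommGroup M']
  [AddCommGroup Q] [AddCommGroup Q'] {υ : G → A → A} {υ' : G → A' → A'} {β : A →+ A' →+ A0}
  {ρ : G → M → M} {ρ' : G → M' → M'} {B : M →+ M' →+ A0}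
  {σ : G → Q → Q} {σ' : G → Q' → Q'} {C : Q →+ Q' →+ A0}

private theorem liftP_orth (H : GlobH S SD j χ inv) (htr : IsTr S SD j χ inv tr)
    (hM : Pair S χ ρ ρ' B) {e : A →+ M} {p : M →+ Q} {e' : Q' →+ M'} {p' : M' →+ A'}
    (hf' : Filt υ υ' β ρ ρ' B σ σ' C e p e' p')
    {F : G → G → M} {g : ∀ i, D i → M} {X : G → M} {Y : I → M} {F₁ : G → G → A}
    {g₁ : ∀ i, D i → A} (hX : Sm1 S X)
    (h1 : ∀ a b, F a b = d1 ρ X a b + e (F₁ a b))
    (h2 : ∀ i d, g i d = X (j i d) - d0 (fun d => ρ (j i d)) (Y i) d + e (g₁ i d))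
    (x : G → M') (hx : Z1 S ρ' x)
    (h0 : tr (cup21 ρ' B F x,
      fun i => cup11 (fun d => ρ' (j i d)) B (g i) (fun d => x (j i d))) = 0) :
    tr (cup21 υ' β F₁ (fun a => p' (x a)),
        fun i => cup11 (fun d => υ' (j i d)) β (g₁ i) (fun d => p' (x (j i d)))) = 0 := by
  have hb : Sm2 S (cup11 ρ' B X x) := cup11_sm hM.sm' hM.act' hX hx.1
  have hyi : ∀ i, Sm1 (SD i) (fun d => x (j i d)) := fun i => Sm1.comp (H.jsm i) hx.1
  have ht : ∀ i, Sm1 (SD i) (cup01 B (Y i) (fun d => x (j i d))) := fun i => cup01_sm (hyi i)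
  have h3 := tr_cob H htr hb ht
  have h4 : (cup21 ρ' B F x, fun i => cup11 (fun d => ρ' (j i d)) B (g i) (fun d => x (j i d))) =
      (cup21 υ' β F₁ (fun a => p' (x a)),
        fun i => cup11 (fun d => υ' (j i d)) β (g₁ i) (fun d => p' (x (j i d)))) +
      ((d2 (tw χ) (cup11 ρ' B X x), fun i u v => cup11 ρ' B X x (j i u) (j i v) -
        d1 (tw fun d => χ (j i d)) (cup01 B (Y i) (fun d => x (j i d))) u v) :
        (G → G → G → A0) × (∀ i, D i → D i → A0)) := by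
    refine Prod.ext ?_ ?_
    · funext a b c
      simp only [Prod.mk_add_mk, Pi.add_apply]
      have h5 : d1 ρ' x b c = 0 := by simp only [d1, hx.2 b c, sub_self]
      rw [leib11 hM.act' hM.eqv]
      simp only [cup21, cup12, h1, h5, hM.act'.zero, map_zero, sub_zero, map_add,
        AddMonoidHom.add_apply, hf'.pair1, hf'.eqv_p']
      rw [add_comm]
    · funext i a b
      simp only [Prod.mk_add_mk, Pi.add_apply]
      have h5 : d1 (fun d => ρ' (j i d)) (fun d => x (j i d)) a b = 0 := by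
        simp only [d1, map_mul, hx.2 (j i a) (j i b), sub_self]
      have h6 := leib01 (ρ := fun d => ρ (j i d)) (ρ' := fun d => ρ' (j i d))
        (χ := fun d => χ (j i d)) (B := B) (fun g => hM.eqv (j i g)) (Y i) (fun d => x (j i d)) a b
      rw [h6]
      simp only [cup11, cup02, h2, h5, map_zero, add_zero, map_add, map_sub,
        AddMonoidHom.add_apply, AddMonoidHom.sub_apply, hf'.pair1, hf'.eqv_p']
      rw [add_comm]
  rw [h4, map_add, h3, add_zero] at h0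
  exact h0

private theorem liftP_sm2 {A A' : Type*} {f : G → G → A} {k : A → A'} (hk : Function.Injective k)
    (h : Sm2 S (fun a b => k (f a b))) : Sm2 S f := by
  obtain ⟨W, hW, h1⟩ := h
  exact ⟨W, hW, fun g h w hw w' hw' => hk (h1 g h w hw w' hw')⟩

private theorem liftP_sm1 {D : Type*} [Group D] {S : FSys D} {A A' : Type*} {f : D → A}
    {k : A → A'} (hk : Function.Injective k)
    (h : Sm1 S (fun a => k (f a))) : Sm1 S f := by
  obtain ⟨W, hW, h1⟩ := h
  exact ⟨W, hW, fun g w hw => hk (h1 g w hw)⟩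

private theorem liftP_d0 {D M : Type*} [Group D] [AddCommGroup M] {ρ : D → M → M} (h : IsAct ρ)
    (m : M) (a b : D) : d1 ρ (d0 ρ m) a b = 0 := by
  simp only [d1, d0, h.sub, h.mul]
  abel

theorem liftP (H : GlobH S SD j χ inv) (htr : IsTr S SD j χ inv tr) (hM : Pair S χ ρ ρ' B)
    (hQ : Pair S χ σ σ' C) {e : A →+ M} {p : M →+ Q} {e' : Q' →+ M'} {p' : M' →+ A'}
    (hf' : Filt υ υ' β ρ ρ' B σ σ' C e p e' p') (hP : PP S SD j tr σ σ' C)
    (F : G → G → M) (g : ∀ i, D i → M) (hF : Z2 S ρ F) (hg : ∀ i, Sm1 (SD i) (g i))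
    (hFg : ∀ i a b, d1 (fun d => ρ (j i d)) (g i) a b = F (j i a) (j i b))
    (h0 : ∀ x, Z1 S ρ' x → tr (cup21 ρ' B F x,
      fun i => cup11 (fun d => ρ' (j i d)) B (g i) (fun d => x (j i d))) = 0) :
    ∃ (X : G → M) (Y : I → M) (F₁ : G → G → A) (g₁ : ∀ i, D i → A),
      Sm1 S X ∧ Z2 S υ F₁ ∧ (∀ i, Sm1 (SD i) (g₁ i)) ∧
      (∀ i a b, d1 (fun d => υ (j i d)) (g₁ i) a b = F₁ (j i a) (j i b)) ∧
      (∀ a b, F a b = d1 ρ X a b + e (F₁ a b)) ∧
      (∀ i d, g i d = X (j i d) - d0 (fun d => ρ (j i d)) (Y i) d + e (g₁ i d)) ∧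
      ∀ x, Z1 S ρ' x → tr (cup21 υ' β F₁ (fun a => p' (x a)),
        fun i => cup11 (fun d => υ' (j i d)) β (g₁ i) (fun d => p' (x (j i d)))) = 0 := by
  -- the image in `Q`
  have hpF : Z2 S σ (fun a b => p (F a b)) := by
    refine ⟨?_, fun a b c => ?_⟩
    · obtain ⟨W, hW, h⟩ := hF.1
      exact ⟨W, hW, fun g h' w hw w' hw' => by simp only [h g h' w hw w' hw']⟩
    · have h1 := hF.2 a b c
      have h2 := congrArg p h1
      simpa only [d2, map_add, map_sub, hf'.eqv_p, map_zero] using h2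
  have hpg : ∀ i, Sm1 (SD i) (fun d => p (g i d)) := by
    intro i
    obtain ⟨W, hW, h⟩ := hg i
    exact ⟨W, hW, fun g w hw => by simp only [h g w hw]⟩
  have hpFg : ∀ i a b, d1 (fun d => σ (j i d)) (fun d => p (g i d)) a b =
      p (F (j i a) (j i b)) := by
    intro i a b
    rw [← hFg i a b]
    simp only [d1, map_add, map_sub, hf'.eqv_p]
  have hp0 : ∀ x, Z1 S σ' x → tr (cup21 σ' C (fun a b => p (F a b)) x,
      fun i => cup11 (fun d => σ' (j i d)) C (fun d => p (g i d)) (fun d => x (j i d))) = 0 := by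
    intro x' hx'
    have hx : Z1 S ρ' (fun a => e' (x' a)) := by
      refine ⟨?_, fun a b => ?_⟩
      · obtain ⟨W, hW, h⟩ := hx'.1
        exact ⟨W, hW, fun g w hw => by simp only [h g w hw]⟩
      · simp only [hx'.2 a b, map_add, hf'.eqv_e']
    have h1 := h0 _ hx
    rw [← h1]
    congr 1
    refine Prod.ext ?_ ?_
    · funext a b c
      simp only [cup21, hf'.eqv_e', hf'.pair2]
    · funext i a b
      simp only [cup11, hf'.eqv_e', hf'.pair2]
  obtain ⟨X', Y', hX', hFX, hgX⟩ := hP _ _ hpF hpg hpFg hp0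
  obtain ⟨s, hs⟩ := hf'.psurj.hasRightInverse
  have hX : Sm1 S (fun a => s (X' a)) := by
    obtain ⟨W, hW, h⟩ := hX'
    exact ⟨W, hW, fun g w hw => by simp only [h g w hw]⟩
  have hk1 : ∀ a b, ∃ t, F a b - d1 ρ (fun a => s (X' a)) a b = e t := by
    intro a b
    refine hf'.ker _ ?_
    have h1 : p (F a b) = d1 σ X' a b := congrFun (congrFun hFX a) b
    have hs' := hs
    unfold Function.RightInverse Function.LeftInverse at hs'
    simp only [map_sub, h1, d1, map_add, hf'.eqv_p, hs', sub_self]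
  choose F₁ hF₁ using hk1
  have hk2 : ∀ i d, ∃ t, g i d - (s (X' (j i d)) - d0 (fun d => ρ (j i d)) (s (Y' i)) d) = e t := by
    intro i d
    refine hf'.ker _ ?_
    have hs' := hs
    unfold Function.RightInverse Function.LeftInverse at hs'
    simp only [map_sub, hgX i d, d0, hf'.eqv_p, hs', sub_self]
  choose g₁ hg₁ using hk2
  have e1 : ∀ a b, F a b = d1 ρ (fun a => s (X' a)) a b + e (F₁ a b) := by
    intro a b
    rw [← hF₁ a b]
    abel
  have e2 : ∀ i d, g i d = s (X' (j i d)) - d0 (fun d => ρ (j i d)) (s (Y' i)) d + e (g₁ i d) := by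
    intro i d
    rw [← hg₁ i d]
    abel
  have hd1 := d1_Z2 hM.act hM.sm hX
  refine ⟨fun a => s (X' a), fun i => s (Y' i), F₁, g₁, hX, ⟨?_, ?_⟩, ?_, ?_, e1, e2, fun x hx =>
    liftP_orth H htr hM hf' hX e1 e2 x hx (h0 x hx)⟩
  · refine liftP_sm2 hf'.einj ?_
    simp only [← hF₁]
    obtain ⟨W, hW, h⟩ := hF.1
    obtain ⟨W', hW', h'⟩ := hd1.1
    exact ⟨W ⊓ W', S.inf hW hW', fun a b w hw w' hw' => by
      simp only [h a b w hw.1 w' hw'.1, h' a b w hw.2 w' hw'.2]⟩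
  · intro a b c
    have h1 : d2 ρ (fun a b => e (F₁ a b)) a b c = 0 := by
      have h2 := hF.2 a b c
      have h3 := hd1.2 a b c
      simp only [← hF₁]
      have h4 : d2 ρ (fun a b => F a b - d1 ρ (fun a => s (X' a)) a b) a b c =
          d2 ρ F a b c - d2 ρ (d1 ρ (fun a => s (X' a))) a b c := by
        simp only [d2, hM.act.sub]
        abel
      rw [h4, h2, h3, sub_zero]
    simp only [d2, hf'.eqv_e, ← map_sub, ← map_add] at h1
    exact hf'.einj (h1.trans (map_zero e).symm)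
  · intro i
    refine liftP_sm1 hf'.einj ?_
    simp only [← hg₁]
    obtain ⟨W, hW, h⟩ := hg i
    obtain ⟨W', hW', h'⟩ := Sm1.comp (H.jsm i) hX'
    obtain ⟨W'', hW'', h''⟩ := hM.sm.comp (H.jsm i)
    refine ⟨W ⊓ (W' ⊓ W''), (SD i).inf hW ((SD i).inf hW' hW''), fun a w hw => ?_⟩
    have h4 : ρ (j i (a * w)) (s (Y' i)) = ρ (j i a) (s (Y' i)) := by
      have h5 : ρ (j i w) (s (Y' i)) = s (Y' i) := h'' w hw.2.2 _
      rw [map_mul, hM.act.mul, h5]
    have h6 : X' (j i (a * w)) = X' (j i a) := h' a w hw.2.1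
    simp only [h a w hw.1, h6, d0, h4]
  · intro i a b
    have h1 := hFg i a b
    refine hf'.einj ?_
    have h5 : ρ (j i a) (e (g₁ i b)) = e (υ (j i a) (g₁ i b)) := hf'.eqv_e _ _
    have h6 : e (d1 (fun d => υ (j i d)) (g₁ i) a b) =
        e (g₁ i a) + ρ (j i a) (e (g₁ i b)) - e (g₁ i (a * b)) := by
      rw [h5, ← map_add, ← map_sub]
      rfl
    rw [h6, ← hF₁, ← h1, ← hg₁, ← hg₁, ← hg₁]
    simp only [d1, d0, map_mul, hM.act.sub, hM.act.mul]
    abel

end Pool.Agent.Work.MP_787500_nt.KR
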