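import Mathlib
import Pool.Agent.Work.MP_787500_nt.KR.T04b

/-!
# Module T09 (size M): the step for `PP`, the identity of traces (compare `GP/T09_ClaimP.lean`)

The proof is that of `GP/T09_ClaimP.lean`: by `pair1` and `eqv_p'`,
`cup21 υ' β F₁ (p' ∘ y) = (d1 x ∪ y)` and `cup11 υ' β (g₁ i) (p' ∘ y|) = (x|D i - d0 (z i)) ∪ y|`; Leibniz
(`leib11`, `leib01`) and `tr_cob`.
-/

set_option autoImplicit false
set_option linter.unusedSectionVars false

namespace Pool.Agent.Work.MP_787500_nt.KR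

open Pool.Agent.Work.MP_787500_nt.GP

variable {G : Type*} [Group G] {S : FSys G} {I : Type*} [Fintype I] {D : I → Type*}
  [∀ i, Group (D i)] {SD : ∀ i, FSys (D i)} {j : ∀ i, D i →* G} {χ : G → ℤ_[2]}
  {inv : ∀ i, (D i → D i → A0) → A0}
  {tr : ((G → G → G → A0) × (∀ i, D i → D i → A0)) →+ A0}
  {A A' M M' Q Q' : Type*} [AddCommGroup A] [AddCommGroup A'] [AddCommGroup M] [AddCommGroup M']
  [AddCommGroup Q] [AddCommGroup Q'] {υ : G → A → A} {υ' : G → A' → A'} {β : A →+ A' →+ A0}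
  {ρ : G → M → M} {ρ' : G → M' → M'} {B : M →+ M' →+ A0}
  {σ : G → Q → Q} {σ' : G → Q' → Q'} {C : Q →+ Q' →+ A0}

theorem claimP (H : GlobH S SD j χ inv) (htr : IsTr S SD j χ inv tr) (hM : Pair S χ ρ ρ' B)
    (hQ : Pair S χ σ σ' C) {e : A →+ M} {p : M →+ Q} {e' : Q' →+ M'} {p' : M' →+ A'}
    (hf' : Filt υ υ' β ρ ρ' B σ σ' C e p e' p')
    {x : G → M} (hx : Sm1 S x) {z : I → M} {y : G → M'} (hy : Sm1 S y)
    {F₁ : G → G → A} (hF₁ : ∀ a b, d1 ρ x a b = e (F₁ a b))
    {g₁ : ∀ i, D i → A}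
    (hg₁ : ∀ i d, x (j i d) - d0 (fun d => ρ (j i d)) (z i) d = e (g₁ i d))
    {F' : G → G → Q'} (hF' : ∀ a b, d1 ρ' y a b = e' (F' a b)) :
    tr (cup21 υ' β F₁ (fun a => p' (y a)),
      fun i => cup11 (fun d => υ' (j i d)) β (g₁ i) (fun d => p' (y (j i d)))) =
      tr (cup12 σ' C (fun a => p (x a)) F',
        fun i => cup02 C (p (z i)) (fun a b => F' (j i a) (j i b))) := by
  have hb : Sm2 S (cup11 ρ' B x y) := cup11_sm hM.sm' hM.act' hx hy
  have hyi : ∀ i, Sm1 (SD i) (fun d => y (j i d)) := fun i => Sm1.comp (H.jsm i) hy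
  have ht : ∀ i, Sm1 (SD i) (cup01 B (z i) (fun d => y (j i d))) := fun i => cup01_sm (hyi i)
  have h1 := tr_cob H htr hb ht
  have h2 : ((cup21 υ' β F₁ (fun a => p' (y a)),
      fun i => cup11 (fun d => υ' (j i d)) β (g₁ i) (fun d => p' (y (j i d)))) :
      (G → G → G → A0) × (∀ i, D i → D i → A0)) =
      (d2 (tw χ) (cup11 ρ' B x y), fun i u v => cup11 ρ' B x y (j i u) (j i v) -
        d1 (tw fun d => χ (j i d)) (cup01 B (z i) (fun d => y (j i d))) u v) +
      (cup12 σ' C (fun a => p (x a)) F',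
        fun i => cup02 C (p (z i)) (fun a b => F' (j i a) (j i b))) := by
    refine Prod.ext ?_ ?_
    · funext a b c
      simp only [Prod.mk_add_mk, Pi.add_apply]
      rw [leib11 hM.act' hM.eqv]
      have h3 : cup12 ρ' B x (d1 ρ' y) a b c = cup12 σ' C (fun a => p (x a)) F' a b c := by
        simp only [cup12, hF', hf'.eqv_e', hf'.pair2]
      rw [h3, sub_add_cancel]
      simp only [cup21, hF₁, hf'.pair1, hf'.eqv_p']
    · funext i a b
      simp only [Prod.mk_add_mk, Pi.add_apply]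
      have h4 := leib01 (ρ := fun d => ρ (j i d)) (ρ' := fun d => ρ' (j i d))
        (χ := fun d => χ (j i d)) (B := B) (fun g => hM.eqv (j i g)) (z i) (fun d => y (j i d)) a b
      rw [h4]
      have h5 : cup02 B (z i) (d1 (fun d => ρ' (j i d)) (fun d => y (j i d))) a b =
          cup02 C (p (z i)) (fun a b => F' (j i a) (j i b)) a b := by
        have h6 := hF' (j i a) (j i b)
        simp only [cup02]
        rw [← hf'.pair2, ← h6]
        simp only [d1, map_mul]
      rw [h5, sub_add_eq_sub_sub, sub_add_cancel]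
      simp only [cup11, ← AddMonoidHom.sub_apply, ← map_sub, hg₁, hf'.pair1, hf'.eqv_p']
  rw [h2, map_add, h1, zero_add]

end Pool.Agent.Work.MP_787500_nt.KR
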