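import Mathlib
import Pool.Agent.Work.MP_787500_nt.KR.T06
import Pool.Agent.Work.MP_787500_nt.KR.T08
import Pool.Agent.Work.MP_787500_nt.KR.T09
import Pool.Agent.Work.MP_787500_nt.KR.T09b

/-!
# Module T10 (size M-L): the step for `PP` (compare `GP/T10_StepP.lean`)

The proof is that of `GP/T10_StepP.lean`, with `Z1 S υ'` instead of `homs S ⊤` and `PP` for `(A, A')` instead
of `baseP`. Take `X, Y, F₁, g₁` from `liftP`. Let `A₁` be the group of pairs of functions `(F₁, g₁)`,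
`V` the group of the smooth 1-cocycles `ω ∈ Z1 S υ'` (an `AddSubgroup` of `G → A'`, `Z1.add`, `Z1.neg`; finite
by `hfin`; killed by `2 ^ k` where `2 ^ k` kills `A'`, `a0_killed` and `nd'`, `A`, `A'` finite) and
`φ (F₁, g₁) ω = tr (cup21 υ' β F₁ ω, cup11 υ' β (g₁ i) ω|)`. Let `C₀ ≤ A₁` be the subgroup of the pairs
`(F_x, g_x)` with `d1 ρ x = e F_x`, `x|D i - d0 (z i) = e (g_x i)` for some `x`, `z` with `Sm1 S x`. By `ann`
(`T06`), applied to `a = (F₁, g₁)`, there is `c ∈ C₀` with `φ c = φ a`; `a - c` satisfies the hypotheses of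
`PP` for `(A, A')`, so `a - c = (d1 X₁, X₁| - d0 (Y₁ i))`, and `F = d1 (X + x + e X₁)`,
`g i = (X + x + e X₁)|D i - d0 (Y i + z i + e (Y₁ i))`.
Hypothesis of `ann`: let `ω ∈ Z1 S υ'` be orthogonal to `C₀`. Let `s'` be a section of `p'` and
`y = s' ∘ ω` (smooth). `p' (d1 ρ' y) = d1 υ' ω = 0`, so `d1 ρ' y = e' F'` with `F' ∈ Z2 S σ'` (`inj_Z2`). For
every `(x', z')` with `x' ∈ Z1 S σ`, `x'|D i = d0 (z' i)`: lift to `x = s x'`, `z = s z'`; by `claimP`
`0 = φ (F_x, g_x) ω = tr (cup12 σ' C x' F', cup02 C z' F'|)`. By `QQ` for `(Q, Q')`: `F' = d1 σ' X'`, so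
`x₀ = y - e' X' ∈ Z1 S ρ'` with `p' x₀ = ω`. By `liftP` (last clause) `φ (F₁, g₁) ω = 0`.
-/

set_option autoImplicit false
set_option linter.unusedSectionVars false

namespace Pool.Agent.Work.MP_787500_nt.KR

open Pool.Agent.Work.MP_787500_nt.GP

variable {G : Type*} [Group G] {S : FSys G} {I : Type*} [Fintype I] {D : I → Type*}
  [∀ i, Group (D i)] {SD : ∀ i, FSys (D i)} {j : ∀ i, D i →* G} {χ : G → ℤ_[2]}
  {inv : ∀ i, (D i → D i → A0) → A0}
  {tr : ((G → G → G → A0) × (∀ i, D i → D i → A0)) →+ A0}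
  {A A' M M' Q Q' : Type*} [AddCommGroup A] [AddCommGroup A'] [AddCommGroup M] [AddCommGroup M']
  [AddCommGroup Q] [AddCommGroup Q'] {υ : G → A → A} {υ' : G → A' → A'} {β : A →+ A' →+ A0}
  {ρ : G → M → M} {ρ' : G → M' → M'} {B : M →+ M' →+ A0}
  {σ : G → Q → Q} {σ' : G → Q' → Q'} {C : Q →+ Q' →+ A0}

/-- the pairing of pairs with cocycles -/
private noncomputable def ph10 (j : ∀ i, D i →* G) (υ' : G → A' → A') (β : A →+ A' →+ A0)
    (tr : ((G → G → G → A0) × (∀ i, D i → D i → A0)) →+ A0)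
    (a : (G → G → A) × (∀ i, D i → A)) (ω : G → A') : A0 :=
  tr (cup21 υ' β a.1 ω, fun i => cup11 (fun d => υ' (j i d)) β (a.2 i) (fun d => ω (j i d)))

private theorem ph10_add (a a' : (G → G → A) × (∀ i, D i → A)) (ω : G → A') :
    ph10 j υ' β tr (a + a') ω = ph10 j υ' β tr a ω + ph10 j υ' β tr a' ω := by
  unfold ph10
  rw [← map_add]
  congr 1
  refine Prod.ext ?_ ?_
  · funext x y z
    simp only [Prod.fst_add, Prod.mk_add_mk, Pi.add_apply, cup21, map_add, AddMonoidHom.add_apply]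
  · funext i x y
    simp only [Prod.snd_add, Prod.mk_add_mk, Pi.add_apply, cup11, map_add, AddMonoidHom.add_apply]

private theorem ph10_add' (h : IsAct υ') (a : (G → G → A) × (∀ i, D i → A)) (ω ω' : G → A') :
    ph10 j υ' β tr a (ω + ω') = ph10 j υ' β tr a ω + ph10 j υ' β tr a ω' := by
  unfold ph10
  rw [← map_add]
  congr 1
  refine Prod.ext ?_ ?_
  · funext x y z
    simp only [Prod.mk_add_mk, Pi.add_apply, cup21, h.add, map_add]
  · funext i x y
    simp only [Prod.mk_add_mk, Pi.add_apply, cup11, h.add, map_add]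

/-- the group of smooth 1-cocycles -/
private def v10 (S : FSys G) (υ' : G → A' → A') (h : IsAct υ') : AddSubgroup (G → A') where
  carrier := {x | Z1 S υ' x}
  add_mem' := fun h1 h2 => Z1.add h h1 h2
  zero_mem' := by
    obtain ⟨W, hW⟩ := S.ex
    exact ⟨⟨W, hW, fun _ _ _ => rfl⟩, fun a b => by simp [h.zero]⟩
  neg_mem' := fun h1 => Z1.neg h h1

/-- the subgroup of pairs that come from cochains of `M` -/
private def sub10 (S : FSys G) (j : ∀ i, D i →* G) (ρ : G → M → M) (hρ : IsAct ρ)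
    (e : A →+ M) : AddSubgroup ((G → G → A) × (∀ i, D i → A)) where
  carrier := {c | ∃ (x : G → M) (z : I → M), Sm1 S x ∧ (∀ a b, d1 ρ x a b = e (c.1 a b)) ∧
    ∀ i d, x (j i d) - d0 (fun d => ρ (j i d)) (z i) d = e (c.2 i d)}
  add_mem' := by
    rintro c c' ⟨x, z, hx, h1, h2⟩ ⟨x', z', hx', h1', h2'⟩
    refine ⟨fun a => x a + x' a, fun i => z i + z' i, inj_Sm1_map2 (· + ·) hx hx', ?_, ?_⟩
    · intro a b
      simp only [Prod.fst_add, Pi.add_apply, map_add, ← h1, ← h1', d1, hρ.add]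
      abel
    · intro i d
      simp only [Prod.snd_add, Pi.add_apply, map_add, ← h2, ← h2', d0, hρ.add]
      abel
  zero_mem' := by
    refine ⟨fun _ => 0, fun _ => 0, ?_, ?_, ?_⟩
    · obtain ⟨W, hW⟩ := S.ex
      exact ⟨W, hW, fun _ _ _ => rfl⟩
    · intro a b
      simp [d1, hρ.zero]
    · intro i d
      simp [d0, hρ.zero]
  neg_mem' := by
    rintro c ⟨x, z, hx, h1, h2⟩
    refine ⟨fun a => -x a, fun i => -z i, inj_Sm1_map Neg.neg hx, ?_, ?_⟩
    · intro a b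
      simp only [Prod.fst_neg, Pi.neg_apply, map_neg, ← h1, d1, hρ.neg]
      abel
    · intro i d
      simp only [Prod.snd_neg, Pi.neg_apply, map_neg, ← h2, d0, hρ.neg]
      abel

private theorem orth10 (H : GlobH S SD j χ inv) (htr : IsTr S SD j χ inv tr)
    (hM : Pair S χ ρ ρ' B) (hQ : Pair S χ σ σ' C) {e : A →+ M} {p : M →+ Q}
    {e' : Q' →+ M'} {p' : M' →+ A'}
    (hf' : Filt υ υ' β ρ ρ' B σ σ' C e p e' p') (hQQ : QQ S j tr σ σ' C)
    (ω : G → A') (hω : Z1 S υ' ω)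
    (h : ∀ c ∈ sub10 S j ρ hM.act e, ph10 j υ' β tr c ω = 0) :
    ∃ x, Z1 S ρ' x ∧ ∀ a, p' (x a) = ω a := by
  obtain ⟨hω1, hω2⟩ := hω
  obtain ⟨s', hs'⟩ := hf'.psurj'.hasRightInverse
  obtain ⟨s, hs⟩ := hf'.psurj.hasRightInverse
  unfold Function.RightInverse Function.LeftInverse at hs hs'
  have hy : Sm1 S (fun a => s' (ω a)) := inj_Sm1_map s' hω1
  have h1 : ∀ a b, ∃ t, d1 ρ' (fun a => s' (ω a)) a b = e' t := by
    intro a b
    refine hf'.ker' _ ?_
    simp only [d1, map_add, map_sub, hf'.eqv_p', hs', hω2 a b, sub_self]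
  choose F' hF' using h1
  have hZ : Z2 S σ' F' := inj_Z2 hf'.einj' hf'.eqv_e' hM.act' hM.sm' hy hF'
  obtain ⟨X', hX', hFX⟩ := hQQ F' hZ (fun x' z' hx' hz' => by
    have hx : Sm1 S (fun a => s (x' a)) := inj_Sm1_map s hx'.1
    have h2 : ∀ a b, ∃ t, d1 ρ (fun a => s (x' a)) a b = e t := by
      intro a b
      refine hf'.ker _ ?_
      simp only [d1, map_add, map_sub, hf'.eqv_p, hs, hx'.2 a b, sub_self]
    choose Fx hFx using h2
    have h3 : ∀ i d, ∃ t, s (x' (j i d)) - d0 (fun d => ρ (j i d)) (s (z' i)) d = e t := by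
      intro i d
      refine hf'.ker _ ?_
      simp only [hz' i d, map_sub, d0, hf'.eqv_p, hs, sub_self]
    choose gx hgx using h3
    have h4 := h (Fx, gx) ⟨fun a => s (x' a), fun i => s (z' i), hx, hFx, hgx⟩
    have h5 := claimP H htr hM hQ hf' hx hy hFx (z := fun i => s (z' i)) hgx hF'
    simp only [hs'] at h5
    have h6 : ph10 j υ' β tr (Fx, gx) ω = tr (cup21 υ' β Fx ω,
        fun i => cup11 (fun d => υ' (j i d)) β (gx i) (fun d => ω (j i d))) := rfl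
    have h7 : (fun a => ω a) = ω := rfl
    rw [h7, ← h6, h4] at h5
    simp only [hs] at h5
    exact h5.symm)
  refine ⟨fun a => s' (ω a) - e' (X' a), ⟨inj_Sm1_map2 (· - ·) hy (inj_Sm1_map e' hX'), ?_⟩, ?_⟩
  · intro a b
    have h2 := hF' a b
    rw [hFX] at h2
    simp only [d1, map_sub, map_add, ← hf'.eqv_e'] at h2
    simp only [hM.act'.sub]
    rw [← sub_eq_zero] at h2 ⊢
    rw [← neg_eq_zero, ← h2]
    abel
  · intro a
    simp only [map_sub, hs', hf'.pe', sub_zero]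

theorem stepP [Finite A] [Finite A'] (H : GlobH S SD j χ inv) (htr : IsTr S SD j χ inv tr)
    (hA : Pair S χ υ υ' β) (hM : Pair S χ ρ ρ' B)
    (hQ : Pair S χ σ σ' C) {e : A →+ M} {p : M →+ Q} {e' : Q' →+ M'} {p' : M' →+ A'}
    (hf' : Filt υ υ' β ρ ρ' B σ σ' C e p e' p') (hfin : Finite {x : G → A' // Z1 S υ' x})
    (hPA : PP S SD j tr υ υ' β) (hP : PP S SD j tr σ σ' C) (hQQ : QQ S j tr σ σ' C) :
    PP S SD j tr ρ ρ' B := by
  intro F g hF hg hFg h0
  obtain ⟨X, Y, F₁, g₁, hX, hF₁, hg₁, hFg₁, e1, e2, horth⟩ :=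
    liftP H htr hM hQ hf' hP F g hF hg hFg h0
  have : Finite (v10 S υ' hA.act') := hfin
  obtain ⟨k, hk, -⟩ := a0_killed (fun t : A × A' => β t.1 t.2)
  have hk' : ∀ a' : A', (2 ^ k) • a' = 0 := fun a' => hA.nd' _ fun a => by
    rw [map_nsmul]
    exact hk (a, a')
  obtain ⟨c, hc, hcv⟩ := ann (A := (G → G → A) × (∀ i, D i → A)) (V := v10 S υ' hA.act') k
    (fun v => Subtype.ext (funext fun g => hk' _))
    (fun a ω => ph10 j υ' β tr a ω.1) (fun a a' v => ph10_add a a' v.1)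
    (fun a v v' => ph10_add' hA.act' a v.1 v'.1) (sub10 S j ρ hM.act e) (F₁, g₁) (fun v hv => by
      obtain ⟨x, hx, hxv⟩ := orth10 H htr hM hQ hf' hQQ v.1 v.2 hv
      have h1 := horth x hx
      simp only [hxv] at h1
      exact h1)
  obtain ⟨x, z, hx, hc1, hc2⟩ := hc
  have hcC : Z2 S υ c.1 := inj_Z2 hf'.einj hf'.eqv_e hM.act hM.sm hx hc1
  have hcS : ∀ i, Sm1 (SD i) (c.2 i) := by
    intro i
    refine inj_Sm1 hf'.einj ?_
    simp only [← hc2]
    exact inj_Sm1_map2 (· - ·) (Sm1.comp (H.jsm i) hx)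
      (d0_Z1 (hM.act.comp (j i)) (hM.sm.comp (H.jsm i)) (z i)).1
  have hcF : ∀ i a b, d1 (fun d => υ (j i d)) (c.2 i) a b = c.1 (j i a) (j i b) := by
    intro i a b
    refine hf'.einj ?_
    rw [← hc1]
    simp only [d1, map_add, map_sub, ← hf'.eqv_e, ← hc2, d0, map_mul, hM.act.sub, hM.act.mul]
    abel
  obtain ⟨X₁, Y₁, hX₁, hFX, hgX⟩ := hPA (fun a b => F₁ a b + -c.1 a b)
    (fun i d => g₁ i d + -c.2 i d) (Z2.add hA.act hF₁ (Z2.neg hA.act hcC))
    (fun i => inj_Sm1_map2 (fun s t => s + -t) (hg₁ i) (hcS i)) (fun i a b => by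
      simp only [← hFg₁, ← hcF, d1, hA.act.add, hA.act.neg]
      abel) (fun ω hω => by
      have h3 := hcv ⟨ω, hω⟩
      have h4 : ph10 j υ' β tr ((F₁, g₁) + -c) ω =
        ph10 j υ' β tr (F₁, g₁) ω + ph10 j υ' β tr (-c) ω := ph10_add _ _ _
      have h5 : ph10 j υ' β tr (c + -c) ω = ph10 j υ' β tr c ω + ph10 j υ' β tr (-c) ω :=
        ph10_add _ _ _
      have h7 : ph10 j υ' β tr (0 : (G → G → A) × (∀ i, D i → A)) ω = 0 := by
        have h8 : ph10 j υ' β tr ((0 : (G → G → A) × (∀ i, D i → A)) + 0) ω = _ :=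
          ph10_add _ _ _
        rw [add_zero] at h8
        exact left_eq_add.1 h8
      rw [add_neg_cancel, h7] at h5
      change ph10 j υ' β tr ((F₁, g₁) + -c) ω = 0
      rw [h4, ← h3]
      exact h5.symm)
  refine ⟨fun a => X a + x a + e (X₁ a), fun i => Y i + z i + e (Y₁ i),
    inj_Sm1_map2 (· + ·) (inj_Sm1_map2 (· + ·) hX hx) (inj_Sm1_map e hX₁), ?_, ?_⟩
  · funext a b
    have h1 : F₁ a b = c.1 a b + d1 υ X₁ a b := by
      have h2 := congrFun (congrFun hFX a) b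
      rw [← h2]
      abel
    rw [e1, h1, map_add, ← hc1]
    simp only [d1, hM.act.add, hf'.eqv_e, map_add, map_sub]
    abel
  · intro i d
    have h1 : g₁ i d = c.2 i d + (X₁ (j i d) - d0 (fun d => υ (j i d)) (Y₁ i) d) := by
      rw [← hgX i d]
      abel
    rw [e2, h1, map_add, ← hc2]
    simp only [d0, hM.act.add, hf'.eqv_e, map_sub]
    abel

end Pool.Agent.Work.MP_787500_nt.KR
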