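import Mathlib
import Pool.Agent.Work.MP_787500_nt.KR.T04b

/-!
# Module T11 (size M): the step for `QQ`: lifting and the identity of traces (compare `GP/T11_ClaimQ.lean`)

The proofs are those of `GP/T11_ClaimQ.lean` with the base pair `(A, A')`. The filtration is that of the
flipped pair: `e : A' → M'`, `p : M' → Q'`, `e' : Q → M`, `p' : M → A`, `B m (e a) = β (p' m) a`
(`pair1` for the flipped forms), `B (e' q) m' = C q (p m')`.
-/

set_option autoImplicit false
set_option linter.unusedSectionVars false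

namespace Pool.Agent.Work.MP_787500_nt.KR

open Pool.Agent.Work.MP_787500_nt.GP

variable {G : Type*} [Group G] {S : FSys G} {I : Type*} [Fintype I] {D : I → Type*}
  [∀ i, Group (D i)] {SD : ∀ i, FSys (D i)} {j : ∀ i, D i →* G} {χ : G → ℤ_[2]}
  {inv : ∀ i, (D i → D i → A0) → A0}
  {tr : ((G → G → G → A0) × (∀ i, D i → D i → A0)) →+ A0}
  {A A' M M' Q Q' : Type*} [AddCommGroup A] [AddCommGroup A'] [AddCommGroup M] [AddCommGroup M']
  [AddCommGroup Q] [AddCommGroup Q'] {υ : G → A → A} {υ' : G → A' → A'} {β : A →+ A' →+ A0}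
  {ρ : G → M → M} {ρ' : G → M' → M'} {B : M →+ M' →+ A0}
  {σ : G → Q → Q} {σ' : G → Q' → Q'} {C : Q →+ Q' →+ A0}

private theorem claimQ_orth (H : GlobH S SD j χ inv) (htr : IsTr S SD j χ inv tr)
    (hM : Pair S χ ρ ρ' B) {e : A' →+ M'} {p : M' →+ Q'} {e' : Q →+ M} {p' : M →+ A}
    (hf' : Filt υ' υ β.flip ρ' ρ B.flip σ' σ C.flip e p e' p')
    {F : G → G → M'} {X : G → M'} {F₁ : G → G → A'} (hX : Sm1 S X)
    (h1 : ∀ a b, F a b = d1 ρ' X a b + e (F₁ a b))
    (x : G → M) (z : I → M) (hx : Z1 S ρ x)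
    (hz : ∀ i d, x (j i d) = d0 (fun d => ρ (j i d)) (z i) d)
    (h0 : tr (cup12 ρ' B x F, fun i => cup02 B (z i) (fun a b => F (j i a) (j i b))) = 0) :
    tr (cup12 υ' β (fun a => p' (x a)) F₁,
      fun i => cup02 β (p' (z i)) (fun a b => F₁ (j i a) (j i b))) = 0 := by
  have hb : Sm2 S (cup11 ρ' B x X) := cup11_sm hM.sm' hM.act' hx.1 hX
  have hyi : ∀ i, Sm1 (SD i) (fun d => X (j i d)) := fun i => Sm1.comp (H.jsm i) hX
  have ht : ∀ i, Sm1 (SD i) (cup01 B (z i) (fun d => X (j i d))) := fun i => cup01_sm (hyi i)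
  have h3 := tr_cob H htr hb ht
  have hp1 : ∀ m a, B m (e a) = β (p' m) a := fun m a => hf'.pair1 a m
  have h4 : ((cup12 υ' β (fun a => p' (x a)) F₁,
      fun i => cup02 β (p' (z i)) (fun a b => F₁ (j i a) (j i b))) :
        (G → G → G → A0) × (∀ i, D i → D i → A0)) =
      (cup12 ρ' B x F, fun i => cup02 B (z i) (fun a b => F (j i a) (j i b))) +
      (d2 (tw χ) (cup11 ρ' B x X), fun i u v => cup11 ρ' B x X (j i u) (j i v) -
        d1 (tw fun d => χ (j i d)) (cup01 B (z i) (fun d => X (j i d))) u v) := by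
    refine Prod.ext ?_ ?_
    · funext a b c
      simp only [Prod.mk_add_mk, Pi.add_apply]
      have h5 : d1 ρ x a b = 0 := by simp only [d1, hx.2 a b, sub_self]
      rw [leib11 hM.act' hM.eqv]
      simp only [cup21, cup12, h1, h5, map_zero, zero_sub, map_add, hM.act'.add,
        hf'.eqv_e, hp1, AddMonoidHom.zero_apply]
      abel
    · funext i a b
      simp only [Prod.mk_add_mk, Pi.add_apply]
      have h6 := leib01 (ρ := fun d => ρ (j i d)) (ρ' := fun d => ρ' (j i d))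
        (χ := fun d => χ (j i d)) (B := B) (fun g => hM.eqv (j i g)) (z i) (fun d => X (j i d)) a b
      rw [h6]
      simp only [cup11, cup02, ← hz i a, h1, map_add, hp1, d1, map_mul]
      abel
  rw [h4, map_add, h3, add_zero]
  exact h0

private theorem claimQ_sm2 {E E' : Type*} {f : G → G → E} {k : E → E'}
    (hk : Function.Injective k) (h : Sm2 S (fun a b => k (f a b))) : Sm2 S f := by
  obtain ⟨W, hW, h1⟩ := h
  exact ⟨W, hW, fun g h w hw w' hw' => hk (h1 g h w hw w' hw')⟩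

theorem liftQ (H : GlobH S SD j χ inv) (htr : IsTr S SD j χ inv tr) (hM : Pair S χ ρ ρ' B)
    (hQ : Pair S χ σ σ' C) {e : A' →+ M'} {p : M' →+ Q'} {e' : Q →+ M} {p' : M →+ A}
    (hf' : Filt υ' υ β.flip ρ' ρ B.flip σ' σ C.flip e p e' p') (hQQ : QQ S j tr σ σ' C)
    (F : G → G → M') (hF : Z2 S ρ' F)
    (h0 : ∀ (x : G → M) (z : I → M), Z1 S ρ x →
      (∀ i d, x (j i d) = d0 (fun d => ρ (j i d)) (z i) d) →
      tr (cup12 ρ' B x F, fun i => cup02 B (z i) (fun a b => F (j i a) (j i b))) = 0) :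
    ∃ (X : G → M') (F₁ : G → G → A'), Sm1 S X ∧ Z2 S υ' F₁ ∧
      (∀ a b, F a b = d1 ρ' X a b + e (F₁ a b)) ∧
      ∀ (x : G → M) (z : I → M), Z1 S ρ x →
        (∀ i d, x (j i d) = d0 (fun d => ρ (j i d)) (z i) d) →
        tr (cup12 υ' β (fun a => p' (x a)) F₁,
          fun i => cup02 β (p' (z i)) (fun a b => F₁ (j i a) (j i b))) = 0 := by
  have hpF : Z2 S σ' (fun a b => p (F a b)) := by
    refine ⟨?_, fun a b c => ?_⟩
    · obtain ⟨W, hW, h⟩ := hF.1
      exact ⟨W, hW, fun g h' w hw w' hw' => by simp only [h g h' w hw w' hw']⟩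
    · have h1 := hF.2 a b c
      have h2 := congrArg p h1
      simpa only [d2, map_add, map_sub, hf'.eqv_p, map_zero] using h2
  have hp2 : ∀ q m', B (e' q) m' = C q (p m') := fun q m' => hf'.pair2 m' q
  have hp0 : ∀ (x : G → Q) (z : I → Q), Z1 S σ x →
      (∀ i d, x (j i d) = d0 (fun d => σ (j i d)) (z i) d) →
      tr (cup12 σ' C x (fun a b => p (F a b)),
        fun i => cup02 C (z i) (fun a b => p (F (j i a) (j i b)))) = 0 := by
    intro x' z' hx' hz'
    have hx : Z1 S ρ (fun a => e' (x' a)) := by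
      refine ⟨?_, fun a b => ?_⟩
      · obtain ⟨W, hW, h⟩ := hx'.1
        exact ⟨W, hW, fun g w hw => by simp only [h g w hw]⟩
      · simp only [hx'.2 a b, map_add, hf'.eqv_e']
    have h1 := h0 (fun a => e' (x' a)) (fun i => e' (z' i)) hx (fun i d => by
      simp only [hz' i d, d0, map_sub, hf'.eqv_e'])
    rw [← h1]
    congr 1
    refine Prod.ext ?_ ?_
    · funext a b c
      simp only [cup12, hp2, hf'.eqv_p]
    · funext i a b
      simp only [cup02, hp2]
  obtain ⟨X', hX', hFX⟩ := hQQ _ hpF hp0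
  obtain ⟨s, hs⟩ := hf'.psurj.hasRightInverse
  have hX : Sm1 S (fun a => s (X' a)) := by
    obtain ⟨W, hW, h⟩ := hX'
    exact ⟨W, hW, fun g w hw => by simp only [h g w hw]⟩
  have hk1 : ∀ a b, ∃ t, F a b - d1 ρ' (fun a => s (X' a)) a b = e t := by
    intro a b
    refine hf'.ker _ ?_
    have h1 : p (F a b) = d1 σ' X' a b := congrFun (congrFun hFX a) b
    have hs' := hs
    unfold Function.RightInverse Function.LeftInverse at hs'
    simp only [map_sub, h1, d1, map_add, hf'.eqv_p, hs', sub_self]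
  choose F₁ hF₁ using hk1
  have e1 : ∀ a b, F a b = d1 ρ' (fun a => s (X' a)) a b + e (F₁ a b) := by
    intro a b
    rw [← hF₁ a b]
    abel
  have hd1 := d1_Z2 hM.act' hM.sm' hX
  refine ⟨fun a => s (X' a), F₁, hX, ⟨?_, ?_⟩, e1, fun x z hx hz =>
    claimQ_orth H htr hM hf' hX e1 x z hx hz (h0 x z hx hz)⟩
  · refine claimQ_sm2 hf'.einj ?_
    simp only [← hF₁]
    obtain ⟨W, hW, h⟩ := hF.1
    obtain ⟨W', hW', h'⟩ := hd1.1
    exact ⟨W ⊓ W', S.inf hW hW', fun a b w hw w' hw' => by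
      simp only [h a b w hw.1 w' hw'.1, h' a b w hw.2 w' hw'.2]⟩
  · intro a b c
    have h1 : d2 ρ' (fun a b => e (F₁ a b)) a b c = 0 := by
      have h2 := hF.2 a b c
      have h3 := hd1.2 a b c
      simp only [← hF₁]
      have h4 : d2 ρ' (fun a b => F a b - d1 ρ' (fun a => s (X' a)) a b) a b c =
          d2 ρ' F a b c - d2 ρ' (d1 ρ' (fun a => s (X' a))) a b c := by
        simp only [d2, hM.act'.sub]
        abel
      rw [h4, h2, h3, sub_zero]
    simp only [d2, hf'.eqv_e, ← map_sub, ← map_add] at h1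
    exact hf'.einj (h1.trans (map_zero e).symm)

theorem claimQ (H : GlobH S SD j χ inv) (htr : IsTr S SD j χ inv tr) (hM : Pair S χ ρ ρ' B)
    (hQ : Pair S χ σ σ' C) {e : A' →+ M'} {p : M' →+ Q'} {e' : Q →+ M} {p' : M →+ A}
    (hf' : Filt υ' υ β.flip ρ' ρ B.flip σ' σ C.flip e p e' p')
    {y : G → M} (hy : Sm1 S y) {ζ : I → M} {x : G → M'} (hx : Sm1 S x)
    {F' : G → G → Q} (hF' : ∀ a b, d1 ρ y a b = e' (F' a b)) {g' : ∀ i, D i → Q}
    (hg' : ∀ i d, y (j i d) - d0 (fun d => ρ (j i d)) (ζ i) d = e' (g' i d))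
    {F₁ : G → G → A'} (hF₁ : ∀ a b, d1 ρ' x a b = e (F₁ a b)) :
    tr (cup12 υ' β (fun a => p' (y a)) F₁,
      fun i => cup02 β (p' (ζ i)) (fun a b => F₁ (j i a) (j i b))) =
      tr (cup21 σ' C F' (fun a => p (x a)),
        fun i => cup11 (fun d => σ' (j i d)) C (g' i) (fun d => p (x (j i d)))) := by
  have hb : Sm2 S (cup11 ρ' B y x) := cup11_sm hM.sm' hM.act' hy hx
  have hyi : ∀ i, Sm1 (SD i) (fun d => x (j i d)) := fun i => Sm1.comp (H.jsm i) hx
  have ht : ∀ i, Sm1 (SD i) (cup01 B (ζ i) (fun d => x (j i d))) := fun i => cup01_sm (hyi i)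
  have h3 := tr_cob H htr hb ht
  have hp1 : ∀ m a, B m (e a) = β (p' m) a := fun m a => hf'.pair1 a m
  have hp2 : ∀ q m', B (e' q) m' = C q (p m') := fun q m' => hf'.pair2 m' q
  have h4 : ((cup21 σ' C F' (fun a => p (x a)),
      fun i => cup11 (fun d => σ' (j i d)) C (g' i) (fun d => p (x (j i d)))) :
        (G → G → G → A0) × (∀ i, D i → D i → A0)) =
      (cup12 υ' β (fun a => p' (y a)) F₁,
        fun i => cup02 β (p' (ζ i)) (fun a b => F₁ (j i a) (j i b))) +
      (d2 (tw χ) (cup11 ρ' B y x), fun i u v => cup11 ρ' B y x (j i u) (j i v) -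
        d1 (tw fun d => χ (j i d)) (cup01 B (ζ i) (fun d => x (j i d))) u v) := by
    refine Prod.ext ?_ ?_
    · funext a b c
      simp only [Prod.mk_add_mk, Pi.add_apply]
      rw [leib11 hM.act' hM.eqv]
      have h5 : cup21 ρ' B (d1 ρ y) x a b c = cup21 σ' C F' (fun a => p (x a)) a b c := by
        simp only [cup21, hF', hp2, hf'.eqv_p]
      have h6 : cup12 ρ' B y (d1 ρ' x) a b c = cup12 υ' β (fun a => p' (y a)) F₁ a b c := by
        simp only [cup12, hF₁, hf'.eqv_e, hp1]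
      rw [h5, h6]
      abel
    · funext i a b
      simp only [Prod.mk_add_mk, Pi.add_apply]
      have h4 := leib01 (ρ := fun d => ρ (j i d)) (ρ' := fun d => ρ' (j i d))
        (χ := fun d => χ (j i d)) (B := B) (fun g => hM.eqv (j i g)) (ζ i) (fun d => x (j i d)) a b
      rw [h4]
      have h5 : cup02 B (ζ i) (d1 (fun d => ρ' (j i d)) (fun d => x (j i d))) a b =
          cup02 β (p' (ζ i)) (fun a b => F₁ (j i a) (j i b)) a b := by
        have h6 := hF₁ (j i a) (j i b)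
        simp only [cup02]
        rw [← hp1, ← h6]
        simp only [d1, map_mul]
      have h6 : cup11 (fun d => σ' (j i d)) C (g' i) (fun d => p (x (j i d))) a b =
          cup11 ρ' B y x (j i a) (j i b) -
          cup11 (fun d => ρ' (j i d)) B (d0 (fun d => ρ (j i d)) (ζ i)) (fun d => x (j i d)) a b := by
        simp only [cup11, ← AddMonoidHom.sub_apply, ← map_sub, hg', hp2, hf'.eqv_p]
      rw [h5, h6]
      abel
  rw [h4, map_add, h3, add_zero]

end Pool.Agent.Work.MP_787500_nt.KR
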