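import Mathlib
import Pool.Agent.Work.MP_787500_nt.KR.T06
import Pool.Agent.Work.MP_787500_nt.KR.T11
import Pool.Agent.Work.MP_787500_nt.KR.T09b

/-!
# Module T12 (size M-L): the step for `QQ` (compare `GP/T12_StepQ.lean`)

The proof is that of `GP/T12_StepQ.lean`. Take `X, F₁` from `liftQ`. Let `A₁` be the group of functions
`F₁ : G → G → A'`, `V` the group of the pairs `(ω, z)`, `ω ∈ Z1 S υ`, `z : I → A`, `ω|D i = d0 (z i)`
(an `AddSubgroup` of `(G → A) × (I → A)`, finite by `hfin` and `Finite A`, killed by some `2 ^ k`),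
`φ F₁ (ω, z) = tr (cup12 υ' β ω F₁, cup02 β (z i) F₁|)`. `C₀ ≤ A₁`: the `F_x` with `d1 ρ' x = e F_x`,
`Sm1 S x`. By `ann` (`T06`) there is `c ∈ C₀` with `φ c = φ F₁`; `F₁ - c` satisfies the hypotheses of
`QQ` for `(A, A')`, so `F₁ - c = d1 υ' X₁` and `F = d1 (X + x + e X₁)`.
Hypothesis of `ann`: let `(ω, z)` be orthogonal to `C₀`. Lift to `M` by a section `s'` of `p'`:
`y = s' ω`, `ζ = s' z`; `d1 ρ y = e' F'`, `y| - d0 ζ = e' g'` (their images in `A` are 0), with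
`F' ∈ Z2 S σ`, `g' i` smooth and `d1 (g' i) = F'|`. For every `x' ∈ Z1 S σ'` lift to `x = s x'` in `M'`:
`d1 ρ' x = e F_x`, so by `claimQ` `0 = tr (cup21 σ' C F' x', cup11 C g' x'|)`. By `PP` for `(Q, Q')`:
`F' = d1 σ X'`, `g' = X'| - d0 Y'`. Then `(y - e' X', ζ - e' Y')` has image `(ω, z)` under `p'`. By `liftQ`
(last clause) `φ F₁ (ω, z) = 0`.
-/

set_option autoImplicit false
set_option linter.unusedSectionVars false

namespace Pool.Agent.Work.MP_787500_nt.KR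

open Pool.Agent.Work.MP_787500_nt.GP

variable {G : Type*} [Group G] {S : FSys G} {I : Type*} [Fintype I] {D : I → Type*}
  [∀ i, Group (D i)] {SD : ∀ i, FSys (D i)} {j : ∀ i, D i →* G} {χ : G → ℤ_[2]}
  {inv : ∀ i, (D i → D i → A0) → A0}
  {tr : ((G → G → G → A0) × (∀ i, D i → D i → A0)) →+ A0}
  {A A' M M' Q Q' : Type*} [AddCommGroup A] [AddCommGroup A'] [AddCommGroup M] [AddCommGroup M']
  [AddCommGroup Q] [AddCommGroup Q'] {υ : G → A → A} {υ' : G → A' → A'} {β : A →+ A' →+ A0}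
  {ρ : G → M → M} {ρ' : G → M' → M'} {B : M →+ M' →+ A0}
  {σ : G → Q → Q} {σ' : G → Q' → Q'} {C : Q →+ Q' →+ A0}

/-- the pairing of functions with pairs -/
private noncomputable def ph12 (j : ∀ i, D i →* G)
    (tr : ((G → G → G → A0) × (∀ i, D i → D i → A0)) →+ A0) (υ' : G → A' → A')
    (β : A →+ A' →+ A0) (f : G → G → A') (v : (G → A) × (I → A)) : A0 :=
  tr (cup12 υ' β v.1 f, fun i => cup02 β (v.2 i) (fun x y => f (j i x) (j i y)))

private theorem ph12_add (hυ : IsAct υ') (a a' : G → G → A') (v : (G → A) × (I → A)) :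
    ph12 j tr υ' β (a + a') v = ph12 j tr υ' β a v + ph12 j tr υ' β a' v := by
  unfold ph12
  rw [← map_add]
  congr 1
  refine Prod.ext ?_ ?_
  · funext x y z
    simp only [Prod.mk_add_mk, Pi.add_apply, cup12, hυ.add, map_add]
  · funext i x y
    simp only [Prod.mk_add_mk, Pi.add_apply, cup02, map_add]

private theorem ph12_add' (a : G → G → A') (v v' : (G → A) × (I → A)) :
    ph12 j tr υ' β a (v + v') = ph12 j tr υ' β a v + ph12 j tr υ' β a v' := by
  unfold ph12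
  rw [← map_add]
  congr 1
  refine Prod.ext ?_ ?_
  · funext x y z
    simp only [Prod.mk_add_mk, Prod.fst_add, Pi.add_apply, cup12, map_add,
      AddMonoidHom.add_apply]
  · funext i x y
    simp only [Prod.mk_add_mk, Prod.snd_add, Pi.add_apply, cup02, map_add,
      AddMonoidHom.add_apply]

/-- the subgroup of functions that come from cochains of `M'` -/
private def sub12 (S : FSys G) (ρ' : G → M' → M') (hρ : IsAct ρ') (e : A' →+ M') :
    AddSubgroup (G → G → A') where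
  carrier := {c | ∃ x : G → M', Sm1 S x ∧ ∀ a b, d1 ρ' x a b = e (c a b)}
  add_mem' := by
    rintro c c' ⟨x, hx, h1⟩ ⟨x', hx', h1'⟩
    refine ⟨fun a => x a + x' a, inj_Sm1_map2 (· + ·) hx hx', ?_⟩
    intro a b
    simp only [Pi.add_apply, map_add, ← h1, ← h1', d1, hρ.add]
    abel
  zero_mem' := by
    refine ⟨fun _ => 0, ?_, ?_⟩
    · obtain ⟨W, hW⟩ := S.ex
      exact ⟨W, hW, fun _ _ _ => rfl⟩
    · intro a b
      simp [d1, hρ.zero]
  neg_mem' := by
    rintro c ⟨x, hx, h1⟩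
    refine ⟨fun a => -x a, inj_Sm1_map Neg.neg hx, ?_⟩
    intro a b
    simp only [Pi.neg_apply, map_neg, ← h1, d1, hρ.neg]
    abel

/-- the group of pairs -/
private def V12 (S : FSys G) (j : ∀ i, D i →* G) (υ : G → A → A) (hυ : IsAct υ) :
    AddSubgroup ((G → A) × (I → A)) where
  carrier := {v | Z1 S υ v.1 ∧ ∀ i d, v.1 (j i d) = d0 (fun d => υ (j i d)) (v.2 i) d}
  add_mem' := by
    rintro v v' ⟨h, h1⟩ ⟨h', h1'⟩
    refine ⟨Z1.add hυ h h', ?_⟩
    intro i d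
    show v.1 (j i d) + v'.1 (j i d) = υ (j i d) (v.2 i + v'.2 i) - (v.2 i + v'.2 i)
    rw [h1 i d, h1' i d, hυ.add]
    simp only [d0]
    abel
  zero_mem' := by
    refine ⟨⟨?_, ?_⟩, ?_⟩
    · obtain ⟨W, hW⟩ := S.ex
      exact ⟨W, hW, fun _ _ _ => rfl⟩
    · intro a b
      show (0 : A) = 0 + υ a 0
      rw [hυ.zero, add_zero]
    · intro i d
      show (0 : A) = υ (j i d) 0 - 0
      rw [hυ.zero, sub_zero]
  neg_mem' := by
    rintro v ⟨h, h1⟩
    refine ⟨Z1.neg hυ h, ?_⟩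
    intro i d
    show -v.1 (j i d) = υ (j i d) (-v.2 i) - (-v.2 i)
    rw [h1 i d, hυ.neg]
    simp only [d0]
    abel

private theorem orth12 (H : GlobH S SD j χ inv) (htr : IsTr S SD j χ inv tr)
    (hM : Pair S χ ρ ρ' B) (hQ : Pair S χ σ σ' C) {e : A' →+ M'} {p : M' →+ Q'}
    {e' : Q →+ M} {p' : M →+ A}
    (hf' : Filt υ' υ β.flip ρ' ρ B.flip σ' σ C.flip e p e' p') (hP : PP S SD j tr σ σ' C)
    (ω : G → A) (hω : Z1 S υ ω) (z : I → A)
    (hω0 : ∀ i d, ω (j i d) = d0 (fun d => υ (j i d)) (z i) d)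
    (h : ∀ c ∈ sub12 S ρ' hM.act' e, ph12 j tr υ' β c (ω, z) = 0) :
    ∃ (x : G → M) (ζ : I → M), Z1 S ρ x ∧ (∀ i d, x (j i d) = d0 (fun d => ρ (j i d)) (ζ i) d) ∧
      (∀ a, p' (x a) = ω a) ∧ ∀ i, p' (ζ i) = z i := by
  obtain ⟨hω1, hω2⟩ := hω
  obtain ⟨s', hs'⟩ := hf'.psurj'.hasRightInverse
  obtain ⟨s, hs⟩ := hf'.psurj.hasRightInverse
  unfold Function.RightInverse Function.LeftInverse at hs hs'
  have hy : Sm1 S (fun a => s' (ω a)) := inj_Sm1_map s' hω1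
  have h1 : ∀ a b, ∃ t, d1 ρ (fun a => s' (ω a)) a b = e' t := by
    intro a b
    refine hf'.ker' _ ?_
    simp only [d1, map_add, map_sub, hf'.eqv_p', hs', hω2 a b, sub_self]
  choose F' hF' using h1
  have h1' : ∀ i d, ∃ t, s' (ω (j i d)) - d0 (fun d => ρ (j i d)) (s' (z i)) d = e' t := by
    intro i d
    refine hf'.ker' _ ?_
    have h2 := hω0 i d
    simp only [d0] at h2
    simp only [d0, map_sub, hf'.eqv_p', hs', h2, sub_self]
  choose g' hg' using h1'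
  have hZ : Z2 S σ F' := inj_Z2 hf'.einj' hf'.eqv_e' hM.act hM.sm hy hF'
  have hgS : ∀ i, Sm1 (SD i) (g' i) := by
    intro i
    refine inj_Sm1 hf'.einj' ?_
    simp only [← hg']
    exact inj_Sm1_map2 (· - ·) (Sm1.comp (H.jsm i) hy)
      (d0_Z1 (hM.act.comp (j i)) (hM.sm.comp (H.jsm i)) (s' (z i))).1
  have hgF : ∀ i a b, d1 (fun d => σ (j i d)) (g' i) a b = F' (j i a) (j i b) := by
    intro i a b
    refine hf'.einj' ?_
    simp only [d1, map_sub, map_add, ← hf'.eqv_e', ← hg', ← hF']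
    simp only [d0, map_mul, hM.act.sub, hM.act.mul]
    abel
  obtain ⟨X', Y', hX', hFX, hgX⟩ := hP F' g' hZ hgS hgF (fun x' hx' => by
    have hx : Sm1 S (fun a => s (x' a)) := inj_Sm1_map s hx'.1
    have h2 : ∀ a b, ∃ t, d1 ρ' (fun a => s (x' a)) a b = e t := by
      intro a b
      refine hf'.ker _ ?_
      simp only [d1, map_add, map_sub, hf'.eqv_p, hs, hx'.2 a b, sub_self]
    choose Fx hFx using h2
    have h4 := h Fx ⟨fun a => s (x' a), hx, hFx⟩
    have h5 := claimQ H htr hM hQ hf' hy (ζ := fun i => s' (z i)) hx hF' hg' hFx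
    simp only [hs'] at h5
    have h6 : ph12 j tr υ' β Fx (ω, z) = tr (cup12 υ' β (fun a => ω a) Fx,
        fun i => cup02 β (z i) (fun a b => Fx (j i a) (j i b))) := rfl
    rw [← h6, h4] at h5
    simp only [hs] at h5
    exact h5.symm)
  refine ⟨fun a => s' (ω a) - e' (X' a), fun i => s' (z i) - e' (Y' i),
    ⟨inj_Sm1_map2 (· - ·) hy (inj_Sm1_map e' hX'), ?_⟩, ?_, ?_, ?_⟩
  · intro a b
    have h2 := hF' a b
    rw [hFX] at h2
    simp only [d1, map_sub, map_add, ← hf'.eqv_e'] at h2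
    simp only [hM.act.sub]
    rw [← sub_eq_zero] at h2 ⊢
    rw [← neg_eq_zero, ← h2]
    abel
  · intro i d
    have h2 := hg' i d
    rw [hgX i d] at h2
    simp only [d0, map_sub, ← hf'.eqv_e'] at h2
    simp only [d0, hM.act.sub]
    rw [← sub_eq_zero] at h2 ⊢
    rw [← h2]
    abel
  · intro a
    simp only [map_sub, hs', hf'.pe', sub_zero]
  · intro i
    simp only [map_sub, hs', hf'.pe', sub_zero]

theorem stepQ [Finite A] [Finite A'] (H : GlobH S SD j χ inv) (htr : IsTr S SD j χ inv tr)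
    (hA : Pair S χ υ υ' β) (hM : Pair S χ ρ ρ' B)
    (hQ : Pair S χ σ σ' C) {e : A' →+ M'} {p : M' →+ Q'} {e' : Q →+ M} {p' : M →+ A}
    (hf' : Filt υ' υ β.flip ρ' ρ B.flip σ' σ C.flip e p e' p')
    (hfin : Finite {x : G → A // Z1 S υ x}) (hQA : QQ S j tr υ υ' β)
    (hP : PP S SD j tr σ σ' C) (hQQ : QQ S j tr σ σ' C) : QQ S j tr ρ ρ' B := by
  intro F hF h0
  obtain ⟨X, F₁, hX, hF₁, e1, horth⟩ := liftQ H htr hM hQ hf' hQQ F hF h0
  obtain ⟨k, hk, -⟩ := a0_killed (fun x : A × A' => β x.1 x.2)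
  have hkA : ∀ a : A, (2 ^ k) • a = 0 := by
    intro a
    refine hA.nd _ fun a' => ?_
    rw [map_nsmul, AddMonoidHom.nsmul_apply]
    exact hk (a, a')
  have hVfin : Finite (V12 S j υ hA.act) := by
    refine Finite.of_injective
      (fun v => ((⟨v.1.1, v.2.1⟩ : {x : G → A // Z1 S υ x}), (v.1.2 : I → A))) ?_
    intro v v' hvv
    have h1 := congrArg Prod.fst hvv
    have h2 := congrArg Prod.snd hvv
    exact Subtype.ext (Prod.ext (congrArg Subtype.val h1) h2)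
  have hkV : ∀ v : V12 S j υ hA.act, (2 ^ k) • v = 0 := by
    intro v
    apply Subtype.ext
    refine Prod.ext ?_ ?_
    · funext a
      exact hkA (v.1.1 a)
    · funext i
      exact hkA (v.1.2 i)
  obtain ⟨c, hc, hcv⟩ := ann (A := G → G → A') (V := V12 S j υ hA.act) k hkV
    (fun a v => ph12 j tr υ' β a (v.1.1, v.1.2)) (fun a a' v => ph12_add hA.act' a a' _)
    (fun a v v' => ph12_add' a (v.1.1, v.1.2) (v'.1.1, v'.1.2)) (sub12 S ρ' hM.act' e) F₁
    (fun v hv => by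
      obtain ⟨x, ζ, hx, hxz, hxv, hzv⟩ :=
        orth12 H htr hM hQ hf' hP v.1.1 v.2.1 v.1.2 v.2.2 hv
      have h1 := horth x ζ hx hxz
      simp only [hxv, hzv] at h1
      exact h1)
  obtain ⟨x, hx, hc1⟩ := hc
  have hcC : Z2 S υ' c := inj_Z2 hf'.einj hf'.eqv_e hM.act' hM.sm' hx hc1
  have hd : Z2 S υ' (fun a b => F₁ a b + -c a b) := Z2.add hA.act' hF₁ (Z2.neg hA.act' hcC)
  obtain ⟨X₁, hX₁, hFX⟩ := hQA _ hd (fun w z hw hwz => by
      have h3 : ph12 j tr υ' β c (w, z) = ph12 j tr υ' β F₁ (w, z) := hcv ⟨(w, z), hw, hwz⟩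
      have h4 : ph12 j tr υ' β ((F₁ + -c) + c) (w, z) =
        ph12 j tr υ' β (F₁ + -c) (w, z) + ph12 j tr υ' β c (w, z) := ph12_add hA.act' _ _ _
      rw [neg_add_cancel_right, h3] at h4
      exact right_eq_add.1 h4)
  refine ⟨fun a => X a + x a + e (X₁ a),
    inj_Sm1_map2 (· + ·) (inj_Sm1_map2 (· + ·) hX hx) (inj_Sm1_map e hX₁), ?_⟩
  funext a b
  have h1 : F₁ a b = c a b + (X₁ a + υ' a (X₁ b) - X₁ (a * b)) := by
    have h2 : F₁ a b + -c a b = X₁ a + υ' a (X₁ b) - X₁ (a * b) := congrFun (congrFun hFX a) b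
    rw [← h2]
    abel
  rw [e1, h1, map_add, ← hc1, map_sub, map_add]
  simp only [d1, hM.act'.add, hf'.eqv_e]
  abel

end Pool.Agent.Work.MP_787500_nt.KR
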