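import Mathlib
import Pool.Agent.Work.MP_787500_nt.KR.BDefs
import Pool.Agent.Work.MP_787500_nt.KR.T05
import Pool.Agent.Work.MP_787500_nt.KR.T07
import Pool.Agent.Work.MP_787500_nt.KR.T10
import Pool.Agent.Work.MP_787500_nt.KR.T12

/-!
Duality for the modules induced from finite `C`-modules, from duality for the permutation module.
-/

set_option autoImplicit false
set_option linter.unusedSectionVars false

namespace Pool.Agent.Work.MP_787500_nt.KR

open Pool.Agent.Work.MP_787500_nt.GP (A0 half hf IsAct d0 d1 d2 tw cup11 cup21 cup12 cup02)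
open Pool.Agent.Work.MP_787500_nt.PA (TwoSys)

universe u v

theorem indB_flip {G C V : Type*} [Group G] [Group C] [MulAction G V] [Fintype V] (T : Tra G C V)
    (χ : G → ℤ_[2]) {N N' : Type*} [AddCommGroup N] [AddCommGroup N'] (B : N →+ N' →+ A0) :
    (indB T χ B).flip = indB T χ B.flip := rfl

theorem mB_flip : mB.flip = mB := by
  ext
  simp only [AddMonoidHom.comp_apply, AddMonoidHom.flip_apply]
  rw [mB_apply, mB_apply, mul_comm]

theorem syl_sm {G : Type*} [Group G] {F : FSys G} {N₀ C : Subgroup G} (hC : Syl F N₀ C) :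
    (traQ C).Sm (big F N₀) (ofTwo (two (res F C))) := by
  have := hC.normal
  exact traQ_sm hC.opn hC.le hC.pow

/-- the restriction of the character -/
theorem char_res {G : Type*} [Group G] {S : FSys G} {C : Subgroup G} {SC : TwoSys C}
    {χ : G → ℤ_[2]} (hχ : IsChar S χ) (hT : (traQ C).Sm S (ofTwo SC)) :
    PA.IsChar SC (fun c : C => χ c) where
  one := hχ.one
  mul g h := hχ.mul g h
  cont n := by
    obtain ⟨W, hW, h1⟩ := hχ.cont n
    obtain ⟨W', hW', h2⟩ := hT.res W hW
    exact ⟨W', hW', fun g w hw => h1 g w (h2 w hw)⟩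
  odd g := hχ.odd g

theorem gp_pair {G : Type*} [Group G] {SC : TwoSys G} {χ : G → ℤ_[2]} {M M' : Type*}
    [AddCommGroup M] [AddCommGroup M'] {ρ : G → M → M} {ρ' : G → M' → M'} {B : M →+ M' →+ A0}
    (h : GP.Pair SC χ ρ ρ' B) : Pair (ofTwo SC) χ ρ ρ' B :=
  ⟨h.act, h.act', h.sm, h.sm', h.eqv, h.nd, h.nd'⟩

theorem pair_gp {G : Type*} [Group G] {SC : TwoSys G} {χ : G → ℤ_[2]} {M M' : Type*}
    [AddCommGroup M] [AddCommGroup M'] {ρ : G → M → M} {ρ' : G → M' → M'} {B : M →+ M' →+ A0}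
    (h : Pair (ofTwo SC) χ ρ ρ' B) : GP.Pair SC χ ρ ρ' B :=
  ⟨h.act, h.act', h.sm, h.sm', h.eqv, h.nd, h.nd'⟩

section ind

variable {G : Type*} [Group G] {F : FSys G} {N₀ C : Subgroup G} {I : Type*} [Fintype I]
  {D : I → Type*} [∀ i, Group (D i)] {SD : ∀ i, FSys (D i)} {j : ∀ i, D i →* G} {χ : G → ℤ_[2]}
  {inv : ∀ i, (D i → D i → A0) → A0}
  {tr : ((G → G → G → A0) × (∀ i, D i → D i → A0)) →+ A0}

private theorem ind_aux [Fintype (G ⧸ C)] (H : GlobH (big F N₀) SD j χ inv)
    (htr : IsTr (big F N₀) SD j χ inv tr) (hC : Syl F N₀ C)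
    (hA : BaseU (big F N₀) SD j χ inv (ind (traQ C) tr2) (ind (traQ C) tr2)
      (indB (traQ C) χ mB)) (n : ℕ) :
    ∀ (N : Type u) (N' : Type v) [AddCommGroup N] [AddCommGroup N'] [Finite N] [Finite N']
    (τ : C → N → N) (τ' : C → N' → N') (B : N →+ N' →+ A0),
    GP.Pair (two (res F C)) (fun c => χ c) τ τ' B → Nat.card N + Nat.card N' = n →
    PP (big F N₀) SD j tr (ind (traQ C) τ) (ind (traQ C) τ') (indB (traQ C) χ B) ∧
      QQ (big F N₀) j tr (ind (traQ C) τ) (ind (traQ C) τ') (indB (traQ C) χ B) := by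
  have hT := syl_sm hC
  have hχ := char_res H.char hT
  induction n using Nat.strong_induction_on with
  | _ n ih =>
  intro N N' _ _ _ _ τ τ' B h hn
  rcases subsingleton_or_nontrivial N with hs | hne
  · have hs' : Subsingleton N' := by
      refine ⟨fun a b => ?_⟩
      have : ∀ m' : N', m' = 0 := fun m' => h.nd' m' fun m => by
        rw [Subsingleton.elim m 0, map_zero, AddMonoidHom.zero_apply]
      rw [this a, this b]
    obtain ⟨W, hW⟩ := (big F N₀).ex
    constructor
    · intro F g _ _ _ _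
      exact ⟨fun _ => 0, fun _ => 0, ⟨W, hW, fun _ _ _ => rfl⟩, by
        funext a b
        exact Subsingleton.elim _ _, fun i d => Subsingleton.elim _ _⟩
    · intro F _ _
      refine ⟨fun _ => 0, ⟨W, hW, fun _ _ _ => rfl⟩, ?_⟩
      funext a b
      exact Subsingleton.elim _ _
  · have hne' : Nontrivial N' := by
      by_contra hc
      rw [not_nontrivial_iff_subsingleton] at hc
      obtain ⟨m, hm⟩ := exists_ne (0 : N)
      exact hm (h.nd m fun m' => by rw [Subsingleton.elim m' 0, map_zero])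
    have hM := ind_pair H.char hT (gp_pair h)
    constructor
    · obtain ⟨Q, _, Q', _, σ, σ', E, e, p, e', p', _, _, hQ, hF, c1, c2⟩ :=
        GP.exists_filt hχ h hne
      obtain ⟨k1, k2⟩ := ih (Nat.card Q + Nat.card Q') (by omega) Q Q' σ σ' E hQ rfl
      exact stepP H htr hA.pair hM (ind_pair H.char hT (gp_pair hQ)) (ind_filt H.char hF) hA.fin'
        (baseP H htr hA) k1 k2
    · obtain ⟨Q, _, Q', _, σ, σ', E, e, p, e', p', _, _, hQ, hF, c1, c2⟩ :=
        GP.exists_filt hχ h.flip hne'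
      obtain ⟨k1, k2⟩ := ih (Nat.card Q' + Nat.card Q) (by omega) Q' Q σ' σ E.flip hQ.flip rfl
      have hF' : Filt (ind (traQ C) tr2) (ind (traQ C) tr2) (indB (traQ C) χ mB).flip
          (ind (traQ C) τ') (ind (traQ C) τ) (indB (traQ C) χ B).flip (ind (traQ C) σ)
          (ind (traQ C) σ') (indB (traQ C) χ E.flip).flip (e.compLeft (G ⧸ C))
          (p.compLeft (G ⧸ C)) (e'.compLeft (G ⧸ C)) (p'.compLeft (G ⧸ C)) := by
        rw [indB_flip, mB_flip]
        exact ind_filt H.char hF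
      exact stepQ H htr hA.pair hM (ind_pair H.char hT (gp_pair hQ.flip)) hF' hA.fin
        (baseQ H htr hA) k1 k2

theorem ind_duality [Fintype (G ⧸ C)] (H : GlobH (big F N₀) SD j χ inv)
    (htr : IsTr (big F N₀) SD j χ inv tr) (hC : Syl F N₀ C)
    (hA : BaseU (big F N₀) SD j χ inv (ind (traQ C) tr2) (ind (traQ C) tr2)
      (indB (traQ C) χ mB))
    {N : Type u} {N' : Type v} [AddCommGroup N] [AddCommGroup N'] [Finite N] [Finite N']
    {τ : C → N → N} {τ' : C → N' → N'} {B : N →+ N' →+ A0}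
    (h : GP.Pair (two (res F C)) (fun c => χ c) τ τ' B) :
    PP (big F N₀) SD j tr (ind (traQ C) τ) (ind (traQ C) τ') (indB (traQ C) χ B) ∧
      QQ (big F N₀) j tr (ind (traQ C) τ) (ind (traQ C) τ') (indB (traQ C) χ B) :=
  ind_aux H htr hC hA _ N N' τ τ' B h rfl

end ind

end Pool.Agent.Work.MP_787500_nt.KR
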