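import Mathlib
import Pool.Agent.Work.MP_787500_nt.KR.I2_Dual
import Pool.Agent.Work.MP_787500_nt.KR.LD2

/-!
Duality for all finite modules over `G`, from duality for the permutation module of a subgroup of odd index:
a module is a direct summand of the module induced from its restriction.
-/

set_option autoImplicit false
set_option linter.unusedSectionVars false

namespace Pool.Agent.Work.MP_787500_nt.KR

open Pool.Agent.Work.MP_787500_nt.GP (A0 half hf IsAct d0 d1 d2 tw cup11 cup21 cup12 cup02)
open Pool.Agent.Work.MP_787500_nt.PA (TwoSys)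

theorem act_nsmul {G : Type*} [Group G] {M : Type*} [AddCommGroup M] {ρ : G → M → M}
    (h : IsAct ρ) (g : G) (n : ℕ) (m : M) : ρ g (n • m) = n • ρ g m := by
  induction n with
  | zero => simp only [zero_smul, IsAct.zero' h]
  | succ n ih => rw [succ_nsmul, h.add, ih, succ_nsmul]

section summand

variable {G C V : Type*} [Group G] [Group C] [MulAction G V] (T : Tra G C V)
  {M M' : Type*} [AddCommGroup M] [AddCommGroup M'] {ρ : G → M → M} {ρ' : G → M' → M'}
  {B : M →+ M' →+ A0}

theorem cst_add (h : IsAct ρ) (m m' : M) : cst T ρ (m + m') = cst T ρ m + cst T ρ m' := by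
  funext v
  simp only [cst, h.add, Pi.add_apply]

theorem cst_sub (h : IsAct ρ) (m m' : M) : cst T ρ (m - m') = cst T ρ m - cst T ρ m' := by
  funext v
  simp only [cst, IsAct.sub' h, Pi.sub_apply]

theorem cst_zero (h : IsAct ρ) : cst T ρ (0 : M) = 0 := by
  funext v
  simp only [cst, IsAct.zero' h, Pi.zero_apply]

theorem ind_cst (h : IsAct ρ) (g : G) (m : M) :
    ind T (fun c => ρ (T.i c)) g (cst T ρ m) = cst T ρ (ρ g m) := by
  funext v
  simp only [ind, cst]
  rw [← h.mul, ← h.mul]
  congr 1
  have := T.su g v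
  rw [mul_inv_eq_iff_eq_mul, mul_assoc, ← this, inv_mul_cancel_left]

variable [Fintype V]

theorem tsum_add (h : IsAct ρ) (f f' : V → M) : tsum T ρ (f + f') = tsum T ρ f + tsum T ρ f' := by
  simp only [tsum, Pi.add_apply, h.add, Finset.sum_add_distrib]

theorem tsum_sub (h : IsAct ρ) (f f' : V → M) : tsum T ρ (f - f') = tsum T ρ f - tsum T ρ f' := by
  simp only [tsum, Pi.sub_apply, IsAct.sub' h, Finset.sum_sub_distrib]

theorem tsum_ind (h : IsAct ρ) (g : G) (f : V → M) :
    tsum T ρ (ind T (fun c => ρ (T.i c)) g f) = ρ g (tsum T ρ f) := by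
  simp only [tsum, ind]
  rw [IsAct.sum' h, ← sum_shift g (fun v => ρ g (ρ (T.s v) (f v)))]
  exact Finset.sum_congr rfl fun v _ => rho_su T h g v _

theorem tsum_cst (h : IsAct ρ) (m : M) : tsum T ρ (cst T ρ m) = Fintype.card V • m := by
  simp only [tsum, cst, ← h.mul, mul_inv_cancel, h.one, Finset.sum_const, Finset.card_univ]

theorem indB_cst {χ : G → ℤ_[2]} (h : IsAct ρ)
    (heqv : ∀ g m m', B (ρ g m) (ρ' g m') = χ g • B m m') (m : M) (f : V → M') :
    indB T χ B (cst T ρ m) f = B m (tsum T ρ' f) := by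
  rw [indB_apply]
  simp only [tsum, map_sum]
  refine Finset.sum_congr rfl fun v _ => ?_
  rw [← heqv]
  simp only [cst, ← h.mul, mul_inv_cancel, h.one]

theorem indB_cst' {χ : G → ℤ_[2]} (h : IsAct ρ')
    (heqv : ∀ g m m', B (ρ g m) (ρ' g m') = χ g • B m m') (f : V → M) (m : M') :
    indB T χ B f (cst T ρ' m) = B (tsum T ρ f) m := by
  rw [indB_apply]
  simp only [tsum, map_sum, AddMonoidHom.finset_sum_apply]
  refine Finset.sum_congr rfl fun v _ => ?_
  rw [← heqv]
  simp only [cst, ← h.mul, mul_inv_cancel, h.one]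

end summand

section main

variable {G : Type*} [Group G] {F : FSys G} {N₀ C : Subgroup G} {I : Type*} [Fintype I]
  {D : I → Type*} [∀ i, Group (D i)] {SD : ∀ i, FSys (D i)} {j : ∀ i, D i →* G} {χ : G → ℤ_[2]}
  {inv : ∀ i, (D i → D i → A0) → A0}
  {tr : ((G → G → G → A0) × (∀ i, D i → D i → A0)) →+ A0}

theorem pair_res (hC : Syl F N₀ C) {M M' : Type*} [AddCommGroup M] [AddCommGroup M']
    {ρ : G → M → M} {ρ' : G → M' → M'} {B : M →+ M' →+ A0} (h : Pair (big F N₀) χ ρ ρ' B) :
    GP.Pair (two (res F C)) (fun c : C => χ c) (fun c : C => ρ c) (fun c : C => ρ' c) B := by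
  have hT := syl_sm hC
  exact pair_gp (h.comp (j := C.subtype) fun W hW => hT.res W hW)

/-- duality for a module from duality for the module induced from its restriction -/
theorem dual_of_ind {S : FSys G} [Fintype (G ⧸ C)] (hodd : Odd (Fintype.card (G ⧸ C)))
    {M M' : Type*} [AddCommGroup M] [AddCommGroup M'] [Finite M] [Finite M'] {ρ : G → M → M}
    {ρ' : G → M' → M'} {B : M →+ M' →+ A0} (h : Pair S χ ρ ρ' B)
    (hP : PP S SD j tr (ind (traQ C) fun c : C => ρ c) (ind (traQ C) fun c : C => ρ' c)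
      (indB (traQ C) χ B))
    (hQ : QQ S j tr (ind (traQ C) fun c : C => ρ c) (ind (traQ C) fun c : C => ρ' c)
      (indB (traQ C) χ B)) :
    PP S SD j tr ρ ρ' B ∧ QQ S j tr ρ ρ' B := by
  obtain ⟨a, ha, ha'⟩ := odd_cancel h hodd
  set T := traQ C with hTdef
  have e1 : ∀ g m, ind T (fun c : C => ρ c) g (cst T ρ m) = cst T ρ (ρ g m) :=
    fun g m => ind_cst T h.act g m
  have e1' : ∀ g m, ind T (fun c : C => ρ' c) g (cst T ρ' m) = cst T ρ' (ρ' g m) :=
    fun g m => ind_cst T h.act' g m
  have e2 : ∀ g f, tsum T ρ (ind T (fun c : C => ρ c) g f) = ρ g (tsum T ρ f) :=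
    fun g f => tsum_ind T h.act g f
  have e2' : ∀ g f, tsum T ρ' (ind T (fun c : C => ρ' c) g f) = ρ' g (tsum T ρ' f) :=
    fun g f => tsum_ind T h.act' g f
  have r1 : ∀ m : M, a • tsum T ρ (cst T ρ m) = m := by
    intro m
    rw [tsum_cst T h.act, smul_smul]
    exact ha m
  have r1' : ∀ m : M', a • tsum T ρ' (cst T ρ' m) = m := by
    intro m
    rw [tsum_cst T h.act', smul_smul]
    exact ha' m
  constructor
  · intro F g hF hg hd h0
    have k1 : Z2 S (ind T fun c : C => ρ c) (fun a b => cst T ρ (F a b)) := by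
      obtain ⟨⟨W, hW, h1⟩, h2⟩ := hF
      refine ⟨⟨W, hW, fun a b w hw w' hw' => by
        show cst T ρ (F _ _) = cst T ρ (F _ _)
        rw [h1 a b w hw w' hw']⟩, fun x y z => ?_⟩
      simp only [d2, e1]
      rw [← cst_sub T h.act, ← cst_add T h.act, ← cst_sub T h.act]
      have := h2 x y z
      simp only [d2] at this
      rw [this, cst_zero T h.act]
    obtain ⟨X, Y, hX, hXF, hY⟩ := hP (fun a b => cst T ρ (F a b)) (fun i d => cst T ρ (g i d)) k1
      (fun i => by
        obtain ⟨W, hW, h1⟩ := hg i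
        exact ⟨W, hW, fun a w hw => by
          show cst T ρ (g i _) = cst T ρ (g i _)
          rw [h1 a w hw]⟩)
      (fun i x y => by
        simp only [d1, e1]
        rw [← cst_add T h.act, ← cst_sub T h.act, ← hd i x y]
        rfl)
      (fun x hx => by
        have k2 : Z1 S ρ' (fun g => tsum T ρ' (x g)) := by
          obtain ⟨⟨W, hW, h1⟩, h2⟩ := hx
          refine ⟨⟨W, hW, fun a w hw => by
            show tsum T ρ' (x _) = tsum T ρ' (x _)
            rw [h1 a w hw]⟩, fun y z => ?_⟩
          show tsum T ρ' (x _) = tsum T ρ' (x _) + ρ' _ (tsum T ρ' (x _))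
          rw [h2, tsum_add T h.act', e2']
        rw [← h0 _ k2]
        congr 1
        refine Prod.ext ?_ ?_
        · funext x1 x2 x3
          show indB T χ B (cst T ρ (F x1 x2)) (ind T (fun c : C => ρ' c) (x1 * x2) (x x3)) = _
          rw [indB_cst T h.act h.eqv, e2']
          rfl
        · funext i x1 x2
          show indB T χ B (cst T ρ (g i x1)) (ind T (fun c : C => ρ' c) (j i x1) (x (j i x2))) = _
          rw [indB_cst T h.act h.eqv, e2']
          rfl)
    refine ⟨fun b => a • tsum T ρ (X b), fun i => a • tsum T ρ (Y i), ?_, ?_, fun i d => ?_⟩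
    · obtain ⟨W, hW, h1⟩ := hX
      exact ⟨W, hW, fun b w hw => by
        show a • tsum T ρ (X _) = a • tsum T ρ (X _)
        rw [h1 b w hw]⟩
    · funext x y
      have k := congrFun (congrFun hXF x) y
      simp only [d1] at k
      rw [← r1 (F x y), k, tsum_sub T h.act, tsum_add T h.act, e2]
      simp only [d1, act_nsmul h.act, smul_add, smul_sub]
    · have k := hY i d
      simp only [d0] at k
      rw [← r1 (g i d), k, tsum_sub T h.act, tsum_sub T h.act, e2]
      simp only [d0, act_nsmul h.act, smul_sub]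
  · intro F hF h0
    have k1 : Z2 S (ind T fun c : C => ρ' c) (fun a b => cst T ρ' (F a b)) := by
      obtain ⟨⟨W, hW, h1⟩, h2⟩ := hF
      refine ⟨⟨W, hW, fun a b w hw w' hw' => by
        show cst T ρ' (F _ _) = cst T ρ' (F _ _)
        rw [h1 a b w hw w' hw']⟩, fun x y z => ?_⟩
      simp only [d2, e1']
      rw [← cst_sub T h.act', ← cst_add T h.act', ← cst_sub T h.act']
      have := h2 x y z
      simp only [d2] at this
      rw [this, cst_zero T h.act']
    obtain ⟨X, hX, hXF⟩ := hQ (fun a b => cst T ρ' (F a b)) k1 (fun x z hx hz => by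
        have k2 : Z1 S ρ (fun g => tsum T ρ (x g)) := by
          obtain ⟨⟨W, hW, h1⟩, h2⟩ := hx
          refine ⟨⟨W, hW, fun a w hw => by
            show tsum T ρ (x _) = tsum T ρ (x _)
            rw [h1 a w hw]⟩, fun y z => ?_⟩
          show tsum T ρ (x _) = tsum T ρ (x _) + ρ _ (tsum T ρ (x _))
          rw [h2, tsum_add T h.act, e2]
        have k3 : ∀ i d, (fun g => tsum T ρ (x g)) (j i d) =
            d0 (fun d => ρ (j i d)) (tsum T ρ (z i)) d := by
          intro i d
          show tsum T ρ (x (j i d)) = _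
          rw [hz i d]
          simp only [d0]
          rw [tsum_sub T h.act, e2]
        rw [← h0 _ _ k2 k3]
        congr 1
        refine Prod.ext ?_ ?_
        · funext x1 x2 x3
          show indB T χ B (x x1) (ind T (fun c : C => ρ' c) x1 (cst T ρ' (F x2 x3))) = _
          rw [e1', indB_cst' T h.act' h.eqv]
          rfl
        · funext i x1 x2
          show indB T χ B (z i) (cst T ρ' (F (j i x1) (j i x2))) = _
          rw [indB_cst' T h.act' h.eqv]
          rfl)
    refine ⟨fun b => a • tsum T ρ' (X b), ?_, ?_⟩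
    · obtain ⟨W, hW, h1⟩ := hX
      exact ⟨W, hW, fun b w hw => by
        show a • tsum T ρ' (X _) = a • tsum T ρ' (X _)
        rw [h1 b w hw]⟩
    · funext x y
      have k := congrFun (congrFun hXF x) y
      simp only [d1] at k
      rw [← r1' (F x y), k, tsum_sub T h.act', tsum_add T h.act', e2']
      simp only [d1, act_nsmul h.act', smul_add, smul_sub]

universe u v

/-- duality for all finite modules -/
theorem duality_all [Fintype (G ⧸ C)] (H : GlobH (big F N₀) SD j χ inv)
    (htr : IsTr (big F N₀) SD j χ inv tr) (hC : Syl F N₀ C)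
    (hA : BaseU (big F N₀) SD j χ inv (ind (traQ C) tr2) (ind (traQ C) tr2)
      (indB (traQ C) χ mB))
    {M : Type u} {M' : Type v} [AddCommGroup M] [AddCommGroup M'] [Finite M] [Finite M']
    {ρ : G → M → M} {ρ' : G → M' → M'} {B : M →+ M' →+ A0} (h : Pair (big F N₀) χ ρ ρ' B) :
    PP (big F N₀) SD j tr ρ ρ' B ∧ QQ (big F N₀) j tr ρ ρ' B := by
  obtain ⟨k1, k2⟩ := ind_duality H htr hC hA (pair_res hC h)
  have hcard : Fintype.card (G ⧸ C) = C.index := by
    rw [← Nat.card_eq_fintype_card]
    rfl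
  exact dual_of_ind (hcard ▸ hC.odd) h k1 k2

end main

end Pool.Agent.Work.MP_787500_nt.KR
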