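import Mathlib
import Pool.Agent.Work.MP_787500_nt.KR.A1_Cnt
import Pool.Agent.Work.MP_787500_nt.KR.A2_Ind
import Pool.Agent.Work.MP_787500_nt.KR.A3_Sha
import Pool.Agent.Work.MP_787500_nt.KR.A4_Loc
import Pool.Agent.Work.MP_787500_nt.KR.M1_All

/-!
The hypotheses for duality hold for the permutation module of a subgroup of odd index.
-/

set_option autoImplicit false
set_option linter.unusedSectionVars false

namespace Pool.Agent.Work.MP_787500_nt.KR

open Pool.Agent.Work.MP_787500_nt.GP (A0 half hf IsAct d0 d1 d2 tw cup11 cup21 cup12 cup02)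
open Pool.Agent.Work.MP_787500_nt.PA (TwoSys homs)

variable {G : Type*} [Group G] {F : FSys G} {N₀ C : Subgroup G} {I : Type*} [Fintype I]
  {D : I → Type*} [∀ i, Group (D i)] {SD : ∀ i, FSys (D i)} {j : ∀ i, D i →* G} {χ : G → ℤ_[2]}
  {inv : ∀ i, (D i → D i → A0) → A0}

theorem perm_pair [Fintype (G ⧸ C)] (hχ : IsChar (big F N₀) χ) (hC : Syl F N₀ C) :
    Pair (big F N₀) χ prm prm (indB (traQ C) χ mB) :=
  ind_pair hχ (syl_sm hC) (tr2_pair (S := ofTwo (two (res F C))) (χ := fun c : C => χ c)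
    ⟨hχ.one, fun g h => hχ.mul g h, (char_res hχ (syl_sm hC)).cont, fun g => hχ.odd g⟩)

/-- the local groups: `SD i` lies above the system `FD i` of all subgroups, which has `dd i` as degree,
and `N₀` is open -/
structure LocalF (N₀ : Subgroup G) (SD : ∀ i, FSys (D i)) (j : ∀ i, D i →* G)
    (FD : ∀ i, FSys (D i)) (dd : I → ℕ) : Prop where
  le : ∀ i W, (SD i).mem W → ∃ W₁, (FD i).mem W₁ ∧ W₁ ≤ W
  cnt : ∀ i, CountsF (FD i) (dd i)
  opn : ∀ i, ∃ W, (FD i).mem W ∧ ∀ w ∈ W, j i w ∈ N₀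

theorem syl_triv (hC : Syl F N₀ C) {g : G} (hg : g ∈ N₀) (v : G ⧸ C) : g • v = v := by
  have := hC.normal
  conv_lhs => rw [← mk_repQ C v]
  conv_rhs => rw [← mk_repQ C v]
  rw [eq_comm]
  show ((repQ C v : G) : G ⧸ C) = ((g * repQ C v : G) : G ⧸ C)
  rw [QuotientGroup.eq, ← mul_assoc]
  have := this.conj_mem g hg (repQ C v)⁻¹
  rw [inv_inv] at this
  exact hC.le this

variable {FD : ∀ i, FSys (D i)} {dd : I → ℕ}

theorem LocalF.h1_le [Fintype (G ⧸ C)] (hF : LocalF N₀ SD j FD dd)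
    (H : GlobH (big F N₀) SD j χ inv) (hC : Syl F N₀ C) (i : I) :
    h1 (SD i) (prm_act.comp (j i) : IsAct fun d => (prm (j i d) : (G ⧸ C → ZMod 2) → _ → ZMod 2)) ≤
      2 ^ (dd i * C.index + 2 * orb (j i) (G ⧸ C)) := by
  have hV : ∃ W, (FD i).mem W ∧ ∀ w ∈ W, ∀ v : G ⧸ C, j i w • v = v := by
    obtain ⟨W, hW, h1⟩ := hF.opn i
    exact ⟨W, hW, fun w hw v => syl_triv hC (h1 w hw) v⟩
  have := h1_perm (S := SD i) (hF.le i) (hF.cnt i) hV ((perm_pair H.char hC).sm.comp (H.jsm i))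
  exact this

theorem g1_perm [Fintype (G ⧸ C)] (hχ : IsChar (big F N₀) χ) (hC : Syl F N₀ C)
    (hfin : FiniteDimensional (ZMod 2) (homs (two (res F C)) (⊤ : Subgroup C)))
    (hi : InjC F C j) :
    g1 (big F N₀) j (prm_act : IsAct (prm : G → (G ⧸ C → ZMod 2) → _ → ZMod 2)) =
      2 ^ Module.finrank (ZMod 2) (homs (two (res F C)) (⊤ : Subgroup C)) := by
  rw [← h1_tr2 _ hfin, ← h1_ind (syl_sm hC) tr2_act]
  have e : sh1 (big F N₀) j (prm_act : IsAct (prm : G → (G ⧸ C → ZMod 2) → _ → ZMod 2)) =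
      b1s (prm_act : IsAct (prm : G → (G ⧸ C → ZMod 2) → _ → ZMod 2)) := by
    ext x
    constructor
    · rintro ⟨h1, h2⟩
      exact sh1_zero (syl_sm hC) hi h1 h2
    · rintro ⟨m, rfl⟩
      have hp := perm_pair hχ hC
      exact ⟨d0_Z1 prm_act hp.sm m, fun i => ⟨m, fun d => rfl⟩⟩
  show (sh1 (big F N₀) j _).relIndex (z1s (big F N₀) _) = _
  rw [e]
  rfl

theorem perm_fin [Fintype (G ⧸ C)] (hχ : IsChar (big F N₀) χ) (hC : Syl F N₀ C)
    (hfin : FiniteDimensional (ZMod 2) (homs (two (res F C)) (⊤ : Subgroup C))) :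
    Finite {x : G → G ⧸ C → ZMod 2 // Z1 (big F N₀) prm x} :=
  fin_Z1 hC hfin (perm_pair hχ hC)

/-- the inequality from reciprocity -/
theorem perm_le [Fintype (G ⧸ C)] (H : GlobH (big F N₀) SD j χ inv) (hC : Syl F N₀ C)
    (hfin : FiniteDimensional (ZMod 2) (homs (two (res F C)) (⊤ : Subgroup C)))
    (hl : ∀ i, LDual (SD i) (inv i) (fun d => prm (j i d)) (fun d => prm (j i d))
      (indB (traQ C) χ mB))
    (hi : InjC F C j) (hF : LocalF N₀ SD j FD dd) :
    2 * Module.finrank (ZMod 2) (homs (two (res F C)) (⊤ : Subgroup C)) ≤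
      ∑ i, (dd i * C.index + 2 * orb (j i) (G ⧸ C)) := by
  have hp := perm_pair H.char hC
  have hf := perm_fin H.char hC hfin
  have k1 := cnt_le H hp hl hf hf
  have e := g1_perm H.char hC hfin hi
  have e2 := congrArg₂ (· * ·) e e
  simp only [← pow_add] at e2
  replace k1 := le_trans (le_of_eq e2.symm) k1
  have h2 : ∏ i, h1 (SD i) (hp.act.comp (j i)) ≤
      ∏ i, 2 ^ (dd i * C.index + 2 * orb (j i) (G ⧸ C)) :=
    Finset.prod_le_prod' fun i _ => hF.h1_le H hC i
  rw [Finset.prod_pow_eq_pow_sum] at h2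
  have h3 := (Nat.pow_le_pow_iff_right (by norm_num : 1 < 2)).1 (k1.trans h2)
  omega

/-- the hypotheses for duality hold for the permutation module -/
theorem base_perm [Fintype (G ⧸ C)] (H : GlobH (big F N₀) SD j χ inv) (hC : Syl F N₀ C)
    (hfin : FiniteDimensional (ZMod 2) (homs (two (res F C)) (⊤ : Subgroup C)))
    (hl : ∀ i, LDual (SD i) (inv i) (fun d => prm (j i d)) (fun d => prm (j i d))
      (indB (traQ C) χ mB))
    (hi : InjC F C j) (hs : ShaC F C SD j) (hF : LocalF N₀ SD j FD dd)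
    (hc : ∑ i, (dd i * C.index + 2 * orb (j i) (G ⧸ C)) ≤
      2 * Module.finrank (ZMod 2) (homs (two (res F C)) (⊤ : Subgroup C))) :
    BaseU (big F N₀) SD j χ inv (ind (traQ C) tr2) (ind (traQ C) tr2)
      (indB (traQ C) χ mB) where
  pair := perm_pair H.char hC
  fin := perm_fin H.char hC hfin
  fin' := perm_fin H.char hC hfin
  sha := sha_ind (syl_sm hC) H.jsm hs
  sha' := sha_ind (syl_sm hC) H.jsm hs
  mid := by
    have hp := perm_pair H.char hC
    have hf := perm_fin H.char hC hfin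
    refine mid_of_cnt H hp hl hf hf ?_
    have e := g1_perm H.char hC hfin hi
    have e2 := congrArg₂ (· * ·) e e
    simp only [← pow_add] at e2
    refine le_trans ?_ (le_of_eq e2.symm)
    have h2 : ∏ i, h1 (SD i) (hp.act.comp (j i)) ≤
        ∏ i, 2 ^ (dd i * C.index + 2 * orb (j i) (G ⧸ C)) :=
      Finset.prod_le_prod' fun i _ => hF.h1_le H hC i
    rw [Finset.prod_pow_eq_pow_sum] at h2
    exact h2.trans (Nat.pow_le_pow_right (by norm_num) (by omega))
  two i F hF' h0 := (hl i).two F hF' h0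

end Pool.Agent.Work.MP_787500_nt.KR
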