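import Mathlib
import Pool.Agent.Work.MP_787500_nt.KR.BDefs

/-!
# Module LD3 (size M): Sylow subgroups and topological generators

* `exists_syl`: `D ⧸ N₀` is a finite group (`Opn F N₀`, so `N₀.index ≠ 0`). Let `P` be a Sylow 2-subgroup and
  `C` its preimage (`Subgroup.comap (QuotientGroup.mk' N₀)`): `N₀ ≤ C`, `N₀.relIndex C = card P` is a power
  of 2, `C.index = P.index` is odd (`Sylow.card_coprime_index` or `Sylow.not_dvd_index`).
* `exists_gens`: `V := homs (two (res F C)) ⊤` is finite dimensional over `ZMod 2`, so there is a finite set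
  `X₀ ⊆ C` such that `ω ∈ V`, `ω = 0` on `X₀` implies `ω = 0` (the evaluations at elements of `C` separate
  the finitely many elements of `V`: for each of the finitely many `ω ≠ 0` choose an element with `ω ≠ 0`).
  Let `X = X₀ ∪ {repQ C v}`. Let `H` contain a member `W` of `big F N₀` and `X`. Claim `C ≤ H`: let
  `W' = (W ⊓ N₀).subgroupOf C`; it is normal in `C`, of 2-power index (as in `traQ_sm`), and contained in
  `H' = H.subgroupOf C`. If `H' ≠ ⊤`, then in the finite 2-group `C ⧸ W'` the image of `H'` is a proper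
  subgroup, so it is contained in a normal subgroup of index 2 (a maximal subgroup of a finite `p`-group is
  normal of index `p`; Mathlib: `IsPGroup`, `NormalizerCondition`, `Subgroup.NormalizerCondition`... or
  directly: by induction there is a chain; a proper subgroup of a finite 2-group is contained in a
  subgroup of index 2, see `PA/Chain.lean`, theorem `exists_between`), i.e. there is `ω ∈ V`, `ω ≠ 0`, with
  `ω = 0` on `H'`, contradicting `X₀ ⊆ H`. So `C ≤ H`, and `H` contains the representatives: `H = ⊤`.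
-/

set_option autoImplicit false
set_option linter.unusedSectionVars false

namespace Pool.Agent.Work.MP_787500_nt.KR

open Pool.Agent.Work.MP_787500_nt.PA (TwoSys homs LocalType)

variable {D : Type*} [Group D] {F : FSys D} {N₀ C : Subgroup D}

theorem exists_syl (hn : N₀.Normal) (hN : Opn F N₀) : ∃ C : Subgroup D, Syl F N₀ C := by
  classical
  have hp : Fact (Nat.Prime 2) := ⟨Nat.prime_two⟩
  obtain ⟨W, hW, hWN⟩ := hN
  have hi : N₀.index ≠ 0 := fun h0 =>
    F.index hW (Nat.eq_zero_of_zero_dvd (h0 ▸ Subgroup.index_dvd_of_le hWN))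
  have hfin : Finite (D ⧸ N₀) := Nat.finite_of_card_ne_zero hi
  let P : Sylow 2 (D ⧸ N₀) := default
  refine ⟨(P : Subgroup (D ⧸ N₀)).comap (QuotientGroup.mk' N₀), hn, ⟨W, hW, hWN⟩, ?_, ?_, ?_⟩
  · intro g hg
    rw [Subgroup.mem_comap]
    have : QuotientGroup.mk' N₀ g = 1 := (QuotientGroup.eq_one_iff g).2 hg
    rw [this]
    exact one_mem _
  · have e : N₀ = (⊥ : Subgroup (D ⧸ N₀)).comap (QuotientGroup.mk' N₀) := by
      rw [MonoidHom.comap_bot, QuotientGroup.ker_mk']
    have e2 : N₀.relIndex ((P : Subgroup (D ⧸ N₀)).comap (QuotientGroup.mk' N₀)) =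
        Nat.card (P : Subgroup (D ⧸ N₀)) := by
      have e3 : N₀.relIndex ((P : Subgroup (D ⧸ N₀)).comap (QuotientGroup.mk' N₀)) =
          ((⊥ : Subgroup (D ⧸ N₀)).comap (QuotientGroup.mk' N₀)).relIndex
            ((P : Subgroup (D ⧸ N₀)).comap (QuotientGroup.mk' N₀)) :=
        congrArg (fun K : Subgroup D =>
          K.relIndex ((P : Subgroup (D ⧸ N₀)).comap (QuotientGroup.mk' N₀))) e
      rw [e3, Subgroup.relIndex_comap, Subgroup.map_comap_eq_self_of_surjective
        (QuotientGroup.mk'_surjective N₀), Subgroup.relIndex_bot_left]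
    rw [e2]
    exact P.isPGroup'.exists_card_eq
  · rw [Subgroup.index_comap_of_surjective _ (QuotientGroup.mk'_surjective N₀)]
    have := P.not_dvd_index
    rw [← Nat.not_even_iff_odd, even_iff_two_dvd]
    exact this

theorem syl_finite (hC : Syl F N₀ C) : Finite (D ⧸ C) := by
  refine Nat.finite_of_card_ne_zero ?_
  have h := hC.odd
  show C.index ≠ 0
  intro h0
  rw [h0] at h
  exact absurd h (by decide)

theorem exists_gens (hC : Syl F N₀ C)
    (hfin : FiniteDimensional (ZMod 2) (homs (two (res F C)) (⊤ : Subgroup C))) :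
    ∃ X : Finset D, ∀ H : Subgroup D, (∃ W, (big F N₀).mem W ∧ W ≤ H) → (∀ g ∈ X, g ∈ H) →
      H = ⊤ := by
  classical
  have hn := hC.normal
  have hV : Finite (homs (two (res F C)) (⊤ : Subgroup C)) :=
    Module.finite_of_finite (ZMod 2)
  have hVf : Fintype (homs (two (res F C)) (⊤ : Subgroup C)) := Fintype.ofFinite _
  have hQ : Finite (D ⧸ C) := syl_finite hC
  have hQf : Fintype (D ⧸ C) := Fintype.ofFinite _
  have hsel : ∀ ω : homs (two (res F C)) (⊤ : Subgroup C), ∃ x : C,
      (ω : C → ZMod 2) ≠ 0 → (ω : C → ZMod 2) x ≠ 0 := by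
    intro ω
    by_cases h : (ω : C → ZMod 2) = 0
    · exact ⟨1, fun h' => absurd h h'⟩
    · obtain ⟨x, hx⟩ := Function.ne_iff.1 h
      exact ⟨x, fun _ => hx⟩
  choose sel hsel using hsel
  refine ⟨Finset.univ.image (fun ω => (sel ω : D)) ∪ Finset.univ.image (repQ C), ?_⟩
  rintro H ⟨W, hW, hWH⟩ hX
  have hT := traQ_sm (F := F) (C := C) hC.opn hC.le hC.pow
  obtain ⟨W', hW', hWW⟩ := hT.res W hW
  have hopn : PA.Opn (two (res F C)) (H.subgroupOf C) :=
    ⟨W', hW', fun w hw => Subgroup.mem_subgroupOf.2 (hWH (hWW w hw))⟩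
  have hCH : C ≤ H := by
    rw [← Subgroup.subgroupOf_eq_top]
    by_contra hne
    obtain ⟨ω, hω, hω0, hv⟩ := PA.exists_index_two hopn hne
    refine hsel ⟨ω, hω⟩ hω0 (hv _ (Subgroup.mem_subgroupOf.2 (hX _ ?_)))
    exact Finset.mem_union_left _ (Finset.mem_image_of_mem _ (Finset.mem_univ _))
  rw [eq_top_iff]
  intro g _
  have h1 : repQ C ((g : D) : D ⧸ C) ∈ H :=
    hX _ (Finset.mem_union_right _ (Finset.mem_image_of_mem _ (Finset.mem_univ _)))
  have h2 : (repQ C ((g : D) : D ⧸ C))⁻¹ * g ∈ C := by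
    rw [← QuotientGroup.eq, mk_repQ]
  have h3 := H.mul_mem h1 (hCH h2)
  rwa [mul_inv_cancel_left] at h3

end Pool.Agent.Work.MP_787500_nt.KR
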