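import Mathlib
import Pool.Agent.Work.MP_787500_nt.KR.LD2
import Pool.Agent.Work.MP_787500_nt.KR.LD3

/-!
Local duality for all finite modules (`LocD`) from the local hypotheses `LocB`.
-/

set_option autoImplicit false
set_option linter.unusedSectionVars false

namespace Pool.Agent.Work.MP_787500_nt.KR

open Pool.Agent.Work.MP_787500_nt.GP (A0 half hf IsAct d0 d1 d2 tw cup11 cup02)
open Pool.Agent.Work.MP_787500_nt.PA (TwoSys homs LocalType)

universe v

theorem locD_of {D : Type*} [Group D] {F : FSys D} {N₀ : Subgroup D} {χ : D → ℤ_[2]}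
    {inv : (D → D → A0) → A0} (h : LocB F N₀ χ inv) (hn : N₀.Normal) (hN : Opn F N₀) :
    LocD.{v} (big F N₀) χ inv := by
  obtain ⟨C, hC⟩ := exists_syl hn hN
  have hfin := syl_finite hC
  have := Fintype.ofFinite (D ⧸ C)
  have hCo : Opn F C := by
    obtain ⟨W, hW, h1⟩ := hN
    exact ⟨W, hW, h1.trans hC.le⟩
  exact
    { h.toLocH with
      one := fun f hf' h0 => locD_one h hC hf' h0
      gens := exists_gens hC (h.fin C hCo)
      ld := fun hp => ldual_sub h hC hp }

end Pool.Agent.Work.MP_787500_nt.KR
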