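import Mathlib
import Pool.Agent.Work.MP_787500_nt.KR.A6_Base
import Pool.Agent.Work.MP_787500_nt.KR.LD4

/-!
Middle exactness for all finite modules; the hypotheses `ParD` from the hypotheses on classes modulo 2.
-/

set_option autoImplicit false
set_option linter.unusedSectionVars false

namespace Pool.Agent.Work.MP_787500_nt.KR

open Pool.Agent.Work.MP_787500_nt.GP (A0 half hf IsAct d0 d1 d2 tw cup11 cup21 cup12 cup02)
open Pool.Agent.Work.MP_787500_nt.PA (TwoSys homs)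

universe u v

section mid

variable {G : Type*} [Group G] {S : FSys G} {I : Type*} [Fintype I] {D : I → Type*}
  [∀ i, Group (D i)] {SD : ∀ i, FSys (D i)} {j : ∀ i, D i →* G} {χ : G → ℤ_[2]}
  {inv : ∀ i, (D i → D i → A0) → A0}
  {tr : ((G → G → G → A0) × (∀ i, D i → D i → A0)) →+ A0}
  {M M' : Type*} [AddCommGroup M] [AddCommGroup M'] {ρ : G → M → M} {ρ' : G → M' → M'}
  {B : M →+ M' →+ A0}

theorem mid_of_PP (H : GlobH S SD j χ inv) (htr : IsTr S SD j χ inv tr) (h : Pair S χ ρ ρ' B)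
    (hP : PP S SD j tr ρ ρ' B) : Mid S SD j inv ρ ρ' B := by
  intro c hc h0
  obtain ⟨W, hW⟩ := S.ex
  obtain ⟨X, Y, h1, h2, h3⟩ := hP (fun _ _ => 0) c
    ⟨⟨W, hW, fun _ _ _ _ _ _ => rfl⟩, fun a b c => by simp [d2, h.act.zero]⟩ (fun i => (hc i).1)
    (fun i a b => by
      simp only [d1]
      rw [(hc i).2]
      abel)
    (fun x hx => by
      have e : (cup21 ρ' B (fun _ _ => 0) x, fun i =>
          cup11 (fun d => ρ' (j i d)) B (c i) (fun d => x (j i d))) =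
          (d2 (tw χ) (fun _ _ => 0), fun i =>
          cup11 (fun d => ρ' (j i d)) B (c i) (fun d => x (j i d))) := by
        refine Prod.ext ?_ rfl
        funext a b c
        simp [cup21, d2, tw]
      rw [e, htr _ _ ⟨W, hW, fun _ _ _ _ _ _ => rfl⟩ (fun i => by
        simp only [sub_zero]
        exact cup11_Z2 (h.comp (H.jsm i)) (hc i) (hx.comp (H.jsm i)))]
      simp only [sub_zero]
      exact h0 x hx)
  refine ⟨X, Y, ⟨h1, fun a b => ?_⟩, h3⟩
  have := congrFun (congrFun h2 a) b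
  simp only [d1] at this
  have e : X a + ρ a (X b) - X (a * b) = 0 := this.symm
  exact (sub_eq_zero.1 e).symm

end mid

theorem LDual.neg {G : Type*} [Group G] {S : FSys G} {inv : (G → G → A0) → A0} {M M' : Type*}
    [AddCommGroup M] [AddCommGroup M'] {ρ : G → M → M} {ρ' : G → M' → M'} {B : M →+ M' →+ A0}
    (h : LDual S inv ρ ρ' B) : LDual S (fun f => -inv f) ρ ρ' B :=
  ⟨h.fin, h.fin', fun x hx h0 => h.one x hx fun y hy => neg_eq_zero.1 (h0 y hy),
    fun y hy h0 => h.one' y hy fun x hx => neg_eq_zero.1 (h0 x hx),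
    fun F hF h0 => h.two F hF fun z hz => neg_eq_zero.1 (h0 z hz)⟩

section main

variable {G : Type u} [Group G] {F : FSys G} {N₀ C : Subgroup G} {I : Type*} [Fintype I]
  {D : I → Type*} [∀ i, Group (D i)] {SD : ∀ i, FSys (D i)} {j : ∀ i, D i →* G} {χ : G → ℤ_[2]}
  {inv : ∀ i, (D i → D i → A0) → A0} {FD : ∀ i, FSys (D i)} {dd : I → ℕ}

/-- Hypotheses on classes modulo 2. -/
structure HypC (F : FSys G) (N₀ C : Subgroup G) (SD : ∀ i, FSys (D i)) (j : ∀ i, D i →* G)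
    (χ : G → ℤ_[2]) (inv : ∀ i, (D i → D i → A0) → A0) (FD : ∀ i, FSys (D i)) (dd : I → ℕ) :
    Prop where
  glob : GlobH (big F N₀) SD j χ inv
  syl : Syl F N₀ C
  fin : FiniteDimensional (ZMod 2) (homs (two (res F C)) (⊤ : Subgroup C))
  inj : InjC F C j
  sha : ShaC F C SD j
  loc : LocalF N₀ SD j FD dd
  cnt : ∑ i, (dd i * C.index + 2 * orb (j i) (G ⧸ C)) ≤
    2 * Module.finrank (ZMod 2) (homs (two (res F C)) (⊤ : Subgroup C))
  ld : ∀ i {M M' : Type u} [AddCommGroup M] [AddCommGroup M'] [Finite M] [Finite M']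
    {ρ : G → M → M} {ρ' : G → M' → M'} {B : M →+ M' →+ A0}, Pair (big F N₀) χ ρ ρ' B →
    LDual (SD i) (inv i) (fun d => ρ (j i d)) (fun d => ρ' (j i d)) B

theorem HypC.base [Fintype (G ⧸ C)] (h : HypC F N₀ C SD j χ inv FD dd) :
    BaseU (big F N₀) SD j χ inv (ind (traQ C) tr2) (ind (traQ C) tr2)
      (indB (traQ C) χ mB) :=
  base_perm h.glob h.syl h.fin (fun i => h.ld i (perm_pair h.glob.char h.syl)) h.inj h.sha h.loc
    h.cnt

theorem HypC.dual (h : HypC F N₀ C SD j χ inv FD dd)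
    {tr : ((G → G → G → A0) × (∀ i, D i → D i → A0)) →+ A0}
    (htr : IsTr (big F N₀) SD j χ inv tr)
    {M M' : Type*} [AddCommGroup M] [AddCommGroup M'] [Finite M] [Finite M'] {ρ : G → M → M}
    {ρ' : G → M' → M'} {B : M →+ M' →+ A0} (hp : Pair (big F N₀) χ ρ ρ' B) :
    PP (big F N₀) SD j tr ρ ρ' B ∧ QQ (big F N₀) j tr ρ ρ' B := by
  have hfin := syl_finite h.syl
  have := Fintype.ofFinite (G ⧸ C)
  exact duality_all h.glob htr h.syl h.base hp

theorem HypC.mid (h : HypC F N₀ C SD j χ inv FD dd) {M M' : Type*} [AddCommGroup M]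
    [AddCommGroup M'] [Finite M] [Finite M'] {ρ : G → M → M} {ρ' : G → M' → M'}
    {B : M →+ M' →+ A0} (hp : Pair (big F N₀) χ ρ ρ' B) :
    Mid (big F N₀) SD j inv ρ ρ' B := by
  obtain ⟨tr, htr⟩ := exists_tr h.glob
  exact mid_of_PP h.glob htr hp (h.dual htr hp).1

theorem HypC.finZ (h : HypC F N₀ C SD j χ inv FD dd) {M M' : Type*} [AddCommGroup M]
    [AddCommGroup M'] [Finite M] [Finite M'] {ρ : G → M → M} {ρ' : G → M' → M'}
    {B : M →+ M' →+ A0} (hp : Pair (big F N₀) χ ρ ρ' B) :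
    Finite {x : G → M // Z1 (big F N₀) ρ x} := by
  have hfin := syl_finite h.syl
  have := Fintype.ofFinite (G ⧸ C)
  exact fin_Z1 h.syl h.fin hp

end main

section parD

variable {G : Type u} [Group G] {F : FSys G} {N₀ C : Subgroup G} {Φ : Type*} [Fintype Φ]
  {D : Φ → Type*} [∀ w, Group (D w)] {FD : ∀ w, FSys (D w)} {j : ∀ w, D w →* G} {χ : G → ℤ_[2]}
  {inv : ∀ w, (D w → D w → A0) → A0} {κ : G →* G} {Θ : Set (G × G)} {dd : Φ → ℕ}

/-- Hypotheses on classes modulo 2 for the family of places over `Φ × Bool`. -/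
structure HypP (F : FSys G) (N₀ C : Subgroup G) (FD : ∀ w, FSys (D w)) (j : ∀ w, D w →* G)
    (χ : G → ℤ_[2]) (inv : ∀ w, (D w → D w → A0) → A0) (κ : G →* G) (Θ : Set (G × G))
    (dd : Φ → ℕ) : Prop where
  glob : GlobH (big F N₀) (fun i : Φ × Bool => big (FD i.1) (N₀.comap (j i.1)))
    (fun i => if i.2 then κ.comp (j i.1) else j i.1) χ
    (fun i f => if i.2 then -inv i.1 f else inv i.1 f)
  loc : ∀ w, LocB (FD w) (N₀.comap (j w)) (fun d => χ (j w d)) (inv w)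
  cntD : ∀ w, CountsF (FD w) (dd w)
  opn : ∀ w W, F.mem W → ∃ W', (FD w).mem W' ∧ ∀ v ∈ W', j w v ∈ W
  syl : Syl F N₀ C
  fin : FiniteDimensional (ZMod 2) (homs (two (res F C)) (⊤ : Subgroup C))
  inj : InjC F C (fun i : Φ × Bool => if i.2 then κ.comp (j i.1) else j i.1)
  sha : ShaC F C (fun i : Φ × Bool => big (FD i.1) (N₀.comap (j i.1)))
    (fun i => if i.2 then κ.comp (j i.1) else j i.1)
  cnt : ∑ w, (2 * dd w * C.index + 2 * orb (j w) (G ⧸ C) + 2 * orb (κ.comp (j w)) (G ⧸ C)) ≤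
    2 * Module.finrank (ZMod 2) (homs (two (res F C)) (⊤ : Subgroup C))
  kN : ∀ g ∈ N₀, κ g ∈ N₀
  kk : ∀ g, κ (κ g) = g
  ksys : ∀ W, F.mem W → ∃ W', F.mem W' ∧ ∀ v ∈ W', κ v ∈ W
  kchi : ∀ g, χ (κ g) = χ g
  ne : Θ.Nonempty
  tk : ∀ p ∈ Θ, ∀ W, (big F N₀).mem W → p.1 * κ p.1 ∈ W
  fk : ∀ p ∈ Θ, ∀ W, (big F N₀).mem W → (p.1 * κ p.2)⁻¹ * (p.2 * p.1) ∈ W
  alt : ∀ (z : G → G → A0) (u : G → A0), Z2 (big F N₀) (tw χ) z → (∀ g, z g 1 = 0) →
    (∀ g, z 1 g = 0) → Sm1 (big F N₀) u →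
    (∀ a b, z (κ a) (κ b) + z a b = -d1 (tw χ) u a b) → (∀ g, u (κ g) = u g) →
    (∀ p ∈ Θ, u p.1 = z p.1 (κ p.1)) → (∀ p ∈ Θ, u p.2 + z p.2 p.1 = z p.1 (κ p.2)) →
    ∑ w, inv w (fun a b => z (j w a) (j w b)) = 0

theorem comap_rel {A B : Type*} [Group A] [Group B] (f : A →* B) (W : Subgroup B) [W.Normal]
    {N : Subgroup B} {N' : Subgroup A} (h : N'.map f ≤ N) (hk : ∃ k : ℕ, W.relIndex N = 2 ^ k) :
    ∃ k : ℕ, (W.comap f).relIndex N' = 2 ^ k := by
  obtain ⟨k, hk⟩ := hk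
  have e : (W.comap f).relIndex N' ∣ 2 ^ k := by
    rw [← hk, Subgroup.relIndex_comap, ← Subgroup.relIndex_subgroupOf h]
    exact Subgroup.relIndex_dvd_index_of_normal (W.subgroupOf N) _
  obtain ⟨n, -, hn⟩ := (Nat.dvd_prime_pow Nat.prime_two).1 e
  exact ⟨n, hn⟩

theorem HypP.jbig (h : HypP F N₀ C FD j χ inv κ Θ dd) (w : Φ) (W : Subgroup G)
    (hW : (big F N₀).mem W) :
    ∃ W', (big (FD w) (N₀.comap (j w))).mem W' ∧ ∀ v ∈ W', j w v ∈ W := by
  obtain ⟨h1, ⟨W₁, hW₁, h2⟩, hk⟩ := hW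
  obtain ⟨W', hW', h3⟩ := h.opn w W₁ hW₁
  exact ⟨W.comap (j w), ⟨inferInstance, ⟨W', hW', fun v hv => h2 (h3 v hv)⟩,
    comap_rel (j w) W (Subgroup.map_comap_le _ _) hk⟩, fun v hv => hv⟩

theorem HypP.kbig (h : HypP F N₀ C FD j χ inv κ Θ dd) (W : Subgroup G)
    (hW : (big F N₀).mem W) : ∃ W', (big F N₀).mem W' ∧ ∀ v ∈ W', κ v ∈ W := by
  obtain ⟨h1, ⟨W₁, hW₁, h2⟩, hk⟩ := hW
  obtain ⟨W', hW', h3⟩ := h.ksys W₁ hW₁
  exact ⟨W.comap κ, ⟨inferInstance, ⟨W', hW', fun v hv => h2 (h3 v hv)⟩,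
    comap_rel κ W (by
      rintro _ ⟨g, hg, rfl⟩
      exact h.kN g hg) hk⟩, fun v hv => hv⟩

theorem HypP.locD (h : HypP F N₀ C FD j χ inv κ Θ dd) (w : Φ) :
    LocD.{v} (big (FD w) (N₀.comap (j w))) (fun d => χ (j w d)) (inv w) := by
  have := h.syl.normal
  refine locD_of (h.loc w) inferInstance ?_
  obtain ⟨W, hW, h1⟩ := h.syl.opn
  obtain ⟨W', hW', h2⟩ := h.opn w W hW
  exact ⟨W', hW', fun v hv => h1 (h2 v hv)⟩

theorem HypP.hypC (h : HypP F N₀ C FD j χ inv κ Θ dd) :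
    HypC F N₀ C (fun i : Φ × Bool => big (FD i.1) (N₀.comap (j i.1)))
      (fun i => if i.2 then κ.comp (j i.1) else j i.1) χ
      (fun i f => if i.2 then -inv i.1 f else inv i.1 f) (fun i => FD i.1) (fun i => dd i.1) where
  glob := h.glob
  syl := h.syl
  fin := h.fin
  inj := h.inj
  sha := h.sha
  loc :=
    { le := fun i W hW => hW.2.1
      cnt := fun i => h.cntD i.1
      opn := by
        rintro ⟨w, b⟩
        obtain ⟨W, hW, h1⟩ := h.syl.opn
        obtain ⟨W', hW', h2⟩ := h.opn w W hW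
        refine ⟨W', hW', fun v hv => ?_⟩
        cases b
        · exact h1 (h2 v hv)
        · exact h.kN _ (h1 (h2 v hv)) }
  cnt := by
    refine le_trans (le_of_eq ?_) h.cnt
    rw [Fintype.sum_prod_type]
    refine Finset.sum_congr rfl fun w _ => ?_
    rw [Fintype.sum_bool]
    simp only [if_true, Bool.false_eq_true, if_false]
    ring
  ld := by
    rintro ⟨w, b⟩ M M' _ _ _ _ ρ ρ' B hp
    have hp' := hp.comp (h.glob.jsm (w, b))
    cases b
    · exact (h.locD w).ld hp'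
    · have e : (fun d => χ (κ (j w d))) = fun d => χ (j w d) := by
        funext d
        exact h.kchi _
      have hp2 : Pair (big (FD w) (N₀.comap (j w))) (fun d => χ (j w d))
          (fun d => ρ (κ (j w d))) (fun d => ρ' (κ (j w d))) B := by
        rw [← e]
        exact hp'
      exact ((h.locD w).ld hp2).neg

theorem parD_of (h : HypP F N₀ C FD j χ inv κ Θ dd) :
    ParD.{v} (big F N₀) (fun w => big (FD w) (N₀.comap (j w))) j χ inv κ Θ where
  glob := h.glob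
  loc w := h.locD w
  gens := exists_gens h.syl h.fin
  fin hp := h.hypC.finZ hp
  mid hp := h.hypC.mid hp
  jsm w W hW := h.jbig w W hW
  kk := h.kk
  ksys W hW := h.kbig W hW
  kchi := h.kchi
  ne := h.ne
  tk := h.tk
  fk := h.fk
  alt := h.alt

end parD

end Pool.Agent.Work.MP_787500_nt.KR
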