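import Mathlib
import Pool.Agent.Work.MP_787500_nt.KR.FSDefs

/-!
Isotropic submodules of self-dual modules, without symmetry of the pairing of the submodule: definitions.
-/

set_option autoImplicit false
set_option linter.unusedSectionVars false

namespace Pool.Agent.Work.MP_787500_nt.KR.UU

open Pool.Agent.Work.MP_787500_nt.GP (A0 half hf IsAct d0 d1 d2 tw cup11 cup02)

universe v

/-- a smooth `O`-module which is dual to its twist by `κ` -/
structure UD {G : Type*} [Group G] (S : FSys G) (χ : G → ℤ_[2]) (κ : G →* G) (O : Type*)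
    [CommRing O] {U : Type*} [AddCommGroup U] [Module O U] (υ : G → U → U)
    (β : U →+ U →+ A0) : Prop where
  act : IsAct υ
  lin : ∀ g (a : O) u, υ g (a • u) = a • υ g u
  sm : Smooth S υ
  eqv : ∀ g u u', β (υ g u) (υ (κ g) u') = χ g • β u u'
  nd : ∀ u, (∀ u', β u u' = 0) → u = 0
  nd' : ∀ u', (∀ u, β u u' = 0) → u' = 0

section conditions

variable {G : Type*} [Group G] {S : FSys G} {Φ : Type*} {D : Φ → Type*} [∀ w, Group (D w)]
  {χ : G → ℤ_[2]} {κ : G →* G} {Θ : Set (G × G)} {O : Type*} [CommRing O] {M M₁ Mb U : Type*}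
  [AddCommGroup M] [Module O M] [AddCommGroup M₁] [Module O M₁] [AddCommGroup Mb] [Module O Mb]
  [AddCommGroup U] [Module O U] {ρ : G → M → M} {b : M →+ M →+ A0} {ρ₁ : G → M₁ → M₁}
  {ρb : G → Mb → Mb} {bb : Mb →+ Mb →+ A0} {υ : G → U → U} {β : U →+ U →+ A0}
  {e : U →ₗ[O] M₁} {i : M₁ →ₗ[O] M} {π : M₁ →ₗ[O] Mb} {q : M →ₗ[O] U}

/-- the local condition for `M`: cocycles whose image in `M / M₁` is a coboundary -/
def lam0 (h : SDualF S χ κ Θ O ρ b) (hU : UD S χ κ O υ β) (SD : ∀ w, FSys (D w))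
    (j : ∀ w, D w →* G) (q : M →ₗ[O] U) (w : Φ) : Submodule O (D w → M) where
  carrier := {x | Z1 (SD w) (fun d => ρ (j w d)) x ∧
    ∃ u, ∀ d, q (x d) = d0 (fun d => υ (j w d)) u d}
  add_mem' := by
    rintro x y ⟨hx, u, hu⟩ ⟨hy, u', hu'⟩
    refine ⟨(zM (O := O) (SD w) (h.act.comp (j w)) (fun g => h.lin _)).add_mem hx hy, u + u',
      fun d => ?_⟩
    simp only [Pi.add_apply, map_add, hu, hu', d0, hU.act.add]
    abel
  zero_mem' := ⟨(zM (O := O) (SD w) (h.act.comp (j w)) (fun g => h.lin _)).zero_mem, 0,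
    fun d => by simp [d0, hU.act.zero]⟩
  smul_mem' := by
    rintro a x ⟨hx, u, hu⟩
    refine ⟨(zM (O := O) (SD w) (h.act.comp (j w)) (fun g => h.lin _)).smul_mem a hx, a • u,
      fun d => ?_⟩
    simp only [Pi.smul_apply, map_smul, hu, d0, hU.lin, smul_sub]

end conditions

section pair

variable {G : Type*} [Group G] {S : FSys G} {Φ : Type*} [Fintype Φ] {D : Φ → Type*}
  [∀ w, Group (D w)] {SD : ∀ w, FSys (D w)} {j : ∀ w, D w →* G} {χ : G → ℤ_[2]}
  {inv : ∀ w, (D w → D w → A0) → A0} {κ : G →* G} {Θ : Set (G × G)}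
  {O : Type*} [CommRing O] {U : Type*} [AddCommGroup U] [Module O U] {υ : G → U → U}
  {β : U →+ U →+ A0}

/-- the module and its twist form a perfect pair -/
theorem UD.pair (H : ParD.{v} S SD j χ inv κ Θ) (h : UD S χ κ O υ β) :
    Pair S χ υ (fun g => υ (κ g)) β := by
  refine ⟨h.act, h.act.comp κ, h.sm, ?_, h.eqv, h.nd, h.nd'⟩
  obtain ⟨W, hW, h1⟩ := h.sm
  obtain ⟨W', hW', h2⟩ := H.ksys W hW
  exact ⟨W', hW', fun w hw m => h1 _ (h2 w hw) m⟩

theorem UD.locPair (H : ParD.{v} S SD j χ inv κ Θ) (h : UD S χ κ O υ β) (w : Φ) :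
    Pair (SD w) (fun d => χ (j w d)) (fun d => υ (j w d)) (fun d => υ (κ (j w d))) β :=
  (h.pair H).comp (H.jsm w)

end pair

end Pool.Agent.Work.MP_787500_nt.KR.UU
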