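import Mathlib
import Pool.Agent.Work.MP_787500_nt.KR.FUDefs
import Pool.Agent.Work.MP_787500_nt.KR.F06

/-!
# Module FS1 (size M): the orthogonal complements of the two local conditions

Notation of `FSDefs`. Compare `GP/F13_LocStep.lean` (the case where `U` is a line with trivial action).
* `exists_R`: `R = M ⧸ (LinearMap.range (i ∘ₗ e))` (or `AddSubgroup`), `ρR g` the map induced by `ρ g` (it maps
  `i (e u)` to `i (e (υ g u))`), `b₁ m₁ (r m) = b (i m₁) m`: well defined because `b (i m₁) (i (e u)) =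
  b (i (e u)) (i m₁) = β u (q (i m₁)) = 0`. `Pair S χ ρ₁ (fun g => ρR (κ g)) b₁`: `act`, `sm` from `ρ`
  (`iinj`, surjectivity of `r`), `eqv` from `h.eqv`, `nd`: `b (i m₁) m = 0` for all `m`, `h.nd`, `iinj`; `nd'`: let
  `b (i m₁) m = 0` for all `m₁`. By `qker` and `qsurj`, `x ↦ b x m` factors through `q`: there is `φ : U →+ A0` with
  `φ (q x) = b x m`. `β` is perfect, so `φ = β u` for some `u` (`GP.exists_rep`, `GP/F01_Card`), so
  `b x m = β u (q x) = b (i (e u)) x = b x (i (e u))` for all `x`, `m = i (e u)`, `r m = 0`.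
* `perp0`: `⊇`: let `x ∈ lam0 w`: `q (x d) = d0 u`, `u = q m` (`qsurj`), so `x = d0 m + i ∘ x₁`, `x₁` a cocycle for
  `ρ₁ ∘ j w` (`qker`, `iinj`; see `f13_lift`). For `y = d0 m' + i ∘ e ∘ y₁`: `inv (x ∪ y) = inv (i x₁ ∪ i e y₁) = 0`
  (`f06_left`, `f06_right`, `LocH.add`; `b (i x₁) (i e y₁) = 0` pointwise, `inv 0 = 0`). `⊆`: `r ∘ y` is a
  cocycle for `ρR ∘ κ ∘ j w` orthogonal to all cocycles `x₁` for `ρ₁ ∘ j w` (`i ∘ x₁ ∈ lam0`), so it is a
  coboundary: `(H.loc w).ld` for the pair `(M₁, R)` restricted to `D w`, field `one'`. So `r (y d - d0 m d) = 0`.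
* `perp1`: for `x₁` a cocycle for `ρ₁ ∘ j w` and `y ∈ Z1` for `ρb ∘ κ ∘ j w`: choose `y₁ : D w → M₁` smooth with
  `π ∘ y₁ = y` (a section of `π`; `y₁` need not be a cocycle). Then `d ↦ r (i (y₁ d))` is a cocycle for
  `ρR ∘ κ ∘ j w` and `bb (π x₁) (ρb y) = b₁ x₁ (ρR r i y₁)` pointwise, so `y ∈ perpM lam1` iff `r ∘ i ∘ y₁` is
  orthogonal to all `x₁`, iff it is a coboundary `d0 (r m)` (`one'`, and `f06_right` for the converse), iff for all
  `d`: `d0 m d = i (y₁ d + e u)` for some `u`; `π (y₁ d + e u) = y d`.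
-/

set_option autoImplicit false
set_option linter.unusedSectionVars false

namespace Pool.Agent.Work.MP_787500_nt.KR.UU

open Pool.Agent.Work.MP_787500_nt.GP (A0 half hf IsAct d0 d1 d2 tw cup11 cup21 cup12 cup01 cup02)

universe v

variable {G : Type*} [Group G] {S : FSys G} {Φ : Type*} [Fintype Φ] {D : Φ → Type*}
  [∀ w, Group (D w)] {SD : ∀ w, FSys (D w)} {j : ∀ w, D w →* G} {χ : G → ℤ_[2]}
  {inv : ∀ w, (D w → D w → A0) → A0} {κ : G →* G} {Θ : Set (G × G)}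
  {O : Type*} [CommRing O] {M M₁ Mb U : Type v} [AddCommGroup M] [Module O M] [Finite M]
  [AddCommGroup M₁] [Module O M₁] [Finite M₁] [AddCommGroup Mb] [Module O Mb] [Finite Mb]
  [AddCommGroup U] [Module O U] [Finite U] {ρ : G → M → M} {b : M →+ M →+ A0}
  {ρ₁ : G → M₁ → M₁} {ρb : G → Mb → Mb} {bb : Mb →+ Mb →+ A0} {υ : G → U → U}
  {β : U →+ U →+ A0} {e : U →ₗ[O] M₁} {i : M₁ →ₗ[O] M} {π : M₁ →ₗ[O] Mb} {q : M →ₗ[O] U}

section fs1

variable {X : Type*} [Group X] {T : FSys X} {c : X →* G}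

private theorem fs1_iZ (hs : SubU ρ b ρ₁ ρb bb υ β e i π q) {x : X → M₁}
    (hx : Z1 T (fun d => ρ₁ (c d)) x) : Z1 T (fun d => ρ (c d)) (fun d => i (x d)) := by
  obtain ⟨⟨W, hW, h1⟩, h2⟩ := hx
  refine ⟨⟨W, hW, fun g w hw => ?_⟩, fun s t => ?_⟩
  · simp only [h1 g w hw]
  · simp only [h2 s t, map_add, hs.eqi]

private theorem fs1_pZ (hs : SubU ρ b ρ₁ ρb bb υ β e i π q) {x : X → M₁}
    (hx : Z1 T (fun d => ρ₁ (c d)) x) : Z1 T (fun d => ρb (c d)) (fun d => π (x d)) := by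
  obtain ⟨⟨W, hW, h1⟩, h2⟩ := hx
  refine ⟨⟨W, hW, fun g w hw => ?_⟩, fun s t => ?_⟩
  · simp only [h1 g w hw]
  · simp only [h2 s t, map_add, hs.eqp]

private theorem fs1_lift (hs : SubU ρ b ρ₁ ρb bb υ β e i π q) {x : X → M}
    (hx : Z1 T (fun d => ρ (c d)) x) (h0 : ∀ d, q (x d) = 0) :
    ∃ x₁, Z1 T (fun d => ρ₁ (c d)) x₁ ∧ ∀ d, i (x₁ d) = x d := by
  choose x₁ hx₁ using fun d => (hs.qker (x d)).1 (h0 d)
  obtain ⟨⟨W, hW, h1⟩, h2⟩ := hx
  refine ⟨x₁, ⟨⟨W, hW, fun g w hw => hs.iinj ?_⟩, fun s t => hs.iinj ?_⟩, hx₁⟩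
  · rw [hx₁, hx₁, h1 g w hw]
  · rw [hx₁, h2, map_add, hs.eqi, hx₁, hx₁]

private theorem fs1_sm₁ (hs : SubU ρ b ρ₁ ρb bb υ β e i π q) (h : Smooth S ρ) : Smooth S ρ₁ := by
  obtain ⟨W, hW, h1⟩ := h
  refine ⟨W, hW, fun w hw m => hs.iinj ?_⟩
  rw [hs.eqi]
  exact h1 w hw _

end fs1

/-- the quotient `R = M / U` and its pairing with `M₁` -/
theorem exists_R (H : ParD.{v} S SD j χ inv κ Θ) (h : SDualF S χ κ Θ O ρ b)
    (hb : SDualF S χ κ Θ O ρb bb) (hU : UD S χ κ O υ β)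
    (hs : SubU ρ b ρ₁ ρb bb υ β e i π q) :
    ∃ (R : Type v) (_ : AddCommGroup R) (_ : Finite R) (ρR : G → R → R) (r : M →+ R)
      (b₁ : M₁ →+ R →+ A0), Function.Surjective r ∧ (∀ m, r m = 0 ↔ ∃ u, i (e u) = m) ∧
      (∀ g m, r (ρ g m) = ρR g (r m)) ∧ (∀ m₁ m, b₁ m₁ (r m) = b (i m₁) m) ∧
      IsAct ρR ∧ Pair S χ ρ₁ (fun g => ρR (κ g)) b₁ := by
  let K : AddSubgroup M := (i.toAddMonoidHom.comp e.toAddMonoidHom).range
  have hK : ∀ m, m ∈ K ↔ ∃ u, i (e u) = m := fun m => Iff.rfl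
  have hbK : ∀ m₁ u, b (i m₁) (i (e u)) = 0 := by
    intro m₁ u
    rw [h.symm, hs.pairU, (hs.qker _).2 ⟨m₁, rfl⟩, map_zero]
  let r : M →+ M ⧸ K := QuotientAddGroup.mk' K
  have hr : Function.Surjective r := QuotientAddGroup.mk'_surjective K
  have hr0 : ∀ m, r m = 0 ↔ ∃ u, i (e u) = m := fun m => by
    rw [← hK]
    exact QuotientAddGroup.eq_zero_iff m
  let ρR : G → M ⧸ K → M ⧸ K := fun g => QuotientAddGroup.map K K
    (AddMonoidHom.mk' (ρ g) (h.act.add g)) (by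
      rintro m ⟨u, rfl⟩
      refine ⟨υ g u, ?_⟩
      show i (e (υ g u)) = ρ g (i (e u))
      rw [hs.eqe, hs.eqi])
  have hρR : ∀ g m, r (ρ g m) = ρR g (r m) := fun g m => rfl
  let b₁ : M₁ →+ (M ⧸ K) →+ A0 := AddMonoidHom.mk'
    (fun m₁ => QuotientAddGroup.lift K (b (i m₁)) (by
      rintro m ⟨u, rfl⟩
      exact hbK m₁ u))
    (fun m₁ m₁' => by
      ext m
      show b (i (m₁ + m₁')) m = b (i m₁) m + b (i m₁') m
      rw [map_add, map_add]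
      rfl)
  have hb₁ : ∀ m₁ m, b₁ m₁ (r m) = b (i m₁) m := fun m₁ m => rfl
  have hact : IsAct ρR := by
    refine ⟨fun x => ?_, fun g k x => ?_, fun g x x' => ?_⟩
    · obtain ⟨m, rfl⟩ := hr x
      rw [← hρR, h.act.one]
    · obtain ⟨m, rfl⟩ := hr x
      rw [← hρR, h.act.mul, hρR, hρR]
    · obtain ⟨m, rfl⟩ := hr x
      obtain ⟨m', rfl⟩ := hr x'
      rw [← map_add, ← hρR, h.act.add, map_add, hρR, hρR]
  refine ⟨M ⧸ K, inferInstance, inferInstance, ρR, r, b₁, hr, hr0, hρR, hb₁, hact,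
    hs.act₁ h.act, hact.comp κ, fs1_sm₁ hs h.sm, ?_, fun g m₁ x => ?_, fun m₁ hm => ?_,
    fun x hx => ?_⟩
  · obtain ⟨W, hW, h1⟩ := h.sm
    obtain ⟨W', hW', h2⟩ := H.ksys W hW
    refine ⟨W', hW', fun w hw x => ?_⟩
    obtain ⟨m, rfl⟩ := hr x
    show ρR (κ w) (r m) = r m
    rw [← hρR, h1 _ (h2 w hw)]
  · obtain ⟨m, rfl⟩ := hr x
    show b₁ (ρ₁ g m₁) (ρR (κ g) (r m)) = _
    rw [← hρR, hb₁, hs.eqi, h.eqv, hb₁]
  · apply hs.iinj
    rw [map_zero]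
    apply h.nd
    intro m
    rw [← hb₁, hm]
  · obtain ⟨m, rfl⟩ := hr x
    rw [hr0]
    obtain ⟨u, hu⟩ := GP.exists_rep (AddMonoidHom.mk' (fun x => (b x).comp
      (i.toAddMonoidHom.comp e.toAddMonoidHom)) (fun x x' => by
        ext u
        show b (x + x') _ = b x _ + b x' _
        rw [map_add]
        rfl)) (b.flip m) (fun x hx0 => by
        have h1 : q x = 0 := hU.nd' _ fun u => by
          rw [← hs.pairU, h.symm]
          exact hx0 u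
        obtain ⟨m₁, rfl⟩ := (hs.qker x).1 h1
        show b (i m₁) m = 0
        rw [← hb₁, hx])
    refine ⟨u, ?_⟩
    have h2 : i (e u) - m = 0 := by
      apply h.nd
      intro x
      have h3 : b x (i (e u)) = b x m := hu x
      rw [h.symm, map_sub, h3, sub_self]
    exact sub_eq_zero.1 h2

private theorem fs1_zero {X : Type*} [Group X] {T : FSys X} {χ' : X → ℤ_[2]}
    {iv : (X → X → A0) → A0} (L : LocH T χ' iv) {f : X → X → A0} (hf : ∀ s t, f s t = 0) :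
    iv f = 0 := by
  have e : f = d1 (tw χ') (fun _ => 0) := by
    funext s t
    simp [hf, d1, tw]
  rw [e]
  refine L.cob _ ?_
  obtain ⟨W, hW⟩ := T.ex
  exact ⟨W, hW, fun _ _ _ => rfl⟩

theorem perp0 (H : ParD.{v} S SD j χ inv κ Θ) (h : SDualF S χ κ Θ O ρ b)
    (hb : SDualF S χ κ Θ O ρb bb) (hU : UD S χ κ O υ β)
    (hs : SubU ρ b ρ₁ ρb bb υ β e i π q) (w : Φ) (y : D w → M) :
    y ∈ perpM H h w (lam0 h hU SD j q w) ↔
      Z1 (SD w) (fun d => ρ (κ (j w d))) y ∧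
        ∃ m, ∀ d, ∃ u, y d = d0 (fun d => ρ (κ (j w d))) m d + i (e u) := by
  obtain ⟨R, _, _, ρR, r, b₁, hr, hr0, hρR, hb₁, hact, hp⟩ := exists_R H h hb hU hs
  have hpl := hp.comp (SD := SD w) (j := j w) (H.jsm w)
  have hZr : ∀ {y : D w → M}, Z1 (SD w) (fun d => ρ (κ (j w d))) y →
      Z1 (SD w) (fun d => ρR (κ (j w d))) (fun d => r (y d)) := by
    rintro y ⟨⟨W, hW, h1⟩, h2⟩
    refine ⟨⟨W, hW, fun g w hw => ?_⟩, fun s t => ?_⟩
    · simp only [h1 g w hw]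
    · simp only [h2 s t, map_add, hρR]
  have hcup : ∀ (x₁ : D w → M₁) (y : D w → M),
      cup11 (fun d => ρR (κ (j w d))) b₁ x₁ (fun d => r (y d)) =
        cup11 (fun d => ρ (κ (j w d))) b (fun d => i (x₁ d)) y := by
    intro x₁ y
    funext s t
    simp only [cup11]
    rw [← hρR, hb₁]
  constructor
  · intro hy
    refine ⟨hy.1, ?_⟩
    obtain ⟨m', hm'⟩ := local_one' (H.loc w) hpl (hZr hy.1) (fun x₁ hx₁ => by
      rw [hcup]
      have hx : Z1 (SD w) (fun d => ρ (j w d)) (fun d => i (x₁ d)) := fs1_iZ hs hx₁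
      refine hy.2 _ ⟨hx, 0, fun d => ?_⟩ hx
      rw [(hs.qker _).2 ⟨_, rfl⟩]
      show (0 : U) = υ (j w d) 0 - 0
      rw [hU.act.zero, sub_zero])
    obtain ⟨m, rfl⟩ := hr m'
    refine ⟨m, fun d => ?_⟩
    have h1 : r (y d) = ρR (κ (j w d)) (r m) - r m := congrFun hm' d
    have h2 : r (y d - d0 (fun d => ρ (κ (j w d))) m d) = 0 := by
      show r (y d - (ρ (κ (j w d)) m - m)) = 0
      rw [map_sub, map_sub, hρR, h1, sub_self]
    obtain ⟨u, hu⟩ := (hr0 _).1 h2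
    exact ⟨u, by rw [hu, add_sub_cancel]⟩
  · rintro ⟨hy, m, hm⟩
    refine ⟨hy, fun x hx hx1 => ?_⟩
    obtain ⟨-, u₀, hu₀⟩ := hx
    obtain ⟨m₀, rfl⟩ := hs.qsurj u₀
    have hpM := h.locPair H w
    have hZ0 : Z1 (SD w) (fun d => ρ (j w d)) (d0 (fun d => ρ (j w d)) m₀) :=
      d0_Z1 hpM.act hpM.sm m₀
    have hZ1 : Z1 (SD w) (fun d => ρ (j w d))
        (fun d => x d + -d0 (fun d => ρ (j w d)) m₀ d) := Z1.add hpM.act hx1 (Z1.neg hpM.act hZ0)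
    obtain ⟨x₁, hx₁, hx₁'⟩ := fs1_lift (c := j w) hs hZ1 (fun d => by
      rw [map_add, map_neg, hu₀]
      show υ (j w d) (q m₀) - q m₀ + -q (ρ (j w d) m₀ - m₀) = 0
      rw [map_sub, hs.eqq, add_neg_cancel])
    have e1 : cup11 (fun d => ρ (κ (j w d))) b x y = fun s t =>
        cup11 (fun d => ρ (κ (j w d))) b (d0 (fun d => ρ (j w d)) m₀) y s t +
          cup11 (fun d => ρ (κ (j w d))) b (fun d => i (x₁ d)) y s t := by
      funext s t
      simp only [cup11, hx₁']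
      rw [← AddMonoidHom.add_apply, ← map_add]
      congr 2
      abel
    have hx1' : Z1 (SD w) (fun d => ρ (j w d)) (fun d => i (x₁ d)) := fs1_iZ hs hx₁
    rw [e1, (H.loc w).add _ _ (cup11_Z2 hpM hZ0 hy) (cup11_Z2 hpM hx1' hy),
      f06_left (H.loc w).toLocH hpM m₀ hy, zero_add, ← hcup]
    have e2 : (fun d => r (y d)) = d0 (fun d => ρR (κ (j w d))) (r m) := by
      funext d
      obtain ⟨u, hu⟩ := hm d
      show r (y d) = ρR (κ (j w d)) (r m) - r m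
      rw [hu, map_add, (hr0 _).2 ⟨u, rfl⟩, add_zero]
      show r (ρ (κ (j w d)) m - m) = _
      rw [map_sub, hρR]
    rw [e2]
    exact f06_right (H.loc w).toLocH hpl (r m) hx₁

theorem perp1 (H : ParD.{v} S SD j χ inv κ Θ) (h : SDualF S χ κ Θ O ρ b)
    (hb : SDualF S χ κ Θ O ρb bb) (hU : UD S χ κ O υ β)
    (hs : SubU ρ b ρ₁ ρb bb υ β e i π q) (w : Φ) (y : D w → Mb) :
    y ∈ perpM H hb w (lam1 SD j (hs.act₁ h.act) (hs.lin₁ h.lin) π w) ↔
      Z1 (SD w) (fun d => ρb (κ (j w d))) y ∧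
        ∃ m, ∀ d, ∃ m₁, i m₁ = d0 (fun d => ρ (κ (j w d))) m d ∧ π m₁ = y d := by
  obtain ⟨R, _, _, ρR, r, b₁, hr, hr0, hρR, hb₁, hact, hp⟩ := exists_R H h hb hU hs
  have hpl := hp.comp (SD := SD w) (j := j w) (H.jsm w)
  have hpM := h.locPair H w
  constructor
  · intro hy
    refine ⟨hy.1, ?_⟩
    let y₁ : D w → M₁ := fun d => Function.surjInv hs.psurj (y d)
    have hy₁ : ∀ d, π (y₁ d) = y d := fun d => Function.surjInv_eq hs.psurj (y d)
    have hZ : Z1 (SD w) (fun d => ρR (κ (j w d))) (fun d => r (i (y₁ d))) := by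
      obtain ⟨⟨W, hW, h1⟩, h2⟩ := hy.1
      refine ⟨⟨W, hW, fun g w hw => ?_⟩, fun s t => ?_⟩
      · show r (i (Function.surjInv hs.psurj (y (g * w)))) = r (i (Function.surjInv hs.psurj (y g)))
        rw [h1 g w hw]
      · have h3 : π (y₁ (s * t) - (y₁ s + ρ₁ (κ (j w s)) (y₁ t))) = 0 := by
          rw [map_sub, map_add, hs.eqp, hy₁, hy₁, hy₁, h2 s t, sub_self]
        obtain ⟨u, hu⟩ := (hs.pker _).1 h3
        have h4 := (hr0 _).2 ⟨u, rfl⟩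
        rw [hu, map_sub, map_sub, sub_eq_zero, map_add, map_add, hs.eqi, hρR] at h4
        exact h4
    obtain ⟨m', hm'⟩ := local_one' (H.loc w) hpl hZ (fun x₁ hx₁ => by
      have hxb : Z1 (SD w) (fun d => ρb (j w d)) (fun d => π (x₁ d)) := fs1_pZ hs hx₁
      have e1 : cup11 (fun d => ρR (κ (j w d))) b₁ x₁ (fun d => r (i (y₁ d))) =
          cup11 (fun d => ρb (κ (j w d))) bb (fun d => π (x₁ d)) y := by
        funext s t
        simp only [cup11]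
        rw [← hρR, hb₁, ← hs.eqi, ← hs.pair, hs.eqp, hy₁]
      rw [e1]
      exact hy.2 _ ⟨x₁, hx₁, rfl⟩ hxb)
    obtain ⟨m, rfl⟩ := hr m'
    refine ⟨m, fun d => ?_⟩
    have h1 : r (i (y₁ d)) = ρR (κ (j w d)) (r m) - r m := congrFun hm' d
    have h2 : r (i (y₁ d) - d0 (fun d => ρ (κ (j w d))) m d) = 0 := by
      show r (i (y₁ d) - (ρ (κ (j w d)) m - m)) = 0
      rw [map_sub, map_sub, hρR, h1, sub_self]
    obtain ⟨u, hu⟩ := (hr0 _).1 h2
    refine ⟨y₁ d - e u, ?_, ?_⟩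
    · rw [map_sub, hu, sub_sub_cancel]
    · rw [map_sub, hy₁, (hs.pker _).2 ⟨u, rfl⟩, sub_zero]
  · rintro ⟨hy, m, hm⟩
    refine ⟨hy, ?_⟩
    rintro x ⟨x₁, hx₁, rfl⟩ hx
    choose m₁ hm₁ hm₁' using hm
    have e1 : cup11 (fun d => ρb (κ (j w d))) bb ((π.compLeft (D w)) x₁) y =
        cup11 (fun d => ρ (κ (j w d))) b (fun d => i (x₁ d))
          (d0 (fun d => ρ (κ (j w d))) m) := by
      funext s t
      show bb (π (x₁ s)) (ρb (κ (j w s)) (y t)) =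
        b (i (x₁ s)) (ρ (κ (j w s)) (d0 (fun d => ρ (κ (j w d))) m t))
      rw [← hm₁ t, ← hm₁' t, ← hs.eqp, hs.pair, hs.eqi]
    rw [e1]
    exact f06_right (H.loc w).toLocH hpM m (fs1_iZ (c := j w) hs hx₁)

end Pool.Agent.Work.MP_787500_nt.KR.UU
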