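import Mathlib
import Pool.Agent.Work.MP_787500_nt.KR.FUDefs
import Pool.Agent.Work.MP_787500_nt.KR.F06

/-!
# Module FS2 (size M): the local conditions and their numbers of elements

Notation of `FSDefs`; `D w` acts through `j w`. `z1s`, `b1s`: `ADefs`.
* `betw0`: `q (d0 m d) = d0 (q m) d`. `betw1`: the coboundary of `π m₁` is `π ∘ d0 m₁` (`psurj`), `π ∘ x₁` is a cocycle.
* `card_lam0`: `x ∈ lam0 w` iff `q ∘ x` is a coboundary. The map `x ↦ q ∘ x` from `lam0 w` onto `b1s (υ ∘ j w)` (onto: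
  `q ∘ d0 m = d0 (q m)`, `qsurj`) is a homomorphism whose kernel is the group of cocycles with values in `i M₁`, which
  is `≃ z1s` for `ρ₁ ∘ j w` (`qker`, `iinj`; as in `GP/F13_LocStep.lean`, `f13_lift`, `f13_iZ`).
* `card_lam1`: `x₁ ↦ π ∘ x₁` maps `z1s (ρ₁ ∘ j w)` onto `lam1 w` with kernel `≃ z1s (υ ∘ j w)` (`pker`, `einj`).
* `card_lam`: from the two.
All groups are finite (`H.loc w`, field `ld`, for pairs restricted along `H.jsm w`; `z1s (ρ₁ ∘ j w)` embeds into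
`z1s (ρ ∘ j w)` by `i`; `z1s (υ ∘ j w)` by `i ∘ e`).
`sm₁`: smoothness of `ρ₁`.
-/

set_option autoImplicit false
set_option linter.unusedSectionVars false

namespace Pool.Agent.Work.MP_787500_nt.KR.UU

open Pool.Agent.Work.MP_787500_nt.GP (A0 half hf IsAct d0 d1 d2 tw cup11 cup21 cup12 cup01 cup02)

universe v

variable {G : Type*} [Group G] {S : FSys G} {Φ : Type*} [Fintype Φ] {D : Φ → Type*}
  [∀ w, Group (D w)] {SD : ∀ w, FSys (D w)} {j : ∀ w, D w →* G} {χ : G → ℤ_[2]}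
  {inv : ∀ w, (D w → D w → A0) → A0} {κ : G →* G} {Θ : Set (G × G)}
  {O : Type*} [CommRing O] {M M₁ Mb U : Type v} [AddCommGroup M] [Module O M] [Finite M]
  [AddCommGroup M₁] [Module O M₁] [Finite M₁] [AddCommGroup Mb] [Module O Mb] [Finite Mb]
  [AddCommGroup U] [Module O U] [Finite U] {ρ : G → M → M} {b : M →+ M →+ A0}
  {ρ₁ : G → M₁ → M₁} {ρb : G → Mb → Mb} {bb : Mb →+ Mb →+ A0} {υ : G → U → U}
  {β : U →+ U →+ A0} {e : U →ₗ[O] M₁} {i : M₁ →ₗ[O] M} {π : M₁ →ₗ[O] Mb} {q : M →ₗ[O] U}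

private theorem fs2_card_hom {A B : Type*} [AddCommGroup A] [AddCommGroup B] (f : A →+ B) :
    Nat.card A = Nat.card f.ker * Nat.card f.range := by
  rw [AddSubgroup.card_eq_card_quotient_mul_card_addSubgroup f.ker,
    Nat.card_congr (QuotientAddGroup.quotientKerEquivRange f).toEquiv, mul_comm]

section fs2

variable {X : Type*} [Group X] {T : FSys X} {c : X →* G}

private theorem fs2_iZ (hs : SubU ρ b ρ₁ ρb bb υ β e i π q) {x : X → M₁}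
    (hx : Z1 T (fun d => ρ₁ (c d)) x) : Z1 T (fun d => ρ (c d)) (fun d => i (x d)) := by
  obtain ⟨⟨W, hW, h1⟩, h2⟩ := hx
  refine ⟨⟨W, hW, fun g w hw => ?_⟩, fun s t => ?_⟩
  · simp only [h1 g w hw]
  · simp only [h2 s t, map_add, hs.eqi]

private theorem fs2_pZ (hs : SubU ρ b ρ₁ ρb bb υ β e i π q) {x : X → M₁}
    (hx : Z1 T (fun d => ρ₁ (c d)) x) : Z1 T (fun d => ρb (c d)) (fun d => π (x d)) := by
  obtain ⟨⟨W, hW, h1⟩, h2⟩ := hx
  refine ⟨⟨W, hW, fun g w hw => ?_⟩, fun s t => ?_⟩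
  · simp only [h1 g w hw]
  · simp only [h2 s t, map_add, hs.eqp]

private theorem fs2_eZ (hs : SubU ρ b ρ₁ ρb bb υ β e i π q) {x : X → U}
    (hx : Z1 T (fun d => υ (c d)) x) : Z1 T (fun d => ρ₁ (c d)) (fun d => e (x d)) := by
  obtain ⟨⟨W, hW, h1⟩, h2⟩ := hx
  refine ⟨⟨W, hW, fun g w hw => ?_⟩, fun s t => ?_⟩
  · simp only [h1 g w hw]
  · simp only [h2 s t, map_add, hs.eqe]

private theorem fs2_lift (hs : SubU ρ b ρ₁ ρb bb υ β e i π q) {x : X → M}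
    (hx : Z1 T (fun d => ρ (c d)) x) (h0 : ∀ d, q (x d) = 0) :
    ∃ x₁, Z1 T (fun d => ρ₁ (c d)) x₁ ∧ ∀ d, i (x₁ d) = x d := by
  choose x₁ hx₁ using fun d => (hs.qker (x d)).1 (h0 d)
  obtain ⟨⟨W, hW, h1⟩, h2⟩ := hx
  refine ⟨x₁, ⟨⟨W, hW, fun g w hw => hs.iinj ?_⟩, fun s t => hs.iinj ?_⟩, hx₁⟩
  · rw [hx₁, hx₁, h1 g w hw]
  · rw [hx₁, h2, map_add, hs.eqi, hx₁, hx₁]

private theorem fs2_lift' (hs : SubU ρ b ρ₁ ρb bb υ β e i π q) {x : X → M₁}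
    (hx : Z1 T (fun d => ρ₁ (c d)) x) (h0 : ∀ d, π (x d) = 0) :
    ∃ x₁, Z1 T (fun d => υ (c d)) x₁ ∧ ∀ d, e (x₁ d) = x d := by
  choose x₁ hx₁ using fun d => (hs.pker (x d)).1 (h0 d)
  obtain ⟨⟨W, hW, h1⟩, h2⟩ := hx
  refine ⟨x₁, ⟨⟨W, hW, fun g w hw => hs.einj ?_⟩, fun s t => hs.einj ?_⟩, hx₁⟩
  · rw [hx₁, hx₁, h1 g w hw]
  · rw [hx₁, h2, map_add, hs.eqe, hx₁, hx₁]

end fs2

theorem subU_sm₁ (hs : SubU ρ b ρ₁ ρb bb υ β e i π q) (h : Smooth S ρ) : Smooth S ρ₁ := by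
  obtain ⟨W, hW, h1⟩ := h
  refine ⟨W, hW, fun w hw m => hs.iinj ?_⟩
  rw [hs.eqi]
  exact h1 w hw _

theorem betw0 (H : ParD.{v} S SD j χ inv κ Θ) (h : SDualF S χ κ Θ O ρ b)
    (hb : SDualF S χ κ Θ O ρb bb) (hU : UD S χ κ O υ β)
    (hs : SubU ρ b ρ₁ ρb bb υ β e i π q) (w : Φ) :
    Betw (SD w) (fun d => ρ (j w d)) (lam0 h hU SD j q w) := by
  refine ⟨fun m => ⟨d0_Z1 (h.act.comp (j w)) (h.sm.comp (H.jsm w)) m, q m, fun d => ?_⟩,
    fun x hx => hx.1⟩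
  show q (ρ (j w d) m - m) = υ (j w d) (q m) - q m
  rw [map_sub, hs.eqq]

theorem betw1 (H : ParD.{v} S SD j χ inv κ Θ) (h : SDualF S χ κ Θ O ρ b)
    (hb : SDualF S χ κ Θ O ρb bb) (hU : UD S χ κ O υ β)
    (hs : SubU ρ b ρ₁ ρb bb υ β e i π q) (w : Φ) :
    Betw (SD w) (fun d => ρb (j w d)) (lam1 SD j (hs.act₁ h.act) (hs.lin₁ h.lin) π w) := by
  refine ⟨fun m => ?_, fun x hx => ?_⟩
  · obtain ⟨m, rfl⟩ := hs.psurj m
    refine ⟨d0 (fun d => ρ₁ (j w d)) m, d0_Z1 ((hs.act₁ h.act).comp (j w))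
      (((subU_sm₁ hs h.sm)).comp (H.jsm w)) m, ?_⟩
    funext d
    show π (ρ₁ (j w d) m - m) = ρb (j w d) (π m) - π m
    rw [map_sub, hs.eqp]
  · obtain ⟨x₁, hx₁, rfl⟩ := hx
    exact fs2_pZ hs hx₁

theorem card_lam0 (H : ParD.{v} S SD j χ inv κ Θ) (h : SDualF S χ κ Θ O ρ b)
    (hb : SDualF S χ κ Θ O ρb bb) (hU : UD S χ κ O υ β)
    (hs : SubU ρ b ρ₁ ρb bb υ β e i π q) (w : Φ) :
    Nat.card (lam0 h hU SD j q w) =
      Nat.card (z1s (SD w) ((hs.act₁ h.act).comp (j w))) *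
        Nat.card (b1s (hU.act.comp (j w))) := by
  let f : lam0 h hU SD j q w →+ (D w → U) := AddMonoidHom.mk' (fun x d => q (x.1 d))
    (fun x y => by
      funext d
      show q (x.1 d + y.1 d) = q (x.1 d) + q (y.1 d)
      rw [map_add])
  rw [fs2_card_hom f]
  congr 1
  · let g : z1s (SD w) ((hs.act₁ h.act).comp (j w)) → f.ker := fun x =>
      ⟨⟨fun s => i (x.1 s), ⟨fs2_iZ hs x.2, 0, fun d => by
        rw [(hs.qker _).2 ⟨_, rfl⟩]
        show (0 : U) = υ (j w d) 0 - 0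
        rw [hU.act.zero, sub_zero]⟩⟩, by
        rw [AddMonoidHom.mem_ker]
        funext d
        exact (hs.qker _).2 ⟨_, rfl⟩⟩
    refine (Nat.card_congr (Equiv.ofBijective g ⟨?_, ?_⟩)).symm
    · intro x y hxy
      apply Subtype.ext
      funext s
      apply hs.iinj
      exact congrFun (congrArg (fun z => z.1.1) hxy) s
    · rintro ⟨⟨x, hx1, hx2⟩, hx3⟩
      obtain ⟨x₁, h1, h3⟩ := fs2_lift hs hx1 (fun d => congrFun (AddMonoidHom.mem_ker.1 hx3) d)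
      exact ⟨⟨x₁, h1⟩, Subtype.ext (Subtype.ext (funext h3))⟩
  · refine Nat.card_congr (Equiv.subtypeEquivRight fun y => ?_)
    rw [AddMonoidHom.mem_range]
    constructor
    · rintro ⟨⟨x, hx1, u, hu⟩, rfl⟩
      exact ⟨u, funext hu⟩
    · rintro ⟨u, rfl⟩
      obtain ⟨m, rfl⟩ := hs.qsurj u
      refine ⟨⟨_, (betw0 H h hb hU hs w).cob m⟩, ?_⟩
      funext d
      show q (ρ (j w d) m - m) = υ (j w d) (q m) - q m
      rw [map_sub, hs.eqq]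

theorem card_lam1 (H : ParD.{v} S SD j χ inv κ Θ) (h : SDualF S χ κ Θ O ρ b)
    (hb : SDualF S χ κ Θ O ρb bb) (hU : UD S χ κ O υ β)
    (hs : SubU ρ b ρ₁ ρb bb υ β e i π q) (w : Φ) :
    Nat.card (z1s (SD w) ((hs.act₁ h.act).comp (j w))) =
      Nat.card (lam1 SD j (hs.act₁ h.act) (hs.lin₁ h.lin) π w) *
        Nat.card (z1s (SD w) (hU.act.comp (j w))) := by
  let f : z1s (SD w) ((hs.act₁ h.act).comp (j w)) →+ (D w → Mb) :=
    AddMonoidHom.mk' (fun x d => π (x.1 d))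
    (fun x y => by
      funext d
      show π (x.1 d + y.1 d) = π (x.1 d) + π (y.1 d)
      rw [map_add])
  rw [fs2_card_hom f, mul_comm]
  congr 1
  · refine Nat.card_congr (Equiv.subtypeEquivRight fun y => ?_)
    rw [AddMonoidHom.mem_range]
    constructor
    · rintro ⟨⟨x, hx1⟩, rfl⟩
      exact ⟨x, hx1, rfl⟩
    · rintro ⟨x, hx1, rfl⟩
      exact ⟨⟨x, hx1⟩, rfl⟩
  · let g : z1s (SD w) (hU.act.comp (j w)) → f.ker := fun x =>
      ⟨⟨fun s => e (x.1 s), fs2_eZ hs x.2⟩, by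
        rw [AddMonoidHom.mem_ker]
        funext d
        exact (hs.pker _).2 ⟨_, rfl⟩⟩
    refine (Nat.card_congr (Equiv.ofBijective g ⟨?_, ?_⟩)).symm
    · intro x y hxy
      apply Subtype.ext
      funext s
      apply hs.einj
      exact congrFun (congrArg (fun z => z.1.1) hxy) s
    · rintro ⟨⟨x, hx1⟩, hx3⟩
      obtain ⟨x₁, h1, h3⟩ := fs2_lift' hs hx1 (fun d => congrFun (AddMonoidHom.mem_ker.1 hx3) d)
      exact ⟨⟨x₁, h1⟩, Subtype.ext (Subtype.ext (funext h3))⟩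

theorem card_lam (H : ParD.{v} S SD j χ inv κ Θ) (h : SDualF S χ κ Θ O ρ b)
    (hb : SDualF S χ κ Θ O ρb bb) (hU : UD S χ κ O υ β)
    (hs : SubU ρ b ρ₁ ρb bb υ β e i π q) (w : Φ) :
    Nat.card (lam0 h hU SD j q w) =
      Nat.card (lam1 SD j (hs.act₁ h.act) (hs.lin₁ h.lin) π w) *
        (Nat.card (z1s (SD w) (hU.act.comp (j w))) * Nat.card (b1s (hU.act.comp (j w)))) := by
  rw [card_lam0 H h hb hU hs, card_lam1 H h hb hU hs, mul_assoc]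

end Pool.Agent.Work.MP_787500_nt.KR.UU
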