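import Mathlib
import Pool.Agent.Work.MP_787500_nt.KR.FU3_Sel
import Pool.Agent.Work.MP_787500_nt.KR.A1_Cnt
import Pool.Agent.Work.MP_787500_nt.KR.F10

/-!
# Module FS4 (size M): parity passes from the subquotient to `M`

* `card_pow_z1s`: `z1s` for an `O`-linear action is the underlying group of the submodule `zM` (`KR/PDefs`), so
  `GP.card_pow` (`GP/F03_Pow`) applies; `b1s` is the underlying group of a submodule too (`a • d0 m = d0 (a • m)`).
* `h1_id`: `(U, U)` with the actions `υ`, `υ ∘ κ` is a pair (`SDualF.pair`), `Mid` holds for it (`H.mid`), and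
  `cnt_of_mid` (`A1_Cnt`) for the family over `Φ × Bool` gives
  `g1 (υ) * g1 (υ ∘ κ) = ∏ w, h1 (υ ∘ j w) * h1 (υ ∘ κ ∘ j w)` (`Fintype.prod_prod_type`, `Fintype.prod_bool`; local
  duality at `(w, b)`: `(H.loc w).ld` for the pair restricted to `D w` along `j w` or `κ ∘ j w`, with the sign of
  `inv`: `LDual.neg` below; the character of the twisted pair is `χ (κ (j w d)) = χ (j w d)`, `H.kchi`).
  `g1 υ = h1 υ` by `ShU1` (`sh1 = b1s` for the family over `Φ × Bool`). `g1 (υ ∘ κ) = g1 υ`: `x ↦ x ∘ κ` is a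
  bijection of `z1s υ` onto `z1s (υ ∘ κ)` (`H.kk`, `H.ksys`) that maps `sh1` onto `sh1` (`κ` exchanges the places
  `(w, false)` and `(w, true)`, with the same constants `m`). `h1 (υ ∘ κ ∘ j w) = h1 (υ ∘ j w)`: `h1_flip` for
  `hU.locPair`. So `h1 υ ^ 2 = (∏ w, h1 (υ ∘ j w)) ^ 2`.
* `u_step`: let `s Λ = card (selM Λ (perpM Λ)) * ∏ w, card (Λ w)`, a power of `q = card (residue field)`. By `sel_step`
  and `card_lam`, `s lam0 = s lam1 * E`, `E = card (z1s υ) * card (b1s υ) * ∏ w, card (z1s (υ ∘ j w)) * card (b1s (υ ∘ j w))`,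
  and `card z1s = card b1s * h1` (`card_z1s` in `A1_Cnt` for `hU.pair`, `hU.locPair`) with `h1_id` give
  `E = (card (z1s υ) * ∏ w, card (b1s (υ ∘ j w))) ^ 2`, an even power of `q`. So `s lam0` is an even power; for general
  `Λ` use `change` (`KR/F10`) as in `GP/F15_Main.lean` (with `Λ ⊓ lam0`).
-/

set_option autoImplicit false
set_option linter.unusedSectionVars false

namespace Pool.Agent.Work.MP_787500_nt.KR.UU

open Pool.Agent.Work.MP_787500_nt.GP (A0 half hf IsAct d0 d1 d2 tw cup11 cup21 cup12 cup01 cup02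
  EvPow IsPow)
open Pool.Agent.Work.MP_787500_nt.GP (card_pow isPow_mul evPow_mul evPow_sq evPow_cancel q_two_le)

universe v

variable {G : Type*} [Group G] {S : FSys G} {Φ : Type*} [Fintype Φ] {D : Φ → Type*}
  [∀ w, Group (D w)] {SD : ∀ w, FSys (D w)} {j : ∀ w, D w →* G} {χ : G → ℤ_[2]}
  {inv : ∀ w, (D w → D w → A0) → A0} {κ : G →* G} {Θ : Set (G × G)}
  {O : Type*} [CommRing O] {M M₁ Mb U : Type v} [AddCommGroup M] [Module O M] [Finite M]
  [AddCommGroup M₁] [Module O M₁] [Finite M₁] [AddCommGroup Mb] [Module O Mb] [Finite Mb]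
  [AddCommGroup U] [Module O U] [Finite U] {ρ : G → M → M} {b : M →+ M →+ A0}
  {ρ₁ : G → M₁ → M₁} {ρb : G → Mb → Mb} {bb : Mb →+ Mb →+ A0} {υ : G → U → U}
  {β : U →+ U →+ A0} {e : U →ₗ[O] M₁} {i : M₁ →ₗ[O] M} {π : M₁ →ₗ[O] Mb} {q : M →ₗ[O] U}

theorem LDual.neg' {X : Type*} [Group X] {T : FSys X} {iv : (X → X → A0) → A0} {N N' : Type*}
    [AddCommGroup N] [AddCommGroup N'] {σ : X → N → N} {σ' : X → N' → N'} {B : N →+ N' →+ A0}
    (h : LDual T iv σ σ' B) : LDual T (fun f => -iv f) σ σ' B :=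
  ⟨h.fin, h.fin', fun x hx h0 => h.one x hx fun y hy => neg_eq_zero.1 (h0 y hy),
    fun y hy h0 => h.one' y hy fun x hx => neg_eq_zero.1 (h0 x hx),
    fun F hF h0 => h.two F hF fun z hz => neg_eq_zero.1 (h0 z hz)⟩

theorem card_pow_z1s [IsLocalRing O] [Finite (IsLocalRing.ResidueField O)] {X : Type*} [Group X]
    {T : FSys X} {σ : X → U → U} (hact : IsAct σ) (hlin : ∀ g (a : O) u, σ g (a • u) = a • σ g u)
    (hfin : Finite {x : X → U // Z1 T σ x}) :
    IsPow (Nat.card (IsLocalRing.ResidueField O)) (Nat.card (z1s T hact)) ∧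
      IsPow (Nat.card (IsLocalRing.ResidueField O)) (Nat.card (b1s hact)) := by
  constructor
  · have h1 : Finite (zM (O := O) T hact hlin) := hfin
    exact card_pow (O := O) (zM (O := O) T hact hlin)
  · let L : U →ₗ[O] (X → U) :=
      { toFun := fun m => d0 σ m
        map_add' := fun m m' => by
          funext g
          show σ g (m + m') - (m + m') = (σ g m - m) + (σ g m' - m')
          rw [hact.add]
          abel
        map_smul' := fun a m => by
          funext g
          show σ g (a • m) - a • m = a • (σ g m - m)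
          rw [hlin, smul_sub] }
    have h1 : Finite (LinearMap.range L) :=
      Finite.of_surjective L.rangeRestrict L.surjective_rangeRestrict
    have h2 : Nat.card (b1s hact) = Nat.card (LinearMap.range L) := by
      refine Nat.card_congr (Equiv.subtypeEquivRight fun x => ?_)
      constructor
      · rintro ⟨m, rfl⟩
        exact ⟨m, rfl⟩
      · rintro ⟨m, rfl⟩
        exact ⟨m, rfl⟩
    rw [h2]
    exact card_pow (O := O) (LinearMap.range L)

theorem h1_id (H : ParD.{v} S SD j χ inv κ Θ) (hU : UD S χ κ O υ β) (h1' : ShU1 S j κ υ) :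
    h1 S hU.act = ∏ w, h1 (SD w) (hU.act.comp (j w)) := by
  have hp := hU.pair H
  have hact' : IsAct (fun g => υ (κ g)) := hU.act.comp κ
  let jj : ∀ i : Φ × Bool, D i.1 →* G := fun i => if i.2 then κ.comp (j i.1) else j i.1
  have hl : ∀ i : Φ × Bool, LDual (SD i.1)
      ((fun (i : Φ × Bool) (f : D i.1 → D i.1 → A0) => if i.2 then -inv i.1 f else inv i.1 f) i)
      (fun d => υ (jj i d)) (fun d => υ (κ (jj i d))) β := by
    rintro ⟨w, _ | _⟩
    · exact (H.loc w).ld (hU.locPair H w)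
    · have h3 : ∀ W, S.mem W → ∃ W', (SD w).mem W' ∧ ∀ v ∈ W', (κ.comp (j w)) v ∈ W := by
        intro W hW
        obtain ⟨W', hW', h3⟩ := H.ksys W hW
        obtain ⟨W'', hW'', h4⟩ := H.jsm w W' hW'
        exact ⟨W'', hW'', fun v hv => h3 _ (h4 v hv)⟩
      have h4 := hp.comp h3
      have h5 : (fun d => χ ((κ.comp (j w)) d)) = fun d => χ (j w d) := funext fun d => H.kchi _
      rw [h5] at h4
      exact LDual.neg' ((H.loc w).ld h4)
  have hfin : Finite {x : G → U // Z1 S υ x} := H.fin hp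
  have hk : ∀ {x : G → U}, Z1 S υ x → Z1 S (fun g => υ (κ g)) (fun g => x (κ g)) := fun hx =>
    Z1.comp H.ksys hx
  have hk' : ∀ {x : G → U}, Z1 S (fun g => υ (κ g)) x → Z1 S υ (fun g => x (κ g)) := fun hx => by
    have h1 := Z1.comp H.ksys hx
    have e1 : (fun d => (fun g => υ (κ g)) (κ d)) = υ := by
      funext d
      show υ (κ (κ d)) = υ d
      rw [H.kk]
    rw [e1] at h1
    exact h1
  have hfin' : Finite {x : G → U // Z1 S (fun g => υ (κ g)) x} := by
    refine Finite.of_injective (fun x => (⟨fun g => x.1 (κ g), hk' x.2⟩ :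
      {x : G → U // Z1 S υ x})) ?_
    intro x y hxy
    apply Subtype.ext
    funext g
    have h1 := congrFun (congrArg (fun z : {x : G → U // Z1 S υ x} => z.1) hxy) (κ g)
    have h2 : x.1 (κ (κ g)) = y.1 (κ (κ g)) := h1
    rw [H.kk] at h2
    exact h2
  have hc : g1 S jj hp.act * g1 S jj hp.act' =
      ∏ i : Φ × Bool, h1 (SD i.1) (hp.act.comp (jj i)) :=
    cnt_of_mid H.glob hp hl hfin hfin' (H.mid hp)
  have hsm : Smooth S υ := hU.sm
  have hg1 : g1 S jj hp.act = h1 S hU.act := by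
    have h3 : sh1 S jj hp.act = b1s hU.act := by
      ext x
      constructor
      · rintro ⟨hx, hx'⟩
        exact h1' x hx (fun w => hx' (w, false)) (fun w => hx' (w, true))
      · rintro ⟨m, rfl⟩
        exact ⟨d0_Z1 hU.act hsm m, fun i => ⟨m, fun d => rfl⟩⟩
    show (sh1 S jj hp.act).relIndex (z1s S hp.act) = _
    rw [h3]
    rfl
  have hg2 : g1 S jj hp.act' = h1 S hU.act := by
    let ψ : (G → U) →+ (G → U) :=
      { toFun := fun x g => x (κ g)
        map_zero' := rfl
        map_add' := fun x y => rfl }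
    have h3 : b1s hU.act = (sh1 S jj hp.act').comap ψ := by
      ext x
      constructor
      · rintro ⟨m, rfl⟩
        refine ⟨hk (d0_Z1 hU.act hsm m), fun i => ⟨m, fun d => rfl⟩⟩
      · rintro ⟨hx, hx'⟩
        have hx1 : Z1 S υ x := by
          have h4 := hk' hx
          have h5 : (fun g => ψ x (κ g)) = x := by
            funext g
            show x (κ (κ g)) = x g
            rw [H.kk]
          rw [h5] at h4
          exact h4
        refine h1' x hx1 (fun w => ?_) (fun w => ?_)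
        · obtain ⟨m, hm⟩ := hx' (w, true)
          refine ⟨m, fun d => ?_⟩
          have h4 : x (κ (κ (j w d))) = υ (κ (κ (j w d))) m - m := hm d
          rw [H.kk] at h4
          exact h4
        · obtain ⟨m, hm⟩ := hx' (w, false)
          exact ⟨m, hm⟩
    have h4 : z1s S hp.act' = (z1s S hU.act).map ψ := by
      ext x
      constructor
      · intro hx
        refine ⟨fun g => x (κ g), hk' hx, ?_⟩
        funext g
        show x (κ (κ g)) = x g
        rw [H.kk]
      · rintro ⟨y, hy, rfl⟩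
        exact hk hy
    show (sh1 S jj hp.act').relIndex (z1s S hp.act') = (b1s hU.act).relIndex (z1s S hU.act)
    rw [h3, h4, AddSubgroup.relIndex_comap]
  rw [hg1, hg2, Fintype.prod_prod_type] at hc
  have hc2 : ∏ w, ∏ b, h1 (SD (w, b).1) (hp.act.comp (jj (w, b))) =
      (∏ w, h1 (SD w) (hU.act.comp (j w))) * ∏ w, h1 (SD w) (hU.act.comp (j w)) := by
    rw [← Finset.prod_mul_distrib]
    refine Finset.prod_congr rfl fun w _ => ?_
    rw [Fintype.prod_bool]
    congr 1
    exact (h1_flip (H.loc w).toLocH (hU.locPair H w) ((H.loc w).ld (hU.locPair H w))).symm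
  rw [hc2] at hc
  exact Nat.mul_self_inj.1 hc

/-- parity for all local conditions from parity for one -/
theorem par_all [IsLocalRing O] [Finite (IsLocalRing.ResidueField O)]
    (H : ParD.{v} S SD j χ inv κ Θ) (h : SDualF S χ κ Θ O ρ b)
    {Λ₀ : ∀ w, Submodule O (D w → M)} (h₀ : ∀ w, Betw (SD w) (fun d => ρ (j w d)) (Λ₀ w))
    (hP : EvPow (Nat.card (IsLocalRing.ResidueField O))
      (Nat.card (selM h j Λ₀ fun w => perpM H h w (Λ₀ w)) * ∏ w, Nat.card (Λ₀ w)))
    (Λ : ∀ w, Submodule O (D w → M)) (hΛ : ∀ w, Betw (SD w) (fun d => ρ (j w d)) (Λ w)) :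
    EvPow (Nat.card (IsLocalRing.ResidueField O))
      (Nat.card (selM h j Λ fun w => perpM H h w (Λ w)) * ∏ w, Nat.card (Λ w)) := by
  have hpow : ∀ (Λ : ∀ w, Submodule O (D w → M)), (∀ w, Betw (SD w) (fun d => ρ (j w d)) (Λ w)) →
      IsPow (Nat.card (IsLocalRing.ResidueField O))
        (Nat.card (selM h j Λ fun w => perpM H h w (Λ w)) * ∏ w, Nat.card (Λ w)) := by
    intro Λ hΛ
    have h1 := sel_finite H h Λ fun w => perpM H h w (Λ w)
    refine isPow_mul (card_pow (O := O) _) ?_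
    refine Finset.prod_induction _ (IsPow _) (fun a b => isPow_mul) ⟨0, by simp⟩ fun w _ => ?_
    have h2 := betw_finite H h w (hΛ w)
    exact card_pow (O := O) (Λ w)
  have b2 : ∀ w, Betw (SD w) (fun d => ρ (j w d)) (Λ w ⊓ Λ₀ w) := fun w =>
    ⟨fun m => ⟨(hΛ w).cob m, (h₀ w).cob m⟩, fun x hx => (hΛ w).coc x hx.1⟩
  have c1 := change H h (Λ := fun w => Λ w ⊓ Λ₀ w) b2 hΛ fun w => inf_le_left
  have c2 := change H h (Λ := fun w => Λ w ⊓ Λ₀ w) b2 h₀ fun w => inf_le_right
  have p1 := hpow _ b2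
  have p2 := hpow _ hΛ
  have c8 := evPow_cancel q_two_le p1 hP c2
  rw [mul_comm] at c1
  exact evPow_cancel q_two_le p2 c8 c1

theorem u_step [IsLocalRing O] [Finite (IsLocalRing.ResidueField O)]
    (H : ParD.{v} S SD j χ inv κ Θ) (h : SDualF S χ κ Θ O ρ b)
    (hb : SDualF S χ κ Θ O ρb bb) (hU : UD S χ κ O υ β)
    (hs : SubU ρ b ρ₁ ρb bb υ β e i π q) (h1' : ShU1 S j κ υ) (h2' : ShU2 S SD j κ υ)
    (hP : ∀ Λ : ∀ w, Submodule O (D w → Mb), (∀ w, Betw (SD w) (fun d => ρb (j w d)) (Λ w)) →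
      EvPow (Nat.card (IsLocalRing.ResidueField O))
        (Nat.card (selM hb j Λ fun w => perpM H hb w (Λ w)) * ∏ w, Nat.card (Λ w)))
    (Λ : ∀ w, Submodule O (D w → M)) (hΛ : ∀ w, Betw (SD w) (fun d => ρ (j w d)) (Λ w)) :
    EvPow (Nat.card (IsLocalRing.ResidueField O))
      (Nat.card (selM h j Λ fun w => perpM H h w (Λ w)) * ∏ w, Nat.card (Λ w)) := by
  have b0 := fun w => betw0 H h hb hU hs w
  have b1 := fun w => betw1 H h hb hU hs w
  have c3 := hP (lam1 SD j (hs.act₁ h.act) (hs.lin₁ h.lin) π) b1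
  have c4 := sel_step H h hb hU hs h1' h2'
  have c5 : ∏ w, Nat.card (lam0 h hU SD j q w) =
      (∏ w, Nat.card (lam1 SD j (hs.act₁ h.act) (hs.lin₁ h.lin) π w)) *
        ∏ w, (Nat.card (z1s (SD w) (hU.act.comp (j w))) *
          Nat.card (b1s (hU.act.comp (j w)))) := by
    rw [← Finset.prod_mul_distrib]
    exact Finset.prod_congr rfl fun w _ => card_lam H h hb hU hs w
  have c6 : Nat.card (b1s hU.act) * h1 S hU.act = Nat.card (z1s S hU.act) :=
    card_z1s (hU.pair H)
  have c7 : ∀ w, Nat.card (b1s (hU.act.comp (j w))) * h1 (SD w) (hU.act.comp (j w)) =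
      Nat.card (z1s (SD w) (hU.act.comp (j w))) := fun w => card_z1s (hU.locPair H w)
  have c8 := h1_id H hU h1'
  have hf : Finite {x : G → U // Z1 S υ x} := H.fin (hU.pair H)
  have p1 := (card_pow_z1s (O := O) hU.act hU.lin hf).1
  have p2 : ∀ w, IsPow (Nat.card (IsLocalRing.ResidueField O))
      (Nat.card (b1s (hU.act.comp (j w)))) := fun w =>
    (card_pow_z1s (O := O) (T := SD w) (hU.act.comp (j w)) (fun d => hU.lin (j w d))
      ((H.loc w).ld (hU.locPair H w)).fin).2
  have p3 : IsPow (Nat.card (IsLocalRing.ResidueField O))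
      (∏ w, Nat.card (b1s (hU.act.comp (j w)))) :=
    Finset.prod_induction _ (IsPow _) (fun a b => isPow_mul) ⟨0, by simp⟩ fun w _ => p2 w
  have c9 : Nat.card (z1s S hU.act) * Nat.card (b1s hU.act) *
      ∏ w, (Nat.card (z1s (SD w) (hU.act.comp (j w))) * Nat.card (b1s (hU.act.comp (j w)))) =
      (Nat.card (z1s S hU.act) * ∏ w, Nat.card (b1s (hU.act.comp (j w)))) ^ 2 := by
    have d1 : ∏ w, (Nat.card (z1s (SD w) (hU.act.comp (j w))) *
        Nat.card (b1s (hU.act.comp (j w)))) = h1 S hU.act *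
          (∏ w, Nat.card (b1s (hU.act.comp (j w)))) ^ 2 := by
      rw [c8, ← Finset.prod_pow, ← Finset.prod_mul_distrib]
      refine Finset.prod_congr rfl fun w _ => ?_
      rw [← c7]
      ring
    rw [d1]
    calc _ = Nat.card (z1s S hU.act) * (Nat.card (b1s hU.act) * h1 S hU.act) *
          (∏ w, Nat.card (b1s (hU.act.comp (j w)))) ^ 2 := by ring
      _ = _ := by
        rw [c6]
        ring
  refine par_all H h b0 ?_ Λ hΛ
  rw [c4, c5]
  have c10 := evPow_mul c3 (evPow_sq (isPow_mul p1 p3))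
  rw [← c9] at c10
  convert c10 using 1
  ring

end Pool.Agent.Work.MP_787500_nt.KR.UU
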