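import Mathlib
import Pool.Agent.Work.MP_787500_nt.KR.A2_Ind
import Pool.Agent.Work.MP_787500_nt.KR.A3_Sha
import Pool.Agent.Work.MP_787500_nt.KR.FSDefs

/-!
A plane over the field with two elements with transitive action on the nonzero vectors is a direct
summand of the permutation module; Sha of the plane.
-/

set_option autoImplicit false
set_option linter.unusedSectionVars false

namespace Pool.Agent.Work.MP_787500_nt.KR

open Pool.Agent.Work.MP_787500_nt.GP (A0 half hf IsAct d0 d1 d2 tw cup11 cup02)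
open Pool.Agent.Work.MP_787500_nt.PA (TwoSys homs LocalType)

section retract

variable {G : Type*} [Group G] {S : FSys G} {A U : Type*} [AddCommGroup A] [AddCommGroup U]
  {σ : G → A → A} {υ : G → U → U} {α : U →+ A} {γ : A →+ U}

/-- Sha in degree 1 of a direct summand -/
theorem sh1_retract {I : Type*} {D : I → Type*} [∀ i, Group (D i)] {j : ∀ i, D i →* G}
    (hγ : ∀ u, γ (α u) = u) (eα : ∀ g u, α (υ g u) = σ g (α u))
    (eγ : ∀ g a, γ (σ g a) = υ g (γ a))
    (hA : ∀ x, Z1 S σ x → (∀ i, ∃ m, ∀ d, x (j i d) = d0 (fun d => σ (j i d)) m d) →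
      ∃ m, x = d0 σ m)
    {x : G → U} (hx : Z1 S υ x)
    (h0 : ∀ i, ∃ m, ∀ d, x (j i d) = d0 (fun d => υ (j i d)) m d) : ∃ m, x = d0 υ m := by
  obtain ⟨a, ha⟩ := hA (fun g => α (x g)) (by
      obtain ⟨⟨W, hW, h1⟩, h2⟩ := hx
      refine ⟨⟨W, hW, fun g w hw => ?_⟩, fun s t => ?_⟩
      · show α _ = α _
        rw [h1 g w hw]
      · show α _ = α _ + σ _ (α _)
        rw [h2, map_add, eα]) (fun i => by
      obtain ⟨m, hm⟩ := h0 i
      refine ⟨α m, fun d => ?_⟩
      show α _ = _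
      rw [hm]
      simp only [d0, map_sub, eα])
  refine ⟨γ a, ?_⟩
  funext g
  have := congrFun ha g
  simp only [d0] at this ⊢
  rw [← hγ (x g), this, map_sub, eγ]

/-- Sha in degree 2 of a direct summand -/
theorem sha2_retract {I : Type*} [Fintype I] {D : I → Type*} [∀ i, Group (D i)]
    {SD : ∀ i, FSys (D i)} {j : ∀ i, D i →* G}
    (hγ : ∀ u, γ (α u) = u) (eα : ∀ g u, α (υ g u) = σ g (α u))
    (eγ : ∀ g a, γ (σ g a) = υ g (γ a)) (hA : Sha2 S SD j σ) : Sha2 S SD j υ := by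
  intro F hF h0
  obtain ⟨X, hX, hXF⟩ := hA (fun a b => α (F a b)) (by
      obtain ⟨⟨W, hW, h1⟩, h2⟩ := hF
      refine ⟨⟨W, hW, fun g g' w hw w' hw' => ?_⟩, fun x y z => ?_⟩
      · show α _ = α _
        rw [h1 g g' w hw w' hw']
      · have := h2 x y z
        simp only [d2] at this ⊢
        rw [← eα, ← map_sub, ← map_add, ← map_sub, this, map_zero]) (fun i => by
      obtain ⟨x, hx, h1⟩ := h0 i
      obtain ⟨W, hW, h2⟩ := hx
      refine ⟨fun d => α (x d), ⟨W, hW, fun g w hw => ?_⟩, ?_⟩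
      · show α _ = α _
        rw [h2 g w hw]
      · funext a b
        have := congrFun (congrFun h1 a) b
        simp only [d1] at this ⊢
        rw [this, map_sub, map_add, eα])
  obtain ⟨W, hW, h2⟩ := hX
  refine ⟨fun g => γ (X g), ⟨W, hW, fun g w hw => ?_⟩, ?_⟩
  · show γ _ = γ _
    rw [h2 g w hw]
  · funext a b
    have := congrFun (congrFun hXF a) b
    simp only [d1] at this ⊢
    rw [← hγ (F a b), this, map_sub, map_add, eγ]

end retract

/-! ## The canonical form of a group of order 4 -/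

section klein

variable {U : Type*} [AddCommGroup U]

open scoped Classical in
/-- the canonical form: 1 for different nonzero elements -/
noncomputable def kf (u v : U) : ZMod 2 := if u ≠ 0 ∧ v ≠ 0 ∧ u ≠ v then 1 else 0

theorem kf_equiv {U' : Type*} [AddCommGroup U'] (e : U ≃+ U') (u v : U) :
    kf (e u) (e v) = kf u v := by
  unfold kf
  congr 1
  simp only [ne_eq, EmbeddingLike.map_eq_zero_iff, EmbeddingLike.apply_eq_iff_eq]

theorem kf_add_U2 : ∀ u u' v : U2, kf (u + u') v = kf u v + kf u' v := by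
  unfold kf
  intro u u' v
  split_ifs <;> revert u u' v <;> decide

/-- a computable version -/
def kg (u v : U2) : ZMod 2 := if u ≠ 0 ∧ v ≠ 0 ∧ u ≠ v then 1 else 0

theorem kf_eq_kg (u v : U2) : kf u v = kg u v := by
  unfold kf kg
  split_ifs <;> rfl

theorem kg_sum : ∀ u : U2, ∑ w : U2, (if kg u w = 1 then w else 0) = u := by decide

theorem kf_sum_U2 (u : U2) : ∑ w : U2, (if kf u w = 1 then w else 0) = u := by
  simp only [kf_eq_kg]
  exact kg_sum u

/-- a group of order 4 killed by 2 is a plane -/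
theorem exists_equiv_U2 (h4 : Nat.card U = 4) (h2 : ∀ u : U, u + u = 0) :
    Nonempty (U ≃+ U2) := by
  letI : Module (ZMod 2) U := AddCommGroup.zmodModule (n := 2) fun x => by rw [two_nsmul, h2]
  have hf : Finite U := Nat.finite_of_card_ne_zero (by omega)
  have h1 : Nat.card U = Nat.card (ZMod 2) ^ Module.finrank (ZMod 2) U :=
    Module.natCard_eq_pow_finrank
  rw [h4, Nat.card_zmod] at h1
  have h3 : Module.finrank (ZMod 2) U = 2 := (Nat.pow_right_injective le_rfl (by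
    show 2 ^ Module.finrank (ZMod 2) U = 2 ^ 2
    omega))
  have h5 : Module.finrank (ZMod 2) U2 = 2 := by
    rw [Module.finrank_prod]
    simp
  exact ⟨(LinearEquiv.ofFinrankEq U U2 (h3.trans h5.symm)).toAddEquiv⟩

theorem kf_add (h4 : Nat.card U = 4) (h2 : ∀ u : U, u + u = 0) (u u' v : U) :
    kf (u + u') v = kf u v + kf u' v := by
  obtain ⟨e⟩ := exists_equiv_U2 h4 h2
  rw [← kf_equiv e, ← kf_equiv e, ← kf_equiv e, map_add, kf_add_U2]

theorem kf_zero_right (u : U) : kf u 0 = 0 := by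
  unfold kf
  simp

theorem kf_sum [Fintype U] (h4 : Nat.card U = 4) (h2 : ∀ u : U, u + u = 0) (u : U) :
    ∑ w : U, (if kf u w = 1 then w else 0) = u := by
  obtain ⟨e⟩ := exists_equiv_U2 h4 h2
  apply e.injective
  rw [map_sum, ← kf_sum_U2 (e u)]
  refine Fintype.sum_equiv e.toEquiv _ _ fun w => ?_
  simp only [AddEquiv.toEquiv_eq_coe, AddEquiv.coe_toEquiv, kf_equiv]
  split_ifs
  · rfl
  · exact map_zero e

end klein

/-! ## The summand -/

section main

variable {G : Type*} [Group G] {C : Subgroup G} {U : Type*} [AddCommGroup U] {υ : G → U → U}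
  {u₀ : U}

/-- the vector of a coset -/
noncomputable def vecQ (C : Subgroup G) (υ : G → U → U) (u₀ : U) (v : G ⧸ C) : U :=
  υ (repQ C v) u₀

theorem vecQ_smul (h : IsAct υ) (hC : ∀ g, g ∈ C ↔ υ g u₀ = u₀) (g : G) (v : G ⧸ C) :
    vecQ C υ u₀ (g • v) = υ g (vecQ C υ u₀ v) := by
  have h1 := (hC _).1 (repQ_mem C g (g • v))
  rw [inv_smul_smul, mul_assoc, h.mul] at h1
  unfold vecQ
  conv_lhs => rw [← h1]
  rw [← h.mul, mul_inv_cancel, h.one, h.mul]

theorem vecQ_inj (h : IsAct υ) (hC : ∀ g, g ∈ C ↔ υ g u₀ = u₀) :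
    Function.Injective (vecQ C υ u₀) := by
  intro v v' hv
  unfold vecQ at hv
  rw [← mk_repQ C v, ← mk_repQ C v', QuotientGroup.eq, hC, h.mul, ← hv, ← h.mul, inv_mul_cancel,
    h.one]

theorem vecQ_ne (h : IsAct υ) (h0 : u₀ ≠ 0) (v : G ⧸ C) : vecQ C υ u₀ v ≠ 0 := by
  intro h1
  apply h0
  have h2 : υ (repQ C v)⁻¹ (vecQ C υ u₀ v) = υ (repQ C v)⁻¹ 0 := by rw [h1]
  rwa [h.zero, vecQ, ← h.mul, inv_mul_cancel, h.one] at h2

theorem vecQ_surj (h : IsAct υ) (hC : ∀ g, g ∈ C ↔ υ g u₀ = u₀)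
    (ht : ∀ u : U, u ≠ 0 → ∃ g, υ g u₀ = u) (u : U) (hu : u ≠ 0) : ∃ v, vecQ C υ u₀ v = u := by
  obtain ⟨g, hg⟩ := ht u hu
  refine ⟨g • ((1 : G) : G ⧸ C), ?_⟩
  rw [vecQ_smul h hC, vecQ, repQ_one, h.one, hg]

theorem kf_act (h : IsAct υ) (g : G) (u v : U) : kf (υ g u) (υ g v) = kf u v := by
  let e : U ≃+ U :=
    { toFun := υ g
      invFun := υ g⁻¹
      left_inv := fun x => by rw [← h.mul, inv_mul_cancel, h.one]
      right_inv := fun x => by rw [← h.mul, mul_inv_cancel, h.one]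
      map_add' := h.add g }
  exact kf_equiv e u v

theorem if_add (x : U) (hx : x + x = 0) : ∀ a b : ZMod 2,
    (if a + b = 1 then x else 0) = (if a = 1 then x else 0) + (if b = 1 then x else 0) := by
  intro a b
  have h : ∀ a : ZMod 2, a = 0 ∨ a = 1 := by decide
  have e1 : (1 : ZMod 2) + 1 ≠ 1 := by decide
  have e0 : (0 : ZMod 2) ≠ 1 := by decide
  rcases h a with rfl | rfl <;> rcases h b with rfl | rfl <;> simp [hx]

theorem exists_summand [Finite (G ⧸ C)] (h : IsAct υ) (h4 : Nat.card U = 4)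
    (h2 : ∀ u : U, u + u = 0) (h0 : u₀ ≠ 0) (hC : ∀ g, g ∈ C ↔ υ g u₀ = u₀)
    (ht : ∀ u : U, u ≠ 0 → ∃ g, υ g u₀ = u) :
    ∃ (α : U →+ (G ⧸ C → ZMod 2)) (γ : (G ⧸ C → ZMod 2) →+ U), (∀ u, γ (α u) = u) ∧
      (∀ g u, α (υ g u) = prm g (α u)) ∧ ∀ g a, γ (prm g a) = υ g (γ a) := by
  classical
  have := Fintype.ofFinite (G ⧸ C)
  have hf : Finite U := Nat.finite_of_card_ne_zero (by omega)
  have := Fintype.ofFinite U
  refine ⟨AddMonoidHom.mk' (fun u v => kf u (vecQ C υ u₀ v)) fun u u' => ?_,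
    AddMonoidHom.mk' (fun f => ∑ v, if f v = 1 then vecQ C υ u₀ v else 0) fun f f' => ?_,
    fun u => ?_, fun g u => ?_, fun g f => ?_⟩
  · funext v
    exact kf_add h4 h2 u u' _
  · rw [← Finset.sum_add_distrib]
    exact Finset.sum_congr rfl fun v _ => if_add _ (h2 _) _ _
  · show ∑ v, (if kf u (vecQ C υ u₀ v) = 1 then vecQ C υ u₀ v else 0) = u
    conv_rhs => rw [← kf_sum h4 h2 u]
    rw [← Finset.sum_image (s := Finset.univ) (g := vecQ C υ u₀)
      (f := fun w => if kf u w = 1 then w else 0) fun v _ v' _ hv => vecQ_inj h hC hv]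
    refine Finset.sum_subset (Finset.subset_univ _) fun w _ hw => ?_
    by_cases hw0 : w = 0
    · subst hw0
      exact ite_self _
    · obtain ⟨v, hv⟩ := vecQ_surj h hC ht w hw0
      exact absurd (Finset.mem_image.2 ⟨v, Finset.mem_univ v, hv⟩) hw
  · funext v
    show kf (υ g u) (vecQ C υ u₀ v) = kf u (vecQ C υ u₀ (g⁻¹ • v))
    rw [vecQ_smul h hC, ← kf_act h g u, ← h.mul, mul_inv_cancel, h.one]
  · show ∑ v, (if f (g⁻¹ • v) = 1 then vecQ C υ u₀ v else 0) =
      υ g (∑ v, if f v = 1 then vecQ C υ u₀ v else 0)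
    rw [IsAct.sum' h, ← sum_shift g (fun v => υ g (if f v = 1 then vecQ C υ u₀ v else 0))]
    refine Finset.sum_congr rfl fun v _ => ?_
    split_ifs
    · rw [← vecQ_smul h hC, smul_inv_smul]
    · rw [h.zero]

end main

/-- Sha of the plane -/
theorem shU_of_trans {G : Type*} [Group G] {F : FSys G} {N₀ C : Subgroup G} {Φ : Type*}
    [Fintype Φ] {D : Φ → Type*} [∀ w, Group (D w)] {SD : ∀ w, FSys (D w)} {j : ∀ w, D w →* G}
    {κ : G →* G} [Finite (G ⧸ C)]
    (hT : (traQ C).Sm (big F N₀) (ofTwo (two (res F C))))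
    (hj : ∀ (i : Φ × Bool) W, (big F N₀).mem W → ∃ W', (SD i.1).mem W' ∧
      ∀ w ∈ W', (if i.2 then κ.comp (j i.1) else j i.1) w ∈ W)
    (hi : InjC F C (fun i : Φ × Bool => if i.2 then κ.comp (j i.1) else j i.1))
    (hs : ShaC F C (fun i : Φ × Bool => SD i.1)
      (fun i => if i.2 then κ.comp (j i.1) else j i.1))
    {U : Type*} [AddCommGroup U] {υ : G → U → U} {u₀ : U} (h : IsAct υ) (h4 : Nat.card U = 4)
    (h2 : ∀ u : U, u + u = 0) (h0 : u₀ ≠ 0) (hC : ∀ g, g ∈ C ↔ υ g u₀ = u₀)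
    (ht : ∀ u : U, u ≠ 0 → ∃ g, υ g u₀ = u) :
    ShU1 (big F N₀) j κ υ ∧ ShU2 (big F N₀) SD j κ υ := by
  obtain ⟨α, γ, hγ, eα, eγ⟩ := exists_summand h h4 h2 h0 hC ht
  constructor
  · intro x hx k1 k2
    refine sh1_retract (j := fun i : Φ × Bool => if i.2 then κ.comp (j i.1) else j i.1) hγ eα eγ
      (fun y hy => sh1_zero hT hi hy) hx ?_
    rintro ⟨w, _ | _⟩
    · exact k1 w
    · exact k2 w
  · intro F' hF k1 k2
    refine sha2_retract (SD := fun i : Φ × Bool => SD i.1)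
      (j := fun i : Φ × Bool => if i.2 then κ.comp (j i.1) else j i.1) hγ eα eγ
      (sha_ind hT hj hs) F' hF ?_
    rintro ⟨w, _ | _⟩
    · exact k1 w
    · exact k2 w

end Pool.Agent.Work.MP_787500_nt.KR
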