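import Mathlib
import Pool.Agent.Work.MP_787500_nt.KR.FU4_Par
import Pool.Agent.Work.MP_787500_nt.KR.US_Sum
import Pool.Agent.Work.MP_787500_nt.KR.I2_Dual
import Pool.Agent.Work.MP_787500_nt.GP.F03_Pow

/-!
Modules over a group with a normal subgroup `N₀` such that `G / N₀` is cyclic of order 3 or symmetric of
degree 3: definitions (fixed, do not change).
-/

set_option autoImplicit false
set_option linter.unusedSectionVars false

namespace Pool.Agent.Work.MP_787500_nt.KR

open Pool.Agent.Work.MP_787500_nt.GP (A0 half hf IsAct d0 d1 d2 tw cup11 cup02 EvPow IsPow)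

/-- `C` has index 3 and `N₀` is the kernel of the action on the cosets of `C` -/
structure Tri {G : Type*} [Group G] (F : FSys G) (N₀ C : Subgroup G) : Prop extends
    Syl F N₀ C where
  three : C.index = 3
  core : ∀ g : G, (∀ v : G ⧸ C, g • v = v) → g ∈ N₀

/-- a plane over the field with two elements with transitive action on the nonzero vectors -/
structure IsPl {G U : Type*} [Group G] [AddCommGroup U] (υ : G → U → U) : Prop where
  act : IsAct υ
  four : Nat.card U = 4
  two : ∀ u : U, u + u = 0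
  tr : ∀ u u' : U, u ≠ 0 → u' ≠ 0 → ∃ g, υ g u = u'

/-- a line over the field with two elements with trivial action -/
structure IsLn {G U : Type*} [Group G] [AddCommGroup U] (υ : G → U → U) : Prop where
  triv : ∀ g u, υ g u = u
  card : Nat.card U = 2

/-- the submodule `U` is a line or a plane -/
def IsSm {G O M : Type*} [Group G] [CommRing O] [AddCommGroup M] [Module O M] (ρ : G → M → M)
    (U : Submodule O M) : Prop :=
  (Nat.card U = 2 ∧ ∀ g, ∀ u ∈ U, ρ g u = u) ∨
    (Nat.card U = 4 ∧ ∀ u ∈ U, ∀ u' ∈ U, u ≠ 0 → u' ≠ 0 → ∃ g, ρ g u = u')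

section perp

variable {G : Type*} [Group G] {S : FSys G} {χ : G → ℤ_[2]} {κ : G →* G} {Θ : Set (G × G)}
  {O : Type*} [CommRing O] {M : Type*} [AddCommGroup M] [Module O M] {ρ : G → M → M}
  {b : M →+ M →+ A0}

/-- the orthogonal complement of a submodule -/
def orth (h : SDualF S χ κ Θ O ρ b) (U : Submodule O M) : Submodule O M where
  carrier := {m | ∀ u ∈ U, b u m = 0}
  add_mem' := fun hx hy u hu => by rw [map_add, hx u hu, hy u hu, add_zero]
  zero_mem' := fun u _ => map_zero _
  smul_mem' := fun a m hm u hu => by rw [← h.bal]; exact hm _ (U.smul_mem a hu)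

theorem mem_orth {h : SDualF S χ κ Θ O ρ b} {U : Submodule O M} {m : M} :
    m ∈ orth h U ↔ ∀ u ∈ U, b u m = 0 := Iff.rfl

theorem orth_stable (h : SDualF S χ κ Θ O ρ b) (kk : ∀ g, κ (κ g) = g) {U : Submodule O M}
    (hst : ∀ g, ∀ u ∈ U, ρ g u ∈ U) (g : G) {m : M} (hm : m ∈ orth h U) : ρ g m ∈ orth h U := by
  intro u hu
  have h1 := h.eqv (κ g) (ρ (κ g)⁻¹ u) m
  rw [kk, ← h.act.mul, mul_inv_cancel, h.act.one, hm _ (hst _ _ hu), smul_zero] at h1
  exact h1

end perp

end Pool.Agent.Work.MP_787500_nt.KR
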