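import Mathlib
import Pool.Agent.Work.MP_787500_nt.KR.L05

/-!
# Module L06_LATMAX (size M): a maximal integral stable lattice

Let `T₀` be as in `exists_lat0` (stable, integral, bounded, open) and
`T₀' = {x | ‖bil b x y‖ ≤ 1 for all y ∈ T₀}`. Since `b` is invertible and `T₀` contains a ball, `T₀'` is
bounded (each coordinate of `b x` is `bil` of `x` with a multiple of a basis vector of `T₀`, up to a
constant; `x = b⁻¹ (b x)`). A submodule `T` with `T₀ ≤ T` which is integral satisfies `T ≤ T₀'`. `T₀' ⧸ T₀` is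
finite (`T₀` is open, `T₀'` bounded, `E ^ n` proper: total boundedness). So among the finitely many
submodules `T` with `T₀ ≤ T ≤ T₀'` that are stable and integral there is a maximal one; it is maximal
among all stable integral `T' ≥ T` as well. It is bounded (inside `T₀'`) and open (contains `T₀`).
-/

set_option autoImplicit false
set_option linter.unusedSectionVars false

namespace Pool.Agent.Work.MP_787500_nt.KR

open Pool.Agent.Work.MP_787500_nt.GP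

open Matrix
open Pool.Agent.Work.MP_787500_nt.PA (toE)

variable {E : Type*} [NormedField E] [NormedAlgebra ℚ_[2] E] [FiniteDimensional ℚ_[2] E] {n : ℕ}
variable {G : Type*} [Group G] {S : FSys G}

private theorem l06_mat (A : Matrix (Fin n) (Fin n) E) :
    ∃ C : ℝ, 0 ≤ C ∧ ∀ x, ‖A *ᵥ x‖ ≤ C * ‖x‖ := by
  refine ⟨n * ∑ i, ∑ j, ‖A i j‖, ?_, fun x => Gn.mulVec_norm_le A ?_ (fun i j => ?_) x⟩
  · positivity
  · exact Finset.sum_nonneg fun i _ => Finset.sum_nonneg fun j _ => norm_nonneg _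
  · refine le_trans ?_ (Finset.single_le_sum (f := fun i => ∑ j, ‖A i j‖)
      (fun i _ => Finset.sum_nonneg fun j _ => norm_nonneg _) (Finset.mem_univ i))
    exact Finset.single_le_sum (f := fun j => ‖A i j‖) (fun j _ => norm_nonneg _)
      (Finset.mem_univ j)

private theorem l06_dual_bdd {b : Matrix (Fin n) (Fin n) E} (hb : b.det ≠ 0)
    (T : Submodule (OE E) (Fin n → E)) {r : ℝ} (hr : 0 < r)
    (hT : ∀ x : Fin n → E, ‖x‖ < r → x ∈ T) :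
    ∃ R : ℝ, ∀ x, (∀ y ∈ T, ‖bil b x y‖ ≤ 1) → ‖x‖ ≤ R := by
  obtain ⟨C, hC0, hC⟩ := l06_mat (b⁻¹)ᵀ
  obtain ⟨c, hc0, hc⟩ := NormedField.exists_norm_lt ℚ_[2] hr
  refine ⟨C * ‖c‖⁻¹, fun x hx => ?_⟩
  have h1 : ‖x ᵥ* b‖ ≤ ‖c‖⁻¹ := by
    refine (pi_norm_le_iff_of_nonneg (by positivity)).2 fun i => ?_
    have h2 : algebraMap ℚ_[2] E c • (Pi.single i 1 : Fin n → E) ∈ T := by
      refine hT _ ?_
      rw [norm_smul, norm_algebraMap']
      have h3 : ‖(Pi.single i 1 : Fin n → E)‖ ≤ 1 := by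
        refine (pi_norm_le_iff_of_nonneg zero_le_one).2 fun j => ?_
        rw [Pi.single_apply]
        split_ifs
        · rw [norm_one]
        · rw [norm_zero]
          exact zero_le_one
      calc ‖c‖ * ‖(Pi.single i 1 : Fin n → E)‖ ≤ ‖c‖ * 1 :=
            mul_le_mul_of_nonneg_left h3 (norm_nonneg _)
        _ < r := by rw [mul_one]; exact hc
    have h4 := hx _ h2
    rw [bil_smul_right, norm_mul, norm_algebraMap'] at h4
    have h5 : bil b x (Pi.single i 1) = (x ᵥ* b) i := by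
      rw [bil, Matrix.dotProduct_mulVec, dotProduct_single, mul_one]
    rw [h5] at h4
    rw [← one_div, le_div_iff₀ hc0, mul_comm]
    exact h4
  have h6 : x = (b⁻¹)ᵀ *ᵥ (x ᵥ* b) := by
    rw [Matrix.mulVec_transpose, Matrix.vecMul_vecMul, Matrix.mul_nonsing_inv _ (Ne.isUnit hb),
      Matrix.vecMul_one]
  calc ‖x‖ = ‖(b⁻¹)ᵀ *ᵥ (x ᵥ* b)‖ := by rw [← h6]
    _ ≤ C * ‖x ᵥ* b‖ := hC _
    _ ≤ C * ‖c‖⁻¹ := mul_le_mul_of_nonneg_left h1 hC0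

theorem exists_latMax {ρ : G → Matrix (Fin n) (Fin n) E} (hρ : SmallRep S ρ)
    {b : Matrix (Fin n) (Fin n) E} (hb : b.det ≠ 0) (hbs : bᵀ = b) :
    ∃ T : Submodule (OE E) (Fin n → E), (∀ g, ∀ x ∈ T, ρ g *ᵥ x ∈ T) ∧
      (∀ x ∈ T, ∀ y ∈ T, ‖bil b x y‖ ≤ 1) ∧ (∃ R : ℝ, ∀ x ∈ T, ‖x‖ ≤ R) ∧
      (∃ r : ℝ, 0 < r ∧ ∀ x : Fin n → E, ‖x‖ < r → x ∈ T) ∧
      (∃ R : ℝ, ∀ x, (∀ y ∈ T, ‖bil b x y‖ ≤ 1) → ‖x‖ ≤ R) ∧
      ∀ T' : Submodule (OE E) (Fin n → E), T ≤ T' → (∀ g, ∀ x ∈ T', ρ g *ᵥ x ∈ T') →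
        (∀ x ∈ T', ∀ y ∈ T', ‖bil b x y‖ ≤ 1) → T' = T := by
  obtain ⟨T₀, hst, hint, -, r, hr, hopn⟩ := exists_lat0 hρ b
  obtain ⟨T, hT₀, hT⟩ := zorn_le_nonempty₀
    {T : Submodule (OE E) (Fin n → E) | (∀ g, ∀ x ∈ T, ρ g *ᵥ x ∈ T) ∧
      ∀ x ∈ T, ∀ y ∈ T, ‖bil b x y‖ ≤ 1} (by
    intro c hc hchain T₁ hT₁
    have hmem : ∀ z, z ∈ sSup c ↔ ∃ T ∈ c, z ∈ T := fun z =>
      Submodule.mem_sSup_of_directed ⟨T₁, hT₁⟩ hchain.directedOn
    refine ⟨sSup c, ⟨fun g x hx => ?_, fun x hx y hy => ?_⟩, fun z hz => le_sSup hz⟩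
    · obtain ⟨T, hT, hxT⟩ := (hmem x).1 hx
      exact (hmem _).2 ⟨T, hT, (hc hT).1 g x hxT⟩
    · obtain ⟨T, hT, hxT⟩ := (hmem x).1 hx
      obtain ⟨T', hT', hyT⟩ := (hmem y).1 hy
      rcases hchain.total hT hT' with h | h
      · exact (hc hT').2 x (h hxT) y hyT
      · exact (hc hT).2 x hxT y (h hyT)) T₀ ⟨hst, hint⟩
  have hopnT : ∀ x : Fin n → E, ‖x‖ < r → x ∈ T := fun x hx => hT₀ (hopn x hx)
  obtain ⟨R, hR⟩ := l06_dual_bdd hb T hr hopnT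
  refine ⟨T, hT.prop.1, hT.prop.2, ⟨R, fun x hx => hR x fun y hy => hT.prop.2 x hx y hy⟩,
    ⟨r, hr, hopnT⟩, ⟨R, hR⟩, fun T' hTT' h1 h2 => ?_⟩
  exact le_antisymm (hT.le_of_ge ⟨h1, h2⟩ hTT') hTT'

end Pool.Agent.Work.MP_787500_nt.KR
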