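import Mathlib
import Pool.Agent.Work.MP_787500_nt.KR.GDefs

/-!
# Module G1 (size M): simple submodules; transitive planes are isomorphic

`S = big F N₀`, `hC : Tri F N₀ C`; `G ⧸ C` has 3 elements (`syl_finite` in `LD3`, `Nat.card = index`).
* `exists_fix`: a nonzero finite `O`-module `M` with smooth `O`-linear action of `G` has `u ≠ 0`, killed by the maximal
  ideal, fixed by `C`: `GP.exists_fixed` (`GP/F03_Pow`) for the group `C`, the system `two (res F C)` and the restriction
  of the action (smooth by `(syl_sm hC.toSyl).res`).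
* `exists_simple`: for `u` as above let `w v = ρ (repQ C v) u = vecQ C ρ u v` (`US_Sum`; `vecQ_smul`, stated there
  under `hC : ∀ g, g ∈ C ↔ ρ g u = u`; only `→` is used, copy the proof) and `s = ∑ v, w v`, fixed by `G` (`sum_shift`).
  If `s ≠ 0`: the line `{0, s}` (`O`-submodule: an element of `O` is in the maximal ideal or 1 modulo it, as the
  residue field has 2 elements; 2 kills `s` since `2 ∈ maximalIdeal`). If `s = 0`: `u` is not fixed by `G` (else
  `s = 3 u = u ≠ 0`), the stabilizer of `u` contains `C` and is not `G`; its index divides 3 and is not 1, so it is `C`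
  (`Subgroup.relIndex_mul_index`); the `w v` are 3 different nonzero elements (`vecQ_inj`), the sum of two of them is
  the third (`s = 0` and `2 u = 0`), so `U = {0} ∪ {w v}` is an `O`-submodule with 4 elements on which `G` is
  transitive.
* `IsPl.base`: a plane with smooth transitive action: take `O = ℤ`-like is not possible, so use `GP.exists_fixed` with
  `O = ZMod 2` (`U` is a `ZMod 2`-module, `AddCommGroup.zmodModule`, an `IsLocalRing`; `(2 : ZMod 2) = 0`), or directly the
  fixed points of a finite 2-group on a set with 4 elements. The stabilizer of `u₀` is `C` as before (`G` does not fix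
  `u₀`, there are 3 nonzero vectors).
* `pl_iso`: for planes `U`, `U'` with base vectors `u₀`, `u₀'` (stabilizers `C`) let `α u = fun v => kf u (vecQ C υ u₀ v)`,
  `γ f = ∑ v, if f v = 1 then vecQ C υ u₀ v else 0` (as in the proof of `exists_summand`, `US_Sum`; copy), and
  `α'`, `γ'` for `U'`. `α (vecQ υ u₀ w) = α' (vecQ υ' u₀' w)` (both are 1 exactly at `v ≠ w`), so `ψ = γ ∘ α'` maps
  `vecQ υ' u₀' w` to `vecQ υ u₀ w`; it is additive, equivariant, and inverse to `γ' ∘ α`.
-/

set_option autoImplicit false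
set_option linter.unusedSectionVars false

namespace Pool.Agent.Work.MP_787500_nt.KR

open Pool.Agent.Work.MP_787500_nt.GP (A0 half hf IsAct d0 d1 d2 tw cup11 cup02)

variable {G : Type*} [Group G] {F : FSys G} {N₀ C : Subgroup G}

theorem exists_fix (hC : Syl F N₀ C) {O : Type*} [CommRing O] [IsLocalRing O]
    [Finite (IsLocalRing.ResidueField O)] (h2 : (2 : O) ∈ IsLocalRing.maximalIdeal O)
    {M : Type*} [AddCommGroup M] [Module O M] [Finite M] [Nontrivial M] {ρ : G → M → M}
    (hact : IsAct ρ) (hlin : ∀ g (a : O) m, ρ g (a • m) = a • ρ g m)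
    (hs : Smooth (big F N₀) ρ) :
    ∃ u : M, u ≠ 0 ∧ (∀ a ∈ IsLocalRing.maximalIdeal O, a • u = 0) ∧ ∀ c ∈ C, ρ c u = u := by
  obtain ⟨W, hW, hWt⟩ := hs
  obtain ⟨W', hW', hWW⟩ := (syl_sm hC).res W hW
  obtain ⟨e, he, hem, hef⟩ := GP.exists_fixed (G := C) (S := two (res F C))
    (ρ := fun c : C => ρ (c : G)) (O := O)
    ⟨fun m => hact.one m, fun g h m => hact.mul _ _ m, fun g m m' => hact.add _ m m'⟩
    (fun g a m => hlin _ a m) ⟨W', hW', fun w hw m => hWt _ (hWW w hw) m⟩ h2
  exact ⟨e, he, hem, fun c hc => hef ⟨c, hc⟩⟩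

private theorem g1_stab (h3 : C.index = 3) {M : Type*} [AddCommGroup M] {ρ : G → M → M}
    (hact : IsAct ρ) {u : M} (hu : ∀ c ∈ C, ρ c u = u) :
    (∀ g, g ∈ C ↔ ρ g u = u) ∨ ∀ g, ρ g u = u := by
  let H : Subgroup G :=
    { carrier := {g | ρ g u = u}
      mul_mem' := by
        intro a b ha hb
        show ρ (a * b) u = u
        rw [hact.mul, show ρ b u = u from hb, show ρ a u = u from ha]
      one_mem' := hact.one u
      inv_mem' := by
        intro a ha
        show ρ a⁻¹ u = u
        conv_lhs => rw [← show ρ a u = u from ha]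
        rw [← hact.mul, inv_mul_cancel, hact.one] }
  have hmem : ∀ g, g ∈ H ↔ ρ g u = u := fun g => Iff.rfl
  have hle : C ≤ H := fun c hc => hu c hc
  have h1 := Subgroup.relIndex_mul_index hle
  rw [h3] at h1
  have h4 : H.index ∣ 3 := ⟨_, by rw [mul_comm]; exact h1.symm⟩
  rcases (Nat.dvd_prime Nat.prime_three).1 h4 with h5 | h5
  · right
    intro g
    have : H = ⊤ := Subgroup.index_eq_one.1 h5
    rw [← hmem, this]
    trivial
  · left
    intro g
    rw [h5] at h1
    have h6 : C.relIndex H = 1 := by omega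
    have h7 : H ≤ C := Subgroup.relIndex_eq_one.1 h6
    exact ⟨fun h => hu g h, fun h => h7 h⟩

private theorem g1_smul {O : Type*} [CommRing O] [IsLocalRing O]
    (hq : Nat.card (IsLocalRing.ResidueField O) = 2) (a : O) :
    a ∈ IsLocalRing.maximalIdeal O ∨ a - 1 ∈ IsLocalRing.maximalIdeal O := by
  rw [← IsLocalRing.residue_eq_zero_iff, ← IsLocalRing.residue_eq_zero_iff, map_sub, map_one,
    sub_eq_zero]
  have hf : Finite (IsLocalRing.ResidueField O) := Nat.finite_of_card_ne_zero (by omega)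
  have := Fintype.ofFinite (IsLocalRing.ResidueField O)
  classical
  by_contra hne
  push Not at hne
  have h1 : ({0, 1, IsLocalRing.residue O a} : Finset (IsLocalRing.ResidueField O)).card = 3 := by
    rw [Finset.card_eq_three]
    exact ⟨0, 1, _, zero_ne_one, hne.1.symm, hne.2.symm, rfl⟩
  have h2 := Finset.card_le_univ ({0, 1, IsLocalRing.residue O a} :
    Finset (IsLocalRing.ResidueField O))
  rw [h1, ← Nat.card_eq_fintype_card, hq] at h2
  omega

private theorem g1_vec {M : Type*} [AddCommGroup M] {ρ : G → M → M} (hact : IsAct ρ) {u : M}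
    (hu : ∀ c ∈ C, ρ c u = u) (g : G) (v : G ⧸ C) :
    vecQ C ρ u (g • v) = ρ g (vecQ C ρ u v) := by
  have h1 := hu _ (repQ_mem C g (g • v))
  rw [inv_smul_smul, mul_assoc, hact.mul] at h1
  unfold vecQ
  conv_lhs => rw [← h1]
  rw [← hact.mul, mul_inv_cancel, hact.one, hact.mul]

private theorem g1_line {O : Type*} [CommRing O] [IsLocalRing O]
    [Finite (IsLocalRing.ResidueField O)]
    (hq : Nat.card (IsLocalRing.ResidueField O) = 2)
    {M : Type*} [AddCommGroup M] [Module O M] {ρ : G → M → M}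
    (hlin : ∀ g (a : O) m, ρ g (a • m) = a • ρ g m) {u : M} (hu0 : u ≠ 0)
    (hm : ∀ a ∈ IsLocalRing.maximalIdeal O, a • u = 0) (hfix : ∀ g, ρ g u = u) :
    ∃ U : Submodule O M, (∀ g, ∀ u ∈ U, ρ g u ∈ U) ∧
      (∀ a ∈ IsLocalRing.maximalIdeal O, ∀ u ∈ U, a • u = 0) ∧ IsSm ρ U := by
  have hf : ∀ g, ∀ x ∈ Submodule.span O {u}, ρ g x = x := by
    intro g x hx
    obtain ⟨a, rfl⟩ := Submodule.mem_span_singleton.1 hx
    rw [hlin, hfix]
  refine ⟨Submodule.span O {u}, fun g x hx => by rw [hf g x hx]; exact hx, fun a ha x hx => ?_,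
    Or.inl ⟨by rw [GP.card_span hu0 hm, hq], hf⟩⟩
  obtain ⟨b, rfl⟩ := Submodule.mem_span_singleton.1 hx
  rw [smul_comm, hm a ha, smul_zero]

theorem exists_simple (hC : Tri F N₀ C) {O : Type*} [CommRing O] [IsLocalRing O]
    [Finite (IsLocalRing.ResidueField O)] (h2 : (2 : O) ∈ IsLocalRing.maximalIdeal O)
    (hq : Nat.card (IsLocalRing.ResidueField O) = 2)
    {M : Type*} [AddCommGroup M] [Module O M] [Finite M] [Nontrivial M] {ρ : G → M → M}
    (hact : IsAct ρ) (hlin : ∀ g (a : O) m, ρ g (a • m) = a • ρ g m)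
    (hs : Smooth (big F N₀) ρ) :
    ∃ U : Submodule O M, (∀ g, ∀ u ∈ U, ρ g u ∈ U) ∧
      (∀ a ∈ IsLocalRing.maximalIdeal O, ∀ u ∈ U, a • u = 0) ∧ IsSm ρ U := by
  classical
  obtain ⟨u, hu0, hum, hu⟩ := exists_fix hC.toSyl h2 hact hlin hs
  rcases g1_stab hC.three hact hu with hst | hst
  swap
  · exact g1_line hq hlin hu0 hum hst
  have hcard : Nat.card (G ⧸ C) = 3 := hC.three
  have hfin : Finite (G ⧸ C) := Nat.finite_of_card_ne_zero (by rw [hcard]; omega)
  have := Fintype.ofFinite (G ⧸ C)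
  have hwm : ∀ v, ∀ a ∈ IsLocalRing.maximalIdeal O, a • vecQ C ρ u v = 0 := by
    intro v a ha
    unfold vecQ
    rw [← hlin, hum a ha, hact.zero]
  have hsm : ∀ a ∈ IsLocalRing.maximalIdeal O, a • (∑ v, vecQ C ρ u v) = 0 := by
    intro a ha
    rw [Finset.smul_sum]
    exact Finset.sum_eq_zero fun v _ => hwm v a ha
  have hsf : ∀ g, ρ g (∑ v, vecQ C ρ u v) = ∑ v, vecQ C ρ u v := by
    intro g
    rw [IsAct.sum' hact]
    exact Fintype.sum_equiv (MulAction.toPerm g) _ _ fun v => (g1_vec hact hu g v).symm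
  by_cases hs0 : ∑ v, vecQ C ρ u v = 0
  swap
  · exact g1_line hq hlin hs0 hsm hsf
  have hw2 : ∀ v, vecQ C ρ u v + vecQ C ρ u v = 0 := by
    intro v
    have := hwm v 2 h2
    rwa [two_smul] at this
  have hinj := vecQ_inj hact hst
  have hne : ∀ v, vecQ C ρ u v ≠ 0 := vecQ_ne (C := C) hact hu0
  let U : Submodule O M :=
    { carrier := {m | m = 0 ∨ ∃ v, m = vecQ C ρ u v}
      zero_mem' := Or.inl rfl
      add_mem' := by
        rintro x y (rfl | ⟨v, rfl⟩) (rfl | ⟨v', rfl⟩)
        · exact Or.inl (add_zero 0)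
        · exact Or.inr ⟨v', zero_add _⟩
        · exact Or.inr ⟨v, add_zero _⟩
        · by_cases hv : v = v'
          · subst hv
            exact Or.inl (hw2 v)
          · right
            obtain ⟨v'', hv''⟩ : ∃ v'', v'' ∉ ({v, v'} : Finset (G ⧸ C)) := by
              by_contra hno
              push Not at hno
              have h5 : (Finset.univ : Finset (G ⧸ C)) ⊆ {v, v'} := fun x _ => hno x
              have h6 := Finset.card_le_card h5
              rw [Finset.card_univ, ← Nat.card_eq_fintype_card, hcard, Finset.card_pair hv] at h6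
              omega
            simp only [Finset.mem_insert, Finset.mem_singleton, not_or] at hv''
            refine ⟨v'', ?_⟩
            have h7 : ({v, v', v''} : Finset (G ⧸ C)) = Finset.univ := by
              apply Finset.eq_univ_of_card
              rw [← Nat.card_eq_fintype_card, hcard, Finset.card_eq_three]
              exact ⟨v, v', v'', hv, fun h => hv''.1 h.symm, fun h => hv''.2 h.symm, rfl⟩
            rw [← h7, Finset.sum_insert, Finset.sum_insert, Finset.sum_singleton] at hs0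
            · have h8 := hw2 v''
              rw [← add_assoc] at hs0
              rw [eq_neg_of_add_eq_zero_left hs0, neg_eq_iff_add_eq_zero]
              exact h8
            · simp only [Finset.mem_singleton]
              exact fun h => hv''.2 h.symm
            · simp only [Finset.mem_insert, Finset.mem_singleton, not_or]
              exact ⟨hv, fun h => hv''.1 h.symm⟩
      smul_mem' := by
        rintro a x (rfl | ⟨v, rfl⟩)
        · exact Or.inl (smul_zero a)
        · rcases g1_smul hq a with ha | ha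
          · exact Or.inl (hwm v a ha)
          · right
            refine ⟨v, ?_⟩
            have h5 := hwm v _ ha
            rw [sub_smul, one_smul, sub_eq_zero] at h5
            exact h5 }
  have hU : ∀ m, m ∈ U ↔ m = 0 ∨ ∃ v, m = vecQ C ρ u v := fun m => Iff.rfl
  refine ⟨U, ?_, ?_, Or.inr ⟨?_, ?_⟩⟩
  · rintro g x (rfl | ⟨v, rfl⟩)
    · rw [hact.zero]
      exact U.zero_mem
    · exact Or.inr ⟨g • v, (g1_vec hact hu g v).symm⟩
  · rintro a ha x (rfl | ⟨v, rfl⟩)
    · exact smul_zero a
    · exact hwm v a ha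
  · let E : Option (G ⧸ C) → U := fun o => o.elim ⟨0, Or.inl rfl⟩ fun v => ⟨vecQ C ρ u v, Or.inr ⟨v, rfl⟩⟩
    have hE : Function.Bijective E := by
      constructor
      · rintro (_ | v) (_ | v') h
        · rfl
        · exact absurd (congrArg Subtype.val h).symm (hne v')
        · exact absurd (congrArg Subtype.val h) (hne v)
        · exact congrArg some (hinj (congrArg Subtype.val h))
      · rintro ⟨x, rfl | ⟨v, rfl⟩⟩
        · exact ⟨none, rfl⟩
        · exact ⟨some v, rfl⟩
    rw [← Nat.card_congr (Equiv.ofBijective E hE), Finite.card_option, hcard]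
  · rintro x (rfl | ⟨v, rfl⟩) y (rfl | ⟨v', rfl⟩) hx hy
    · exact absurd rfl hx
    · exact absurd rfl hx
    · exact absurd rfl hy
    · refine ⟨repQ C v' * (repQ C v)⁻¹, ?_⟩
      unfold vecQ
      rw [hact.mul, ← hact.mul (repQ C v)⁻¹, inv_mul_cancel, hact.one]

theorem IsPl.base (hC : Tri F N₀ C) {U : Type*} [AddCommGroup U] {υ : G → U → U} (h : IsPl υ)
    (hs : Smooth (big F N₀) υ) : ∃ u₀ : U, u₀ ≠ 0 ∧ ∀ g, g ∈ C ↔ υ g u₀ = u₀ := by
  let _ : Module (ZMod 2) U := AddCommGroup.zmodModule (n := 2) fun x => by rw [two_nsmul, h.two]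
  have hf : Finite U := Nat.finite_of_card_ne_zero (by rw [h.four]; omega)
  have hnt : Nontrivial U := by
    rw [← Finite.one_lt_card_iff_nontrivial, h.four]
    omega
  have hfr : Finite (IsLocalRing.ResidueField (ZMod 2)) :=
    Finite.of_surjective _ IsLocalRing.residue_surjective
  obtain ⟨u, hu0, -, hu⟩ := exists_fix (O := ZMod 2) hC.toSyl
    (by rw [show (2 : ZMod 2) = 0 from rfl]; exact zero_mem _) h.act
    (fun g a m => ZMod.map_smul (AddMonoidHom.mk' (υ g) (h.act.add g)) a m) hs
  refine ⟨u, hu0, ?_⟩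
  rcases g1_stab hC.three h.act hu with hst | hst
  · exact hst
  · exfalso
    have h1 : ∀ x : U, x = 0 ∨ x = u := by
      intro x
      by_cases hx : x = 0
      · exact Or.inl hx
      · obtain ⟨g, hg⟩ := h.tr u x hu0 hx
        right
        rw [← hg, hst]
    have := Fintype.ofFinite U
    classical
    have h2 : (Finset.univ : Finset U) ⊆ {0, u} := fun x _ => by
      simp only [Finset.mem_insert, Finset.mem_singleton]
      exact h1 x
    have h3 := Finset.card_le_card h2
    rw [Finset.card_univ, ← Nat.card_eq_fintype_card, h.four] at h3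
    have h4 := Finset.card_le_two (a := (0 : U)) (b := u)
    omega

private theorem g1_U2 : ∀ a b c : U2, a ≠ 0 → b ≠ 0 → a ≠ b → c ≠ 0 → c ≠ a → c ≠ b →
    a + b = c := by decide

private theorem g1_klein {U : Type*} [AddCommGroup U] (h4 : Nat.card U = 4)
    (h2 : ∀ u : U, u + u = 0) {a b c : U} (ha : a ≠ 0) (hb : b ≠ 0) (hab : a ≠ b) (hc : c ≠ 0)
    (hca : c ≠ a) (hcb : c ≠ b) : a + b = c := by
  obtain ⟨e⟩ := exists_equiv_U2 h4 h2
  have hz : ∀ x : U, x ≠ 0 → e x ≠ 0 := fun x hx h => hx (by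
    rwa [EmbeddingLike.map_eq_zero_iff] at h)
  apply e.injective
  rw [map_add]
  exact g1_U2 _ _ _ (hz a ha) (hz b hb) (e.injective.ne hab) (hz c hc) (e.injective.ne hca)
    (e.injective.ne hcb)

private theorem g1_bij {U : Type*} [AddCommGroup U] {υ : G → U → U}
    (h : IsPl υ) {u₀ : U} (h0 : u₀ ≠ 0) (hst : ∀ g, g ∈ C ↔ υ g u₀ = u₀) :
    Function.Bijective (fun o : Option (G ⧸ C) => o.elim 0 (vecQ C υ u₀)) := by
  constructor
  · rintro (_ | v) (_ | v') he
    · rfl
    · exact absurd (Eq.symm he) (vecQ_ne h.act h0 v')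
    · exact absurd he (vecQ_ne h.act h0 v)
    · exact congrArg some (vecQ_inj h.act hst he)
  · intro x
    by_cases hx : x = 0
    · exact ⟨none, hx.symm⟩
    · obtain ⟨v, hv⟩ := vecQ_surj h.act hst (fun u hu => h.tr u₀ u h0 hu) x hx
      exact ⟨some v, hv⟩

theorem pl_iso (hC : Tri F N₀ C) {U U' : Type*} [AddCommGroup U] [AddCommGroup U']
    {υ : G → U → U} {υ' : G → U' → U'} (h : IsPl υ) (hs : Smooth (big F N₀) υ) (h' : IsPl υ')
    (hs' : Smooth (big F N₀) υ') : ∃ ψ : U' ≃+ U, ∀ g u, ψ (υ' g u) = υ g (ψ u) := by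
  obtain ⟨u₀, h0, hst⟩ := h.base hC hs
  obtain ⟨u₀', h0', hst'⟩ := h'.base hC hs'
  let E := Equiv.ofBijective _ (g1_bij h h0 hst)
  let E' := Equiv.ofBijective _ (g1_bij h' h0' hst')
  let ψ : U' ≃ U := E'.symm.trans E
  have hE0 : E none = 0 := rfl
  have hE0' : E' none = 0 := rfl
  have hE1 : ∀ v, E (some v) = vecQ C υ u₀ v := fun v => rfl
  have hE1' : ∀ v, E' (some v) = vecQ C υ' u₀' v := fun v => rfl
  have hψE : ∀ o, ψ (E' o) = E o := fun o => by
    show E (E'.symm (E' o)) = E o
    rw [Equiv.symm_apply_apply]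
  have hψ0 : ψ 0 = 0 := by
    have := hψE none
    rwa [hE0, hE0'] at this
  have hadd : ∀ a b, ψ (a + b) = ψ a + ψ b := by
    intro a b
    by_cases ha : a = 0
    · rw [ha, hψ0, zero_add, zero_add]
    by_cases hb : b = 0
    · rw [hb, hψ0, add_zero, add_zero]
    by_cases hab : a = b
    · rw [hab, h'.two, h.two, hψ0]
    have hz : ∀ x : U', x ≠ 0 → ψ x ≠ 0 := fun x hx h => hx (ψ.injective (h.trans hψ0.symm))
    have k1 : a + b ≠ 0 := by
      intro h1
      apply hab
      rw [eq_neg_of_add_eq_zero_left h1, neg_eq_iff_add_eq_zero, h'.two]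
    have k2 : a + b ≠ a := fun h1 => hb (by simpa using h1)
    have k3 : a + b ≠ b := fun h1 => ha (by simpa using h1)
    exact (g1_klein h.four h.two (hz a ha) (hz b hb) (ψ.injective.ne hab) (hz _ k1)
      (ψ.injective.ne k2) (ψ.injective.ne k3)).symm
  refine ⟨{ ψ with map_add' := hadd }, fun g u => ?_⟩
  show ψ (υ' g u) = υ g (ψ u)
  obtain ⟨o, rfl⟩ := E'.surjective u
  rcases o with _ | v
  · rw [hE0', h'.act.zero, hψ0, h.act.zero]
  · rw [hψE, hE1, hE1', ← vecQ_smul h'.act hst', ← hE1', hψE, hE1, vecQ_smul h.act hst]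

end Pool.Agent.Work.MP_787500_nt.KR
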