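import Mathlib
import Pool.Agent.Work.MP_787500_nt.KR.G1_Simp

/-!
# Module G2 (size M-L): the subquotient of an isotropic simple submodule

`h : SDualF S χ κ Θ O ρ b` on the finite module `M`, `S = big F N₀`, `U` a line or a plane (`IsSm`) with `b u u' = 0` on
`U`, `orth h U` its orthogonal complement (`GDefs`). Compare `GP/F11_Sub.lean` (`exists_sub`, the case of a line).
* Types: `M₁ = orth h U`, `ρ₁ g` the restriction (`orth_stable`), `i` the inclusion; `U' = U` (as a type), `υ` the
  restriction, `e : U → M₁` the inclusion (`U ≤ orth h U`); `Mb = M₁ ⧸ (range e)`, `π` the projection, `ρb` and `bb` induced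
  (`bb (π m) (π m') = b m m'` is well defined, `b` is symmetric). `SDualF` on `Mb`: all fields are inherited; `nd`: if
  `b m m' = 0` for all `m' ∈ orth h U` then `m ∈ U` (double orthogonal complement: `GP.perp_perp` or `GP.card_perp`,
  `GP/F01_Card`, for `b`), `sm`, `alt`, `bal`, `eqv`, `lin` directly.
* `Q = M ⧸ orth h U` with the induced action `σ`. `β' : U →+ Q →+ A0`, `β' u (mk m) = b u m`, is perfect: right by the
  definition of `orth`, left by `h.nd`; so `card Q = card U` (`GP.card_eq_of_nondeg`). `2 Q = 0` and `𝔪 Q = 0`: `b u (a m) =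
  b (a u) m = 0`. `β' (υ g u) (σ (κ g) q) = χ g β' u q`. `Q` is isomorphic to `U` as a `G`-module:
  - line: `β' u (σ g q) = β' (υ (κ g) u) (σ g q) = χ (κ g) β' u q = β' u q` (`β'` has values killed by 2,
    `χ` is odd, `GP.smul_hf`, `GP.eq_hf`), so `G` acts trivially on `Q`, two groups with 2 elements.
  - plane: `Q` has 4 elements, `2 Q = 0`. `G` has no nonzero fixed vector in `Q`: if `q` is one then
    `{u | β' u q = 0}` is a subgroup of `U` with 2 elements stable under `G`, impossible by transitivity. `C` has a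
    nonzero fixed vector `q₀` in `Q` (`exists_fix`), its stabilizer is `C` (index 3 is prime), its orbit has 3 elements: `IsPl σ`.
    Then `pl_iso`.
  So there is `ψ : Q ≃+ U` with `ψ (σ g q) = υ g (ψ q)`. It is `O`-linear because every `a : O` acts on `Q` and on `U` as 0
  or as 1 (residue field with 2 elements). Put `q m = ψ (mk m)`, `β u u' = β' u (ψ⁻¹ u')`.
* `UD` for `β`: `nd`, `nd'` from the perfectness of `β'`; `eqv`. `SubU`: all fields from the definitions.
* `card Mb < card M`: `card Mb * card U ≤ card M₁ ≤ card M`, `card U ≥ 2`.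
-/

set_option autoImplicit false
set_option linter.unusedSectionVars false

namespace Pool.Agent.Work.MP_787500_nt.KR

open Pool.Agent.Work.MP_787500_nt.GP (A0 half hf IsAct d0 d1 d2 tw cup11 cup02)

universe v

private theorem g2_bb {A A' B B' : Type*} [AddCommGroup A] [AddCommGroup A'] [AddCommGroup B]
    [AddCommGroup B'] (π : A →+ B) (hπ : Function.Surjective π) (π' : A' →+ B')
    (hπ' : Function.Surjective π') (β : A →+ A' →+ A0) (h1 : ∀ x y, π x = 0 → β x y = 0)
    (h2 : ∀ x y, π' y = 0 → β x y = 0) :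
    ∃ bb : B →+ B' →+ A0, ∀ x y, bb (π x) (π' y) = β x y := by
  let s := Function.surjInv hπ
  have hs : ∀ y, π (s y) = y := Function.surjInv_eq hπ
  let s' := Function.surjInv hπ'
  have hs' : ∀ y, π' (s' y) = y := Function.surjInv_eq hπ'
  have e1 : ∀ x x' y, π x = π x' → β x y = β x' y := by
    intro x x' y h
    have h3 := h1 (x - x') y (by rw [map_sub, h, sub_self])
    rw [map_sub, AddMonoidHom.sub_apply] at h3
    exact sub_eq_zero.1 h3
  have e2 : ∀ x y y', π' y = π' y' → β x y = β x y' := by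
    intro x y y' h
    have h3 := h2 x (y - y') (by rw [map_sub, h, sub_self])
    rw [map_sub] at h3
    exact sub_eq_zero.1 h3
  refine ⟨AddMonoidHom.mk' (fun x => AddMonoidHom.mk' (fun y => β (s x) (s' y)) ?_) ?_, ?_⟩
  · intro y y'
    rw [← map_add]
    exact e2 _ _ _ (by rw [map_add, hs', hs', hs'])
  · intro x x'
    ext y
    show β (s (x + x')) (s' y) = β (s x) (s' y) + β (s x') (s' y)
    rw [← AddMonoidHom.add_apply, ← map_add]
    exact e1 _ _ _ (by rw [map_add, hs, hs, hs])
  · intro x y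
    show β (s (π x)) (s' (π' y)) = β x y
    rw [e1 _ x _ (hs _), e2 _ _ y (hs' _)]

/-- an element of `O` is in the maximal ideal or 1 modulo it -/
private theorem g2_res {O : Type*} [CommRing O] [IsLocalRing O]
    (hq : Nat.card (IsLocalRing.ResidueField O) = 2) (a : O) :
    a ∈ IsLocalRing.maximalIdeal O ∨ a - 1 ∈ IsLocalRing.maximalIdeal O := by
  obtain ⟨x, y, hxy, huniv⟩ := Nat.card_eq_two_iff.1 hq
  have hm : ∀ z : IsLocalRing.ResidueField O, z = x ∨ z = y := by
    intro z
    have : z ∈ ({x, y} : Set (IsLocalRing.ResidueField O)) := by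
      rw [huniv]
      trivial
    simpa using this
  have h01 : (0 : IsLocalRing.ResidueField O) ≠ 1 := zero_ne_one
  have h2 : IsLocalRing.residue O a = 0 ∨ IsLocalRing.residue O a = 1 := by
    rcases hm 0 with h0 | h0 <;> rcases hm 1 with h1 | h1 <;>
      rcases hm (IsLocalRing.residue O a) with ha | ha
    · exact absurd (h0.trans h1.symm) h01
    · exact absurd (h0.trans h1.symm) h01
    · left; rw [ha, h0]
    · right; rw [ha, h1]
    · right; rw [ha, h1]
    · left; rw [ha, h0]
    · exact absurd (h0.trans h1.symm) h01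
    · exact absurd (h0.trans h1.symm) h01
  rcases h2 with h2 | h2
  · left
    exact (IsLocalRing.residue_eq_zero_iff a).1 h2
  · right
    rw [← IsLocalRing.residue_eq_zero_iff, map_sub, h2, map_one, sub_self]

/-- a value of a pairing of a group killed by 2 is 0 or `half` -/
private theorem g2_val {t : A0} (h : t + t = 0) (ht : t ≠ 0) : t = half := by
  obtain ⟨a, ha⟩ := GP.eq_hf h
  rw [ha] at ht ⊢
  unfold hf at ht ⊢
  split_ifs at ht ⊢ with h0
  · exact absurd rfl ht
  · rfl

/-- the elements of a group with 4 elements killed by 2 -/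
private theorem g2_four {U : Type*} [AddCommGroup U] (h4 : Nat.card U = 4)
    (h2 : ∀ u : U, u + u = 0) {u w : U} (hu : u ≠ 0) (hw : w ≠ 0) (hwu : w ≠ u) (x : U) :
    x = 0 ∨ x = u ∨ x = w ∨ x = u + w := by
  classical
  have hfin : Finite U := Nat.finite_of_card_ne_zero (by rw [h4]; decide)
  have := Fintype.ofFinite U
  have h3 : (({0, u, w, u + w} : Finset U)).card = 4 := by
    have e1 : u + w ≠ 0 := fun h => hwu (by
      have h5 : u + w = u + u := by rw [h, h2]
      exact add_left_cancel h5)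
    have e2 : u + w ≠ u := fun h => hw (by simpa using h)
    have e3 : u + w ≠ w := fun h => hu (by simpa using h)
    rw [Finset.card_insert_of_notMem, Finset.card_insert_of_notMem, Finset.card_insert_of_notMem,
      Finset.card_singleton]
    · simpa using e3.symm
    · simp only [Finset.mem_insert, Finset.mem_singleton, not_or]
      exact ⟨hwu.symm, e2.symm⟩
    · simp only [Finset.mem_insert, Finset.mem_singleton, not_or]
      exact ⟨hu.symm, hw.symm, e1.symm⟩
  have h5 : ({0, u, w, u + w} : Finset U) = Finset.univ := by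
    rw [← Finset.card_eq_iff_eq_univ, h3, ← Nat.card_eq_fintype_card, h4]
  have h6 : x ∈ ({0, u, w, u + w} : Finset U) := by
    rw [h5]
    exact Finset.mem_univ x
  simpa using h6

/-- in a plane every functional has a nonzero zero -/
private theorem g2_zero {U Q : Type*} [AddCommGroup U] [AddCommGroup Q] (h4 : Nat.card U = 4)
    (h2 : ∀ u : U, u + u = 0) (β : U →+ Q →+ A0) (q : Q) : ∃ u, u ≠ 0 ∧ β u q = 0 := by
  classical
  have hfin : Finite U := Nat.finite_of_card_ne_zero (by rw [h4]; decide)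
  have hft := Fintype.ofFinite U
  obtain ⟨u, hu⟩ : ∃ u : U, u ∉ ({0} : Finset U) := by
    by_contra hc
    push Not at hc
    have h5 : ({0} : Finset U) = Finset.univ := Finset.eq_univ_iff_forall.2 hc
    have h6 := congrArg Finset.card h5
    rw [Finset.card_singleton, Finset.card_univ, ← Nat.card_eq_fintype_card, h4] at h6
    omega
  obtain ⟨w, hw⟩ : ∃ w : U, w ∉ ({0, u} : Finset U) := by
    by_contra hc
    push Not at hc
    have h5 : ({0, u} : Finset U) = Finset.univ := Finset.eq_univ_iff_forall.2 hc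
    have h6 := congrArg Finset.card h5
    rw [Finset.card_univ, ← Nat.card_eq_fintype_card, h4] at h6
    have h7 := Finset.card_le_two (a := (0 : U)) (b := u)
    omega
  rw [Finset.mem_singleton] at hu
  simp only [Finset.mem_insert, Finset.mem_singleton, not_or] at hw
  by_cases e1 : β u q = 0
  · exact ⟨u, hu, e1⟩
  by_cases e2 : β w q = 0
  · exact ⟨w, hw.1, e2⟩
  have k : ∀ x : U, β x q + β x q = 0 := by
    intro x
    rw [← AddMonoidHom.add_apply, ← map_add, h2, map_zero]
    rfl
  refine ⟨u + w, fun h => hw.2 ?_, ?_⟩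
  · have h5 : u + w = u + u := by rw [h, h2]
    exact add_left_cancel h5
  · rw [map_add, AddMonoidHom.add_apply, g2_val (k u) e1, g2_val (k w) e2, ← g2_val (k u) e1]
    exact k u

/-- two nonzero functionals on a plane with a common nonzero zero agree -/
private theorem g2_uniq {U Q : Type*} [AddCommGroup U] [AddCommGroup Q] (h4 : Nat.card U = 4)
    (h2 : ∀ u : U, u + u = 0) (β : U →+ Q →+ A0) (nd' : ∀ q, (∀ u, β u q = 0) → q = 0)
    {u : U} (hu : u ≠ 0) {q q' : Q} (hq : q ≠ 0) (hq' : q' ≠ 0) (e : β u q = 0)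
    (e' : β u q' = 0) : q = q' := by
  have k : ∀ (x : U) (y : Q), β x y + β x y = 0 := by
    intro x y
    rw [← AddMonoidHom.add_apply, ← map_add, h2, map_zero]
    rfl
  obtain ⟨w, hw⟩ : ∃ w, β w q ≠ 0 := by
    by_contra hc
    push Not at hc
    exact hq (nd' q hc)
  have hw0 : w ≠ 0 := by
    rintro rfl
    exact hw (by simp)
  have hwu : w ≠ u := by
    rintro rfl
    exact hw e
  have hall := g2_four h4 h2 hu hw0 hwu
  have hw' : β w q' ≠ 0 := by
    intro h
    apply hq'
    apply nd'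
    intro x
    rcases hall x with rfl | rfl | rfl | rfl
    · simp
    · exact e'
    · exact h
    · rw [map_add, AddMonoidHom.add_apply, e', h, add_zero]
  have h5 : β w q = β w q' := by
    rw [g2_val (k w q) hw, g2_val (k w q') hw']
  have h6 : q - q' = 0 := by
    apply nd'
    intro x
    rw [map_sub]
    rcases hall x with rfl | rfl | rfl | rfl
    · simp
    · rw [e, e', sub_zero]
    · rw [h5, sub_self]
    · rw [map_add, AddMonoidHom.add_apply, AddMonoidHom.add_apply, e, e', h5, sub_self]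
  exact sub_eq_zero.1 h6

theorem exists_subU {G : Type*} [Group G] {F : FSys G} {N₀ C : Subgroup G} (hC : Tri F N₀ C)
    {χ : G → ℤ_[2]} (hχ : IsChar (big F N₀) χ) {κ : G →* G} (kk : ∀ g, κ (κ g) = g)
    {Θ : Set (G × G)}
    {O : Type*} [CommRing O] [IsLocalRing O] [Finite (IsLocalRing.ResidueField O)]
    (h2 : (2 : O) ∈ IsLocalRing.maximalIdeal O)
    (hq : Nat.card (IsLocalRing.ResidueField O) = 2)
    {M : Type v} [AddCommGroup M] [Module O M] [Finite M] {ρ : G → M → M} {b : M →+ M →+ A0}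
    (h : SDualF (big F N₀) χ κ Θ O ρ b) (U : Submodule O M) (hst : ∀ g, ∀ u ∈ U, ρ g u ∈ U)
    (hm : ∀ a ∈ IsLocalRing.maximalIdeal O, ∀ u ∈ U, a • u = 0) (hU : IsSm ρ U)
    (hiso : ∀ u ∈ U, ∀ u' ∈ U, b u u' = 0) :
    ∃ (M₁ : Type v) (_ : AddCommGroup M₁) (_ : Module O M₁) (Mb : Type v)
      (_ : AddCommGroup Mb) (_ : Module O Mb) (U' : Type v) (_ : AddCommGroup U')
      (_ : Module O U') (ρ₁ : G → M₁ → M₁) (ρb : G → Mb → Mb) (bb : Mb →+ Mb →+ A0)
      (υ : G → U' → U') (β : U' →+ U' →+ A0) (e : U' →ₗ[O] M₁) (i : M₁ →ₗ[O] M)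
      (π : M₁ →ₗ[O] Mb) (q : M →ₗ[O] U'), Finite M₁ ∧ Finite Mb ∧ Finite U' ∧
      SDualF (big F N₀) χ κ Θ O ρb bb ∧ UU.UD (big F N₀) χ κ O υ β ∧
      SubU ρ b ρ₁ ρb bb υ β e i π q ∧ Nat.card Mb < Nat.card M ∧ (IsLn υ ∨ IsPl υ) := by
  classical
  have hle : U ≤ orth h U := fun u hu u' hu' => hiso u' hu' u hu
  -- the actions
  let r : G → M →ₗ[O] M := fun g =>
    { toFun := fun m => ρ g m
      map_add' := fun x y => h.act.add g x y
      map_smul' := fun a x => h.lin g a x }
  have hr : ∀ g m, r g m = ρ g m := fun g m => rfl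
  let υ : G → U →ₗ[O] U := fun g =>
    { toFun := fun m => ⟨ρ g m, hst g m m.2⟩
      map_add' := fun x y => Subtype.ext (h.act.add g x y)
      map_smul' := fun a x => Subtype.ext (h.lin g a x) }
  have hυ : ∀ g (m : U), ((υ g m : U) : M) = ρ g m := fun g m => rfl
  have hυact : IsAct fun g m => υ g m :=
    ⟨fun m => Subtype.ext (h.act.one m), fun g k m => Subtype.ext (h.act.mul g k m),
      fun g m m' => map_add _ _ _⟩
  let r₁ : G → (orth h U) →ₗ[O] (orth h U) := fun g =>
    { toFun := fun m => ⟨ρ g m, orth_stable h kk hst g m.2⟩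
      map_add' := fun x y => Subtype.ext (h.act.add g x y)
      map_smul' := fun a x => Subtype.ext (h.lin g a x) }
  have hr₁ : ∀ g (m : orth h U), ((r₁ g m : orth h U) : M) = ρ g m := fun g m => rfl
  have hact₁ : IsAct fun g m => r₁ g m :=
    ⟨fun m => Subtype.ext (h.act.one m), fun g k m => Subtype.ext (h.act.mul g k m),
      fun g m m' => map_add _ _ _⟩
  let e : U →ₗ[O] (orth h U) := Submodule.inclusion hle
  have he : ∀ u : U, ((e u : orth h U) : M) = u := fun u => rfl
  let N : Submodule O (orth h U) := LinearMap.range e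
  have hN : ∀ m : orth h U, m ∈ N ↔ (m : M) ∈ U := by
    intro m
    constructor
    · rintro ⟨u, rfl⟩
      exact u.2
    · intro hmU
      exact ⟨⟨m, hmU⟩, Subtype.ext rfl⟩
  have hNst : ∀ g, N ≤ N.comap (r₁ g) := by
    intro g m hm'
    rw [Submodule.mem_comap, hN, hr₁]
    exact hst g _ ((hN m).1 hm')
  -- the pairing on the subquotient
  let βo : (orth h U) →+ (orth h U) →+ A0 :=
    ((b.comp (orth h U).toAddSubgroup.subtype).flip.comp (orth h U).toAddSubgroup.subtype).flip
  have hβo : ∀ x y : orth h U, βo x y = b (x : M) (y : M) := fun x y => rfl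
  have hπs : Function.Surjective N.mkQ := Submodule.mkQ_surjective _
  have hker : ∀ m, N.mkQ m = 0 ↔ (m : M) ∈ U := by
    intro m
    rw [← hN, Submodule.mkQ_apply, Submodule.Quotient.mk_eq_zero]
  obtain ⟨bb, hbb⟩ := g2_bb N.mkQ.toAddMonoidHom hπs N.mkQ.toAddMonoidHom hπs βo
    (by
      intro x y hx
      rw [hβo]
      exact y.2 _ ((hker x).1 hx))
    (by
      intro x y hy
      rw [hβo, h.symm]
      exact x.2 _ ((hker y).1 hy))
  have hbb' : ∀ x y : orth h U, bb (N.mkQ x) (N.mkQ y) = b (x : M) (y : M) := hbb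
  let rb : G → ((orth h U) ⧸ N) →ₗ[O] ((orth h U) ⧸ N) := fun g => N.mapQ N (r₁ g) (hNst g)
  have hrb : ∀ g m, rb g (N.mkQ m) = N.mkQ (r₁ g m) := fun g m => Submodule.mapQ_apply _ _ _ _
  have hpp := GP.perp_perp b U.toAddSubgroup fun a ha => by
    rw [h.nd a ha]
    exact AddSubgroup.zero_mem _
  -- the quotient `Q`
  let V : Submodule O M := orth h U
  have hVst : ∀ g, V ≤ V.comap (r g) := fun g m hm' => orth_stable h kk hst g hm'
  let σ : G → (M ⧸ V) →ₗ[O] (M ⧸ V) := fun g => V.mapQ V (r g) (hVst g)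
  have hσ : ∀ g m, σ g (V.mkQ m) = V.mkQ (ρ g m) := fun g m => Submodule.mapQ_apply _ _ _ _
  have hqs : Function.Surjective V.mkQ := Submodule.mkQ_surjective _
  have hV0 : ∀ m, V.mkQ m = 0 ↔ m ∈ orth h U := by
    intro m
    rw [Submodule.mkQ_apply, Submodule.Quotient.mk_eq_zero]
  have hσact : IsAct fun g m => σ g m := by
    refine ⟨fun m => ?_, fun g k m => ?_, fun g m m' => map_add _ _ _⟩
    · obtain ⟨m, rfl⟩ := hqs m
      show σ 1 (V.mkQ m) = _
      rw [hσ, h.act.one]
    · obtain ⟨m, rfl⟩ := hqs m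
      show σ (g * k) (V.mkQ m) = σ g (σ k (V.mkQ m))
      rw [hσ, hσ, hσ, h.act.mul]
  obtain ⟨β', hβ'⟩ := g2_bb (AddMonoidHom.id U) Function.surjective_id V.mkQ.toAddMonoidHom hqs
    (b.comp U.toAddSubgroup.subtype)
    (by
      intro x y hx
      have hx' : x = 0 := hx
      rw [hx', map_zero]
      rfl)
    (by
      intro x y hy
      exact (hV0 y).1 hy x x.2)
  have hβq : ∀ (u : U) (m : M), β' u (V.mkQ m) = b (u : M) m := hβ'
  have hnd : ∀ u : U, (∀ q, β' u q = 0) → u = 0 := by
    intro u hu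
    apply Subtype.ext
    apply h.nd
    intro m
    rw [← hβq]
    exact hu _
  have hnd' : ∀ q : M ⧸ V, (∀ u, β' u q = 0) → q = 0 := by
    intro q hu
    obtain ⟨m, rfl⟩ := hqs q
    rw [hV0]
    intro u hu'
    have := hu ⟨u, hu'⟩
    rwa [hβq] at this
  have hfQ : Finite (M ⧸ V) := Finite.of_surjective _ hqs
  have hcard : Nat.card U = Nat.card (M ⧸ V) := GP.card_eq_of_nondeg β' hnd hnd'
  have hU2 : ∀ u : U, u + u = 0 := by
    intro u
    apply Subtype.ext
    have := hm 2 h2 u u.2
    rw [two_smul] at this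
    exact this
  have hUm : ∀ a ∈ IsLocalRing.maximalIdeal O, ∀ u : U, a • u = 0 := fun a ha u =>
    Subtype.ext (hm a ha u u.2)
  have hQm : ∀ a ∈ IsLocalRing.maximalIdeal O, ∀ q : M ⧸ V, a • q = 0 := by
    intro a ha q
    apply hnd'
    intro u
    obtain ⟨m, rfl⟩ := hqs q
    rw [← map_smul, hβq, ← h.bal, hm a ha u u.2, map_zero]
    rfl
  have hQ2 : ∀ q : M ⧸ V, q + q = 0 := by
    intro q
    have := hQm 2 h2 q
    rwa [two_smul] at this
  have hβ2 : ∀ (u : U) (q : M ⧸ V), β' u q + β' u q = 0 := by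
    intro u q
    rw [← map_add, hQ2, map_zero]
  have heqv : ∀ g (u : U) (q : M ⧸ V), β' (υ g u) (σ (κ g) q) = χ g • β' u q := by
    intro g u q
    obtain ⟨m, rfl⟩ := hqs q
    rw [hσ, hβq, hβq, hυ]
    exact h.eqv g u m
  have heqv' : ∀ g (u : U) (q : M ⧸ V), β' (υ g u) (σ (κ g) q) = β' u q := by
    intro g u q
    rw [heqv]
    obtain ⟨a, ha⟩ := GP.eq_hf (hβ2 u q)
    rw [ha]
    exact GP.smul_hf (hχ.odd g) a
  have hυsm : Smooth (big F N₀) (fun g m => υ g m) := by
    obtain ⟨W, hW, h1⟩ := h.sm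
    exact ⟨W, hW, fun w hw m => Subtype.ext (h1 w hw m)⟩
  have hσsm : Smooth (big F N₀) (fun g m => σ g m) := by
    obtain ⟨W, hW, h1⟩ := h.sm
    refine ⟨W, hW, fun w hw m => ?_⟩
    obtain ⟨m, rfl⟩ := hqs m
    show σ w (V.mkQ m) = _
    rw [hσ, h1 w hw]
  -- the type of `U` and the isomorphism
  obtain ⟨hty, ψ, hψ⟩ : (IsLn (fun g m => υ g m) ∨ IsPl (fun g m => υ g m)) ∧
      ∃ ψ : (M ⧸ V) ≃+ U, ∀ g q, ψ (σ g q) = υ g (ψ q) := by
    rcases hU with ⟨hc, htr⟩ | ⟨hc, htr⟩
    · have hυ1 : ∀ g (u : U), υ g u = u := fun g u => Subtype.ext (htr g u u.2)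
      refine ⟨Or.inl ⟨hυ1, hc⟩, ?_⟩
      have hσ1 : ∀ g (q : M ⧸ V), σ g q = q := by
        intro g q
        rw [← sub_eq_zero]
        apply hnd'
        intro u
        have h5 := heqv' (κ g) u q
        rw [kk, hυ1] at h5
        rw [map_sub, h5, sub_self]
      have : Fact (Nat.Prime 2) := ⟨Nat.prime_two⟩
      refine ⟨addEquivOfPrimeCardEq (p := 2) (hcard ▸ hc) hc, fun g q => ?_⟩
      rw [hσ1, hυ1]
    · have hpU : IsPl (fun g m => υ g m) := by
        refine ⟨hυact, hc, hU2, fun u u' hu hu' => ?_⟩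
        obtain ⟨g, hg⟩ := htr u u.2 u' u'.2 (fun h0 => hu (Subtype.ext h0))
          (fun h0 => hu' (Subtype.ext h0))
        exact ⟨g, Subtype.ext hg⟩
      refine ⟨Or.inr hpU, ?_⟩
      have hpQ : IsPl (fun g m => σ g m) := by
        refine ⟨hσact, hcard ▸ hc, hQ2, fun q q' hq0 hq0' => ?_⟩
        obtain ⟨u, hu, hu1⟩ := g2_zero hc hU2 β' q
        obtain ⟨u', hu', hu1'⟩ := g2_zero hc hU2 β' q'
        obtain ⟨g, hg⟩ := hpU.tr u u' hu hu'
        refine ⟨κ g, g2_uniq hc hU2 β' hnd' hu' ?_ hq0' ?_ hu1'⟩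
        · intro h0
          apply hq0
          have h5 : σ (κ g)⁻¹ (σ (κ g) q) = q := by
            have h6 := hσact.mul (κ g)⁻¹ (κ g) q
            rw [inv_mul_cancel] at h6
            exact h6.symm.trans (hσact.one q)
          rw [← h5]
          show σ (κ g)⁻¹ (σ (κ g) q) = 0
          have h7 : σ (κ g) q = 0 := h0
          rw [h7, map_zero]
        · have h5 := heqv' g u q
          have h6 : υ g u = u' := hg
          rw [h6, hu1] at h5
          exact h5
      exact pl_iso hC hpU hυsm hpQ hσsm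
  have hψl : ∀ (a : O) (q : M ⧸ V), ψ (a • q) = a • ψ q := by
    intro a q
    rcases g2_res hq a with ha | ha
    · rw [hQm a ha, hUm a ha, map_zero]
    · have h5 := hQm _ ha q
      have h6 := hUm _ ha (ψ q)
      rw [sub_smul, one_smul, sub_eq_zero] at h5 h6
      rw [h5, h6]
  let qf : M →ₗ[O] U :=
    { toFun := fun m => ψ (V.mkQ m)
      map_add' := fun x y => by rw [map_add, map_add]
      map_smul' := fun a x => by rw [map_smul, hψl, RingHom.id_apply] }
  have hqf : ∀ m, qf m = ψ (V.mkQ m) := fun m => rfl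
  let β : U →+ U →+ A0 := (β'.flip.comp ψ.symm.toAddMonoidHom).flip
  have hβ : ∀ u u', β u u' = β' u (ψ.symm u') := fun u u' => rfl
  have hβψ : ∀ u q, β u (ψ q) = β' u q := by
    intro u q
    rw [hβ, AddEquiv.symm_apply_apply]
  refine ⟨orth h U, inferInstance, inferInstance, (orth h U) ⧸ N, inferInstance, inferInstance,
    U, inferInstance, inferInstance, fun g m => r₁ g m, fun g m => rb g m, bb,
    fun g m => υ g m, β, e, (orth h U).subtype, N.mkQ, qf, inferInstance,
    Finite.of_surjective _ hπs, inferInstance, ?_, ?_, ?_, ?_, hty⟩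
  · constructor
    · refine ⟨fun m => ?_, fun g k m => ?_, fun g m m' => map_add _ _ _⟩
      · obtain ⟨m, rfl⟩ := hπs m
        show rb 1 (N.mkQ m) = _
        rw [hrb]
        exact congrArg N.mkQ (hact₁.one m)
      · obtain ⟨m, rfl⟩ := hπs m
        show rb (g * k) (N.mkQ m) = rb g (rb k (N.mkQ m))
        rw [hrb, hrb, hrb]
        exact congrArg N.mkQ (hact₁.mul g k m)
    · exact fun g a m => map_smul _ _ _
    · obtain ⟨W, hW, h1⟩ := h.sm
      refine ⟨W, hW, fun w hw m => ?_⟩
      obtain ⟨m, rfl⟩ := hπs m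
      show rb w (N.mkQ m) = _
      rw [hrb]
      exact congrArg N.mkQ (Subtype.ext (h1 w hw m))
    · intro m m'
      obtain ⟨m, rfl⟩ := hπs m
      obtain ⟨m', rfl⟩ := hπs m'
      rw [hbb', hbb', h.symm]
    · intro a m m'
      obtain ⟨m, rfl⟩ := hπs m
      obtain ⟨m', rfl⟩ := hπs m'
      rw [← map_smul, ← map_smul, hbb', hbb']
      exact h.bal a m m'
    · intro g m m'
      obtain ⟨m, rfl⟩ := hπs m
      obtain ⟨m', rfl⟩ := hπs m'
      show bb (rb g (N.mkQ m)) (rb (κ g) (N.mkQ m')) = _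
      rw [hrb, hrb, hbb', hbb']
      exact h.eqv g m m'
    · intro m hm'
      obtain ⟨m, rfl⟩ := hπs m
      rw [hker]
      have h3 : (m : M) ∈ GP.perpL b.flip (GP.perpL b U.toAddSubgroup) := by
        intro a' ha'
        show b (m : M) a' = 0
        have h4 : a' ∈ orth h U := fun a ha => ha' a ha
        have h5 := hm' (N.mkQ ⟨a', h4⟩)
        rw [hbb'] at h5
        exact h5
      rw [hpp] at h3
      exact h3
    · intro p hp a m
      obtain ⟨m, rfl⟩ := hπs m
      show bb (a • N.mkQ m) (rb p.1 (N.mkQ m)) = 0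
      rw [hrb, ← map_smul, hbb']
      exact h.alt p hp a m
  · constructor
    · exact hυact
    · exact fun g a m => map_smul _ _ _
    · exact hυsm
    · intro g u u'
      obtain ⟨q, rfl⟩ := ψ.surjective u'
      show β (υ g u) (υ (κ g) (ψ q)) = χ g • β u (ψ q)
      rw [← hψ, hβψ, hβψ, heqv]
    · intro u hu
      apply hnd
      intro q
      rw [← hβψ]
      exact hu _
    · intro u' hu
      obtain ⟨q, rfl⟩ := ψ.surjective u'
      have : q = 0 := by
        apply hnd'
        intro u
        rw [← hβψ]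
        exact hu u
      rw [this, map_zero]
  · constructor
    · intro x y hxy
      exact Subtype.ext (congrArg (fun z : orth h U => (z : M)) hxy)
    · exact Subtype.val_injective
    · exact hπs
    · intro u
      obtain ⟨q, rfl⟩ := ψ.surjective u
      obtain ⟨m, rfl⟩ := hqs q
      exact ⟨m, rfl⟩
    · intro m₁
      rw [Submodule.mkQ_apply, Submodule.Quotient.mk_eq_zero]
      exact LinearMap.mem_range
    · intro m
      rw [hqf, map_eq_zero_iff _ ψ.injective, hV0]
      constructor
      · intro hm'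
        exact ⟨⟨m, hm'⟩, rfl⟩
      · rintro ⟨m₁, rfl⟩
        exact m₁.2
    · exact fun g u => Subtype.ext rfl
    · exact fun g m₁ => rfl
    · exact fun g m₁ => (hrb g m₁).symm
    · intro g m
      show qf (ρ g m) = υ g (qf m)
      rw [hqf, hqf, ← hσ, hψ]
    · exact hbb'
    · intro u m
      rw [hqf, hβψ, hβq]
      rfl
  · have h3 := Submodule.card_eq_card_quotient_mul_card N
    have h4 : Nat.card (orth h U) ≤ Nat.card M :=
      Nat.card_le_card_of_injective _ Subtype.val_injective
    have hfq : Finite ((orth h U) ⧸ N) := Finite.of_surjective _ hπs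
    have h5 : 0 < Nat.card ((orth h U) ⧸ N) := Nat.card_pos
    have h6 : 1 < Nat.card N := by
      have h7 : Nat.card U ≤ Nat.card N := by
        refine Nat.card_le_card_of_injective (fun u : U => (⟨e u, ⟨u, rfl⟩⟩ : N)) ?_
        intro x y hxy
        exact Subtype.ext (congrArg (fun z : N => ((z : orth h U) : M)) hxy)
      have h8 : 1 < Nat.card U := by
        rcases hU with ⟨hc, -⟩ | ⟨hc, -⟩ <;> rw [hc] <;> decide
      omega
    nlinarith

end Pool.Agent.Work.MP_787500_nt.KR
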