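import Mathlib
import Pool.Agent.Work.MP_787500_nt.KR.GDefs

/-!
# Module G3 (size M): orthogonal sums

* `exists_split`: `U` a plane in `M` (`IsSm` with 4 elements) that is not isotropic. `U ⊓ orth h U` is a `G`-stable
  submodule of `U`, not equal to `U`, so it is 0 by transitivity. `card (orth h U) * card U = card M`
  (`GP.card_perp`/`GP.perp_perp` in `GP/F01_Card`, `b` is nondegenerate), so `M` is the direct sum of `U` and `W = orth h U`.
  `p`, `p'` the projections (e.g. `Submodule.IsCompl`, `Submodule.linearProjOfIsCompl`), equivariant because both summands are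
  stable (`orth_stable`); `b m m' = b (p m) (p m') + b (p' m) (p' m')` (the mixed terms vanish, `h.symm`). The restrictions of
  `b` are `SDualF` (`nd`: from `h.nd` and the decomposition; `alt`, `eqv`, `bal`, `symm`, `sm`, `lin` directly). `2 u = 0` on `U`:
  `hm` and `h2`.
* `par_sum`: `Λ'' w = {x | p ∘ x ∈ Λ w ∧ p' ∘ x ∈ Λ' w}` (`Submodule.comap (p.compLeft _) ⊓ ..`). `m ↦ (p m, p' m)` is an
  equivariant isomorphism `M ≃ U × W` (`hbij`), so cocycles, coboundaries and smooth functions with values in `M` are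
  pairs; `cup11 b x y = cup11 β (p x) (p y) + cup11 γ (p' x) (p' y)`, hence (`LocH.add`; take one component 0 for the
  inclusion of the orthogonal complement of `Λ''`) `y ∈ perpM Λ'' ↔ p ∘ y ∈ perpM Λ ∧ p' ∘ y ∈ perpM Λ'`, and
  `x ∈ selM Λ'' (perpM Λ'') ↔` the same for the two components. So `card Λ'' w = card (Λ w) * card (Λ' w)`, the cards of the
  Selmer groups multiply too, and `EvPow` is multiplicative (`GP.evPow_mul`, `GP/F03_Pow`).
-/

set_option autoImplicit false
set_option linter.unusedSectionVars false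

namespace Pool.Agent.Work.MP_787500_nt.KR

open Pool.Agent.Work.MP_787500_nt.GP (A0 half hf IsAct d0 d1 d2 tw cup11 cup21 cup12 cup01 cup02
  EvPow IsPow)

universe v

theorem exists_split {G : Type*} [Group G] {S : FSys G} {χ : G → ℤ_[2]} {κ : G →* G}
    (kk : ∀ g, κ (κ g) = g) {Θ : Set (G × G)} {O : Type*} [CommRing O] [IsLocalRing O]
    [Finite (IsLocalRing.ResidueField O)] (h2 : (2 : O) ∈ IsLocalRing.maximalIdeal O)
    {M : Type v} [AddCommGroup M] [Module O M] [Finite M] {ρ : G → M → M} {b : M →+ M →+ A0}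
    (h : SDualF S χ κ Θ O ρ b) (U : Submodule O M) (hst : ∀ g, ∀ u ∈ U, ρ g u ∈ U)
    (hm : ∀ a ∈ IsLocalRing.maximalIdeal O, ∀ u ∈ U, a • u = 0) (h4 : Nat.card U = 4)
    (htr : ∀ u ∈ U, ∀ u' ∈ U, u ≠ 0 → u' ≠ 0 → ∃ g, ρ g u = u')
    (hiso : ¬ ∀ u ∈ U, ∀ u' ∈ U, b u u' = 0) :
    ∃ (U' : Type v) (_ : AddCommGroup U') (_ : Module O U') (W : Type v) (_ : AddCommGroup W)
      (_ : Module O W) (υ : G → U' → U') (β : U' →+ U' →+ A0) (ω : G → W → W)
      (γ : W →+ W →+ A0) (p : M →ₗ[O] U') (p' : M →ₗ[O] W), Finite U' ∧ Finite W ∧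
      SDualF S χ κ Θ O υ β ∧ SDualF S χ κ Θ O ω γ ∧ IsPl υ ∧
      (∀ a ∈ IsLocalRing.maximalIdeal O, ∀ u : U', a • u = 0) ∧
      Function.Bijective (fun m => (p m, p' m)) ∧ (∀ g m, p (ρ g m) = υ g (p m)) ∧
      (∀ g m, p' (ρ g m) = ω g (p' m)) ∧
      (∀ m m', b m m' = β (p m) (p m') + γ (p' m) (p' m')) ∧ Nat.card W < Nat.card M := by
  classical
  set W := orth h U with hWdef
  have hW : ∀ m, m ∈ W ↔ ∀ u ∈ U, b u m = 0 := fun m => Iff.rfl
  have hstW : ∀ g, ∀ w ∈ W, ρ g w ∈ W := fun g w hw => orth_stable h kk hst g hw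
  -- the intersection is zero
  have hdis : ∀ x ∈ U, x ∈ W → x = 0 := by
    intro x hx hxW
    by_contra hx0
    apply hiso
    intro u hu u' hu'
    by_cases hu0 : u' = 0
    · rw [hu0, map_zero]
    · obtain ⟨g, hg⟩ := htr x hx u' hu' hx0 hu0
      exact (hW u').1 (hg ▸ hstW g x hxW) u hu
  -- cardinalities
  have hcard : Nat.card U * Nat.card W = Nat.card M := by
    have h1 := GP.card_perp b U.toAddSubgroup fun a ha => by
      rw [h.nd a ha]
      exact zero_mem _
    have h3 : Nat.card (GP.perpL b.flip ⊤) = 1 := by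
      have : Subsingleton (GP.perpL b.flip ⊤) := ⟨fun x y => Subtype.ext (by
        rw [h.nd x.1 fun m' => x.2 m' trivial, h.nd y.1 fun m' => y.2 m' trivial])⟩
      exact Nat.card_of_subsingleton 0
    have h5 : Nat.card (GP.perpL b U.toAddSubgroup) = Nat.card W :=
      Nat.card_congr ⟨fun x => ⟨x.1, x.2⟩, fun x => ⟨x.1, x.2⟩, fun _ => rfl, fun _ => rfl⟩
    rw [h3, mul_one, h5] at h1
    exact h1
  have hWpos : 0 < Nat.card W := Nat.card_pos
  -- the sum
  let s : (U × W) →ₗ[O] M := U.subtype.coprod W.subtype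
  have hs : ∀ x, s x = (x.1 : M) + (x.2 : M) := fun x => rfl
  have hinj : Function.Injective s := by
    rw [← LinearMap.ker_eq_bot, LinearMap.ker_eq_bot']
    rintro ⟨u, w⟩ hx
    rw [hs] at hx
    have h1 : (u : M) = -(w : M) := eq_neg_of_add_eq_zero_left hx
    have h3 : (u : M) = 0 := hdis _ u.2 (by rw [h1]; exact W.neg_mem w.2)
    have h5 : (w : M) = 0 := by
      rw [h3] at hx
      rwa [zero_add] at hx
    exact Prod.ext (Subtype.ext h3) (Subtype.ext h5)
  have hbij : Function.Bijective s :=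
    hinj.bijective_of_nat_card_le (by rw [Nat.card_prod, hcard])
  let e := LinearEquiv.ofBijective s hbij
  have hes : ∀ x, e x = (x.1 : M) + (x.2 : M) := fun x => rfl
  let p : M →ₗ[O] U := (LinearMap.fst O U W).comp e.symm.toLinearMap
  let p' : M →ₗ[O] W := (LinearMap.snd O U W).comp e.symm.toLinearMap
  have hdec : ∀ m, (p m : M) + (p' m : M) = m := fun m => by
    rw [← hes (p m, p' m)]
    exact e.apply_symm_apply m
  have huni : ∀ (m : M) (u : U) (w : W), m = (u : M) + (w : M) → p m = u ∧ p' m = w := by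
    intro m u w hmuw
    have h1 : e.symm m = (u, w) := by
      rw [LinearEquiv.symm_apply_eq, hes]
      exact hmuw
    exact ⟨congrArg Prod.fst h1, congrArg Prod.snd h1⟩
  let υ : G → U → U := fun g u => ⟨ρ g u, hst g u u.2⟩
  let ω : G → W → W := fun g w => ⟨ρ g w, hstW g w w.2⟩
  let β : U →+ U →+ A0 := (b.comp U.subtype.toAddMonoidHom).flip.comp U.subtype.toAddMonoidHom |>.flip
  let γ : W →+ W →+ A0 := (b.comp W.subtype.toAddMonoidHom).flip.comp W.subtype.toAddMonoidHom |>.flip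
  have hβ : ∀ u u', β u u' = b (u : M) (u' : M) := fun u u' => rfl
  have hγ : ∀ w w', γ w w' = b (w : M) (w' : M) := fun w w' => rfl
  have hUW : ∀ (u : U) (w : W), b (u : M) (w : M) = 0 := fun u w => (hW w).1 w.2 u u.2
  have hWU : ∀ (u : U) (w : W), b (w : M) (u : M) = 0 := fun u w => by rw [h.symm, hUW]
  have hb : ∀ m m', b m m' = β (p m) (p m') + γ (p' m) (p' m') := by
    intro m m'
    rw [hβ, hγ]
    conv_lhs => rw [← hdec m, ← hdec m']
    rw [map_add, map_add, AddMonoidHom.add_apply, AddMonoidHom.add_apply, hUW, hWU, add_zero,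
      zero_add]
  have hpU : ∀ u : U, p (u : M) = u ∧ p' (u : M) = 0 := fun u => huni _ u 0 (by simp)
  have hpW : ∀ w : W, p (w : M) = 0 ∧ p' (w : M) = w := fun w => huni _ 0 w (by simp)
  have hSU : SDualF S χ κ Θ O υ β :=
    { act := ⟨fun m => Subtype.ext (h.act.one _), fun g g' m => Subtype.ext (h.act.mul _ _ _),
        fun g m m' => Subtype.ext (h.act.add _ _ _)⟩
      lin := fun g a m => Subtype.ext (h.lin g a _)
      sm := by
        obtain ⟨V, hV, h1⟩ := h.sm
        exact ⟨V, hV, fun w hw m => Subtype.ext (h1 w hw _)⟩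
      symm := fun m m' => h.symm _ _
      bal := fun a m m' => h.bal _ _ _
      eqv := fun g m m' => h.eqv _ _ _
      nd := by
        intro u hu
        apply Subtype.ext
        apply h.nd
        intro m'
        rw [hb, (hpU u).1, (hpU u).2, hu, map_zero, AddMonoidHom.zero_apply, add_zero]
      alt := fun q hq a m => h.alt q hq a _ }
  have hSW : SDualF S χ κ Θ O ω γ :=
    { act := ⟨fun m => Subtype.ext (h.act.one _), fun g g' m => Subtype.ext (h.act.mul _ _ _),
        fun g m m' => Subtype.ext (h.act.add _ _ _)⟩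
      lin := fun g a m => Subtype.ext (h.lin g a _)
      sm := by
        obtain ⟨V, hV, h1⟩ := h.sm
        exact ⟨V, hV, fun w hw m => Subtype.ext (h1 w hw _)⟩
      symm := fun m m' => h.symm _ _
      bal := fun a m m' => h.bal _ _ _
      eqv := fun g m m' => h.eqv _ _ _
      nd := by
        intro w hw
        apply Subtype.ext
        apply h.nd
        intro m'
        rw [hb, (hpW w).1, (hpW w).2, hw, map_zero, AddMonoidHom.zero_apply, add_zero]
      alt := fun q hq a m => h.alt q hq a _ }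
  refine ⟨U, inferInstance, inferInstance, W, inferInstance, inferInstance, υ, β, ω, γ, p, p',
    inferInstance, inferInstance, hSU, hSW, ⟨hSU.act, h4, ?_, ?_⟩, ?_, ?_, ?_, ?_, hb, ?_⟩
  · intro u
    apply Subtype.ext
    have h1 := hm 2 h2 u u.2
    rw [two_smul] at h1
    exact h1
  · intro u u' hu hu'
    obtain ⟨g, hg⟩ := htr u u.2 u' u'.2 (fun h0 => hu (Subtype.ext h0))
      (fun h0 => hu' (Subtype.ext h0))
    exact ⟨g, Subtype.ext hg⟩
  · intro a ha u
    exact Subtype.ext (hm a ha u u.2)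
  · exact e.symm.bijective
  · intro g m
    refine (huni _ (υ g (p m)) (ω g (p' m)) ?_).1
    show ρ g m = ρ g (p m) + ρ g (p' m)
    rw [← h.act.add, hdec]
  · intro g m
    refine (huni _ (υ g (p m)) (ω g (p' m)) ?_).2
    show ρ g m = ρ g (p m) + ρ g (p' m)
    rw [← h.act.add, hdec]
  · rw [← hcard, h4]
    omega

section pairs

variable {X : Type*} [Group X] {T : FSys X} {O : Type*} [CommRing O] {M U W : Type*}
  [AddCommGroup M] [Module O M] [AddCommGroup U] [Module O U] [AddCommGroup W] [Module O W]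
  {σ : X → M → M} {τ : X → U → U} {η : X → W → W} {p : M →ₗ[O] U} {p' : M →ₗ[O] W}

private theorem g3_inj (hbij : Function.Bijective (fun m => (p m, p' m))) {m m' : M}
    (h : p m = p m') (h' : p' m = p' m') : m = m' :=
  hbij.1 (Prod.ext h h')

private theorem g3_Z1 (hbij : Function.Bijective (fun m => (p m, p' m)))
    (hp : ∀ g m, p (σ g m) = τ g (p m)) (hp' : ∀ g m, p' (σ g m) = η g (p' m)) {x : X → M} :
    Z1 T σ x ↔ Z1 T τ (fun a => p (x a)) ∧ Z1 T η (fun a => p' (x a)) := by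
  constructor
  · rintro ⟨⟨V, hV, h1⟩, h2⟩
    refine ⟨⟨⟨V, hV, fun g w hw => congrArg p (h1 g w hw)⟩, fun a b => ?_⟩,
      ⟨⟨V, hV, fun g w hw => congrArg p' (h1 g w hw)⟩, fun a b => ?_⟩⟩
    · show p (x (a * b)) = p (x a) + τ a (p (x b))
      rw [h2, map_add, hp]
    · show p' (x (a * b)) = p' (x a) + η a (p' (x b))
      rw [h2, map_add, hp']
  · rintro ⟨⟨⟨V, hV, h1⟩, h2⟩, ⟨V', hV', h1'⟩, h2'⟩
    refine ⟨⟨V ⊓ V', T.inf hV hV', fun g w hw => g3_inj hbij (h1 g w hw.1) (h1' g w hw.2)⟩,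
      fun a b => g3_inj hbij ?_ ?_⟩
    · rw [map_add, hp]
      exact h2 a b
    · rw [map_add, hp']
      exact h2' a b

private theorem g3_card (hbij : Function.Bijective (fun m => (p m, p' m)))
    {C : Submodule O (X → M)} {A : Submodule O (X → U)} {B : Submodule O (X → W)}
    (hC : ∀ x, x ∈ C ↔ (fun a => p (x a)) ∈ A ∧ (fun a => p' (x a)) ∈ B) :
    Nat.card C = Nat.card A * Nat.card B := by
  rw [← Nat.card_prod]
  refine Nat.card_congr (Equiv.ofBijective (fun x : C =>
    ((⟨fun a => p (x.1 a), ((hC x.1).1 x.2).1⟩ : A), (⟨fun a => p' (x.1 a), ((hC x.1).1 x.2).2⟩ : B)))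
    ⟨fun x y hxy => ?_, ?_⟩)
  · apply Subtype.ext
    funext a
    have h1 := congrArg (fun z => z.1.1 a) hxy
    have h2 := congrArg (fun z => z.2.1 a) hxy
    exact g3_inj hbij h1 h2
  · rintro ⟨⟨y, hy⟩, ⟨z, hz⟩⟩
    choose r hr using fun a => hbij.2 (y a, z a)
    have h1 : (fun a => p (r a)) = y := funext fun a => congrArg Prod.fst (hr a)
    have h2 : (fun a => p' (r a)) = z := funext fun a => congrArg Prod.snd (hr a)
    refine ⟨⟨r, (hC r).2 ⟨by rw [h1]; exact hy, by rw [h2]; exact hz⟩⟩, ?_⟩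
    exact Prod.ext (Subtype.ext h1) (Subtype.ext h2)

private theorem g3_zero {T : FSys X} {η : X → W → W} (h : IsAct η) :
    Z1 T η (fun _ => (0 : W)) := by
  obtain ⟨V, hV⟩ := T.ex
  exact ⟨⟨V, hV, fun _ _ _ => rfl⟩, fun a b => by rw [h.zero, add_zero]⟩

end pairs

theorem par_sum {G : Type*} [Group G] {S : FSys G} {Φ : Type*} [Fintype Φ] {D : Φ → Type*}
    [∀ w, Group (D w)] {SD : ∀ w, FSys (D w)} {j : ∀ w, D w →* G} {χ : G → ℤ_[2]}
    {inv : ∀ w, (D w → D w → A0) → A0} {κ : G →* G} {Θ : Set (G × G)}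
    (H : ParD.{v} S SD j χ inv κ Θ) {O : Type*} [CommRing O] {M U W : Type v}
    [AddCommGroup M] [Module O M] [Finite M] [AddCommGroup U] [Module O U] [Finite U]
    [AddCommGroup W] [Module O W] [Finite W] {ρ : G → M → M} {b : M →+ M →+ A0}
    {υ : G → U → U} {β : U →+ U →+ A0} {ω : G → W → W} {γ : W →+ W →+ A0}
    (h : SDualF S χ κ Θ O ρ b) (hU : SDualF S χ κ Θ O υ β) (hW : SDualF S χ κ Θ O ω γ)
    (p : M →ₗ[O] U) (p' : M →ₗ[O] W) (hbij : Function.Bijective (fun m => (p m, p' m)))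
    (hp : ∀ g m, p (ρ g m) = υ g (p m)) (hp' : ∀ g m, p' (ρ g m) = ω g (p' m))
    (hb : ∀ m m', b m m' = β (p m) (p m') + γ (p' m) (p' m')) (q : ℕ)
    {Λ : ∀ w, Submodule O (D w → U)} (hΛ : ∀ w, Betw (SD w) (fun d => υ (j w d)) (Λ w))
    (hE : EvPow q (Nat.card (selM hU j Λ fun w => perpM H hU w (Λ w)) * ∏ w, Nat.card (Λ w)))
    {Λ' : ∀ w, Submodule O (D w → W)} (hΛ' : ∀ w, Betw (SD w) (fun d => ω (j w d)) (Λ' w))
    (hE' : EvPow q (Nat.card (selM hW j Λ' fun w => perpM H hW w (Λ' w)) *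
      ∏ w, Nat.card (Λ' w))) :
    ∃ Λ'' : ∀ w, Submodule O (D w → M), (∀ w, Betw (SD w) (fun d => ρ (j w d)) (Λ'' w)) ∧
      EvPow q (Nat.card (selM h j Λ'' fun w => perpM H h w (Λ'' w)) *
        ∏ w, Nat.card (Λ'' w)) := by
  let Λ'' : ∀ w, Submodule O (D w → M) := fun w =>
    (Λ w).comap (p.compLeft (D w)) ⊓ (Λ' w).comap (p'.compLeft (D w))
  have hL : ∀ w (x : D w → M), x ∈ Λ'' w ↔
      (fun d => p (x d)) ∈ Λ w ∧ (fun d => p' (x d)) ∈ Λ' w := fun w x => Iff.rfl
  have hperp : ∀ w (y : D w → M), y ∈ perpM H h w (Λ'' w) ↔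
      (fun d => p (y d)) ∈ perpM H hU w (Λ w) ∧ (fun d => p' (y d)) ∈ perpM H hW w (Λ' w) := by
    intro w y
    have hcup : ∀ x : D w → M, cup11 (fun d => ρ (κ (j w d))) b x y = fun s t =>
        cup11 (fun d => υ (κ (j w d))) β (fun d => p (x d)) (fun d => p (y d)) s t +
          cup11 (fun d => ω (κ (j w d))) γ (fun d => p' (x d)) (fun d => p' (y d)) s t := by
      intro x
      funext s t
      simp only [cup11]
      rw [hb, hp, hp']
    constructor
    · rintro ⟨h1, h2⟩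
      obtain ⟨h3, h3'⟩ := (g3_Z1 (p := p) (p' := p') hbij (fun d m => hp (κ (j w d)) m)
        (fun d m => hp' (κ (j w d)) m)).1 h1
      refine ⟨⟨h3, fun x hx hx1 => ?_⟩, ⟨h3', fun x hx hx1 => ?_⟩⟩
      · choose r hr using fun a => hbij.2 (x a, (0 : W))
        have e1 : (fun a => p (r a)) = x := funext fun a => congrArg Prod.fst (hr a)
        have e2 : (fun a => p' (r a)) = fun _ => 0 := funext fun a => congrArg Prod.snd (hr a)
        have h4 := h2 r ((hL w r).2 ⟨by rw [e1]; exact hx, by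
          rw [e2]; exact (Λ' w).zero_mem⟩) ((g3_Z1 (p := p) (p' := p') hbij
            (fun d m => hp (j w d) m) (fun d m => hp' (j w d) m)).2 ⟨by
              rw [e1]; exact hx1, by rw [e2]; exact g3_zero (hW.act.comp (j w))⟩)
        rw [hcup, e1, e2] at h4
        convert h4 using 2
        funext s t
        simp only [cup11, map_zero, AddMonoidHom.zero_apply, add_zero]
      · choose r hr using fun a => hbij.2 ((0 : U), x a)
        have e1 : (fun a => p (r a)) = fun _ => 0 := funext fun a => congrArg Prod.fst (hr a)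
        have e2 : (fun a => p' (r a)) = x := funext fun a => congrArg Prod.snd (hr a)
        have h4 := h2 r ((hL w r).2 ⟨by rw [e1]; exact (Λ w).zero_mem, by
          rw [e2]; exact hx⟩) ((g3_Z1 (p := p) (p' := p') hbij
            (fun d m => hp (j w d) m) (fun d m => hp' (j w d) m)).2 ⟨by
              rw [e1]; exact g3_zero (hU.act.comp (j w)), by rw [e2]; exact hx1⟩)
        rw [hcup, e1, e2] at h4
        convert h4 using 2
        funext s t
        simp only [cup11, map_zero, AddMonoidHom.zero_apply, zero_add]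
    · rintro ⟨⟨h3, h4⟩, ⟨h3', h4'⟩⟩
      refine ⟨(g3_Z1 (p := p) (p' := p') hbij (fun d m => hp (κ (j w d)) m)
        (fun d m => hp' (κ (j w d)) m)).2 ⟨h3, h3'⟩, fun x hx hx1 => ?_⟩
      obtain ⟨h5, h5'⟩ := (g3_Z1 (p := p) (p' := p') hbij (fun d m => hp (j w d) m)
        (fun d m => hp' (j w d) m)).1 hx1
      obtain ⟨h6, h6'⟩ := (hL w x).1 hx
      rw [hcup, (H.loc w).add _ _ (cup11_Z2 (hU.locPair H w) h5 h3)
        (cup11_Z2 (hW.locPair H w) h5' h3'), h4 _ h6 h5, h4' _ h6' h5', add_zero]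
  refine ⟨Λ'', fun w => ⟨fun m => ?_, fun x hx => ?_⟩, ?_⟩
  · rw [hL]
    refine ⟨?_, ?_⟩
    · have h1 := (hΛ w).cob (p m)
      convert h1 using 1
      funext d
      simp only [d0]
      rw [map_sub, hp]
    · have h1 := (hΛ' w).cob (p' m)
      convert h1 using 1
      funext d
      simp only [d0]
      rw [map_sub, hp']
  · exact (g3_Z1 (p := p) (p' := p') hbij (fun d m => hp (j w d) m)
      (fun d m => hp' (j w d) m)).2 ⟨(hΛ w).coc _ ((hL w x).1 hx).1,
        (hΛ' w).coc _ ((hL w x).1 hx).2⟩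
  · have hsel : ∀ x : G → M, x ∈ selM h j Λ'' (fun w => perpM H h w (Λ'' w)) ↔
        (fun g => p (x g)) ∈ selM hU j Λ (fun w => perpM H hU w (Λ w)) ∧
          (fun g => p' (x g)) ∈ selM hW j Λ' (fun w => perpM H hW w (Λ' w)) := by
      intro x
      constructor
      · rintro ⟨h1, h2, h3⟩
        obtain ⟨h4, h4'⟩ := (g3_Z1 (p := p) (p' := p') hbij hp hp').1 h1
        exact ⟨⟨h4, fun w => ((hL w _).1 (h2 w)).1, fun w => ((hperp w _).1 (h3 w)).1⟩,
          ⟨h4', fun w => ((hL w _).1 (h2 w)).2, fun w => ((hperp w _).1 (h3 w)).2⟩⟩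
      · rintro ⟨⟨h1, h2, h3⟩, ⟨h1', h2', h3'⟩⟩
        exact ⟨(g3_Z1 (p := p) (p' := p') hbij hp hp').2 ⟨h1, h1'⟩,
          fun w => (hL w _).2 ⟨h2 w, h2' w⟩, fun w => (hperp w _).2 ⟨h3 w, h3' w⟩⟩
    rw [g3_card hbij hsel, Finset.prod_congr rfl fun w _ => g3_card hbij (hL w),
      Finset.prod_mul_distrib, mul_mul_mul_comm]
    exact GP.evPow_mul hE hE'

end Pool.Agent.Work.MP_787500_nt.KR
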