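import Mathlib
import Pool.Agent.Work.MP_787500_nt.KR.G2_Sub
import Pool.Agent.Work.MP_787500_nt.KR.G3_Sum
import Pool.Agent.Work.MP_787500_nt.KR.M2_Mid

/-!
Parity for all finite self-dual modules when `G / N₀` is cyclic of order 3 or symmetric of degree 3 and the
residue field has two elements.
-/

set_option autoImplicit false
set_option linter.unusedSectionVars false

namespace Pool.Agent.Work.MP_787500_nt.KR

open Pool.Agent.Work.MP_787500_nt.GP (A0 half hf IsAct d0 d1 d2 tw cup11 cup21 cup12 cup01 cup02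
  EvPow IsPow)

universe v

/-- Sha of the trivial line -/
theorem shU_line {G : Type*} [Group G] {F : FSys G} {N₀ C : Subgroup G} {Φ : Type*}
    [Fintype Φ] {D : Φ → Type*} [∀ w, Group (D w)] {SD : ∀ w, FSys (D w)} {j : ∀ w, D w →* G}
    {κ : G →* G} [Fintype (G ⧸ C)] (hodd : Odd (Fintype.card (G ⧸ C)))
    (hT : (traQ C).Sm (big F N₀) (ofTwo (two (res F C))))
    (hj : ∀ (i : Φ × Bool) W, (big F N₀).mem W → ∃ W', (SD i.1).mem W' ∧
      ∀ w ∈ W', (if i.2 then κ.comp (j i.1) else j i.1) w ∈ W)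
    (hi : InjC F C (fun i : Φ × Bool => if i.2 then κ.comp (j i.1) else j i.1))
    (hs : ShaC F C (fun i : Φ × Bool => SD i.1)
      (fun i => if i.2 then κ.comp (j i.1) else j i.1))
    {U : Type*} [AddCommGroup U] {υ : G → U → U} (h : IsLn υ) :
    ShU1 (big F N₀) j κ υ ∧ ShU2 (big F N₀) SD j κ υ := by
  have hf : Finite U := Nat.finite_of_card_ne_zero (by rw [h.card]; norm_num)
  have h2 : ∀ u : U, u + u = 0 := by
    intro u
    have := card_nsmul_eq_zero' (x := u) (G := U)
    rw [h.card] at this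
    rwa [two_nsmul] at this
  letI : Module (ZMod 2) U := AddCommGroup.zmodModule (n := 2) fun x => by rw [two_nsmul, h2]
  have h1 : Nat.card U = Nat.card (ZMod 2) ^ Module.finrank (ZMod 2) U :=
    Module.natCard_eq_pow_finrank
  rw [h.card, Nat.card_zmod] at h1
  have h3 : Module.finrank (ZMod 2) U = 1 := (Nat.pow_right_injective le_rfl (by
    show 2 ^ Module.finrank (ZMod 2) U = 2 ^ 1
    omega))
  let e : U ≃ₗ[ZMod 2] ZMod 2 := LinearEquiv.ofFinrankEq U (ZMod 2) (by rw [h3]; simp)
  let α : U →+ (G ⧸ C → ZMod 2) := AddMonoidHom.mk' (fun u _ => e u) fun u u' => by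
    funext v
    exact map_add e u u'
  let γ : (G ⧸ C → ZMod 2) →+ U := AddMonoidHom.mk' (fun f => e.symm (∑ v, f v)) fun f f' => by
    rw [← map_add, ← Finset.sum_add_distrib]
    rfl
  have hγ : ∀ u, γ (α u) = u := by
    intro u
    show e.symm (∑ v : G ⧸ C, e u) = u
    rw [Finset.sum_const, Finset.card_univ, e.symm_apply_eq]
    obtain ⟨k, hk⟩ := hodd
    rw [hk, add_smul, one_smul, mul_smul, two_smul, CharTwo.add_self_eq_zero, zero_add]
  have eα : ∀ g u, α (υ g u) = prm g (α u) := by
    intro g u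
    funext v
    show e (υ g u) = e u
    rw [h.triv]
  have eγ : ∀ g a, γ (prm g a) = υ g (γ a) := by
    intro g a
    rw [h.triv]
    show e.symm (∑ v, a (g⁻¹ • v)) = e.symm (∑ v, a v)
    rw [sum_shift g a]
  constructor
  · intro x hx k1 k2
    refine sh1_retract (j := fun i : Φ × Bool => if i.2 then κ.comp (j i.1) else j i.1) hγ eα eγ
      (fun y hy => sh1_zero hT hi hy) hx ?_
    rintro ⟨w, _ | _⟩
    · exact k1 w
    · exact k2 w
  · intro F' hF k1 k2
    refine sha2_retract (SD := fun i : Φ × Bool => SD i.1)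
      (j := fun i : Φ × Bool => if i.2 then κ.comp (j i.1) else j i.1) hγ eα eγ
      (sha_ind hT hj hs) F' hF ?_
    rintro ⟨w, _ | _⟩
    · exact k1 w
    · exact k2 w

section main

variable {G : Type*} [Group G] {F : FSys G} {N₀ C : Subgroup G} {Φ : Type*} [Fintype Φ]
  {D : Φ → Type*} [∀ w, Group (D w)] {SD : ∀ w, FSys (D w)} {j : ∀ w, D w →* G} {χ : G → ℤ_[2]}
  {inv : ∀ w, (D w → D w → A0) → A0} {κ : G →* G} {Θ : Set (G × G)}

/-- parity for one local condition, for a self-dual module -/
def Par (H : ParD.{v} (big F N₀) SD j χ inv κ Θ) (O : Type*) [CommRing O] {M : Type v}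
    [AddCommGroup M] [Module O M] {ρ : G → M → M} {b : M →+ M →+ A0}
    (h : SDualF (big F N₀) χ κ Θ O ρ b) : Prop :=
  ∃ Λ : ∀ w, Submodule O (D w → M), (∀ w, Betw (SD w) (fun d => ρ (j w d)) (Λ w)) ∧
    EvPow 2 (Nat.card (selM h j Λ fun w => perpM H h w (Λ w)) * ∏ w, Nat.card (Λ w))

/-- parity for all planes -/
def ParPl (H : ParD.{v} (big F N₀) SD j χ inv κ Θ) (O : Type*) [CommRing O] [IsLocalRing O] :
    Prop :=
  ∀ (U : Type v) [AddCommGroup U] [Module O U] [Finite U] (υ : G → U → U) (β : U →+ U →+ A0)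
    (h : SDualF (big F N₀) χ κ Θ O υ β), IsPl υ →
    (∀ a ∈ IsLocalRing.maximalIdeal O, ∀ u : U, a • u = 0) → Par H O h

private theorem fp3_aux (hC : Tri F N₀ C) (H : ParD.{v} (big F N₀) SD j χ inv κ Θ)
    (hi : InjC F C (fun i : Φ × Bool => if i.2 then κ.comp (j i.1) else j i.1))
    (hs : ShaC F C (fun i : Φ × Bool => SD i.1)
      (fun i => if i.2 then κ.comp (j i.1) else j i.1))
    {O : Type*} [CommRing O] [IsLocalRing O] [Finite (IsLocalRing.ResidueField O)]
    (h2 : (2 : O) ∈ IsLocalRing.maximalIdeal O)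
    (hq : Nat.card (IsLocalRing.ResidueField O) = 2) (hP : ParPl H O) (n : ℕ) :
    ∀ (M : Type v) [AddCommGroup M] [Module O M] [Finite M] (ρ : G → M → M) (b : M →+ M →+ A0)
      (h : SDualF (big F N₀) χ κ Θ O ρ b), Nat.card M = n → Par H O h := by
  have hT := syl_sm hC.toSyl
  have hfin := syl_finite hC.toSyl
  have := Fintype.ofFinite (G ⧸ C)
  have hodd : Odd (Fintype.card (G ⧸ C)) := by
    rw [← Nat.card_eq_fintype_card]
    exact hC.odd
  induction n using Nat.strong_induction_on with
  | _ n ih =>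
    intro M _ _ _ ρ b h hn
    rcases subsingleton_or_nontrivial M with hM | hM
    · refine ⟨fun _ => ⊤, fun w => ⟨fun m => trivial, fun x _ => ?_⟩, ?_⟩
      · have e : x = 0 := Subsingleton.elim _ _
        rw [e]
        exact (zM (O := O) (SD w) (h.act.comp (j w)) (fun g => h.lin _)).zero_mem
      · have e1 : Nat.card (selM h j (fun _ => ⊤) fun w => perpM H h w ⊤) = 1 :=
          Nat.card_of_subsingleton 0
        have e2 : ∏ w : Φ, Nat.card (⊤ : Submodule O (D w → M)) = 1 :=
          Finset.prod_eq_one fun w _ => Nat.card_of_subsingleton 0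
        rw [e1, e2]
        exact ⟨0, by simp⟩
    · obtain ⟨U, hst, hm, hU⟩ := exists_simple hC h2 hq h.act h.lin h.sm
      by_cases hiso : ∀ u ∈ U, ∀ u' ∈ U, b u u' = 0
      · obtain ⟨M₁, _, _, Mb, _, _, U', _, _, ρ₁, ρb, bb, υ, β, e, i, π, q, _, _, _, hb, hUD, hs',
          hlt, hcase⟩ := exists_subU hC H.glob.char H.kk h2 hq h U hst hm hU hiso
        obtain ⟨Λb, hΛb, hEb⟩ := ih _ (by rw [← hn]; exact hlt) Mb ρb bb hb rfl
        have hsh : ShU1 (big F N₀) j κ υ ∧ ShU2 (big F N₀) SD j κ υ := by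
          rcases hcase with hl | hp
          · exact shU_line hodd hT H.glob.jsm hi hs hl
          · obtain ⟨u₀, hu₀, hCu⟩ := hp.base hC hUD.sm
            exact shU_of_trans hT H.glob.jsm hi hs hp.act hp.four hp.two hu₀ hCu
              (fun u hu => hp.tr u₀ u hu₀ hu)
        have hall := UU.par_all H hb hΛb (by rw [hq]; exact hEb)
        have h0 := UU.u_step H h hb hUD hs' hsh.1 hsh.2 hall (UU.lam0 h hUD SD j q)
          (fun w => UU.betw0 H h hb hUD hs' w)
        rw [hq] at h0
        exact ⟨_, fun w => UU.betw0 H h hb hUD hs' w, h0⟩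
      · rcases hU with ⟨hc2, htriv⟩ | ⟨h4, htr⟩
        · exfalso
          apply hiso
          intro u hu u' hu'
          obtain ⟨p, hp⟩ := H.ne
          have hu0 : ∀ x ∈ U, b x x = 0 := by
            intro x hx
            have := h.alt p hp 1 x
            rwa [one_smul, htriv _ x hx] at this
          by_cases e1 : u = 0
          · rw [e1, map_zero, AddMonoidHom.zero_apply]
          by_cases e2 : u' = 0
          · rw [e2, map_zero]
          have e3 : u = u' := by
            have hf : Finite U := Nat.finite_of_card_ne_zero (by rw [hc2]; norm_num)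
            have h5 : Nat.card U = 2 := hc2
            rw [Nat.card_eq_two_iff] at h5
            obtain ⟨x, y, hxy, hxy'⟩ := h5
            have h6 : ∀ z : U, z = x ∨ z = y := by
              intro z
              have : z ∈ ({x, y} : Set U) := by rw [hxy']; trivial
              simpa using this
            have k0 := h6 0
            have k1 := h6 ⟨u, hu⟩
            have k2 := h6 ⟨u', hu'⟩
            have n1 : (⟨u, hu⟩ : U) ≠ 0 := fun h => e1 (congrArg Subtype.val h)
            have n2 : (⟨u', hu'⟩ : U) ≠ 0 := fun h => e2 (congrArg Subtype.val h)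
            have : (⟨u, hu⟩ : U) = ⟨u', hu'⟩ := by
              rcases k0 with k0 | k0 <;> rcases k1 with k1 | k1 <;> rcases k2 with k2 | k2 <;>
                first
                | exact k1.trans k2.symm
                | exact absurd (k1.trans k0.symm) n1
                | exact absurd (k2.trans k0.symm) n2
            exact congrArg Subtype.val this
          rw [← e3]
          exact hu0 u hu
        · obtain ⟨U', _, _, W, _, _, υ, β, ω, γ, p, p', _, _, hU', hW, hpl, hmU, hbij, hp, hp', hbb,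
            hlt⟩ := exists_split H.kk h2 h U hst hm h4 htr hiso
          obtain ⟨Λ, hΛ, hE⟩ := hP U' υ β hU' hpl hmU
          obtain ⟨Λ', hΛ', hE'⟩ := ih _ (by rw [← hn]; exact hlt) W ω γ hW rfl
          exact par_sum H h hU' hW p p' hbij hp hp' hbb 2 hΛ hE hΛ' hE'

/-- parity for all finite self-dual modules -/
theorem finite_parity3 (hC : Tri F N₀ C) (H : ParD.{v} (big F N₀) SD j χ inv κ Θ)
    (hi : InjC F C (fun i : Φ × Bool => if i.2 then κ.comp (j i.1) else j i.1))
    (hs : ShaC F C (fun i : Φ × Bool => SD i.1)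
      (fun i => if i.2 then κ.comp (j i.1) else j i.1))
    {O : Type*} [CommRing O] [IsLocalRing O] [Finite (IsLocalRing.ResidueField O)]
    (h2 : (2 : O) ∈ IsLocalRing.maximalIdeal O)
    (hq : Nat.card (IsLocalRing.ResidueField O) = 2) (hP : ParPl H O)
    {M : Type v} [AddCommGroup M] [Module O M] [Finite M] {ρ : G → M → M} {b : M →+ M →+ A0}
    (h : SDualF (big F N₀) χ κ Θ O ρ b) (Λ : ∀ w, Submodule O (D w → M))
    (hΛ : ∀ w, Betw (SD w) (fun d => ρ (j w d)) (Λ w)) :
    EvPow (Nat.card (IsLocalRing.ResidueField O))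
      (Nat.card (selM h j Λ fun w => perpM H h w (Λ w)) * ∏ w, Nat.card (Λ w)) := by
  obtain ⟨Λ₀, h₀, hE⟩ := fp3_aux hC H hi hs h2 hq hP _ M ρ b h rfl
  exact UU.par_all H h h₀ (by rw [hq]; exact hE) Λ hΛ

end main

end Pool.Agent.Work.MP_787500_nt.KR
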