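import Mathlib
import Pool.Agent.Work.MP_787500_nt.KR.PDefs
import Pool.Agent.Work.MP_787500_nt.KS.Defs

/-!
A self-dual module with four elements, killed by 2, is a plane over the field with two elements: the action is
by matrices `A g` of determinant 1, and the pairing is `hf (ee x (P y))` with an involution `P` such that
`P * A (κ g) * P = A g`.
-/

set_option autoImplicit false
set_option linter.unusedSectionVars false

namespace Pool.Agent.Work.MP_787500_nt.KR

open Matrix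
open Pool.Agent.Work.MP_787500_nt.GP
open Pool.Agent.Work.MP_787500_nt.KS (ee ee_add_left ee_add_right ee_mulVec ee_nondeg ee_comm)

theorem exists_plane4 {M : Type*} [AddCommGroup M] (hM : Nat.card M = 4) (h2 : ∀ m : M, m + m = 0) :
    Nonempty (M ≃+ (Fin 2 → ZMod 2)) := by
  letI : Module (ZMod 2) M := AddCommGroup.zmodModule (n := 2) fun x => by rw [two_nsmul, h2]
  have hf : Finite M := Nat.finite_of_card_ne_zero (by omega)
  have h1 : Nat.card M = Nat.card (ZMod 2) ^ Module.finrank (ZMod 2) M := Module.natCard_eq_pow_finrank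
  rw [hM, Nat.card_zmod] at h1
  have h3 : Module.finrank (ZMod 2) M = 2 := (Nat.pow_right_injective le_rfl (by
    show 2 ^ Module.finrank (ZMod 2) M = 2 ^ 2
    omega))
  have h4 : Module.finrank (ZMod 2) (Fin 2 → ZMod 2) = 2 := by simp
  exact ⟨(LinearEquiv.ofFinrankEq M (Fin 2 → ZMod 2) (h3.trans h4.symm)).toAddEquiv⟩

/-- an additive map of the plane is a matrix -/
theorem exists_matrix (f : (Fin 2 → ZMod 2) → (Fin 2 → ZMod 2)) (hf : ∀ x y, f (x + y) = f x + f y) :
    ∃ A : Matrix (Fin 2) (Fin 2) (ZMod 2), ∀ x, f x = A *ᵥ x := by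
  let L : (Fin 2 → ZMod 2) →ₗ[ZMod 2] (Fin 2 → ZMod 2) :=
    AddMonoidHom.toZModLinearMap 2 (AddMonoidHom.mk' f hf)
  refine ⟨LinearMap.toMatrix' L, fun x => ?_⟩
  rw [LinearMap.toMatrix'_mulVec]
  rfl

theorem det_of_inv {A B : Matrix (Fin 2) (Fin 2) (ZMod 2)} (h : A * B = 1) : A.det = 1 := by
  have h1 : A.det * B.det = 1 := by rw [← det_mul, h, det_one]
  have h2 : ∀ a b : ZMod 2, a * b = 1 → a = 1 := by decide
  exact h2 _ _ h1

theorem matrix_ext_mulVec {A B : Matrix (Fin 2) (Fin 2) (ZMod 2)} (h : ∀ x, A *ᵥ x = B *ᵥ x) : A = B :=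
  Matrix.mulVec_injective (funext h)

theorem sym_inv : ∀ P : Matrix (Fin 2) (Fin 2) (ZMod 2), (∀ x, P *ᵥ x = 0 → x = 0) →
    (∀ x y, ee x (P *ᵥ y) = ee y (P *ᵥ x)) → P * P = 1 := by
  intro P hP hs
  have h1 : P 0 0 = P 1 1 := by
    have := hs ![1, 0] ![0, 1]
    simp [ee, mulVec, dotProduct, Fin.sum_univ_two] at this
    exact this.symm
  have h2 : P.det ≠ 0 := by
    intro h0
    obtain ⟨v, hv, hv0⟩ := Matrix.exists_mulVec_eq_zero_iff.2 h0
    exact hv (hP v hv0)
  have h3 : ∀ a : ZMod 2, a ≠ 0 → a = 1 := by decide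
  have h4 := h3 _ h2
  rw [det_fin_two, ← h1] at h4
  have h5 : ∀ a b c : ZMod 2, a * a - b * c = 1 → a * a + b * c = 1 := by decide
  have h6 := h5 _ _ _ h4
  have h7 : ∀ a b : ZMod 2, a * b + b * a = 0 := by decide
  ext i j
  fin_cases i <;> fin_cases j <;> simp [Matrix.mul_apply, Fin.sum_univ_two, ← h1]
  · exact h6
  · exact h7 _ _
  · rw [mul_comm (P 1 0)]
    exact CharTwo.add_self_eq_zero _
  · rw [mul_comm (P 1 0), add_comm]
    exact h6

theorem exists_U4 {G : Type*} [Group G] {S : FSys G} {χ : G → ℤ_[2]} {κ : G →* G} {Θ : Set (G × G)}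
    {O : Type*} [CommRing O] {M : Type*} [AddCommGroup M] [Module O M] {ρ : G → M → M}
    {b : M →+ M →+ A0} (h : SDualF S χ κ Θ O ρ b) (hχ : ∀ g, (2 : ℤ_[2]) ∣ χ g - 1)
    (hM : Nat.card M = 4) (h2 : ∀ m : M, m + m = 0) :
    ∃ (e : M ≃+ (Fin 2 → ZMod 2)) (A : G →* Matrix (Fin 2) (Fin 2) (ZMod 2))
      (P : Matrix (Fin 2) (Fin 2) (ZMod 2)), (∀ g m, e (ρ g m) = A g *ᵥ e m) ∧ (∀ g, (A g).det = 1) ∧
      P * P = 1 ∧ P.det = 1 ∧ (∀ g, P * A (κ g) * P = A g) ∧
      ∀ m m', b m m' = hf (ee (e m) (P *ᵥ e m')) := by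
  obtain ⟨e⟩ := exists_plane4 hM h2
  choose A hA using fun g => exists_matrix (fun x => e (ρ g (e.symm x))) (fun x y => by
    rw [map_add, h.act.add, map_add])
  have hA' : ∀ g m, e (ρ g m) = A g *ᵥ e m := by
    intro g m
    rw [← hA, e.symm_apply_apply]
  have hA1 : A 1 = 1 := matrix_ext_mulVec fun x => by
    rw [← hA, h.act.one, e.apply_symm_apply, one_mulVec]
  have hAm : ∀ g g', A (g * g') = A g * A g' := fun g g' => matrix_ext_mulVec fun x => by
    rw [← hA, h.act.mul, hA', hA', e.apply_symm_apply, mulVec_mulVec]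
  let A' : G →* Matrix (Fin 2) (Fin 2) (ZMod 2) := ⟨⟨A, hA1⟩, hAm⟩
  have hdet : ∀ g, (A g).det = 1 := fun g => det_of_inv (B := A g⁻¹) (by
    rw [← hAm, mul_inv_cancel, hA1])
  -- the pairing
  have hb2 : ∀ m m', b m m' + b m m' = 0 := by
    intro m m'
    have : b (m + m) m' = b m m' + b m m' := by rw [map_add]; rfl
    rw [← this, h2, map_zero]
    rfl
  choose β hβ using fun x y : Fin 2 → ZMod 2 => eq_hf (hb2 (e.symm x) (e.symm y))
  have hβl : ∀ x x' y, β (x + x') y = β x y + β x' y := by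
    intro x x' y
    apply hf_inj
    rw [hf_add, ← hβ, ← hβ, ← hβ, map_add, map_add]
    rfl
  have hβr : ∀ x y y', β x (y + y') = β x y + β x y' := by
    intro x y y'
    apply hf_inj
    rw [hf_add, ← hβ, ← hβ, ← hβ, map_add, map_add]
  obtain ⟨P, hP⟩ := exists_matrix (fun y => ![β ![0, 1] y, β ![1, 0] y]) (fun y y' => by
    ext i
    fin_cases i <;> simp [hβr])
  have hβ0 : ∀ y, β 0 y = 0 := by
    intro y
    have := hβl 0 0 y
    rw [add_zero] at this
    exact left_eq_add.1 this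
  have hβP : ∀ x y, β x y = ee x (P *ᵥ y) := by
    intro x y
    rw [← hP]
    have hx : x = x 0 • ![(1 : ZMod 2), 0] + x 1 • ![(0 : ZMod 2), 1] := by
      ext i
      fin_cases i <;> simp
    have hs : ∀ (a : ZMod 2) (v : Fin 2 → ZMod 2), β (a • v) y = a * β v y := by
      intro a v
      have h01 : ∀ a : ZMod 2, a = 0 ∨ a = 1 := by decide
      rcases h01 a with rfl | rfl
      · rw [zero_smul, zero_mul, hβ0]
      · rw [one_smul, one_mul]
    conv_lhs => rw [hx]
    rw [hβl, hs, hs]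
    simp [ee]
  have hsym : ∀ x y, ee x (P *ᵥ y) = ee y (P *ᵥ x) := by
    intro x y
    rw [← hβP, ← hβP]
    apply hf_inj
    rw [← hβ, ← hβ, h.symm]
  have hnd : ∀ x, P *ᵥ x = 0 → x = 0 := by
    intro x hx
    have h3 : e.symm x = 0 := h.nd _ fun m' => by
      have h4 := hβ x (e m')
      rw [e.symm_apply_apply] at h4
      rw [h4, hβP, hsym, hx, KS.ee_zero_right, hf_zero]
    rw [← e.apply_symm_apply x, h3, map_zero]
  have hPP := sym_inv P hnd hsym
  have hPd := det_of_inv hPP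
  have hbP : ∀ m m', b m m' = hf (ee (e m) (P *ᵥ e m')) := by
    intro m m'
    have h4 := hβ (e m) (e m')
    rw [e.symm_apply_apply, e.symm_apply_apply] at h4
    rw [h4, hβP]
  refine ⟨e, A', P, hA', hdet, hPP, hPd, fun g => ?_, hbP⟩
  show P * A (κ g) * P = A g
  have h5 : P * A (κ g) = A g * P := by
    refine matrix_ext_mulVec fun y => ?_
    rw [← sub_eq_zero]
    refine ee_nondeg fun x => ?_
    obtain ⟨x', rfl⟩ : ∃ x', x = A g *ᵥ x' := ⟨A g⁻¹ *ᵥ x, by
      rw [mulVec_mulVec, ← hAm, mul_inv_cancel, hA1, one_mulVec]⟩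
    rw [ee_comm, sub_eq_add_neg, ee_add_right]
    have h6 : ∀ v : Fin 2 → ZMod 2, -v = v := fun v => by
      ext i
      exact ZMod.neg_eq_self_mod_two _
    rw [h6]
    have h7 : ee (A g *ᵥ x') ((P * A (κ g)) *ᵥ y) = ee x' (P *ᵥ y) := by
      apply hf_inj
      have h8 := h.eqv g (e.symm x') (e.symm y)
      rw [hbP, hbP, hA', hA', e.apply_symm_apply, e.apply_symm_apply, smul_hf (hχ g),
        mulVec_mulVec] at h8
      exact h8
    have h9 : ee (A g *ᵥ x') ((A g * P) *ᵥ y) = ee x' (P *ᵥ y) := by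
      rw [← mulVec_mulVec, ee_mulVec (hdet g)]
    rw [h7, h9]
    exact CharTwo.add_self_eq_zero _
  rw [h5, mul_assoc, hPP, mul_one]

end Pool.Agent.Work.MP_787500_nt.KR
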