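import Mathlib
import Pool.Agent.Work.MP_787500_nt.KR.U4
import Pool.Agent.Work.MP_787500_nt.KR.NZero

/-!
A group acting on a plane over the field with two elements: all squares act trivially, or the action is
transitive on the nonzero vectors.
-/

set_option autoImplicit false
set_option linter.unusedSectionVars false

namespace Pool.Agent.Work.MP_787500_nt.KR

open Matrix
open Pool.Agent.Work.MP_787500_nt.PA (toE)
open Pool.Agent.Work.MP_787500_nt.GP

/-- a matrix of determinant 1 over the field with two elements has order 1 or 2, or acts transitively on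
the nonzero vectors -/
theorem dich_mat : ∀ A : Matrix (Fin 2) (Fin 2) (ZMod 2), A.det = 1 → A * A = 1 ∨
    ∀ v w : Fin 2 → ZMod 2, v ≠ 0 → w ≠ 0 → w = v ∨ w = A *ᵥ v ∨ w = A *ᵥ (A *ᵥ v) := by
  intro A hA
  obtain ⟨a, b, c, d, rfl⟩ : ∃ a b c d : ZMod 2, A = !![a, b; c, d] :=
    ⟨A 0 0, A 0 1, A 1 0, A 1 1, Matrix.eta_fin_two A⟩
  rw [det_fin_two_of] at hA
  have key1 : ∀ a b c d : ZMod 2, a * d - b * c = 1 → a + d = 0 →
      a * a + b * c = 1 ∧ a * b + b * d = 0 ∧ c * a + d * c = 0 ∧ c * b + d * d = 1 := by decide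
  have key2 : ∀ a b c d : ZMod 2, a * d - b * c = 1 → ¬ a + d = 0 → ∀ v0 v1 w0 w1 : ZMod 2,
      (v0 = 0 ∧ v1 = 0) ∨ (w0 = 0 ∧ w1 = 0) ∨
        (w0 = v0 ∧ w1 = v1) ∨ (w0 = a * v0 + b * v1 ∧ w1 = c * v0 + d * v1) ∨
        (w0 = a * (a * v0 + b * v1) + b * (c * v0 + d * v1) ∧
          w1 = c * (a * v0 + b * v1) + d * (c * v0 + d * v1)) := by decide
  have h' : ∀ v0 v1 w0 w1 : ZMod 2, ¬ a + d = 0 → ¬ (v0 = 0 ∧ v1 = 0) → ¬ (w0 = 0 ∧ w1 = 0) →
      (w0 = v0 ∧ w1 = v1) ∨ (w0 = a * v0 + b * v1 ∧ w1 = c * v0 + d * v1) ∨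
        (w0 = a * (a * v0 + b * v1) + b * (c * v0 + d * v1) ∧
          w1 = c * (a * v0 + b * v1) + d * (c * v0 + d * v1)) := fun v0 v1 w0 w1 h1 h2 h3 =>
    ((key2 a b c d hA h1 v0 v1 w0 w1).resolve_left h2).resolve_left h3
  by_cases had : a + d = 0
  · obtain ⟨h1, h2, h3, h4⟩ := key1 a b c d hA had
    left
    rw [Matrix.mul_fin_two, h1, h2, h3, h4, Matrix.one_fin_two]
  · right
    intro v w hv hw
    have hv' : ¬ (v 0 = 0 ∧ v 1 = 0) := fun ⟨h1, h2⟩ => hv (by
      ext i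
      fin_cases i
      · exact h1
      · exact h2)
    have hw' : ¬ (w 0 = 0 ∧ w 1 = 0) := fun ⟨h1, h2⟩ => hw (by
      ext i
      fin_cases i
      · exact h1
      · exact h2)
    have hmul : ∀ u : Fin 2 → ZMod 2, !![a, b; c, d] *ᵥ u = ![a * u 0 + b * u 1, c * u 0 + d * u 1] := by
      intro u
      ext i
      fin_cases i <;> simp [mulVec, dotProduct, Fin.sum_univ_two]
    rcases h' _ _ _ _ had hv' hw' with ⟨h1, h2⟩ | ⟨h1, h2⟩ | ⟨h1, h2⟩
    · left
      ext i
      fin_cases i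
      · exact h1
      · exact h2
    · right; left
      rw [hmul]
      ext i
      fin_cases i
      · exact h1
      · exact h2
    · right; right
      rw [hmul, hmul]
      ext i
      fin_cases i
      · exact h1
      · exact h2

theorem dich4 {G : Type*} [Group G] {M : Type*} [AddCommGroup M] {ρ : G → M → M} (h : IsAct ρ)
    (hM : Nat.card M = 4) (h2 : ∀ m : M, m + m = 0) :
    (∀ g m, ρ (g ^ 2) m = m) ∨ ∀ m m' : M, m ≠ 0 → m' ≠ 0 → ∃ g, ρ g m = m' := by
  obtain ⟨e⟩ := exists_plane4 hM h2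
  choose A hA using fun g => exists_matrix (fun x => e (ρ g (e.symm x))) (fun x y => by
    rw [map_add, h.add, map_add])
  have hA' : ∀ g m, e (ρ g m) = A g *ᵥ e m := by
    intro g m
    rw [← hA, e.symm_apply_apply]
  have hA1 : A 1 = 1 := matrix_ext_mulVec fun x => by
    rw [← hA, h.one, e.apply_symm_apply, one_mulVec]
  have hAm : ∀ g g', A (g * g') = A g * A g' := fun g g' => matrix_ext_mulVec fun x => by
    rw [← hA, h.mul, hA', hA', e.apply_symm_apply, mulVec_mulVec]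
  have hdet : ∀ g, (A g).det = 1 := fun g => det_of_inv (B := A g⁻¹) (by
    rw [← hAm, mul_inv_cancel, hA1])
  by_cases hsq : ∀ g, A g * A g = 1
  · left
    intro g m
    apply e.injective
    rw [hA', pow_two, hAm, hsq, one_mulVec]
  · right
    push Not at hsq
    obtain ⟨g, hg⟩ := hsq
    intro m m' hm hm'
    have h3 := (dich_mat (A g) (hdet g)).resolve_left hg (e m) (e m')
      (fun h0 => hm (by rw [← e.symm_apply_apply m, h0, map_zero]))
      (fun h0 => hm' (by rw [← e.symm_apply_apply m', h0, map_zero]))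
    rcases h3 with h3 | h3 | h3
    · exact ⟨1, by rw [h.one]; exact (e.injective h3).symm⟩
    · exact ⟨g, e.injective (by rw [hA', h3])⟩
    · exact ⟨g * g, e.injective (by rw [h.mul, hA', hA', h3])⟩

end Pool.Agent.Work.MP_787500_nt.KR
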