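import Mathlib
import Pool.Agent.Work.MP_787500_nt.KR.T04
import Pool.Agent.Work.MP_787500_nt.KR.UDefs

/-!
# The quadratic map on 1-cocycles attached to an anti-equivariant form (phase E3)

`Δ` a group, `D` a subgroup of index 2 (or 1), `N` a `Δ`-module, `β : N × N → A0` a biadditive form with
`β (g x) (g y) = χ g • β x y` for `g ∈ D` and `β (g y) (g x) = -(χ g • β x y)` for `g ∉ D`. For a 1-cocycle `X`
of `Δ` with values in `N`, `Zq X (s, t) = β (X s) (s X t) + [s ∉ D] β (s X t) (s X t)` is a 2-cocycle with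
values in `A0` twisted by `χ`, quadratic in `X` modulo coboundaries; the polar form is the cup product for
the equivariant form `β x y - β y x`.
-/

set_option autoImplicit false
set_option linter.unusedSectionVars false

namespace Pool.Agent.Work.MP_787500_nt.KR

open Pool.Agent.Work.MP_787500_nt.GP (A0 pr0 half hf IsAct d0 d1 d2 tw cup11 cup21 cup12 cup01 cup02)

section quad

variable {Δ : Type*} [Group Δ] {N : Type*} [AddCommGroup N]

/-- a form on the `Δ`-module `N` that is equivariant for `D` and anti-equivariant, with exchange of the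
variables, outside `D` -/
structure QForm (D : Subgroup Δ) (σ : Δ → N → N) (χ : Δ → ℤ_[2]) (β : N →+ N →+ A0) : Prop where
  act : IsAct σ
  ind : ∀ a b : Δ, a * b ∈ D ↔ (a ∈ D ↔ b ∈ D)
  one : χ 1 = 1
  mul : ∀ a b, χ (a * b) = χ a * χ b
  inn : ∀ g ∈ D, ∀ x y, β (σ g x) (σ g y) = χ g • β x y
  out : ∀ g, g ∉ D → ∀ x y, β (σ g y) (σ g x) = -(χ g • β x y)

open scoped Classical in
/-- the quadratic map on cochains -/
noncomputable def Zq (D : Subgroup Δ) (σ : Δ → N → N) (β : N →+ N →+ A0) (X : Δ → N) : Δ → Δ → A0 :=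
  fun s t => β (X s) (σ s (X t)) + if s ∈ D then 0 else β (σ s (X t)) (σ s (X t))

/-- the antisymmetrization of a form -/
noncomputable def asym (β : N →+ N →+ A0) : N →+ N →+ A0 := β - β.flip

theorem asym_apply (β : N →+ N →+ A0) (x y : N) : asym β x y = β x y - β y x := rfl

variable {D : Subgroup Δ} {σ : Δ → N → N} {χ : Δ → ℤ_[2]} {β : N →+ N →+ A0}

theorem Zq_in (s t : Δ) (hs : s ∈ D) (X : Δ → N) : Zq D σ β X s t = β (X s) (σ s (X t)) := by
  simp only [Zq, if_pos hs, add_zero]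

theorem Zq_out (s t : Δ) (hs : s ∉ D) (X : Δ → N) :
    Zq D σ β X s t = β (X s) (σ s (X t)) + β (σ s (X t)) (σ s (X t)) := by
  simp only [Zq, if_neg hs]

/-- the antisymmetrization is equivariant -/
theorem QForm.eqv (h : QForm D σ χ β) (g : Δ) (x y : N) :
    asym β (σ g x) (σ g y) = χ g • asym β x y := by
  rw [asym_apply, asym_apply, smul_sub]
  by_cases hg : g ∈ D
  · rw [h.inn g hg, h.inn g hg]
  · rw [h.out g hg, h.out g hg]
    abel

theorem QForm.coc (h : QForm D σ χ β) {X : Δ → N} (hX : ∀ a b, X (a * b) = X a + σ a (X b))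
    (a b c : Δ) : d2 (tw χ) (Zq D σ β X) a b c = 0 := by
  have hbc : σ (a * b) (X c) = σ a (σ b (X c)) := h.act.mul _ _ _
  simp only [d2, tw]
  by_cases ha : a ∈ D
  · by_cases hb : b ∈ D
    · have hab : a * b ∈ D := (h.ind a b).2 ⟨fun _ => hb, fun _ => ha⟩
      rw [Zq_in _ _ hb, Zq_in _ _ hab, Zq_in _ _ ha, Zq_in _ _ ha, hX a b, hX b c, hbc,
        ← h.inn a ha, h.act.add]
      simp only [map_add, AddMonoidHom.add_apply]
      abel
    · have hab : a * b ∉ D := fun hh => hb (((h.ind a b).1 hh).1 ha)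
      rw [Zq_out _ _ hb, Zq_out _ _ hab, Zq_in _ _ ha, Zq_in _ _ ha, hX a b, hX b c, hbc, smul_add,
        ← h.inn a ha, ← h.inn a ha, h.act.add]
      simp only [map_add, AddMonoidHom.add_apply]
      abel
  · by_cases hb : b ∈ D
    · have hab : a * b ∉ D := fun hh => ha (((h.ind a b).1 hh).2 hb)
      have h1 := h.out a ha (X b) (σ b (X c))
      have h2 : χ a • β (X b) (σ b (X c)) = -β (σ a (σ b (X c))) (σ a (X b)) := by
        rw [h1, neg_neg]
      rw [Zq_in _ _ hb, Zq_out _ _ hab, Zq_out _ _ ha, Zq_out _ _ ha, hX a b, hX b c, hbc, h2,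
        h.act.add]
      simp only [map_add, AddMonoidHom.add_apply]
      abel
    · have hab : a * b ∈ D := (h.ind a b).2 ⟨fun hh => absurd hh ha, fun hh => absurd hh hb⟩
      have h1 := h.out a ha (X b) (σ b (X c))
      have h2 : χ a • β (X b) (σ b (X c)) = -β (σ a (σ b (X c))) (σ a (X b)) := by
        rw [h1, neg_neg]
      have h3 := h.out a ha (σ b (X c)) (σ b (X c))
      have h4 : χ a • β (σ b (X c)) (σ b (X c)) = -β (σ a (σ b (X c))) (σ a (σ b (X c))) := by
        rw [h3, neg_neg]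
      rw [Zq_out _ _ hb, Zq_in _ _ hab, Zq_out _ _ ha, Zq_out _ _ ha, hX a b, hX b c, hbc, smul_add,
        h2, h4, h.act.add]
      simp only [map_add, AddMonoidHom.add_apply]
      abel

/-- the polar form -/
theorem QForm.add (h : QForm D σ χ β) {X Y : Δ → N} (hX : ∀ a b, X (a * b) = X a + σ a (X b))
    (hY : ∀ a b, Y (a * b) = Y a + σ a (Y b)) (s t : Δ) :
    Zq D σ β (fun g => X g + Y g) s t = Zq D σ β X s t + Zq D σ β Y s t +
      cup11 σ (asym β) X Y s t -
        d1 (tw χ) (fun g => β (Y g) (X g)) s t := by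
  simp only [d1, tw, cup11, asym_apply]
  by_cases hs : s ∈ D
  · rw [Zq_in _ _ hs, Zq_in _ _ hs, Zq_in _ _ hs, hX s t, hY s t, ← h.inn s hs, h.act.add]
    simp only [map_add, AddMonoidHom.add_apply]
    abel
  · have h1 := h.out s hs (Y t) (X t)
    have h2 : χ s • β (Y t) (X t) = -β (σ s (X t)) (σ s (Y t)) := by rw [h1, neg_neg]
    rw [Zq_out _ _ hs, Zq_out _ _ hs, Zq_out _ _ hs, hX s t, hY s t, h2, h.act.add]
    simp only [map_add, AddMonoidHom.add_apply]
    abel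

open scoped Classical in
/-- the quadratic map on coboundaries -/
theorem QForm.zd0 (h : QForm D σ χ β) (n : N) (s t : Δ) :
    Zq D σ β (d0 σ n) s t = d1 (tw χ) (fun g => β n (σ g n) - β n n +
      if g ∈ D then 0 else χ g • β n n) s t := by
  have hst : σ (s * t) n = σ s (σ t n) := h.act.mul _ _ _
  have e0 : ∀ x y, σ s (x - y) = σ s x - σ s y := by
    intro x y
    have := h.act.add s (x - y) y
    rw [sub_add_cancel] at this
    rw [this, add_sub_cancel_right]
  simp only [d1, tw]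
  by_cases hs : s ∈ D
  · have h1 := h.inn s hs n (σ t n)
    by_cases ht : t ∈ D
    · have hm : s * t ∈ D := (h.ind s t).2 ⟨fun _ => ht, fun _ => hs⟩
      rw [Zq_in _ _ hs, if_pos hs, if_pos ht, if_pos hm]
      simp only [GP.d0, hst, e0, map_sub, AddMonoidHom.sub_apply, add_zero, smul_sub, ← h1,
        ← h.inn s hs n n]
      abel
    · have hm : s * t ∉ D := fun hh => ht (((h.ind s t).1 hh).1 hs)
      rw [Zq_in _ _ hs, if_pos hs, if_neg ht, if_neg hm, h.mul, mul_smul]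
      simp only [GP.d0, hst, e0, map_sub, AddMonoidHom.sub_apply, add_zero, smul_sub, smul_add, ← h1,
        ← h.inn s hs n n]
      abel
  · have h1 := h.out s hs n (σ t n)
    have h2 : χ s • β n (σ t n) = -β (σ s (σ t n)) (σ s n) := by rw [h1, neg_neg]
    have h3 := h.out s hs n n
    have h4 : χ s • β n n = -β (σ s n) (σ s n) := by rw [h3, neg_neg]
    by_cases ht : t ∈ D
    · have hm : s * t ∉ D := fun hh => hs (((h.ind s t).1 hh).2 ht)
      have h5 : β (σ s (σ t n)) (σ s (σ t n)) = -(χ s • χ t • β n n) := by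
        rw [h.out s hs, h.inn t ht]
      rw [Zq_out _ _ hs, if_neg hs, if_pos ht, if_neg hm, h.mul, mul_smul]
      simp only [GP.d0, hst, e0, map_sub, AddMonoidHom.sub_apply, add_zero, smul_sub, h2, h4, h5]
      abel
    · have hm : s * t ∈ D := (h.ind s t).2 ⟨fun hh => absurd hh hs, fun hh => absurd hh ht⟩
      have h5 : β (σ s (σ t n)) (σ s (σ t n)) = χ s • χ t • β n n := by
        rw [h.out s hs, h.out t ht, smul_neg, neg_neg]
      rw [Zq_out _ _ hs, if_neg hs, if_neg ht, if_pos hm]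
      simp only [GP.d0, hst, e0, map_sub, AddMonoidHom.sub_apply, add_zero, smul_sub, smul_add, h2,
        h4, h5]
      abel

end quad

section smooth

variable {Δ : Type*} [Group Δ] {S : FSys Δ} {N : Type*} [AddCommGroup N] {D : Subgroup Δ}
  {σ : Δ → N → N} {χ : Δ → ℤ_[2]} {β : N →+ N →+ A0} {inv : (Δ → Δ → A0) → A0}

theorem QForm.sm (h : QForm D σ χ β) (hs : Smooth S σ) (hD : Opn S D) {X : Δ → N}
    (hX : Sm1 S X) : Sm2 S (Zq D σ β X) := by
  obtain ⟨W, hW, h1⟩ := hs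
  obtain ⟨W1, hW1, h2⟩ := hX
  obtain ⟨W2, hW2, h3⟩ := hD
  refine ⟨W ⊓ (W1 ⊓ W2), S.inf hW (S.inf hW1 hW2), fun g k w hw w' hw' => ?_⟩
  have e : g * w ∈ D ↔ g ∈ D := by
    rw [h.ind]
    exact ⟨fun hh => hh.2 (h3 hw.2.2), fun hh => ⟨fun _ => h3 hw.2.2, fun _ => hh⟩⟩
  by_cases hg : g ∈ D
  · rw [Zq_in _ _ hg, Zq_in _ _ (e.2 hg), h2 g w hw.2.1, h2 k w' hw'.2.1, h.act.mul, h1 w hw.1]
  · rw [Zq_out _ _ hg, Zq_out _ _ (fun hh => hg (e.1 hh)), h2 g w hw.2.1, h2 k w' hw'.2.1,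
      h.act.mul, h1 w hw.1]

theorem QForm.zZ2 (h : QForm D σ χ β) (hs : Smooth S σ) (hD : Opn S D) {X : Δ → N}
    (hX : Z1 S σ X) : Z2 S (tw χ) (Zq D σ β X) :=
  ⟨h.sm hs hD hX.1, h.coc hX.2⟩

/-- the cup product of two 1-cocycles for an equivariant form -/
theorem cup_Z2 {M M' : Type*} [AddCommGroup M] [AddCommGroup M'] {ρ : Δ → M → M}
    {ρ' : Δ → M' → M'} {B : M →+ M' →+ A0} (hact' : IsAct ρ') (hs' : Smooth S ρ')
    (hB : ∀ g m m', B (ρ g m) (ρ' g m') = χ g • B m m') {x : Δ → M} {y : Δ → M'}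
    (hx : Z1 S ρ x) (hy : Z1 S ρ' y) : Z2 S (tw χ) (cup11 ρ' B x y) := by
  refine ⟨cup11_sm hs' hact' hx.1 hy.1, fun a b c => ?_⟩
  rw [leib11 hact' hB]
  have h1 : d1 ρ x a b = 0 := by simp only [d1, hx.2 a b, sub_self]
  have h2 : d1 ρ' y b c = 0 := by simp only [d1, hy.2 b c, sub_self]
  simp only [cup21, cup12, h1, h2, hact'.zero, map_zero, AddMonoidHom.zero_apply, sub_self]

/-- the cup product with a coboundary on the right -/
theorem cup_d0_right {M M' : Type*} [AddCommGroup M] [AddCommGroup M'] {ρ : Δ → M → M}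
    {ρ' : Δ → M' → M'} {B : M →+ M' →+ A0} (hact' : IsAct ρ')
    (hB : ∀ g m m', B (ρ g m) (ρ' g m') = χ g • B m m') {x : Δ → M}
    (hx : ∀ a b, x (a * b) = x a + ρ a (x b)) (n : M') :
    cup11 ρ' B x (d0 ρ' n) = d1 (tw χ) (fun g => -B (x g) (ρ' g n)) := by
  funext s t
  simp only [cup11, d1, tw, GP.d0, hx s t, hact'.mul, smul_neg, ← hB s, map_add,
    AddMonoidHom.add_apply, hact'.sub, map_sub]
  abel

/-- the cup product with a coboundary on the left -/
theorem cup_d0_left {M M' : Type*} [AddCommGroup M] [AddCommGroup M'] {ρ : Δ → M → M}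
    {ρ' : Δ → M' → M'} {B : M →+ M' →+ A0}
    (hB : ∀ g m m', B (ρ g m) (ρ' g m') = χ g • B m m') {y : Δ → M'}
    (hy : ∀ a b, y (a * b) = y a + ρ' a (y b)) (m : M) :
    cup11 ρ' B (d0 ρ m) y = d1 (tw χ) (fun g => B m (y g)) := by
  funext s t
  simp only [cup11, d1, tw, GP.d0, hy s t, map_sub, AddMonoidHom.sub_apply, map_add, hB]
  abel

theorem bil_sm {X Y : Δ → N} (hX : Sm1 S X) (hY : Sm1 S Y) :
    Sm1 S (fun g => β (Y g) (X g)) := by
  obtain ⟨W1, hW1, h2⟩ := hX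
  obtain ⟨W2, hW2, h3⟩ := hY
  exact ⟨W1 ⊓ W2, S.inf hW1 hW2, fun g w hw => by simp only [h2 g w hw.1, h3 g w hw.2]⟩

/-- `inv` of the quadratic map, sum of two cocycles -/
theorem QForm.inv_add (h : QForm D σ χ β) (hL : LocH S χ inv) (hs : Smooth S σ) (hD : Opn S D)
    {X Y : Δ → N} (hX : Z1 S σ X) (hY : Z1 S σ Y) :
    inv (Zq D σ β (fun g => X g + Y g)) = inv (Zq D σ β X) + inv (Zq D σ β Y) +
      inv (cup11 σ (asym β) X Y) := by
  have hact := isAct_tw hL.char
  have hb : Sm1 S (fun g => β (Y g) (X g)) := bil_sm hX.1 hY.1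
  have z1 := h.zZ2 hs hD hX
  have z2 := h.zZ2 hs hD hY
  have z3 := cup_Z2 h.act hs h.eqv hX hY
  have z4 := d1_tw_Z2 hL.char hb
  have e : Zq D σ β (fun g => X g + Y g) = fun s t => (Zq D σ β X s t + Zq D σ β Y s t) +
      (cup11 σ (asym β) X Y s t +
        -d1 (tw χ) (fun g => β (Y g) (X g)) s t) := by
    funext s t
    rw [h.add hX.2 hY.2]
    abel
  have hn : inv (fun s t => -d1 (tw χ) (fun g => β (Y g) (X g)) s t) = 0 := by
    have h5 := hL.add _ _ z4 (z4.neg hact)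
    have e5 : (fun s t => d1 (tw χ) (fun g => β (Y g) (X g)) s t +
        -d1 (tw χ) (fun g => β (Y g) (X g)) s t) = d1 (tw χ) (fun _ => (0 : A0)) := by
      funext s t
      simp only [d1, tw, smul_zero, add_zero, sub_zero, add_neg_cancel]
    rw [e5, hL.cob _ hb, zero_add, hL.cob _ ⟨hL.char.one |> fun _ => hs.choose, hs.choose_spec.1,
      fun _ _ _ => rfl⟩] at h5
    exact h5.symm
  rw [e, hL.add _ _ (z1.add hact z2) (z3.add hact (z4.neg hact)), hL.add _ _ z1 z2,
    hL.add _ _ z3 (z4.neg hact), hn, add_zero]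

theorem QForm.inv_d0 (h : QForm D σ χ β) (hL : LocH S χ inv) (hs : Smooth S σ) (hD : Opn S D)
    (n : N) : inv (Zq D σ β (d0 σ n)) = 0 := by
  classical
  have e : Zq D σ β (d0 σ n) = d1 (tw χ) (fun g => β n (σ g n) - β n n +
      if g ∈ D then 0 else χ g • β n n) := by
    funext s t
    rw [h.zd0 n s t]
  rw [e]
  refine hL.cob _ ?_
  obtain ⟨W, hW, h1⟩ := hs
  obtain ⟨W2, hW2, h3⟩ := hD
  have hfin : Finite (Set.range fun _ : Unit => β n n) := inferInstance
  obtain ⟨k, -, hk⟩ := GP.a0_killed (fun t : Set.range fun _ : Unit => β n n => (t : A0))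
  obtain ⟨W3, hW3, h4⟩ := hL.char.cont k
  refine ⟨W ⊓ (W2 ⊓ W3), S.inf hW (S.inf hW2 hW3), fun g w hw => ?_⟩
  have e1 : g * w ∈ D ↔ g ∈ D := by
    rw [h.ind]
    exact ⟨fun hh => hh.2 (h3 hw.2.1), fun hh => ⟨fun _ => h3 hw.2.1, fun _ => hh⟩⟩
  have e2 : χ (g * w) • β n n = χ g • β n n := by
    have h5 := h4 1 w hw.2.2
    rw [one_mul, hL.char.one] at h5
    rw [hL.char.mul, mul_smul, hk (χ w) h5 ⟨β n n, ⟨(), rfl⟩⟩]
  simp only [e1, e2, h.act.mul, h1 w hw.1]

/-- `inv` of the quadratic map depends only on the class -/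
theorem QForm.inv_cob (h : QForm D σ χ β) (hL : LocH S χ inv) (hs : Smooth S σ) (hD : Opn S D)
    {X : Δ → N} (hX : Z1 S σ X) (n : N) :
    inv (Zq D σ β (fun g => X g + d0 σ n g)) = inv (Zq D σ β X) := by
  have hd := d0_Z1 h.act hs n
  rw [h.inv_add hL hs hD hX hd, h.inv_d0 hL hs hD, add_zero,
    cup_d0_right h.act h.eqv hX.2, hL.cob _ ?_, add_zero]
  obtain ⟨W1, hW1, h2⟩ := hX.1
  obtain ⟨W, hW, h1⟩ := hs
  exact ⟨W1 ⊓ W, S.inf hW1 hW, fun g w hw => by
    simp only [h2 g w hw.1, h.act.mul, h1 w hw.2]⟩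

end smooth

end Pool.Agent.Work.MP_787500_nt.KR
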