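import Mathlib
import Pool.Agent.Work.MP_787500_nt.KR.EQ1_Quad
import Pool.Agent.Work.MP_787500_nt.HP.ExtCoc

/-!
# The module of pairs for a group with a subgroup of index two (phase E3)

`H` contains `G` (by `e`) with index two, `c` is an involution outside `G`. A `G`-module `M` gives the
`H`-module `M × M`: `e g (m, m') = (g m, κ(g) m')`, `c (m, m') = (m', m)`. A symmetric form `b` with
`b (g m) (κ(g) m') = χ g • b m m'` gives the form `β (m, m') (n, n') = b m n'`, of type `QForm`.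
A cocycle `x` of `G` gives the cocycle `X` of `H`, `X (e g) = X (e g c) = (x g, x (κ g))`, and `Zq X` is
the extension of the pair `(x ∪ x∘κ, b(x, x∘κ))` to `H` (structure `HP.IsExt`).
-/

set_option autoImplicit false
set_option linter.unusedSectionVars false

namespace Pool.Agent.Work.MP_787500_nt.KR

open Pool.Agent.Work.MP_787500_nt.GP (A0 pr0 half hf IsAct d0 d1 d2 tw cup11 cup21 cup12 cup01 cup02)
open Pool.Agent.Work.MP_787500_nt.HP (Dbl IsExt)

section dbl

variable {G H : Type*} [Group G] [Group H] {e : G →* H} {c : H} {κ : G →* G} {χ : H → ℤ_[2]}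
  {M : Type*} [AddCommGroup M]

theorem dblNe (h : Dbl e c κ χ) (g g' : G) : e g ≠ e g' * c := by
  intro h1
  apply h.ne (g'⁻¹ * g)
  rw [map_mul, h1, map_inv, inv_mul_cancel_left]

theorem dblKK (h : Dbl e c κ χ) (g : G) : κ (κ g) = g := by
  apply h.inj
  rw [h.κ, h.κ]
  have h1 : c * (c * e g * c) * c = (c * c) * e g * (c * c) := by
    simp only [mul_assoc]
  rw [h1, h.cc, one_mul, mul_one]

theorem dblComm (h : Dbl e c κ χ) (g : G) : c * e g = e (κ g) * c := by
  rw [h.κ, mul_assoc (c * e g) c c, h.cc, mul_one]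

theorem dblChi (h : Dbl e c κ χ) (g : G) : χ (e (κ g)) = χ (e g) := by
  rw [h.κ, h.mul, h.mul, h.neg]
  ring

open scoped Classical in
/-- the action of `H` on pairs -/
noncomputable def dact (e : G →* H) (c : H) (κ : G →* G) (ρ : G → M → M) (h : H) (n : M × M) :
    M × M :=
  if hh : ∃ g, h = e g then (ρ hh.choose n.1, ρ (κ hh.choose) n.2)
  else if hh : ∃ g, h = e g * c then (ρ hh.choose n.2, ρ (κ hh.choose) n.1) else n

open scoped Classical in
/-- the extension to `H` of a 1-cochain -/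
noncomputable def dext (e : G →* H) (c : H) (κ : G →* G) (x : G → M) (h : H) : M × M :=
  if hh : ∃ g, h = e g then (x hh.choose, x (κ hh.choose))
  else if hh : ∃ g, h = e g * c then (x hh.choose, x (κ hh.choose)) else 0

variable {ρ : G → M → M}

theorem dact_e (hd : Dbl e c κ χ) (g : G) (n : M × M) :
    dact e c κ ρ (e g) n = (ρ g n.1, ρ (κ g) n.2) := by
  have hh : ∃ g', e g = e g' := ⟨g, rfl⟩
  have h1 : hh.choose = g := (hd.inj hh.choose_spec).symm
  unfold dact
  rw [dif_pos hh, h1]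

theorem dact_c (hd : Dbl e c κ χ) (g : G) (n : M × M) :
    dact e c κ ρ (e g * c) n = (ρ g n.2, ρ (κ g) n.1) := by
  have h0 : ¬ ∃ g', e g * c = e g' := fun ⟨g', hg'⟩ => dblNe hd _ _ hg'.symm
  have hh : ∃ g', e g * c = e g' * c := ⟨g, rfl⟩
  have h1 : hh.choose = g := (hd.inj (mul_right_cancel hh.choose_spec)).symm
  unfold dact
  rw [dif_neg h0, dif_pos hh, h1]

theorem dext_e (hd : Dbl e c κ χ) (x : G → M) (g : G) :
    dext e c κ x (e g) = (x g, x (κ g)) := by
  have hh : ∃ g', e g = e g' := ⟨g, rfl⟩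
  have h1 : hh.choose = g := (hd.inj hh.choose_spec).symm
  unfold dext
  rw [dif_pos hh, h1]

theorem dext_c (hd : Dbl e c κ χ) (x : G → M) (g : G) :
    dext e c κ x (e g * c) = (x g, x (κ g)) := by
  have h0 : ¬ ∃ g', e g * c = e g' := fun ⟨g', hg'⟩ => dblNe hd _ _ hg'.symm
  have hh : ∃ g', e g * c = e g' * c := ⟨g, rfl⟩
  have h1 : hh.choose = g := (hd.inj (mul_right_cancel hh.choose_spec)).symm
  unfold dext
  rw [dif_neg h0, dif_pos hh, h1]

theorem dact_act (hd : Dbl e c κ χ) (hρ : IsAct ρ) : IsAct (dact e c κ ρ) where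
  one m := by
    rw [← map_one e, dact_e hd, map_one, hρ.one, hρ.one]
  mul g h m := by
    obtain ⟨a, rfl | rfl⟩ := hd.all g
    · obtain ⟨b, rfl | rfl⟩ := hd.all h
      · rw [← map_mul, dact_e hd, dact_e hd, dact_e hd, map_mul, hρ.mul, hρ.mul]
      · rw [← mul_assoc, ← map_mul, dact_c hd, dact_c hd, dact_e hd, map_mul, hρ.mul, hρ.mul]
    · obtain ⟨b, rfl | rfl⟩ := hd.all h
      · rw [mul_assoc, dblComm hd, ← mul_assoc, ← map_mul, dact_c hd, dact_e hd, dact_c hd,
          map_mul, dblKK hd, hρ.mul, hρ.mul]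
      · have h1 : e a * c * (e b * c) = e (a * κ b) := by
          rw [mul_assoc, ← mul_assoc c, dblComm hd, mul_assoc (e (κ b)), hd.cc, mul_one, map_mul]
        rw [h1, dact_c hd, dact_c hd, dact_e hd, map_mul, dblKK hd, hρ.mul, hρ.mul]
  add g m m' := by
    obtain ⟨a, rfl | rfl⟩ := hd.all g
    · simp only [dact_e hd, Prod.fst_add, Prod.snd_add, hρ.add, Prod.mk_add_mk]
    · simp only [dact_c hd, Prod.fst_add, Prod.snd_add, hρ.add, Prod.mk_add_mk]

theorem dext_coc (hd : Dbl e c κ χ) {x : G → M} (hx : ∀ a b, x (a * b) = x a + ρ a (x b)) (g h : H) :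
    dext e c κ x (g * h) = dext e c κ x g + dact e c κ ρ g (dext e c κ x h) := by
  obtain ⟨a, rfl | rfl⟩ := hd.all g
  · obtain ⟨b, rfl | rfl⟩ := hd.all h
    · rw [← map_mul, dext_e hd, dext_e hd, dext_e hd, dact_e hd, map_mul, hx, hx, Prod.mk_add_mk]
    · rw [← mul_assoc, ← map_mul, dext_c hd, dext_c hd, dext_e hd, dact_e hd, map_mul, hx, hx,
        Prod.mk_add_mk]
  · obtain ⟨b, rfl | rfl⟩ := hd.all h
    · rw [mul_assoc, dblComm hd, ← mul_assoc, ← map_mul, dext_c hd, dext_c hd, dext_e hd,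
        dact_c hd, map_mul, dblKK hd, hx, hx, Prod.mk_add_mk]
    · have h1 : e a * c * (e b * c) = e (a * κ b) := by
        rw [mul_assoc, ← mul_assoc c, dblComm hd, mul_assoc (e (κ b)), hd.cc, mul_one, map_mul]
      rw [h1, dext_e hd, dext_c hd, dext_c hd, dact_c hd, map_mul, dblKK hd, hx, hx,
        Prod.mk_add_mk]

/-- the form on pairs -/
noncomputable def bet (b : M →+ M →+ A0) : (M × M) →+ (M × M) →+ A0 :=
  ((b.comp (AddMonoidHom.fst M M)).flip.comp (AddMonoidHom.snd M M)).flip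

theorem bet_apply (b : M →+ M →+ A0) (n n' : M × M) : bet b n n' = b n.1 n'.2 := rfl

theorem qform_dbl (hd : Dbl e c κ χ) (hρ : IsAct ρ) {b : M →+ M →+ A0}
    (symm : ∀ m m', b m m' = b m' m)
    (eqv : ∀ g m m', b (ρ g m) (ρ (κ g) m') = χ (e g) • b m m') :
    QForm e.range (dact e c κ ρ) χ (bet b) where
  act := dact_act hd hρ
  ind a b := by
    have hc : c ∉ e.range := fun ⟨g, hg⟩ => hd.ne g hg
    have hcx : ∀ g, e g * c ∉ e.range := fun g ⟨g', hg'⟩ => dblNe hd _ _ hg'
    have hin : ∀ g, e g ∈ e.range := fun g => ⟨g, rfl⟩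
    obtain ⟨x, rfl | rfl⟩ := hd.all a
    · obtain ⟨y, rfl | rfl⟩ := hd.all b
      · rw [← map_mul]
        exact ⟨fun _ => ⟨fun _ => hin _, fun _ => hin _⟩, fun _ => hin _⟩
      · rw [← mul_assoc, ← map_mul]
        exact ⟨fun h => absurd h (hcx _), fun h => absurd (h.1 (hin _)) (hcx _)⟩
    · obtain ⟨y, rfl | rfl⟩ := hd.all b
      · rw [mul_assoc, dblComm hd, ← mul_assoc, ← map_mul]
        exact ⟨fun h => absurd h (hcx _), fun h => absurd (h.2 (hin _)) (hcx _)⟩
      · have h1 : e x * c * (e y * c) = e (x * κ y) := by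
          rw [mul_assoc, ← mul_assoc c, dblComm hd, mul_assoc (e (κ y)), hd.cc, mul_one, map_mul]
        rw [h1]
        exact ⟨fun _ => ⟨fun h => absurd h (hcx _), fun h => absurd h (hcx _)⟩, fun _ => hin _⟩
  one := hd.one
  mul := hd.mul
  inn := by
    rintro _ ⟨g, rfl⟩ x y
    rw [dact_e hd, dact_e hd, bet_apply, bet_apply]
    exact eqv g _ _
  out := by
    intro h hh x y
    obtain ⟨g, rfl | rfl⟩ := hd.all h
    · exact absurd ⟨g, rfl⟩ hh
    · rw [dact_c hd, dact_c hd, bet_apply, bet_apply, hd.mul, hd.neg]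
      show b (ρ g y.2) (ρ (κ g) x.1) = _
      rw [eqv, symm, mul_neg, mul_one, neg_smul, neg_neg]

/-- `Zq X` is the extension of the pair `(x ∪ x∘κ, b(x, x∘κ))` -/
theorem isExt_zq (hd : Dbl e c κ χ) {b : M →+ M →+ A0}
    (symm : ∀ m m', b m m' = b m' m)
    (eqv : ∀ g m m', b (ρ g m) (ρ (κ g) m') = χ (e g) • b m m') (x : G → M) :
    IsExt e c κ χ (cup11 (fun g => ρ (κ g)) b x (fun g => x (κ g))) (fun g => b (x g) (x (κ g)))
      (Zq e.range (dact e c κ ρ) (bet b) (dext e c κ x)) where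
  ff g h := by
    have hin : e g ∈ e.range := ⟨g, rfl⟩
    rw [Zq_in _ _ hin, dext_e hd, dext_e hd, dact_e hd, bet_apply]
    rfl
  cf g h := by
    have hcx : e g * c ∉ e.range := fun ⟨g', hg'⟩ => dblNe hd _ _ hg'
    rw [Zq_out _ _ hcx, dext_c hd, dext_e hd, dact_c hd, bet_apply, bet_apply]
    show b (x g) (ρ (κ g) (x h)) + b (ρ g (x (κ h))) (ρ (κ g) (x h)) = _
    rw [eqv, symm (x (κ h))]
    simp only [cup11, dblKK hd]
  fc a g := by
    have h1 : dext e c κ x (e g * c) = dext e c κ x (e g) := by rw [dext_c hd, dext_e hd]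
    simp only [Zq, h1]

/-- the extension is unique -/
theorem isExt_unique (hd : Dbl e c κ χ) {z : G → G → A0} {u : G → A0} {F F' : H → H → A0}
    (hF : IsExt e c κ χ z u F) (hF' : IsExt e c κ χ z u F') : F = F' := by
  funext a b
  have h1 : ∀ g, F a (e g) = F' a (e g) := by
    intro g
    obtain ⟨k, rfl | rfl⟩ := hd.all a
    · rw [hF.ff, hF'.ff]
    · rw [hF.cf, hF'.cf]
  obtain ⟨g, rfl | rfl⟩ := hd.all b
  · exact h1 g
  · rw [hF.fc, hF'.fc, h1 g]

end dbl

section restrict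

variable {Δ H : Type*} [Group Δ] [Group H] {N : Type*} [AddCommGroup N] {D : Subgroup H}
  {σ : H → N → N} {χ : H → ℤ_[2]} {β : N →+ N →+ A0}

theorem QForm.comp (h : QForm D σ χ β) (i : Δ →* H) :
    QForm (D.comap i) (fun δ => σ (i δ)) (fun δ => χ (i δ)) β where
  act := h.act.comp i
  ind a b := by
    simp only [Subgroup.mem_comap, map_mul]
    exact h.ind _ _
  one := by rw [map_one, h.one]
  mul a b := by rw [map_mul, h.mul]
  inn g hg := h.inn (i g) hg
  out g hg := h.out (i g) hg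

theorem Zq_comp (i : Δ →* H) (X : H → N) (a b : Δ) :
    Zq (D.comap i) (fun δ => σ (i δ)) β (fun δ => X (i δ)) a b = Zq D σ β X (i a) (i b) := by
  by_cases h : i a ∈ D
  · have h' : a ∈ D.comap i := h
    rw [Zq_in _ _ h, Zq_in _ _ h']
  · have h' : a ∉ D.comap i := h
    rw [Zq_out _ _ h, Zq_out _ _ h']

end restrict

end Pool.Agent.Work.MP_787500_nt.KR
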