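import Mathlib
import Pool.Agent.Work.MP_787500_nt.KR.EQ2_Dbl

/-!
# A place stable under conjugation: the Shapiro lift of a local cocycle (phase E3)

`StPl`: `C` is the decomposition group at the place (with `j : C → G`), `Δ` the decomposition group in the
large group `H` (`i : Δ → H`), `ι : C → Δ` the inclusion, of index two; `τ ∈ Δ`, `i τ = e g * c`; `kv` is
conjugation by `τ` on `C`, `ι s = τ * τ`.

`lft x (ι d) = (x d, x^# d)`, `x^# d = g⁻¹ x (kv d)`, `lft x (ι d * τ) = lft x (ι d) + ι d (0, g⁻¹ x s)`: the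
cocycle of `Δ` with values in `M × M` with first component `x` on `C`. A cocycle of `Δ` with first component 0
on `C` is a coboundary.
-/

set_option autoImplicit false
set_option linter.unusedSectionVars false

namespace Pool.Agent.Work.MP_787500_nt.KR

open Pool.Agent.Work.MP_787500_nt.GP (A0 pr0 half hf IsAct d0 d1 d2 tw cup11 cup21 cup12 cup01 cup02)
open Pool.Agent.Work.MP_787500_nt.HP (Dbl IsExt)

/-- a place of `G` stable under `κ` -/
structure StPl {G H C Δ : Type*} [Group G] [Group H] [Group C] [Group Δ] (e : G →* H) (c : H)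
    (κ : G →* G) (χ : H → ℤ_[2]) (S : FSys Δ) (SC : FSys C) (i : Δ →* H) (j : C →* G) (ι : C →* Δ)
    (τ : Δ) (g : G) (kv : C →* C) (s : C) : Prop where
  dbl : Dbl e c κ χ
  comm : ∀ d, i (ι d) = e (j d)
  inj : Function.Injective ι
  ran : ∀ δ, (∃ g, i δ = e g) → ∃ d, δ = ι d
  tau : i τ = e g * c
  kv : ∀ d, ι (kv d) = τ * ι d * τ⁻¹
  sq : ι s = τ * τ
  res : ∀ W, S.mem W → ∃ W', SC.mem W' ∧ ∀ w ∈ W', ι w ∈ W
  cores : ∀ W, SC.mem W → ∃ W', S.mem W' ∧ ∀ w ∈ W', ∃ d ∈ W, w = ι d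

section place

variable {G H C Δ : Type*} [Group G] [Group H] [Group C] [Group Δ] {e : G →* H} {c : H}
  {κ : G →* G} {χ : H → ℤ_[2]} {S : FSys Δ} {SC : FSys C} {i : Δ →* H} {j : C →* G} {ι : C →* Δ}
  {τ : Δ} {g : G} {kv : C →* C} {s : C}

theorem StPl.all (P : StPl e c κ χ S SC i j ι τ g kv s) (δ : Δ) :
    (∃ d, δ = ι d) ∨ ∃ d, δ = ι d * τ := by
  obtain ⟨a, ha | ha⟩ := P.dbl.all (i δ)
  · exact Or.inl (P.ran δ ⟨a, ha⟩)
  · right
    obtain ⟨d, hd⟩ := P.ran (δ * τ⁻¹) ⟨a * g⁻¹, by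
      have hci : c⁻¹ = c := inv_eq_of_mul_eq_one_left P.dbl.cc
      rw [map_mul, ha, map_inv, P.tau, mul_inv_rev, hci, mul_assoc, ← mul_assoc c c, P.dbl.cc,
        one_mul, map_mul, map_inv]⟩
    exact ⟨d, by rw [← hd, inv_mul_cancel_right]⟩

theorem StPl.jkv (P : StPl e c κ χ S SC i j ι τ g kv s) (d : C) : j (kv d) = g * κ (j d) * g⁻¹ := by
  apply P.dbl.inj
  have hci : c⁻¹ = c := inv_eq_of_mul_eq_one_left P.dbl.cc
  rw [← P.comm, P.kv, map_mul, map_mul, map_inv, P.tau, P.comm, map_mul, map_mul, map_inv,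
    P.dbl.κ, mul_inv_rev, hci]
  simp only [mul_assoc]

theorem StPl.js (P : StPl e c κ χ S SC i j ι τ g kv s) : j s = g * κ g := by
  apply P.dbl.inj
  rw [← P.comm, P.sq, map_mul, P.tau, map_mul, P.dbl.κ]
  simp only [mul_assoc]

theorem StPl.kvs (P : StPl e c κ χ S SC i j ι τ g kv s) : kv s = s := by
  apply P.inj
  rw [P.kv, P.sq, mul_assoc, mul_assoc, mul_inv_cancel, mul_one]

theorem StPl.kv2 (P : StPl e c κ χ S SC i j ι τ g kv s) (d : C) : kv (kv d) = s * d * s⁻¹ := by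
  apply P.inj
  rw [P.kv, P.kv, map_mul, map_mul, map_inv, P.sq]
  simp only [mul_assoc, mul_inv_rev]

theorem StPl.jinj (P : StPl e c κ χ S SC i j ι τ g kv s) (hi : Function.Injective i) :
    Function.Injective j := by
  intro a b hab
  apply P.inj
  apply hi
  rw [P.comm, P.comm, hab]

theorem StPl.tauC (P : StPl e c κ χ S SC i j ι τ g kv s) (d : C) : τ * ι d = ι (kv d) * τ := by
  rw [P.kv, inv_mul_cancel_right]

theorem StPl.ne (P : StPl e c κ χ S SC i j ι τ g kv s) (d d' : C) : ι d ≠ ι d' * τ := by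
  intro h
  have h1 := congrArg i h
  rw [map_mul, P.comm, P.comm, P.tau, ← mul_assoc, ← map_mul] at h1
  exact dblNe P.dbl _ _ h1

/-- conjugation by `τ` is compatible with the system -/
theorem StPl.kvsm (P : StPl e c κ χ S SC i j ι τ g kv s) (W : Subgroup C) (hW : SC.mem W) :
    ∃ W', SC.mem W' ∧ ∀ w ∈ W', kv w ∈ W := by
  obtain ⟨U, hU, h1⟩ := P.cores W hW
  obtain ⟨W', hW', h2⟩ := P.res U hU
  refine ⟨W', hW', fun w hw => ?_⟩
  have hn := S.normal hU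
  obtain ⟨d, hd, h3⟩ := h1 _ (hn.conj_mem _ (h2 w hw) τ)
  have h4 : kv w = d := P.inj (by rw [P.kv]; exact h3)
  rw [h4]
  exact hd

variable {M : Type*} [AddCommGroup M] {ρ : G → M → M}

open scoped Classical in
/-- the Shapiro lift -/
noncomputable def lft (ρ : G → M → M) (κ : G →* G) (j : C →* G) (ι : C →* Δ) (τ : Δ) (g : G)
    (kv : C →* C) (s : C) (x : C → M) (δ : Δ) : M × M :=
  if hh : ∃ d, δ = ι d then (x hh.choose, ρ g⁻¹ (x (kv hh.choose)))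
  else if hh : ∃ d, δ = ι d * τ then (x hh.choose, ρ g⁻¹ (x (kv hh.choose)) +
    ρ (κ (j hh.choose)) (ρ g⁻¹ (x s))) else 0

theorem lft_i (P : StPl e c κ χ S SC i j ι τ g kv s) (x : C → M) (d : C) :
    lft ρ κ j ι τ g kv s x (ι d) = (x d, ρ g⁻¹ (x (kv d))) := by
  have hh : ∃ d', ι d = ι d' := ⟨d, rfl⟩
  have h1 : hh.choose = d := (P.inj hh.choose_spec).symm
  unfold lft
  rw [dif_pos hh, h1]

theorem lft_t (P : StPl e c κ χ S SC i j ι τ g kv s) (x : C → M) (d : C) :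
    lft ρ κ j ι τ g kv s x (ι d * τ) = (x d, ρ g⁻¹ (x (kv d)) + ρ (κ (j d)) (ρ g⁻¹ (x s))) := by
  have h0 : ¬ ∃ d', ι d * τ = ι d' := fun ⟨d', hd'⟩ => P.ne _ _ hd'.symm
  have hh : ∃ d', ι d * τ = ι d' * τ := ⟨d, rfl⟩
  have h1 : hh.choose = d := (P.inj (mul_right_cancel hh.choose_spec)).symm
  unfold lft
  rw [dif_neg h0, dif_pos hh, h1]

theorem dact_i (P : StPl e c κ χ S SC i j ι τ g kv s) (d : C) (n : M × M) :
    dact e c κ ρ (i (ι d)) n = (ρ (j d) n.1, ρ (κ (j d)) n.2) := by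
  rw [P.comm, dact_e P.dbl]

theorem dact_t (P : StPl e c κ χ S SC i j ι τ g kv s) (d : C) (n : M × M) :
    dact e c κ ρ (i (ι d * τ)) n = (ρ (j d * g) n.2, ρ (κ (j d) * κ g) n.1) := by
  rw [map_mul, P.comm, P.tau, ← mul_assoc, ← map_mul, dact_c P.dbl, map_mul]

/-- the twist of the cocycle is a cocycle for the twisted action -/
theorem StPl.twc (P : StPl e c κ χ S SC i j ι τ g kv s) (hρ : IsAct ρ) {x : C → M}
    (hx : ∀ a b, x (a * b) = x a + ρ (j a) (x b)) (a b : C) :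
    ρ g⁻¹ (x (kv (a * b))) = ρ g⁻¹ (x (kv a)) + ρ (κ (j a)) (ρ g⁻¹ (x (kv b))) := by
  rw [map_mul, hx, hρ.add, ← hρ.mul, ← hρ.mul, P.jkv]
  congr 2
  simp only [mul_assoc, inv_mul_cancel_left]

private theorem StPl.key (P : StPl e c κ χ S SC i j ι τ g kv s) (hρ : IsAct ρ) {x : C → M}
    (hx : ∀ a b, x (a * b) = x a + ρ (j a) (x b)) (d : C) :
    ρ g⁻¹ (x (kv (kv d))) + ρ (κ (j (kv d))) (ρ g⁻¹ (x s)) =
      ρ g⁻¹ (x s) + ρ (κ g) (x d) := by
  have h1 : x (s * d * s⁻¹) = x s + ρ (j s) (x d) - ρ (j (s * d * s⁻¹)) (x s) := by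
    have h2 := hx (s * d * s⁻¹) s
    rw [inv_mul_cancel_right, hx s d] at h2
    rw [h2, add_sub_cancel_right]
  have e1 : ρ g⁻¹ (ρ (j s) (x d)) = ρ (κ g) (x d) := by
    rw [← hρ.mul, P.js, inv_mul_cancel_left]
  have e2 : ρ g⁻¹ (ρ (j (s * d * s⁻¹)) (x s)) = ρ (κ (j (kv d))) (ρ g⁻¹ (x s)) := by
    rw [← hρ.mul, ← hρ.mul, P.jkv, map_mul, map_mul, map_inv, P.js, map_mul, map_mul, map_inv,
      dblKK P.dbl]
    congr 1
    simp only [mul_assoc, mul_inv_rev, inv_mul_cancel_left]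
  rw [P.kv2, h1, hρ.sub, hρ.add, e1, e2]
  abel

theorem lft_coc (P : StPl e c κ χ S SC i j ι τ g kv s) (hρ : IsAct ρ) {x : C → M}
    (hx : ∀ a b, x (a * b) = x a + ρ (j a) (x b)) (a b : Δ) :
    lft ρ κ j ι τ g kv s x (a * b) = lft ρ κ j ι τ g kv s x a +
      dact e c κ ρ (i a) (lft ρ κ j ι τ g kv s x b) := by
  have hg : ∀ m, ρ g (ρ g⁻¹ m) = m := fun m => by rw [← hρ.mul, mul_inv_cancel, hρ.one]
  rcases P.all a with ⟨d, rfl⟩ | ⟨d, rfl⟩
  · rcases P.all b with ⟨d', rfl⟩ | ⟨d', rfl⟩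
    · rw [← map_mul, lft_i P, lft_i P, lft_i P, dact_i P, hx, P.twc hρ hx, Prod.mk_add_mk]
    · rw [← mul_assoc, ← map_mul, lft_t P, lft_t P, lft_i P, dact_i P, hx, P.twc hρ hx, map_mul,
        map_mul, hρ.mul, hρ.add, Prod.mk_add_mk]
      congr 1
      abel
  · rcases P.all b with ⟨d', rfl⟩ | ⟨d', rfl⟩
    · have e1 : ι d * τ * ι d' = ι (d * kv d') * τ := by
        rw [mul_assoc, P.tauC, ← mul_assoc, map_mul]
      rw [e1, lft_t P, lft_t P, lft_i P, dact_t P, hx, P.twc hρ hx, map_mul j, map_mul κ, hρ.mul,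
        Prod.mk_add_mk]
      have hk := P.key hρ hx d'
      congr 1
      · rw [hρ.mul, hg]
      · rw [hρ.mul, add_assoc, ← hρ.add, hk, hρ.add]
        abel
    · have e1 : ι d * τ * (ι d' * τ) = ι (d * kv d' * s) := by
        rw [← mul_assoc, mul_assoc (ι d), P.tauC, map_mul, map_mul, P.sq]
        simp only [mul_assoc]
      have hk := P.key hρ hx d'
      rw [e1, lft_i P, lft_t P, lft_t P, dact_t P, hx, hx, P.twc hρ hx, P.twc hρ hx, P.kvs,
        Prod.mk_add_mk]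
      congr 1
      · rw [hρ.add, hρ.mul (j d), hg, hρ.mul (j d), ← hρ.mul g, ← hρ.mul (g * κ (j d')), ← P.jkv,
          ← hρ.mul (j d), map_mul, add_assoc]
      · rw [map_mul j, map_mul κ, hρ.mul (κ (j d)), hρ.mul (κ (j d)), add_assoc, ← hρ.add, hk,
          hρ.add]
        abel

theorem lft_add (P : StPl e c κ χ S SC i j ι τ g kv s) (hρ : IsAct ρ) (x y : C → M) :
    lft ρ κ j ι τ g kv s (fun d => x d + y d) =
      fun δ => lft ρ κ j ι τ g kv s x δ + lft ρ κ j ι τ g kv s y δ := by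
  funext δ
  rcases P.all δ with ⟨d, rfl⟩ | ⟨d, rfl⟩
  · rw [lft_i P, lft_i P, lft_i P, hρ.add, Prod.mk_add_mk]
  · rw [lft_t P, lft_t P, lft_t P, hρ.add, hρ.add, hρ.add, Prod.mk_add_mk]
    congr 1
    abel

/-- naturality of the lift -/
theorem lft_nat (P : StPl e c κ χ S SC i j ι τ g kv s) {M' : Type*} [AddCommGroup M']
    {ρ' : G → M' → M'} (f : M →+ M') (hf : ∀ a m, f (ρ a m) = ρ' a (f m)) (x : C → M) (δ : Δ) :
    lft ρ' κ j ι τ g kv s (fun d => f (x d)) δ =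
      ((f (lft ρ κ j ι τ g kv s x δ).1, f (lft ρ κ j ι τ g kv s x δ).2) : M' × M') := by
  rcases P.all δ with ⟨d, rfl⟩ | ⟨d, rfl⟩
  · rw [lft_i P, lft_i P, hf]
  · rw [lft_t P, lft_t P, map_add, hf, hf, hf]

/-- the action of the local group on pairs is smooth -/
theorem StPl.smN (P : StPl e c κ χ S SC i j ι τ g kv s) (hρ : IsAct ρ)
    (hs : Smooth SC fun d => ρ (j d)) : Smooth S fun δ => dact e c κ ρ (i δ) := by
  obtain ⟨W, hW, h1⟩ := hs
  obtain ⟨W', hW', h2⟩ := P.kvsm W hW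
  obtain ⟨U, hU, h3⟩ := P.cores _ (SC.inf hW hW')
  refine ⟨U, hU, fun w hw n => ?_⟩
  obtain ⟨d, hd, rfl⟩ := h3 w hw
  show dact e c κ ρ (i (ι d)) n = n
  have h1' : ∀ w ∈ W, ∀ m, ρ (j w) m = m := h1
  rw [dact_i P, h1' d hd.1]
  have h4 : ρ (κ (j d)) n.2 = n.2 := by
    have h5 := h1' _ (h2 d hd.2) (ρ g n.2)
    rw [P.jkv, ← hρ.mul, inv_mul_cancel_right, hρ.mul] at h5
    have h6 := congrArg (ρ g⁻¹) h5
    rw [← hρ.mul g⁻¹ g, ← hρ.mul g⁻¹ g, inv_mul_cancel, hρ.one, hρ.one] at h6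
    exact h6
  rw [h4]

/-- a cocycle of `Δ` that is smooth on `C` is smooth -/
theorem StPl.z1_of (P : StPl e c κ χ S SC i j ι τ g kv s) {N : Type*} [AddCommGroup N]
    {σ : Δ → N → N} (hσ : IsAct σ) {X : Δ → N}
    (hX : ∀ a b, X (a * b) = X a + σ a (X b)) (hs : Sm1 SC fun d => X (ι d)) : Z1 S σ X := by
  refine ⟨?_, hX⟩
  obtain ⟨W, hW, h1⟩ := hs
  obtain ⟨U, hU, h2⟩ := P.cores W hW
  refine ⟨U, hU, fun a w hw => ?_⟩
  obtain ⟨d, hd, rfl⟩ := h2 w hw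
  have h3 : X (ι (1 * d)) = X (ι 1) := h1 1 d hd
  have h4 : X 1 = 0 := by
    have := hX 1 1
    rw [one_mul, hσ.one] at this
    exact left_eq_add.1 this
  rw [one_mul, map_one, h4] at h3
  rw [hX, h3, hσ.zero, add_zero]

theorem lft_Z1 (P : StPl e c κ χ S SC i j ι τ g kv s) (hρ : IsAct ρ) {x : C → M}
    (hx : Z1 SC (fun d => ρ (j d)) x) :
    Z1 S (fun δ => dact e c κ ρ (i δ)) (lft ρ κ j ι τ g kv s x) := by
  refine P.z1_of ((dact_act P.dbl hρ).comp i) (lft_coc P hρ hx.2) ?_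
  obtain ⟨W, hW, h1⟩ := hx.1
  obtain ⟨W', hW', h2⟩ := P.kvsm W hW
  refine ⟨W ⊓ W', SC.inf hW hW', fun d w hw => ?_⟩
  show lft ρ κ j ι τ g kv s x (ι (d * w)) = lft ρ κ j ι τ g kv s x (ι d)
  rw [lft_i P, lft_i P, h1 d w hw.1, map_mul, h1 _ _ (h2 w hw.2)]

/-- a cocycle with first component 0 on `C` is a coboundary -/
theorem StPl.triv (P : StPl e c κ χ S SC i j ι τ g kv s) (hρ : IsAct ρ) {X : Δ → M × M}
    (hX : ∀ a b, X (a * b) = X a + dact e c κ ρ (i a) (X b)) (h0 : ∀ d, (X (ι d)).1 = 0) :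
    ∃ m : M, X = d0 (fun δ => dact e c κ ρ (i δ)) ((0, m) : M × M) := by
  have hg : ∀ m, ρ g (ρ g⁻¹ m) = m := fun m => by rw [← hρ.mul, mul_inv_cancel, hρ.one]
  have hg' : ∀ m, ρ g⁻¹ (ρ g m) = m := fun m => by rw [← hρ.mul, inv_mul_cancel, hρ.one]
  have ht : ∀ n : M × M, dact e c κ ρ (i τ) n = (ρ g n.2, ρ (κ g) n.1) := by
    intro n
    rw [P.tau, dact_c P.dbl]
  -- second component on `C`
  have h1 : ∀ d, (X (ι d)).2 = ρ (κ (j d)) (ρ g⁻¹ (X τ).1) - ρ g⁻¹ (X τ).1 := by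
    intro d
    have e1 := hX τ (ι d)
    rw [P.tauC, hX, ht, dact_i P] at e1
    have e2 := congrArg Prod.fst e1
    simp only [Prod.fst_add] at e2
    rw [h0, zero_add] at e2
    have e3 : ρ g (X (ι d)).2 = ρ (j (kv d)) (X τ).1 - (X τ).1 := by
      rw [e2, add_sub_cancel_left]
    have e4 := congrArg (ρ g⁻¹) e3
    rw [hg', hρ.sub, ← hρ.mul, P.jkv] at e4
    rw [e4, ← hρ.mul]
    congr 2
    simp only [mul_assoc, inv_mul_cancel_left]
  have h2 : (X τ).2 = -ρ g⁻¹ (X τ).1 := by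
    have e1 := hX τ τ
    rw [← P.sq, ht] at e1
    have e2 := congrArg Prod.fst e1
    simp only [Prod.fst_add] at e2
    rw [h0] at e2
    have e3 : ρ g (X τ).2 = -(X τ).1 := by
      rw [eq_neg_iff_add_eq_zero, add_comm]
      exact e2.symm
    have e4 := congrArg (ρ g⁻¹) e3
    rw [hg', hρ.neg] at e4
    exact e4
  have hz : ∀ a, ρ a (0 : M) = 0 := hρ.zero
  refine ⟨ρ g⁻¹ (X τ).1, ?_⟩
  have hC : ∀ d, X (ι d) = d0 (fun δ => dact e c κ ρ (i δ)) ((0, ρ g⁻¹ (X τ).1) : M × M) (ι d) := by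
    intro d
    simp only [d0]
    rw [dact_i P]
    apply Prod.ext
    · show (X (ι d)).1 = ρ (j d) 0 - 0
      rw [h0, hz, sub_zero]
    · exact h1 d
  have hT : X τ = d0 (fun δ => dact e c κ ρ (i δ)) ((0, ρ g⁻¹ (X τ).1) : M × M) τ := by
    simp only [d0]
    rw [ht]
    apply Prod.ext
    · show (X τ).1 = ρ g (ρ g⁻¹ (X τ).1) - 0
      rw [hg, sub_zero]
    · show (X τ).2 = ρ (κ g) 0 - ρ g⁻¹ (X τ).1
      rw [hz, zero_sub, h2]
  funext δ
  rcases P.all δ with ⟨d, rfl⟩ | ⟨d, rfl⟩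
  · exact hC d
  · have hdm : ∀ a b : Δ, d0 (fun δ => dact e c κ ρ (i δ)) ((0, ρ g⁻¹ (X τ).1) : M × M) (a * b) =
        d0 (fun δ => dact e c κ ρ (i δ)) ((0, ρ g⁻¹ (X τ).1) : M × M) a +
          dact e c κ ρ (i a) (d0 (fun δ => dact e c κ ρ (i δ)) ((0, ρ g⁻¹ (X τ).1) : M × M) b) := by
      intro a b
      have hact := dact_act P.dbl hρ
      simp only [d0]
      rw [map_mul, hact.mul, hact.sub]
      abel
    rw [hX, hdm, ← hC, ← hT]

/-- a cocycle of `Δ` is the lift of its first component up to a coboundary -/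
theorem StPl.uniq (P : StPl e c κ χ S SC i j ι τ g kv s) (hρ : IsAct ρ) {X : Δ → M × M}
    (hX : ∀ a b, X (a * b) = X a + dact e c κ ρ (i a) (X b)) {x : C → M}
    (hx : ∀ a b, x (a * b) = x a + ρ (j a) (x b)) (h0 : ∀ d, (X (ι d)).1 = x d) :
    ∃ m : M, X = fun δ => lft ρ κ j ι τ g kv s x δ +
      d0 (fun δ => dact e c κ ρ (i δ)) ((0, m) : M × M) δ := by
  have hl := lft_coc P hρ hx
  obtain ⟨m, hm⟩ := P.triv hρ (X := fun δ => X δ - lft ρ κ j ι τ g kv s x δ) (fun a b => by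
      rw [hX, hl, (dact_act P.dbl hρ).sub]
      abel) (fun d => by
      show (X (ι d)).1 - (lft ρ κ j ι τ g kv s x (ι d)).1 = 0
      rw [h0, lft_i P, sub_self])
  refine ⟨m, ?_⟩
  rw [← hm]
  funext δ
  exact (add_sub_cancel _ _).symm

end place

section qv

variable {G H C Δ : Type*} [Group G] [Group H] [Group C] [Group Δ] {e : G →* H} {c : H}
  {κ : G →* G} {χ : H → ℤ_[2]} {S : FSys Δ} {SC : FSys C} {i : Δ →* H} {j : C →* G} {ι : C →* Δ}
  {τ : Δ} {g : G} {kv : C →* C} {s : C} {M : Type*} [AddCommGroup M] {ρ : G → M → M}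
  {b : M →+ M →+ A0} {inv : (Δ → Δ → A0) → A0}

/-- the subgroup of index two of `Δ` is open -/
theorem StPl.opn (P : StPl e c κ χ S SC i j ι τ g kv s) : Opn S (e.range.comap i) := by
  obtain ⟨W, hW⟩ := SC.ex
  obtain ⟨U, hU, h1⟩ := P.cores W hW
  refine ⟨U, hU, fun w hw => ?_⟩
  obtain ⟨d, -, rfl⟩ := h1 w hw
  exact ⟨j d, (P.comm d).symm⟩

/-- the quadratic form on local cocycles at a stable place -/
noncomputable def qv (e : G →* H) (c : H) (κ : G →* G) (i : Δ →* H) (j : C →* G) (ι : C →* Δ)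
    (τ : Δ) (g : G) (kv : C →* C) (s : C) (inv : (Δ → Δ → A0) → A0) (ρ : G → M → M)
    (b : M →+ M →+ A0) (x : C → M) : A0 :=
  inv (Zq (e.range.comap i) (fun δ => dact e c κ ρ (i δ)) (bet b) (lft ρ κ j ι τ g kv s x))

/-- the polar form on local cocycles at a stable place -/
noncomputable def pv (e : G →* H) (c : H) (κ : G →* G) (i : Δ →* H) (j : C →* G) (ι : C →* Δ)
    (τ : Δ) (g : G) (kv : C →* C) (s : C) (inv : (Δ → Δ → A0) → A0) (ρ : G → M → M)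
    (b : M →+ M →+ A0) (x y : C → M) : A0 :=
  inv (cup11 (fun δ => dact e c κ ρ (i δ)) (asym (bet b)) (lft ρ κ j ι τ g kv s x)
    (lft ρ κ j ι τ g kv s y))

theorem qv_add (P : StPl e c κ χ S SC i j ι τ g kv s) (hL : LocH S (fun δ => χ (i δ)) inv)
    (hρ : IsAct ρ) (hs : Smooth SC fun d => ρ (j d)) (symm : ∀ m m', b m m' = b m' m)
    (eqv : ∀ g m m', b (ρ g m) (ρ (κ g) m') = χ (e g) • b m m') {x y : C → M}
    (hx : Z1 SC (fun d => ρ (j d)) x) (hy : Z1 SC (fun d => ρ (j d)) y) :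
    qv e c κ i j ι τ g kv s inv ρ b (fun d => x d + y d) =
      qv e c κ i j ι τ g kv s inv ρ b x + qv e c κ i j ι τ g kv s inv ρ b y +
        pv e c κ i j ι τ g kv s inv ρ b x y := by
  unfold qv pv
  rw [lft_add P hρ]
  exact ((qform_dbl P.dbl hρ symm eqv).comp i).inv_add hL (P.smN hρ hs) P.opn (lft_Z1 P hρ hx)
    (lft_Z1 P hρ hy)

/-- the quadratic form of the first component of a cocycle of `Δ` -/
theorem qv_eq (P : StPl e c κ χ S SC i j ι τ g kv s) (hL : LocH S (fun δ => χ (i δ)) inv)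
    (hρ : IsAct ρ) (hs : Smooth SC fun d => ρ (j d)) (symm : ∀ m m', b m m' = b m' m)
    (eqv : ∀ g m m', b (ρ g m) (ρ (κ g) m') = χ (e g) • b m m') {X : Δ → M × M}
    (hX : ∀ a b, X (a * b) = X a + dact e c κ ρ (i a) (X b)) {x : C → M}
    (hx : Z1 SC (fun d => ρ (j d)) x) (h0 : ∀ d, (X (ι d)).1 = x d) :
    qv e c κ i j ι τ g kv s inv ρ b x =
      inv (Zq (e.range.comap i) (fun δ => dact e c κ ρ (i δ)) (bet b) X) := by
  obtain ⟨m, hm⟩ := P.uniq hρ hX hx.2 h0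
  rw [hm]
  exact (((qform_dbl P.dbl hρ symm eqv).comp i).inv_cob hL (P.smN hρ hs) P.opn (lft_Z1 P hρ hx)
    _).symm

/-- the quadratic form of the restriction of a global cocycle is the invariant of the extension to `H`
of the pair `(x ∪ x∘κ, b(x, x∘κ))` -/
theorem qv_glob (P : StPl e c κ χ S SC i j ι τ g kv s) (hL : LocH S (fun δ => χ (i δ)) inv)
    (hρ : IsAct ρ) (hs : Smooth SC fun d => ρ (j d)) (symm : ∀ m m', b m m' = b m' m)
    (eqv : ∀ g m m', b (ρ g m) (ρ (κ g) m') = χ (e g) • b m m') {x : G → M}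
    (hx : ∀ a b, x (a * b) = x a + ρ a (x b)) (hsx : Sm1 SC fun d => x (j d)) {F : H → H → A0}
    (hF : IsExt e c κ χ (cup11 (fun g => ρ (κ g)) b x (fun g => x (κ g)))
      (fun g => b (x g) (x (κ g))) F) :
    qv e c κ i j ι τ g kv s inv ρ b (fun d => x (j d)) = inv (fun a b => F (i a) (i b)) := by
  rw [qv_eq P hL hρ hs symm eqv (X := fun δ => dext e c κ x (i δ)) (fun a b => by
      rw [map_mul, dext_coc P.dbl hx]) ⟨hsx, fun a b => by rw [map_mul, hx]⟩ (fun d => by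
      rw [P.comm, dext_e P.dbl])]
  congr 1
  funext a b'
  rw [Zq_comp, isExt_unique P.dbl hF (isExt_zq P.dbl symm eqv x)]

/-- naturality -/
theorem qv_nat (P : StPl e c κ χ S SC i j ι τ g kv s) {M' : Type*} [AddCommGroup M']
    {ρ' : G → M' → M'} {b' : M' →+ M' →+ A0} (f : M →+ M') (hf : ∀ a m, f (ρ a m) = ρ' a (f m))
    (hb : ∀ m m', b' (f m) (f m') = b m m') (x : C → M) :
    qv e c κ i j ι τ g kv s inv ρ' b' (fun d => f (x d)) = qv e c κ i j ι τ g kv s inv ρ b x := by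
  unfold qv
  congr 1
  funext s' t
  have hact : ∀ (h : H) (n : M × M), dact e c κ ρ' h ((f n.1, f n.2) : M' × M') =
      ((f (dact e c κ ρ h n).1, f (dact e c κ ρ h n).2) : M' × M') := by
    intro h n
    obtain ⟨a, rfl | rfl⟩ := P.dbl.all h
    · rw [dact_e P.dbl, dact_e P.dbl, hf, hf]
    · rw [dact_c P.dbl, dact_c P.dbl, hf, hf]
  simp only [Zq, lft_nat P f hf, hact, bet_apply, hb]

/-- the quadratic form vanishes on the unramified classes: `J` is the inertia group, `x` vanishes on `J`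
and has values in the invariants of `J` -/
theorem qv_unr (P : StPl e c κ χ S SC i j ι τ g kv s) (hρ : IsAct ρ)
    (hs : Smooth SC fun d => ρ (j d)) (symm : ∀ m m', b m m' = b m' m)
    (eqv : ∀ g m m', b (ρ g m) (ρ (κ g) m') = χ (e g) • b m m') {x : C → M}
    (hx : Z1 SC (fun d => ρ (j d)) x) (J : Subgroup Δ) (hJn : J.Normal)
    (hJ : ∀ w ∈ J, ∃ d, w = ι d)
    (hur : ∀ f, Z2 S (tw fun δ => χ (i δ)) f →
      (∀ s t, ∀ w ∈ J, ∀ w' ∈ J, f (s * w) (t * w') = f s t) → inv f = 0)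
    (h0 : ∀ d, ι d ∈ J → x d = 0) : qv e c κ i j ι τ g kv s inv ρ b x = 0 := by
  have hQ := (qform_dbl P.dbl hρ symm eqv).comp i
  have hl := lft_Z1 P hρ hx
  have hact := (dact_act P.dbl hρ).comp i
  refine hur _ (hQ.zZ2 (P.smN hρ hs) P.opn hl) fun s' t w hw w' hw' => ?_
  have hz : ∀ w ∈ J, lft ρ κ j ι τ g kv s x w = 0 := by
    intro w hw
    obtain ⟨d, rfl⟩ := hJ w hw
    rw [lft_i P, h0 d hw, h0 (kv d) (by
      rw [P.kv]
      exact hJn.conj_mem _ hw τ), hρ.zero]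
    rfl
  have hmul : ∀ a, ∀ w ∈ J, lft ρ κ j ι τ g kv s x (a * w) = lft ρ κ j ι τ g kv s x a := by
    intro a w hw
    rw [hl.2, hz w hw]
    show _ + dact e c κ ρ (i a) 0 = _
    rw [(dact_act P.dbl hρ).zero, add_zero]
  have hinv : ∀ w ∈ J, ∀ a, dact e c κ ρ (i w) (lft ρ κ j ι τ g kv s x a) =
      lft ρ κ j ι τ g kv s x a := by
    intro w hw a
    have h1 : lft ρ κ j ι τ g kv s x (w * a) = lft ρ κ j ι τ g kv s x w +
      dact e c κ ρ (i w) (lft ρ κ j ι τ g kv s x a) := hl.2 w a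
    rw [hz w hw, zero_add] at h1
    have h2 : w * a = a * (a⁻¹ * w * a) := by group
    have h3 : a⁻¹ * w * a ∈ J := by
      have := hJn.conj_mem _ hw a⁻¹
      rwa [inv_inv] at this
    rw [← h1, h2, hmul a _ h3]
  have hin : s' * w ∈ e.range.comap i ↔ s' ∈ e.range.comap i := by
    have hw1 : w ∈ e.range.comap i := by
      obtain ⟨d, rfl⟩ := hJ w hw
      exact ⟨j d, (P.comm d).symm⟩
    rw [hQ.ind]
    exact ⟨fun hh => hh.2 hw1, fun hh => ⟨fun _ => hw1, fun _ => hh⟩⟩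
  by_cases hs' : s' ∈ e.range.comap i
  · rw [Zq_in _ _ hs', Zq_in _ _ (hin.2 hs'), hmul s' w hw, hmul t w' hw', map_mul,
      (dact_act P.dbl hρ).mul, hinv w hw]
  · rw [Zq_out _ _ hs', Zq_out _ _ (fun hh => hs' (hin.1 hh)), hmul s' w hw, hmul t w' hw',
      map_mul, (dact_act P.dbl hρ).mul, hinv w hw]

end qv

end Pool.Agent.Work.MP_787500_nt.KR
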