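import Mathlib
import Pool.Agent.Work.MP_787500_nt.KR.US_Sum
import Pool.Agent.Work.MP_787500_nt.KR.C3_Sm

/-!
A module with a Higman endomorphism is a direct summand of an induced module; Sha of such a module.

`t` is an endomorphism of `U` whose conjugates `υ(g) t υ(g)⁻¹`, `g` in `G / N₀`, have the sum `id`. Then `U` is a
direct summand of the module of functions on `G / N₀` with values in `U`, which is a finite sum of copies of the
permutation module `G ⧸ N₀ → ZMod 2`.
-/

set_option autoImplicit false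
set_option linter.unusedSectionVars false

namespace Pool.Agent.Work.MP_787500_nt.KR

open Pool.Agent.Work.MP_787500_nt.GP (A0 half hf IsAct d0 d1 d2 tw cup11 cup02)
open Pool.Agent.Work.MP_787500_nt.PA (TwoSys homs LocalType)

section perm

variable {G V A : Type*} [Group G] [MulAction G V]

/-- the action of `G` on the functions on `V` with values in `A` -/
def prA (g : G) (f : V → A) : V → A := fun v => f (g⁻¹ • v)

theorem prA_act [AddCommGroup A] : IsAct (prA : G → (V → A) → V → A) where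
  one f := by
    funext v
    simp only [prA, inv_one, one_smul]
  mul g h f := by
    funext v
    simp only [prA, mul_inv_rev, mul_smul]
  add g f f' := rfl

end perm

section summand

variable {G : Type*} [Group G] {N₀ : Subgroup G} {U : Type*} [AddCommGroup U] {υ : G → U → U}

/-- elements of the same coset act in the same way -/
theorem act_coset (h : IsAct υ) (hN : ∀ g ∈ N₀, ∀ u, υ g u = u) {g k : G} (hk : g⁻¹ * k ∈ N₀)
    (u : U) : υ k u = υ g u := by
  conv_lhs => rw [← mul_inv_cancel_left g k, h.mul, hN _ hk]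

theorem act_rep (h : IsAct υ) (hN : ∀ g ∈ N₀, ∀ u, υ g u = u) (g : G) (v : G ⧸ N₀) (u : U) :
    υ (repQ N₀ (g • v)) u = υ g (υ (repQ N₀ v) u) := by
  rw [← h.mul]
  refine act_coset h hN ?_ u
  rw [← QuotientGroup.eq, mk_repQ]
  have e : ((g * repQ N₀ v : G) : G ⧸ N₀) = g • ((repQ N₀ v : G) : G ⧸ N₀) := rfl
  rw [e, mk_repQ]

theorem act_rep_inv (h : IsAct υ) (hN : ∀ g ∈ N₀, ∀ u, υ g u = u) (g : G) (v : G ⧸ N₀) (u : U) :
    υ (repQ N₀ (g • v))⁻¹ u = υ (repQ N₀ v)⁻¹ (υ g⁻¹ u) := by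
  have h1 := act_rep h hN g v (υ (repQ N₀ v)⁻¹ (υ g⁻¹ u))
  rw [← h.mul (repQ N₀ v), mul_inv_cancel, h.one, ← h.mul g, mul_inv_cancel, h.one] at h1
  rw [← h1, ← h.mul, inv_mul_cancel, h.one]
  rw [h1]

/-- a module with a Higman endomorphism is a direct summand of an induced module -/
theorem hig_summand [Fintype (G ⧸ N₀)] (h : IsAct υ) (hN : ∀ g ∈ N₀, ∀ u, υ g u = u) (t : U →+ U)
    (ht : ∀ u, ∑ v : G ⧸ N₀, υ (repQ N₀ v) (t (υ (repQ N₀ v)⁻¹ u)) = u) :
    ∃ (α : U →+ (G ⧸ N₀ → U)) (γ : (G ⧸ N₀ → U) →+ U), (∀ u, γ (α u) = u) ∧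
      (∀ g u, α (υ g u) = prA g (α u)) ∧ ∀ g a, γ (prA g a) = υ g (γ a) := by
  refine ⟨AddMonoidHom.mk' (fun u v => t (υ (repQ N₀ v)⁻¹ u)) fun u u' => ?_,
    AddMonoidHom.mk' (fun f => ∑ v, υ (repQ N₀ v) (f v)) fun f f' => ?_, ht, fun g u => ?_,
    fun g f => ?_⟩
  · funext v
    simp only [h.add, map_add, Pi.add_apply]
  · simp only [Pi.add_apply, h.add, Finset.sum_add_distrib]
  · funext v
    show t (υ (repQ N₀ v)⁻¹ (υ g u)) = t (υ (repQ N₀ (g⁻¹ • v))⁻¹ u)
    rw [act_rep_inv h hN, inv_inv]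
  · show ∑ v, υ (repQ N₀ v) (f (g⁻¹ • v)) = υ g (∑ v, υ (repQ N₀ v) (f v))
    rw [IsAct.sum' h, ← sum_shift g (fun v => υ g (υ (repQ N₀ v) (f v)))]
    refine Finset.sum_congr rfl fun v _ => ?_
    rw [← act_rep h hN, smul_inv_smul]

end summand

/-! ## Functions with values in a finite module killed by 2 -/

section copies

/-- a finite group killed by 2 is a sum of copies of `ZMod 2` -/
theorem exists_copies (A : Type*) [AddCommGroup A] [Finite A] (h2 : ∀ a : A, a + a = 0) :
    ∃ k : ℕ, Nonempty (A ≃+ (Fin k → ZMod 2)) := by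
  let _ : Module (ZMod 2) A := AddCommGroup.zmodModule (n := 2) fun x => by rw [two_nsmul, h2]
  have : Module.Finite (ZMod 2) A := Module.Finite.of_finite
  have e : A ≃ₗ[ZMod 2] (Fin (Module.finrank (ZMod 2) A) → ZMod 2) :=
    LinearEquiv.ofFinrankEq _ _ (by rw [Module.finrank_fin_fun])
  exact ⟨Module.finrank (ZMod 2) A, ⟨e.toAddEquiv⟩⟩

variable {G : Type*} [Group G] {F : FSys G} {N₀ C : Subgroup G}

/-- Sha in degree 1 of the functions on the cosets with values in a finite module killed by 2 -/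
theorem sh1_copies {I : Type*} {D : I → Type*} [∀ i, Group (D i)] {j : ∀ i, D i →* G}
    (hT : (traQ C).Sm (big F N₀) (ofTwo (two (res F C)))) (hi : InjC F C j)
    {A : Type*} [AddCommGroup A] [Finite A] (h2 : ∀ a : A, a + a = 0)
    {x : G → G ⧸ C → A} (hx : Z1 (big F N₀) prA x)
    (h0 : ∀ i, ∃ f, ∀ d, x (j i d) = d0 (fun d => prA (j i d)) f d) : ∃ f, x = d0 prA f := by
  obtain ⟨k, ⟨e⟩⟩ := exists_copies A h2
  have h3 : ∀ s : Fin k, ∃ f : G ⧸ C → ZMod 2, (fun g v => e (x g v) s) = d0 prm f := by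
    intro s
    refine sh1_zero hT hi ⟨?_, fun a b => ?_⟩ fun i => ?_
    · obtain ⟨W, hW, h1⟩ := hx.1
      refine ⟨W, hW, fun g w hw => ?_⟩
      funext v
      show e (x (g * w) v) s = e (x g v) s
      rw [h1 g w hw]
    · funext v
      show e (x (a * b) v) s = e (x a v) s + e (x b (a⁻¹ • v)) s
      rw [hx.2 a b]
      show e (x a v + x b (a⁻¹ • v)) s = _
      rw [map_add]
      rfl
    · obtain ⟨f, hf⟩ := h0 i
      refine ⟨fun v => e (f v) s, fun d => ?_⟩
      funext v
      rw [hf d]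
      show e (f ((j i d)⁻¹ • v) - f v) s = e (f ((j i d)⁻¹ • v)) s - e (f v) s
      rw [map_sub]
      rfl
  choose f hf using h3
  refine ⟨fun v => e.symm fun s => f s v, ?_⟩
  funext g v
  apply e.injective
  funext s
  have h4 : e (x g v) s = f s (g⁻¹ • v) - f s v := congrFun (congrFun (hf s) g) v
  rw [h4]
  show _ = e (e.symm (fun s => f s (g⁻¹ • v)) - e.symm (fun s => f s v)) s
  rw [map_sub, e.apply_symm_apply, e.apply_symm_apply]
  rfl

/-- Sha in degree 2 of the functions on the cosets with values in a finite module killed by 2 -/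
theorem sha_copies {I : Type*} [Fintype I] {D : I → Type*} [∀ i, Group (D i)]
    {SD : ∀ i, FSys (D i)} {j : ∀ i, D i →* G} [Finite (G ⧸ C)]
    (hT : (traQ C).Sm (big F N₀) (ofTwo (two (res F C))))
    (hj : ∀ i W, (big F N₀).mem W → ∃ W', (SD i).mem W' ∧ ∀ w ∈ W', j i w ∈ W)
    (hs : ShaC F C SD j) {A : Type*} [AddCommGroup A] [Finite A] (h2 : ∀ a : A, a + a = 0) :
    Sha2 (big F N₀) SD j (prA : G → (G ⧸ C → A) → G ⧸ C → A) := by
  obtain ⟨k, ⟨e⟩⟩ := exists_copies A h2
  intro f hf hloc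
  have h3 : ∀ s : Fin k, ∃ X : G → G ⧸ C → ZMod 2, Sm1 (big F N₀) X ∧
      (fun g g' v => e (f g g' v) s) = d1 prm X := by
    intro s
    refine sha_ind hT hj hs (fun g g' v => e (f g g' v) s) ⟨?_, fun a b c => ?_⟩ fun i => ?_
    · obtain ⟨W, hW, h1⟩ := hf.1
      refine ⟨W, hW, fun g g' w hw w' hw' => ?_⟩
      funext v
      show e (f (g * w) (g' * w') v) s = e (f g g' v) s
      rw [h1 g g' w hw w' hw']
    · funext v
      have h4 : f b c (a⁻¹ • v) - f (a * b) c v + f a (b * c) v - f a b v = 0 :=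
        congrFun (hf.2 a b c) v
      show e (f b c (a⁻¹ • v)) s - e (f (a * b) c v) s + e (f a (b * c) v) s - e (f a b v) s = 0
      have h5 := congrArg (fun z => e z s) h4
      simp only [map_sub, map_add, map_zero] at h5
      exact h5
    · obtain ⟨x, ⟨W, hW, h1⟩, h4⟩ := hloc i
      refine ⟨fun d v => e (x d v) s, ⟨W, hW, fun g w hw => ?_⟩, ?_⟩
      · funext v
        show e (x (g * w) v) s = e (x g v) s
        rw [h1 g w hw]
      · funext a b v
        have h5 : f (j i a) (j i b) v = x a v + x b ((j i a)⁻¹ • v) - x (a * b) v :=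
          congrFun (congrFun (congrFun h4 a) b) v
        show e (f (j i a) (j i b) v) s = e (x a v) s + e (x b ((j i a)⁻¹ • v)) s - e (x (a * b) v) s
        rw [h5, map_sub, map_add]
        rfl
  choose X hX hXf using h3
  refine ⟨fun g v => e.symm fun s => X s g v, ?_, ?_⟩
  · have h4 : Sm1 (big F N₀) (fun g (s : Fin k) => X s g) := by
      choose W hW h5 using hX
      have h6 : ∀ t : Finset (Fin k), ∃ W', (big F N₀).mem W' ∧ ∀ s ∈ t, W' ≤ W s := by
        intro t
        induction t using Finset.induction_on with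
        | empty =>
          obtain ⟨W', hW'⟩ := (big F N₀).ex
          exact ⟨W', hW', fun s hs => absurd hs (Finset.notMem_empty s)⟩
        | insert a t _ ih =>
          obtain ⟨W', hW', h7⟩ := ih
          refine ⟨W' ⊓ W a, (big F N₀).inf hW' (hW a), fun s hs => ?_⟩
          rcases Finset.mem_insert.1 hs with rfl | hs
          · exact inf_le_right
          · exact inf_le_left.trans (h7 s hs)
      obtain ⟨W', hW', h7⟩ := h6 Finset.univ
      refine ⟨W', hW', fun g w hw => ?_⟩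
      funext s
      exact h5 s g w (h7 s (Finset.mem_univ s) hw)
    obtain ⟨W, hW, h5⟩ := h4
    refine ⟨W, hW, fun g w hw => ?_⟩
    funext v
    show e.symm (fun s => X s (g * w) v) = e.symm (fun s => X s g v)
    refine congrArg e.symm ?_
    funext s
    exact congrFun (congrFun (h5 g w hw) s) v
  · funext a b v
    apply e.injective
    funext s
    have h4 : e (f a b v) s = X s a v + X s b (a⁻¹ • v) - X s (a * b) v :=
      congrFun (congrFun (congrFun (hXf s) a) b) v
    rw [h4]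
    show _ = e (e.symm (fun s => X s a v) + e.symm (fun s => X s b (a⁻¹ • v)) -
      e.symm (fun s => X s (a * b) v)) s
    rw [map_sub, map_add, e.apply_symm_apply, e.apply_symm_apply, e.apply_symm_apply]
    rfl

end copies

/-- Sha of a module with a Higman endomorphism -/
theorem shU_hig {G : Type*} [Group G] {F : FSys G} {N₀ : Subgroup G} {Φ : Type*}
    [Fintype Φ] {D : Φ → Type*} [∀ w, Group (D w)] {SD : ∀ w, FSys (D w)} {j : ∀ w, D w →* G}
    {κ : G →* G} [N₀.Normal] [Fintype (G ⧸ N₀)] (hN : Opn F N₀)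
    (hj : ∀ (i : Φ × Bool) W, (big F N₀).mem W → ∃ W', (SD i.1).mem W' ∧
      ∀ w ∈ W', (if i.2 then κ.comp (j i.1) else j i.1) w ∈ W)
    (hi : InjC F N₀ (fun i : Φ × Bool => if i.2 then κ.comp (j i.1) else j i.1))
    (hs : ShaC F N₀ (fun i : Φ × Bool => SD i.1)
      (fun i => if i.2 then κ.comp (j i.1) else j i.1))
    {U : Type*} [AddCommGroup U] [Finite U] {υ : G → U → U} (h : IsAct υ)
    (h2 : ∀ u : U, u + u = 0) (hU : ∀ g ∈ N₀, ∀ u, υ g u = u) (t : U →+ U)
    (ht : ∀ u, ∑ v : G ⧸ N₀, υ (repQ N₀ v) (t (υ (repQ N₀ v)⁻¹ u)) = u) :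
    ShU1 (big F N₀) j κ υ ∧ ShU2 (big F N₀) SD j κ υ := by
  have hT : (traQ N₀).Sm (big F N₀) (ofTwo (two (res F N₀))) :=
    traQ_sm hN le_rfl ⟨0, by rw [Subgroup.relIndex_self, pow_zero]⟩
  obtain ⟨α, γ, hγ, eα, eγ⟩ := hig_summand h hU t ht
  constructor
  · intro x hx k1 k2
    refine sh1_retract (j := fun i : Φ × Bool => if i.2 then κ.comp (j i.1) else j i.1) hγ eα eγ
      (fun y hy => sh1_copies hT hi h2 hy) hx ?_
    rintro ⟨w, _ | _⟩
    · exact k1 w
    · exact k2 w
  · intro F' hF k1 k2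
    refine sha2_retract (SD := fun i : Φ × Bool => SD i.1)
      (j := fun i : Φ × Bool => if i.2 then κ.comp (j i.1) else j i.1) hγ eα eγ
      (sha_copies hT hj hs h2) F' hF ?_
    rintro ⟨w, _ | _⟩
    · exact k1 w
    · exact k2 w

end Pool.Agent.Work.MP_787500_nt.KR
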