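import Mathlib
import Pool.Agent.Work.MP_787500_nt.KR.Hig1

/-!
Existence of a Higman endomorphism for a plane over the residue field (of characteristic 2) on which `G / N₀`
acts faithfully, if 4 does not divide the order of `G / N₀`.
-/

set_option autoImplicit false
set_option linter.unusedSectionVars false

namespace Pool.Agent.Work.MP_787500_nt.KR

open Pool.Agent.Work.MP_787500_nt.GP (A0 half hf IsAct d0 d1 d2 tw cup11 cup02)

private theorem sum_pair_aux {V : Type*} [Fintype V] {τ : V → V} (hτ : ∀ v, τ (τ v) = v)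
    (hne : ∀ v, τ v ≠ v) : ∃ R R' : Finset V, (∀ v, v ∈ R' ↔ ∃ u ∈ R, τ u = v) ∧
      ∀ v, (v ∈ R ∧ v ∉ R') ∨ (v ∉ R ∧ v ∈ R') := by
  classical
  obtain ⟨e⟩ : Nonempty (V ≃ Fin (Fintype.card V)) := ⟨Fintype.equivFin V⟩
  refine ⟨Finset.univ.filter fun v => e v < e (τ v), Finset.univ.filter fun v => ¬ e v < e (τ v),
    ?_, fun v => ?_⟩
  · intro v
    simp only [Finset.mem_filter, Finset.mem_univ, true_and]
    constructor
    · intro h
      refine ⟨τ v, ?_, hτ v⟩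
      rw [hτ]
      rcases lt_or_eq_of_le (not_lt.1 h) with h1 | h1
      · exact h1
      · exact absurd (e.injective h1) (hne v)
    · rintro ⟨u, hu, rfl⟩
      rw [hτ]
      exact not_lt.2 hu.le
  · simp only [Finset.mem_filter, Finset.mem_univ, true_and, not_not]
    by_cases h : e v < e (τ v)
    · exact Or.inl ⟨h, h⟩
    · exact Or.inr ⟨h, h⟩

private theorem sum_pair_split {V B : Type*} [Fintype V] [AddCommMonoid B] {τ : V → V}
    (hτ : ∀ v, τ (τ v) = v) {R R' : Finset V} (h1 : ∀ v, v ∈ R' ↔ ∃ u ∈ R, τ u = v)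
    (h2 : ∀ v, (v ∈ R ∧ v ∉ R') ∨ (v ∉ R ∧ v ∈ R')) (g : V → B) :
    ∑ v, g v = ∑ v ∈ R, (g v + g (τ v)) := by
  classical
  have hinj : Function.Injective τ := Function.LeftInverse.injective hτ
  have e1 : R' = R.image τ := by
    ext v
    rw [h1, Finset.mem_image]
  have e2 : (Finset.univ : Finset V) = R ∪ R' := by
    ext v
    simp only [Finset.mem_univ, Finset.mem_union, true_iff]
    rcases h2 v with h | h
    · exact Or.inl h.1
    · exact Or.inr h.2
  have e3 : Disjoint R R' := by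
    rw [Finset.disjoint_left]
    intro v hv hv'
    rcases h2 v with h | h
    · exact h.2 hv'
    · exact h.1 hv
  rw [e2, Finset.sum_union e3, Finset.sum_add_distrib, e1,
    Finset.sum_image fun x _ y _ hxy => hinj hxy]

/-- the sum of a function whose values at `v` and `τ v` have the sum `a` -/
theorem sum_pair {V A : Type*} [Fintype V] [AddCommGroup A] {τ : V → V} (hτ : ∀ v, τ (τ v) = v)
    (hne : ∀ v, τ v ≠ v) {f : V → A} {a : A} (hf : ∀ v, f v + f (τ v) = a) :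
    ∃ m : ℕ, Fintype.card V = 2 * m ∧ ∑ v, f v = m • a := by
  classical
  obtain ⟨R, R', h1', h2⟩ := sum_pair_aux hτ hne
  refine ⟨R.card, ?_, ?_⟩
  · have h3 := sum_pair_split hτ h1' h2 fun _ : V => (1 : ℕ)
    rw [Finset.sum_const, Finset.sum_const, Finset.card_univ, smul_eq_mul, smul_eq_mul, mul_one]
      at h3
    rw [h3, mul_comm]
  · rw [sum_pair_split hτ h1' h2 f, Finset.sum_congr rfl fun v _ => hf v, Finset.sum_const]

section main

variable {G : Type*} [Group G] {N₀ : Subgroup G} {U : Type*} [AddCommGroup U] {υ : G → U → U}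

/-- a Higman endomorphism, from an endomorphism `t` with `t + υ(b) t υ(b)⁻¹ = id` -/
theorem hig_of_half [N₀.Normal] [Fintype (G ⧸ N₀)] (h : IsAct υ) (h2 : ∀ u : U, u + u = 0)
    (hN : ∀ g ∈ N₀, ∀ u, υ g u = u) {b : G} (hb : b ∉ N₀) (hbb : b * b ∈ N₀) (t : U →+ U)
    (ht : ∀ u, t u + υ b (t (υ b⁻¹ u)) = u) (h4 : ¬ 4 ∣ Nat.card (G ⧸ N₀)) (u : U) :
    ∑ v : G ⧸ N₀, υ (repQ N₀ v) (t (υ (repQ N₀ v)⁻¹ u)) = u := by
  let bq : G ⧸ N₀ := (b : G ⧸ N₀)
  have hbq : bq * bq = 1 := (QuotientGroup.eq_one_iff (b * b)).2 hbb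
  have hbq1 : bq ≠ 1 := fun h1 => hb ((QuotientGroup.eq_one_iff b).1 h1)
  obtain ⟨m, hm, hs⟩ := sum_pair (V := G ⧸ N₀) (τ := fun v => v * bq)
    (f := fun v : G ⧸ N₀ => υ (repQ N₀ v) (t (υ (repQ N₀ v)⁻¹ u))) (a := u)
    (fun v => by rw [mul_assoc, hbq, mul_one])
    (fun v hv => hbq1 (mul_eq_left.1 hv)) (fun v => by
      have e1 : ∀ x : U, υ (repQ N₀ (v * bq)) x = υ (repQ N₀ v) (υ b x) := by
        intro x
        rw [← h.mul]
        refine act_coset h hN ?_ x
        rw [← QuotientGroup.eq, mk_repQ, QuotientGroup.mk_mul, mk_repQ]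
      have e2 : ∀ x : U, υ (repQ N₀ (v * bq))⁻¹ x = υ b⁻¹ (υ (repQ N₀ v)⁻¹ x) := by
        intro x
        have h3 := e1 (υ b⁻¹ (υ (repQ N₀ v)⁻¹ x))
        rw [← h.mul b, mul_inv_cancel, h.one, ← h.mul (repQ N₀ v), mul_inv_cancel, h.one] at h3
        conv_lhs => rw [← h3]
        rw [← h.mul, inv_mul_cancel, h.one]
      show υ (repQ N₀ v) (t (υ (repQ N₀ v)⁻¹ u)) +
        υ (repQ N₀ (v * bq)) (t (υ (repQ N₀ (v * bq))⁻¹ u)) = u
      rw [e1, e2, ← h.add, ht, ← h.mul, mul_inv_cancel, h.one])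
  rw [hs]
  rw [Nat.card_eq_fintype_card, hm] at h4
  have hodd : Odd m := by
    rw [← Nat.not_even_iff_odd]
    rintro ⟨k, rfl⟩
    exact h4 ⟨k, by ring⟩
  obtain ⟨k, rfl⟩ := hodd
  rw [add_smul, mul_smul, one_smul, two_nsmul, ← nsmul_add, h2, nsmul_zero, zero_add]

/-- the identity is a Higman endomorphism if the order of `G / N₀` is odd -/
theorem hig_of_odd [Fintype (G ⧸ N₀)] (h : IsAct υ) (h2 : ∀ u : U, u + u = 0)
    (hodd : Odd (Nat.card (G ⧸ N₀))) (u : U) :
    ∑ v : G ⧸ N₀, υ (repQ N₀ v) (AddMonoidHom.id U (υ (repQ N₀ v)⁻¹ u)) = u := by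
  have h1 : ∀ v : G ⧸ N₀, υ (repQ N₀ v) (AddMonoidHom.id U (υ (repQ N₀ v)⁻¹ u)) = u := by
    intro v
    rw [AddMonoidHom.id_apply, ← h.mul, mul_inv_cancel, h.one]
  rw [Finset.sum_congr rfl fun v _ => h1 v, Finset.sum_const, Finset.card_univ,
    ← Nat.card_eq_fintype_card]
  obtain ⟨k, hk⟩ := hodd
  rw [hk, add_smul, mul_smul, one_smul, two_nsmul, ← nsmul_add, h2, nsmul_zero, zero_add]

/-- an involution of a plane over the residue field: an endomorphism `t` with `t + υ(b) t υ(b)⁻¹ = id` -/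
theorem exists_half {O : Type*} [CommRing O] [IsLocalRing O]
    [Finite (IsLocalRing.ResidueField O)] [Module O U] [Finite U] (h : IsAct υ)
    (hlin : ∀ g (a : O) u, υ g (a • u) = a • υ g u)
    (h2 : (2 : O) ∈ IsLocalRing.maximalIdeal O)
    (hm : ∀ a ∈ IsLocalRing.maximalIdeal O, ∀ u : U, a • u = 0)
    (hcard : Nat.card U = Nat.card (IsLocalRing.ResidueField O) ^ 2) {b : G}
    (hbb : ∀ u, υ (b * b) u = u) {e₀ : U} (he : υ b e₀ ≠ e₀) :
    ∃ t : U →+ U, ∀ u, t u + υ b (t (υ b⁻¹ u)) = u := by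
  have hb2 : ∀ u, υ b (υ b u) = u := fun u => by rw [← h.mul, hbb]
  have hbi : ∀ u, υ b⁻¹ u = υ b u := fun u => by
    conv_lhs => rw [← hb2 u]
    rw [← h.mul, inv_mul_cancel, h.one]
  have hann : ∀ (u : U), u ≠ 0 → ∀ a : O, a • u = 0 → a ∈ IsLocalRing.maximalIdeal O := by
    intro u hu a ha
    by_contra h1
    rw [IsLocalRing.mem_maximalIdeal, mem_nonunits_iff, not_not] at h1
    exact hu ((h1.smul_eq_zero).1 ha)
  have he0 : e₀ ≠ 0 := by
    rintro rfl
    exact he (h.zero b)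
  have he1 : υ b e₀ ≠ 0 := by
    intro h1
    have h3 := hb2 e₀
    rw [h1, h.zero] at h3
    exact he0 h3.symm
  let K₁ : Submodule O U := Submodule.span O {e₀}
  let K₂ : Submodule O U := Submodule.span O {υ b e₀}
  have hdis : Disjoint K₁ K₂ := by
    rw [Submodule.disjoint_def]
    intro x hx1 hx2
    obtain ⟨a, rfl⟩ := Submodule.mem_span_singleton.1 hx1
    obtain ⟨c, hc⟩ := Submodule.mem_span_singleton.1 hx2
    by_contra hne
    have ha : IsUnit a := by
      by_contra h1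
      exact hne (hm a h1 e₀)
    have hcu : IsUnit c := by
      by_contra h1
      exact hne (by rw [← hc]; exact hm c h1 _)
    obtain ⟨a', rfl⟩ := ha
    obtain ⟨c', rfl⟩ := hcu
    -- υ b e₀ = (c⁻¹ a) e₀
    have h3 : υ b e₀ = ((c'⁻¹ * a' : Oˣ) : O) • e₀ := by
      rw [Units.val_mul, mul_smul, ← hc, smul_smul, Units.inv_mul, one_smul]
    set r : O := ((c'⁻¹ * a' : Oˣ) : O) with hr
    have h4 : (r * r) • e₀ = e₀ := by
      rw [mul_smul, ← h3, ← hlin, ← h3, hb2]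
    have h5 : (r * r - 1) ∈ IsLocalRing.maximalIdeal O := by
      refine hann e₀ he0 _ ?_
      rw [sub_smul, h4, one_smul, sub_self]
    have h6 : (r - 1) * (r - 1) ∈ IsLocalRing.maximalIdeal O := by
      have : (r - 1) * (r - 1) = (r * r - 1) - 2 * (r - 1) := by ring
      rw [this]
      exact Ideal.sub_mem _ h5 (Ideal.mul_mem_right _ _ h2)
    have h7 : r - 1 ∈ IsLocalRing.maximalIdeal O := by
      rcases (IsLocalRing.maximalIdeal.isMaximal O).isPrime.mem_or_mem h6 with h | h <;> exact h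
    apply he
    rw [h3]
    have h8 := hm _ h7 e₀
    rw [sub_smul, one_smul, sub_eq_zero] at h8
    exact h8
  have hcK : ∀ u : U, u ≠ 0 → Nat.card (Submodule.span O {u} : Submodule O U) =
      Nat.card (IsLocalRing.ResidueField O) := by
    intro u hu
    let f : O →ₗ[O] U := LinearMap.toSpanSingleton O U u
    have hker : LinearMap.ker f = IsLocalRing.maximalIdeal O := by
      ext a
      rw [LinearMap.mem_ker]
      exact ⟨fun h1 => hann u hu a h1, fun h1 => hm a h1 u⟩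
    have hran : LinearMap.range f = Submodule.span O {u} := LinearMap.range_toSpanSingleton u
    rw [← hran, Nat.card_congr (f.quotKerEquivRange).symm.toEquiv, hker]
    rfl
  have hcod : Codisjoint K₁ K₂ := by
    rw [codisjoint_iff]
    have h1 : Nat.card (K₁ ⊔ K₂ : Submodule O U) = Nat.card U := by
      have h3 : Function.Injective (fun x : K₁ × K₂ => (⟨x.1 + x.2,
          Submodule.add_mem_sup x.1.2 x.2.2⟩ : (K₁ ⊔ K₂ : Submodule O U))) := by
        rintro ⟨x, y⟩ ⟨x', y'⟩ hxy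
        have h5 : (x : U) + y = x' + y' := congrArg Subtype.val hxy
        have h6 : (x : U) - x' = y' - y := by
          rw [sub_eq_sub_iff_add_eq_add, h5, add_comm]
        have h7 : (x : U) - x' = 0 := Submodule.disjoint_def.1 hdis _ (K₁.sub_mem x.2 x'.2)
          (by rw [h6]; exact K₂.sub_mem y'.2 y.2)
        have h8 : (y' : U) - y = 0 := by rw [← h6, h7]
        rw [Prod.mk.injEq]
        exact ⟨Subtype.ext (sub_eq_zero.1 h7), Subtype.ext (sub_eq_zero.1 h8).symm⟩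
      have h4 := Nat.card_le_card_of_injective _ h3
      rw [Nat.card_prod, hcK e₀ he0, hcK _ he1, ← sq, ← hcard] at h4
      exact le_antisymm (Nat.card_le_card_of_injective _ Subtype.val_injective) h4
    rw [eq_top_iff]
    intro x _
    by_contra hx
    have h3 : Set.ncard ((K₁ ⊔ K₂ : Submodule O U) : Set U) < Set.ncard (Set.univ : Set U) :=
      Set.ncard_lt_ncard ⟨Set.subset_univ _, fun h4 => hx (h4 (Set.mem_univ x))⟩
        (Set.toFinite _)
    rw [Set.ncard_univ, ← h1, ← Nat.card_coe_set_eq] at h3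
    exact lt_irrefl _ h3
  have hcompl : IsCompl K₁ K₂ := ⟨hdis, hcod⟩
  have hb1 : ∀ x ∈ K₁, υ b x ∈ K₂ := by
    intro x hx
    obtain ⟨a, rfl⟩ := Submodule.mem_span_singleton.1 hx
    rw [hlin]
    exact K₂.smul_mem a (Submodule.mem_span_singleton_self _)
  have hb2' : ∀ x ∈ K₂, υ b x ∈ K₁ := by
    intro x hx
    obtain ⟨a, rfl⟩ := Submodule.mem_span_singleton.1 hx
    rw [hlin, hb2]
    exact K₁.smul_mem a (Submodule.mem_span_singleton_self _)
  let p : U →ₗ[O] K₁ := Submodule.projectionOnto K₁ K₂ hcompl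
  have hp1 : ∀ x ∈ K₁, ∀ y ∈ K₂, (p (x + y) : U) = x := by
    intro x hx y hy
    have h3 : p x = ⟨x, hx⟩ := Submodule.projectionOnto_apply_left hcompl ⟨x, hx⟩
    have h5 : p y = 0 := Submodule.projectionOnto_apply_right hcompl ⟨y, hy⟩
    rw [map_add, h3, h5, add_zero]
  refine ⟨(K₁.subtype.comp p).toAddMonoidHom, fun u => ?_⟩
  have hu : u ∈ K₁ ⊔ K₂ := by
    rw [codisjoint_iff.1 hcod]
    trivial
  obtain ⟨x, hx, y, hy, rfl⟩ := Submodule.mem_sup.1 hu
  show (p (x + y) : U) + υ b (p (υ b⁻¹ (x + y)) : U) = x + y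
  rw [hp1 x hx y hy, hbi, h.add, add_comm (υ b x), hp1 _ (hb2' y hy) _ (hb1 x hx), hb2]

/-- a Higman endomorphism of a plane over the residue field if 4 does not divide the order of `G / N₀` -/
theorem exists_hig {O : Type*} [CommRing O] [IsLocalRing O]
    [Finite (IsLocalRing.ResidueField O)] [Module O U] [Finite U] [N₀.Normal] [Fintype (G ⧸ N₀)]
    (h : IsAct υ) (hlin : ∀ g (a : O) u, υ g (a • u) = a • υ g u)
    (h2 : (2 : O) ∈ IsLocalRing.maximalIdeal O)
    (hm : ∀ a ∈ IsLocalRing.maximalIdeal O, ∀ u : U, a • u = 0)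
    (hcard : Nat.card U = Nat.card (IsLocalRing.ResidueField O) ^ 2)
    (hN : ∀ g, g ∈ N₀ ↔ ∀ u, υ g u = u) (h4 : ¬ 4 ∣ Nat.card (G ⧸ N₀)) :
    ∃ t : U →+ U, ∀ u, ∑ v : G ⧸ N₀, υ (repQ N₀ v) (t (υ (repQ N₀ v)⁻¹ u)) = u := by
  have h2' : ∀ u : U, u + u = 0 := by
    intro u
    have := hm 2 h2 u
    rwa [two_smul] at this
  by_cases hodd : Odd (Nat.card (G ⧸ N₀))
  · exact ⟨_, hig_of_odd h h2' hodd⟩
  · have heven : 2 ∣ Nat.card (G ⧸ N₀) := (Nat.not_odd_iff_even.1 hodd).two_dvd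
    have : Fact (Nat.Prime 2) := ⟨Nat.prime_two⟩
    obtain ⟨x, hx⟩ := exists_prime_orderOf_dvd_card' (G := G ⧸ N₀) 2 heven
    obtain ⟨b, rfl⟩ := QuotientGroup.mk_surjective x
    have hb : b ∉ N₀ := by
      intro h1
      rw [(QuotientGroup.eq_one_iff b).2 h1, orderOf_one] at hx
      exact absurd hx (by norm_num)
    have hbb : b * b ∈ N₀ := by
      rw [← QuotientGroup.eq_one_iff, QuotientGroup.mk_mul, ← sq, ← hx]
      exact pow_orderOf_eq_one _
    have h5 : ∃ e₀, υ b e₀ ≠ e₀ := by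
      by_contra h1
      push Not at h1
      exact hb ((hN b).2 h1)
    obtain ⟨e₀, he₀⟩ := h5
    obtain ⟨t, ht⟩ := exists_half h hlin h2 hm hcard ((hN _).1 hbb) he₀
    exact ⟨t, hig_of_half h h2' (fun g hg => (hN g).1 hg) hb hbb t ht h4⟩

/-- Sha of a plane over the residue field if 4 does not divide the order of `G / N₀` -/
theorem shU_proj {F : FSys G} {Φ : Type*} [Fintype Φ] {D : Φ → Type*} [∀ w, Group (D w)]
    {SD : ∀ w, FSys (D w)} {j : ∀ w, D w →* G} {κ : G →* G} [N₀.Normal] (hN₀ : Opn F N₀)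
    (hj : ∀ (i : Φ × Bool) W, (big F N₀).mem W → ∃ W', (SD i.1).mem W' ∧
      ∀ w ∈ W', (if i.2 then κ.comp (j i.1) else j i.1) w ∈ W)
    (hi : InjC F N₀ (fun i : Φ × Bool => if i.2 then κ.comp (j i.1) else j i.1))
    (hs : ShaC F N₀ (fun i : Φ × Bool => SD i.1)
      (fun i => if i.2 then κ.comp (j i.1) else j i.1))
    {O : Type*} [CommRing O] [IsLocalRing O] [Finite (IsLocalRing.ResidueField O)] [Module O U]
    [Finite U] (h : IsAct υ) (hlin : ∀ g (a : O) u, υ g (a • u) = a • υ g u)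
    (h2 : (2 : O) ∈ IsLocalRing.maximalIdeal O)
    (hm : ∀ a ∈ IsLocalRing.maximalIdeal O, ∀ u : U, a • u = 0)
    (hcard : Nat.card U = Nat.card (IsLocalRing.ResidueField O) ^ 2)
    (hN : ∀ g, g ∈ N₀ ↔ ∀ u, υ g u = u) (h4 : ¬ 4 ∣ Nat.card (G ⧸ N₀)) :
    ShU1 (big F N₀) j κ υ ∧ ShU2 (big F N₀) SD j κ υ := by
  have hfin : Finite (G ⧸ N₀) := by
    refine Nat.finite_of_card_ne_zero ?_
    obtain ⟨W, hW, hle⟩ := hN₀
    intro h0
    exact F.index hW (Nat.eq_zero_of_zero_dvd (h0 ▸ Subgroup.index_dvd_of_le hle))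
  have := Fintype.ofFinite (G ⧸ N₀)
  obtain ⟨t, ht⟩ := exists_hig h hlin h2 hm hcard hN h4
  exact shU_hig hN₀ hj hi hs h (fun u => by
    have := hm 2 h2 u
    rwa [two_smul] at this) (fun g hg => (hN g).1 hg) t ht

end main

end Pool.Agent.Work.MP_787500_nt.KR
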