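import Mathlib
import Pool.Agent.Work.MP_787500_nt.KR.L06
import Pool.Agent.Work.MP_787500_nt.GP.L03_Ring

/-!
Dimension two: a maximal integral stable lattice is self-dual for the form or for the form divided by a
uniformizer, if `b (x, ρ θ x) = 0` for some `θ`.
-/

set_option autoImplicit false
set_option linter.unusedSectionVars false

namespace Pool.Agent.Work.MP_787500_nt.KR

open Matrix
open Pool.Agent.Work.MP_787500_nt.PA (toE)
open Pool.Agent.Work.MP_787500_nt.GP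

variable {E : Type*} [NormedField E] [NormedAlgebra ℚ_[2] E] [FiniteDimensional ℚ_[2] E]
variable {G : Type*} [Group G] {S : FSys G} {χ : G → ℤ_[2]}

theorem bil_smul_mat {n : ℕ} (a : E) (b : Matrix (Fin n) (Fin n) E) (x y : Fin n → E) :
    bil (a • b) x y = a * bil b x y := by
  unfold bil
  rw [smul_mulVec, dotProduct_smul, smul_eq_mul]

/-- in dimension two an alternating form satisfies `a (x, y) z = a (z, y) x + a (x, z) y` -/
theorem alt_two (a : Matrix (Fin 2) (Fin 2) E) (ha : ∀ x, bil a x x = 0) (x y z : Fin 2 → E) :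
    bil a x y • z = bil a z y • x + bil a x z • y := by
  have h0 : a 0 0 = 0 := by
    have := ha ![1, 0]
    simpa [bil, dotProduct, mulVec, Fin.sum_univ_two] using this
  have h1 : a 1 1 = 0 := by
    have := ha ![0, 1]
    simpa [bil, dotProduct, mulVec, Fin.sum_univ_two] using this
  have h2 : a 1 0 = -a 0 1 := by
    have := ha ![1, 1]
    simp only [bil, dotProduct, mulVec, Fin.sum_univ_two, h0, h1] at this
    simp at this
    linear_combination this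
  have hv : ∀ u v : Fin 2 → E, bil a u v = a 0 1 * (u 0 * v 1 - u 1 * v 0) := by
    intro u v
    simp only [bil, dotProduct, mulVec, Fin.sum_univ_two, h0, h1, h2]
    ring
  ext i
  rw [hv, hv, hv]
  fin_cases i
  · simp only [Pi.add_apply, Pi.smul_apply, smul_eq_mul, Fin.zero_eta, Fin.isValue]
    ring
  · simp only [Pi.add_apply, Pi.smul_apply, smul_eq_mul, Fin.mk_one, Fin.isValue]
    ring

theorem toE_norm (a : ℤ_[2]) : ‖toE E a‖ ≤ 1 := by
  rw [toE, norm_algebraMap']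
  exact a.2

/-- a maximal integral stable lattice is self-dual or its form is divisible by a uniformizer -/
theorem lat_two_step {ρ : G → Matrix (Fin 2) (Fin 2) E} (h1 : ρ 1 = 1)
    (hm : ∀ s t, ρ (s * t) = ρ s * ρ t)
    {b : Matrix (Fin 2) (Fin 2) E} (hbs : bᵀ = b)
    {κ : G → G} (hd : ∀ g x y, bil b (ρ g *ᵥ x) (ρ (κ g) *ᵥ y) = toE E (χ g) * bil b x y)
    {θ : G} (hal : ∀ x, bil b x (ρ θ *ᵥ x) = 0)
    {l : OE E} (hl1 : ‖(l : E)‖ < 1) (hlm : ∀ x : E, ‖x‖ < 1 → ‖x‖ ≤ ‖(l : E)‖)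
    {T : Submodule (OE E) (Fin 2 → E)} (hst : ∀ g, ∀ x ∈ T, ρ g *ᵥ x ∈ T)
    (hint : ∀ x ∈ T, ∀ y ∈ T, ‖bil b x y‖ ≤ 1)
    (hopn : ∃ r : ℝ, 0 < r ∧ ∀ x : Fin 2 → E, ‖x‖ < r → x ∈ T)
    (hmax : ∀ T' : Submodule (OE E) (Fin 2 → E), T ≤ T' → (∀ g, ∀ x ∈ T', ρ g *ᵥ x ∈ T') →
        (∀ x ∈ T', ∀ y ∈ T', ‖bil b x y‖ ≤ 1) → T' = T) :
    (∀ x, x ∈ T ↔ ∀ y ∈ T, ‖bil b x y‖ ≤ 1) ∨ ∀ x ∈ T, ∀ y ∈ T, ‖bil b x y‖ ≤ ‖(l : E)‖ := by
  have hu := Gn.ultra 2 E
  by_cases hsd : ∀ x, (∀ y ∈ T, ‖bil b x y‖ ≤ 1) → x ∈ T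
  · exact Or.inl fun x => ⟨fun hx y hy => hint x hx y hy, hsd x⟩
  right
  push Not at hsd
  obtain ⟨z, hz, hzT⟩ := hsd
  let T' : Submodule (OE E) (Fin 2 → E) :=
    { carrier := {x | ∀ y ∈ T, ‖bil b x y‖ ≤ 1}
      add_mem' := fun {x x'} hx hx' y hy => by
        rw [bil_add_left]
        exact (IsUltrametricDist.norm_add_le_max _ _).trans (max_le (hx y hy) (hx' y hy))
      zero_mem' := fun y _ => by
        rw [bil, zero_dotProduct, norm_zero]
        exact zero_le_one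
      smul_mem' := fun a x hx y hy => by
        have h1 : a • x = (a : E) • x := rfl
        rw [h1, bil_smul_left, norm_mul]
        exact mul_le_one₀ a.2 (norm_nonneg _) (hx y hy) }
  have hT' : ∀ x, x ∈ T' ↔ ∀ y ∈ T, ‖bil b x y‖ ≤ 1 := fun x => Iff.rfl
  have hst' : ∀ g, ∀ x ∈ T', ρ g *ᵥ x ∈ T' := by
    intro g x hx y hy
    have h2 : y = ρ (κ g) *ᵥ (ρ (κ g)⁻¹ *ᵥ y) := by
      rw [mulVec_mulVec, ← hm, mul_inv_cancel, h1, one_mulVec]
    rw [h2, hd, norm_mul]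
    exact mul_le_one₀ (toE_norm _) (norm_nonneg _) (hx _ (hst _ _ hy))
  let W : Submodule (OE E) (Fin 2 → E) :=
    { carrier := {x | x ∈ T' ∧ l • x ∈ T}
      add_mem' := fun {x x'} hx hx' => ⟨T'.add_mem hx.1 hx'.1, by
        rw [smul_add]
        exact T.add_mem hx.2 hx'.2⟩
      zero_mem' := ⟨T'.zero_mem, by
        rw [smul_zero]
        exact T.zero_mem⟩
      smul_mem' := fun a x hx => ⟨T'.smul_mem a hx.1, by
        rw [smul_comm]
        exact T.smul_mem a hx.2⟩ }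
  have hW : ∀ x, x ∈ W ↔ x ∈ T' ∧ l • x ∈ T := fun x => Iff.rfl
  have hstW : ∀ g, ∀ x ∈ W, ρ g *ᵥ x ∈ W := by
    intro g x hx
    refine ⟨hst' g x hx.1, ?_⟩
    have h2 : l • (ρ g *ᵥ x) = ρ g *ᵥ (l • x) := by
      have h3 : ∀ v : Fin 2 → E, l • v = (l : E) • v := fun v => rfl
      rw [h3, h3, mulVec_smul]
    rw [h2]
    exact hst g _ hx.2
  have hTW : T ≤ W := fun x hx => ⟨fun y hy => hint x hx y hy, T.smul_mem l hx⟩
  -- an element of `W` outside `T`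
  have hne : ∃ w ∈ W, w ∉ T := by
    obtain ⟨r, hr, hr'⟩ := hopn
    have hpow : ∃ k : ℕ, l ^ k • z ∈ T := by
      obtain ⟨k, hk⟩ := exists_pow_lt_of_lt_one (show 0 < r / (‖z‖ + 1) by positivity) hl1
      refine ⟨k, hr' _ ?_⟩
      have h2 : l ^ k • z = (l : E) ^ k • z := rfl
      rw [h2, norm_smul, norm_pow]
      rw [lt_div_iff₀ (by positivity)] at hk
      have h3 : 0 ≤ ‖(l : E)‖ ^ k := by positivity
      nlinarith [norm_nonneg z]
    classical
    have hk0 : Nat.find hpow ≠ 0 := by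
      intro h0
      have h2 := Nat.find_spec hpow
      rw [h0, pow_zero, one_smul] at h2
      exact hzT h2
    obtain ⟨k, hk⟩ := Nat.exists_eq_succ_of_ne_zero hk0
    refine ⟨l ^ k • z, ⟨T'.smul_mem _ hz, ?_⟩, Nat.find_min hpow (by omega)⟩
    have h2 := Nat.find_spec hpow
    rw [hk, Nat.succ_eq_add_one, pow_succ', mul_smul] at h2
    exact h2
  have hWint : ¬ ∀ x ∈ W, ∀ y ∈ W, ‖bil b x y‖ ≤ 1 := by
    intro h
    obtain ⟨w, hw, hwT⟩ := hne
    rw [hmax W hTW hstW h] at hw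
    exact hwT hw
  push Not at hWint
  obtain ⟨x, hx, y, hy, hxy⟩ := hWint
  set y' := ρ θ⁻¹ *ᵥ y with hy'
  have hyy : ρ θ *ᵥ y' = y := by rw [hy', mulVec_mulVec, ← hm, mul_inv_cancel, h1, one_mulVec]
  have hy'W : y' ∈ W := hstW _ _ hy
  have ha : ∀ u v, bil (b * ρ θ) u v = bil b u (ρ θ *ᵥ v) := by
    intro u v
    unfold bil
    rw [mulVec_mulVec]
  intro u hu' v hv
  have h3 := alt_two (b * ρ θ) (fun w => by rw [ha, hal]) x y' u
  rw [ha, ha, ha, hyy] at h3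
  have hxy0 : bil b x y ≠ 0 := by
    intro h0
    rw [h0, norm_zero] at hxy
    linarith
  have h4 : bil b x y * bil b u v = bil b u y * bil b x v + bil b x (ρ θ *ᵥ u) * bil b y' v := by
    rw [← bil_smul_left, h3, bil_add_left, bil_smul_left, bil_smul_left]
  have e1 : ‖bil b u y‖ ≤ 1 := by
    rw [bil_symm hbs]
    exact hy.1 u hu'
  have e2 : ‖bil b x v‖ ≤ 1 := hx.1 v hv
  have e3 : ‖bil b x (ρ θ *ᵥ u)‖ ≤ 1 := hx.1 _ (hst _ _ hu')
  have e4 : ‖bil b y' v‖ ≤ 1 := hy'W.1 v hv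
  have h5 : ‖bil b x y * bil b u v‖ ≤ 1 := by
    rw [h4]
    refine (IsUltrametricDist.norm_add_le_max _ _).trans (max_le ?_ ?_)
    · rw [norm_mul]
      exact mul_le_one₀ e1 (norm_nonneg _) e2
    · rw [norm_mul]
      exact mul_le_one₀ e3 (norm_nonneg _) e4
  refine hlm _ ?_
  rw [norm_mul] at h5
  by_contra h6
  push Not at h6
  nlinarith [norm_nonneg (bil b u v)]

theorem lat_two {ρ : G → Matrix (Fin 2) (Fin 2) E} (hρ : SmallRep S ρ)
    {b : Matrix (Fin 2) (Fin 2) E} (hb : b.det ≠ 0) (hbs : bᵀ = b)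
    {κ : G → G} (hd : ∀ g x y, bil b (ρ g *ᵥ x) (ρ (κ g) *ᵥ y) = toE E (χ g) * bil b x y)
    {θ : G} (hal : ∀ x, bil b x (ρ θ *ᵥ x) = 0)
    {l : OE E} (hl0 : (l : E) ≠ 0) (hl1 : ‖(l : E)‖ < 1)
    (hlm : ∀ x : E, ‖x‖ < 1 → ‖x‖ ≤ ‖(l : E)‖) :
    ∃ (a : E) (T : Submodule (OE E) (Fin 2 → E)), a ≠ 0 ∧ (∀ g, ∀ x ∈ T, ρ g *ᵥ x ∈ T) ∧
      (∀ x, x ∈ T ↔ ∀ y ∈ T, ‖bil (a • b) x y‖ ≤ 1) ∧ (∃ R : ℝ, ∀ x ∈ T, ‖x‖ ≤ R) ∧
      ∃ r : ℝ, 0 < r ∧ ∀ x : Fin 2 → E, ‖x‖ < r → x ∈ T := by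
  obtain ⟨T, hst, hint, hbdd, hopn, -, hmax⟩ := exists_latMax hρ hb hbs
  have hl0' : 0 < ‖(l : E)‖ := norm_pos_iff.2 hl0
  rcases lat_two_step hρ.one hρ.mul hbs hd hal hl1 hlm hst hint hopn hmax with h | h
  · exact ⟨1, T, one_ne_zero, hst, by simpa only [one_smul] using h, hbdd, hopn⟩
  have hc : ∀ x y, bil ((l : E)⁻¹ • b) x y = (l : E)⁻¹ * bil b x y := fun x y =>
    bil_smul_mat _ _ _ _
  have hint1 : ∀ x ∈ T, ∀ y ∈ T, ‖bil ((l : E)⁻¹ • b) x y‖ ≤ 1 := by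
    intro x hx y hy
    rw [hc, norm_mul, norm_inv, inv_mul_le_iff₀ hl0', mul_one]
    exact h x hx y hy
  rcases lat_two_step (b := (l : E)⁻¹ • b) hρ.one hρ.mul (by rw [transpose_smul, hbs])
      (fun g x y => by rw [hc, hc, hd]; ring) (fun x => by rw [hc, hal, mul_zero]) hl1 hlm hst hint1
      hopn (fun T' hle hst' hint' => hmax T' hle hst' fun x hx y hy => by
        have h2 := hint' x hx y hy
        rw [hc, norm_mul, norm_inv, inv_mul_le_iff₀ hl0', mul_one] at h2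
        exact h2.trans hl1.le) with h2 | h2
  · exact ⟨(l : E)⁻¹, T, inv_ne_zero hl0, hst, h2, hbdd, hopn⟩
  exfalso
  let T₂ : Submodule (OE E) (Fin 2 → E) :=
    { carrier := {x | l • x ∈ T}
      add_mem' := fun {x x'} hx hx' => by
        show l • (x + x') ∈ T
        rw [smul_add]
        exact T.add_mem hx hx'
      zero_mem' := by
        show l • (0 : Fin 2 → E) ∈ T
        rw [smul_zero]
        exact T.zero_mem
      smul_mem' := fun a x hx => by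
        show l • (a • x) ∈ T
        rw [smul_comm]
        exact T.smul_mem a hx }
  have hls : ∀ v : Fin 2 → E, l • v = (l : E) • v := fun v => rfl
  have hT₂ : T₂ = T := by
    refine hmax T₂ (fun x hx => T.smul_mem l hx) (fun g x hx => ?_) (fun x hx y hy => ?_)
    · show l • (ρ g *ᵥ x) ∈ T
      rw [hls, ← mulVec_smul, ← hls]
      exact hst g _ hx
    · have h3 := h2 _ hx _ hy
      rw [hc, hls, hls, bil_smul_left, bil_smul_right] at h3
      have h4 : (l : E)⁻¹ * ((l : E) * ((l : E) * bil b x y)) = (l : E) * bil b x y := by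
        rw [← mul_assoc, inv_mul_cancel₀ hl0, one_mul]
      rw [h4, norm_mul] at h3
      exact le_of_mul_le_mul_left (by rwa [mul_one]) hl0'
  have hall : ∀ x : Fin 2 → E, x ∈ T := by
    intro x
    obtain ⟨r, hr, hr'⟩ := hopn
    obtain ⟨k, hk⟩ := exists_pow_lt_of_lt_one (show 0 < r / (‖x‖ + 1) by positivity) hl1
    have h3 : l ^ k • x ∈ T := by
      refine hr' _ ?_
      have h2 : l ^ k • x = (l : E) ^ k • x := rfl
      rw [h2, norm_smul, norm_pow]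
      rw [lt_div_iff₀ (by positivity)] at hk
      have h3 : 0 ≤ ‖(l : E)‖ ^ k := by positivity
      nlinarith [norm_nonneg x]
    clear hk
    induction k with
    | zero => simpa using h3
    | succ k ih =>
      refine ih ?_
      rw [← hT₂]
      show l • (l ^ k • x) ∈ T
      rw [← mul_smul, ← pow_succ']
      exact h3
  obtain ⟨R, hR⟩ := hbdd
  obtain ⟨k, hk⟩ := exists_pow_lt_of_lt_one (show 0 < 1 / (|R| + 1) by positivity) hl1
  have h5 := hR (fun _ => ((l : E) ^ k)⁻¹) (hall _)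
  have h6 : ‖((l : E) ^ k)⁻¹‖ ≤ R :=
    (norm_le_pi_norm (fun _ : Fin 2 => ((l : E) ^ k)⁻¹) 0).trans h5
  rw [norm_inv, norm_pow] at h6
  have h7 : 0 < ‖(l : E)‖ ^ k := by positivity
  have h8 : |R| + 1 < (‖(l : E)‖ ^ k)⁻¹ := by
    rw [one_div] at hk
    exact (lt_inv_comm₀ h7 (by positivity)).1 hk
  have h9 := le_abs_self R
  linarith

end Pool.Agent.Work.MP_787500_nt.KR
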